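import Mathlib
import Pool.Agent.Lib.MP_1e3e9c_agM.MDefs

/-!
# MP_1e3e9c_ag, project F (Fano manifolds): definitions

`LCI`, `Un`, `crv`, `val` are those of project R, `Gc`, `Gp`, `Mn`, `Cn`, `Bi`, `bc` those of project M (`MDefs.lean`).
-/

set_option autoImplicit false

namespace Pool.Agent.Lib.MP_1e3e9c_agF

open Pool.Agent.Lib.MP_1e3e9c_agR Pool.Agent.Lib.MP_1e3e9c_agM

/-- The minor of the Jacobian matrix of `P_1, ..., P_c` with the columns `j_1, ..., j_c`. -/
noncomputable def mnr {k : Type} [Field k] {n c : ℕ} (P : Fin c → MvPolynomial (Fin (n + 1)) k)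
    (j : Fin c → Fin (n + 1)) : MvPolynomial (Fin (n + 1)) k :=
  Matrix.det (Matrix.of fun a b : Fin c => MvPolynomial.pderiv (j b) (P a))

/-- The zero set of `S` is smooth of codimension `c`. -/
def Sm {k : Type} [Field k] {n : ℕ} (S : Set (MvPolynomial (Fin (n + 1)) k)) (c : ℕ) : Prop :=
  ∀ x : Fin (n + 1) → k, x ≠ 0 → (∀ P ∈ S, MvPolynomial.eval x P = 0) → LCI S c x

/-- `ψ` is a generator of the determinant of the conormal bundle of the zero set `V` of `S`, twisted by `O(e)`:
the canonical bundle of `V` is `O(e - ∑ w_i)`. -/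
structure Cnl {k : Type} [Field k] {n : ℕ} (w : Fin (n + 1) → ℕ)
    (S : Set (MvPolynomial (Fin (n + 1)) k)) (c e : ℕ)
    (ψ : (Fin c → Fin (n + 1)) → MvPolynomial (Fin (n + 1)) k) : Prop where
  hom : ∀ j, ψ j ≠ 0 → ∃ d, (ψ j).IsWeightedHomogeneous w d ∧ d + ∑ b, w (j b) = e
  eq : ∀ x : Fin (n + 1) → k, x ≠ 0 → (∀ P ∈ S, MvPolynomial.eval x P = 0) →
    ∀ P : Fin c → MvPolynomial (Fin (n + 1)) k, (∀ l, P l ∈ S) → ∀ i j,
      MvPolynomial.eval x (ψ i) * MvPolynomial.eval x (mnr P j) =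
        MvPolynomial.eval x (ψ j) * MvPolynomial.eval x (mnr P i)
  ne : ∀ x : Fin (n + 1) → k, x ≠ 0 → (∀ P ∈ S, MvPolynomial.eval x P = 0) →
    ∃ j, MvPolynomial.eval x (ψ j) ≠ 0

/-- The values on the arc `g` of the weighted homogeneous polynomials of weight `d`. -/
noncomputable def Ad {k : Type} [Field k] {n : ℕ} (w : Fin (n + 1) → ℕ)
    (g : Fin (n + 1) → PowerSeries k) (d : ℕ) : Submodule k (PowerSeries k) :=
  (MvPolynomial.weightedHomogeneousSubmodule k w d).map (MvPolynomial.aeval g).toLinearMap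

/-- `δ` is a section of `O(d)` over the curve which contains the arc `g`. -/
def Sat {k : Type} [Field k] {n : ℕ} (w : Fin (n + 1) → ℕ) (g : Fin (n + 1) → PowerSeries k)
    (d : ℕ) (δ : PowerSeries k) : Prop :=
  ∃ M : ℕ, ∀ i, g i ^ M * δ ∈ Ad w g (d + w i * M)

/-- The coefficients of the power series `g` over `L` span a finite-dimensional `k`-vector space. -/
def Fg (k : Type) {L : Type} [Field k] [Field L] [Algebra k L] (g : PowerSeries L) : Prop :=
  (Submodule.span k (Set.range fun l => PowerSeries.coeff l g)).FG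

/-- The generic member `f + ∑ X_α b_α` of an affine family of tuples of power series. -/
noncomputable def gen {k : Type} [Field k] {n : ℕ} {ι : Type} [Fintype ι]
    (f : Fin (n + 1) → PowerSeries k) (b : ι → Fin (n + 1) → PowerSeries k) (i : Fin (n + 1)) :
    PowerSeries (MvPolynomial ι k) :=
  PowerSeries.map MvPolynomial.C (f i) +
    ∑ α, PowerSeries.C (MvPolynomial.X α) * PowerSeries.map MvPolynomial.C (b α i)

/-- The conditions for the member of the family to have values in the zero set of `S`. -/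
noncomputable def JT {k : Type} [Field k] {n : ℕ} {ι : Type} [Fintype ι]
    (S : Set (MvPolynomial (Fin (n + 1)) k)) (f : Fin (n + 1) → PowerSeries k)
    (b : ι → Fin (n + 1) → PowerSeries k) : Ideal (MvPolynomial ι k) :=
  Ideal.span {q | ∃ P ∈ S, ∃ l, q = PowerSeries.coeff l (MvPolynomial.aeval (gen f b) P)}

/-- The system of spaces `L d` of power series, and the tuple `f` of degree `D`. -/
structure Lsys {k : Type} [Field k] {n : ℕ} (w : Fin (n + 1) → ℕ)
    (S : Set (MvPolynomial (Fin (n + 1)) k)) (D : ℕ) (L : ℕ → Submodule k (PowerSeries k))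
    (f : Fin (n + 1) → PowerSeries k) : Prop where
  one : 1 ∈ L 0
  mul : ∀ a b x y, x ∈ L a → y ∈ L b → x * y ∈ L (a + b)
  mem : ∀ i, f i ∈ L (w i * D)
  base : ∀ P ∈ S, MvPolynomial.aeval f P = 0

end Pool.Agent.Lib.MP_1e3e9c_agF
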