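import Mathlib

/-!
# MP_1e3e9c_ag, project F, leaf A1: few generators of an ideal near the origin (MATHLIB ONLY)

PROOF. `R = MvPolynomial ι k` is Noetherian, `𝔪 = ker constantCoeff` is a maximal ideal, `R = k + 𝔪`. (1) `gen_le`. `N = J ⧸ 𝔪 J` is a finite-dimensional `k`-vector space (`J` is finitely generated, `a x = a(0) x` in `N`).
If its dimension were `≥ W₀ + 1`, there would be `W₀ + 1` linearly independent `k`-linear functionals on `N` (dual basis); composed with `J → N` and extended from the subspace `J` to `R` (`LinearMap.exists_extend`) they are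
`lam s` with `lam s (a * x) = a(0) * lam s x` for `x ∈ J` (because `(a - C a(0)) * x ∈ 𝔪 J`), linearly independent on `J`: this contradicts `h`. So there is `G ⊆ J`, `card G ≤ W₀`, whose image spans `N`: `J ≤ span G ⊔ 𝔪 • J`. By Nakayama
(`Submodule.exists_sub_one_mem_and_smul_eq_zero_of_fg_of_le_smul` for the finitely generated module `J ⧸ span G`, or `Submodule.exists_sub_one_mem_and_smul_le_of_fg_of_le_sup`) there is `s`, `s - 1 ∈ 𝔪`, with `s • J ≤ span G`.
(2) `ht_of_gen`. `s ∉ 𝔪`. `𝔭` is also a minimal prime of `span G`: if `𝔮 ≤ 𝔭` is a prime which contains `G`, then `s x ∈ 𝔮` for `x ∈ J` and `s ∉ 𝔮` (`𝔮 ≤ 𝔭 ≤ 𝔪`), so `J ≤ 𝔮` and `𝔮 = 𝔭`. Krull's height theorem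
(`Ideal.height_le_spanRank_toENat_of_mem_minimal_primes` / `Ideal.height_le_card_of_mem_minimalPrimes_span` or similar): `𝔭.height ≤ card G`.
-/

set_option autoImplicit false

namespace Pool.Agent.Lib.MP_1e3e9c_agF

theorem gen_le {k ι : Type} [Field k] [Fintype ι] (J : Ideal (MvPolynomial ι k)) (W₀ : ℕ)
    (h : ∀ lam : Fin (W₀ + 1) → (MvPolynomial ι k →ₗ[k] k),
      (∀ s a x, x ∈ J → lam s (a * x) = MvPolynomial.constantCoeff a * lam s x) →
      ∃ a : Fin (W₀ + 1) → k, a ≠ 0 ∧ ∀ x ∈ J, ∑ s, a s * lam s x = 0) :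
    ∃ (G : Finset (MvPolynomial ι k)) (s : MvPolynomial ι k), G.card ≤ W₀ ∧
      (∀ q ∈ G, q ∈ J) ∧ MvPolynomial.constantCoeff s ≠ 0 ∧
      ∀ x ∈ J, s * x ∈ Ideal.span (G : Set (MvPolynomial ι k)) := by
  classical
  obtain ⟨𝔪, h𝔪⟩ : ∃ 𝔪 : Ideal (MvPolynomial ι k),
      𝔪 = RingHom.ker (MvPolynomial.constantCoeff (σ := ι) (R := k)) := ⟨_, rfl⟩
  obtain ⟨Mk, hMk⟩ : ∃ Mk : Submodule k (MvPolynomial ι k), ∀ x, x ∈ Mk ↔ x ∈ 𝔪 * J :=
    ⟨(𝔪 * J).restrictScalars k, fun _ => Iff.rfl⟩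
  obtain ⟨P, hP⟩ : ∃ P : Submodule k (MvPolynomial ι k ⧸ Mk), ∀ z, z ∈ P ↔ ∃ y ∈ J, Mk.mkQ y = z :=
    ⟨(J.restrictScalars k).map Mk.mkQ, fun z => Submodule.mem_map⟩
  have key : ∀ x : Fin (W₀ + 1) → P, ¬ LinearIndependent k x := by
    intro x hx
    have hxP : ∀ t, ∃ y ∈ J, Mk.mkQ y = ((x t : P) : MvPolynomial ι k ⧸ Mk) := fun t => (hP _).mp (x t).2
    choose y hyJ hy using hxP
    have hli : LinearIndependent k (fun t => Mk.mkQ (y t)) := by
      have h1 := hx.map' P.subtype P.ker_subtype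
      have he : (P.subtype ∘ x) = fun t => Mk.mkQ (y t) := funext fun t => (hy t).symm
      rwa [he] at h1
    obtain ⟨g, hg⟩ := LinearMap.exists_leftInverse_of_injective
      (Fintype.linearCombination k fun t => Mk.mkQ (y t))
      (LinearMap.ker_eq_bot.mpr (linearIndependent_iff_injective_fintypeLinearCombination.mp hli))
    have hgy : ∀ t, g (Mk.mkQ (y t)) = Pi.single t 1 := by
      intro t
      have h1 := congrArg (fun F : (Fin (W₀ + 1) → k) →ₗ[k] (Fin (W₀ + 1) → k) => F (Pi.single t 1)) hg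
      simp only [LinearMap.comp_apply, Fintype.linearCombination_apply_single, one_smul, LinearMap.id_apply] at h1
      exact h1
    obtain ⟨a, ha, hax⟩ := h (fun s => LinearMap.proj s ∘ₗ g ∘ₗ Mk.mkQ) (by
      intro s a x hx
      have h1 : a * x - MvPolynomial.constantCoeff a • x ∈ Mk := by
        rw [hMk, MvPolynomial.smul_eq_C_mul, ← sub_mul]
        refine Ideal.mul_mem_mul ?_ hx
        rw [h𝔪, RingHom.mem_ker, map_sub, MvPolynomial.constantCoeff_C, sub_self]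
      have h2 : Mk.mkQ (a * x) = MvPolynomial.constantCoeff a • Mk.mkQ x := by
        rw [← map_smul, ← sub_eq_zero, ← map_sub]
        exact (Submodule.Quotient.mk_eq_zero Mk).mpr h1
      simp only [LinearMap.comp_apply, h2, map_smul, smul_eq_mul])
    apply ha
    funext t
    have h1 := hax (y t) (hyJ t)
    simp only [LinearMap.comp_apply, hgy, LinearMap.proj_apply] at h1
    rw [Finset.sum_eq_single t (fun s _ hs => by rw [Pi.single_eq_of_ne hs, mul_zero])
      (fun ht => absurd (Finset.mem_univ t) ht), Pi.single_eq_same, mul_one] at h1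
    exact h1
  have hrank : Module.rank k P ≤ (W₀ : Cardinal) := by
    by_contra hcon
    rw [not_le] at hcon
    have h1 : ((W₀ + 1 : ℕ) : Cardinal) ≤ Module.rank k P := by
      have h2 := Order.succ_le_of_lt hcon
      rw [Cardinal.succ_natCast] at h2
      rw [Nat.cast_add, Nat.cast_one]
      exact h2
    obtain ⟨x, hx⟩ := exists_linearIndependent_of_le_rank h1
    exact key x hx
  have : Module.Finite k P :=
    Module.rank_lt_aleph0_iff.mp (lt_of_le_of_lt hrank (Cardinal.natCast_lt_aleph0))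
  have hfin : Module.finrank k P ≤ W₀ := Module.finrank_le_of_rank_le hrank
  obtain ⟨b⟩ : Nonempty (Module.Basis (Fin (Module.finrank k P)) k P) := ⟨Module.finBasis k P⟩
  have hbP : ∀ t, ∃ y ∈ J, Mk.mkQ y = ((b t : P) : MvPolynomial ι k ⧸ Mk) := fun t => (hP _).mp (b t).2
  choose y hyJ hy using hbP
  have hsup : J ≤ Ideal.span ((Finset.univ.image y : Finset (MvPolynomial ι k)) : Set (MvPolynomial ι k)) ⊔ 𝔪 • J := by
    intro x hx
    have hxP : Mk.mkQ x ∈ P := (hP _).mpr ⟨x, hx, rfl⟩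
    have h1 := b.sum_repr ⟨Mk.mkQ x, hxP⟩
    have h2 : Mk.mkQ (∑ i, b.repr ⟨Mk.mkQ x, hxP⟩ i • y i) = Mk.mkQ x := by
      have h3 := congrArg (fun p : P => (p : MvPolynomial ι k ⧸ Mk)) h1
      simp only [Submodule.coe_sum, Submodule.coe_smul] at h3
      rw [map_sum]
      refine Eq.trans (Finset.sum_congr rfl fun i _ => ?_) h3
      rw [map_smul, hy]
    have h4 : x - ∑ i, b.repr ⟨Mk.mkQ x, hxP⟩ i • y i ∈ 𝔪 • J := by
      have h5 : Mk.mkQ (x - ∑ i, b.repr ⟨Mk.mkQ x, hxP⟩ i • y i) = 0 := by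
        rw [map_sub, h2, sub_self]
      exact (hMk _).mp ((Submodule.Quotient.mk_eq_zero Mk).mp h5)
    refine Submodule.mem_sup.mpr ⟨∑ i, b.repr ⟨Mk.mkQ x, hxP⟩ i • y i, ?_, _, h4, add_sub_cancel _ _⟩
    refine Submodule.sum_mem _ fun i _ => ?_
    rw [MvPolynomial.smul_eq_C_mul]
    exact Ideal.mul_mem_left _ _ (Ideal.subset_span (by
      rw [Finset.mem_coe]
      exact Finset.mem_image_of_mem y (Finset.mem_univ i)))
  obtain ⟨r, hr1, hr2⟩ := Submodule.exists_sub_one_mem_and_smul_le_of_fg_of_le_sup (I := 𝔪)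
    (N := Ideal.span ((Finset.univ.image y : Finset (MvPolynomial ι k)) : Set (MvPolynomial ι k))) (N' := J) (P := J)
    (IsNoetherian.noetherian J) le_rfl hsup
  refine ⟨Finset.univ.image y, r, ?_, ?_, ?_, ?_⟩
  · refine Finset.card_image_le.trans ?_
    rw [Finset.card_univ, Fintype.card_fin]
    exact hfin
  · intro q hq
    obtain ⟨i, _, rfl⟩ := Finset.mem_image.mp hq
    exact hyJ i
  · rw [h𝔪, RingHom.mem_ker, map_sub, map_one, sub_eq_zero] at hr1
    rw [hr1]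
    exact one_ne_zero
  · intro x hx
    exact hr2 (Submodule.smul_mem_pointwise_smul x r J hx)

theorem ht_of_gen {k ι : Type} [Field k] [Fintype ι] (J : Ideal (MvPolynomial ι k)) (W₀ : ℕ)
    (G : Finset (MvPolynomial ι k)) (s : MvPolynomial ι k) (hG : G.card ≤ W₀)
    (hGJ : ∀ q ∈ G, q ∈ J) (hs : MvPolynomial.constantCoeff s ≠ 0)
    (hsJ : ∀ x ∈ J, s * x ∈ Ideal.span (G : Set (MvPolynomial ι k))) :
    ∀ 𝔭 ∈ J.minimalPrimes, 𝔭 ≤ RingHom.ker (MvPolynomial.constantCoeff (σ := ι) (R := k)) →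
      𝔭.height ≤ W₀ := by
  intro 𝔭 h𝔭 hle
  have hmin : 𝔭 ∈ (Ideal.span (G : Set (MvPolynomial ι k))).minimalPrimes := by
    refine ⟨⟨h𝔭.1.1, Ideal.span_le.mpr fun q hq => h𝔭.1.2 (hGJ q hq)⟩, fun 𝔮 h𝔮 hle' =>
      h𝔭.2 ⟨h𝔮.1, fun x hx => ?_⟩ hle'⟩
    exact (h𝔮.1.mem_or_mem (h𝔮.2 (hsJ x hx))).resolve_left fun hs' => hs (RingHom.mem_ker.mp (hle (hle' hs')))
  exact (Ideal.height_le_card_of_mem_minimalPrimes_span_finset hmin).trans (by exact_mod_cast hG)

end Pool.Agent.Lib.MP_1e3e9c_agF
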