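import Mathlib

/-!
# MP_1e3e9c_ag, project F, leaf A3: independent vectors of power series and a determinant of large order (MATHLIB ONLY)

PROOF. Let `W` be the `k`-span of the `p s` in `(k[[t]])^c`, of dimension `W₀ + 1`, and `W_j`, `j ≥ 1`, the subspace of the elements all of whose coordinates have order `≥ j`: `W_1 = W` (`h0`), `W_j = 0` for large `j` (finite dimension, `⋂ W_j = 0`).
Let `ρ_j` be the rank of `W_j` over the fraction field (the largest number of elements of `W_j` which are linearly independent over `k[[t]]`). `dim (W_j / W_(j+1)) ≤ ρ_j`: elements of `W_j` whose vectors of coefficients of `t^j` are linearly independent over `k` are linearly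
independent over `k[[t]]` (divide by `t^j`; a minor is a unit). So `W₀ + 1 = ∑_(j ≥ 1) dim (W_j / W_(j+1)) ≤ ∑_(j ≥ 1) ρ_j = ∑_(l = 1)^a o_l`, where `a = ρ_1` and `o_l = #{j ≥ 1 : ρ_j ≥ l}`; `o_1 ≥ o_2 ≥ ... ≥ o_a ≥ 1`, rank of `W_(o_l)` is `≥ l`. Choose successively `q_1 ∈ W_(o_1)`, `q_2 ∈ W_(o_2)`, ...,
`q_a ∈ W_(o_a)` linearly independent over `k[[t]]`, and complete them by unit vectors to a basis of the vector space over the fraction field. The determinant is not `0`, and its order is `≥ ∑ o_l ≥ W₀ + 1` (the columns `q_l` are divisible by `t^(o_l)`).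
ALTERNATIVE (maybe simpler in Lean): induction. Choose among all the families `q : Fin c → ...` whose members are in `W` or unit vectors, with nonzero determinant, one ... or: induction on `c` / Gaussian elimination: choose the element `q_1 ∈ W \ {0}` of the largest order `o_1` (exists), a coordinate `l_1`
where `q_1` has order `o_1` exactly; the linear map `W → k^(o_1)`, `x ↦` the coefficients of `t^1, ..., t^(o_1)` of the coordinate `l_1`; all elements `x` of its kernel `W'` have order `> o_1` in the coordinate `l_1`; `dim W' ≥ W₀ + 1 - o_1`. The map `x ↦ x - (x_(l_1) / q_(1, l_1)) q_1` sends `W'` to vectors with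
coordinate `l_1` equal to `0` and the other coordinates in `t k[[t]]`, and it is injective on `W'`: if `x = y q_1` with `y ∈ k[[t]]`, then `y ∈ t k[[t]]` by the orders of the coordinate `l_1`, so `x ∈ W` has order `> o_1` or `x = 0`, so `x = 0`. By induction on `c` (the `c - 1` other coordinates) there are columns in this image of `W'` or unit vectors
with determinant of order `≥ dim W'`; replacing `x - y q_1` by `x` does not change the determinant with the column `q_1` added: the order of the determinant is `≥ o_1 + dim W' ≥ W₀ + 1`, and it is not `0`. (RECOMMENDED; for the induction state it with a general finite family `p : Fin N → ...`, `N ≤ order`.)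
-/

set_option autoImplicit false

namespace Pool.Agent.Lib.MP_1e3e9c_agF

private def A3_cons (k : Type) [Field k] (c : ℕ) :
    (Fin c → PowerSeries k) →ₗ[k] (Fin (c + 1) → PowerSeries k) where
  toFun z := Fin.cons 0 z
  map_add' z z' := by
    funext i
    refine Fin.cases ?_ (fun j => ?_) i
    · simp
    · simp
  map_smul' a z := by
    funext i
    refine Fin.cases ?_ (fun j => ?_) i
    · simp
    · simp

/-- A nonzero element of large order in a finite dimensional space of power series. -/
private theorem A3_one {k : Type} [Field k] (V : Submodule k (PowerSeries k))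
    [FiniteDimensional k V] (h0 : ∀ f ∈ V, PowerSeries.constantCoeff f = 0) {n : ℕ}
    (hn : Module.finrank k V = n + 1) :
    ∃ f ∈ V, f ≠ 0 ∧ PowerSeries.X ^ (n + 1) ∣ f := by
  let g : V →ₗ[k] (Fin n → k) :=
    LinearMap.pi (fun i : Fin n => (PowerSeries.coeff ((i : ℕ) + 1)) ∘ₗ V.subtype)
  have hg : LinearMap.ker g ≠ ⊥ := by
    apply LinearMap.ker_ne_bot_of_finrank_lt
    rw [hn, Module.finrank_fin_fun]
    exact Nat.lt_succ_self n
  obtain ⟨f, hf, hf0⟩ := (Submodule.ne_bot_iff _).1 hg
  refine ⟨f, f.2, fun h => hf0 (Subtype.ext h), ?_⟩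
  rw [PowerSeries.X_pow_dvd_iff]
  intro m hm
  rcases m with _ | m
  · rw [PowerSeries.coeff_zero_eq_constantCoeff]
    exact h0 f f.2
  · exact congrFun (LinearMap.mem_ker.1 hf) ⟨m, by omega⟩

private theorem A3_ind {k : Type} [Field k] (c : ℕ) :
    ∀ W : Submodule k (Fin c → PowerSeries k), FiniteDimensional k W →
      (∀ x ∈ W, ∀ l, PowerSeries.constantCoeff (x l) = 0) →
      ∃ q : Fin c → Fin c → PowerSeries k,
        (∀ b, q b ∈ W ∨ ∃ b', q b = Pi.single b' 1) ∧
        Matrix.det (Matrix.of fun l b => q b l) ≠ 0 ∧
        PowerSeries.X ^ (Module.finrank k W) ∣ Matrix.det (Matrix.of fun l b => q b l) := by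
  induction c with
  | zero =>
    intro W _ _
    refine ⟨fun b => b.elim0, fun b => b.elim0, ?_, ?_⟩
    · rw [Matrix.det_fin_zero]; exact one_ne_zero
    · have : Module.finrank k W = 0 := by
        rw [Module.finrank_eq_zero_iff_of_free]
        infer_instance
      rw [this, pow_zero]
      exact one_dvd _
  | succ c ih =>
    intro W _ hW
    have hcons : Function.Injective (A3_cons k c) := by
      intro z z' h
      funext j
      have := congrFun h j.succ
      simpa [A3_cons] using this
    set W' : Submodule k (Fin c → PowerSeries k) := W.comap (A3_cons k c) with hW'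
    have hfin' : FiniteDimensional k W' := by
      refine FiniteDimensional.of_injective
        ((A3_cons k c).restrict (p := W') (q := W) (fun x hx => hx)) ?_
      intro x y h
      exact Subtype.ext (hcons (congrArg Subtype.val h))
    obtain ⟨q', hq1, hq2, hq3⟩ := ih W' hfin' (by
      intro x hx l
      have := hW _ hx l.succ
      simpa [A3_cons] using this)
    -- the first coordinate
    let f : W →ₗ[k] PowerSeries k := (LinearMap.proj 0) ∘ₗ W.subtype
    have hdim : Module.finrank k W ≤ Module.finrank k W' + Module.finrank k (LinearMap.range f) := by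
      have h1 := LinearMap.finrank_range_add_finrank_ker f
      have h2 : Module.finrank k (LinearMap.ker f) ≤ Module.finrank k W' := by
        have hmem : ∀ x : LinearMap.ker f, (fun j : Fin c => (x : W).1 j.succ) ∈ W' := by
          intro x
          have hx : (x : W).1 0 = 0 := LinearMap.mem_ker.1 x.2
          have : A3_cons k c (fun j : Fin c => (x : W).1 j.succ) = (x : W).1 := by
            funext i
            refine Fin.cases ?_ (fun j => ?_) i
            · simpa [A3_cons] using hx.symm
            · simp [A3_cons]
          show A3_cons k c _ ∈ W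
          rw [this]
          exact (x : W).2
        let g : LinearMap.ker f →ₗ[k] W' :=
          { toFun := fun x => ⟨_, hmem x⟩
            map_add' := fun x y => rfl
            map_smul' := fun a x => rfl }
        refine LinearMap.finrank_le_finrank_of_injective (f := g) ?_
        intro x y h
        have hx : (x : W).1 0 = 0 := LinearMap.mem_ker.1 x.2
        have hy : (y : W).1 0 = 0 := LinearMap.mem_ker.1 y.2
        apply Subtype.ext
        apply Subtype.ext
        funext i
        refine Fin.cases ?_ (fun j => ?_) i
        · rw [hx, hy]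
        · exact congrFun (congrArg Subtype.val h) j
      omega
    obtain ⟨y, hy, hy0, hyd⟩ : ∃ y : Fin (c + 1) → PowerSeries k,
        (y ∈ W ∨ ∃ b', y = Pi.single b' 1) ∧ y 0 ≠ 0 ∧
        PowerSeries.X ^ (Module.finrank k (LinearMap.range f)) ∣ y 0 := by
      rcases Nat.eq_zero_or_pos (Module.finrank k (LinearMap.range f)) with h | h
      · refine ⟨Pi.single 0 1, Or.inr ⟨0, rfl⟩, ?_, ?_⟩
        · rw [Pi.single_eq_same]; exact one_ne_zero
        · rw [h, pow_zero]; exact one_dvd _
      · obtain ⟨n, hn⟩ := Nat.exists_eq_succ_of_ne_zero h.ne'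
        obtain ⟨z, hz, hz0, hzd⟩ := A3_one (LinearMap.range f) (by
          rintro _ ⟨x, rfl⟩
          exact hW x x.2 0) hn
        obtain ⟨x, rfl⟩ := hz
        exact ⟨x, Or.inl x.2, hz0, by rw [hn]; exact hzd⟩
    refine ⟨Fin.cons y (fun b => A3_cons k c (q' b)), ?_, ?_⟩
    · intro b
      refine Fin.cases ?_ (fun j => ?_) b
      · rw [Fin.cons_zero]; exact hy
      · rw [Fin.cons_succ]
        rcases hq1 j with h | ⟨b', h⟩
        · exact Or.inl h
        · refine Or.inr ⟨b'.succ, ?_⟩
          rw [h]
          funext i
          refine Fin.cases ?_ (fun l => ?_) i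
          · rw [Pi.single_eq_of_ne (Fin.succ_ne_zero b').symm]
            simp [A3_cons]
          · by_cases hl : l = b'
            · subst hl
              simp [A3_cons]
            · rw [Pi.single_eq_of_ne (fun h => hl (Fin.succ_injective _ h))]
              simp [A3_cons, Pi.single_eq_of_ne hl]
    · have hdet : Matrix.det (Matrix.of fun l b => (Fin.cons y (fun b => A3_cons k c (q' b)) :
          Fin (c + 1) → Fin (c + 1) → PowerSeries k) b l) =
          y 0 * Matrix.det (Matrix.of fun l b => q' b l) := by
        rw [Matrix.det_succ_row_zero, Fin.sum_univ_succ]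
        have hz : ∀ j : Fin c, (-1) ^ ((j.succ : Fin (c + 1)) : ℕ) *
            (Matrix.of fun l b => (Fin.cons y (fun b => A3_cons k c (q' b)) :
              Fin (c + 1) → Fin (c + 1) → PowerSeries k) b l) 0 j.succ *
            Matrix.det ((Matrix.of fun l b => (Fin.cons y (fun b => A3_cons k c (q' b)) :
              Fin (c + 1) → Fin (c + 1) → PowerSeries k) b l).submatrix Fin.succ j.succ.succAbove) = 0 := by
          intro j
          simp [A3_cons]
        rw [Finset.sum_eq_zero (fun j _ => hz j), add_zero]
        have hm : (Matrix.of fun l b => (Fin.cons y (fun b => A3_cons k c (q' b)) :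
              Fin (c + 1) → Fin (c + 1) → PowerSeries k) b l).submatrix Fin.succ (0 : Fin (c + 1)).succAbove =
              Matrix.of fun l b => q' b l := by
          ext l b
          simp [A3_cons]
        rw [hm]
        simp
      rw [hdet]
      refine ⟨mul_ne_zero hy0 hq2, ?_⟩
      refine dvd_trans (pow_dvd_pow _ hdim) ?_
      rw [add_comm, pow_add]
      exact mul_dvd_mul hyd hq3

theorem la_det {k : Type} [Field k] {c W₀ : ℕ} (p : Fin (W₀ + 1) → Fin c → PowerSeries k)
    (h0 : ∀ s l, PowerSeries.constantCoeff (p s l) = 0)
    (hp : ∀ a : Fin (W₀ + 1) → k, (∀ l, ∑ s, PowerSeries.C (a s) * p s l = 0) → a = 0) :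
    ∃ q : Fin c → Fin c → PowerSeries k,
      (∀ b, (∃ a : Fin (W₀ + 1) → k, ∀ l, q b l = ∑ s, PowerSeries.C (a s) * p s l) ∨
        ∃ b', q b = Pi.single b' 1) ∧
      Matrix.det (Matrix.of fun l b => q b l) ≠ 0 ∧
      (W₀ : ℕ∞) < (Matrix.det (Matrix.of fun l b => q b l)).order := by
  let F : (Fin (W₀ + 1) → k) →ₗ[k] (Fin c → PowerSeries k) :=
    { toFun := fun a l => ∑ s, PowerSeries.C (a s) * p s l
      map_add' := by
        intro a b
        funext l
        simp only [Pi.add_apply, map_add, add_mul, Finset.sum_add_distrib]
      map_smul' := by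
        intro r a
        funext l
        simp only [Pi.smul_apply, smul_eq_mul, map_mul, RingHom.id_apply, PowerSeries.smul_eq_C_mul,
          Finset.mul_sum, mul_assoc] }
  have hF : LinearMap.ker F = ⊥ := by
    rw [LinearMap.ker_eq_bot']
    intro a ha
    exact hp a (fun l => congrFun ha l)
  have hrank : Module.finrank k (LinearMap.range F) = W₀ + 1 := by
    rw [LinearMap.finrank_range_of_inj (LinearMap.ker_eq_bot.1 hF), Module.finrank_fin_fun]
  obtain ⟨q, h1, h2, h3⟩ := A3_ind c (LinearMap.range F) inferInstance (by
    rintro _ ⟨a, rfl⟩ l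
    show PowerSeries.constantCoeff (∑ s, PowerSeries.C (a s) * p s l) = 0
    rw [map_sum]
    exact Finset.sum_eq_zero fun s _ => by rw [map_mul, h0, mul_zero])
  refine ⟨q, fun b => ?_, h2, ?_⟩
  · rcases h1 b with ⟨a, ha⟩ | h
    · exact Or.inl ⟨a, fun l => (congrFun ha l).symm⟩
    · exact Or.inr h
  · rw [hrank, PowerSeries.X_pow_dvd_iff] at h3
    have h4 := PowerSeries.nat_le_order _ (W₀ + 1) h3
    exact lt_of_lt_of_le (by exact_mod_cast Nat.lt_succ_self W₀) h4

end Pool.Agent.Lib.MP_1e3e9c_agF
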