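import Mathlib
import Pool.Agent.Lib.MP_1e3e9c_agF.FDefs

/-!
# MP_1e3e9c_ag, project F, leaf A2: functionals on the equations of a family give sections of the normal bundle

PROOF. `R = MvPolynomial ι k`, `F P = aeval (gen f b) P : PowerSeries R`. (1) `wf_of_functional`, `deg`: let `T d` be the `k`-span in `PowerSeries R` of the products `PowerSeries.C a * PowerSeries.map C y`, `a : R`, `y ∈ L d`. `T a * T b ⊆ T (a + b)` (`hL.mul`),
`1 ∈ T 0`, `gen f b i ∈ T (w i * D)`, so `F P ∈ T (m * D)` for `P` weighted homogeneous of weight `m` (sum over the monomials, `∏ gen i ^ α i`, `∑ α i w i = m`). For `G ∈ T d` the power series `mk (fun l => lam (coeff l G))` is in `L d`: it is linear in `G`, and for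
`G = C a * map C y` it is `lam a • y` up to the order of the factors (`coeff l G = a * C (coeff l y)`, `lam (a * C z) = z * lam a`). `zero`: `coeff 0 (F P) = P(coeff 0 gen) = C (P(v))`, `v i = constantCoeff (f i)` (`hb0`), and `P(v) = constantCoeff (aeval f P) = 0`. `comp`: `F h₀ * F Q = ∑ F (h l) * F (P l)`;
`coeff N (F h₀ * F Q) = ∑_(i + j = N) coeff i (F h₀) * coeff j (F Q)` and `coeff j (F Q) ∈ JT S f b`; by `hlam`, `lam` of it is `∑ constantCoeff (coeff i (F h₀)) * lam (coeff j (F Q))`, and `constantCoeff (coeff i (F h₀)) = coeff i (aeval f h₀)` because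
`PowerSeries.map (constantCoeff : R →+* k) (gen f b i) = f i`, so `PowerSeries.map constantCoeff (F h) = aeval f h`. (2) `dep_of_dep`: `JT` is spanned by the elements `coeff l (F P)`, `P ∈ S`: for `x = ∑ a_j * q_j`: `∑ s, a s * lam s (a_j * q_j) = a_j(0) * ∑ s, a s * lam s q_j = 0`.
-/

set_option autoImplicit false

namespace Pool.Agent.Lib.MP_1e3e9c_agF

/-- `p` is a section of the normal bundle along `f` (given by its values on the equations), which vanishes at `t = 0`. -/
structure WF {k : Type} [Field k] {n : ℕ} (w : Fin (n + 1) → ℕ)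
    (S : Set (MvPolynomial (Fin (n + 1)) k)) (D : ℕ) (L : ℕ → Submodule k (PowerSeries k))
    (f : Fin (n + 1) → PowerSeries k) (p : MvPolynomial (Fin (n + 1)) k → PowerSeries k) : Prop where
  deg : ∀ P ∈ S, ∀ m, P.IsWeightedHomogeneous w m → p P ∈ L (m * D)
  zero : ∀ P ∈ S, PowerSeries.constantCoeff (p P) = 0
  comp : ∀ (s : ℕ) (Q h₀ : MvPolynomial (Fin (n + 1)) k)
    (P h : Fin s → MvPolynomial (Fin (n + 1)) k), Q ∈ S → (∀ l, P l ∈ S) →
    h₀ * Q = ∑ l, h l * P l →
    MvPolynomial.aeval f h₀ * p Q = ∑ l, MvPolynomial.aeval f (h l) * p (P l)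

private theorem A2_hom {k A B σ : Type} [Field k] [CommRing A] [CommRing B] [Algebra k A] [Algebra k B] (φ : A →+* B)
    (hφ : ∀ c : k, φ (algebraMap k A c) = algebraMap k B c) (x : σ → A) (P : MvPolynomial σ k) :
    φ (MvPolynomial.aeval x P) = MvPolynomial.aeval (fun i => φ (x i)) P := by
  induction P using MvPolynomial.induction_on with
  | C a => rw [MvPolynomial.aeval_C, MvPolynomial.aeval_C, hφ]
  | add p q hp hq => rw [map_add, map_add, map_add, hp, hq]
  | mul_X p i hp => rw [map_mul, map_mul, map_mul, hp, MvPolynomial.aeval_X, MvPolynomial.aeval_X]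

/-- `G ↦ ∑ lam (G_l) t^l` -/
private noncomputable def A2_Phi {k ι : Type} [Field k] (lam : MvPolynomial ι k →ₗ[k] k) :
    PowerSeries (MvPolynomial ι k) →ₗ[k] PowerSeries k where
  toFun G := PowerSeries.mk fun l => lam (PowerSeries.coeff l G)
  map_add' G G' := by
    ext l
    rw [map_add, PowerSeries.coeff_mk, PowerSeries.coeff_mk, PowerSeries.coeff_mk, map_add, map_add]
  map_smul' c G := by
    ext l
    have h : PowerSeries.coeff l (c • G) = c • PowerSeries.coeff l G := rfl
    rw [PowerSeries.coeff_mk, h, map_smul, RingHom.id_apply, map_smul, PowerSeries.coeff_mk]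

private theorem A2_Phi_coeff {k ι : Type} [Field k] (lam : MvPolynomial ι k →ₗ[k] k)
    (G : PowerSeries (MvPolynomial ι k)) (l : ℕ) :
    PowerSeries.coeff l (A2_Phi lam G) = lam (PowerSeries.coeff l G) := by
  show PowerSeries.coeff l (PowerSeries.mk fun l => lam (PowerSeries.coeff l G)) = _
  rw [PowerSeries.coeff_mk]

private theorem A2_red {k ι : Type} [Field k] [Fintype ι] {n : ℕ} (f : Fin (n + 1) → PowerSeries k)
    (b : ι → Fin (n + 1) → PowerSeries k) (P : MvPolynomial (Fin (n + 1)) k) (l : ℕ) :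
    MvPolynomial.constantCoeff (PowerSeries.coeff l (MvPolynomial.aeval (gen f b) P)) =
      PowerSeries.coeff l (MvPolynomial.aeval f P) := by
  have h1 := A2_hom (PowerSeries.map (MvPolynomial.constantCoeff (R := k) (σ := ι))) (fun c => by
    rw [PowerSeries.algebraMap_apply, PowerSeries.algebraMap_apply, PowerSeries.map_C, MvPolynomial.algebraMap_eq,
      MvPolynomial.constantCoeff_C, Algebra.algebraMap_self, RingHom.id_apply]) (gen f b) P
  have h2 : (fun i => PowerSeries.map (MvPolynomial.constantCoeff (R := k) (σ := ι)) (gen f b i)) = f := by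
    funext i
    unfold gen
    rw [map_add, map_sum]
    have h3 : ∀ α : ι, PowerSeries.map (MvPolynomial.constantCoeff (R := k) (σ := ι))
        (PowerSeries.C (MvPolynomial.X α) * PowerSeries.map MvPolynomial.C (b α i)) = 0 := by
      intro α
      rw [map_mul, PowerSeries.map_C, MvPolynomial.constantCoeff_X, map_zero, zero_mul]
    rw [Finset.sum_eq_zero fun α _ => h3 α, add_zero]
    ext l
    rw [PowerSeries.coeff_map, PowerSeries.coeff_map, MvPolynomial.constantCoeff_C]
  rw [h2] at h1
  rw [← h1, PowerSeries.coeff_map]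

private theorem A2_mul {k ι : Type} [Field k] [Fintype ι] {n : ℕ} {S : Set (MvPolynomial (Fin (n + 1)) k)}
    {f : Fin (n + 1) → PowerSeries k} (b : ι → Fin (n + 1) → PowerSeries k) (lam : MvPolynomial ι k →ₗ[k] k)
    (hlam : ∀ a x, x ∈ JT S f b → lam (a * x) = MvPolynomial.constantCoeff a * lam x)
    (h Q : MvPolynomial (Fin (n + 1)) k) (hQ : Q ∈ S) :
    MvPolynomial.aeval f h * A2_Phi lam (MvPolynomial.aeval (gen f b) Q) =
      A2_Phi lam (MvPolynomial.aeval (gen f b) (h * Q)) := by
  ext N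
  rw [PowerSeries.coeff_mul, A2_Phi_coeff, map_mul, PowerSeries.coeff_mul, map_sum]
  refine Finset.sum_congr rfl fun p _ => ?_
  rw [A2_Phi_coeff, hlam _ _ (Ideal.subset_span ⟨Q, hQ, p.2, rfl⟩), A2_red]

/-- the span of the products `C a * map C y`, `y ∈ L d` -/
private noncomputable def A2_T {k : Type} (ι : Type) [Field k] (L : ℕ → Submodule k (PowerSeries k)) (d : ℕ) :
    Submodule k (PowerSeries (MvPolynomial ι k)) :=
  Submodule.span k {G | ∃ (a : MvPolynomial ι k) (y : PowerSeries k), y ∈ L d ∧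
    G = PowerSeries.C a * PowerSeries.map MvPolynomial.C y}

private theorem A2_T_gen {k ι : Type} [Field k] {L : ℕ → Submodule k (PowerSeries k)} {d : ℕ} (a : MvPolynomial ι k)
    {y : PowerSeries k} (hy : y ∈ L d) : PowerSeries.C a * PowerSeries.map MvPolynomial.C y ∈ A2_T ι L d :=
  Submodule.subset_span ⟨a, y, hy, rfl⟩

private theorem A2_T_mul {k ι : Type} [Field k] {L : ℕ → Submodule k (PowerSeries k)}
    (hL : ∀ a b x y, x ∈ L a → y ∈ L b → x * y ∈ L (a + b)) {d e : ℕ} {G G' : PowerSeries (MvPolynomial ι k)}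
    (hG : G ∈ A2_T ι L d) (hG' : G' ∈ A2_T ι L e) : G * G' ∈ A2_T ι L (d + e) := by
  have h1 := Submodule.mul_mem_mul hG hG'
  unfold A2_T at h1
  rw [Submodule.span_mul_span] at h1
  refine Submodule.span_le.2 ?_ h1
  rintro _ ⟨_, ⟨a, y, hy, rfl⟩, _, ⟨a', y', hy', rfl⟩, rfl⟩
  have h2 := A2_T_gen (ι := ι) (a * a') (hL d e y y' hy hy')
  rw [map_mul, map_mul] at h2
  have h3 : PowerSeries.C a * PowerSeries.map MvPolynomial.C y * (PowerSeries.C a' * PowerSeries.map MvPolynomial.C y') =
      PowerSeries.C a * PowerSeries.C a' * (PowerSeries.map MvPolynomial.C y * PowerSeries.map MvPolynomial.C y') := by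
    ring
  show PowerSeries.C a * PowerSeries.map MvPolynomial.C y * (PowerSeries.C a' * PowerSeries.map MvPolynomial.C y') ∈
    A2_T ι L (d + e)
  rw [h3]
  exact h2

private theorem A2_T_one {k ι : Type} [Field k] {L : ℕ → Submodule k (PowerSeries k)} (h1 : 1 ∈ L 0) :
    (1 : PowerSeries (MvPolynomial ι k)) ∈ A2_T ι L 0 := by
  have h2 := A2_T_gen (ι := ι) 1 h1
  rw [map_one, map_one, one_mul] at h2
  exact h2

private theorem A2_T_pow {k ι : Type} [Field k] {L : ℕ → Submodule k (PowerSeries k)} (h1 : 1 ∈ L 0)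
    (hL : ∀ a b x y, x ∈ L a → y ∈ L b → x * y ∈ L (a + b)) {d : ℕ} {G : PowerSeries (MvPolynomial ι k)}
    (hG : G ∈ A2_T ι L d) (e : ℕ) : G ^ e ∈ A2_T ι L (e * d) := by
  induction e with
  | zero =>
    rw [pow_zero, zero_mul]
    exact A2_T_one h1
  | succ e ih =>
    rw [pow_succ, Nat.succ_mul]
    exact A2_T_mul hL ih hG

private theorem A2_T_prod {k ι σ : Type} [Field k] {L : ℕ → Submodule k (PowerSeries k)} (h1 : 1 ∈ L 0)
    (hL : ∀ a b x y, x ∈ L a → y ∈ L b → x * y ∈ L (a + b)) (s : Finset σ) (G : σ → PowerSeries (MvPolynomial ι k))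
    (d : σ → ℕ) (hG : ∀ i ∈ s, G i ∈ A2_T ι L (d i)) : ∏ i ∈ s, G i ∈ A2_T ι L (∑ i ∈ s, d i) := by
  classical
  induction s using Finset.induction_on with
  | empty =>
    rw [Finset.prod_empty, Finset.sum_empty]
    exact A2_T_one h1
  | insert i s hi ih =>
    rw [Finset.prod_insert hi, Finset.sum_insert hi]
    exact A2_T_mul hL (hG i (Finset.mem_insert_self i s)) (ih fun j hj => hG j (Finset.mem_insert_of_mem hj))

private theorem A2_T_Phi {k ι : Type} [Field k] {L : ℕ → Submodule k (PowerSeries k)} {d : ℕ}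
    (lam : MvPolynomial ι k →ₗ[k] k) {G : PowerSeries (MvPolynomial ι k)} (hG : G ∈ A2_T ι L d) :
    A2_Phi lam G ∈ L d := by
  have h1 : A2_T ι L d ≤ (L d).comap (A2_Phi lam) := by
    refine Submodule.span_le.2 ?_
    rintro _ ⟨a, y, hy, rfl⟩
    show A2_Phi lam (PowerSeries.C a * PowerSeries.map MvPolynomial.C y) ∈ L d
    have h2 : A2_Phi lam (PowerSeries.C a * PowerSeries.map MvPolynomial.C y) = lam a • y := by
      ext l
      rw [A2_Phi_coeff, PowerSeries.coeff_C_mul, PowerSeries.coeff_map, map_smul, mul_comm,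
        ← MvPolynomial.smul_eq_C_mul, map_smul, smul_eq_mul, smul_eq_mul, mul_comm]
    rw [h2]
    exact (L d).smul_mem _ hy
  exact h1 hG

theorem wf_of_functional {k ι : Type} [Field k] [Fintype ι] {n D : ℕ} {w : Fin (n + 1) → ℕ}
    {S : Set (MvPolynomial (Fin (n + 1)) k)} {L : ℕ → Submodule k (PowerSeries k)}
    {f : Fin (n + 1) → PowerSeries k} (hL : Lsys w S D L f)
    (b : ι → Fin (n + 1) → PowerSeries k) (hb : ∀ α i, b α i ∈ L (w i * D))
    (hb0 : ∀ α i, PowerSeries.constantCoeff (b α i) = 0) (lam : MvPolynomial ι k →ₗ[k] k)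
    (hlam : ∀ a x, x ∈ JT S f b → lam (a * x) = MvPolynomial.constantCoeff a * lam x) :
    WF w S D L f fun P => PowerSeries.mk fun l =>
      lam (PowerSeries.coeff l (MvPolynomial.aeval (gen f b) P)) := by
  have hPhi : ∀ P : MvPolynomial (Fin (n + 1)) k, (PowerSeries.mk fun l => lam (PowerSeries.coeff l (MvPolynomial.aeval (gen f b) P))) =
      A2_Phi lam (MvPolynomial.aeval (gen f b) P) := fun P => rfl
  refine ⟨?_, ?_, ?_⟩
  · intro P _ m hm
    show (PowerSeries.mk fun l => lam (PowerSeries.coeff l (MvPolynomial.aeval (gen f b) P))) ∈ L (m * D)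
    rw [hPhi]
    refine A2_T_Phi lam ?_
    have hgen : ∀ i, gen f b i ∈ A2_T ι L (w i * D) := by
      intro i
      unfold gen
      refine Submodule.add_mem _ ?_ (Submodule.sum_mem _ fun α _ => A2_T_gen _ (hb α i))
      have h2 := A2_T_gen (ι := ι) 1 (hL.mem i)
      rw [map_one, one_mul] at h2
      exact h2
    rw [MvPolynomial.aeval_def, MvPolynomial.eval₂_eq']
    refine Submodule.sum_mem _ fun d hd => ?_
    rw [← Algebra.smul_def]
    refine Submodule.smul_mem _ _ ?_
    have h3 := A2_T_prod hL.one hL.mul Finset.univ (fun i => gen f b i ^ d i) (fun i => d i * (w i * D))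
      fun i _ => A2_T_pow hL.one hL.mul (hgen i) (d i)
    have h4 : ∑ i, d i * (w i * D) = m * D := by
      have h5 := hm (MvPolynomial.mem_support_iff.1 hd)
      rw [Finsupp.weight_apply, Finsupp.sum_fintype _ _ (fun i => zero_smul ℕ (w i))] at h5
      rw [← h5, Finset.sum_mul]
      refine Finset.sum_congr rfl fun i _ => ?_
      rw [smul_eq_mul, mul_assoc]
    rw [h4] at h3
    exact h3
  · intro P hP
    show PowerSeries.constantCoeff (PowerSeries.mk fun l =>
      lam (PowerSeries.coeff l (MvPolynomial.aeval (gen f b) P))) = 0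
    rw [hPhi, ← PowerSeries.coeff_zero_eq_constantCoeff_apply, A2_Phi_coeff,
      PowerSeries.coeff_zero_eq_constantCoeff_apply]
    have h1 := A2_hom (PowerSeries.constantCoeff (R := MvPolynomial ι k)) (fun c => by
      rw [PowerSeries.algebraMap_apply, PowerSeries.constantCoeff_C]) (gen f b) P
    have h2 : (fun i => PowerSeries.constantCoeff (gen f b i)) =
        fun i => MvPolynomial.C (PowerSeries.constantCoeff (f i)) := by
      funext i
      unfold gen
      rw [map_add, map_sum]
      have h3 : ∀ α : ι, PowerSeries.constantCoeff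
          (PowerSeries.C (MvPolynomial.X α) * PowerSeries.map MvPolynomial.C (b α i)) = (0 : MvPolynomial ι k) := by
        intro α
        rw [map_mul, ← PowerSeries.coeff_zero_eq_constantCoeff_apply (PowerSeries.map _ _), PowerSeries.coeff_map,
          PowerSeries.coeff_zero_eq_constantCoeff_apply, hb0, map_zero, mul_zero]
      rw [Finset.sum_eq_zero fun α _ => h3 α, add_zero, ← PowerSeries.coeff_zero_eq_constantCoeff_apply,
        PowerSeries.coeff_map, PowerSeries.coeff_zero_eq_constantCoeff_apply]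
    have h4 := A2_hom (MvPolynomial.C (R := k) (σ := ι)) (fun c => rfl) (fun i => PowerSeries.constantCoeff (f i)) P
    have h5 := A2_hom (PowerSeries.constantCoeff (R := k)) (fun c => by
      rw [PowerSeries.algebraMap_apply, PowerSeries.constantCoeff_C]) f P
    rw [h1, h2, ← h4, ← h5, hL.base P hP, map_zero, map_zero, map_zero]
  · intro s Q h₀ P h hQ hP he
    show MvPolynomial.aeval f h₀ * A2_Phi lam (MvPolynomial.aeval (gen f b) Q) =
      ∑ l, MvPolynomial.aeval f (h l) * A2_Phi lam (MvPolynomial.aeval (gen f b) (P l))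
    rw [A2_mul b lam hlam h₀ Q hQ, he, map_sum, map_sum]
    exact Finset.sum_congr rfl fun l _ => (A2_mul b lam hlam (h l) (P l) (hP l)).symm

theorem dep_of_dep {k ι : Type} [Field k] [Fintype ι] {n W₀ : ℕ}
    {S : Set (MvPolynomial (Fin (n + 1)) k)} {f : Fin (n + 1) → PowerSeries k}
    (b : ι → Fin (n + 1) → PowerSeries k) (lam : Fin (W₀ + 1) → (MvPolynomial ι k →ₗ[k] k))
    (hlam : ∀ s a x, x ∈ JT S f b → lam s (a * x) = MvPolynomial.constantCoeff a * lam s x)
    (a : Fin (W₀ + 1) → k)
    (ha : ∀ P ∈ S, ∑ s, PowerSeries.C (a s) * (PowerSeries.mk fun l =>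
      lam s (PowerSeries.coeff l (MvPolynomial.aeval (gen f b) P))) = 0) :
    ∀ x ∈ JT S f b, ∑ s, a s * lam s x = 0 := by
  intro x hx
  unfold JT at hx hlam
  induction hx using Submodule.span_induction with
  | mem q hq =>
    obtain ⟨P, hP, l, rfl⟩ := hq
    have h1 := congrArg (PowerSeries.coeff l) (ha P hP)
    rw [map_sum, map_zero] at h1
    refine Eq.trans (Finset.sum_congr rfl fun s _ => ?_) h1
    rw [PowerSeries.coeff_C_mul, PowerSeries.coeff_mk]
  | zero => exact Finset.sum_eq_zero fun s _ => by rw [map_zero, mul_zero]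
  | add x y _ _ hx hy =>
    have h1 : ∀ s, a s * lam s (x + y) = a s * lam s x + a s * lam s y := fun s => by rw [map_add, mul_add]
    rw [Finset.sum_congr rfl fun s _ => h1 s, Finset.sum_add_distrib, hx, hy, add_zero]
  | smul r x hxm hx =>
    have h1 : ∀ s, a s * lam s (r • x) = MvPolynomial.constantCoeff r * (a s * lam s x) := fun s => by
      rw [smul_eq_mul, hlam s r x hxm]
      ring
    rw [Finset.sum_congr rfl fun s _ => h1 s, ← Finset.mul_sum, hx, mul_zero]

end Pool.Agent.Lib.MP_1e3e9c_agF
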