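import Mathlib
import Pool.Agent.Lib.MP_1e3e9c_agF.A2

/-!
# MP_1e3e9c_ag, project F, leaf A4: the local equations along an arc

PROOF. (1) `vanish_arc`: `X i * F` vanishes on the zero set of `S` in `k^(n+1)`, so by the Nullstellensatz (`MvPolynomial.vanishingIdeal_zeroLocus_eq_radical`, `k` algebraically closed) `(X i * F)^M ∈ Ideal.span S`; `aeval f` kills `S`, so `(f i)^M * (aeval f F)^M = 0` in the domain `A`; choose `i` with
`f i ≠ 0`. (2) `rows`: `h * Q = ∑ l, h_l * P l` with `h(v) ≠ 0` (`Ideal.mem_span_range_iff_exists_fun`), `v i = constantCoeff (f i)`. `aeval f h` has constant coefficient `h(v) ≠ 0`: it is a unit `u` of `k[[t]]`. `C l = aeval f (h_l) / u`. Apply `pderiv i` and `aeval f` to the relation: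
`aeval f (pderiv i h) * aeval f Q + u * aeval f (pderiv i Q) = ∑ (aeval f (pderiv i h_l) * aeval f (P l) + aeval f h_l * aeval f (pderiv i (P l)))`, and `aeval f Q = 0 = aeval f (P l)` (`Q, P l ∈ S`, `hfS`). The second claim is `WF.comp`.
-/

set_option autoImplicit false

namespace Pool.Agent.Lib.MP_1e3e9c_agF

open Pool.Agent.Lib.MP_1e3e9c_agR

theorem vanish_arc {k A : Type} [Field k] [IsAlgClosed k] [CommRing A] [IsDomain A] [Algebra k A]
    {n : ℕ} {S : Set (MvPolynomial (Fin (n + 1)) k)} {F : MvPolynomial (Fin (n + 1)) k}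
    (hF : ∀ x : Fin (n + 1) → k, x ≠ 0 → (∀ P ∈ S, MvPolynomial.eval x P = 0) →
      MvPolynomial.eval x F = 0) {f : Fin (n + 1) → A} (hf : f ≠ 0)
    (hfS : ∀ P ∈ S, MvPolynomial.aeval f P = 0) : MvPolynomial.aeval f F = 0 := by
  obtain ⟨i, hi⟩ := Function.ne_iff.1 hf
  have hi' : f i ≠ 0 := hi
  have hmem : MvPolynomial.X i * F ∈ (Ideal.span S).radical := by
    rw [← MvPolynomial.vanishingIdeal_zeroLocus_eq_radical (K := k) (Ideal.span S),
      MvPolynomial.mem_vanishingIdeal_iff]
    intro x hx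
    rw [MvPolynomial.zeroLocus_span] at hx
    have hx' : ∀ P ∈ S, MvPolynomial.eval x P = 0 := by
      intro P hP
      have h := hx P hP
      rwa [MvPolynomial.aeval_eq_eval] at h
    rw [MvPolynomial.aeval_eq_eval, map_mul, MvPolynomial.eval_X]
    by_cases h0 : x = 0
    · rw [h0]
      simp
    · rw [hF x h0 hx', mul_zero]
  obtain ⟨M, hM⟩ := hmem
  have hker : ∀ q ∈ Ideal.span S, MvPolynomial.aeval f q = 0 := by
    intro q hq
    have hle : Ideal.span S ≤ RingHom.ker (MvPolynomial.aeval (R := k) f).toRingHom := by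
      rw [Ideal.span_le]
      intro P hP
      exact hfS P hP
    exact hle hq
  have h := hker _ hM
  rw [map_pow, map_mul, MvPolynomial.aeval_X] at h
  have h1 : (f i * MvPolynomial.aeval f F) ^ (M + 1) = 0 := by rw [pow_succ, h, zero_mul]
  have h2 : f i * MvPolynomial.aeval f F = 0 := (pow_eq_zero_iff (Nat.succ_ne_zero M)).1 h1
  exact (mul_eq_zero.1 h2).resolve_left hi'

theorem rows {k : Type} [Field k] {n c D : ℕ} {w : Fin (n + 1) → ℕ}
    {S : Set (MvPolynomial (Fin (n + 1)) k)} {L : ℕ → Submodule k (PowerSeries k)}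
    {f : Fin (n + 1) → PowerSeries k} (hfS : ∀ P ∈ S, MvPolynomial.aeval f P = 0)
    (P : Fin c → MvPolynomial (Fin (n + 1)) k) (hP : ∀ l, P l ∈ S)
    {Q : MvPolynomial (Fin (n + 1)) k} (hQ : Q ∈ S)
    (hloc : ∃ h, MvPolynomial.eval (fun i => PowerSeries.constantCoeff (f i)) h ≠ 0 ∧
      h * Q ∈ Ideal.span (Set.range P)) :
    ∃ C : Fin c → PowerSeries k,
      (∀ i, MvPolynomial.aeval f (MvPolynomial.pderiv i Q) =
        ∑ l, C l * MvPolynomial.aeval f (MvPolynomial.pderiv i (P l))) ∧
      ∀ p : MvPolynomial (Fin (n + 1)) k → PowerSeries k, WF w S D L f p →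
        p Q = ∑ l, C l * p (P l) := by
  obtain ⟨h, hh, hm⟩ := hloc
  obtain ⟨g, hg⟩ := Ideal.mem_span_range_iff_exists_fun.1 hm
  have hc : PowerSeries.constantCoeff (MvPolynomial.aeval f h) =
      MvPolynomial.eval (fun i => PowerSeries.constantCoeff (f i)) h := by
    have e : (PowerSeries.constantCoeff (R := k)).comp
        (MvPolynomial.aeval (R := k) f).toRingHom =
        MvPolynomial.eval (fun i => PowerSeries.constantCoeff (f i)) := by
      apply MvPolynomial.ringHom_ext
      · intro r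
        simp
      · intro i
        simp
    exact RingHom.congr_fun e h
  have hu : MvPolynomial.aeval f h * (MvPolynomial.aeval f h)⁻¹ = 1 := by
    apply PowerSeries.mul_inv_cancel
    rw [hc]
    exact hh
  refine ⟨fun l => MvPolynomial.aeval f (g l) * (MvPolynomial.aeval f h)⁻¹, ?_, ?_⟩
  · intro i
    have hd : MvPolynomial.aeval f (MvPolynomial.pderiv i (∑ l, g l * P l)) =
        MvPolynomial.aeval f (MvPolynomial.pderiv i (h * Q)) := by rw [hg]
    rw [map_sum, map_sum, MvPolynomial.pderiv_mul, map_add, map_mul, map_mul, hfS Q hQ,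
      mul_zero, zero_add] at hd
    have hd2 : ∀ l, MvPolynomial.aeval f (MvPolynomial.pderiv i (g l * P l)) =
        MvPolynomial.aeval f (g l) * MvPolynomial.aeval f (MvPolynomial.pderiv i (P l)) := by
      intro l
      rw [MvPolynomial.pderiv_mul, map_add, map_mul, map_mul, hfS (P l) (hP l), mul_zero, zero_add]
    calc MvPolynomial.aeval f (MvPolynomial.pderiv i Q)
        = (MvPolynomial.aeval f h * (MvPolynomial.aeval f h)⁻¹) *
            MvPolynomial.aeval f (MvPolynomial.pderiv i Q) := by rw [hu, one_mul]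
      _ = (MvPolynomial.aeval f h)⁻¹ *
            (MvPolynomial.aeval f h * MvPolynomial.aeval f (MvPolynomial.pderiv i Q)) := by ring
      _ = (MvPolynomial.aeval f h)⁻¹ *
            ∑ l, MvPolynomial.aeval f (MvPolynomial.pderiv i (g l * P l)) := by rw [hd]
      _ = ∑ l, MvPolynomial.aeval f (g l) * (MvPolynomial.aeval f h)⁻¹ *
            MvPolynomial.aeval f (MvPolynomial.pderiv i (P l)) := by
          rw [Finset.mul_sum]
          refine Finset.sum_congr rfl fun l _ => ?_
          rw [hd2 l]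
          ring
  · intro p hp
    have hcomp := hp.comp c Q h P g hQ hP hg.symm
    calc p Q = (MvPolynomial.aeval f h * (MvPolynomial.aeval f h)⁻¹) * p Q := by rw [hu, one_mul]
      _ = (MvPolynomial.aeval f h)⁻¹ * (MvPolynomial.aeval f h * p Q) := by ring
      _ = (MvPolynomial.aeval f h)⁻¹ * ∑ l, MvPolynomial.aeval f (g l) * p (P l) := by rw [hcomp]
      _ = ∑ l, MvPolynomial.aeval f (g l) * (MvPolynomial.aeval f h)⁻¹ * p (P l) := by
          rw [Finset.mul_sum]
          refine Finset.sum_congr rfl fun l _ => ?_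
          ring

end Pool.Agent.Lib.MP_1e3e9c_agF
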