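import Mathlib
import Pool.Agent.Lib.MP_1e3e9c_agF.FDefs

/-!
# MP_1e3e9c_ag, project F, leaf A5: from the minors to the coordinates

PROOF. Let `I` be the set of the polynomials `F` all of whose weighted homogeneous components `F_a` satisfy `aeval f (F_a) * δ ∈ L (a * D + d)`. It is an ideal: sums are clear; for the product with `G` it is enough to take `G` weighted homogeneous of weight `b` (`(G F)_(a+b) = G F_a`; the components of `G F` for a general `G` are sums of such),
`aeval f G ∈ L (b * D)` (`Lsys`: `one`, `mul`, `mem`; sum over the monomials, as in `MvPolynomial.IsWeightedHomogeneous`), `aeval f (G F_a) δ ∈ L (b * D + (a * D + d))`. `I` contains `S` (`aeval f P = 0`; `P ∈ S` is weighted homogeneous, `hS`, so its only component is `P`) and all minors `mnr P' j`, `P' l ∈ S` (they are weighted homogeneous: `mnr P' j` is `0` or of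
weight `∑ l, m l - ∑ b, w (j b)`, `P' l` of weight `m l`; `0` is in `I`; use `MvPolynomial.IsWeightedHomogeneous` of a determinant: each product of the Leibniz formula is weighted homogeneous of this weight or zero; `pderiv i` lowers the weight by `w i`). A common zero `x ≠ 0` of `I` would be in the zero set of `S`, a smooth point by `hsm x`: `LCI S c x` gives `P'`, `P' l ∈ S`, with
linearly independent gradients (`gr`), so some minor `mnr P' j` does not vanish at `x` (a `c × (n+1)` matrix of rank `c` has an invertible `c × c` submatrix): contradiction. By the Nullstellensatz (`k` algebraically closed) `X i ∈ I.radical` for all `i` (it vanishes at the only possible common zero `0`), so `X i ^ M ∈ I` for one large `M` and all `i`; it is weighted homogeneous of weight `w i * M`: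
`f i ^ M * δ = aeval f (X i ^ M) * δ ∈ L (w i * M * D + d)`.
-/

set_option autoImplicit false

namespace Pool.Agent.Lib.MP_1e3e9c_agF

open Pool.Agent.Lib.MP_1e3e9c_agR

private theorem A5_pd {k : Type} [Field k] {n : ℕ} {w : Fin (n + 1) → ℕ}
    {φ : MvPolynomial (Fin (n + 1)) k} {m : ℕ} (hφ : φ.IsWeightedHomogeneous w m)
    (i : Fin (n + 1)) (h : MvPolynomial.pderiv i φ ≠ 0) :
    w i ≤ m ∧ (MvPolynomial.pderiv i φ).IsWeightedHomogeneous w (m - w i) := by
  have h1 : w i ≤ m := by
    by_contra h2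
    refine h (MvPolynomial.pderiv_eq_zero_of_notMem_vars fun h3 => ?_)
    obtain ⟨e, he1, he2⟩ := (MvPolynomial.mem_vars_iff_mem_support i).1 h3
    have h4 := hφ (MvPolynomial.mem_support_iff.1 he1)
    have h5 : w i ≤ Finsupp.weight w e :=
      Finsupp.le_weight_of_ne_zero' (w := w) (Finsupp.mem_support_iff.1 he2)
    omega
  exact ⟨h1, hφ.pderiv (Nat.sub_add_cancel h1)⟩

/-- the weight of a minor -/
theorem mnr_hom {k : Type} [Field k] {n c : ℕ} {w : Fin (n + 1) → ℕ}
    {P : Fin c → MvPolynomial (Fin (n + 1)) k} {m : Fin c → ℕ}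
    (hP : ∀ l, (P l).IsWeightedHomogeneous w (m l)) (j : Fin c → Fin (n + 1))
    (hne : mnr P j ≠ 0) : ∃ a, (mnr P j).IsWeightedHomogeneous w a ∧
      a + ∑ b, w (j b) = ∑ l, m l := by
  classical
  have hdet : mnr P j = ∑ σ : Equiv.Perm (Fin c), ((Equiv.Perm.sign σ : ℤ) : MvPolynomial (Fin (n + 1)) k) *
      ∏ b, MvPolynomial.pderiv (j b) (P (σ b)) := by
    rw [mnr, Matrix.det_apply']
    rfl
  have hterm : ∀ σ : Equiv.Perm (Fin c), ∏ b, MvPolynomial.pderiv (j b) (P (σ b)) ≠ 0 →
      ∃ a, (∏ b, MvPolynomial.pderiv (j b) (P (σ b))).IsWeightedHomogeneous w a ∧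
        a + ∑ b, w (j b) = ∑ l, m l := by
    intro σ hσ
    have h1 : ∀ b, MvPolynomial.pderiv (j b) (P (σ b)) ≠ 0 := fun b =>
      Finset.prod_ne_zero_iff.1 hσ b (Finset.mem_univ b)
    refine ⟨∑ b, (m (σ b) - w (j b)), MvPolynomial.IsWeightedHomogeneous.prod _ _ _ fun b _ =>
      (A5_pd (hP (σ b)) (j b) (h1 b)).2, ?_⟩
    rw [← Finset.sum_add_distrib, ← Equiv.sum_comp σ m]
    exact Finset.sum_congr rfl fun b _ => Nat.sub_add_cancel (A5_pd (hP (σ b)) (j b) (h1 b)).1
  obtain ⟨σ₀, hσ₀⟩ : ∃ σ : Equiv.Perm (Fin c), ∏ b, MvPolynomial.pderiv (j b) (P (σ b)) ≠ 0 := by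
    by_contra h
    push Not at h
    refine hne ?_
    rw [hdet]
    exact Finset.sum_eq_zero fun σ _ => by rw [h σ, mul_zero]
  obtain ⟨a, -, ha⟩ := hterm σ₀ hσ₀
  refine ⟨a, ?_, ha⟩
  rw [hdet]
  refine MvPolynomial.IsWeightedHomogeneous.sum _ _ _ fun σ _ => ?_
  have hC : ((Equiv.Perm.sign σ : ℤ) : MvPolynomial (Fin (n + 1)) k) =
      MvPolynomial.C ((Equiv.Perm.sign σ : ℤ) : k) :=
    (map_intCast (MvPolynomial.C : k →+* MvPolynomial (Fin (n + 1)) k) _).symm
  rw [hC]
  by_cases h : ∏ b, MvPolynomial.pderiv (j b) (P (σ b)) = 0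
  · rw [h, mul_zero]
    exact MvPolynomial.isWeightedHomogeneous_zero _ _ _
  · obtain ⟨a', ha1, ha2⟩ := hterm σ h
    have h3 : a' = a := by omega
    rw [← h3]
    exact ha1.C_mul _

private theorem A5_minor {k : Type} [Field k] {c N : ℕ} (g : Fin c → Fin N → k)
    (hg : LinearIndependent k g) :
    ∃ j : Fin c → Fin N, (Matrix.of fun a b : Fin c => g a (j b)).det ≠ 0 := by
  have h1 : (Matrix.of g).rank = c := by
    have h := LinearIndependent.rank_matrix (M := Matrix.of g) hg
    rwa [Fintype.card_fin] at h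
  rw [Matrix.rank_eq_finrank_span_cols] at h1
  obtain ⟨φ, hφ1, -, hφ3⟩ := Submodule.exists_fun_fin_finrank_span_eq k (Set.range (Matrix.of g).col)
  choose j hj using hφ1
  refine ⟨fun b => j (Fin.cast h1.symm b), ?_⟩
  have h2 : LinearIndependent k (Matrix.of fun a b : Fin c => g a (j (Fin.cast h1.symm b))).col := by
    have h3 : (Matrix.of fun a b : Fin c => g a (j (Fin.cast h1.symm b))).col = φ ∘ Fin.cast h1.symm := by
      funext b
      rw [Function.comp_apply, ← hj]
      rfl
    rw [h3]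
    exact hφ3.comp _ (Fin.cast_injective _)
  rw [Matrix.linearIndependent_cols_iff_isUnit, Matrix.isUnit_iff_isUnit_det] at h2
  exact h2.ne_zero

private noncomputable def A5_Φ {k : Type} [Field k] {n : ℕ} (w : Fin (n + 1) → ℕ)
    (f : Fin (n + 1) → PowerSeries k) :
    MvPolynomial (Fin (n + 1)) k →ₐ[k] Polynomial (PowerSeries k) :=
  MvPolynomial.aeval fun i => Polynomial.C (f i) * Polynomial.X ^ w i

private theorem A5_coeff {k : Type} [Field k] {n D : ℕ} {w : Fin (n + 1) → ℕ}
    {S : Set (MvPolynomial (Fin (n + 1)) k)} {L : ℕ → Submodule k (PowerSeries k)}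
    {f : Fin (n + 1) → PowerSeries k} (hL : Lsys w S D L f) (G : MvPolynomial (Fin (n + 1)) k) :
    ∀ b, (A5_Φ w f G).coeff b ∈ L (b * D) := by
  induction G using MvPolynomial.induction_on with
  | C c =>
    intro b
    have h1 : A5_Φ w f (MvPolynomial.C c) = Polynomial.C (algebraMap k (PowerSeries k) c) := by
      unfold A5_Φ
      rw [MvPolynomial.aeval_C, Polynomial.algebraMap_apply]
    rw [h1, Polynomial.coeff_C]
    by_cases hb : b = 0
    · rw [if_pos hb, hb, zero_mul, Algebra.algebraMap_eq_smul_one]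
      exact (L 0).smul_mem c hL.one
    · rw [if_neg hb]
      exact (L _).zero_mem
  | add F G hF hG =>
    intro b
    rw [map_add, Polynomial.coeff_add]
    exact (L _).add_mem (hF b) (hG b)
  | mul_X G i hG =>
    intro b
    have h1 : A5_Φ w f (G * MvPolynomial.X i) =
        A5_Φ w f G * Polynomial.C (f i) * Polynomial.X ^ w i := by
      rw [map_mul, mul_assoc]
      unfold A5_Φ
      rw [MvPolynomial.aeval_X]
    rw [h1, Polynomial.coeff_mul_X_pow', Polynomial.coeff_mul_C]
    by_cases hb : w i ≤ b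
    · rw [if_pos hb]
      have h2 := hL.mul _ _ _ _ (hG (b - w i)) (hL.mem i)
      rwa [← add_mul, Nat.sub_add_cancel hb] at h2
    · rw [if_neg hb]
      exact (L _).zero_mem

private theorem A5_hom {k : Type} [Field k] {n : ℕ} {w : Fin (n + 1) → ℕ}
    (f : Fin (n + 1) → PowerSeries k) {F : MvPolynomial (Fin (n + 1)) k} {a : ℕ}
    (hF : F.IsWeightedHomogeneous w a) :
    A5_Φ w f F = Polynomial.C (MvPolynomial.aeval f F) * Polynomial.X ^ a := by
  unfold A5_Φ
  rw [MvPolynomial.aeval_def, MvPolynomial.aeval_def, MvPolynomial.eval₂_eq', MvPolynomial.eval₂_eq',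
    map_sum, Finset.sum_mul]
  refine Finset.sum_congr rfl fun e he => ?_
  have h1 : ∑ i, w i * e i = a := by
    rw [← hF (MvPolynomial.mem_support_iff.1 he), Finsupp.weight_apply,
      Finsupp.sum_fintype _ _ fun i => zero_smul ℕ (w i)]
    exact Finset.sum_congr rfl fun i _ => mul_comm _ _
  have h2 : ∏ i, (Polynomial.C (f i) * Polynomial.X ^ w i) ^ e i =
      Polynomial.C (∏ i, f i ^ e i) * Polynomial.X ^ a := by
    rw [← h1, ← Finset.prod_pow_eq_pow_sum, map_prod, ← Finset.prod_mul_distrib]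
    refine Finset.prod_congr rfl fun i _ => ?_
    rw [mul_pow, ← pow_mul, map_pow]
  rw [h2, Polynomial.algebraMap_apply, map_mul, mul_assoc]

theorem sat_of_minors {k : Type} [Field k] [IsAlgClosed k] {n c D d : ℕ} {w : Fin (n + 1) → ℕ}
    (hw : ∀ i, 0 < w i) {S : Set (MvPolynomial (Fin (n + 1)) k)}
    (hS : ∀ P ∈ S, ∃ m, P.IsWeightedHomogeneous w m) (hsm : Sm S c)
    {L : ℕ → Submodule k (PowerSeries k)} {f : Fin (n + 1) → PowerSeries k}
    (hL : Lsys w S D L f) {δ : PowerSeries k}
    (hδ : ∀ P' : Fin c → MvPolynomial (Fin (n + 1)) k, (∀ l, P' l ∈ S) → ∀ j a,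
      (mnr P' j).IsWeightedHomogeneous w a →
      MvPolynomial.aeval f (mnr P' j) * δ ∈ L (a * D + d)) :
    ∃ M : ℕ, ∀ i, f i ^ M * δ ∈ L (d + w i * M * D) := by
  obtain ⟨I, hI⟩ : ∃ I : Ideal (MvPolynomial (Fin (n + 1)) k), ∀ F, F ∈ I ↔
      ∀ a, (A5_Φ w f F).coeff a * δ ∈ L (a * D + d) :=
    ⟨{ carrier := {F | ∀ a, (A5_Φ w f F).coeff a * δ ∈ L (a * D + d)}
       zero_mem' := fun a => by
        rw [map_zero, Polynomial.coeff_zero, zero_mul]
        exact (L _).zero_mem
       add_mem' := fun {F G} hF hG a => by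
        rw [map_add, Polynomial.coeff_add, add_mul]
        exact (L _).add_mem (hF a) (hG a)
       smul_mem' := fun G F hF a => by
        rw [smul_eq_mul, map_mul, Polynomial.coeff_mul, Finset.sum_mul]
        refine (L _).sum_mem fun x hx => ?_
        have h1 := hL.mul _ _ _ _ (A5_coeff hL G x.1) (hF x.2)
        have h2 : x.1 * D + (x.2 * D + d) = a * D + d := by
          rw [← Finset.HasAntidiagonal.mem_antidiagonal.1 hx]
          ring
        rw [h2] at h1
        rw [mul_assoc]
        exact h1 }, fun F => Iff.rfl⟩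
  have hIh : ∀ (F : MvPolynomial (Fin (n + 1)) k) (a : ℕ), F.IsWeightedHomogeneous w a →
      MvPolynomial.aeval f F * δ ∈ L (a * D + d) → F ∈ I := by
    intro F a hF h
    refine (hI F).2 fun b => ?_
    rw [A5_hom f hF, Polynomial.coeff_C_mul, Polynomial.coeff_X_pow]
    by_cases hb : b = a
    · rw [if_pos hb, mul_one, hb]
      exact h
    · rw [if_neg hb, mul_zero, zero_mul]
      exact (L _).zero_mem
  have hSI : ∀ P ∈ S, P ∈ I := by
    intro P hP
    obtain ⟨m, hm⟩ := hS P hP
    refine hIh P m hm ?_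
    rw [hL.base P hP, zero_mul]
    exact (L _).zero_mem
  have hmI : ∀ P' : Fin c → MvPolynomial (Fin (n + 1)) k, (∀ l, P' l ∈ S) → ∀ j, mnr P' j ∈ I := by
    intro P' hP' j
    by_cases h0 : mnr P' j = 0
    · rw [h0]
      exact I.zero_mem
    · choose m hm using fun l => hS (P' l) (hP' l)
      obtain ⟨a, ha, -⟩ := mnr_hom hm j h0
      exact hIh _ a ha (hδ P' hP' j a ha)
  have hzero : ∀ x : Fin (n + 1) → k, (∀ F ∈ I, MvPolynomial.eval x F = 0) → x = 0 := by
    intro x hx
    by_contra hx0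
    obtain ⟨P', hP'S, hP'i, -⟩ := hsm x hx0 fun P hP => hx P (hSI P hP)
    obtain ⟨j, hj⟩ := A5_minor _ hP'i
    refine hj ?_
    have h1 := hx _ (hmI P' hP'S j)
    rw [mnr, RingHom.map_det] at h1
    exact h1
  have hrad : ∀ i, MvPolynomial.X i ∈ I.radical := by
    intro i
    rw [← MvPolynomial.vanishingIdeal_zeroLocus_eq_radical (K := k) I,
      MvPolynomial.mem_vanishingIdeal_iff]
    intro x hx
    have h1 : x = 0 := hzero x fun F hF => by
      have h2 := hx F hF
      rwa [MvPolynomial.aeval_eq_eval] at h2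
    rw [MvPolynomial.aeval_X, h1]
    rfl
  choose M hM using hrad
  refine ⟨∑ i, M i, fun i => ?_⟩
  have h1 : (MvPolynomial.X i : MvPolynomial (Fin (n + 1)) k) ^ (∑ i, M i) ∈ I :=
    I.pow_mem_of_pow_mem (hM i) (Finset.single_le_sum (fun _ _ => Nat.zero_le _) (Finset.mem_univ i))
  have h2 : A5_Φ w f ((MvPolynomial.X i : MvPolynomial (Fin (n + 1)) k) ^ (∑ i, M i)) =
      Polynomial.C (f i ^ (∑ i, M i)) * Polynomial.X ^ (w i * ∑ i, M i) := by
    unfold A5_Φ
    rw [map_pow, MvPolynomial.aeval_X, mul_pow, ← pow_mul, map_pow]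
  have h3 := (hI _).1 h1 (w i * ∑ i, M i)
  rw [h2, Polynomial.coeff_C_mul, Polynomial.coeff_X_pow, if_pos rfl, mul_one, add_comm] at h3
  exact h3

end Pool.Agent.Lib.MP_1e3e9c_agF
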