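import Mathlib
import Pool.Agent.Lib.MP_1e3e9c_agF.A3
import Pool.Agent.Lib.MP_1e3e9c_agF.A4
import Pool.Agent.Lib.MP_1e3e9c_agF.A5

/-!
# MP_1e3e9c_ag, project F, leaf A6: a section of `O(d)` of large order

PROOF. `v i = constantCoeff (f i)`, `v ≠ 0`, `v` in the zero set of `S` (constant coefficient of `aeval f P = 0`). `hsm v`: `P : Fin c → ..`, `P l ∈ S`, gradients at `v` linearly independent, `hloc`. So there is `j₀ : Fin c → Fin (n + 1)` (injective) with `eval v (mnr P j₀) ≠ 0` (rank). Let `u₀ = aeval f (mnr P j₀)`, a unit of `k[[t]]`,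
`E : Matrix (Fin c) (Fin c) k[[t]]`, `E l b = aeval f (pderiv (j₀ b) (P l))`, `det E = u₀`. Relation (R): for all `P' l ∈ S` and `i, j`: `aeval f (ψ i) * aeval f (mnr P' j) = aeval f (ψ j) * aeval f (mnr P' i)` by `vanish_arc` (A4) for `F = ψ i * mnr P' j - ψ j * mnr P' i`
(`hψ.eq`; `f ≠ 0`). `eval v (ψ j₀) ≠ 0`: by `hψ.ne` some `eval v (ψ i) ≠ 0`, and `eval v (ψ i) * eval v (mnr P j₀) = eval v (ψ j₀) * eval v (mnr P i)`. So `aeval f (ψ j₀)` is a unit and by `hψ.hom` there is `d₀` with `d₀ + ∑ b, w (j₀ b) = e`.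
Apply `la_det` (A3) to the vectors `x s = E⁻¹ (p s (P l))_l` (they have constant coefficients `0`, `WF.zero`; independent: if `∑ a s x s = 0`, then `∑ a s p s (P l) = 0` for all `l`, so by `rows` (A4) for all `Q ∈ S`, and `hind`). We get columns `q b`, and `y b = E (q b)`: `y b l = ∑ s, C (a_b s) * p s (P l)` (first kind), or
`y b l = aeval f (pderiv (j₀ b') (P l))`, `b' = σ b` (second kind); the `σ b` are different for different `b` of the second kind (otherwise two equal columns). `Δ = det (y b l) = u₀ * det q`, `Δ ≠ 0`, `W₀ < Δ.order`.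
For `P' l ∈ S` let `Δ' (P')` be the determinant of the matrix with the entries `∑ s, C (a_b s) * p s (P' l)` resp. `aeval f (pderiv (j₀ (σ b)) (P' l))`. By `rows` there is a matrix `C` with `P'`-rows `= C *` `P`-rows, for all these columns and for the columns `pderiv i`: `Δ' (P') = det C * Δ`, `aeval f (mnr P' j) = det C * aeval f (mnr P j)` for all `j`.
`δ = Δ * aeval f (ψ j₀) * u₀⁻¹`: `δ ≠ 0`, same order as `Δ`. `aeval f (mnr P' j) * δ = det C * aeval f (mnr P j) * Δ * aeval f (ψ j₀) * u₀⁻¹ = det C * Δ * aeval f (ψ j) = Δ' (P') * aeval f (ψ j)` ((R) for `P`: `aeval f (ψ j₀) * aeval f (mnr P j) = aeval f (ψ j) * u₀`).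
Weights: `P' l` is weighted homogeneous of weight `m l` (`hS`). `Δ' (P') ∈ L (x)` for `x = (∑ m l - ∑_(b second kind) w (j₀ (σ b))) * D`, if it is not `0`: each product of the Leibniz formula is `0` or in this space: `∑ s, C (a_b s) * p s (P' l) ∈ L (m l * D)`, and `pderiv i (P' l)` is `0` or `w i ≤ m l` and `aeval f` of it is in `L ((m l - w i) * D)`
(a weighted homogeneous polynomial `H` of weight `a` has `aeval f H ∈ L (a * D)`: `Lsys`). `ψ j = 0` or of weight `d_j`, `d_j + ∑ w (j b) = e`, `aeval f (ψ j) ∈ L (d_j * D)`. With `d = (e - ∑_(b second kind) w (j₀ (σ b))) * D ≤ e * D` (no truncation: `∑_(second kind) ≤ ∑ b, w (j₀ b) ≤ e` as the `σ b` are different) and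
`a + ∑ w (j b) = ∑ m l` (`mnr_hom`, A5; if `mnr P' j = 0` the claim is trivial; if `a` is another weight of the nonzero polynomial `mnr P' j`, it is the same by uniqueness of the weight of a nonzero polynomial): `x + d_j * D = a * D + d`.
-/

set_option autoImplicit false

namespace Pool.Agent.Lib.MP_1e3e9c_agF

open Pool.Agent.Lib.MP_1e3e9c_agR

private theorem A6_cc {k : Type} [Field k] {n : ℕ} (f : Fin (n + 1) → PowerSeries k)
    (P : MvPolynomial (Fin (n + 1)) k) : PowerSeries.constantCoeff (MvPolynomial.aeval f P) =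
      MvPolynomial.eval (fun i => PowerSeries.constantCoeff (f i)) P := by
  induction P using MvPolynomial.induction_on with
  | C a =>
    rw [MvPolynomial.aeval_C, MvPolynomial.eval_C]
    exact PowerSeries.constantCoeff_C a
  | add p q hp hq => rw [map_add, map_add, map_add, hp, hq]
  | mul_X p i hp => rw [map_mul, map_mul, map_mul, hp, MvPolynomial.aeval_X, MvPolynomial.eval_X]

/-- a matrix with independent rows has a maximal minor which is not zero -/
private theorem A6_minor {k : Type} [Field k] {c m : ℕ} (M : Fin c → Fin m → k) (h : LinearIndependent k M) :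
    ∃ j : Fin c → Fin m, Matrix.det (Matrix.of fun l b => M l (j b)) ≠ 0 := by
  classical
  obtain ⟨A, hA⟩ : ∃ A : Matrix (Fin c) (Fin m) k, A = Matrix.of M := ⟨_, rfl⟩
  have h1 : LinearIndependent k A.row := by
    rw [hA]
    exact h
  have h2 : A.rank = c := by
    rw [h1.rank_matrix, Fintype.card_fin]
  rw [Matrix.rank_eq_finrank_span_cols] at h2
  obtain ⟨κ, a, ha, hsp, hli⟩ := exists_linearIndependent' k A.col
  have hfin : Finite κ := Finite.of_injective a ha
  have hfint : Fintype κ := Fintype.ofFinite κ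
  have hcard : Fintype.card κ = c := by
    rw [← finrank_span_eq_card hli, hsp, h2]
  obtain ⟨ε⟩ : Nonempty (Fin c ≃ κ) := ⟨(Fintype.equivFinOfCardEq hcard).symm⟩
  refine ⟨fun b => a (ε b), ?_⟩
  have h3 : LinearIndependent k (Matrix.of fun l b => M l (a (ε b))).col := by
    have h4 := hli.comp ε ε.injective
    have h5 : (Matrix.of fun l b => M l (a (ε b))).col = (A.col ∘ a) ∘ ε := by
      funext b l
      rw [hA]
      rfl
    rw [h5]
    exact h4
  have h6 := Matrix.linearIndependent_cols_iff_isUnit.1 h3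
  exact ((Matrix.isUnit_iff_isUnit_det _).1 h6).ne_zero

private theorem A6_prodmem {k : Type} [Field k] {n D : ℕ} {w : Fin (n + 1) → ℕ} {S : Set (MvPolynomial (Fin (n + 1)) k)}
    {L : ℕ → Submodule k (PowerSeries k)} {f : Fin (n + 1) → PowerSeries k} (hL : Lsys w S D L f) {ι : Type}
    (s : Finset ι) (x : ι → PowerSeries k) (a : ι → ℕ) (h : ∀ i ∈ s, x i ∈ L (a i)) :
    ∏ i ∈ s, x i ∈ L (∑ i ∈ s, a i) := by
  classical
  induction s using Finset.induction_on with
  | empty =>
    rw [Finset.prod_empty, Finset.sum_empty]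
    exact hL.one
  | insert i s hi ih =>
    rw [Finset.prod_insert hi, Finset.sum_insert hi]
    exact hL.mul _ _ _ _ (h i (Finset.mem_insert_self i s)) (ih fun j hj => h j (Finset.mem_insert_of_mem hj))

private theorem A6_powmem {k : Type} [Field k] {n D : ℕ} {w : Fin (n + 1) → ℕ} {S : Set (MvPolynomial (Fin (n + 1)) k)}
    {L : ℕ → Submodule k (PowerSeries k)} {f : Fin (n + 1) → PowerSeries k} (hL : Lsys w S D L f)
    (s : Fin (n + 1) →₀ ℕ) : (s.prod fun i m => f i ^ m) ∈ L (Finsupp.weight w s * D) := by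
  induction s using Finsupp.induction_linear with
  | zero =>
    rw [Finsupp.prod_zero_index, map_zero, zero_mul]
    exact hL.one
  | add α β hα hβ =>
    have h2 : (Finsupp.prod (α + β) fun i m => f i ^ m) = (α.prod fun i m => f i ^ m) * (β.prod fun i m => f i ^ m) :=
      Finsupp.prod_add_index' (fun i => pow_zero _) (fun i a b => pow_add _ a b)
    rw [h2, map_add, add_mul]
    exact hL.mul _ _ _ _ hα hβ
  | single i m =>
    have h6 : ((Finsupp.single i m).prod fun i m => f i ^ m) = f i ^ m :=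
      Finsupp.prod_single_index (h := fun i m => f i ^ m) (pow_zero (f i))
    rw [h6, Finsupp.weight_single, smul_eq_mul]
    induction m with
    | zero =>
      rw [pow_zero, zero_mul, zero_mul]
      exact hL.one
    | succ m ih =>
      have h7 : ((Finsupp.single i m).prod fun i m => f i ^ m) = f i ^ m :=
        Finsupp.prod_single_index (h := fun i m => f i ^ m) (pow_zero (f i))
      have h8 : (m + 1) * w i * D = m * w i * D + w i * D := by ring
      rw [pow_succ, h8]
      exact hL.mul _ _ _ _ (ih h7) (hL.mem i)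

private theorem A6_aemem {k : Type} [Field k] {n D : ℕ} {w : Fin (n + 1) → ℕ} {S : Set (MvPolynomial (Fin (n + 1)) k)}
    {L : ℕ → Submodule k (PowerSeries k)} {f : Fin (n + 1) → PowerSeries k} (hL : Lsys w S D L f)
    {H : MvPolynomial (Fin (n + 1)) k} {a : ℕ} (hH : H.IsWeightedHomogeneous w a) :
    MvPolynomial.aeval f H ∈ L (a * D) := by
  rw [H.as_sum, map_sum]
  refine Submodule.sum_mem _ fun s hs => ?_
  rw [MvPolynomial.aeval_monomial, ← Algebra.smul_def]
  refine Submodule.smul_mem _ _ ?_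
  have h1 := A6_powmem hL s
  rw [hH (MvPolynomial.mem_support_iff.1 hs)] at h1
  exact h1

private theorem A6_pderiv_zero {k : Type} [Field k] {n : ℕ} {w : Fin (n + 1) → ℕ} {Q : MvPolynomial (Fin (n + 1)) k} {m : ℕ}
    (hQ : Q.IsWeightedHomogeneous w m) {i : Fin (n + 1)} (hi : m < w i) : MvPolynomial.pderiv i Q = 0 := by
  rw [Q.as_sum, map_sum]
  refine Finset.sum_eq_zero fun s hs => ?_
  rw [MvPolynomial.pderiv_monomial]
  have h1 : s i = 0 := by
    by_contra h0
    have h2 : Finsupp.weight w s = m := hQ (MvPolynomial.mem_support_iff.1 hs)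
    have h3 : w i ≤ Finsupp.weight w s := by
      rw [Finsupp.weight_apply, Finsupp.sum_fintype s (fun i c => c • w i) (fun i => zero_smul _ _)]
      have h4 : s i • w i ≤ ∑ j, s j • w j :=
        Finset.single_le_sum (f := fun j => s j • w j) (fun _ _ => Nat.zero_le _) (Finset.mem_univ i)
      have h5 : w i ≤ s i • w i := by
        rw [smul_eq_mul]
        exact Nat.le_mul_of_pos_left _ (Nat.pos_of_ne_zero h0)
      exact h5.trans h4
    omega
  rw [h1, Nat.cast_zero, mul_zero, MvPolynomial.monomial_zero]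

private theorem A6_rel {k : Type} [Field k] [IsAlgClosed k] {n c e : ℕ} {w : Fin (n + 1) → ℕ}
    {S : Set (MvPolynomial (Fin (n + 1)) k)} {ψ : (Fin c → Fin (n + 1)) → MvPolynomial (Fin (n + 1)) k}
    (hψ : Cnl w S c e ψ) {f : Fin (n + 1) → PowerSeries k} (hf : f ≠ 0) (hfS : ∀ P ∈ S, MvPolynomial.aeval f P = 0)
    (P : Fin c → MvPolynomial (Fin (n + 1)) k) (hP : ∀ l, P l ∈ S) (i j : Fin c → Fin (n + 1)) :
    MvPolynomial.aeval f (ψ i) * MvPolynomial.aeval f (mnr P j) =
      MvPolynomial.aeval f (ψ j) * MvPolynomial.aeval f (mnr P i) := by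
  have h1 : MvPolynomial.aeval f (ψ i * mnr P j - ψ j * mnr P i) = 0 :=
    vanish_arc (fun x hx hxS => by rw [map_sub, map_mul, map_mul, hψ.eq x hx hxS P hP i j, sub_self]) hf hfS
  rw [map_sub, map_mul, map_mul, sub_eq_zero] at h1
  exact h1

private theorem A6_mnr {k : Type} [Field k] {n c : ℕ} (f : Fin (n + 1) → PowerSeries k)
    (P : Fin c → MvPolynomial (Fin (n + 1)) k) (j : Fin c → Fin (n + 1)) :
    MvPolynomial.aeval f (mnr P j) =
      Matrix.det (Matrix.of fun l b => MvPolynomial.aeval f (MvPolynomial.pderiv (j b) (P l))) := by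
  unfold mnr
  rw [AlgHom.map_det]
  refine congrArg Matrix.det ?_
  ext l b
  rfl

/-- the first kind of columns -/
private theorem A6_col1 {k : Type} [Field k] {n c D W₀ : ℕ} {w : Fin (n + 1) → ℕ} {S : Set (MvPolynomial (Fin (n + 1)) k)}
    {L : ℕ → Submodule k (PowerSeries k)} {f : Fin (n + 1) → PowerSeries k}
    (p : Fin (W₀ + 1) → MvPolynomial (Fin (n + 1)) k → PowerSeries k) (hp : ∀ s, WF w S D L f (p s))
    (P : Fin c → MvPolynomial (Fin (n + 1)) k) (a : Fin (W₀ + 1) → k) :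
    (∀ Q : MvPolynomial (Fin (n + 1)) k, ∀ C : Fin c → PowerSeries k,
      (∀ q : MvPolynomial (Fin (n + 1)) k → PowerSeries k, WF w S D L f q → q Q = ∑ l, C l * q (P l)) →
      (∑ s, PowerSeries.C (a s) * p s Q) = ∑ l, C l * ∑ s, PowerSeries.C (a s) * p s (P l)) ∧
    (∀ Q ∈ S, ∀ m, Q.IsWeightedHomogeneous w m → (∑ s, PowerSeries.C (a s) * p s Q) ∈ L (m * D)) := by
  constructor
  · intro Q C hC
    have h1 : ∀ l, C l * ∑ s, PowerSeries.C (a s) * p s (P l) = ∑ s, PowerSeries.C (a s) * (C l * p s (P l)) := by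
      intro l
      rw [Finset.mul_sum]
      exact Finset.sum_congr rfl fun s _ => by ring
    simp only [h1]
    rw [Finset.sum_comm]
    refine Finset.sum_congr rfl fun s _ => ?_
    rw [hC (p s) (hp s), Finset.mul_sum]
  · intro Q hQ m hm
    refine Submodule.sum_mem _ fun s _ => ?_
    have h2 : PowerSeries.C (a s) * p s Q = a s • p s Q := by
      rw [PowerSeries.smul_eq_C_mul]
    rw [h2]
    exact Submodule.smul_mem _ _ ((hp s).deg Q hQ m hm)

/-- the second kind of columns -/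
private theorem A6_col2 {k : Type} [Field k] {n D : ℕ} {w : Fin (n + 1) → ℕ} {S : Set (MvPolynomial (Fin (n + 1)) k)}
    {L : ℕ → Submodule k (PowerSeries k)} {f : Fin (n + 1) → PowerSeries k} (hL : Lsys w S D L f) (i : Fin (n + 1))
    (Q : MvPolynomial (Fin (n + 1)) k) (m : ℕ) (hm : Q.IsWeightedHomogeneous w m) :
    MvPolynomial.aeval f (MvPolynomial.pderiv i Q) = 0 ∨
      (w i ≤ m ∧ MvPolynomial.aeval f (MvPolynomial.pderiv i Q) ∈ L ((m - w i) * D)) := by
  rcases lt_or_ge m (w i) with h | h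
  · left
    rw [A6_pderiv_zero hm h, map_zero]
  · right
    refine ⟨h, A6_aemem hL ?_⟩
    exact MvPolynomial.IsWeightedHomogeneous.pderiv hm (Nat.sub_add_cancel h)

/-- a product over the entries of a permutation -/
private theorem A6_term {k : Type} [Field k] {n D c : ℕ} {w : Fin (n + 1) → ℕ} {S : Set (MvPolynomial (Fin (n + 1)) k)}
    {L : ℕ → Submodule k (PowerSeries k)} {f : Fin (n + 1) → PowerSeries k} (hL : Lsys w S D L f)
    (x : Fin c → PowerSeries k) (m t : Fin c → ℕ) (σ : Equiv.Perm (Fin c))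
    (hx : ∀ b, x b = 0 ∨ (t b ≤ m (σ b) ∧ x b ∈ L ((m (σ b) - t b) * D))) :
    ∏ b, x b = 0 ∨ (∑ b, t b ≤ ∑ l, m l ∧ ∏ b, x b ∈ L ((∑ l, m l - ∑ b, t b) * D)) := by
  by_cases h0 : ∃ b, x b = 0
  · obtain ⟨b, hb⟩ := h0
    left
    exact Finset.prod_eq_zero (Finset.mem_univ b) hb
  · right
    have h1 : ∀ b, t b ≤ m (σ b) ∧ x b ∈ L ((m (σ b) - t b) * D) := fun b =>
      (hx b).resolve_left fun h => h0 ⟨b, h⟩
    have h2 : ∑ l, m l = ∑ b, m (σ b) := (Equiv.sum_comp σ m).symm
    refine ⟨?_, ?_⟩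
    · rw [h2]
      exact Finset.sum_le_sum fun b _ => (h1 b).1
    · have h3 := A6_prodmem hL Finset.univ x (fun b => (m (σ b) - t b) * D) fun b _ => (h1 b).2
      have h4 : ∑ b, (m (σ b) - t b) * D = (∑ l, m l - ∑ b, t b) * D := by
        rw [← Finset.sum_mul, h2, Finset.sum_tsub_distrib _ fun b _ => (h1 b).1]
      rw [h4] at h3
      exact h3

/-- the weights of the columns of the second kind -/
private theorem A6_wt {c : ℕ} (t u : Fin c → ℕ) (o : Fin c → Option (Fin c))
    (ht : ∀ b, t b ≤ (o b).elim 0 u) (ho : ∀ b b' i, o b = some i → o b' = some i → b = b') :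
    ∑ b, t b ≤ ∑ b, u b := by
  classical
  have h1 : ∀ b, (o b).elim 0 u = ∑ i, if o b = some i then u i else 0 := by
    intro b
    rcases h : o b with _ | i
    · rw [Finset.sum_eq_zero]
      · rfl
      · intro i _
        rw [if_neg]
        exact fun h => Option.noConfusion rfl (heq_of_eq h)
    · rw [Finset.sum_eq_single i]
      · rw [if_pos rfl]
        rfl
      · intro j _ hj
        rw [if_neg]
        intro h2
        exact hj (Option.some.inj h2).symm
      · intro h2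
        exact absurd (Finset.mem_univ i) h2
  calc ∑ b, t b ≤ ∑ b, (o b).elim 0 u := Finset.sum_le_sum fun b _ => ht b
    _ = ∑ b, ∑ i, (if o b = some i then u i else 0) := Finset.sum_congr rfl fun b _ => h1 b
    _ = ∑ i, ∑ b, (if o b = some i then u i else 0) := Finset.sum_comm
    _ ≤ ∑ i, u i := by
      refine Finset.sum_le_sum fun i _ => ?_
      rw [← Finset.sum_filter, Finset.sum_const, smul_eq_mul]
      have h2 : (Finset.univ.filter fun b => o b = some i).card ≤ 1 := by
        rw [Finset.card_le_one]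
        intro b hb b' hb'
        exact ho b b' i (Finset.mem_filter.1 hb).2 (Finset.mem_filter.1 hb').2
      calc _ ≤ 1 * u i := Nat.mul_le_mul_right _ h2
        _ = u i := one_mul _

/-- the columns -/
private theorem A6_cols {k : Type} [Field k] {n c D W₀ : ℕ} {w : Fin (n + 1) → ℕ} {S : Set (MvPolynomial (Fin (n + 1)) k)}
    {L : ℕ → Submodule k (PowerSeries k)} {f : Fin (n + 1) → PowerSeries k} (hL : Lsys w S D L f)
    (p : Fin (W₀ + 1) → MvPolynomial (Fin (n + 1)) k → PowerSeries k) (hp : ∀ s, WF w S D L f (p s))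
    (hind : ∀ a : Fin (W₀ + 1) → k, (∀ P ∈ S, ∑ s, PowerSeries.C (a s) * p s P = 0) → a = 0)
    (P : Fin c → MvPolynomial (Fin (n + 1)) k) (hP : ∀ l, P l ∈ S)
    (hloc : ∀ Q ∈ S, ∃ h, MvPolynomial.eval (fun i => PowerSeries.constantCoeff (f i)) h ≠ 0 ∧
      h * Q ∈ Ideal.span (Set.range P)) (j₀ : Fin c → Fin (n + 1))
    (hu : IsUnit (MvPolynomial.aeval f (mnr P j₀))) :
    ∃ (Y : Fin c → MvPolynomial (Fin (n + 1)) k → PowerSeries k) (t : Fin c → ℕ) (g : PowerSeries k),
      g ≠ 0 ∧ (W₀ : ℕ∞) < g.order ∧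
      Matrix.det (Matrix.of fun l b => Y b (P l)) = MvPolynomial.aeval f (mnr P j₀) * g ∧
      ∑ b, t b ≤ ∑ b, w (j₀ b) ∧
      (∀ b, ∀ Q : MvPolynomial (Fin (n + 1)) k, ∀ C : Fin c → PowerSeries k,
        (∀ i, MvPolynomial.aeval f (MvPolynomial.pderiv i Q) =
          ∑ l, C l * MvPolynomial.aeval f (MvPolynomial.pderiv i (P l))) →
        (∀ q : MvPolynomial (Fin (n + 1)) k → PowerSeries k, WF w S D L f q → q Q = ∑ l, C l * q (P l)) →
        Y b Q = ∑ l, C l * Y b (P l)) ∧
      ∀ b, ∀ Q ∈ S, ∀ m, Q.IsWeightedHomogeneous w m → Y b Q = 0 ∨ (t b ≤ m ∧ Y b Q ∈ L ((m - t b) * D)) := by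
  classical
  obtain ⟨E, hE⟩ : ∃ E : Matrix (Fin c) (Fin c) (PowerSeries k),
    E = Matrix.of fun l b => MvPolynomial.aeval f (MvPolynomial.pderiv (j₀ b) (P l)) := ⟨_, rfl⟩
  have hdet : E.det = MvPolynomial.aeval f (mnr P j₀) := by
    rw [A6_mnr, hE]
  have hEu : IsUnit E.det := by
    rw [hdet]
    exact hu
  obtain ⟨x, hx⟩ : ∃ x : Fin (W₀ + 1) → Fin c → PowerSeries k,
    x = fun s => Matrix.mulVec E⁻¹ (fun l => p s (P l)) := ⟨_, rfl⟩
  have hEx : ∀ s, Matrix.mulVec E (x s) = fun l => p s (P l) := by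
    intro s
    rw [hx]
    show Matrix.mulVec E (Matrix.mulVec E⁻¹ (fun l => p s (P l))) = _
    rw [Matrix.mulVec_mulVec, Matrix.mul_nonsing_inv E hEu, Matrix.one_mulVec]
  have hlin : ∀ (a : Fin (W₀ + 1) → k) (l : Fin c),
      Matrix.mulVec E (fun l => ∑ s, PowerSeries.C (a s) * x s l) l = ∑ s, PowerSeries.C (a s) * p s (P l) := by
    intro a l
    have h1 : Matrix.mulVec E (fun l => ∑ s, PowerSeries.C (a s) * x s l) l =
        ∑ s, PowerSeries.C (a s) * Matrix.mulVec E (x s) l := by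
      simp only [Matrix.mulVec, dotProduct, Finset.mul_sum]
      rw [Finset.sum_comm]
      exact Finset.sum_congr rfl fun s _ => Finset.sum_congr rfl fun m _ => by ring
    rw [h1]
    exact Finset.sum_congr rfl fun s _ => by rw [hEx s]
  have hrows : ∀ Q ∈ S, ∃ C : Fin c → PowerSeries k,
      (∀ i, MvPolynomial.aeval f (MvPolynomial.pderiv i Q) =
        ∑ l, C l * MvPolynomial.aeval f (MvPolynomial.pderiv i (P l))) ∧
      ∀ q : MvPolynomial (Fin (n + 1)) k → PowerSeries k, WF w S D L f q → q Q = ∑ l, C l * q (P l) :=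
    fun Q hQ => rows hL.base P hP hQ (hloc Q hQ)
  obtain ⟨q, hq, hq0, hqW⟩ := la_det x
    (by
      intro s l
      rw [hx]
      show PowerSeries.constantCoeff (∑ m, E⁻¹ l m * p s (P m)) = 0
      rw [map_sum]
      refine Finset.sum_eq_zero fun m _ => ?_
      rw [map_mul, (hp s).zero (P m) (hP m), mul_zero])
    (by
      intro a ha
      refine hind a fun Q hQ => ?_
      obtain ⟨C, _, hC⟩ := hrows Q hQ
      rw [(A6_col1 p hp P a).1 Q C hC]
      refine Finset.sum_eq_zero fun l _ => ?_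
      rw [← hlin a l]
      have h2 : (fun l => ∑ s, PowerSeries.C (a s) * x s l) = 0 := by
        funext l
        exact ha l
      rw [h2, Matrix.mulVec_zero, Pi.zero_apply, mul_zero])
  have hY : ∀ b, ∃ (Y : MvPolynomial (Fin (n + 1)) k → PowerSeries k) (t : ℕ) (o : Option (Fin c)),
      (∀ l, Matrix.mulVec E (q b) l = Y (P l)) ∧ t ≤ o.elim 0 (fun i => w (j₀ i)) ∧
      (∀ i, o = some i → q b = Pi.single i 1) ∧
      (∀ Q : MvPolynomial (Fin (n + 1)) k, ∀ C : Fin c → PowerSeries k,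
        (∀ i, MvPolynomial.aeval f (MvPolynomial.pderiv i Q) =
          ∑ l, C l * MvPolynomial.aeval f (MvPolynomial.pderiv i (P l))) →
        (∀ q : MvPolynomial (Fin (n + 1)) k → PowerSeries k, WF w S D L f q → q Q = ∑ l, C l * q (P l)) →
        Y Q = ∑ l, C l * Y (P l)) ∧
      ∀ Q ∈ S, ∀ m, Q.IsWeightedHomogeneous w m → Y Q = 0 ∨ (t ≤ m ∧ Y Q ∈ L ((m - t) * D)) := by
    intro b
    rcases hq b with ⟨a, ha⟩ | ⟨b', hb'⟩
    · refine ⟨fun Q => ∑ s, PowerSeries.C (a s) * p s Q, 0, none, ?_, le_refl _, ?_, ?_, ?_⟩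
      · intro l
        show Matrix.mulVec E (q b) l = ∑ s, PowerSeries.C (a s) * p s (P l)
        rw [← hlin a l]
        have h3 : q b = fun l => ∑ s, PowerSeries.C (a s) * x s l := by
          funext l
          exact ha l
        rw [h3]
      · intro i hi
        exact Option.noConfusion rfl (heq_of_eq hi)
      · intro Q C _ hC
        exact (A6_col1 p hp P a).1 Q C hC
      · intro Q hQ m hm
        right
        refine ⟨Nat.zero_le _, ?_⟩
        rw [Nat.sub_zero]
        exact (A6_col1 p hp P a).2 Q hQ m hm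
    · refine ⟨fun Q => MvPolynomial.aeval f (MvPolynomial.pderiv (j₀ b') Q), w (j₀ b'), some b', ?_, le_refl _, ?_,
        ?_, ?_⟩
      · intro l
        rw [hb', Matrix.mulVec_single_one, hE]
        rfl
      · intro i hi
        rw [hb', Option.some.inj hi]
      · intro Q C hC _
        exact hC (j₀ b')
      · intro Q _ m hm
        exact A6_col2 hL (j₀ b') Q m hm
  choose Y t o h1 h2 h3 h4 h5 using hY
  refine ⟨Y, t, Matrix.det (Matrix.of fun l b => q b l), hq0, hqW, ?_, ?_, h4, h5⟩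
  · rw [← hdet, ← Matrix.det_mul]
    refine congrArg Matrix.det ?_
    ext1 l b
    rw [Matrix.of_apply, ← h1 b l]
    rfl
  · refine A6_wt t (fun i => w (j₀ i)) o h2 ?_
    intro b b' i hb hb'
    by_contra hne
    refine hq0 (Matrix.det_zero_of_column_eq hne ?_)
    intro l
    rw [Matrix.of_apply, Matrix.of_apply, h3 b i hb, h3 b' i hb']

theorem exists_delta {k : Type} [Field k] [IsAlgClosed k] {n c e D W₀ : ℕ}
    {w : Fin (n + 1) → ℕ} (hw : ∀ i, 0 < w i) {S : Set (MvPolynomial (Fin (n + 1)) k)}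
    (hS : ∀ P ∈ S, ∃ m, P.IsWeightedHomogeneous w m) (hsm : Sm S c)
    {ψ : (Fin c → Fin (n + 1)) → MvPolynomial (Fin (n + 1)) k} (hψ : Cnl w S c e ψ)
    {L : ℕ → Submodule k (PowerSeries k)} {f : Fin (n + 1) → PowerSeries k} (hL : Lsys w S D L f)
    (hf0 : (fun i => PowerSeries.constantCoeff (f i)) ≠ 0)
    (p : Fin (W₀ + 1) → MvPolynomial (Fin (n + 1)) k → PowerSeries k)
    (hp : ∀ s, WF w S D L f (p s))
    (hind : ∀ a : Fin (W₀ + 1) → k, (∀ P ∈ S, ∑ s, PowerSeries.C (a s) * p s P = 0) → a = 0) :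
    ∃ d ≤ e * D, ∃ δ : PowerSeries k, δ ≠ 0 ∧ (W₀ : ℕ∞) < δ.order ∧
      ∀ P' : Fin c → MvPolynomial (Fin (n + 1)) k, (∀ l, P' l ∈ S) → ∀ j a,
        (mnr P' j).IsWeightedHomogeneous w a →
        MvPolynomial.aeval f (mnr P' j) * δ ∈ L (a * D + d) := by
  classical
  have hf : f ≠ 0 := by
    intro h
    refine hf0 ?_
    funext i
    rw [h]
    exact map_zero _
  have hv : ∀ P ∈ S, MvPolynomial.eval (fun i => PowerSeries.constantCoeff (f i)) P = 0 := by
    intro P hP
    rw [← A6_cc, hL.base P hP, map_zero]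
  obtain ⟨P, hPS, hlin, hloc⟩ := hsm _ hf0 hv
  obtain ⟨j₀, hj₀⟩ := A6_minor _ hlin
  have hm0 : MvPolynomial.eval (fun i => PowerSeries.constantCoeff (f i)) (mnr P j₀) ≠ 0 := by
    intro h
    refine hj₀ ?_
    unfold mnr at h
    rw [RingHom.map_det] at h
    exact h
  have hu : IsUnit (MvPolynomial.aeval f (mnr P j₀)) := by
    rw [PowerSeries.isUnit_iff_constantCoeff, A6_cc]
    exact isUnit_iff_ne_zero.2 hm0
  have hψ0 : MvPolynomial.aeval f (ψ j₀) ≠ 0 := by
    intro h
    obtain ⟨i, hi⟩ := hψ.ne _ hf0 hv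
    have h1 := hψ.eq _ hf0 hv P hPS i j₀
    rw [← A6_cc f (ψ j₀), h, map_zero, zero_mul] at h1
    exact (mul_ne_zero hi hm0) h1
  have hψne : ψ j₀ ≠ 0 := by
    intro h
    rw [h, map_zero] at hψ0
    exact hψ0 rfl
  obtain ⟨d₀, _, hd₀⟩ := hψ.hom j₀ hψne
  obtain ⟨Y, t, g, hg0, hgW, hdet, ht, hrow, hmem⟩ := A6_cols hL p hp hind P hPS hloc j₀ hu
  have hte : ∑ b, t b ≤ e := by omega
  refine ⟨(e - ∑ b, t b) * D, Nat.mul_le_mul_right _ (Nat.sub_le _ _), g * MvPolynomial.aeval f (ψ j₀),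
    mul_ne_zero hg0 hψ0, ?_, ?_⟩
  · refine lt_of_lt_of_le hgW ?_
    refine le_trans ?_ (PowerSeries.le_order_mul g (MvPolynomial.aeval f (ψ j₀)))
    exact le_self_add
  intro P' hP' j a ha
  -- the matrix of the rows
  have hC : ∀ l', ∃ C : Fin c → PowerSeries k,
      (∀ i, MvPolynomial.aeval f (MvPolynomial.pderiv i (P' l')) =
        ∑ l, C l * MvPolynomial.aeval f (MvPolynomial.pderiv i (P l))) ∧
      ∀ q : MvPolynomial (Fin (n + 1)) k → PowerSeries k, WF w S D L f q → q (P' l') = ∑ l, C l * q (P l) :=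
    fun l' => rows hL.base P hPS (hP' l') (hloc _ (hP' l'))
  choose C hC1 hC2 using hC
  have hdet1 : Matrix.det (Matrix.of fun l b => Y b (P' l)) =
      Matrix.det (Matrix.of C) * Matrix.det (Matrix.of fun l b => Y b (P l)) := by
    rw [← Matrix.det_mul]
    refine congrArg Matrix.det ?_
    ext1 l b
    rw [Matrix.of_apply, hrow b (P' l) (C l) (hC1 l) (hC2 l)]
    rfl
  have hdet2 : MvPolynomial.aeval f (mnr P' j) = Matrix.det (Matrix.of C) * MvPolynomial.aeval f (mnr P j) := by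
    rw [A6_mnr, A6_mnr, ← Matrix.det_mul]
    refine congrArg Matrix.det ?_
    ext1 l b
    rw [Matrix.of_apply, hC1 l (j b)]
    rfl
  have hrel := A6_rel hψ hf hL.base P hPS j₀ j
  have hkey : MvPolynomial.aeval f (mnr P' j) * (g * MvPolynomial.aeval f (ψ j₀)) =
      Matrix.det (Matrix.of fun l b => Y b (P' l)) * MvPolynomial.aeval f (ψ j) := by
    rw [hdet1, hdet2, hdet]
    linear_combination (Matrix.det (Matrix.of C) * g) * hrel
  by_cases hmn : mnr P' j = 0
  · rw [hmn, map_zero, zero_mul]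
    exact Submodule.zero_mem _
  rw [hkey]
  by_cases hψj : ψ j = 0
  · rw [hψj, map_zero, mul_zero]
    exact Submodule.zero_mem _
  obtain ⟨d₁, hd₁, hd₁e⟩ := hψ.hom j hψj
  have hmS : ∀ l, ∃ m, (P' l).IsWeightedHomogeneous w m := fun l => hS _ (hP' l)
  choose m hm using hmS
  obtain ⟨a', ha', haw⟩ := mnr_hom hm j hmn
  have haa : a = a' := MvPolynomial.IsWeightedHomogeneous.inj_right hmn ha ha'
  have hψL := A6_aemem hL hd₁
  rw [Matrix.det_apply, Finset.sum_mul]
  refine Submodule.sum_mem _ fun σ _ => ?_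
  rw [smul_mul_assoc]
  have hkey2 : (∏ b, (Matrix.of fun l b => Y b (P' l)) (σ b) b) * MvPolynomial.aeval f (ψ j) ∈
      L (a * D + (e - ∑ b, t b) * D) := by
    rcases A6_term hL (fun b => (Matrix.of fun l b => Y b (P' l)) (σ b) b) m t σ
      (fun b => hmem b (P' (σ b)) (hP' _) (m (σ b)) (hm _)) with h | ⟨h, h'⟩
    · rw [h, zero_mul]
      exact Submodule.zero_mem _
    · have h6 := hL.mul _ _ _ _ h' hψL
      have h7 : (∑ l, m l - ∑ b, t b) * D + d₁ * D = a * D + (e - ∑ b, t b) * D := by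
        rw [← add_mul, ← add_mul]
        congr 1
        omega
      rw [h7] at h6
      exact h6
  rcases Int.units_eq_one_or (Equiv.Perm.sign σ) with hs | hs
  · rw [hs, one_smul]
    exact hkey2
  · rw [hs, Units.neg_smul, one_smul]
    exact Submodule.neg_mem _ hkey2

end Pool.Agent.Lib.MP_1e3e9c_agF
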