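import Mathlib
import Pool.Agent.Lib.MP_1e3e9c_agF.A1
import Pool.Agent.Lib.MP_1e3e9c_agF.A6

/-!
# MP_1e3e9c_ag, project F, A7: the codimension of the families of curves
-/

set_option autoImplicit false

namespace Pool.Agent.Lib.MP_1e3e9c_agF

open Pool.Agent.Lib.MP_1e3e9c_agR

theorem def_gen {k ι : Type} [Field k] [IsAlgClosed k] [Fintype ι] {n c e D W₀ : ℕ}
    {w : Fin (n + 1) → ℕ} (hw : ∀ i, 0 < w i) {S : Set (MvPolynomial (Fin (n + 1)) k)}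
    (hS : ∀ P ∈ S, ∃ m, P.IsWeightedHomogeneous w m) (hsm : Sm S c)
    {ψ : (Fin c → Fin (n + 1)) → MvPolynomial (Fin (n + 1)) k} (hψ : Cnl w S c e ψ)
    {L : ℕ → Submodule k (PowerSeries k)} {f : Fin (n + 1) → PowerSeries k} (hL : Lsys w S D L f)
    (hf0 : (fun i => PowerSeries.constantCoeff (f i)) ≠ 0)
    (b : ι → Fin (n + 1) → PowerSeries k) (hb : ∀ α i, b α i ∈ L (w i * D))
    (hb0 : ∀ α i, PowerSeries.constantCoeff (b α i) = 0)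
    (hsat : ∀ d ≤ e * D, ∀ δ : PowerSeries k, δ ≠ 0 →
      (∃ M : ℕ, ∀ i, f i ^ M * δ ∈ L (d + w i * M * D)) → δ.order ≤ W₀) :
    ∃ (G : Finset (MvPolynomial ι k)) (s : MvPolynomial ι k), G.card ≤ W₀ ∧
      (∀ q ∈ G, q ∈ JT S f b) ∧ MvPolynomial.constantCoeff s ≠ 0 ∧
      ∀ x ∈ JT S f b, s * x ∈ Ideal.span (G : Set (MvPolynomial ι k)) := by
  refine gen_le (JT S f b) W₀ fun lam hlam => ?_
  by_contra hcon
  push Not at hcon
  have hp := fun s => wf_of_functional hL b hb hb0 (lam s) (hlam s)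
  obtain ⟨d, hd, δ, hδ0, hδ, hδm⟩ := exists_delta (W₀ := W₀) hw hS hsm hψ hL hf0 _ hp
    (by
      intro a ha
      by_contra hne
      obtain ⟨x, hx, hx'⟩ := hcon a hne
      exact hx' (dep_of_dep b lam hlam a ha x hx))
  exact absurd (hsat d hd δ hδ0 (sat_of_minors hw hS hsm hL hδm)) (not_le.2 hδ)

theorem def_height {k ι : Type} [Field k] [IsAlgClosed k] [Fintype ι] {n c e D W₀ : ℕ}
    {w : Fin (n + 1) → ℕ} (hw : ∀ i, 0 < w i) {S : Set (MvPolynomial (Fin (n + 1)) k)}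
    (hS : ∀ P ∈ S, ∃ m, P.IsWeightedHomogeneous w m) (hsm : Sm S c)
    {ψ : (Fin c → Fin (n + 1)) → MvPolynomial (Fin (n + 1)) k} (hψ : Cnl w S c e ψ)
    {L : ℕ → Submodule k (PowerSeries k)} {f : Fin (n + 1) → PowerSeries k} (hL : Lsys w S D L f)
    (hf0 : (fun i => PowerSeries.constantCoeff (f i)) ≠ 0)
    (b : ι → Fin (n + 1) → PowerSeries k) (hb : ∀ α i, b α i ∈ L (w i * D))
    (hb0 : ∀ α i, PowerSeries.constantCoeff (b α i) = 0)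
    (hsat : ∀ d ≤ e * D, ∀ δ : PowerSeries k, δ ≠ 0 →
      (∃ M : ℕ, ∀ i, f i ^ M * δ ∈ L (d + w i * M * D)) → δ.order ≤ W₀) :
    ∀ 𝔭 ∈ (JT S f b).minimalPrimes, 𝔭 ≤ RingHom.ker (MvPolynomial.constantCoeff (R := k)) →
      𝔭.height ≤ W₀ := by
  obtain ⟨G, s, h1, h2, h3, h4⟩ := def_gen hw hS hsm hψ hL hf0 b hb hb0 hsat
  exact ht_of_gen _ _ G s h1 h2 h3 h4

end Pool.Agent.Lib.MP_1e3e9c_agF
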