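import Pool.Agent.Lib.MP_1e3e9c_agF.D1

/-! LEAF D14 (medium-).  The bound of the orders for sections.

PROOF.  Let `M` be as in the hypothesis and `b₀ = m₀ + ∑ i, w i * M` with `m₀` of D1 for `I = {i | v i ≠ 0}`, `L = 0`.  For `b ≥ ∑ i, w i * M`, `x ∈ Hm w g b`: `x * δ ∈ Hm w g (b + d)`: `x = aeval g F`, by linearity `F` is a monomial `X^α` of weight `b`, so some `α i ≥ M` (if all `α i ≤ M - 1` then `b ≤ ∑ w i (M - 1) < ∑ w i M`; `M = 0`: every `i` will do; note `hw`) and `X^α = X^(α - M e_i) X_i^M`.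
So `x * δ^j ∈ Hm w g (b + j d)` for all `j` (induction, `b + j d ≥ b`).  Let `b = b₀` and `x = aeval g (X^β)`, `β` of D1 of weight `b`, with support in `I`: constant coefficient `∏ v i ^ β i ≠ 0`.  `x * δ^j` has the order `j * o`, it is not `0`: `hord` gives `j * o ≤ r * (b + j d)` for all `j`, so `o ≤ r * d` (archimedean: if `o > r d` then `j (o - r d) > r b` for large `j`). -/

set_option autoImplicit false

namespace Pool.Agent.Lib.MP_1e3e9c_agF

private theorem D14_mono {k : Type} [Field k] {n : ℕ} {w : Fin (n + 1) → ℕ} (hw : ∀ i, 0 < w i)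
    {g : Fin (n + 1) → PowerSeries k} {d M : ℕ} {δ : PowerSeries k}
    (hM : ∀ i, g i ^ M * δ ∈ Hm w g (d + w i * M)) {b : ℕ} (hb : ∑ i, w i * M ≤ b)
    (α : Fin (n + 1) →₀ ℕ) (hα : Finsupp.weight w α = b) (c : k) :
    MvPolynomial.aeval g (MvPolynomial.monomial α c) * δ ∈ Hm w g (b + d) := by
  have hsum : ∑ i, w i * α i = b := by
    rw [← hα, Finsupp.weight_apply, Finsupp.sum_fintype _ _ (by simp)]
    exact Finset.sum_congr rfl fun i _ => by rw [smul_eq_mul, mul_comm]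
  have hex : ∃ i, M ≤ α i := by
    by_contra hcon
    push Not at hcon
    have h1 : ∑ i, w i * α i < ∑ i, w i * M :=
      Finset.sum_lt_sum_of_nonempty ⟨0, Finset.mem_univ _⟩
        fun i _ => Nat.mul_lt_mul_of_pos_left (hcon i) (hw i)
    omega
  obtain ⟨i, hi⟩ := hex
  have hle : Finsupp.single i M ≤ α := by
    rw [Finsupp.single_le_iff]
    exact hi
  have hdec : (α - Finsupp.single i M) + Finsupp.single i M = α := tsub_add_cancel_of_le hle
  have hmon : MvPolynomial.monomial α c =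
      MvPolynomial.monomial (α - Finsupp.single i M) c * MvPolynomial.X i ^ M := by
    rw [MvPolynomial.X_pow_eq_monomial, MvPolynomial.monomial_mul, mul_one, hdec]
  have hwt : Finsupp.weight w (α - Finsupp.single i M) + w i * M = b := by
    have h2 : Finsupp.weight w ((α - Finsupp.single i M) + Finsupp.single i M) = b := by
      rw [hdec, hα]
    rw [map_add, Finsupp.weight_single, smul_eq_mul] at h2
    rw [mul_comm (w i) M]
    exact h2
  have h3 : MvPolynomial.aeval g (MvPolynomial.monomial (α - Finsupp.single i M) c) ∈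
      Hm w g (Finsupp.weight w (α - Finsupp.single i M)) :=
    mem_Hm.2 ⟨_, MvPolynomial.isWeightedHomogeneous_monomial _ _ _ rfl, rfl⟩
  have h4 := Hm_mul h3 (hM i)
  rw [hmon, map_mul, map_pow, MvPolynomial.aeval_X, mul_assoc]
  have h5 : b + d = Finsupp.weight w (α - Finsupp.single i M) + (d + w i * M) := by omega
  rw [h5]
  exact h4

private theorem D14_step {k : Type} [Field k] {n : ℕ} {w : Fin (n + 1) → ℕ} (hw : ∀ i, 0 < w i)
    {g : Fin (n + 1) → PowerSeries k} {d M : ℕ} {δ : PowerSeries k}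
    (hM : ∀ i, g i ^ M * δ ∈ Hm w g (d + w i * M)) {b : ℕ} (hb : ∑ i, w i * M ≤ b)
    {x : PowerSeries k} (hx : x ∈ Hm w g b) : x * δ ∈ Hm w g (b + d) := by
  obtain ⟨F, hF, rfl⟩ := mem_Hm.1 hx
  rw [MvPolynomial.as_sum F, map_sum, Finset.sum_mul]
  refine Submodule.sum_mem _ fun α hα => ?_
  exact D14_mono hw hM hb α (hF (MvPolynomial.mem_support_iff.1 hα)) _

private theorem D14_pow {k : Type} [Field k] {n : ℕ} {w : Fin (n + 1) → ℕ} (hw : ∀ i, 0 < w i)
    {g : Fin (n + 1) → PowerSeries k} {d M : ℕ} {δ : PowerSeries k}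
    (hM : ∀ i, g i ^ M * δ ∈ Hm w g (d + w i * M)) {b : ℕ} (hb : ∑ i, w i * M ≤ b)
    {x : PowerSeries k} (hx : x ∈ Hm w g b) (j : ℕ) : x * δ ^ j ∈ Hm w g (b + j * d) := by
  induction j with
  | zero => simpa using hx
  | succ j ih =>
    have h := D14_step hw hM (le_trans hb (Nat.le_add_right b (j * d))) ih
    have e1 : b + (j + 1) * d = b + j * d + d := by ring
    rw [e1, pow_succ, ← mul_assoc]
    exact h

theorem D_sat {k : Type} [Field k] {n : ℕ} {w : Fin (n + 1) → ℕ} (hw : ∀ i, 0 < w i)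
    {v : Fin (n + 1) → k} (hG : ∀ d : ℕ, (∀ i, v i ≠ 0 → d ∣ w i) → d = 1)
    {g : Fin (n + 1) → PowerSeries k} (hg : ∀ i, PowerSeries.constantCoeff (g i) = v i) {r : ℝ}
    (hord : ∀ d x, x ∈ Hm w g d → x ≠ 0 → ∀ o : ℕ, x.order = o → (o : ℝ) ≤ r * d) :
    ∀ d δ, δ ≠ 0 → (∃ M : ℕ, ∀ i, g i ^ M * δ ∈ Hm w g (d + w i * M)) →
      ∀ o : ℕ, δ.order = o → (o : ℝ) ≤ r * d := by
  intro d δ hδ ⟨M, hM⟩ o ho
  classical
  obtain ⟨m₀, hm₀⟩ := D_exps w (Finset.univ.filter fun i => v i ≠ 0)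
    (fun e he => hG e fun i hi => he i (by simpa using hi)) 0
  obtain ⟨β, hβ0, -, hβ⟩ := hm₀ (m₀ + ∑ i, w i * M) (Nat.le_add_right _ _)
  set b : ℕ := m₀ + ∑ i, w i * M with hbdef
  have hbM : ∑ i, w i * M ≤ b := Nat.le_add_left _ _
  let β' : Fin (n + 1) →₀ ℕ := Finsupp.equivFunOnFinite.symm β
  have hβ'a : ∀ i, β' i = β i := fun i => rfl
  have hwβ : Finsupp.weight w β' = b := by
    rw [Finsupp.weight_apply, Finsupp.sum_fintype _ _ (by simp), ← hβ]
    exact Finset.sum_congr rfl fun i _ => by rw [smul_eq_mul, mul_comm, hβ'a]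
  have hx : MvPolynomial.aeval g (MvPolynomial.monomial β' (1 : k)) ∈ Hm w g b :=
    mem_Hm.2 ⟨_, MvPolynomial.isWeightedHomogeneous_monomial _ _ _ hwβ, rfl⟩
  set x : PowerSeries k := MvPolynomial.aeval g (MvPolynomial.monomial β' (1 : k)) with hxdef
  have hxc : PowerSeries.constantCoeff x ≠ 0 := by
    rw [hxdef, MvPolynomial.aeval_monomial, map_one, one_mul,
      Finsupp.prod_fintype _ _ (by simp), map_prod]
    rw [Finset.prod_ne_zero_iff]
    intro i _
    rw [map_pow, hg]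
    by_cases hi : v i = 0
    · have h0 : β i = 0 := hβ0 i (by simpa using hi)
      rw [hβ'a, h0, pow_zero]
      exact one_ne_zero
    · exact pow_ne_zero _ hi
  have hx0 : x ≠ 0 := by
    intro h
    rw [h, map_zero] at hxc
    exact hxc rfl
  have hxo : x.order = 0 := by
    have h1 : x.order ≤ (0 : ℕ) := PowerSeries.order_le 0 (by
      rw [PowerSeries.coeff_zero_eq_constantCoeff]
      exact hxc)
    simpa using h1
  have hkey : ∀ j : ℕ, (j : ℝ) * o ≤ r * (b + j * d) := by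
    intro j
    have h1 := D14_pow hw hM hbM hx j
    have h2 : x * δ ^ j ≠ 0 := mul_ne_zero hx0 (pow_ne_zero _ hδ)
    have h3 : (x * δ ^ j).order = ((j * o : ℕ) : ℕ∞) := by
      rw [PowerSeries.order_mul, PowerSeries.order_pow, hxo, ho, zero_add, nsmul_eq_mul]
      push_cast
      rfl
    have h4 := hord _ _ h1 h2 _ h3
    push_cast at h4
    exact h4
  by_contra hcon
  push Not at hcon
  obtain ⟨j, hj⟩ := exists_nat_gt (r * b / ((o : ℝ) - r * d))
  have hpos : 0 < (o : ℝ) - r * d := by linarith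
  rw [div_lt_iff₀ hpos] at hj
  have := hkey j
  nlinarith

end Pool.Agent.Lib.MP_1e3e9c_agF
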