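import Pool.Agent.Lib.MP_1e3e9c_agF.D1

/-! LEAF D2 (medium).  Euler's identity; the forms of weight `a` have all gradients at `v`, for `a` large and not divisible by the characteristic.

PROOF.  `D_euler`: by linearity it is enough to take a monomial `F = monomial α c`, `∑ w i α i = a` (`F.as_sum`, or `MvPolynomial.induction_on'''`/the support of `F`: every exponent `α` in it has weight `a`): `v i * eval v (pderiv i (monomial α c)) = α i * c * ∏ v^α` (`MvPolynomial.pderiv_monomial`), so the sum is `(∑ w i α i) c v^α = a * eval v F`. (Perhaps there is an Euler identity in Mathlib: `MvPolynomial.IsWeightedHomogeneous...`.)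
`D_jets`: let `I = {i | v i ≠ 0}`, and `L = ∑ w i + 1`, `m₀` of D1 for `I`, `L` and `a₀ = m₀ + ∑ w i`.  For `a ≥ a₀`, `(a : k) ≠ 0`: the gradients at `v` of the forms of weight `a` are a subspace `G` of `k^(n+1)` (sums, scalar multiples). It contains the `e_i`, `i ∉ I`: take `β` of D1 of weight `a - w i`, `F = X_i * X^β`: `F` is a product of `X_i` and `X^β`, `v i = 0`, so the gradient is `v^β e_i`, `v^β ≠ 0`.
For the others it is enough (duality: a proper subspace is in the kernel of a nonzero functional, `Submodule.exists_le_ker_of_lt_top` or similar) to show: if `c : Fin (n+1) → k`, `c i = 0` for `i ∉ I`, satisfies `∑ i, c i * gd F v i = 0` for all `F` of weight `a`, then `c = 0`. Put `c' i = c i / v i` (`i ∈ I`). For `β` with support in `I` of weight `a`, `F = X^β`: `gd F v i = β i v^β / v i` (also when `β i = 0`), so `∑_(i ∈ I) c' i β i = 0`. Let `β` be as in D1 of weight `a` with all `β i ≥ L` on `I`; for `i ≠ j` in `I`, `β + w j e_i - w i e_j` is also of weight `a`: so `c' i w j = c' j w i`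 (in `k`; trivial for `i = j`).
Some `w j`, `j ∈ I`, is not `0` in `k` (if `k` has characteristic `p > 0`: otherwise `p ∣ w j` for all `j ∈ I`, so `p = 1` by `hG`; in characteristic zero `w j ≠ 0`, `I` is not empty by `hv`: `hw`): `c' i = (c' j / w j) w i`, and `0 = ∑ c' i β i = (c' j / w j) a`, so `c' j = 0`, so all `c' i = 0`. -/

set_option autoImplicit false

namespace Pool.Agent.Lib.MP_1e3e9c_agF

private noncomputable def D2_lin {k : Type} [Field k] {n : ℕ} (v : Fin (n + 1) → k) :
    MvPolynomial (Fin (n + 1)) k →ₗ[k] (Fin (n + 1) → k) where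
  toFun F := gd F v
  map_add' F G := by
    funext i
    show MvPolynomial.eval v (MvPolynomial.pderiv i (F + G)) = _
    rw [map_add, map_add]; rfl
  map_smul' c F := by
    funext i
    show MvPolynomial.eval v (MvPolynomial.pderiv i (c • F)) = _
    rw [(MvPolynomial.pderiv i).map_smul, MvPolynomial.smul_eval]; rfl

private theorem D2_weight {n : ℕ} (w β : Fin (n + 1) → ℕ) :
    Finsupp.weight w (Finsupp.equivFunOnFinite.symm β) = ∑ i, w i * β i := by
  rw [Finsupp.weight_apply, Finsupp.sum_fintype _ _ (fun i => by simp)]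
  refine Finset.sum_congr rfl fun i _ => ?_
  simp [mul_comm]

private theorem D2_gd_mono {k : Type} [Field k] {n : ℕ} (v : Fin (n + 1) → k)
    (β : Fin (n + 1) → ℕ) (i : Fin (n + 1)) :
    v i * gd (MvPolynomial.monomial (Finsupp.equivFunOnFinite.symm β) (1 : k)) v i =
      (β i : k) * ∏ j, v j ^ β j := by
  have h := congrArg (MvPolynomial.eval v) (MvPolynomial.X_mul_pderiv_monomial
    (i := i) (m := Finsupp.equivFunOnFinite.symm β) (r := (1 : k)))
  rw [map_mul, MvPolynomial.eval_X, map_nsmul, MvPolynomial.eval_monomial,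
    Finsupp.prod_fintype _ _ (fun i => pow_zero _), one_mul, nsmul_eq_mul] at h
  exact h

private theorem D2_gd_zero {k : Type} [Field k] {n : ℕ} (v : Fin (n + 1) → k)
    (β : Fin (n + 1) → ℕ) (i : Fin (n + 1)) (h : β i = 0) :
    gd (MvPolynomial.monomial (Finsupp.equivFunOnFinite.symm β) (1 : k)) v i = 0 := by
  show MvPolynomial.eval v (MvPolynomial.pderiv i _) = 0
  rw [MvPolynomial.pderiv_monomial]
  have : (Finsupp.equivFunOnFinite.symm β) i = 0 := h
  rw [this]
  simp

private theorem D2_prod_ne {k : Type} [Field k] {n : ℕ} (v : Fin (n + 1) → k)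
    (β : Fin (n + 1) → ℕ) (h : ∀ i, v i = 0 → β i = 0) : ∏ j, v j ^ β j ≠ 0 := by
  rw [Finset.prod_ne_zero_iff]
  intro j _
  by_cases hj : v j = 0
  · rw [h j hj, pow_zero]; exact one_ne_zero
  · exact pow_ne_zero _ hj

private def D2_sw {n : ℕ} (w β : Fin (n + 1) → ℕ) (i j l : Fin (n + 1)) : ℕ :=
  if l = i then β i + w j else if l = j then β j - w i else β l

private theorem D2_sw_sum {R : Type} [CommRing R] {n : ℕ} (w β : Fin (n + 1) → ℕ)
    {i j : Fin (n + 1)} (hij : ¬ i = j) (h : w i ≤ β j) (g : Fin (n + 1) → R) :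
    ∑ l, g l * (D2_sw w β i j l : R) = ∑ l, g l * (β l : R) + g i * (w j : R) - g j * (w i : R) := by
  have h1 : ∀ l, (D2_sw w β i j l : R) =
      (β l : R) + (if l = i then (w j : R) else 0) - (if l = j then (w i : R) else 0) := by
    intro l
    unfold D2_sw
    by_cases hi : l = i
    · subst hi
      rw [if_pos rfl, if_pos rfl, if_neg hij, sub_zero, Nat.cast_add]
    · by_cases hj : l = j
      · subst hj
        rw [if_neg hi, if_pos rfl, if_neg hi, if_pos rfl, add_zero, Nat.cast_sub h]
      · rw [if_neg hi, if_neg hj, if_neg hi, if_neg hj, add_zero, sub_zero]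
  simp only [h1, mul_sub, mul_add, Finset.sum_sub_distrib, Finset.sum_add_distrib, mul_ite,
    mul_zero, Finset.sum_ite_eq', Finset.mem_univ, if_true]

theorem D_euler {k : Type} [Field k] {n a : ℕ} {w : Fin (n + 1) → ℕ} {v : Fin (n + 1) → k}
    {F : MvPolynomial (Fin (n + 1)) k} (hF : F.IsWeightedHomogeneous w a) :
    ∑ i, (w i : k) * v i * gd F v i = (a : k) * MvPolynomial.eval v F := by
  have h := congrArg (MvPolynomial.eval v) hF.sum_weight_X_mul_pderiv
  rw [map_sum, map_nsmul, nsmul_eq_mul] at h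
  rw [← h]
  refine Finset.sum_congr rfl fun i _ => ?_
  rw [map_nsmul, map_mul, MvPolynomial.eval_X, nsmul_eq_mul, ← mul_assoc]
  rfl

theorem D_jets {k : Type} [Field k] {n : ℕ} {w : Fin (n + 1) → ℕ} (hw : ∀ i, 0 < w i)
    {v : Fin (n + 1) → k} (hv : v ≠ 0) (hG : ∀ d : ℕ, (∀ i, v i ≠ 0 → d ∣ w i) → d = 1) :
    ∃ a₀ : ℕ, ∀ a ≥ a₀, (a : k) ≠ 0 → ∀ u : Fin (n + 1) → k,
      ∃ F : MvPolynomial (Fin (n + 1)) k, F.IsWeightedHomogeneous w a ∧ gd F v = u := by
  classical
  set I : Finset (Fin (n + 1)) := Finset.univ.filter (fun i => v i ≠ 0) with hIdef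
  have hmem : ∀ i, i ∈ I ↔ v i ≠ 0 := fun i => by simp [hIdef]
  have hI : ∀ d : ℕ, (∀ i ∈ I, d ∣ w i) → d = 1 :=
    fun d hd => hG d (fun i hi => hd i ((hmem i).2 hi))
  obtain ⟨m₀, hm₀⟩ := D_exps w I hI (∑ i, w i + 1)
  refine ⟨m₀ + ∑ i, w i, fun a ha hak u => ?_⟩
  have hsub : ∀ i, w i ≤ ∑ j, w j := fun i =>
    Finset.single_le_sum (f := w) (fun _ _ => Nat.zero_le _) (Finset.mem_univ i)
  suffices hT : (MvPolynomial.weightedHomogeneousSubmodule k w a).map (D2_lin v) = ⊤ by
    have hu : u ∈ (MvPolynomial.weightedHomogeneousSubmodule k w a).map (D2_lin v) := by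
      rw [hT]; trivial
    obtain ⟨F, hF, rfl⟩ := hu
    exact ⟨F, hF, rfl⟩
  by_contra hne
  obtain ⟨f, hf0, hf⟩ := Submodule.exists_le_ker_of_lt_top _ (lt_top_iff_ne_top.2 hne)
  -- the functional in coordinates
  obtain ⟨c, hfu⟩ : ∃ c : Fin (n + 1) → k, ∀ x : Fin (n + 1) → k, f x = ∑ i, x i * c i :=
    ⟨fun i => f (fun j => if i = j then 1 else 0), fun x => LinearMap.pi_apply_eq_sum_univ f x⟩
  have hF0 : ∀ F : MvPolynomial (Fin (n + 1)) k, F.IsWeightedHomogeneous w a →
      ∑ i, gd F v i * c i = 0 := by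
    intro F hF
    rw [← hfu]
    exact hf ⟨F, hF, rfl⟩
  -- the coordinates outside I
  have hc0 : ∀ i, v i = 0 → c i = 0 := by
    intro i hi
    obtain ⟨β, hβ0, -, hβw⟩ := hm₀ (a - w i) (by have := hsub i; omega)
    have hw1 : (MvPolynomial.X i * MvPolynomial.monomial (Finsupp.equivFunOnFinite.symm β) (1 : k) :
        MvPolynomial (Fin (n + 1)) k).IsWeightedHomogeneous w a := by
      have h1 := (MvPolynomial.isWeightedHomogeneous_X k w i).mul
        (MvPolynomial.isWeightedHomogeneous_monomial w (Finsupp.equivFunOnFinite.symm β) (1 : k)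
          (D2_weight w β))
      rw [hβw] at h1
      have : w i + (a - w i) = a := by have := hsub i; omega
      rwa [this] at h1
    have h1 := hF0 _ hw1
    have h2 : ∀ j, gd (MvPolynomial.X i * MvPolynomial.monomial (Finsupp.equivFunOnFinite.symm β)
        (1 : k)) v j = if j = i then ∏ l, v l ^ β l else 0 := by
      intro j
      show MvPolynomial.eval v (MvPolynomial.pderiv j _) = _
      rw [MvPolynomial.pderiv_mul, map_add, map_mul, map_mul, MvPolynomial.eval_X, hi, zero_mul,
        add_zero, MvPolynomial.eval_monomial, Finsupp.prod_fintype _ _ (fun i => pow_zero _),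
        one_mul]
      by_cases hj : j = i
      · subst hj
        rw [MvPolynomial.pderiv_X_self, map_one, one_mul, if_pos rfl]
        rfl
      · rw [MvPolynomial.pderiv_X_of_ne (Ne.symm hj), map_zero, zero_mul, if_neg hj]
    simp only [h2, ite_mul, zero_mul, Finset.sum_ite_eq', Finset.mem_univ, if_true] at h1
    exact (mul_eq_zero.1 h1).resolve_left (D2_prod_ne v β fun l hl =>
      hβ0 l (fun h => (hmem l).1 h hl))
  -- the relations
  have hrel : ∀ β : Fin (n + 1) → ℕ, (∀ i ∉ I, β i = 0) → ∑ i, w i * β i = a →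
      ∑ i, c i / v i * (β i : k) = 0 := by
    intro β hβ0 hβw
    have h1 := hF0 _ (MvPolynomial.isWeightedHomogeneous_monomial w
      (Finsupp.equivFunOnFinite.symm β) (1 : k) ((D2_weight w β).trans hβw))
    have hP := D2_prod_ne v β (fun l hl => hβ0 l (fun h => (hmem l).1 h hl))
    have h2 : (∑ i, c i / v i * (β i : k)) * ∏ j, v j ^ β j = 0 := by
      rw [Finset.sum_mul, ← h1]
      refine Finset.sum_congr rfl fun i _ => ?_
      by_cases hi : v i = 0
      · rw [hc0 i hi]; simp
      · have h3 := D2_gd_mono v β i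
        rw [mul_assoc, ← h3]
        field_simp
    exact (mul_eq_zero.1 h2).resolve_right hP
  obtain ⟨β, hβ0, hβL, hβw⟩ := hm₀ a (by omega)
  have hsym : ∀ i ∈ I, ∀ j ∈ I, c i / v i * (w j : k) = c j / v j * (w i : k) := by
    intro i hi j hj
    by_cases hij : i = j
    · subst hij; rfl
    have hwi : w i ≤ β j := by have := hsub i; have := hβL j hj; omega
    have h1 := hrel (D2_sw w β i j)
      (by
        intro l hl
        have h1 : l ≠ i := fun h => hl (h ▸ hi)
        have h2 : l ≠ j := fun h => hl (h ▸ hj)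
        simp only [D2_sw, h1, h2, if_false]
        exact hβ0 l hl)
      (by
        have h2 := D2_sw_sum (R := ℤ) w β hij hwi (fun l => (w l : ℤ))
        rw [mul_comm (w i : ℤ), add_sub_cancel_right] at h2
        have h3 : ((∑ l, w l * D2_sw w β i j l : ℕ) : ℤ) = ((∑ l, w l * β l : ℕ) : ℤ) := by
          push_cast
          exact h2
        exact (Nat.cast_injective h3).trans hβw)
    have h0 := hrel β hβ0 hβw
    rw [D2_sw_sum (R := k) w β hij hwi (fun l => c l / v l), h0, zero_add] at h1
    exact sub_eq_zero.1 h1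
  -- a weight which is not zero in k
  obtain ⟨j, hj, hwj⟩ : ∃ j ∈ I, (w j : k) ≠ 0 := by
    by_contra hno
    push Not at hno
    have h1 : ringChar k = 1 := hI _ (fun i hi => (ringChar.spec k _).1 (hno i hi))
    have h2 : ((1 : ℕ) : k) = 0 := (ringChar.spec k 1).2 (by rw [h1])
    rw [Nat.cast_one] at h2
    exact one_ne_zero h2
  have hcj : c j / v j = 0 := by
    have h0 := hrel β hβ0 hβw
    have h1 : (∑ i, c i / v i * (β i : k)) * (w j : k) = c j / v j * (a : k) := by
      rw [← hβw, Nat.cast_sum, Finset.sum_mul, Finset.mul_sum]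
      refine Finset.sum_congr rfl fun i _ => ?_
      by_cases hi : i ∈ I
      · have h2 := hsym i hi j hj
        rw [mul_right_comm, h2, Nat.cast_mul, mul_assoc]
      · rw [hβ0 i hi]; simp
    rw [h0, zero_mul] at h1
    exact (mul_eq_zero.1 h1.symm).resolve_right hak
  have hcz : ∀ i, c i = 0 := by
    intro i
    by_cases hi : v i = 0
    · exact hc0 i hi
    · have h1 := hsym i ((hmem i).2 hi) j hj
      rw [hcj, zero_mul] at h1
      have h2 := (mul_eq_zero.1 h1).resolve_right hwj
      exact (div_eq_zero_iff.1 h2).resolve_right hi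
  exact hf0 (LinearMap.ext fun x => by rw [hfu]; simp [hcz])

end Pool.Agent.Lib.MP_1e3e9c_agF
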