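import Pool.Agent.Lib.MP_1e3e9c_agF.DDefs

/-! LEAF D3 (medium).  Linear algebra: the choice of the forms.

PROOF.  Let `E i = w i * v i` and `E^⊥ = {u | ∑ E i u i = 0}`, of dimension `n` (the kernel of a nonzero functional).  The `c` independent vectors `gd (P l) v` are in `E^⊥`; extend them to a basis of `E^⊥`: there are `N = n - c` more vectors `u_0, .., u_(N-1)` (`LinearIndependent.extend`, `Basis.extend`, or induction; only this is used: linearly independent `c` vectors in a space of dimension `n = c + N` can be completed by `N` vectors to a linearly independent family).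
Let `u'` be a vector with `∑ E i u' i = a` (`hE`). By `hj` choose forms `Q l` (`l < N - 1`) with gradients `u_l`, `y₁` with gradient `u_(N-1)`, `y₂` with gradient `u'`.  By `he` and `(a : k) ≠ 0` the values at `v` of `Q l`, `y₁` are `0` and the value of `y₂` is `1`. The whole family is independent, since `u' ∉ E^⊥`. -/

set_option autoImplicit false

namespace Pool.Agent.Lib.MP_1e3e9c_agF

private theorem D3_ext {k V : Type} [Field k] [AddCommGroup V] [Module k V] [FiniteDimensional k V] {c N : ℕ}
    (f : Fin c → V) (hf : LinearIndependent k f) (hV : Module.finrank k V = c + N) :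
    ∃ g : Fin N → V, LinearIndependent k (Sum.elim f g) := by
  have h1 : Module.finrank k (Submodule.span k (Set.range f)) = c := by
    rw [finrank_span_eq_card hf, Fintype.card_fin]
  have h2 : Module.finrank k (V ⧸ Submodule.span k (Set.range f)) = N := by
    have h3 := Submodule.finrank_quotient_add_finrank (Submodule.span k (Set.range f))
    omega
  let b := Module.finBasisOfFinrankEq k (V ⧸ Submodule.span k (Set.range f)) h2
  choose g hg using fun j => Submodule.Quotient.mk_surjective (Submodule.span k (Set.range f)) (b j)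
  refine ⟨g, ?_⟩
  have h3 : LinearIndependent k (Submodule.Quotient.mk (p := Submodule.span k (Set.range f)) ∘ g) := by
    have h4 : Submodule.Quotient.mk (p := Submodule.span k (Set.range f)) ∘ g = b := funext hg
    rw [h4]
    exact b.linearIndependent
  exact LinearIndependent.sumElim_of_quotient (linearIndependent_span hf) g h3

theorem D_choose {k : Type} [Field k] {n c N a : ℕ} {w : Fin (n + 1) → ℕ} {v : Fin (n + 1) → k}
    (ha : (a : k) ≠ 0)
    (hj : ∀ u : Fin (n + 1) → k,
      ∃ F : MvPolynomial (Fin (n + 1)) k, F.IsWeightedHomogeneous w a ∧ gd F v = u)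
    (he : ∀ F : MvPolynomial (Fin (n + 1)) k, F.IsWeightedHomogeneous w a →
      ∑ i, (w i : k) * v i * gd F v i = (a : k) * MvPolynomial.eval v F)
    (hE : ∃ i, (w i : k) * v i ≠ 0) (P : Fin c → MvPolynomial (Fin (n + 1)) k)
    (hP : LinearIndependent k fun l => gd (P l) v)
    (hPE : ∀ l, ∑ i, (w i : k) * v i * gd (P l) v i = 0) (hc : c + N = n) (hN : 1 ≤ N) :
    ∃ (Q : Fin (N - 1) → MvPolynomial (Fin (n + 1)) k) (y₁ y₂ : MvPolynomial (Fin (n + 1)) k),
      (∀ l, (Q l).IsWeightedHomogeneous w a ∧ MvPolynomial.eval v (Q l) = 0) ∧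
      y₁.IsWeightedHomogeneous w a ∧ MvPolynomial.eval v y₁ = 0 ∧
      y₂.IsWeightedHomogeneous w a ∧ MvPolynomial.eval v y₂ = 1 ∧
      LinearIndependent k fun s : (Fin c ⊕ Fin (N - 1)) ⊕ Fin 2 =>
        gd (Sum.elim (Sum.elim P Q) ![y₁, y₂] s) v := by
  obtain ⟨M, rfl⟩ : ∃ M, N = M + 1 := ⟨N - 1, by omega⟩
  rw [Nat.add_sub_cancel]
  obtain ⟨φ, hφ⟩ : ∃ φ : (Fin (n + 1) → k) →ₗ[k] k, ∀ u, φ u = ∑ i, (w i : k) * v i * u i :=
    ⟨∑ i, ((w i : k) * v i) • LinearMap.proj i, fun u => by
      rw [LinearMap.sum_apply]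
      exact Finset.sum_congr rfl fun i _ => rfl⟩
  obtain ⟨i₀, hi₀⟩ := hE
  have hsurj : Function.Surjective φ := by
    intro y
    refine ⟨Pi.single i₀ (y / ((w i₀ : k) * v i₀)), ?_⟩
    rw [hφ, Finset.sum_eq_single i₀]
    · rw [Pi.single_eq_same, mul_div_cancel₀ _ hi₀]
    · intro i _ hi
      rw [Pi.single_eq_of_ne hi, mul_zero]
    · intro h
      exact absurd (Finset.mem_univ _) h
  have hfr : Module.finrank k (LinearMap.ker φ) = c + (M + 1) := by
    have h1 := LinearMap.finrank_range_add_finrank_ker φ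
    rw [LinearMap.range_eq_top.2 hsurj, finrank_top, Module.finrank_self, Module.finrank_fin_fun] at h1
    omega
  have hPK : LinearIndependent k fun l : Fin c =>
      (⟨gd (P l) v, by rw [LinearMap.mem_ker, hφ]; exact hPE l⟩ : LinearMap.ker φ) :=
    LinearIndependent.of_comp (LinearMap.ker φ).subtype hP
  obtain ⟨g, hg⟩ := D3_ext _ hPK hfr
  obtain ⟨u', hu'⟩ := hsurj (a : k)
  -- the forms
  choose F hF using fun j : Fin (M + 1) => hj (g j : Fin (n + 1) → k)
  obtain ⟨y₂, hy₂, hy₂'⟩ := hj u'
  have hF0 : ∀ j, MvPolynomial.eval v (F j) = 0 := by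
    intro j
    have h1 := he _ (hF j).1
    rw [(hF j).2, ← hφ, LinearMap.mem_ker.1 (g j).2] at h1
    exact (mul_eq_zero.1 h1.symm).resolve_left ha
  have hy1 : MvPolynomial.eval v y₂ = 1 := by
    have h1 := he _ hy₂
    rw [hy₂', ← hφ, hu'] at h1
    exact mul_left_cancel₀ ha (h1.symm.trans (mul_one _).symm)
  refine ⟨fun l => F l.castSucc, F (Fin.last M), y₂, fun l => ⟨(hF _).1, hF0 _⟩, (hF _).1, hF0 _, hy₂, hy1, ?_⟩
  rw [Fintype.linearIndependent_iff] at hg ⊢
  intro x hx
  rw [Fintype.sum_sum_type, Fintype.sum_sum_type, Fin.sum_univ_two] at hx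
  have hx' : ∑ l, x (Sum.inl (Sum.inl l)) • gd (P l) v +
      ∑ l : Fin M, x (Sum.inl (Sum.inr l)) • (g l.castSucc : Fin (n + 1) → k) +
      (x (Sum.inr 0) • (g (Fin.last M) : Fin (n + 1) → k) + x (Sum.inr 1) • u') = 0 := by
    refine Eq.trans ?_ hx
    refine congrArg₂ (· + ·) (congrArg₂ (· + ·) rfl ?_) (congrArg₂ (· + ·) ?_ ?_)
    · exact Finset.sum_congr rfl fun l _ => by
        show _ = x (Sum.inl (Sum.inr l)) • gd (F l.castSucc) v
        rw [(hF _).2]
    · show _ = x (Sum.inr 0) • gd (F (Fin.last M)) v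
      rw [(hF _).2]
    · show _ = x (Sum.inr 1) • gd y₂ v
      rw [hy₂']
  have h1 : x (Sum.inr 1) = 0 := by
    have h2 := congrArg φ hx'
    rw [map_add, map_add, map_add, map_sum, map_sum, map_zero, map_smul, map_smul, hu',
      LinearMap.mem_ker.1 (g (Fin.last M)).2,
      Finset.sum_eq_zero fun l _ => by rw [map_smul, hφ, hPE l, smul_zero],
      Finset.sum_eq_zero fun l _ => by rw [map_smul, LinearMap.mem_ker.1 (g _).2, smul_zero], smul_zero, zero_add,
      zero_add, zero_add, smul_eq_mul] at h2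
    exact (mul_eq_zero.1 h2).resolve_right ha
  have h3 := hg (Sum.elim (fun l => x (Sum.inl (Sum.inl l)))
    (Fin.lastCases (x (Sum.inr 0)) fun l => x (Sum.inl (Sum.inr l)))) (by
      apply Subtype.ext
      rw [Fintype.sum_sum_type, Fin.sum_univ_castSucc]
      simp only [Sum.elim_inl, Sum.elim_inr, Fin.lastCases_castSucc, Fin.lastCases_last, Submodule.coe_add,
        Submodule.coe_sum, Submodule.coe_smul, Submodule.coe_zero]
      rw [h1, zero_smul, add_zero, add_assoc] at hx'
      exact hx')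
  intro i
  rcases i with (l | l) | l
  · exact h3 (Sum.inl l)
  · have h4 := h3 (Sum.inr l.castSucc)
    simp only [Sum.elim_inr, Fin.lastCases_castSucc] at h4
    exact h4
  · have h5 : ∀ l : Fin 2, x (Sum.inr l) = 0 := by
      rw [Fin.forall_fin_two]
      refine ⟨?_, h1⟩
      have h4 := h3 (Sum.inr (Fin.last M))
      simp only [Sum.elim_inr, Fin.lastCases_last] at h4
      exact h4
    exact h5 l

end Pool.Agent.Lib.MP_1e3e9c_agF
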