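import Pool.Agent.Lib.MP_1e3e9c_agF.DDefs

/-! LEAF D4 (medium+).  The inverse function theorem for power series.

PROOF.  Successive approximation. Claim: for every `m` there is a tuple of polynomials (or power series) `g_m` with constant terms `v` and `X^(m+1) ∣ aeval g_m (Φ s) - b s` for all `s`, and `X^(m+1) ∣ g_(m+1) i - g_m i`. `g_0 = C v` (`hb`). Given `g_m`, let `aeval g_m (Φ s) - b s = X^(m+1) r_s`, `ρ_s` the constant term of `r_s`; solve `∑ i, gd (Φ s) v i * x i = - ρ_s` (the square matrix is invertible by `hJ`) and put `g_(m+1) i = g_m i + C (x i) X^(m+1)`: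
Taylor's formula to the first order, `aeval (g + X^(m+1) C x) Φ ≡ aeval g Φ + X^(m+1) ∑ i, aeval g (pderiv i Φ) * C (x i)` modulo `X^(2m+2)` (for every polynomial `Φ`: `MvPolynomial.induction_on`; the statement with an arbitrary ideal element `h i` in place of `X^(m+1) C (x i)`, modulo the ideal generated by the products `h i * h j`, or modulo `X^(2m+2)`), and `aeval g (pderiv i Φ) ≡ gd Φ v i` modulo `X`.
Let `g i` be the power series whose coefficient of degree `j` is that of `g_j i`: then `X^(m+1) ∣ g i - g_m i` for all `m`, so `X^(m+1) ∣ aeval g (Φ s) - b s` for all `m` (congruences are preserved by `aeval`), so it is `0`. (The same kind of argument is in the files KF.lean and KE.lean of MP_1e3e9c_agK: `Ar_step`, `arcs`.) -/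

set_option autoImplicit false

namespace Pool.Agent.Lib.MP_1e3e9c_agF

private theorem D4_taylor {k : Type} [Field k] {n : ℕ} (P : MvPolynomial (Fin (n + 1)) k)
    (g x : Fin (n + 1) → PowerSeries k) (t : PowerSeries k) :
    t ^ 2 ∣ MvPolynomial.aeval (fun i => g i + t * x i) P - MvPolynomial.aeval g P -
      t * ∑ i, MvPolynomial.aeval g (MvPolynomial.pderiv i P) * x i := by
  induction P using MvPolynomial.induction_on with
  | C a =>
    simp only [MvPolynomial.aeval_C, MvPolynomial.pderiv_C, map_zero, zero_mul,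
      Finset.sum_const_zero, mul_zero, sub_self, dvd_zero]
  | add p q hp hq =>
    have e : MvPolynomial.aeval (fun i => g i + t * x i) (p + q) - MvPolynomial.aeval g (p + q) -
        t * ∑ i, MvPolynomial.aeval g (MvPolynomial.pderiv i (p + q)) * x i =
        (MvPolynomial.aeval (fun i => g i + t * x i) p - MvPolynomial.aeval g p -
          t * ∑ i, MvPolynomial.aeval g (MvPolynomial.pderiv i p) * x i) +
        (MvPolynomial.aeval (fun i => g i + t * x i) q - MvPolynomial.aeval g q -
          t * ∑ i, MvPolynomial.aeval g (MvPolynomial.pderiv i q) * x i) := by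
      simp only [map_add, add_mul, Finset.sum_add_distrib]
      ring
    rw [e]
    exact dvd_add hp hq
  | mul_X p j hp =>
    obtain ⟨c, hc⟩ := hp
    have e1 : MvPolynomial.aeval (fun i => g i + t * x i) p = MvPolynomial.aeval g p +
        t * (∑ i, MvPolynomial.aeval g (MvPolynomial.pderiv i p) * x i) + t ^ 2 * c := by
      rw [← hc]
      ring
    have e2 : ∑ i, MvPolynomial.aeval g (MvPolynomial.pderiv i (p * MvPolynomial.X j)) * x i =
        (∑ i, MvPolynomial.aeval g (MvPolynomial.pderiv i p) * x i) * g j +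
          MvPolynomial.aeval g p * x j := by
      have e3 : ∀ i, MvPolynomial.aeval g (MvPolynomial.pderiv i (p * MvPolynomial.X j)) * x i =
          MvPolynomial.aeval g (MvPolynomial.pderiv i p) * x i * g j +
            (if i = j then MvPolynomial.aeval g p * x i else 0) := by
        intro i
        rw [Derivation.leibniz, smul_eq_mul, smul_eq_mul, map_add, map_mul, map_mul,
          MvPolynomial.aeval_X]
        by_cases h : i = j
        · subst h
          rw [if_pos rfl, MvPolynomial.pderiv_X_self, map_one]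
          ring
        · rw [if_neg h, MvPolynomial.pderiv_X_of_ne (Ne.symm h), map_zero]
          ring
      rw [Finset.sum_congr rfl fun i _ => e3 i, Finset.sum_add_distrib, ← Finset.sum_mul,
        Finset.sum_ite_eq' Finset.univ j, if_pos (Finset.mem_univ j)]
    rw [map_mul, map_mul, MvPolynomial.aeval_X, MvPolynomial.aeval_X, e1, e2]
    refine ⟨c * (g j + t * x j) +
      (∑ i, MvPolynomial.aeval g (MvPolynomial.pderiv i p) * x i) * x j, ?_⟩
    ring

private theorem D4_congr {k : Type} [Field k] {n : ℕ} (P : MvPolynomial (Fin (n + 1)) k)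
    (g h : Fin (n + 1) → PowerSeries k) (t : PowerSeries k) (H : ∀ i, t ∣ g i - h i) :
    t ∣ MvPolynomial.aeval g P - MvPolynomial.aeval h P := by
  induction P using MvPolynomial.induction_on with
  | C a => simp only [MvPolynomial.aeval_C, sub_self, dvd_zero]
  | add p q hp hq =>
    have e : MvPolynomial.aeval g (p + q) - MvPolynomial.aeval h (p + q) =
        (MvPolynomial.aeval g p - MvPolynomial.aeval h p) +
        (MvPolynomial.aeval g q - MvPolynomial.aeval h q) := by
      rw [map_add, map_add]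
      ring
    rw [e]
    exact dvd_add hp hq
  | mul_X p j hp =>
    have e : MvPolynomial.aeval g (p * MvPolynomial.X j) -
        MvPolynomial.aeval h (p * MvPolynomial.X j) =
        (MvPolynomial.aeval g p - MvPolynomial.aeval h p) * g j +
        MvPolynomial.aeval h p * (g j - h j) := by
      rw [map_mul, map_mul, MvPolynomial.aeval_X, MvPolynomial.aeval_X]
      ring
    rw [e]
    exact dvd_add (Dvd.dvd.mul_right hp _) (Dvd.dvd.mul_left (H j) _)

private theorem D4_const {k : Type} [Field k] {n : ℕ} (P : MvPolynomial (Fin (n + 1)) k)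
    (g : Fin (n + 1) → PowerSeries k) (v : Fin (n + 1) → k)
    (hg : ∀ i, PowerSeries.constantCoeff (g i) = v i) :
    PowerSeries.constantCoeff (MvPolynomial.aeval g P) = MvPolynomial.eval v P := by
  induction P using MvPolynomial.induction_on with
  | C a =>
    rw [MvPolynomial.aeval_C, MvPolynomial.eval_C]
    exact PowerSeries.constantCoeff_C a
  | add p q hp hq => rw [map_add, map_add, map_add, hp, hq]
  | mul_X p j hp =>
    rw [map_mul, map_mul, map_mul, MvPolynomial.aeval_X, MvPolynomial.eval_X, hp, hg]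

private theorem D4_step {k : Type} [Field k] {n : ℕ}
    (Φ : Fin (n + 1) → MvPolynomial (Fin (n + 1)) k) (v : Fin (n + 1) → k)
    (hJ : LinearIndependent k fun s => gd (Φ s) v) (b : Fin (n + 1) → PowerSeries k)
    (m : ℕ) (g : Fin (n + 1) → PowerSeries k)
    (hg : ∀ i, PowerSeries.constantCoeff (g i) = v i)
    (h : ∀ s, PowerSeries.X ^ (m + 1) ∣ MvPolynomial.aeval g (Φ s) - b s) :
    ∃ g' : Fin (n + 1) → PowerSeries k, (∀ i, PowerSeries.constantCoeff (g' i) = v i) ∧
      (∀ s, PowerSeries.X ^ (m + 2) ∣ MvPolynomial.aeval g' (Φ s) - b s) ∧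
      ∀ i, PowerSeries.X ^ (m + 1) ∣ g' i - g i := by
  choose r hr using h
  obtain ⟨J, hJe⟩ : ∃ J : Matrix (Fin (n + 1)) (Fin (n + 1)) k,
    ∀ s i, J s i = gd (Φ s) v i := ⟨fun s i => gd (Φ s) v i, fun _ _ => rfl⟩
  have hJu : IsUnit J := by
    rw [← Matrix.linearIndependent_rows_iff_isUnit]
    have e : J.row = fun s => gd (Φ s) v := by
      funext s i
      exact hJe s i
    rw [e]
    exact hJ
  have hdet : IsUnit J.det := (Matrix.isUnit_iff_isUnit_det J).1 hJu
  obtain ⟨x, hx⟩ : ∃ x : Fin (n + 1) → k,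
      J.mulVec x = fun s => - PowerSeries.constantCoeff (r s) :=
    ⟨J⁻¹.mulVec fun s => - PowerSeries.constantCoeff (r s), by
      rw [Matrix.mulVec_mulVec, Matrix.mul_nonsing_inv J hdet, Matrix.one_mulVec]⟩
  have hx2 : ∀ s, ∑ i, gd (Φ s) v i * x i = - PowerSeries.constantCoeff (r s) := by
    intro s
    have h1 := congrFun hx s
    rw [← h1]
    refine Finset.sum_congr rfl fun i _ => ?_
    show gd (Φ s) v i * x i = J s i * x i
    rw [hJe]
  refine ⟨fun i => g i + PowerSeries.X ^ (m + 1) * PowerSeries.C (x i), ?_, ?_, ?_⟩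
  · intro i
    show PowerSeries.constantCoeff (g i + PowerSeries.X ^ (m + 1) * PowerSeries.C (x i)) = v i
    rw [map_add, map_mul, map_pow, PowerSeries.constantCoeff_X, zero_pow (Nat.succ_ne_zero m),
      zero_mul, add_zero, hg]
  · intro s
    obtain ⟨c, hc⟩ := D4_taylor (Φ s) g (fun i => PowerSeries.C (x i)) (PowerSeries.X ^ (m + 1))
    have hX : (PowerSeries.X : PowerSeries k) ∣ r s +
        ∑ i, MvPolynomial.aeval g (MvPolynomial.pderiv i (Φ s)) * PowerSeries.C (x i) := by
      rw [PowerSeries.X_dvd_iff, map_add, map_sum]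
      have e : ∀ i, PowerSeries.constantCoeff
          (MvPolynomial.aeval g (MvPolynomial.pderiv i (Φ s)) * PowerSeries.C (x i)) =
          gd (Φ s) v i * x i := by
        intro i
        rw [map_mul, D4_const _ g v hg, PowerSeries.constantCoeff_C]
        rfl
      rw [Finset.sum_congr rfl fun i _ => e i, hx2, add_neg_cancel]
    obtain ⟨d, hd⟩ := hX
    refine ⟨PowerSeries.X ^ m * c + d, ?_⟩
    have e1 : MvPolynomial.aeval (fun i => g i + PowerSeries.X ^ (m + 1) * PowerSeries.C (x i))
        (Φ s) - b s =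
        (MvPolynomial.aeval (fun i => g i + PowerSeries.X ^ (m + 1) * PowerSeries.C (x i)) (Φ s) -
          MvPolynomial.aeval g (Φ s) - PowerSeries.X ^ (m + 1) *
          ∑ i, MvPolynomial.aeval g (MvPolynomial.pderiv i (Φ s)) * PowerSeries.C (x i)) +
        ((MvPolynomial.aeval g (Φ s) - b s) + PowerSeries.X ^ (m + 1) *
          ∑ i, MvPolynomial.aeval g (MvPolynomial.pderiv i (Φ s)) * PowerSeries.C (x i)) := by
      ring
    rw [e1, hc, hr, ← mul_add, hd]
    ring
  · intro i
    show PowerSeries.X ^ (m + 1) ∣ g i + PowerSeries.X ^ (m + 1) * PowerSeries.C (x i) - g i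
    rw [add_sub_cancel_left]
    exact dvd_mul_right _ _

theorem D_inverse {k : Type} [Field k] {n : ℕ}
    (Φ : Fin (n + 1) → MvPolynomial (Fin (n + 1)) k) (v : Fin (n + 1) → k)
    (hJ : LinearIndependent k fun s => gd (Φ s) v) (b : Fin (n + 1) → PowerSeries k)
    (hb : ∀ s, PowerSeries.constantCoeff (b s) = MvPolynomial.eval v (Φ s)) :
    ∃ g : Fin (n + 1) → PowerSeries k, (∀ i, PowerSeries.constantCoeff (g i) = v i) ∧
      ∀ s, MvPolynomial.aeval g (Φ s) = b s := by
  have hstep : ∀ (m : ℕ) (g : Fin (n + 1) → PowerSeries k), ∃ g' : Fin (n + 1) → PowerSeries k,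
      ((∀ i, PowerSeries.constantCoeff (g i) = v i) ∧
        ∀ s, PowerSeries.X ^ (m + 1) ∣ MvPolynomial.aeval g (Φ s) - b s) →
      (∀ i, PowerSeries.constantCoeff (g' i) = v i) ∧
      (∀ s, PowerSeries.X ^ (m + 2) ∣ MvPolynomial.aeval g' (Φ s) - b s) ∧
      ∀ i, PowerSeries.X ^ (m + 1) ∣ g' i - g i := by
    intro m g
    by_cases h : (∀ i, PowerSeries.constantCoeff (g i) = v i) ∧
        ∀ s, PowerSeries.X ^ (m + 1) ∣ MvPolynomial.aeval g (Φ s) - b s
    · obtain ⟨g', hg'⟩ := D4_step Φ v hJ b m g h.1 h.2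
      exact ⟨g', fun _ => hg'⟩
    · exact ⟨g, fun h' => absurd h' h⟩
  choose F hF using hstep
  obtain ⟨G, hG0, hGs⟩ : ∃ G : ℕ → Fin (n + 1) → PowerSeries k,
      G 0 = (fun i => PowerSeries.C (v i)) ∧ ∀ m, G (m + 1) = F m (G m) :=
    ⟨fun m => Nat.rec (fun i => PowerSeries.C (v i)) (fun m g => F m g) m, rfl, fun _ => rfl⟩
  have hP : ∀ m, (∀ i, PowerSeries.constantCoeff (G m i) = v i) ∧
      ∀ s, PowerSeries.X ^ (m + 1) ∣ MvPolynomial.aeval (G m) (Φ s) - b s := by
    intro m
    induction m with
    | zero =>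
      have h0 : ∀ i, PowerSeries.constantCoeff (G 0 i) = v i := by
        intro i
        rw [hG0]
        exact PowerSeries.constantCoeff_C (v i)
      refine ⟨h0, fun s => ?_⟩
      rw [zero_add, pow_one, PowerSeries.X_dvd_iff, map_sub, D4_const _ _ v h0, hb, sub_self]
    | succ m ih =>
      rw [hGs]
      exact ⟨(hF m (G m) ih).1, (hF m (G m) ih).2.1⟩
  have hD : ∀ m i, PowerSeries.X ^ (m + 1) ∣ G (m + 1) i - G m i := by
    intro m i
    rw [hGs]
    exact (hF m (G m) (hP m)).2.2 i
  have hcf : ∀ i j m, j ≤ m → PowerSeries.coeff j (G m i) = PowerSeries.coeff j (G j i) := by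
    intro i j m hm
    induction m, hm using Nat.le_induction with
    | base => rfl
    | succ m hm ih =>
      rw [← ih]
      have h1 := (PowerSeries.X_pow_dvd_iff.1 (hD m i)) j (Nat.lt_succ_of_le hm)
      rw [map_sub, sub_eq_zero] at h1
      exact h1
  obtain ⟨g, hg⟩ : ∃ g : Fin (n + 1) → PowerSeries k,
      ∀ i j, PowerSeries.coeff j (g i) = PowerSeries.coeff j (G j i) :=
    ⟨fun i => PowerSeries.mk fun j => PowerSeries.coeff j (G j i), fun i j =>
      PowerSeries.coeff_mk _ _⟩
  have hgG : ∀ m i, PowerSeries.X ^ (m + 1) ∣ g i - G m i := by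
    intro m i
    rw [PowerSeries.X_pow_dvd_iff]
    intro j hj
    rw [map_sub, hg, hcf i j m (Nat.le_of_lt_succ hj), sub_self]
  refine ⟨g, fun i => ?_, fun s => ?_⟩
  · rw [← PowerSeries.coeff_zero_eq_constantCoeff_apply, hg,
      PowerSeries.coeff_zero_eq_constantCoeff_apply]
    exact (hP 0).1 i
  · have h1 : ∀ m, PowerSeries.X ^ (m + 1) ∣ MvPolynomial.aeval g (Φ s) - b s := by
      intro m
      have h2 := D4_congr (Φ s) g (G m) (PowerSeries.X ^ (m + 1)) (hgG m)
      have h3 := dvd_add h2 ((hP m).2 s)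
      rwa [sub_add_sub_cancel] at h3
    have h4 : MvPolynomial.aeval g (Φ s) - b s = 0 := by
      ext j
      rw [map_zero]
      exact PowerSeries.X_pow_dvd_iff.1 (h1 j) j (Nat.lt_succ_self j)
    exact sub_eq_zero.1 h4

end Pool.Agent.Lib.MP_1e3e9c_agF
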