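import Pool.Agent.Lib.MP_1e3e9c_agF.DDefs

/-! LEAF D5 (medium+).  The power series which solve a system of polynomial equations with invertible Jacobian matrix are algebraic.

PROOF.  Let `M` be the field of fractions of `k[[X]]`, `K` the subfield `k(X)` (the field of fractions of `k[X]`, or the closure of the image of `k[X]`), `L = K(g_0, .., g_n) ⊆ M` (`IntermediateField.adjoin`), a finitely generated field extension of `K` (`Algebra.EssFiniteType K L`). CLAIM: every derivation `D` of `L` over `K` with values in an `L`-vector space (it is enough: the universal one `L → Ω[L⁄K]`) is `0`: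
apply `D` to `aeval g (Φ s) = b s ∈ k[X]`: `∑ i, aeval g (pderiv i (Φ s)) • D (g i) = 0` (`Derivation` of a polynomial expression: `MvPolynomial.mkDerivation`, `Derivation.map_aeval`-like, by `MvPolynomial.induction_on`). The matrix `aeval g (pderiv i (Φ s))` over `k[[X]]` has the constant term `gd (Φ s) v i`, an invertible matrix by `hJ`, so its determinant is not `0` in `M`, so `D (g i) = 0`; and `D` vanishes on the field generated by `K` and the `g i`.
So `Ω[L⁄K] = 0` (it is spanned by the `d x`, `x ∈ L`), i.e. `Algebra.FormallyUnramified K L`, so `L` is separable, in particular algebraic over `K` (`Algebra.FormallyUnramified.iff_isSeparable`, or `Algebra.FormallyUnramified.finite_of_free`). So `g i` is algebraic over `k(X)`, hence over `k[X]` (`IsFractionRing.isAlgebraic_iff`, `isAlgebraic_algebraMap_iff` for the injection of `k[[X]]` in `M`). -/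

set_option autoImplicit false

namespace Pool.Agent.Lib.MP_1e3e9c_agF

private theorem D5_der {k K L M : Type} [Field k] [Field K] [Field L] [Algebra k K] [Algebra K L] [Algebra k L]
    [IsScalarTower k K L] [AddCommGroup M] [Module L M] [Module K M] [IsScalarTower K L M] {n : ℕ} (D : Derivation K L M)
    (g : Fin (n + 1) → L) (F : MvPolynomial (Fin (n + 1)) k) :
    D (MvPolynomial.aeval g F) = ∑ i, MvPolynomial.aeval g (MvPolynomial.pderiv i F) • D (g i) := by
  induction F using MvPolynomial.induction_on with
  | C a =>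
    rw [MvPolynomial.aeval_C, IsScalarTower.algebraMap_apply k K L, Derivation.map_algebraMap]
    symm
    refine Finset.sum_eq_zero fun i _ => ?_
    rw [MvPolynomial.pderiv_C, map_zero, zero_smul]
  | add P Q hP hQ =>
    rw [map_add, map_add, hP, hQ, ← Finset.sum_add_distrib]
    refine Finset.sum_congr rfl fun i _ => ?_
    rw [map_add, map_add, add_smul]
  | mul_X P j hP =>
    rw [map_mul, Derivation.leibniz, hP, MvPolynomial.aeval_X, Finset.smul_sum]
    have h1 : ∀ i, MvPolynomial.aeval g (MvPolynomial.pderiv i (P * MvPolynomial.X j)) • D (g i) =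
        (if i = j then MvPolynomial.aeval g P • D (g i) else 0) +
          g j • MvPolynomial.aeval g (MvPolynomial.pderiv i P) • D (g i) := by
      intro i
      rw [Derivation.leibniz, MvPolynomial.pderiv_X]
      by_cases h : i = j
      · subst h
        rw [Pi.single_eq_same, if_pos rfl, map_add, smul_eq_mul, smul_eq_mul, mul_one, map_mul,
          MvPolynomial.aeval_X, add_smul, mul_smul]
      · rw [if_neg h, Pi.single_eq_of_ne' h, smul_zero, zero_add, zero_add, smul_eq_mul, map_mul,
          MvPolynomial.aeval_X, mul_smul]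
    rw [Finset.sum_congr rfl fun i _ => h1 i, Finset.sum_add_distrib, Finset.sum_ite_eq',
      if_pos (Finset.mem_univ j)]

private theorem D5_cc {k : Type} [Field k] {n : ℕ} {v : Fin (n + 1) → k}
    {g : Fin (n + 1) → PowerSeries k} (hg : ∀ i, PowerSeries.constantCoeff (g i) = v i)
    (F : MvPolynomial (Fin (n + 1)) k) :
    PowerSeries.constantCoeff (MvPolynomial.aeval g F) = MvPolynomial.eval v F := by
  induction F using MvPolynomial.induction_on with
  | C a =>
    rw [MvPolynomial.aeval_C, MvPolynomial.eval_C, PowerSeries.algebraMap_apply, Algebra.algebraMap_self,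
      RingHom.id_apply, PowerSeries.constantCoeff_C]
  | add P Q hP hQ => rw [map_add, map_add, map_add, hP, hQ]
  | mul_X P i hP => rw [map_mul, map_mul, map_mul, hP, MvPolynomial.aeval_X, MvPolynomial.eval_X, hg]

open scoped KaehlerDifferential in
private theorem D5_main {k K M : Type} [Field k] [Field K] [Field M] [Algebra k K] [Algebra (Polynomial k) K]
    [IsScalarTower k (Polynomial k) K] [Algebra K M] [Algebra k M] [IsScalarTower k K M]
    (ι : PowerSeries k →ₐ[k] M) (hι : Function.Injective ι)
    (hc : ∀ p : Polynomial k, algebraMap K M (algebraMap (Polynomial k) K p) = ι (p : PowerSeries k)) {n : ℕ}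
    (Φ : Fin (n + 1) → MvPolynomial (Fin (n + 1)) k) (v : Fin (n + 1) → k)
    (hJ : LinearIndependent k fun s => gd (Φ s) v) (g : Fin (n + 1) → PowerSeries k)
    (hg : ∀ i, PowerSeries.constantCoeff (g i) = v i) (b : Fin (n + 1) → Polynomial k)
    (hb : ∀ s, MvPolynomial.aeval g (Φ s) = (b s : PowerSeries k)) :
    ∀ i, IsAlgebraic K (ι (g i)) := by
  classical
  let g' : Fin (n + 1) → M := fun i => ι (g i)
  let L := IntermediateField.adjoin K (Set.range g')
  let gL : Fin (n + 1) → L := fun i => ⟨g' i, IntermediateField.subset_adjoin K _ ⟨i, rfl⟩⟩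
  let a1 : Algebra k L := ((algebraMap K L).comp (algebraMap k K)).toAlgebra
  have t1 : IsScalarTower k K L := IsScalarTower.of_algebraMap_eq fun x => rfl
  have hfg : Algebra.EssFiniteType K L := by
    rw [IntermediateField.essFiniteType_iff]
    exact IntermediateField.fg_adjoin_of_finite (Set.finite_range g')
  let D := KaehlerDifferential.D K L
  have hval : ∀ F : MvPolynomial (Fin (n + 1)) k,
      ((MvPolynomial.aeval gL F : L) : M) = ι (MvPolynomial.aeval g F) := by
    intro F
    induction F using MvPolynomial.induction_on with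
    | C a =>
      rw [MvPolynomial.aeval_C, MvPolynomial.aeval_C, AlgHom.commutes]
      show ((algebraMap K L (algebraMap k K a) : L) : M) = _
      rw [IsScalarTower.algebraMap_apply k K M]
      rfl
    | add P Q hP hQ => rw [map_add, map_add, map_add, ← hP, ← hQ]; rfl
    | mul_X P i hP =>
      rw [map_mul, map_mul, map_mul, ← hP, MvPolynomial.aeval_X, MvPolynomial.aeval_X]; rfl
  have hD : ∀ s, ∑ i, MvPolynomial.aeval gL (MvPolynomial.pderiv i (Φ s)) • D (gL i) = 0 := by
    intro s
    rw [← D5_der (k := k) D gL (Φ s)]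
    have h1 : (MvPolynomial.aeval gL (Φ s) : L) = algebraMap K L (algebraMap (Polynomial k) K (b s)) := by
      apply Subtype.ext
      rw [hval, hb, ← hc]
      rfl
    rw [h1, Derivation.map_algebraMap]
  -- the Jacobian matrix
  let J : Matrix (Fin (n + 1)) (Fin (n + 1)) L := Matrix.of fun s i =>
    MvPolynomial.aeval gL (MvPolynomial.pderiv i (Φ s))
  let JP : Matrix (Fin (n + 1)) (Fin (n + 1)) (PowerSeries k) := Matrix.of fun s i =>
    MvPolynomial.aeval g (MvPolynomial.pderiv i (Φ s))
  let J0 : Matrix (Fin (n + 1)) (Fin (n + 1)) k := Matrix.of fun s i => gd (Φ s) v i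
  have hJ0 : J0.det ≠ 0 := by
    have h1 : IsUnit J0 := Matrix.linearIndependent_rows_iff_isUnit.1 hJ
    exact (Matrix.isUnit_iff_isUnit_det _).1 h1 |>.ne_zero
  have hJP : JP.det ≠ 0 := by
    intro h0
    apply hJ0
    have h1 : J0 = (PowerSeries.constantCoeff (R := k)).mapMatrix JP := by
      ext s i
      show gd (Φ s) v i = PowerSeries.constantCoeff (MvPolynomial.aeval g (MvPolynomial.pderiv i (Φ s)))
      rw [D5_cc hg]
      rfl
    rw [h1, ← RingHom.map_det, h0, map_zero]
  have hJL : J.det ≠ 0 := by
    intro h0
    apply hJP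
    apply hι
    rw [map_zero]
    have h1 : (ι : PowerSeries k →+* M).mapMatrix JP = (algebraMap L M).mapMatrix J := by
      ext s i
      show ι (MvPolynomial.aeval g (MvPolynomial.pderiv i (Φ s))) =
        ((MvPolynomial.aeval gL (MvPolynomial.pderiv i (Φ s)) : L) : M)
      rw [hval]
    have h2 := congrArg Matrix.det h1
    rw [← RingHom.map_det, ← RingHom.map_det, h0, map_zero] at h2
    exact h2
  have hz : ∀ i, D (gL i) = 0 := by
    intro i
    have h1 : ∑ s, (J⁻¹ i s) • ∑ j, J s j • D (gL j) = 0 := by
      refine Finset.sum_eq_zero fun s _ => ?_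
      rw [show ∑ j, J s j • D (gL j) = 0 from hD s, smul_zero]
    have h2 : ∑ s, (J⁻¹ i s) • ∑ j, J s j • D (gL j) = ∑ j, (J⁻¹ * J) i j • D (gL j) := by
      simp only [Finset.smul_sum, smul_smul, Matrix.mul_apply, Finset.sum_smul]
      rw [Finset.sum_comm]
    rw [h2, Matrix.nonsing_inv_mul _ (isUnit_iff_ne_zero.2 hJL)] at h1
    simpa [Matrix.one_apply, ite_smul] using h1
  have hDz : ∀ x : L, D x = 0 := by
    rintro ⟨x, hx⟩
    induction hx using IntermediateField.adjoin_induction with
    | mem x hx =>
      obtain ⟨i, rfl⟩ := hx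
      exact hz i
    | algebraMap x => exact D.map_algebraMap x
    | add x y hx hy h1 h2 =>
      have := D.map_add ⟨x, hx⟩ ⟨y, hy⟩
      rw [h1, h2, add_zero] at this
      exact this
    | inv x hx h1 =>
      have := D.leibniz_inv ⟨x, hx⟩
      rw [h1, smul_zero] at this
      exact this
    | mul x y hx hy h1 h2 =>
      have := D.leibniz ⟨x, hx⟩ ⟨y, hy⟩
      rw [h1, h2, smul_zero, smul_zero, add_zero] at this
      exact this
  have hsub : Subsingleton (Ω[L⁄K]) := by
    refine ⟨fun x y => ?_⟩
    have h1 : ∀ x : Ω[L⁄K], x = 0 := by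
      intro x
      have h2 : x ∈ Submodule.span L (Set.range (KaehlerDifferential.D K L)) := by
        rw [KaehlerDifferential.span_range_derivation]
        trivial
      have h3 : Submodule.span L (Set.range (KaehlerDifferential.D K L)) = ⊥ := by
        rw [Submodule.span_eq_bot]
        rintro _ ⟨z, rfl⟩
        exact hDz z
      rw [h3] at h2
      exact (Submodule.mem_bot L).1 h2
    rw [h1 x, h1 y]
  have hun : Algebra.FormallyUnramified K L := ⟨hsub⟩
  have hsep : Algebra.IsSeparable K L := (Algebra.FormallyUnramified.iff_isSeparable K L).1 hun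
  intro i
  have h1 : IsAlgebraic K (gL i) := (hsep.isAlgebraic.isAlgebraic (gL i))
  exact h1.algebraMap (A := M)

theorem D_algebraic {k : Type} [Field k] {n : ℕ}
    (Φ : Fin (n + 1) → MvPolynomial (Fin (n + 1)) k) (v : Fin (n + 1) → k)
    (hJ : LinearIndependent k fun s => gd (Φ s) v) (g : Fin (n + 1) → PowerSeries k)
    (hg : ∀ i, PowerSeries.constantCoeff (g i) = v i) (b : Fin (n + 1) → Polynomial k)
    (hb : ∀ s, MvPolynomial.aeval g (Φ s) = (b s : PowerSeries k)) :
    ∀ i, IsAlgebraic (Polynomial k) (g i) := by
  classical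
  let K := FractionRing (Polynomial k)
  let M := FractionRing (PowerSeries k)
  let ι : PowerSeries k →ₐ[k] M := IsScalarTower.toAlgHom k (PowerSeries k) M
  have hι : Function.Injective ι := IsFractionRing.injective (PowerSeries k) M
  have hc : Function.Injective (Polynomial.coeToPowerSeries.ringHom (R := k)) :=
    Polynomial.coe_injective k
  have hc' : Function.Injective ((algebraMap (PowerSeries k) M).comp
      (Polynomial.coeToPowerSeries.ringHom (R := k))) := hι.comp hc
  let φ : K →+* M := IsFractionRing.lift hc'
  have hφ : ∀ p : Polynomial k, φ (algebraMap (Polynomial k) K p) = ι (p : PowerSeries k) := fun p =>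
    IsFractionRing.lift_algebraMap hc' p
  let a1 : Algebra K M := φ.toAlgebra
  have t1 : IsScalarTower k K M := by
    refine IsScalarTower.of_algebraMap_eq fun x => ?_
    show algebraMap k M x = φ (algebraMap k K x)
    rw [IsScalarTower.algebraMap_apply k (Polynomial k) K, hφ, Polynomial.algebraMap_eq, Polynomial.coe_C,
      IsScalarTower.algebraMap_apply k (PowerSeries k) M]
    rfl
  intro i
  have h1 := D5_main ι hι (fun p => hφ p) Φ v hJ g hg b hb i
  have h2 : IsAlgebraic K (algebraMap (PowerSeries k) M (g i)) := h1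
  have t2 : IsScalarTower (Polynomial k) K M := IsScalarTower.of_algebraMap_eq fun x => by
    show algebraMap (Polynomial k) M x = φ (algebraMap (Polynomial k) K x)
    rw [hφ]
    rfl
  have h3 : IsAlgebraic (Polynomial k) (algebraMap (PowerSeries k) M (g i)) :=
    (IsFractionRing.isAlgebraic_iff (Polynomial k) K M).2 h2
  obtain ⟨q, hq0, hq⟩ := h3
  refine ⟨q, hq0, ?_⟩
  apply hι
  rw [map_zero, ← hq]
  have h4 : ∀ q : Polynomial (Polynomial k), ι (Polynomial.aeval (g i) q) =
      Polynomial.aeval (algebraMap (PowerSeries k) M (g i)) q := by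
    intro q
    rw [Polynomial.aeval_eq_sum_range, Polynomial.aeval_eq_sum_range, map_sum]
    refine Finset.sum_congr rfl fun j _ => ?_
    rw [Algebra.smul_def, Algebra.smul_def, map_mul, map_pow]
    congr 1
  exact h4 q

end Pool.Agent.Lib.MP_1e3e9c_agF
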