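import Pool.Agent.Lib.MP_1e3e9c_agF.DDefs

/-! LEAF D6 (medium).  The dimension of `Hm w g m` grows at most linearly if the `g i` are algebraic over `k(X)`.

PROOF.  There is `Q ≠ 0` in `k[X]` such that all `Q g_i` are integral over `k[X]` (`IsAlgebraic.exists_integral_multiple` for each `i`, product of the denominators). Let `B ⊆ k[[X]]` be the `k[X]`-subalgebra generated by the `Q g_i`: a finitely generated `k[X]`-module (`Algebra.adjoin` of finitely many integral elements: `fg_adjoin_of_finite`), with generators `e_1, .., e_ρ` (add `1` to them). So `Q g_i e_j = ∑_l A_(ijl) e_l` with `A_(ijl) ∈ k[X]`; let `δ` be a bound for the degrees of all `A_(ijl)` and of `Q`.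
For a monomial of degree `s`: `Q^s g^α = ∑ c_l e_l` with `deg c_l ≤ δ s` (induction on `s`). For a weighted homogeneous `F` of weight `m` all monomials have degree `s ≤ m` (`hw`), so `Q^m F(g) = ∑ c_l e_l` with `deg c_l ≤ 2 δ m`. So `Q^m Hm w g m` is contained in the image of the `k`-linear map `(Fin ρ → degreeLT k (2 δ m + 1)) → k[[X]]`, `c ↦ ∑ c_l e_l`; multiplication by `Q^m` is injective: `finrank ≤ ρ (2 δ m + 1) ≤ ρ (2 δ + 1) (m + 1)`. -/

set_option autoImplicit false

namespace Pool.Agent.Lib.MP_1e3e9c_agF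

private theorem D6_smul {k : Type} [Field k] (p : Polynomial k) (f : PowerSeries k) :
    p • f = (p : PowerSeries k) * f := by
  rw [Algebra.smul_def, PowerSeries.algebraMap_apply', Algebra.algebraMap_self, PowerSeries.map_id]
  rfl

/-- combinations of the `e l` with coefficients of degree at most `N` -/
private def D6_P {k : Type} [Field k] {ρ : ℕ} (e : Fin ρ → PowerSeries k) (N : ℕ) (x : PowerSeries k) : Prop :=
  ∃ c : Fin ρ → Polynomial k, (∀ l, (c l).natDegree ≤ N) ∧ x = ∑ l, (c l : PowerSeries k) * e l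

private theorem D6_mono {k : Type} [Field k] {ρ : ℕ} {e : Fin ρ → PowerSeries k} {N M : ℕ} (h : N ≤ M) {x : PowerSeries k}
    (hx : D6_P e N x) : D6_P e M x := by
  obtain ⟨c, hc, hx⟩ := hx
  exact ⟨c, fun l => (hc l).trans h, hx⟩

private theorem D6_add {k : Type} [Field k] {ρ : ℕ} {e : Fin ρ → PowerSeries k} {N : ℕ} {x y : PowerSeries k}
    (hx : D6_P e N x) (hy : D6_P e N y) : D6_P e N (x + y) := by
  obtain ⟨c, hc, rfl⟩ := hx
  obtain ⟨d, hd, rfl⟩ := hy
  refine ⟨fun l => c l + d l, fun l => (Polynomial.natDegree_add_le _ _).trans (max_le (hc l) (hd l)), ?_⟩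
  rw [← Finset.sum_add_distrib]
  refine Finset.sum_congr rfl fun l _ => ?_
  rw [Polynomial.coe_add, add_mul]

private theorem D6_zero {k : Type} [Field k] {ρ : ℕ} {e : Fin ρ → PowerSeries k} {N : ℕ} : D6_P e N 0 :=
  ⟨fun _ => 0, fun _ => by simp, by simp⟩

private theorem D6_mulp {k : Type} [Field k] {ρ : ℕ} {e : Fin ρ → PowerSeries k} {N D : ℕ} {x : PowerSeries k}
    (hx : D6_P e N x) {q : Polynomial k} (hq : q.natDegree ≤ D) : D6_P e (N + D) ((q : PowerSeries k) * x) := by
  obtain ⟨c, hc, rfl⟩ := hx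
  refine ⟨fun l => q * c l, fun l => ?_, ?_⟩
  · refine Polynomial.natDegree_mul_le.trans ?_
    have := hc l
    omega
  · rw [Finset.mul_sum]
    refine Finset.sum_congr rfl fun l _ => ?_
    rw [Polynomial.coe_mul, mul_assoc]

private theorem D6_mulh {k : Type} [Field k] {ρ : ℕ} {e : Fin ρ → PowerSeries k} {N D : ℕ} {x h : PowerSeries k}
    (hx : D6_P e N x) (A : Fin ρ → Fin ρ → Polynomial k) (hA : ∀ j l, (A j l).natDegree ≤ D)
    (hh : ∀ j, h * e j = ∑ l, (A j l : PowerSeries k) * e l) : D6_P e (N + D) (h * x) := by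
  obtain ⟨c, hc, rfl⟩ := hx
  refine ⟨fun l => ∑ j, c j * A j l, fun l => ?_, ?_⟩
  · refine Polynomial.natDegree_sum_le_of_forall_le _ _ fun j _ => ?_
    refine Polynomial.natDegree_mul_le.trans ?_
    exact add_le_add (hc j) (hA j l)
  · have h1 : h * ∑ j, (c j : PowerSeries k) * e j = ∑ j, ∑ l, ((c j * A j l : Polynomial k) : PowerSeries k) * e l := by
      rw [Finset.mul_sum]
      refine Finset.sum_congr rfl fun j _ => ?_
      have h2 : h * ((c j : PowerSeries k) * e j) = (c j : PowerSeries k) * (h * e j) := by ring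
      rw [h2, hh j, Finset.mul_sum]
      refine Finset.sum_congr rfl fun l _ => ?_
      rw [Polynomial.coe_mul, mul_assoc]
    rw [h1, Finset.sum_comm]
    refine Finset.sum_congr rfl fun l _ => ?_
    rw [← Finset.sum_mul]
    refine congrArg (· * e l) ?_
    exact (map_sum (Polynomial.coeToPowerSeries.ringHom (R := k)) (fun j => c j * A j l) Finset.univ).symm

private noncomputable def D6_Phi {k : Type} [Field k] {ρ : ℕ} (e : Fin ρ → PowerSeries k) (N : ℕ) :
    (Fin ρ → Polynomial.degreeLT k (N + 1)) →ₗ[k] PowerSeries k where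
  toFun c := ∑ l, ((c l : Polynomial k) : PowerSeries k) * e l
  map_add' c d := by
    rw [← Finset.sum_add_distrib]
    refine Finset.sum_congr rfl fun l _ => ?_
    rw [Pi.add_apply, Submodule.coe_add, Polynomial.coe_add, add_mul]
  map_smul' a c := by
    rw [RingHom.id_apply, Finset.smul_sum]
    refine Finset.sum_congr rfl fun l _ => ?_
    have h1 : (((a • c) l : Polynomial k) : PowerSeries k) = a • ((c l : Polynomial k) : PowerSeries k) := by
      ext j
      rw [Pi.smul_apply, Submodule.coe_smul, Polynomial.coeff_coe, Polynomial.coeff_smul, PowerSeries.coeff_smul,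
        Polynomial.coeff_coe]
    rw [h1, smul_mul_assoc]

private theorem D6_mem {k : Type} [Field k] {ρ : ℕ} {e : Fin ρ → PowerSeries k} {N : ℕ} {x : PowerSeries k}
    (hx : D6_P e N x) : x ∈ LinearMap.range (D6_Phi e N) := by
  obtain ⟨c, hc, rfl⟩ := hx
  refine ⟨fun l => ⟨c l, Polynomial.mem_degreeLT.2 ?_⟩, rfl⟩
  refine Polynomial.degree_le_natDegree.trans_lt ?_
  exact_mod_cast Nat.lt_succ_of_le (hc l)

private theorem D6_mono_gen {k : Type} [Field k] {n ρ D : ℕ} {g : Fin (n + 1) → PowerSeries k} {e : Fin ρ → PowerSeries k}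
    {Q : Polynomial k} (hmul : ∀ (i : Fin (n + 1)) (N : ℕ) (x : PowerSeries k), D6_P e N x →
      D6_P e (N + D) ((Q : PowerSeries k) * g i * x)) (α : Fin (n + 1) →₀ ℕ) :
    ∀ (N : ℕ) (x : PowerSeries k), D6_P e N x →
      D6_P e (N + D * α.degree) ((Q : PowerSeries k) ^ α.degree * ((α.prod fun i m => g i ^ m) * x)) := by
  induction α using Finsupp.induction_linear with
  | zero =>
    intro N x hx
    simpa using hx
  | add α β hα hβ =>
    intro N x hx
    have h1 := hα _ _ (hβ N x hx)
    have h2 : (Finsupp.prod (α + β) fun i m => g i ^ m) = (α.prod fun i m => g i ^ m) * (β.prod fun i m => g i ^ m) :=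
      Finsupp.prod_add_index' (fun i => pow_zero _) (fun i a b => pow_add _ a b)
    have h3 : (α + β).degree = α.degree + β.degree := map_add _ _ _
    rw [h2, h3]
    have h4 : N + D * (α.degree + β.degree) = N + D * β.degree + D * α.degree := by ring
    rw [h4]
    have h5 : (Q : PowerSeries k) ^ (α.degree + β.degree) *
        ((α.prod fun i m => g i ^ m) * (β.prod fun i m => g i ^ m) * x) =
        (Q : PowerSeries k) ^ α.degree * ((α.prod fun i m => g i ^ m) *
          ((Q : PowerSeries k) ^ β.degree * ((β.prod fun i m => g i ^ m) * x))) := by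
      rw [pow_add]
      ring
    rw [h5]
    exact h1
  | single i m =>
    intro N x hx
    have h2 : (Finsupp.single i m).degree = m := Finsupp.degree_single i m
    have h6 : ((Finsupp.single i m).prod fun i m => g i ^ m) = g i ^ m :=
      Finsupp.prod_single_index (h := fun i m => g i ^ m) (pow_zero (g i))
    rw [h2, h6]
    clear h2 h6
    induction m generalizing N x with
    | zero => simpa using hx
    | succ m ih =>
      have h3 := hmul i _ _ (ih N x hx)
      have h4 : N + D * (m + 1) = N + D * m + D := by ring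
      have h5 : (Q : PowerSeries k) ^ (m + 1) * (g i ^ (m + 1) * x) =
          (Q : PowerSeries k) * g i * ((Q : PowerSeries k) ^ m * (g i ^ m * x)) := by
        rw [pow_succ, pow_succ]
        ring
      rw [h4, h5]
      exact h3

private theorem D6_degree_le {n : ℕ} {w : Fin (n + 1) → ℕ} (hw : ∀ i, 0 < w i) (α : Fin (n + 1) →₀ ℕ) :
    α.degree ≤ Finsupp.weight w α := by
  induction α using Finsupp.induction_linear with
  | zero => simp
  | add α β hα hβ =>
    rw [map_add, map_add]
    exact add_le_add hα hβ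
  | single i m =>
    rw [Finsupp.degree_single, Finsupp.weight_single, smul_eq_mul]
    exact Nat.le_mul_of_pos_right m (hw i)

theorem D_lin {k : Type} [Field k] {n : ℕ} {w : Fin (n + 1) → ℕ} (hw : ∀ i, 0 < w i)
    {g : Fin (n + 1) → PowerSeries k} (hg : ∀ i, IsAlgebraic (Polynomial k) (g i)) :
    ∃ A : ℕ, ∀ m : ℕ, FiniteDimensional k (Hm w g m) ∧
      Module.finrank k (Hm w g m) ≤ A * (m + 1) := by
  classical
  choose y hy0 hy using fun i => (hg i).exists_integral_multiple
  obtain ⟨Q, hQ⟩ : ∃ Q : Polynomial k, Q = ∏ i, y i := ⟨_, rfl⟩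
  have hQ0 : Q ≠ 0 := by
    rw [hQ]
    exact Finset.prod_ne_zero_iff.2 fun i _ => hy0 i
  have hint : ∀ i, IsIntegral (Polynomial k) (Q • g i) := by
    intro i
    have h1 : Q • g i = (∏ j ∈ Finset.univ.erase i, y j) • (y i • g i) := by
      rw [smul_smul, hQ, ← Finset.mul_prod_erase Finset.univ y (Finset.mem_univ i), mul_comm]
    rw [h1]
    exact (hy i).smul _
  have hfg := fg_adjoin_of_finite (R := Polynomial k) (Set.finite_range fun i => Q • g i)
    (by rintro _ ⟨i, rfl⟩; exact hint i)
  obtain ⟨ρ, e, he⟩ := Submodule.fg_iff_exists_fin_generating_family.1 hfg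
  have hrep : ∀ z ∈ Algebra.adjoin (Polynomial k) (Set.range fun i => Q • g i),
      ∃ c : Fin ρ → Polynomial k, z = ∑ l, (c l : PowerSeries k) * e l := by
    intro z hz
    have h1 : z ∈ Submodule.span (Polynomial k) (Set.range e) := by
      rw [he]
      exact hz
    obtain ⟨c, hc⟩ := (Submodule.mem_span_range_iff_exists_fun (Polynomial k)).1 h1
    refine ⟨c, ?_⟩
    rw [← hc]
    exact Finset.sum_congr rfl fun l _ => D6_smul _ _
  have hej : ∀ j, e j ∈ Algebra.adjoin (Polynomial k) (Set.range fun i => Q • g i) := by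
    intro j
    have h1 : e j ∈ Submodule.span (Polynomial k) (Set.range e) := Submodule.subset_span ⟨j, rfl⟩
    rw [he] at h1
    exact h1
  obtain ⟨c0, hc0⟩ := hrep 1 (one_mem _)
  choose A hA using fun (i : Fin (n + 1)) (j : Fin ρ) => hrep ((Q • g i) * e j)
    (mul_mem (Algebra.subset_adjoin ⟨i, rfl⟩) (hej j))
  obtain ⟨D, hD⟩ : ∃ D : ℕ, D = Q.natDegree + ∑ l, (c0 l).natDegree + ∑ i, ∑ j, ∑ l, (A i j l).natDegree := ⟨_, rfl⟩
  have hDQ : Q.natDegree ≤ D := by omega
  have hD0 : ∀ l, (c0 l).natDegree ≤ D := by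
    intro l
    have h1 : (c0 l).natDegree ≤ ∑ l, (c0 l).natDegree :=
      Finset.single_le_sum (f := fun l => (c0 l).natDegree) (fun _ _ => Nat.zero_le _) (Finset.mem_univ l)
    omega
  have hDA : ∀ i j l, (A i j l).natDegree ≤ D := by
    intro i j l
    have h1 : (A i j l).natDegree ≤ ∑ l, (A i j l).natDegree :=
      Finset.single_le_sum (f := fun l => (A i j l).natDegree) (fun _ _ => Nat.zero_le _) (Finset.mem_univ l)
    have h2 : ∑ l, (A i j l).natDegree ≤ ∑ j, ∑ l, (A i j l).natDegree :=
      Finset.single_le_sum (f := fun j => ∑ l, (A i j l).natDegree) (fun _ _ => Nat.zero_le _) (Finset.mem_univ j)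
    have h3 : ∑ j, ∑ l, (A i j l).natDegree ≤ ∑ i, ∑ j, ∑ l, (A i j l).natDegree :=
      Finset.single_le_sum (f := fun i => ∑ j, ∑ l, (A i j l).natDegree) (fun _ _ => Nat.zero_le _) (Finset.mem_univ i)
    omega
  have hone : D6_P e D 1 := ⟨c0, hD0, hc0⟩
  have hmul : ∀ (i : Fin (n + 1)) (N : ℕ) (x : PowerSeries k), D6_P e N x →
      D6_P e (N + D) ((Q : PowerSeries k) * g i * x) := by
    intro i N x hx
    refine D6_mulh hx (A i) (hDA i) fun j => ?_
    rw [← D6_smul]
    exact hA i j
  have hpow : ∀ (r N : ℕ) (x : PowerSeries k), D6_P e N x → D6_P e (N + D * r) ((Q : PowerSeries k) ^ r * x) := by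
    intro r
    induction r with
    | zero =>
      intro N x hx
      simpa using hx
    | succ r ih =>
      intro N x hx
      have h1 := D6_mulp (ih N x hx) hDQ
      have h2 : N + D * (r + 1) = N + D * r + D := by ring
      have h3 : (Q : PowerSeries k) ^ (r + 1) * x = (Q : PowerSeries k) * ((Q : PowerSeries k) ^ r * x) := by
        rw [pow_succ]
        ring
      rw [h2, h3]
      exact h1
  have hmon : ∀ (m : ℕ) (α : Fin (n + 1) →₀ ℕ) (a : k), Finsupp.weight w α = m →
      D6_P e (D * (m + 1)) ((Q : PowerSeries k) ^ m * MvPolynomial.aeval g (MvPolynomial.monomial α a)) := by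
    intro m α a hα
    have h1 : α.degree ≤ m := by
      rw [← hα]
      exact D6_degree_le hw α
    have h2 := D6_mono_gen hmul α D 1 hone
    have h3 := hpow (m - α.degree) _ _ h2
    have h4 : D + D * α.degree + D * (m - α.degree) = D * (m + 1) := by
      have h5 : D * α.degree + D * (m - α.degree) = D * m := by
        rw [← mul_add]
        congr 1
        omega
      rw [mul_add, mul_one]
      omega
    rw [h4] at h3
    have h6 := D6_mulp (D := 0) h3 (q := Polynomial.C a) (by rw [Polynomial.natDegree_C])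
    rw [add_zero] at h6
    have h7 : (Q : PowerSeries k) ^ m * MvPolynomial.aeval g (MvPolynomial.monomial α a) =
        ((Polynomial.C a : Polynomial k) : PowerSeries k) * ((Q : PowerSeries k) ^ (m - α.degree) *
          ((Q : PowerSeries k) ^ α.degree * ((α.prod fun i m => g i ^ m) * 1))) := by
      rw [MvPolynomial.aeval_monomial, Polynomial.coe_C]
      have h8 : (algebraMap k (PowerSeries k)) a = PowerSeries.C a := rfl
      rw [h8]
      have h9 : (Q : PowerSeries k) ^ m = (Q : PowerSeries k) ^ (m - α.degree) * (Q : PowerSeries k) ^ α.degree := by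
        rw [← pow_add]
        congr 1
        omega
      rw [h9]
      ring
    rw [h7]
    exact h6
  have hF : ∀ (m : ℕ) (F : MvPolynomial (Fin (n + 1)) k), F.IsWeightedHomogeneous w m →
      D6_P e (D * (m + 1)) ((Q : PowerSeries k) ^ m * MvPolynomial.aeval g F) := by
    intro m F hF
    rw [F.as_sum, map_sum, Finset.mul_sum]
    refine Finset.sum_induction _ (D6_P e (D * (m + 1))) (fun _ _ h1 h2 => D6_add h1 h2) D6_zero fun α hα => ?_
    exact hmon m α _ (hF (MvPolynomial.mem_support_iff.1 hα))
  have hfin : ∀ N : ℕ, Module.Finite k (Polynomial.degreeLT k (N + 1)) := fun N =>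
    Module.Finite.equiv (Polynomial.degreeLTEquiv k (N + 1)).symm
  have hfr : ∀ N : ℕ, Module.finrank k (Fin ρ → Polynomial.degreeLT k (N + 1)) = ρ * (N + 1) := by
    intro N
    have h1 := hfin N
    rw [Module.finrank_pi_fintype, Finset.sum_const, Finset.card_univ, Fintype.card_fin, smul_eq_mul,
      (Polynomial.degreeLTEquiv k (N + 1)).finrank_eq, Module.finrank_fin_fun]
  have hQc : (Q : PowerSeries k) ≠ 0 := by
    intro h0
    apply hQ0
    exact Polynomial.coe_injective k (by rw [h0, Polynomial.coe_zero])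
  refine ⟨ρ * (D + 1), fun m => ?_⟩
  have h1 := hfin (D * (m + 1))
  have hinj : Function.Injective (LinearMap.mulLeft k ((Q : PowerSeries k) ^ m)) := by
    intro a b hab
    exact mul_left_cancel₀ (pow_ne_zero m hQc) hab
  have hle : (Hm w g m).map (LinearMap.mulLeft k ((Q : PowerSeries k) ^ m)) ≤ LinearMap.range (D6_Phi e (D * (m + 1))) := by
    rintro _ ⟨f, hf, rfl⟩
    obtain ⟨F, hF', rfl⟩ := mem_Hm.1 hf
    exact D6_mem (hF m F hF')
  have h2 : FiniteDimensional k (LinearMap.range (D6_Phi e (D * (m + 1)))) := inferInstance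
  have h3 : FiniteDimensional k ((Hm w g m).map (LinearMap.mulLeft k ((Q : PowerSeries k) ^ m))) :=
    Submodule.finiteDimensional_of_le hle
  have h4 := Submodule.equivMapOfInjective (LinearMap.mulLeft k ((Q : PowerSeries k) ^ m)) hinj (Hm w g m)
  refine ⟨Module.Finite.equiv h4.symm, ?_⟩
  rw [h4.finrank_eq]
  refine (Submodule.finrank_mono hle).trans ((LinearMap.finrank_range_le _).trans ?_)
  rw [hfr]
  nlinarith [Nat.zero_le (ρ * m), Nat.zero_le ρ]

end Pool.Agent.Lib.MP_1e3e9c_agF
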