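import Pool.Agent.Lib.MP_1e3e9c_agF.DDefs

/-! LEAF D7 (medium-).  The dimension of a finite dimensional space of power series is the number of the orders of its elements.

PROOF.  Elements of different orders are linearly independent (the one of least order cannot cancel), so every finite subset of `od U` has at most `finrank` elements; in particular `od U` is finite. For the other inequality consider the linear map `U → (od U → k)`, `f ↦ (coeff o f)_(o ∈ od U)`: it is injective, because a nonzero `f` has an order `o ∈ od U` with `coeff o f ≠ 0` (`PowerSeries.order`, `PowerSeries.exists_coeff_ne_zero_iff_ne_zero`; `X^o ∣ f` by `PowerSeries.X_pow_dvd_iff`); so `finrank ≤ ncard (od U)`, and `U` is finite dimensional if `od U` is finite. -/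

set_option autoImplicit false

namespace Pool.Agent.Lib.MP_1e3e9c_agF

private theorem D7_min {k : Type} [Field k] {f : PowerSeries k} (h : f ≠ 0) :
    ∃ o : ℕ, PowerSeries.X ^ o ∣ f ∧ PowerSeries.coeff o f ≠ 0 := by
  classical
  have h1 : ∃ n, PowerSeries.coeff n f ≠ 0 := PowerSeries.exists_coeff_ne_zero_iff_ne_zero.2 h
  refine ⟨Nat.find h1, PowerSeries.X_pow_dvd_iff.2 fun m hm => ?_, Nat.find_spec h1⟩
  by_contra h2
  exact Nat.find_min h1 hm h2

/-- The coefficients at the orders. -/
private noncomputable def D7_map {k : Type} [Field k] (U : Submodule k (PowerSeries k)) : U →ₗ[k] (od U → k) :=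
  LinearMap.pi fun o => (PowerSeries.coeff (o : ℕ)).comp U.subtype

private theorem D7_inj {k : Type} [Field k] (U : Submodule k (PowerSeries k)) :
    Function.Injective (D7_map U) := by
  rw [injective_iff_map_eq_zero]
  intro f hf
  by_contra h
  obtain ⟨o, h1, h2⟩ := D7_min (f := (f : PowerSeries k)) fun h0 => h (Subtype.ext h0)
  exact h2 (congrFun hf ⟨o, f.1, f.2, h1, h2⟩)

private theorem D7_indep {k : Type} [Field k] (U : Submodule k (PowerSeries k)) (F : od U → U)
    (h1 : ∀ o : od U, PowerSeries.X ^ (o : ℕ) ∣ (F o : PowerSeries k))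
    (h2 : ∀ o : od U, PowerSeries.coeff (o : ℕ) (F o : PowerSeries k) ≠ 0) : LinearIndependent k F := by
  rw [linearIndependent_iff']
  intro s g hg
  have h3 : ∀ n : ℕ, ∀ i ∈ s, (i : ℕ) = n → g i = 0 := by
    intro n
    induction n using Nat.strong_induction_on with
    | _ n ih =>
      intro i hi hin
      have h4 := congrArg (fun x : U => PowerSeries.coeff (i : ℕ) (x : PowerSeries k)) hg
      have h5 : PowerSeries.coeff (i : ℕ) ((∑ j ∈ s, g j • F j : U) : PowerSeries k) =
          ∑ j ∈ s, g j * PowerSeries.coeff (i : ℕ) (F j : PowerSeries k) := by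
        rw [Submodule.coe_sum, map_sum]
        refine Finset.sum_congr rfl fun j _ => ?_
        rw [Submodule.coe_smul, PowerSeries.coeff_smul, smul_eq_mul]
      have h6 : ∑ j ∈ s, g j * PowerSeries.coeff (i : ℕ) (F j : PowerSeries k) = 0 := by
        rw [← h5]
        exact h4.trans (map_zero _)
      rw [Finset.sum_eq_single_of_mem i hi] at h6
      · exact (mul_eq_zero.1 h6).resolve_right (h2 i)
      · intro j hj hji
        rcases Nat.lt_or_ge (j : ℕ) (i : ℕ) with h7 | h7
        · rw [ih j (hin ▸ h7) j hj rfl, zero_mul]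
        · have h8 : (i : ℕ) < j := lt_of_le_of_ne h7 fun h => hji (Subtype.ext h.symm)
          rw [PowerSeries.X_pow_dvd_iff.1 (h1 j) _ h8, mul_zero]
  exact fun i hi => h3 i i hi rfl

theorem D_fin_of_od {k : Type} [Field k] (U : Submodule k (PowerSeries k)) (h : (od U).Finite) :
    FiniteDimensional k U := by
  have i1 : Finite (od U) := h
  exact Module.Finite.of_injective (D7_map U) (D7_inj U)

theorem D_card_od {k : Type} [Field k] (U : Submodule k (PowerSeries k)) [FiniteDimensional k U] :
    (od U).Finite ∧ (od U).ncard = Module.finrank k U := by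
  have h : ∀ o : od U, ∃ f : U, PowerSeries.X ^ (o : ℕ) ∣ (f : PowerSeries k) ∧
      PowerSeries.coeff (o : ℕ) (f : PowerSeries k) ≠ 0 := by
    rintro ⟨o, f, hf, h1, h2⟩
    exact ⟨⟨f, hf⟩, h1, h2⟩
  choose F hF using h
  have h1 := D7_indep U F (fun o => (hF o).1) fun o => (hF o).2
  have h2 : (od U).Finite := h1.finite
  refine ⟨h2, ?_⟩
  have i2 : Fintype (od U) := h2.fintype
  have e : (od U).ncard = Fintype.card (od U) := by
    rw [← Nat.card_coe_set_eq, Nat.card_eq_fintype_card]
  rw [e]
  refine le_antisymm h1.fintype_card_le_finrank ?_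
  have h3 := LinearMap.finrank_le_finrank_of_injective (D7_inj U)
  rwa [Module.finrank_fintype_fun_eq_card] at h3

end Pool.Agent.Lib.MP_1e3e9c_agF
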