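import Mathlib

/-! LEAF D8 (medium+, Mathlib only).  A graded semigroup of integers: the degree.

PROOF.  `Γ 0` contains `0` (`h01` with `j = 0`), and it is `{0}`: if `x ∈ Γ 0` then all `j x ∈ Γ 0` (`hadd`), but `Γ 0` is finite. If `Γ p`, `Γ q` are not empty then `|Γ (p + q)| ≥ |Γ p| + |Γ q| - 1` (the sums `x + min`, `max + y`: two chains with one common element; `Finset.card_add_card_le`/Cauchy–Davenport for `ℕ`: `Finset.card_add_mul_card_add..`, in Mathlib `cauchy_davenport_add_of_linearOrder_isCancelAdd`).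
Let `s = max m₀ 1` and `u j = 1 - |Γ (j s)|` (real): `Γ (j s)` contains `0` for all `j ≥ 0`, so `u` is subadditive (`Subadditive`), and `u j / j` is bounded below by `hA`. Let `-d s` be its limit (`Subadditive.tendsto_lim`), so `|Γ (j s)| - 1 ≤ d s j` for all `j` (`Subadditive.lim_le_div`) and `(|Γ (j s)| - 1) / j → d s`.
(dim) For `m ≥ m₀ + s` write `m = j s + r`, `m₀ ≤ r < m₀ + s`: `0 ∈ Γ r` (`h0`), so `Γ (j s) ⊆ Γ m` and `|Γ m| ≥ |Γ (j s)| ≥ (d - ε') s j + 1 ≥ (d - ε) m` for `m` large (`j s ≥ m - m₀ - s`).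
(pos) `Γ (a j)` has at least `j + 1` elements; with `j = s i`: `i s + 1 ≤ |Γ (a i s)| ≤ d a i s + 1`, so `d ≥ 1 / a > 0`.
(upper) For all `m`: `|Γ m| ≤ d m + 1`: if `Γ m` is empty it is clear; otherwise `|Γ (i s m)| - 1 ≥ i s (|Γ m| - 1)`, and `|Γ (i s m)| - 1 ≤ d s i m`.
(ord) Let `x ∈ Γ m`, `m ≥ 1` (`m = 0`: `x = 0`). For `j ≥ m₀`, `j ≥ 1`: put `M = a j x + m₀'` with `m₀' = m₀`; `Γ (j m + M)` contains `0, 1, .., j x - 1` (`i = 0 + i + 0` with `0 ∈ Γ (j m)` as `j m ≥ m₀`, `i ∈ Γ (a j x)`, `0 ∈ Γ m₀`) and `j x + Γ M` (`j x ∈ Γ (j m)` by `hadd`, induction): so `j x + |Γ M| ≤ |Γ (j m + M)| ≤ d (j m + M) + 1`, and `|Γ M| ≥ (d - ε) M` for `j` large (if `x = 0` nothing is to prove): `j x ≤ d j m + ε M + 1`, `M ≤ a j x + m₀`; divide by `j`, `j → ∞`, `ε → 0`: `x ≤ d m`. -/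

set_option autoImplicit false

namespace Pool.Agent.Lib.MP_1e3e9c_agF

open scoped Pointwise in
private theorem D8_add_card {Γ : ℕ → Finset ℕ}
    (hadd : ∀ p q, ∀ x ∈ Γ p, ∀ y ∈ Γ q, x + y ∈ Γ (p + q)) {p q : ℕ} (hp : (Γ p).Nonempty)
    (hq : (Γ q).Nonempty) : (Γ p).card + (Γ q).card ≤ (Γ (p + q)).card + 1 := by
  have h1 := cauchy_davenport_add_of_linearOrder_isCancelAdd hp hq
  have h2 : (Γ p + Γ q).card ≤ (Γ (p + q)).card := Finset.card_le_card (by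
    intro z hz
    obtain ⟨x, hx, y, hy, rfl⟩ := Finset.mem_add.1 hz
    exact hadd p q x hx y hy)
  omega

private theorem D8_mul {Γ : ℕ → Finset ℕ}
    (hadd : ∀ p q, ∀ x ∈ Γ p, ∀ y ∈ Γ q, x + y ∈ Γ (p + q)) (h00 : 0 ∈ Γ 0) {x m : ℕ}
    (hx : x ∈ Γ m) (j : ℕ) : j * x ∈ Γ (j * m) := by
  induction j with
  | zero =>
    rw [Nat.zero_mul, Nat.zero_mul]
    exact h00
  | succ j ih =>
    rw [Nat.succ_mul, Nat.succ_mul]
    exact hadd _ _ _ ih _ hx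

private theorem D8_zero {Γ : ℕ → Finset ℕ}
    (hadd : ∀ p q, ∀ x ∈ Γ p, ∀ y ∈ Γ q, x + y ∈ Γ (p + q)) (h00 : 0 ∈ Γ 0) {x : ℕ}
    (hx : x ∈ Γ 0) : x = 0 := by
  by_contra hne
  have h1 := D8_mul hadd h00 hx ((Γ 0).sup id + 1)
  rw [Nat.mul_zero] at h1
  have h2 : ((Γ 0).sup id + 1) * x ≤ (Γ 0).sup id := Finset.le_sup (f := id) h1
  have h3 : (Γ 0).sup id + 1 ≤ ((Γ 0).sup id + 1) * x :=
    Nat.le_mul_of_pos_right _ (Nat.pos_of_ne_zero hne)
  omega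

private theorem D8_mulcard {Γ : ℕ → Finset ℕ}
    (hadd : ∀ p q, ∀ x ∈ Γ p, ∀ y ∈ Γ q, x + y ∈ Γ (p + q)) (h00 : 0 ∈ Γ 0) {m : ℕ}
    (hm : (Γ m).Nonempty) (j : ℕ) : j * (Γ m).card + 1 ≤ (Γ (j * m)).card + j := by
  induction j with
  | zero =>
    have h1 : 0 < (Γ (0 * m)).card := by
      rw [Nat.zero_mul]
      exact Finset.card_pos.2 ⟨0, h00⟩
    omega
  | succ j ih =>
    have hne : (Γ (j * m)).Nonempty := by
      obtain ⟨x, hx⟩ := hm
      exact ⟨j * x, D8_mul hadd h00 hx j⟩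
    have h1 := D8_add_card hadd hne hm
    rw [Nat.succ_mul, Nat.succ_mul]
    omega

private theorem D8_ord {Γ : ℕ → Finset ℕ}
    (hadd : ∀ p q, ∀ x ∈ Γ p, ∀ y ∈ Γ q, x + y ∈ Γ (p + q)) (h00 : 0 ∈ Γ 0) {a m₀ : ℕ}
    (h01 : ∀ j, ∀ i ≤ j, i ∈ Γ (a * j)) (h0 : ∀ m ≥ m₀, 0 ∈ Γ m) {m x j : ℕ} (hx : x ∈ Γ m)
    (hm : 0 < m) (hj : m₀ ≤ j) :
    j * x + (Γ (a * (j * x) + m₀)).card ≤ (Γ (j * m + (a * (j * x) + m₀))).card := by
  have h1 : Finset.range (j * x) ∪ (Γ (a * (j * x) + m₀)).image (fun y => j * x + y) ⊆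
      Γ (j * m + (a * (j * x) + m₀)) := by
    intro z hz
    rcases Finset.mem_union.1 hz with h | h
    · have h2 := hadd _ _ _ (h01 (j * x) z (Finset.mem_range.1 h).le) _ (h0 m₀ le_rfl)
      have h3 := hadd _ _ _ (h0 (j * m) (hj.trans (Nat.le_mul_of_pos_right _ hm))) _ h2
      rwa [Nat.add_zero, Nat.zero_add] at h3
    · obtain ⟨y, hy, rfl⟩ := Finset.mem_image.1 h
      exact hadd _ _ _ (D8_mul hadd h00 hx j) _ hy
  have h2 : Disjoint (Finset.range (j * x)) ((Γ (a * (j * x) + m₀)).image (fun y => j * x + y)) := by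
    rw [Finset.disjoint_left]
    intro z hz hz'
    obtain ⟨y, -, rfl⟩ := Finset.mem_image.1 hz'
    have := Finset.mem_range.1 hz
    omega
  have h3 := Finset.card_le_card h1
  rw [Finset.card_union_of_disjoint h2, Finset.card_range,
    Finset.card_image_of_injective _ (fun y z (hyz : j * x + y = j * x + z) => by omega)] at h3
  exact h3

theorem D_semigroup (Γ : ℕ → Finset ℕ)
    (hadd : ∀ p q, ∀ x ∈ Γ p, ∀ y ∈ Γ q, x + y ∈ Γ (p + q)) (A : ℕ)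
    (hA : ∀ m, (Γ m).card ≤ A * (m + 1)) (a : ℕ) (ha : 0 < a)
    (h01 : ∀ j, ∀ i ≤ j, i ∈ Γ (a * j)) (m₀ : ℕ) (h0 : ∀ m ≥ m₀, 0 ∈ Γ m) :
    ∃ d : ℝ, 0 < d ∧ (∀ m, ∀ x ∈ Γ m, (x : ℝ) ≤ d * m) ∧
      ∀ ε > (0 : ℝ), ∃ m₁ : ℕ, ∀ m ≥ m₁, (d - ε) * m ≤ (Γ m).card := by
  have h00 : 0 ∈ Γ 0 := by
    have h1 := h01 0 0 le_rfl
    rwa [Nat.mul_zero] at h1
  obtain ⟨s, hs⟩ : ∃ s, s = max m₀ 1 := ⟨_, rfl⟩
  have hs1 : 1 ≤ s := by omega
  have hsm : m₀ ≤ s := by omega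
  have hz : ∀ j, 0 ∈ Γ (j * s) := by
    intro j
    rcases Nat.eq_zero_or_pos j with rfl | hj
    · rw [Nat.zero_mul]
      exact h00
    · exact h0 _ (hsm.trans (Nat.le_mul_of_pos_left s hj))
  have hsub : Subadditive fun j => (1 : ℝ) - (Γ (j * s)).card := by
    intro i j
    have h1 := D8_add_card hadd ⟨0, hz i⟩ ⟨0, hz j⟩
    rw [← Nat.add_mul] at h1
    have h2 : ((Γ (i * s)).card : ℝ) + (Γ (j * s)).card ≤ (Γ ((i + j) * s)).card + 1 := by
      exact_mod_cast h1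
    show (1 : ℝ) - (Γ ((i + j) * s)).card ≤ (1 - (Γ (i * s)).card) + (1 - (Γ (j * s)).card)
    linarith
  have hA0 : (0 : ℝ) ≤ A := Nat.cast_nonneg A
  have hs0 : (0 : ℝ) < s := by exact_mod_cast hs1
  have hbdd : BddBelow (Set.range fun n : ℕ => ((1 : ℝ) - (Γ (n * s)).card) / n) := by
    refine ⟨-((A : ℝ) * (s + 1)), ?_⟩
    rintro _ ⟨n, rfl⟩
    show -((A : ℝ) * (s + 1)) ≤ ((1 : ℝ) - (Γ (n * s)).card) / n
    rcases Nat.eq_zero_or_pos n with rfl | hn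
    · rw [Nat.cast_zero, div_zero]
      have : (0 : ℝ) ≤ (A : ℝ) * (s + 1) := by positivity
      linarith
    · have hn0 : (0 : ℝ) < n := by exact_mod_cast hn
      rw [le_div_iff₀ hn0]
      have h1 : ((Γ (n * s)).card : ℝ) ≤ A * (n * s + 1) := by exact_mod_cast hA (n * s)
      have hn1 : (1 : ℝ) ≤ n := by exact_mod_cast hn
      nlinarith [mul_nonneg hA0 (sub_nonneg.2 hn1)]
  obtain ⟨d, hd⟩ : ∃ d : ℝ, d = -hsub.lim / s := ⟨_, rfl⟩
  have hL : hsub.lim = -(d * s) := by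
    rw [hd, div_mul_cancel₀ _ hs0.ne', neg_neg]
  have hup : ∀ j : ℕ, ((Γ (j * s)).card : ℝ) ≤ d * s * j + 1 := by
    intro j
    rcases Nat.eq_zero_or_pos j with rfl | hj
    · have h1 : (Γ (0 * s)).card ≤ 1 := by
        rw [Nat.zero_mul]
        refine Finset.card_le_one.2 fun x hx y hy => ?_
        rw [D8_zero hadd h00 hx, D8_zero hadd h00 hy]
      have h2 : ((Γ (0 * s)).card : ℝ) ≤ 1 := by exact_mod_cast h1
      rw [Nat.cast_zero, mul_zero, zero_add]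
      exact h2
    · have h1 := hsub.lim_le_div hbdd hj.ne'
      rw [hL, le_div_iff₀ (by exact_mod_cast hj)] at h1
      linarith
  have hlow : ∀ ε > (0 : ℝ), ∃ j₁ : ℕ, ∀ j ≥ j₁, (d - ε) * s * j ≤ ((Γ (j * s)).card : ℝ) := by
    intro ε hε
    have h1 := hsub.tendsto_lim hbdd
    have h2 : ∀ᶠ n : ℕ in Filter.atTop, ((1 : ℝ) - (Γ (n * s)).card) / n < hsub.lim + ε * s :=
      h1.eventually_lt_const (by nlinarith [mul_pos hε hs0])
    obtain ⟨j₁, hj₁⟩ := Filter.eventually_atTop.1 h2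
    refine ⟨max j₁ 1, fun j hj => ?_⟩
    have h3 := hj₁ j (le_trans (le_max_left _ _) hj)
    have hj0 : (0 : ℝ) < j := by exact_mod_cast (le_trans (le_max_right _ _) hj : 1 ≤ j)
    rw [div_lt_iff₀ hj0, hL] at h3
    linarith
  have hd0 : 0 < d := by
    have h1 : s + 1 ≤ (Γ (a * s)).card := by
      have h2 : Finset.range (s + 1) ⊆ Γ (a * s) := fun i hi => h01 s i (by
        have := Finset.mem_range.1 hi
        omega)
      have h3 := Finset.card_le_card h2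
      rwa [Finset.card_range] at h3
    have h2 := hup a
    have h3 : ((s : ℝ) + 1) ≤ (Γ (a * s)).card := by exact_mod_cast h1
    have h4 : (s : ℝ) ≤ d * s * a := by linarith
    by_contra hd0
    push Not at hd0
    have ha0 : (0 : ℝ) < a := by exact_mod_cast ha
    have h5 : d * s * a ≤ 0 :=
      mul_nonpos_of_nonpos_of_nonneg (mul_nonpos_of_nonpos_of_nonneg hd0 hs0.le) ha0.le
    linarith
  have hall : ∀ m : ℕ, ((Γ m).card : ℝ) ≤ d * m + 1 := by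
    intro m
    rcases (Γ m).eq_empty_or_nonempty with he | hne
    · rw [he, Finset.card_empty, Nat.cast_zero]
      positivity
    · have h1 := D8_mulcard hadd h00 hne s
      have h2 := hup m
      rw [Nat.mul_comm m s] at h2
      have h3 : (s : ℝ) * (Γ m).card + 1 ≤ (Γ (s * m)).card + s := by exact_mod_cast h1
      have h4 : (s : ℝ) * (Γ m).card ≤ s * (d * m + 1) := by linarith
      exact le_of_mul_le_mul_left h4 hs0
  have hdim : ∀ ε > (0 : ℝ), ∃ m₁ : ℕ, ∀ m ≥ m₁, (d - ε) * m ≤ (Γ m).card := by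
    intro ε hε
    obtain ⟨j₁, hj₁⟩ := hlow (ε / 2) (by linarith)
    obtain ⟨m₂, hm₂⟩ := exists_nat_ge (2 * (d * (m₀ + s)) / ε)
    refine ⟨max (m₀ + j₁ * s) m₂, fun m hm => ?_⟩
    have hm3 : m₀ + j₁ * s ≤ m := le_trans (le_max_left _ _) hm
    have hm4 : m₂ ≤ m := le_trans (le_max_right _ _) hm
    obtain ⟨j, hj⟩ : ∃ j, j = (m - m₀) / s := ⟨_, rfl⟩
    have e1 : s * j + (m - m₀) % s = m - m₀ := by
      rw [hj]
      exact Nat.div_add_mod _ _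
    have e2 : (m - m₀) % s < s := Nat.mod_lt _ hs1
    have e3 : j₁ ≤ j := by
      rw [hj, Nat.le_div_iff_mul_le hs1]
      omega
    rw [Nat.mul_comm] at e1
    obtain ⟨r, hr⟩ : ∃ r, r = m - j * s := ⟨_, rfl⟩
    have e4 : m = j * s + r := by omega
    have e5 : m₀ ≤ r := by omega
    have e6 : r ≤ m₀ + s := by omega
    have h1 : (Γ (j * s)).card ≤ (Γ m).card := Finset.card_le_card fun x hx => by
      have h2 := hadd (j * s) r x hx 0 (h0 r e5)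
      rw [Nat.add_zero, ← e4] at h2
      exact h2
    have h2 := hj₁ j e3
    have h3 : ((Γ (j * s)).card : ℝ) ≤ (Γ m).card := by exact_mod_cast h1
    have h4 : (m : ℝ) = j * s + r := by exact_mod_cast e4
    have h5 : (r : ℝ) ≤ m₀ + s := by exact_mod_cast e6
    have h6 : 2 * (d * (m₀ + s)) / ε ≤ m := hm₂.trans (by exact_mod_cast hm4)
    rw [div_le_iff₀ hε] at h6
    have hm0 : (0 : ℝ) ≤ m := Nat.cast_nonneg m
    have hr0 : (0 : ℝ) ≤ r := Nat.cast_nonneg r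
    have h7 : (d - ε / 2) * s * j = (d - ε / 2) * m - (d - ε / 2) * r := by
      rw [h4]
      ring
    have h8 : d * r ≤ d * (m₀ + s) := mul_le_mul_of_nonneg_left h5 hd0.le
    have h9 : 0 ≤ ε * r := mul_nonneg hε.le hr0
    linarith
  refine ⟨d, hd0, fun m x hx => ?_, hdim⟩
  rcases Nat.eq_zero_or_pos m with rfl | hm
  · rw [D8_zero hadd h00 hx, Nat.cast_zero, mul_zero]
  · by_contra hlt
    push Not at hlt
    have hm0 : (0 : ℝ) < m := by exact_mod_cast hm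
    have hx0 : (0 : ℝ) < x := lt_trans (mul_pos hd0 hm0) hlt
    have hx1 : 0 < x := by exact_mod_cast hx0
    have ha0 : (0 : ℝ) < a := by exact_mod_cast ha
    have hδ : 0 < (x : ℝ) - d * m := by linarith
    obtain ⟨δ, hδe⟩ : ∃ δ : ℝ, δ = (x : ℝ) - d * m := ⟨_, rfl⟩
    rw [← hδe] at hδ
    obtain ⟨ε, hεe⟩ : ∃ ε : ℝ, ε = δ / (3 * (a * x)) := ⟨_, rfl⟩
    have hε : 0 < ε := by
      rw [hεe]
      positivity
    have hεx : ε * (a * x) = δ / 3 := by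
      rw [hεe]
      field_simp
    obtain ⟨m₁, hm₁⟩ := hdim ε hε
    obtain ⟨j₂, hj₂⟩ := exists_nat_gt ((ε * m₀ + 1) * 3 / δ)
    obtain ⟨j, hj1, hj3, hj4⟩ : ∃ j : ℕ, m₀ ≤ j ∧ m₁ ≤ j ∧ j₂ ≤ j :=
      ⟨m₀ + m₁ + j₂, by omega, by omega, by omega⟩
    have h1 := D8_ord hadd h00 h01 h0 hx hm hj1
    have h2 : m₁ ≤ a * (j * x) + m₀ := by
      have h3 : j ≤ a * (j * x) :=
        (Nat.le_mul_of_pos_right j hx1).trans (Nat.le_mul_of_pos_left _ ha)
      omega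
    have h3 := hm₁ _ h2
    have h4 := hall (j * m + (a * (j * x) + m₀))
    have h5 : (j : ℝ) * x + (Γ (a * (j * x) + m₀)).card ≤
        (Γ (j * m + (a * (j * x) + m₀))).card := by exact_mod_cast h1
    push_cast at h3 h4
    have h6 : (ε * m₀ + 1) * 3 / δ < j := hj₂.trans_le (by exact_mod_cast hj4)
    rw [div_lt_iff₀ hδ] at h6
    have h7 : (j : ℝ) * x ≤ d * (j * m) + ε * (a * (j * x) + m₀) + 1 := by linarith
    have h8 : (j : ℝ) * δ = j * x - d * (j * m) := by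
      rw [hδe]
      ring
    have h9 : ε * (a * (j * x)) = j * (δ / 3) := by
      rw [← hεx]
      ring
    have h10 : ε * (a * ((j : ℝ) * x) + m₀) = ε * (a * (j * x)) + ε * m₀ := by ring
    have h11 : (0 : ℝ) ≤ j * δ := mul_nonneg (Nat.cast_nonneg j) hδ.le
    linarith

end Pool.Agent.Lib.MP_1e3e9c_agF
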