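import Pool.Agent.Lib.MP_1e3e9c_agF.FDefs
import Pool.Agent.Lib.MP_1e3e9c_agF.D2
import Pool.Agent.Lib.MP_1e3e9c_agF.D3
import Pool.Agent.Lib.MP_1e3e9c_agF.D4
import Pool.Agent.Lib.MP_1e3e9c_agF.D5
import Pool.Agent.Lib.MP_1e3e9c_agF.D6
import Pool.Agent.Lib.MP_1e3e9c_agF.D7
import Pool.Agent.Lib.MP_1e3e9c_agF.D8
import Pool.Agent.Lib.MP_1e3e9c_agF.D14

/-!
# MP_1e3e9c_ag, project F, block F4: an algebraic arc through a smooth point
-/

set_option autoImplicit false

namespace Pool.Agent.Lib.MP_1e3e9c_agF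

open Pool.Agent.Lib.MP_1e3e9c_agR Pool.Agent.Lib.MP_1e3e9c_agM

private theorem D10_E {k : Type} [Field k] {n : ℕ} {w : Fin (n + 1) → ℕ} {v : Fin (n + 1) → k}
    (hG : ∀ d : ℕ, (∀ i, v i ≠ 0 → d ∣ w i) → d = 1) : ∃ i, (w i : k) * v i ≠ 0 := by
  by_contra hcon
  push Not at hcon
  obtain ⟨p, hp⟩ := CharP.exists k
  refine CharP.char_ne_one k p (hG p fun i hi => ?_)
  rcases mul_eq_zero.1 (hcon i) with h | h
  · exact (CharP.cast_eq_zero_iff k p (w i)).1 h
  · exact absurd h hi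

private theorem D10_cc {k : Type} [Field k] {n : ℕ} {v : Fin (n + 1) → k}
    {g : Fin (n + 1) → PowerSeries k} (hg : ∀ i, PowerSeries.constantCoeff (g i) = v i)
    (F : MvPolynomial (Fin (n + 1)) k) :
    PowerSeries.constantCoeff (MvPolynomial.aeval g F) = MvPolynomial.eval v F := by
  induction F using MvPolynomial.induction_on with
  | C a =>
    rw [MvPolynomial.aeval_C, MvPolynomial.eval_C, PowerSeries.algebraMap_apply, Algebra.algebraMap_self,
      RingHom.id_apply, PowerSeries.constantCoeff_C]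
  | add P Q hP hQ => rw [map_add, map_add, map_add, hP, hQ]
  | mul_X P i hP => rw [map_mul, map_mul, map_mul, hP, MvPolynomial.aeval_X, MvPolynomial.eval_X, hg]

private theorem D10_order {k : Type} [Field k] {U : Submodule k (PowerSeries k)} {x : PowerSeries k}
    (hx : x ∈ U) {o : ℕ} (ho : x.order = o) : o ∈ od U := by
  obtain ⟨h1, h2⟩ := PowerSeries.order_eq_nat.1 ho
  exact ⟨x, hx, PowerSeries.X_pow_dvd_iff.2 h2, h1⟩

theorem exists_arc {k : Type} [Field k] [IsAlgClosed k] {n c : ℕ} {w : Fin (n + 1) → ℕ}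
    (hw : ∀ i, 0 < w i) {S : Set (MvPolynomial (Fin (n + 1)) k)}
    (hS : ∀ P ∈ S, ∃ m, P.IsWeightedHomogeneous w m) {v : Fin (n + 1) → k} (hv0 : v ≠ 0)
    (hvS : ∀ P ∈ S, MvPolynomial.eval v P = 0) (hv : LCI S c v) (hg : Gc w v)
    (hc : c + 2 ≤ n + 1) :
    ∃ g : Fin (n + 1) → PowerSeries k, (∀ i, PowerSeries.constantCoeff (g i) = v i) ∧
      (∀ P ∈ S, MvPolynomial.aeval g P = 0) ∧
      ∃ r : ℝ, 0 < r ∧
        (∀ d δ, δ ≠ 0 → Sat w g d δ → ∀ o : ℕ, δ.order = o → (o : ℝ) ≤ r * d) ∧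
        ∀ ε : ℝ, 0 < ε → ∃ γ : ℝ, ∀ d : ℕ,
          (1 - ε) * r * d - γ ≤ (Module.finrank k (Ad w g d) : ℝ) := by
  classical
  obtain ⟨P, hPS, hPli, hPloc⟩ := hv
  have hPli' : LinearIndependent k fun l => gd (P l) v := hPli
  obtain ⟨N, hN⟩ : ∃ N, c + N = n := ⟨n - c, by omega⟩
  have hN1 : 1 ≤ N := by omega
  obtain ⟨a₀, ha₀⟩ := D_jets hw hv0 hg
  obtain ⟨a, haa, ha0, hak⟩ : ∃ a, a₀ ≤ a ∧ 0 < a ∧ (a : k) ≠ 0 := by
    by_cases h : ((a₀ + 1 : ℕ) : k) = 0
    · refine ⟨a₀ + 2, by omega, by omega, fun h' => ?_⟩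
      have h3 : ((a₀ + 2 : ℕ) : k) = ((a₀ + 1 : ℕ) : k) + 1 := by push_cast; ring
      rw [h3, h, zero_add] at h'
      exact one_ne_zero h'
    · exact ⟨a₀ + 1, by omega, by omega, h⟩
  obtain ⟨Q, y₁, y₂, hQ, hy1, hy1v, hy2, hy2v, hli⟩ := D_choose hak (ha₀ a haa hak)
    (fun F hF => D_euler hF) (D10_E hg) P hPli' (fun l => by
      obtain ⟨m, hm⟩ := hS _ (hPS l)
      rw [D_euler hm, hvS _ (hPS l), mul_zero]) hN hN1
  let e : Fin (n + 1) ≃ (Fin c ⊕ Fin (N - 1)) ⊕ Fin 2 := (Fintype.equivFinOfCardEq (by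
    simp only [Fintype.card_sum, Fintype.card_fin]
    omega)).symm
  let Φ' : (Fin c ⊕ Fin (N - 1)) ⊕ Fin 2 → MvPolynomial (Fin (n + 1)) k :=
    Sum.elim (Sum.elim P Q) ![y₁, y₂]
  let bp : (Fin c ⊕ Fin (N - 1)) ⊕ Fin 2 → Polynomial k :=
    Sum.elim (fun _ => 0) ![Polynomial.X, 1]
  have hJ : LinearIndependent k fun s => gd (Φ' (e s)) v := hli.comp e e.injective
  have hb' : ∀ s, PowerSeries.constantCoeff (bp s : PowerSeries k) = MvPolynomial.eval v (Φ' s) := by
    rintro ((l | l) | l)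
    · show PowerSeries.constantCoeff ((0 : Polynomial k) : PowerSeries k) = MvPolynomial.eval v (P l)
      rw [hvS _ (hPS l), Polynomial.coe_zero, map_zero]
    · show PowerSeries.constantCoeff ((0 : Polynomial k) : PowerSeries k) = MvPolynomial.eval v (Q l)
      rw [(hQ l).2, Polynomial.coe_zero, map_zero]
    · fin_cases l
      · show PowerSeries.constantCoeff ((Polynomial.X : Polynomial k) : PowerSeries k) =
          MvPolynomial.eval v y₁
        rw [hy1v, Polynomial.coe_X, PowerSeries.constantCoeff_X]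
      · show PowerSeries.constantCoeff ((1 : Polynomial k) : PowerSeries k) = MvPolynomial.eval v y₂
        rw [hy2v, Polynomial.coe_one, map_one]
  obtain ⟨g, hg0, hgΦ⟩ := D_inverse (fun s => Φ' (e s)) v hJ (fun s => (bp (e s) : PowerSeries k))
    fun s => hb' (e s)
  have hgΦ' : ∀ s, MvPolynomial.aeval g (Φ' s) = (bp s : PowerSeries k) := fun s => by
    have := hgΦ (e.symm s)
    simpa only [Equiv.apply_symm_apply] using this
  have hgP : ∀ l, MvPolynomial.aeval g (P l) = 0 := fun l => by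
    have := hgΦ' (Sum.inl (Sum.inl l))
    rw [show bp (Sum.inl (Sum.inl l)) = 0 from rfl, Polynomial.coe_zero] at this
    exact this
  have hgy1 : MvPolynomial.aeval g y₁ = PowerSeries.X := by
    have := hgΦ' (Sum.inr 0)
    rw [show bp (Sum.inr 0) = Polynomial.X from rfl, Polynomial.coe_X] at this
    exact this
  have hgy2 : MvPolynomial.aeval g y₂ = 1 := by
    have := hgΦ' (Sum.inr 1)
    rw [show bp (Sum.inr 1) = 1 from rfl, Polynomial.coe_one] at this
    exact this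
  have hgS : ∀ R ∈ S, MvPolynomial.aeval g R = 0 := by
    intro R hR
    obtain ⟨h, hh, hmem⟩ := hPloc R hR
    have h1 : h * R ∈ RingHom.ker (MvPolynomial.aeval (R := k) g).toRingHom := by
      refine (Ideal.span_le.2 ?_) hmem
      rintro _ ⟨l, rfl⟩
      exact hgP l
    have h2 : MvPolynomial.aeval g h * MvPolynomial.aeval g R = 0 := by
      rw [← map_mul]
      exact h1
    rcases mul_eq_zero.1 h2 with h3 | h3
    · exfalso
      apply hh
      rw [← D10_cc hg0, h3, map_zero]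
    · exact h3
  refine ⟨g, hg0, hgS, ?_⟩
  have halg := D_algebraic (fun s => Φ' (e s)) v hJ g hg0 (fun s => bp (e s)) hgΦ
  obtain ⟨A, hA⟩ := D_lin hw halg
  have hfin : ∀ m, (od (Hm w g m)).Finite := fun m => by
    have := (hA m).1
    exact (D_card_od _).1
  have hcard : ∀ m, (hfin m).toFinset.card = Module.finrank k (Hm w g m) := fun m => by
    have := (hA m).1
    rw [← (D_card_od (Hm w g m)).2, Set.ncard_eq_toFinset_card _ (hfin m)]
  obtain ⟨m₀, hm₀⟩ := D_exps w (Finset.univ.filter fun i => v i ≠ 0)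
    (fun d hd => hg d fun i hi => hd i (by simp [hi])) 0
  obtain ⟨r, hr0, hr1, hr2⟩ := D_semigroup (fun m => (hfin m).toFinset)
    (fun p q x hx y hy => by
      rw [Set.Finite.mem_toFinset] at hx hy ⊢
      exact od_mul (fun f hf f' hf' => Hm_mul hf hf') hx hy)
    A (fun m => by
      rw [hcard]
      exact (hA m).2) a ha0
    (fun j i hij => by
      rw [Set.Finite.mem_toFinset]
      refine ⟨MvPolynomial.aeval g (y₁ ^ i * y₂ ^ (j - i)), mem_Hm.2 ⟨_, ?_, rfl⟩, ?_, ?_⟩
      · have h1 := (hy1.pow i).mul (hy2.pow (j - i))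
        rw [← add_smul, Nat.add_sub_cancel' hij, smul_eq_mul, Nat.mul_comm] at h1
        exact h1
      · rw [map_mul, map_pow, map_pow, hgy1, hgy2, one_pow, mul_one]
      · rw [map_mul, map_pow, map_pow, hgy1, hgy2, one_pow, mul_one, PowerSeries.coeff_X_pow_self]
        exact one_ne_zero)
    m₀ (fun m hm => by
      rw [Set.Finite.mem_toFinset]
      obtain ⟨β, hβ0, -, hβ⟩ := hm₀ m hm
      refine ⟨MvPolynomial.aeval g (MvPolynomial.monomial (Finsupp.equivFunOnFinite.symm β) (1 : k)),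
        mem_Hm.2 ⟨_, ?_, rfl⟩, ?_, ?_⟩
      · refine MvPolynomial.isWeightedHomogeneous_monomial w _ _ ?_
        rw [← hβ, Finsupp.weight_apply, Finsupp.sum_fintype _ _ (fun i => by simp)]
        exact Finset.sum_congr rfl fun i _ => by simp [mul_comm]
      · rw [pow_zero]
        exact one_dvd _
      · rw [PowerSeries.coeff_zero_eq_constantCoeff_apply, D10_cc hg0, MvPolynomial.eval_monomial,
          one_mul, Finsupp.prod_fintype _ _ (fun i => by simp)]
        refine Finset.prod_ne_zero_iff.2 fun i _ => ?_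
        by_cases hi : v i = 0
        · have h1 : β i = 0 := hβ0 i (by simp [hi])
          simp [h1]
        · exact pow_ne_zero _ hi)
  refine ⟨r, hr0, ?_, ?_⟩
  · have h1 := D_sat hw hg hg0 (r := r) (fun d x hx hx0 o ho => hr1 d o (by
      rw [Set.Finite.mem_toFinset]
      exact D10_order hx ho))
    exact fun d δ h2 h3 o h4 => h1 d δ h2 h3 o h4
  · intro ε hε
    obtain ⟨m₁, hm₁⟩ := hr2 (ε * r) (mul_pos hε hr0)
    refine ⟨r * m₁, fun d => ?_⟩
    rcases le_total m₁ d with h | h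
    · have h1 := hm₁ d h
      rw [hcard] at h1
      have h2 : (0 : ℝ) ≤ r * m₁ := by positivity
      have h3 : (1 - ε) * r * d = (r - ε * r) * d := by ring
      rw [h3]
      exact (sub_le_self _ h2).trans h1
    · have h1 : (d : ℝ) ≤ m₁ := by exact_mod_cast h
      have h2 : (0 : ℝ) ≤ Module.finrank k (Ad w g d) := by positivity
      have h3 : (1 - ε) * r * d ≤ r * m₁ := by
        have h4 : (0 : ℝ) ≤ ε * r * d := by positivity
        have h5 : r * (d : ℝ) ≤ r * m₁ := by gcongr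
        nlinarith
      linarith

end Pool.Agent.Lib.MP_1e3e9c_agF
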