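import Pool.Agent.Lib.MP_1e3e9c_agF.D7

/-! LEAF D11 (medium-).  The coefficientwise `q`-th root, `q = p^s`, of a system of finite dimensional spaces of power series.

PROOF.  `D_bij`: `iterateFrobenius k p s` is bijective because `k` is perfect (`IsAlgClosed.perfectField`, `PerfectRing`, `bijective_iterateFrobenius`), and `PowerSeries.map` of a bijective homomorphism is bijective (coefficientwise).  `D_ord`: the homomorphism of the coefficients is injective, so the same coefficients vanish (`PowerSeries.order_eq_order`-like, `PowerSeries.order_eq_nat`, `X_pow_dvd_iff`).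
`D_root`: `L d = {x | σ x ∈ A d}`, `σ = map (iterateFrobenius k p s)`: a subspace, since `σ (a x) = a^q σ x`.  `od (L d) = od (A d)` (`od` of DDefs: `X^o ∣ f` and `coeff o f ≠ 0`; use `D_bij` for `⊇`).  So `od (L d)` is finite and both dimensions are `ncard` of the same set (`D_card_od`, `D_fin_of_od` of D7). -/

set_option autoImplicit false

namespace Pool.Agent.Lib.MP_1e3e9c_agF

theorem D_bij {k : Type} [Field k] [IsAlgClosed k] {p : ℕ} [Fact p.Prime] [CharP k p] (s : ℕ) :
    Function.Bijective (PowerSeries.map (iterateFrobenius k p s)) := by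
  have hb : Function.Bijective (iterateFrobenius k p s) := by
    have h1 : PerfectRing k p := inferInstance
    exact bijective_iterateFrobenius k p s
  refine ⟨fun f g h => PowerSeries.ext fun n => hb.1 ?_, fun f => ?_⟩
  · rw [← PowerSeries.coeff_map, ← PowerSeries.coeff_map, h]
  · refine ⟨PowerSeries.mk fun n => Function.surjInv hb.2 (PowerSeries.coeff n f),
      PowerSeries.ext fun n => ?_⟩
    rw [PowerSeries.coeff_map, PowerSeries.coeff_mk, Function.surjInv_eq hb.2]

theorem D_ord {k : Type} [Field k] {p : ℕ} [Fact p.Prime] [CharP k p] (s : ℕ) (x : PowerSeries k) :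
    (PowerSeries.map (iterateFrobenius k p s) x).order = x.order := by
  have hinj : Function.Injective (iterateFrobenius k p s) := (iterateFrobenius k p s).injective
  have h := PowerSeries.order_eq.1 (rfl : x.order = x.order)
  refine PowerSeries.order_eq.2 ⟨fun i hi => ?_, fun i hi => ?_⟩
  · rw [PowerSeries.coeff_map]
    exact (map_ne_zero_iff _ hinj).2 (h.1 i hi)
  · rw [PowerSeries.coeff_map, h.2 i hi, map_zero]

theorem D_root {k : Type} [Field k] [IsAlgClosed k] {p : ℕ} [Fact p.Prime] [CharP k p] (s : ℕ)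
    (A : ℕ → Submodule k (PowerSeries k)) (hA : ∀ d, FiniteDimensional k (A d)) :
    ∃ L : ℕ → Submodule k (PowerSeries k),
      (∀ d x, x ∈ L d ↔ PowerSeries.map (iterateFrobenius k p s) x ∈ A d) ∧
      (∀ d, FiniteDimensional k (L d)) ∧
      ∀ d, Module.finrank k (L d) = Module.finrank k (A d) := by
  have hinj : Function.Injective (iterateFrobenius k p s) := (iterateFrobenius k p s).injective
  obtain ⟨σ, hσ⟩ : ∃ σ : k →+* k, σ = iterateFrobenius k p s := ⟨_, rfl⟩
  rw [← hσ] at hinj
  have hbij : Function.Bijective (PowerSeries.map σ) := by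
    rw [hσ]
    exact D_bij s
  have hdvd : ∀ (o : ℕ) (f : PowerSeries k), PowerSeries.X ^ o ∣ PowerSeries.map σ f ↔ PowerSeries.X ^ o ∣ f := by
    intro o f
    rw [PowerSeries.X_pow_dvd_iff, PowerSeries.X_pow_dvd_iff]
    refine forall_congr' fun m => forall_congr' fun _ => ?_
    rw [PowerSeries.coeff_map]
    exact map_eq_zero_iff _ hinj
  have hcf : ∀ (o : ℕ) (f : PowerSeries k), PowerSeries.coeff o (PowerSeries.map σ f) ≠ 0 ↔
      PowerSeries.coeff o f ≠ 0 := by
    intro o f
    rw [PowerSeries.coeff_map]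
    exact map_ne_zero_iff _ hinj
  obtain ⟨L, hL⟩ : ∃ L : ℕ → Submodule k (PowerSeries k), ∀ d x, x ∈ L d ↔ PowerSeries.map σ x ∈ A d := by
    refine ⟨fun d =>
      { carrier := {x | PowerSeries.map σ x ∈ A d}
        add_mem' := fun {x y} hx hy => ?_
        zero_mem' := ?_
        smul_mem' := fun a x hx => ?_ }, fun d x => Iff.rfl⟩
    · show PowerSeries.map σ (x + y) ∈ A d
      rw [map_add]
      exact add_mem hx hy
    · show PowerSeries.map σ 0 ∈ A d
      rw [map_zero]
      exact zero_mem _
    · show PowerSeries.map σ (a • x) ∈ A d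
      have h1 : PowerSeries.map σ (a • x) = σ a • PowerSeries.map σ x := by
        refine PowerSeries.ext fun n => ?_
        rw [PowerSeries.coeff_map, PowerSeries.coeff_smul, PowerSeries.coeff_smul, PowerSeries.coeff_map,
          smul_eq_mul, smul_eq_mul, map_mul]
      rw [h1]
      exact Submodule.smul_mem _ _ hx
  have hod : ∀ d, od (L d) = od (A d) := by
    intro d
    refine Set.Subset.antisymm ?_ ?_
    · rintro o ⟨f, hf, h1, h2⟩
      exact ⟨PowerSeries.map σ f, (hL d f).1 hf, (hdvd o f).2 h1, (hcf o f).2 h2⟩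
    · rintro o ⟨f, hf, h1, h2⟩
      obtain ⟨g, rfl⟩ := hbij.2 f
      exact ⟨g, (hL d g).2 hf, (hdvd o g).1 h1, (hcf o g).1 h2⟩
  have hfin : ∀ d, FiniteDimensional k (L d) := by
    intro d
    have := hA d
    refine D_fin_of_od (L d) ?_
    rw [hod]
    exact (D_card_od (A d)).1
  refine ⟨L, ?_, hfin, fun d => ?_⟩
  · rw [← hσ]
    exact hL
  · have := hA d
    have := hfin d
    rw [← (D_card_od (L d)).2, ← (D_card_od (A d)).2, hod]

end Pool.Agent.Lib.MP_1e3e9c_agF
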