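import Pool.Agent.Lib.MP_1e3e9c_agF.D1

/-! LEAF D12 (medium).  For large `d` every monomial of weight `d` is divisible by some `x_i^q`.

PROOF.  Let `I = {i | v i ≠ 0}`, `m₀` of D1 for `I`, `L = 0`, and `d = m₀ + ∑ i, w i * q`.  `y = aeval g (X^β)` for `β` of D1 of weight `d` with support in `I`: the constant coefficient is `∏ v i ^ β i ≠ 0` (`β i = 0` for `v i = 0`).
Let `u = aeval g F`, `F` weighted homogeneous of weight `d`.  For every `α ∈ F.support`: `∑ w i α i = d ≥ ∑ w i q > ∑ w i (q - 1)`, so there is `i` with `q ≤ α i`; choose one, `ι α`.  Let `F_i = ∑_(α ∈ F.support, ι α = i) monomial (α - q e_i) (coeff α F)`, of weight `d - w i q`, `F = ∑ i, X_i^q F_i`, and `c i = aeval g F_i`. -/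

set_option autoImplicit false

namespace Pool.Agent.Lib.MP_1e3e9c_agF

theorem D_bpf {k : Type} [Field k] {n : ℕ} {w : Fin (n + 1) → ℕ} (hw : ∀ i, 0 < w i)
    {v : Fin (n + 1) → k} (hG : ∀ d : ℕ, (∀ i, v i ≠ 0 → d ∣ w i) → d = 1)
    (g : Fin (n + 1) → PowerSeries k) (hg : ∀ i, PowerSeries.constantCoeff (g i) = v i) (q : ℕ)
    (hq : 0 < q) :
    ∃ (d : ℕ) (y : PowerSeries k), y ∈ Hm w g d ∧ PowerSeries.constantCoeff y ≠ 0 ∧
      (∀ i, w i * q ≤ d) ∧ ∀ u ∈ Hm w g d, ∃ c : Fin (n + 1) → PowerSeries k,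
        (∀ i, c i ∈ Hm w g (d - w i * q)) ∧ u = ∑ i, g i ^ q * c i := by
  classical
  have hI : ∀ d : ℕ, (∀ i ∈ Finset.univ.filter (fun i => v i ≠ 0), d ∣ w i) → d = 1 := by
    intro d hd
    exact hG d (fun i hi => hd i (by simp [hi]))
  obtain ⟨m₀, hm₀⟩ := D_exps w (Finset.univ.filter (fun i => v i ≠ 0)) hI 0
  obtain ⟨β, hβ0, -, hβ⟩ := hm₀ (m₀ + ∑ i, w i * q) (Nat.le_add_right _ _)
  refine ⟨m₀ + ∑ i, w i * q,
    MvPolynomial.aeval g (MvPolynomial.monomial (Finsupp.equivFunOnFinite.symm β) (1 : k)),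
    ?_, ?_, ?_, ?_⟩
  · refine mem_Hm.2 ⟨_, MvPolynomial.isWeightedHomogeneous_monomial w _ _ ?_, rfl⟩
    rw [Finsupp.weight_eq_sum, ← hβ]
    refine Finset.sum_congr rfl (fun i _ => ?_)
    simp only [Finsupp.equivFunOnFinite_symm_apply_apply, smul_eq_mul]
    exact mul_comm _ _
  · rw [MvPolynomial.aeval_monomial, map_one, one_mul, Finsupp.prod, map_prod]
    refine Finset.prod_ne_zero_iff.2 (fun i hi => ?_)
    rw [map_pow, hg]
    refine pow_ne_zero _ ?_
    intro h0
    have h1 : β i = 0 := hβ0 i (by simp [h0])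
    rw [Finsupp.mem_support_iff, Finsupp.equivFunOnFinite_symm_apply_apply] at hi
    exact hi h1
  · intro i
    have h1 : w i * q ≤ ∑ i, w i * q :=
      Finset.single_le_sum (f := fun i => w i * q) (fun j _ => Nat.zero_le _) (Finset.mem_univ i)
    omega
  · intro u hu
    obtain ⟨F, hF, rfl⟩ := mem_Hm.1 hu
    have hex : ∀ α ∈ F.support, ∃ i, q ≤ α i := by
      intro α hα
      by_contra hcon
      push Not at hcon
      have h1 := hF (MvPolynomial.mem_support_iff.1 hα)
      rw [Finsupp.weight_eq_sum] at h1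
      have h2 : ∑ i, α i • w i < ∑ i, w i * q := by
        refine Finset.sum_lt_sum_of_nonempty Finset.univ_nonempty (fun i _ => ?_)
        rw [smul_eq_mul, mul_comm]
        exact Nat.mul_lt_mul_of_pos_left (hcon i) (hw i)
      omega
    choose! ι hι using hex
    have hwt : ∀ α ∈ F.support, Finsupp.weight w (α - Finsupp.single (ι α) q) =
        m₀ + ∑ i, w i * q - w (ι α) * q := by
      intro α hα
      have h1 := hF (MvPolynomial.mem_support_iff.1 hα)
      have h2 : α - Finsupp.single (ι α) q + Finsupp.single (ι α) q = α :=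
        tsub_add_cancel_of_le (Finsupp.single_le_iff.2 (hι α hα))
      have h3 : Finsupp.weight w (α - Finsupp.single (ι α) q) + q * w (ι α) =
          m₀ + ∑ i, w i * q := by
        rw [← h1]
        conv_rhs => rw [← h2]
        rw [map_add, Finsupp.weight_single, smul_eq_mul]
      rw [mul_comm (w (ι α)) q]
      omega
    refine ⟨fun i => ∑ α ∈ F.support with ι α = i, MvPolynomial.aeval g
      (MvPolynomial.monomial (α - Finsupp.single i q) (MvPolynomial.coeff α F)), ?_, ?_⟩
    · intro i
      refine Submodule.sum_mem _ (fun α hα => ?_)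
      rw [Finset.mem_filter] at hα
      obtain ⟨h1, rfl⟩ := hα
      exact mem_Hm.2 ⟨_, MvPolynomial.isWeightedHomogeneous_monomial w _ _ (hwt α h1), rfl⟩
    · have h1 : ∀ i, g i ^ q * (∑ α ∈ F.support with ι α = i, MvPolynomial.aeval g
          (MvPolynomial.monomial (α - Finsupp.single i q) (MvPolynomial.coeff α F))) =
          ∑ α ∈ F.support with ι α = i, MvPolynomial.aeval g
            (MvPolynomial.monomial α (MvPolynomial.coeff α F)) := by
        intro i
        rw [Finset.mul_sum]
        refine Finset.sum_congr rfl (fun α hα => ?_)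
        rw [Finset.mem_filter] at hα
        obtain ⟨h1, rfl⟩ := hα
        have h2 : Finsupp.single (ι α) q + (α - Finsupp.single (ι α) q) = α :=
          add_tsub_cancel_of_le (Finsupp.single_le_iff.2 (hι α h1))
        conv_rhs => rw [← h2]
        rw [← one_mul (MvPolynomial.coeff (Finsupp.single (ι α) q + (α - Finsupp.single (ι α) q)) F),
          ← MvPolynomial.monomial_mul, map_mul, h2]
        congr 1
        rw [MvPolynomial.aeval_monomial, map_one, one_mul,
          Finsupp.prod_single_index (by rw [pow_zero])]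
      simp only [h1]
      rw [Finset.sum_fiberwise F.support ι (fun α => MvPolynomial.aeval g
        (MvPolynomial.monomial α (MvPolynomial.coeff α F))), ← map_sum,
        MvPolynomial.support_sum_monomial_coeff]

end Pool.Agent.Lib.MP_1e3e9c_agF
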