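import Mathlib

/-! LEAF D9 (medium-, Mathlib only).  The substitution `X ↦ X^q`, `q = p^s`, of power series in characteristic `p`.

PROOF.  `E g` = the series with the coefficient `coeff (j / q) g` at `j` if `q ∣ j`, `0` otherwise (`PowerSeries.mk`), or `PowerSeries.subst (X ^ q)`, or `MvPowerSeries.expand`/`PowerSeries.expand` if it is in Mathlib.  It is a `k`-algebra homomorphism (antidiagonal sums), with the same constant coefficient (`q > 0`).
The Frobenius: `g ^ q` has the coefficients `(coeff (j / q) g) ^ q` at the `j` divisible by `q` and `0` at the others: for polynomials `Polynomial.expand_char`/`Polynomial.map_iterateFrobenius_expand`; for a power series compare the coefficients of degree `< M`: `g = (trunc M g : PowerSeries k) + X^M h`, `(a + b)^q = a^q + b^q` (`add_pow_char_pow`), so modulo `X^M` it is the statement for the polynomial `trunc M g`. -/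

set_option autoImplicit false

namespace Pool.Agent.Lib.MP_1e3e9c_agF

theorem D_expand {k : Type} [Field k] {p : ℕ} [Fact p.Prime] [CharP k p] (s : ℕ) :
    ∃ E : PowerSeries k →ₐ[k] PowerSeries k,
      (∀ g, PowerSeries.constantCoeff (E g) = PowerSeries.constantCoeff g) ∧
      ∀ g, PowerSeries.map (iterateFrobenius k p s) (E g) = g ^ p ^ s := by
  have hp : p ≠ 0 := (Fact.out : p.Prime).ne_zero
  refine ⟨PowerSeries.expand (p ^ s) (pow_ne_zero s hp), fun g => ?_, fun g => ?_⟩
  · exact PowerSeries.constantCoeff_expand (p ^ s) (pow_ne_zero s hp) g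
  · exact MvPowerSeries.map_iterateFrobenius_expand p hp g s

end Pool.Agent.Lib.MP_1e3e9c_agF
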