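import Pool.Agent.Lib.MP_1e3e9c_agF.FDefs
import Pool.Agent.Lib.MP_1e3e9c_agF.D9
import Pool.Agent.Lib.MP_1e3e9c_agF.D11
import Pool.Agent.Lib.MP_1e3e9c_agF.D12

/-! LEAF D13 (medium).  Assembly of `frob_datum` from D9, D11, D12.

PROOF.  `Ad w g d` is `Hm w g d` of DDefs (`rfl`).  It is finite dimensional: the weighted homogeneous polynomials of weight `d` are a finite dimensional space, since all weights are positive (finitely many monomials: every exponent is at most `d`). `σ = PowerSeries.map (iterateFrobenius k p s)`, `q = p^s`; `L` of `D_root` (D11) for `A = Ad w g`, `E` of `D_expand` (D9), `f i = E (g i)`, so `σ (f i) = g i ^ q`.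
Lsys: `σ 1 = 1 ∈ Ad 0` (the polynomial `1`); `σ (x y) = σ x σ y` and `Hm_mul`; `σ (f i) = g i ^ q = aeval g (X_i ^ q) ∈ Ad (w i q)`; `aeval f P = E (aeval g P) = 0` (`MvPolynomial.aeval` and the algebra homomorphism `E`: `MvPolynomial.map_aeval`/`MvPolynomial.aeval_algHom..`).
Sections: if `f i ^ M δ ∈ L (d + w i M q)` for all `i` put `δ' = σ δ`: it is not `0` (`D_bij`), it has the same order (`D_ord`), and `g i ^ (q M) δ' = σ (f i ^ M δ) ∈ Ad (d + w i (q M))`: `Sat w g d δ'`.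
The last clause: `d`, `y` of D12 for `q`: take the `σ`-preimage of `y` (`D_bij`; the constant coefficient of `σ x` is the `q`-th power of that of `x`), and for `u ∈ L d`: `σ u = ∑ g i ^ q * c i`, `a i` = the preimage of `c i`, `σ (∑ f i * a i) = σ u`. -/

set_option autoImplicit false

namespace Pool.Agent.Lib.MP_1e3e9c_agF

open Pool.Agent.Lib.MP_1e3e9c_agR Pool.Agent.Lib.MP_1e3e9c_agM

private theorem D13_fin {k : Type} [Field k] {n : ℕ} {w : Fin (n + 1) → ℕ} (hw : ∀ i, 0 < w i)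
    (g : Fin (n + 1) → PowerSeries k) (d : ℕ) : FiniteDimensional k (Ad w g d) := by
  classical
  have hfin : Set.Finite {α : Fin (n + 1) →₀ ℕ | ∀ i, α i ≤ d} := by
    have h1 : Set.Finite {f : Fin (n + 1) → ℕ | ∀ i, f i ≤ d} := by
      refine (Set.Finite.pi' (fun _ : Fin (n + 1) => Set.finite_Iic d)).subset ?_
      intro f hf i
      exact hf i
    refine Set.Finite.of_finite_image (f := fun α : Fin (n + 1) →₀ ℕ => (α : Fin (n + 1) → ℕ)) (h1.subset ?_)
      (DFunLike.coe_injective.injOn)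
    rintro _ ⟨α, hα, rfl⟩
    exact hα
  have hle : MvPolynomial.weightedHomogeneousSubmodule k w d ≤
      Submodule.span k ((fun α => MvPolynomial.monomial α (1 : k)) '' {α : Fin (n + 1) →₀ ℕ | ∀ i, α i ≤ d}) := by
    intro F hF
    rw [MvPolynomial.mem_weightedHomogeneousSubmodule] at hF
    rw [MvPolynomial.as_sum F]
    refine Submodule.sum_mem _ fun α hα => ?_
    have h1 : MvPolynomial.monomial α (MvPolynomial.coeff α F) =
        MvPolynomial.coeff α F • MvPolynomial.monomial α (1 : k) := by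
      rw [MvPolynomial.smul_monomial, smul_eq_mul, mul_one]
    rw [h1]
    refine Submodule.smul_mem _ _ (Submodule.subset_span ⟨α, ?_, rfl⟩)
    intro i
    have h2 := hF (MvPolynomial.mem_support_iff.1 hα)
    rw [Finsupp.weight_apply, Finsupp.sum_fintype _ _ (fun _ => by rw [zero_smul])] at h2
    have h3 : α i • w i ≤ ∑ j, α j • w j :=
      Finset.single_le_sum (f := fun j => α j • w j) (fun _ _ => Nat.zero_le _) (Finset.mem_univ i)
    rw [h2, smul_eq_mul] at h3
    exact (Nat.le_mul_of_pos_right _ (hw i)).trans h3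
  have h2 : FiniteDimensional k (Submodule.span k
      ((fun α => MvPolynomial.monomial α (1 : k)) '' {α : Fin (n + 1) →₀ ℕ | ∀ i, α i ≤ d})) :=
    FiniteDimensional.span_of_finite k (hfin.image _)
  have h3 : FiniteDimensional k (MvPolynomial.weightedHomogeneousSubmodule k w d) :=
    Submodule.finiteDimensional_of_le hle
  unfold Ad
  exact Module.Finite.map _ _

theorem frob_datum {k : Type} [Field k] [IsAlgClosed k] {p : ℕ} [Fact p.Prime] [CharP k p] (s : ℕ)
    {n : ℕ} {w : Fin (n + 1) → ℕ} (hw : ∀ i, 0 < w i)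
    {S : Set (MvPolynomial (Fin (n + 1)) k)} {v : Fin (n + 1) → k} (hv0 : v ≠ 0) (hg : Gc w v)
    (g : Fin (n + 1) → PowerSeries k) (hg0 : ∀ i, PowerSeries.constantCoeff (g i) = v i)
    (hgS : ∀ P ∈ S, MvPolynomial.aeval g P = 0) :
    ∃ (L : ℕ → Submodule k (PowerSeries k)) (f : Fin (n + 1) → PowerSeries k),
      Lsys w S (p ^ s) L f ∧ (∀ i, PowerSeries.constantCoeff (f i) = v i) ∧
      (∀ d, FiniteDimensional k (L d)) ∧
      (∀ d, Module.finrank k (L d) = Module.finrank k (Ad w g d)) ∧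
      (∀ d δ, δ ≠ 0 → (∃ M : ℕ, ∀ i, f i ^ M * δ ∈ L (d + w i * M * p ^ s)) →
        ∃ δ' : PowerSeries k, δ' ≠ 0 ∧ Sat w g d δ' ∧ δ'.order = δ.order) ∧
      ∃ (d : ℕ) (y : PowerSeries k), y ∈ L d ∧ PowerSeries.constantCoeff y ≠ 0 ∧
        (∀ i, w i * p ^ s ≤ d) ∧ ∀ u ∈ L d, ∃ a : Fin (n + 1) → PowerSeries k,
          (∀ i, a i ∈ L (d - w i * p ^ s)) ∧ u = ∑ i, f i * a i := by
  classical
  obtain ⟨q, hqd⟩ : ∃ q, q = p ^ s := ⟨_, rfl⟩
  have hq : 0 < q := by
    rw [hqd]
    exact pow_pos (Fact.out : p.Prime).pos s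
  obtain ⟨E, hE0, hEσ⟩ := D_expand (k := k) (p := p) s
  obtain ⟨L, hL, hLfin, hLrank⟩ := D_root (p := p) s (fun d => Ad w g d) (fun d => D13_fin hw g d)
  have hbij := D_bij (k := k) (p := p) s
  rw [← hqd] at hEσ ⊢
  refine ⟨L, fun i => E (g i), ⟨?_, ?_, ?_, ?_⟩, fun i => (hE0 _).trans (hg0 i), hLfin, hLrank, ?_, ?_⟩
  · refine (hL 0 1).2 ?_
    rw [map_one]
    exact mem_Hm.2 ⟨1, MvPolynomial.isWeightedHomogeneous_one k w, map_one _⟩
  · intro a b x y hx hy
    refine (hL _ _).2 ?_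
    rw [map_mul]
    exact Hm_mul ((hL _ _).1 hx) ((hL _ _).1 hy)
  · intro i
    refine (hL _ _).2 ?_
    rw [hEσ]
    refine mem_Hm.2 ⟨MvPolynomial.X i ^ q, ?_, ?_⟩
    · have h1 := (MvPolynomial.isWeightedHomogeneous_X k w i).pow q
      rw [smul_eq_mul, mul_comm] at h1
      exact h1
    · rw [map_pow, MvPolynomial.aeval_X]
  · intro P hP
    have h1 := MvPolynomial.comp_aeval_apply g E P
    rw [hgS P hP, map_zero] at h1
    exact h1.symm
  · rintro d δ hδ ⟨M, hM⟩
    refine ⟨PowerSeries.map (iterateFrobenius k p s) δ, ?_, ⟨q * M, ?_⟩, D_ord s δ⟩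
    · intro h0
      exact hδ (hbij.1 (by rw [h0, map_zero]))
    · intro i
      have h1 := (hL _ _).1 (hM i)
      rw [map_mul, map_pow, hEσ, ← pow_mul, mul_assoc (w i) M q, mul_comm M q] at h1
      exact h1
  · obtain ⟨d, y, hy, hy0, hwd, hu⟩ := D_bpf hw hg g hg0 q hq
    obtain ⟨y', hy'⟩ := hbij.2 y
    refine ⟨d, y', (hL d y').2 (by rw [hy']; exact hy), ?_, hwd, ?_⟩
    · intro h0
      apply hy0
      rw [← hy', ← PowerSeries.coeff_zero_eq_constantCoeff_apply, PowerSeries.coeff_map,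
        PowerSeries.coeff_zero_eq_constantCoeff_apply, h0, map_zero]
    · intro u hud
      obtain ⟨c, hc, hsum⟩ := hu _ ((hL d u).1 hud)
      choose a ha using fun i => hbij.2 (c i)
      refine ⟨a, fun i => (hL _ _).2 (by rw [ha]; exact hc i), hbij.1 ?_⟩
      rw [hsum, map_sum]
      refine Finset.sum_congr rfl fun i _ => ?_
      rw [map_mul, hEσ, ha]

end Pool.Agent.Lib.MP_1e3e9c_agF
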