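import Mathlib

/-! Project F, LEAF E1: the height of the maximal ideal of the origin -/

set_option autoImplicit false

namespace Pool.Agent.Lib.MP_1e3e9c_agF

open Classical in
private noncomputable def E1_f (k ι : Type) [Field k] (s : Finset ι) : MvPolynomial ι k →ₐ[k] MvPolynomial ι k :=
  MvPolynomial.aeval fun i => if i ∈ s then 0 else MvPolynomial.X i

private theorem E1_in {k ι : Type} [Field k] {s : Finset ι} {i : ι} (h : i ∈ s) :
    E1_f k ι s (MvPolynomial.X i) = 0 := by
  unfold E1_f
  rw [MvPolynomial.aeval_X, if_pos h]

private theorem E1_out {k ι : Type} [Field k] {s : Finset ι} {i : ι} (h : i ∉ s) :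
    E1_f k ι s (MvPolynomial.X i) = MvPolynomial.X i := by
  unfold E1_f
  rw [MvPolynomial.aeval_X, if_neg h]

private theorem E1_card {k ι : Type} [Field k] (s : Finset ι) :
    (s.card : ℕ∞) ≤ (RingHom.ker (E1_f k ι s)).height := by
  classical
  induction s using Finset.induction_on with
  | empty =>
    rw [Finset.card_empty, Nat.cast_zero]
    exact zero_le
  | insert a s ha ih =>
    have h1 : (RingHom.ker (E1_f k ι s)).IsPrime := RingHom.ker_isPrime _
    have h2 : (RingHom.ker (E1_f k ι (insert a s))).IsPrime := RingHom.ker_isPrime _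
    have h3 : (E1_f k ι (insert a s)).comp (E1_f k ι s) = E1_f k ι (insert a s) := by
      refine MvPolynomial.algHom_ext fun i => ?_
      rw [AlgHom.comp_apply]
      by_cases hi : i ∈ s
      · rw [E1_in hi, map_zero, E1_in (Finset.mem_insert_of_mem hi)]
      · rw [E1_out hi]
    have h4 : RingHom.ker (E1_f k ι s) < RingHom.ker (E1_f k ι (insert a s)) := by
      refine lt_of_le_of_ne (fun f hf => ?_) fun h => ?_
      · rw [RingHom.mem_ker] at hf ⊢
        rw [← h3, AlgHom.comp_apply, hf, map_zero]
      · have h5 : (MvPolynomial.X a : MvPolynomial ι k) ∈ RingHom.ker (E1_f k ι (insert a s)) := by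
          rw [RingHom.mem_ker]
          exact E1_in (Finset.mem_insert_self a s)
        rw [← h, RingHom.mem_ker, E1_out ha] at h5
        exact MvPolynomial.X_ne_zero a h5
    have h6 := Ideal.height_add_one_le_of_lt_of_isPrime h4
    rw [Finset.card_insert_of_notMem ha, Nat.cast_add, Nat.cast_one]
    exact (add_le_add_left ih 1).trans h6

/-- PROOF. Enumerate `ι` (`Fintype.equivFin`), `d = Fintype.card ι`. For `j ≤ d` let `𝔭_j` be the kernel of the `k`-algebra endomorphism `X i ↦ 0` for the first `j` variables,
`X i ↦ X i` for the others: a prime ideal (`RingHom.ker_isPrime`, the target is a domain). `𝔭_0 < 𝔭_1 < ... < 𝔭_d = ker constantCoeff` (`X` of the variable number `j` is in `𝔭_(j+1)`, not in `𝔭_j`; and the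
endomorphism number `j + 1` factors through the one number `j`). So there is a strictly increasing chain of primes of length `d` ending at the prime ideal `ker constantCoeff`, and its height is at least `d`
(`Ideal.height_eq_primeHeight`, `Ideal.primeHeight`, `Order.height`, `Order.length_le_height`; or by induction with `Ideal.height_strict_mono`: `height 𝔭_j + 1 ≤ height 𝔭_(j+1)`).
(Another way: `MvPolynomial.ringKrullDim` and the known equality of height and dimension for maximal ideals, if it is in Mathlib.) -/
theorem card_le_height_origin {k ι : Type} [Field k] [Fintype ι] :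
    (Fintype.card ι : ℕ∞) ≤ (RingHom.ker (MvPolynomial.constantCoeff (R := k) (σ := ι))).height := by
  classical
  have h1 := E1_card (k := k) (Finset.univ : Finset ι)
  rw [Finset.card_univ] at h1
  refine h1.trans (Ideal.height_mono fun f hf => ?_)
  rw [RingHom.mem_ker] at hf ⊢
  have h2 : E1_f k ι Finset.univ = MvPolynomial.aeval fun _ => 0 := by
    refine MvPolynomial.algHom_ext fun i => ?_
    rw [E1_in (Finset.mem_univ i), MvPolynomial.aeval_X]
  rw [h2, MvPolynomial.aeval_zero'] at hf
  exact (map_eq_zero_iff _ (FaithfulSMul.algebraMap_injective k (MvPolynomial ι k))).1 hf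

end Pool.Agent.Lib.MP_1e3e9c_agF
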