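import Mathlib
import Pool.Agent.Lib.MP_1e3e9c_agF.E1

/-! Project F, LEAF E2: a place at infinity of an affine variety of positive dimension -/

set_option autoImplicit false

namespace Pool.Agent.Lib.MP_1e3e9c_agF

private theorem E2_hom {P : Type} [CommRing P] (𝔮 : Ideal P) (hq : 𝔮.IsPrime) :
    ∃ (L : Type) (_ : Field L) (_ : IsAlgClosed L) (φ : P →+* L), RingHom.ker φ = 𝔮 := by
  classical
  obtain ⟨φ, hφ⟩ : ∃ φ : P →+* AlgebraicClosure (FractionRing (P ⧸ 𝔮)),
      φ = (algebraMap (FractionRing (P ⧸ 𝔮)) (AlgebraicClosure (FractionRing (P ⧸ 𝔮)))).comp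
        ((algebraMap (P ⧸ 𝔮) (FractionRing (P ⧸ 𝔮))).comp (Ideal.Quotient.mk 𝔮)) := ⟨_, rfl⟩
  refine ⟨_, inferInstance, inferInstance, φ, ?_⟩
  ext p
  rw [RingHom.mem_ker, hφ, RingHom.comp_apply, RingHom.comp_apply,
    map_eq_zero_iff _ (algebraMap (FractionRing (P ⧸ 𝔮))
      (AlgebraicClosure (FractionRing (P ⧸ 𝔮)))).injective,
    map_eq_zero_iff _ (IsFractionRing.injective (P ⧸ 𝔮) (FractionRing (P ⧸ 𝔮))),
    Ideal.Quotient.eq_zero_iff_mem]

private theorem E2_val {k L : Type} [Field k] [Field L] [Algebra k L] {z : L}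
    (hz : Transcendental k z) :
    ∃ A : ValuationSubring L, (∀ a : k, algebraMap k L a ∈ A) ∧ z ∉ A := by
  have hz0 : z ≠ 0 := by
    rintro rfl
    exact hz isAlgebraic_zero
  have hmem : z⁻¹ ∈ (Algebra.adjoin k {z⁻¹}).toSubring :=
    Algebra.subset_adjoin (Set.mem_singleton _)
  obtain ⟨B, hB⟩ : ∃ B : Subring L, B = (Algebra.adjoin k {z⁻¹}).toSubring := ⟨_, rfl⟩
  rw [← hB] at hmem
  have hBmem : ∀ y : L, y ∈ B → y ∈ Algebra.adjoin k {z⁻¹} := fun y hy => by
    rw [hB] at hy
    exact hy
  have hI : Ideal.span {(⟨z⁻¹, hmem⟩ : B)} ≠ ⊤ := by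
    intro htop
    rw [Ideal.eq_top_iff_one, Ideal.mem_span_singleton'] at htop
    obtain ⟨b, hb⟩ := htop
    have h1 : (b : L) * z⁻¹ = 1 := congrArg Subtype.val hb
    have h2 : (b : L) ∈ Algebra.adjoin k {z⁻¹} := hBmem _ b.2
    rw [Algebra.adjoin_singleton_eq_range_aeval] at h2
    obtain ⟨p, hp⟩ := h2
    have h4 : Polynomial.aeval z⁻¹ p = (b : L) := hp
    have h5 : IsAlgebraic k z⁻¹ := by
      refine ⟨p * Polynomial.X - 1, ?_, ?_⟩
      · intro h6
        have h7 := congrArg (fun q => Polynomial.coeff q 0) h6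
        simp at h7
      · rw [map_sub, map_mul, Polynomial.aeval_X, map_one, h4, h1, sub_self]
    have h6 : IsAlgebraic k z := by
      have h7 := h5.inv
      rwa [inv_inv] at h7
    exact hz h6
  obtain ⟨A, hA, hAI⟩ := Ideal.image_subset_nonunits_valuationSubring _ hI
  refine ⟨A, fun a => hA ?_, fun hzA => ?_⟩
  · rw [hB]
    exact Subalgebra.algebraMap_mem _ a
  · have h1 : z⁻¹ ∈ A.nonunits :=
      hAI ⟨⟨z⁻¹, hmem⟩, Ideal.subset_span (Set.mem_singleton _), rfl⟩
    rw [ValuationSubring.mem_nonunits_iff] at h1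
    have h2 : A.valuation z ≤ 1 := (A.valuation_le_one_iff z).2 hzA
    have h3 : A.valuation z * A.valuation z⁻¹ = 1 := by
      rw [← map_mul, mul_inv_cancel₀ hz0, map_one]
    have h4 : A.valuation z * A.valuation z⁻¹ < 1 :=
      lt_of_le_of_lt (mul_le_mul' h2 le_rfl) (by rw [one_mul]; exact h1)
    exact absurd h3 h4.ne

/-- PROOF. `R = MvPolynomial ι k ⧸ 𝔭` is a domain; `L` the algebraic closure of its fraction field (`AlgebraicClosure (FractionRing R)`), `x α` the image of `X α`: `aeval x q` is the image of the class of `q`, so it is zero iff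
`q ∈ 𝔭` (injectivity of `R → FractionRing R → AlgebraicClosure`). If all `x α` were algebraic over `k`, then all `x α` would be in the image of `k` (`k` algebraically closed: `IsAlgClosed.algebraMap_surjective_of_isIntegral'`-like, or
the minimal polynomial has degree one): `x α = algebraMap k L (a α)`, so `X α - C (a α) ∈ 𝔭 ≤ ker constantCoeff`, `a α = 0`, all `X α` are in `𝔭`, so `𝔭 = ker constantCoeff` (a polynomial with
constant coefficient zero is in the ideal generated by the variables: `MvPolynomial.idealOfVars`/`mem_ideal_span_X_image`, or: `q ∈ ker` gives `aeval x q = algebraMap (constantCoeff q) = 0`), contradiction to `hh` and `card_le_height_origin`.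
So some `z = x α` is transcendental over `k`, in particular `z ≠ 0`. Let `B = Algebra.adjoin k {z⁻¹}` (as a subring of `L`): the evaluation `Polynomial k → L` at `z⁻¹` is injective (`z⁻¹` is transcendental), so `z⁻¹` is not invertible in `B`: there is a maximal ideal of `B` which contains
`z⁻¹`; let `A` be a valuation subring of `L` which dominates the localization of `B` at it (`LocalSubring.exists_le_valuationSubring`, or `exists_factor_valuationRing`; in the same way as in M2, M4 of
the folder `MP_1e3e9c_agM`): `k ⊆ B ⊆ A` and `z⁻¹` is in the maximal ideal of `A`, so `z ∉ A`. -/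
theorem exists_place {k ι : Type} [Field k] [IsAlgClosed k] [Fintype ι] (𝔭 : Ideal (MvPolynomial ι k))
    (hp : 𝔭.IsPrime) (h0 : 𝔭 ≤ RingHom.ker (MvPolynomial.constantCoeff (R := k) (σ := ι)))
    (hh : 𝔭.height < (Fintype.card ι : ℕ∞)) :
    ∃ (L : Type) (_ : Field L) (_ : IsAlgClosed L) (_ : Algebra k L) (A : ValuationSubring L) (x : ι → L),
      (∀ a : k, algebraMap k L a ∈ A) ∧ (∀ q, MvPolynomial.aeval x q = 0 ↔ q ∈ 𝔭) ∧ ∃ α, x α ∉ A := by
  classical
  obtain ⟨L, hL, hLc, φ, hker⟩ := E2_hom 𝔭 hp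
  let := hL
  let : Algebra k L := (φ.comp MvPolynomial.C).toAlgebra
  have halg : ∀ a : k, algebraMap k L a = φ (MvPolynomial.C a) := fun a => rfl
  have haev : ∀ q : MvPolynomial ι k,
      MvPolynomial.aeval (fun x => φ (MvPolynomial.X x)) q = φ q := by
    intro q
    have h1 : ((MvPolynomial.aeval (fun x => φ (MvPolynomial.X x)) :
        MvPolynomial ι k →ₐ[k] L) : MvPolynomial ι k →+* L) = φ := by
      refine MvPolynomial.ringHom_ext (fun a => ?_) fun x => ?_
      · exact MvPolynomial.aeval_C _ a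
      · exact MvPolynomial.aeval_X _ x
    exact RingHom.congr_fun h1 q
  have hker' : ∀ q, φ q = 0 ↔ q ∈ 𝔭 := fun q => by rw [← RingHom.mem_ker, hker]
  obtain ⟨α, hα⟩ : ∃ α, Transcendental k (φ (MvPolynomial.X α)) := by
    by_contra hcon
    have hcon' : ∀ α, IsAlgebraic k (φ (MvPolynomial.X α)) := fun α => by
      by_contra h1
      exact hcon ⟨α, h1⟩
    have h0x : ∀ α, φ (MvPolynomial.X α) = 0 := by
      intro α
      have h1 := IsAlgClosed.degree_eq_one_of_irreducible k
        (minpoly.irreducible (hcon' α).isIntegral)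
      obtain ⟨a, ha⟩ := minpoly.mem_range_of_degree_eq_one k _ h1
      have h2 : MvPolynomial.X α - MvPolynomial.C a ∈ 𝔭 := by
        rw [← hker', map_sub, ← halg, ha, sub_self]
      have h3 := RingHom.mem_ker.1 (h0 h2)
      rw [map_sub, MvPolynomial.constantCoeff_X, MvPolynomial.constantCoeff_C, zero_sub,
        neg_eq_zero] at h3
      rw [← ha, h3, map_zero]
    have h1 : RingHom.ker (MvPolynomial.constantCoeff (R := k) (σ := ι)) ≤ 𝔭 := by
      intro q hq
      rw [← hker', ← haev]
      have h2 : (fun x => φ (MvPolynomial.X x)) = (0 : ι → L) := funext h0x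
      rw [h2, MvPolynomial.aeval_zero, RingHom.mem_ker.1 hq, map_zero]
    have h2 := le_antisymm h0 h1
    rw [h2] at hh
    exact absurd card_le_height_origin (not_le.2 hh)
  obtain ⟨A, hA, hzA⟩ := E2_val hα
  exact ⟨L, hL, hLc, inferInstance, A, fun x => φ (MvPolynomial.X x), hA,
    fun q => by rw [haev, hker'], α, hzA⟩

end Pool.Agent.Lib.MP_1e3e9c_agF
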