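import Mathlib

/-! Project F, LEAF E3: freeness of base points is an open condition -/

set_option autoImplicit false

namespace Pool.Agent.Lib.MP_1e3e9c_agF

private theorem E3_smul {k L : Type} [Field k] [Field L] [Algebra k L] (c : k) (u : PowerSeries k) :
    PowerSeries.map (algebraMap k L) (c • u) =
      PowerSeries.C (algebraMap k L c) * PowerSeries.map (algebraMap k L) u := by
  rw [PowerSeries.smul_eq_C_mul, map_mul, PowerSeries.map_C]

/-- PROOF. `u_1, ..., u_s` a basis of `M` (`Module.finBasis`); by `hs` `u_j = ∑ i, f i * a j i` with `a j i ∈ N i`. For `α ∈ ι`: `∑ i, b α i * a j i ∈ M` (`hb`), so it is `∑ j', B α j j' • u_j'` with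
`B α j j' ∈ k`. With the matrix `T = 1 + ∑ α, X α • (B α).map C` over `MvPolynomial ι k`: for all `j`, `∑ i, (f i + ∑ α, x α b α i) * a j i = ∑ j', T(x) j j' u_j'` in `L[[t]]`. The constant coefficient of `det T` is
`det 1 = 1` (`RingHom.map_det` for `constantCoeff`), so by `hx` (its contraposition) `aeval x (det T) ≠ 0`, i.e. `det T(x) ≠ 0` in the field `L`. So `T(x)` is invertible, and (the image of) every `u_j'`, hence `y`, is an `L`-linear combination of the
`∑ i, r i * a j i`: `y = ∑ j, c_j ∑ i, r i * a j i = ∑ i, (∑ j, c_j • a j i) * r i`. -/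
theorem bpf_gen {k L : Type} [Field k] [Field L] [Algebra k L] {n : ℕ} {ι : Type} [Fintype ι]
    (f : Fin (n + 1) → PowerSeries k) (b : ι → Fin (n + 1) → PowerSeries k)
    (N : Fin (n + 1) → Submodule k (PowerSeries k)) (M : Submodule k (PowerSeries k)) [FiniteDimensional k M]
    (hb : ∀ α i, ∀ a ∈ N i, b α i * a ∈ M)
    (hs : ∀ u ∈ M, ∃ a : Fin (n + 1) → PowerSeries k, (∀ i, a i ∈ N i) ∧ u = ∑ i, f i * a i)
    (x : ι → L) (hx : ∀ q : MvPolynomial ι k, MvPolynomial.aeval x q = 0 → MvPolynomial.constantCoeff q = 0)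
    (y : PowerSeries k) (hy : y ∈ M) :
    ∃ a : Fin (n + 1) → PowerSeries L,
      (∀ i, a i ∈ Submodule.span L ((fun u : PowerSeries k => PowerSeries.map (algebraMap k L) u) '' (N i : Set (PowerSeries k)))) ∧
      PowerSeries.map (algebraMap k L) y = ∑ i, a i * (PowerSeries.map (algebraMap k L) (f i) +
        ∑ α, PowerSeries.C (x α) * PowerSeries.map (algebraMap k L) (b α i)) := by
  classical
  have hu : ∀ j : Fin (Module.finrank k M), ((Module.finBasis k M j : M) : PowerSeries k) ∈ M := fun j => (Module.finBasis k M j).2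
  choose A hA hA2 using fun j => hs _ (hu j)
  have hvec : ∀ α j, ∑ i, b α i * A j i ∈ M := fun α j => Submodule.sum_mem _ fun i _ => hb α i _ (hA j i)
  let β : ι → Fin (Module.finrank k M) → Fin (Module.finrank k M) → k := fun α j j' =>
    (Module.finBasis k M).repr ⟨∑ i, b α i * A j i, hvec α j⟩ j'
  have hβ : ∀ α j, ∑ i, b α i * A j i = ∑ j', β α j j' • ((Module.finBasis k M j' : M) : PowerSeries k) := by
    intro α j
    have h1 := congrArg (fun z : M => (z : PowerSeries k))
      ((Module.finBasis k M).sum_repr ⟨∑ i, b α i * A j i, hvec α j⟩)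
    simp only [Submodule.coe_sum, Submodule.coe_smul] at h1
    exact h1.symm
  let T : Matrix (Fin (Module.finrank k M)) (Fin (Module.finrank k M)) (MvPolynomial ι k) :=
    Matrix.of fun j j' => (if j = j' then 1 else 0) + ∑ α, MvPolynomial.X α * MvPolynomial.C (β α j j')
  have hTd : ∀ j j', T j j' = (if j = j' then 1 else 0) + ∑ α, MvPolynomial.X α * MvPolynomial.C (β α j j') :=
    fun _ _ => rfl
  have hT1 : MvPolynomial.constantCoeff T.det = 1 := by
    rw [RingHom.map_det]
    have h1 : (MvPolynomial.constantCoeff : MvPolynomial ι k →+* k).mapMatrix T = 1 := by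
      ext j j'
      rw [RingHom.mapMatrix_apply, Matrix.map_apply, hTd, map_add, map_sum]
      have h2 : ∑ α, (MvPolynomial.constantCoeff : MvPolynomial ι k →+* k) (MvPolynomial.X α * MvPolynomial.C (β α j j')) = 0 := by
        refine Finset.sum_eq_zero fun α _ => ?_
        rw [map_mul, MvPolynomial.constantCoeff_X, zero_mul]
      rw [h2, add_zero, Matrix.one_apply]
      split_ifs
      · rw [map_one]
      · rw [map_zero]
    rw [h1, Matrix.det_one]
  have hT2 : MvPolynomial.aeval x T.det ≠ 0 := by
    intro h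
    have h1 := hx _ h
    rw [hT1] at h1
    exact one_ne_zero h1
  let Tx : Matrix (Fin (Module.finrank k M)) (Fin (Module.finrank k M)) L :=
    Matrix.of fun j j' => (if j = j' then 1 else 0) + ∑ α, x α * algebraMap k L (β α j j')
  have hTxd : ∀ j j', Tx j j' = (if j = j' then 1 else 0) + ∑ α, x α * algebraMap k L (β α j j') :=
    fun _ _ => rfl
  have hTx : Tx.det = MvPolynomial.aeval x T.det := by
    have h1 : (MvPolynomial.aeval x : MvPolynomial ι k →ₐ[k] L) T.det =
        ((MvPolynomial.aeval x : MvPolynomial ι k →ₐ[k] L).mapMatrix T).det := AlgHom.map_det _ _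
    rw [h1]
    congr 1
    ext j j'
    rw [AlgHom.mapMatrix_apply, Matrix.map_apply, hTd, hTxd, map_add, map_sum]
    congr 1
    · split_ifs
      · rw [map_one]
      · rw [map_zero]
    · refine Finset.sum_congr rfl fun α _ => ?_
      rw [map_mul, MvPolynomial.aeval_X, MvPolynomial.aeval_C]
  have hunit : IsUnit Tx.det := by
    rw [hTx]
    exact isUnit_iff_ne_zero.2 hT2
  have hinv : Tx⁻¹ * Tx = 1 := Matrix.nonsing_inv_mul _ hunit
  let r : Fin (n + 1) → PowerSeries L := fun i => PowerSeries.map (algebraMap k L) (f i) +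
        ∑ α, PowerSeries.C (x α) * PowerSeries.map (algebraMap k L) (b α i)
  let U : Fin (Module.finrank k M) → PowerSeries L := fun j =>
    PowerSeries.map (algebraMap k L) ((Module.finBasis k M j : M) : PowerSeries k)
  have hE : ∀ j, ∑ i, PowerSeries.map (algebraMap k L) (A j i) * r i = ∑ j', PowerSeries.C (Tx j j') * U j' := by
    intro j
    have h1 : ∑ i, PowerSeries.map (algebraMap k L) (A j i) * r i =
        PowerSeries.map (algebraMap k L) (∑ i, f i * A j i) +
          ∑ α, PowerSeries.C (x α) * PowerSeries.map (algebraMap k L) (∑ i, b α i * A j i) := by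
      rw [map_sum]
      have h2 : ∀ α, PowerSeries.C (x α) * PowerSeries.map (algebraMap k L) (∑ i, b α i * A j i) =
          ∑ i, PowerSeries.C (x α) * (PowerSeries.map (algebraMap k L) (b α i) *
            PowerSeries.map (algebraMap k L) (A j i)) := by
        intro α
        rw [map_sum, Finset.mul_sum]
        refine Finset.sum_congr rfl fun i _ => ?_
        rw [map_mul]
      rw [Finset.sum_congr rfl fun α _ => h2 α, Finset.sum_comm, ← Finset.sum_add_distrib]
      refine Finset.sum_congr rfl fun i _ => ?_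
      show _ * (PowerSeries.map (algebraMap k L) (f i) +
        ∑ α, PowerSeries.C (x α) * PowerSeries.map (algebraMap k L) (b α i)) = _
      rw [map_mul, mul_add, Finset.mul_sum]
      congr 1
      · exact mul_comm _ _
      · refine Finset.sum_congr rfl fun α _ => ?_
        ring
    rw [h1, ← hA2 j]
    have h3 : ∀ α, PowerSeries.C (x α) * PowerSeries.map (algebraMap k L) (∑ i, b α i * A j i) =
        ∑ j', PowerSeries.C (x α * algebraMap k L (β α j j')) * U j' := by
      intro α
      rw [hβ α j, map_sum, Finset.mul_sum]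
      refine Finset.sum_congr rfl fun j' _ => ?_
      rw [E3_smul, ← mul_assoc, ← map_mul]
    rw [Finset.sum_congr rfl fun α _ => h3 α, Finset.sum_comm]
    have h4 : U j = ∑ j', PowerSeries.C (if j = j' then (1 : L) else 0) * U j' := by
      rw [Finset.sum_eq_single j]
      · rw [if_pos rfl, map_one, one_mul]
      · intro j' _ hj
        rw [if_neg (Ne.symm hj), map_zero, zero_mul]
      · intro h
        exact absurd (Finset.mem_univ _) h
    show U j + _ = _
    rw [h4, ← Finset.sum_add_distrib]
    refine Finset.sum_congr rfl fun j' _ => ?_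
    show _ = PowerSeries.C ((if j = j' then (1 : L) else 0) + ∑ α, x α * algebraMap k L (β α j j')) * U j'
    rw [map_add, map_sum, add_mul, Finset.sum_mul]
  have hU : ∀ j', U j' = ∑ j, PowerSeries.C (Tx⁻¹ j' j) * ∑ i, PowerSeries.map (algebraMap k L) (A j i) * r i := by
    intro j'
    have h1 : ∑ j, PowerSeries.C (Tx⁻¹ j' j) * ∑ i, PowerSeries.map (algebraMap k L) (A j i) * r i =
        ∑ l, PowerSeries.C ((Tx⁻¹ * Tx) j' l) * U l := by
      have h2 : ∀ j, PowerSeries.C (Tx⁻¹ j' j) * ∑ i, PowerSeries.map (algebraMap k L) (A j i) * r i =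
          ∑ l, PowerSeries.C (Tx⁻¹ j' j * Tx j l) * U l := by
        intro j
        rw [hE j, Finset.mul_sum]
        refine Finset.sum_congr rfl fun l _ => ?_
        rw [← mul_assoc, ← map_mul]
      rw [Finset.sum_congr rfl fun j _ => h2 j, Finset.sum_comm]
      refine Finset.sum_congr rfl fun l _ => ?_
      rw [Matrix.mul_apply, map_sum, Finset.sum_mul]
    rw [h1, hinv, Finset.sum_eq_single j']
    · rw [Matrix.one_apply_eq, map_one, one_mul]
    · intro l _ hl
      rw [Matrix.one_apply_ne (Ne.symm hl), map_zero, zero_mul]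
    · intro h
      exact absurd (Finset.mem_univ _) h
  have hy2 : PowerSeries.map (algebraMap k L) y =
      ∑ j', PowerSeries.C (algebraMap k L ((Module.finBasis k M).repr ⟨y, hy⟩ j')) * U j' := by
    have h1 := congrArg (fun z : M => (z : PowerSeries k)) ((Module.finBasis k M).sum_repr ⟨y, hy⟩)
    simp only [Submodule.coe_sum, Submodule.coe_smul] at h1
    conv_lhs => rw [← h1]
    rw [map_sum]
    refine Finset.sum_congr rfl fun j' _ => ?_
    rw [E3_smul]
  let d : Fin (Module.finrank k M) → L := fun j =>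
    ∑ j', algebraMap k L ((Module.finBasis k M).repr ⟨y, hy⟩ j') * Tx⁻¹ j' j
  refine ⟨fun i => ∑ j, d j • PowerSeries.map (algebraMap k L) (A j i), ?_, ?_⟩
  · intro i
    exact Submodule.sum_mem _ fun j _ => Submodule.smul_mem _ _ (Submodule.subset_span ⟨A j i, hA j i, rfl⟩)
  · rw [hy2]
    have h1 : ∀ j', PowerSeries.C (algebraMap k L ((Module.finBasis k M).repr ⟨y, hy⟩ j')) * U j' =
        ∑ j, PowerSeries.C (algebraMap k L ((Module.finBasis k M).repr ⟨y, hy⟩ j') * Tx⁻¹ j' j) *
          ∑ i, PowerSeries.map (algebraMap k L) (A j i) * r i := by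
      intro j'
      rw [hU j', Finset.mul_sum]
      refine Finset.sum_congr rfl fun j _ => ?_
      rw [← mul_assoc, ← map_mul]
    rw [Finset.sum_congr rfl fun j' _ => h1 j', Finset.sum_comm]
    have h2 : ∀ j, ∑ j', PowerSeries.C (algebraMap k L ((Module.finBasis k M).repr ⟨y, hy⟩ j') * Tx⁻¹ j' j) *
          ∑ i, PowerSeries.map (algebraMap k L) (A j i) * r i =
        ∑ i, (d j • PowerSeries.map (algebraMap k L) (A j i)) * r i := by
      intro j
      rw [← Finset.sum_mul, ← map_sum, Finset.mul_sum]
      refine Finset.sum_congr rfl fun i _ => ?_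
      rw [PowerSeries.smul_eq_C_mul, mul_assoc]
    rw [Finset.sum_congr rfl fun j _ => h2 j, Finset.sum_comm]
    refine Finset.sum_congr rfl fun i _ => ?_
    rw [Finset.sum_mul]

end Pool.Agent.Lib.MP_1e3e9c_agF
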