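import Mathlib

/-! Project F, LEAF E4: the count -/

set_option autoImplicit false

namespace Pool.Agent.Lib.MP_1e3e9c_agF

/-- PROOF. `(1 - m / (2 W)) r W p^s = r (W - m / 2) p^s = r e p^s + r (m / 2) p^s` (`W = m + e > 0`), and `r (m / 2) p^s > (n + 1) (γ + 1)` for large `s` (`tendsto_pow_atTop_atTop_of_one_lt`, or
`pow_unbounded_of_one_lt`). -/
theorem exists_pow_large {p : ℕ} (hp : 2 ≤ p) {n e m W : ℕ} (hm : m + e = W) (hm0 : 0 < m) {r γ : ℝ} (hr : 0 < r) :
    ∃ s : ℕ, ∀ N : ℝ,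
      (1 - (m : ℝ) / (2 * W)) * r * W * (p : ℝ) ^ s - (n + 1) * (γ + 1) ≤ N → r * e * (p : ℝ) ^ s < N := by
  have hp1 : (1 : ℝ) < (p : ℝ) := by exact_mod_cast hp
  have hmR : (0 : ℝ) < (m : ℝ) := by exact_mod_cast hm0
  have hW : (0 : ℝ) < (W : ℝ) := by
    rw [← hm]
    push_cast
    positivity
  have hWe : (W : ℝ) = m + e := by
    rw [← hm]
    push_cast
    ring
  obtain ⟨s, hs⟩ := pow_unbounded_of_one_lt (((n : ℝ) + 1) * (γ + 1) / (r * m / 2)) hp1
  refine ⟨s, fun N hN => ?_⟩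
  rw [div_lt_iff₀ (by positivity)] at hs
  have h1 : (1 - (m : ℝ) / (2 * W)) * r * W * (p : ℝ) ^ s =
      r * e * (p : ℝ) ^ s + (p : ℝ) ^ s * (r * m / 2) := by
    have h2 : (1 - (m : ℝ) / (2 * W)) * W = e + m / 2 := by
      field_simp
      rw [hWe]
      ring
    calc (1 - (m : ℝ) / (2 * W)) * r * W * (p : ℝ) ^ s
        = ((1 - (m : ℝ) / (2 * W)) * W) * (r * (p : ℝ) ^ s) := by ring
      _ = r * e * (p : ℝ) ^ s + (p : ℝ) ^ s * (r * m / 2) := by rw [h2]; ring
  rw [h1] at hN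
  linarith

private theorem E4_gen {k V : Type} [Field k] [AddCommGroup V] [Module k V] (N : Submodule k V)
    [FiniteDimensional k N] (f : V →ₗ[k] k) :
    ∃ (d : ℕ) (u : Fin d → V), LinearIndependent k u ∧ (∀ j, u j ∈ N) ∧ (∀ j, f (u j) = 0) ∧
      Module.finrank k N ≤ d + 1 := by
  obtain ⟨φ, hφ⟩ : ∃ φ : N →ₗ[k] k, φ = f ∘ₗ N.subtype := ⟨_, rfl⟩
  have h1 := LinearMap.finrank_range_add_finrank_ker φ
  have h2 : Module.finrank k (LinearMap.range φ) ≤ 1 := by
    refine (Submodule.finrank_le _).trans ?_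
    rw [Module.finrank_self]
  have b := Module.finBasis k (LinearMap.ker φ)
  refine ⟨Module.finrank k (LinearMap.ker φ), fun j => (((b j : LinearMap.ker φ) : N) : V),
    ?_, fun j => ((b j : LinearMap.ker φ) : N).2, fun j => ?_, by omega⟩
  · have h3 : LinearMap.ker (N.subtype ∘ₗ (LinearMap.ker φ).subtype) = ⊥ := by
      rw [LinearMap.ker_eq_bot]
      exact (Submodule.injective_subtype N).comp (Submodule.injective_subtype _)
    exact b.linearIndependent.map' _ h3
  · have h3 := (b j).2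
    rw [LinearMap.mem_ker] at h3
    have h4 : φ (b j : LinearMap.ker φ) = f (((b j : LinearMap.ker φ) : N) : V) :=
      LinearMap.congr_fun hφ _
    exact h4.symm.trans h3

/-- PROOF. The kernel of `constantCoeff` restricted to `N` has codimension at most one (rank-nullity, the target `k` has dimension one); take a basis of it (`Module.finBasis`, `Submodule.subtype` is injective). -/
theorem exists_basis_zero {k : Type} [Field k] (N : Submodule k (PowerSeries k)) [FiniteDimensional k N] :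
    ∃ (d : ℕ) (u : Fin d → PowerSeries k), LinearIndependent k u ∧ (∀ j, u j ∈ N) ∧
      (∀ j, PowerSeries.constantCoeff (u j) = 0) ∧ Module.finrank k N ≤ d + 1 := by
  obtain ⟨d, u, h1, h2, h3, h4⟩ := E4_gen N (PowerSeries.coeff 0)
  refine ⟨d, u, h1, h2, fun j => ?_, h4⟩
  rw [← PowerSeries.coeff_zero_eq_constantCoeff_apply]
  exact h3 j

end Pool.Agent.Lib.MP_1e3e9c_agF
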