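import Mathlib
import Pool.Agent.Lib.MP_1e3e9c_agF.FDefs

/-! Project F, LEAF E5: power series with coefficients in a finite-dimensional space; coefficients in a valuation ring -/

set_option autoImplicit false

namespace Pool.Agent.Lib.MP_1e3e9c_agF

open Pool.Agent.Lib.MP_1e3e9c_agR Pool.Agent.Lib.MP_1e3e9c_agM

private theorem E5_iff {k L : Type} [Field k] [Field L] [Algebra k L] (a : PowerSeries L) (W : Submodule k L)
    (hW : W.FG) (h : ∀ l, PowerSeries.coeff l a ∈ W) : Fg k a := by
  unfold Fg
  have h1 : Submodule.span k (Set.range fun l => PowerSeries.coeff l a) ≤ W := by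
    rw [Submodule.span_le]
    rintro _ ⟨l, rfl⟩
    exact h l
  rw [Submodule.fg_iff_finiteDimensional] at hW ⊢
  exact Submodule.finiteDimensional_of_le h1

private theorem E5_mem {k L : Type} [Field k] [Field L] [Algebra k L] (a : PowerSeries L) (l : ℕ) :
    PowerSeries.coeff l a ∈ Submodule.span k (Set.range fun l => PowerSeries.coeff l a) :=
  Submodule.subset_span ⟨l, rfl⟩

private theorem E5_vec {k : Type} [Field k] {ι : Type} [Fintype ι] (b : ι → PowerSeries k)
    (hb : LinearIndependent k b) :
    Submodule.span k (Set.range fun l : ℕ => fun α => PowerSeries.coeff l (b α)) = ⊤ := by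
  classical
  by_contra hne
  obtain ⟨f, hf0, hf⟩ := Submodule.exists_le_ker_of_lt_top _ (lt_top_iff_ne_top.2 hne)
  apply hf0
  have h1 : ∀ v : ι → k, f v = ∑ α, v α * f (Pi.single α 1) := by
    intro v
    have e : v = ∑ α, v α • (Pi.single α (1 : k) : ι → k) := by
      funext β
      rw [Finset.sum_apply]
      simp [Pi.single_apply]
    conv_lhs => rw [e]
    rw [map_sum]
    refine Finset.sum_congr rfl fun α _ => ?_
    rw [map_smul, smul_eq_mul]
  have h2 : ∑ α, f (Pi.single α 1) • b α = 0 := by
    ext l
    rw [map_sum, map_zero]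
    have h3 : f (fun α => PowerSeries.coeff l (b α)) = 0 := hf (Submodule.subset_span ⟨l, rfl⟩)
    rw [h1] at h3
    rw [← h3]
    refine Finset.sum_congr rfl fun α _ => ?_
    rw [PowerSeries.coeff_smul, smul_eq_mul, mul_comm]
  have h4 := Fintype.linearIndependent_iff.1 hb _ h2
  ext α
  simpa using h4 α

/-- PROOF. `a = ∑ j, c j • map (u j)` (finite sum, `Submodule.mem_span_image_iff_exists_fun`-like or `Submodule.span_induction`), so every coefficient of `a` is in the `k`-span of the finitely many `c j`; a subspace of a finite-dimensional space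
is finitely generated (`Submodule.FG.of_le`-like for a Noetherian module: `IsNoetherian`). (Or: show that the series with `Fg` contain `map u` and are closed under addition and multiplication with scalars of `L`, then `span_induction`.) -/
theorem Fg_span {k L : Type} [Field k] [Field L] [Algebra k L] (N : Set (PowerSeries k)) (a : PowerSeries L)
    (ha : a ∈ Submodule.span L ((fun u : PowerSeries k => PowerSeries.map (algebraMap k L) u) '' N)) : Fg k a := by
  have key : ∃ W : Submodule k L, W.FG ∧ ∀ l, PowerSeries.coeff l a ∈ W := by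
    refine Submodule.span_induction (p := fun a _ => ∃ W : Submodule k L, W.FG ∧ ∀ l, PowerSeries.coeff l a ∈ W)
      ?_ ?_ ?_ ?_ ha
    · rintro _ ⟨u, _, rfl⟩
      refine ⟨Submodule.span k {1}, Submodule.fg_span_singleton 1, fun l => ?_⟩
      rw [PowerSeries.coeff_map, Submodule.mem_span_singleton]
      exact ⟨PowerSeries.coeff l u, by rw [Algebra.smul_def, mul_one]⟩
    · exact ⟨⊥, Submodule.fg_bot, fun l => by rw [map_zero]; exact Submodule.zero_mem _⟩
    · rintro x y _ _ ⟨W₁, h₁, hx⟩ ⟨W₂, h₂, hy⟩
      refine ⟨W₁ ⊔ W₂, h₁.sup h₂, fun l => ?_⟩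
      rw [map_add]
      exact Submodule.add_mem_sup (hx l) (hy l)
    · rintro c x _ ⟨W, hW, hx⟩
      refine ⟨W.map (LinearMap.mulLeft k c), hW.map _, fun l => ?_⟩
      rw [PowerSeries.coeff_smul, smul_eq_mul]
      exact ⟨_, hx l, rfl⟩
  obtain ⟨W, hW, h⟩ := key
  exact E5_iff a W hW h

/-- PROOF. The coefficients of `a * map y` are `k`-linear combinations of those of `a` (`PowerSeries.coeff_mul`, `Algebra.smul_def`). -/
theorem Fg_mul_map {k L : Type} [Field k] [Field L] [Algebra k L] (a : PowerSeries L) (ha : Fg k a) (y : PowerSeries k) :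
    Fg k (a * PowerSeries.map (algebraMap k L) y) := by
  refine E5_iff _ _ ha fun l => ?_
  rw [PowerSeries.coeff_mul]
  refine Submodule.sum_mem _ fun q _ => ?_
  rw [PowerSeries.coeff_map, mul_comm, ← Algebra.smul_def]
  exact Submodule.smul_mem _ _ (E5_mem a q.1)

/-- PROOF. `Fg_span` for `N = Set.univ`. -/
theorem Fg_gen {k L : Type} [Field k] [Field L] [Algebra k L] {ι : Type} [Fintype ι] (f : PowerSeries k)
    (b : ι → PowerSeries k) (x : ι → L) :
    Fg k (PowerSeries.map (algebraMap k L) f + ∑ α, PowerSeries.C (x α) * PowerSeries.map (algebraMap k L) (b α)) := by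
  refine E5_iff _ (Submodule.span k (insert 1 (Set.range x)))
    (Submodule.fg_span ((Set.finite_range x).insert 1)) fun l => ?_
  rw [map_add, map_sum, PowerSeries.coeff_map]
  refine Submodule.add_mem _ ?_ (Submodule.sum_mem _ fun α _ => ?_)
  · rw [← mul_one (algebraMap k L _), ← Algebra.smul_def]
    exact Submodule.smul_mem _ _ (Submodule.subset_span (Set.mem_insert _ _))
  · rw [PowerSeries.coeff_C_mul, PowerSeries.coeff_map, mul_comm, ← Algebra.smul_def]
    exact Submodule.smul_mem _ _ (Submodule.subset_span (Set.mem_insert_of_mem _ ⟨α, rfl⟩))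

/-- PROOF. The vectors `b α` of `k^ℕ` are independent, so finitely many coordinates `l_1, ..., l_s` suffice: the linear map `c ↦ (coeff_(l_t) (∑ c α • b α))_t` from `ι → k` is injective for some finite set of coordinates (the kernels for larger and larger
sets are a decreasing chain of subspaces of a finite-dimensional space with intersection zero; or: induction), so it has a left inverse (`LinearMap.exists_leftInverse_of_injective`): there are `Λ α t ∈ k` with
`∑ t, Λ α t * coeff_(l_t) (b β) = δ α β`. So `x α = ∑ t, algebraMap (Λ α t) * (coeff_(l_t) r - algebraMap (coeff_(l_t) f)) ∈ A`. -/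
theorem coef_mem {k L : Type} [Field k] [Field L] [Algebra k L] (A : ValuationSubring L)
    (hk : ∀ a : k, algebraMap k L a ∈ A) {ι : Type} [Fintype ι] (b : ι → PowerSeries k)
    (hb : LinearIndependent k b) (f : PowerSeries k) (x : ι → L)
    (h : ∀ l, PowerSeries.coeff l (PowerSeries.map (algebraMap k L) f +
      ∑ α, PowerSeries.C (x α) * PowerSeries.map (algebraMap k L) (b α)) ∈ A) (α : ι) : x α ∈ A := by
  classical
  have h1 : (Pi.single α (1 : k) : ι → k) ∈
      Submodule.span k (Set.range fun l : ℕ => fun α => PowerSeries.coeff l (b α)) := by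
    rw [E5_vec b hb]
    exact Submodule.mem_top
  have key : ∑ β, algebraMap k L ((Pi.single α (1 : k) : ι → k) β) * x β ∈ A := by
    refine Submodule.span_induction (p := fun v _ => ∑ β, algebraMap k L (v β) * x β ∈ A) ?_ ?_ ?_ ?_ h1
    · rintro _ ⟨l, rfl⟩
      have h2 := h l
      rw [map_add, map_sum, PowerSeries.coeff_map] at h2
      have h3 := sub_mem h2 (hk (PowerSeries.coeff l f))
      rw [add_sub_cancel_left] at h3
      have e : ∑ β, algebraMap k L (PowerSeries.coeff l (b β)) * x β =
          ∑ β, PowerSeries.coeff l (PowerSeries.C (x β) * PowerSeries.map (algebraMap k L) (b β)) := by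
        refine Finset.sum_congr rfl fun β _ => ?_
        rw [PowerSeries.coeff_C_mul, PowerSeries.coeff_map, mul_comm]
      change ∑ β, algebraMap k L (PowerSeries.coeff l (b β)) * x β ∈ A
      rw [e]
      exact h3
    · simp only [Pi.zero_apply, map_zero, zero_mul, Finset.sum_const_zero]
      exact A.zero_mem
    · intro v w _ _ hv hw
      simp only [Pi.add_apply, map_add, add_mul, Finset.sum_add_distrib]
      exact A.add_mem _ _ hv hw
    · intro c v _ hv
      simp only [Pi.smul_apply, smul_eq_mul, map_mul, mul_assoc, ← Finset.mul_sum]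
      exact A.mul_mem _ _ (hk c) hv
  have e : ∑ β, algebraMap k L ((Pi.single α (1 : k) : ι → k) β) * x β = x α := by
    rw [Finset.sum_eq_single α]
    · rw [Pi.single_eq_same, map_one, one_mul]
    · intro β _ hβ
      rw [Pi.single_eq_of_ne hβ, map_zero, zero_mul]
    · intro h'
      exact absurd (Finset.mem_univ α) h'
  rw [e] at key
  exact key

end Pool.Agent.Lib.MP_1e3e9c_agF
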