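import Mathlib
import Pool.Agent.Lib.MP_1e3e9c_agF.FDefs

/-! Project F, LEAF E6: the ideal `JT` -/

set_option autoImplicit false

namespace Pool.Agent.Lib.MP_1e3e9c_agF

open Pool.Agent.Lib.MP_1e3e9c_agR Pool.Agent.Lib.MP_1e3e9c_agM

private theorem E6_map_aeval {k A B : Type} [Field k] [CommRing A] [Algebra k A] [CommRing B] [Algebra k B]
    {σ : Type} (φ : A →ₐ[k] B) (g : σ → PowerSeries A) (P : MvPolynomial σ k) :
    PowerSeries.map (φ : A →+* B) (MvPolynomial.aeval g P) =
      MvPolynomial.aeval (fun i => PowerSeries.map (φ : A →+* B) (g i)) P := by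
  induction P using MvPolynomial.induction_on with
  | C a =>
    rw [MvPolynomial.aeval_C, MvPolynomial.aeval_C]
    ext l
    rw [PowerSeries.coeff_map]
    simp only [PowerSeries.algebraMap_apply, PowerSeries.coeff_C]
    split_ifs
    · simp
    · simp
  | add P Q hP hQ => rw [map_add, map_add, map_add, hP, hQ]
  | mul_X P i hP => rw [map_mul, map_mul, map_mul, hP, MvPolynomial.aeval_X, MvPolynomial.aeval_X]

private theorem E6_gen {k L : Type} [Field k] [Field L] [Algebra k L] {n : ℕ} {ι : Type} [Fintype ι]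
    (f : Fin (n + 1) → PowerSeries k) (b : ι → Fin (n + 1) → PowerSeries k) (x : ι → L) (i : Fin (n + 1)) :
    PowerSeries.map ((MvPolynomial.aeval x : MvPolynomial ι k →ₐ[k] L) : MvPolynomial ι k →+* L) (gen f b i) =
      PowerSeries.map (algebraMap k L) (f i) +
        ∑ α, PowerSeries.C (x α) * PowerSeries.map (algebraMap k L) (b α i) := by
  have hC : ∀ g : PowerSeries k,
      PowerSeries.map ((MvPolynomial.aeval x : MvPolynomial ι k →ₐ[k] L) : MvPolynomial ι k →+* L)
        (PowerSeries.map MvPolynomial.C g) = PowerSeries.map (algebraMap k L) g := by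
    intro g
    ext l
    simp
  unfold gen
  rw [map_add, map_sum, hC]
  congr 1
  refine Finset.sum_congr rfl fun α _ => ?_
  rw [map_mul, hC]
  congr 1
  ext l
  rw [PowerSeries.coeff_map, PowerSeries.coeff_C, PowerSeries.coeff_C]
  split_ifs
  · simp
  · simp

/-- PROOF. `PowerSeries.map (constantCoeff) (gen f b i) = f i` (the variables have constant coefficient zero), so
`constantCoeff (coeff l (aeval (gen f b) P)) = coeff l (aeval f P) = 0` (`MvPolynomial.aeval` commutes with ring homomorphisms over `k`: `MvPolynomial.induction_on`, or `MvPolynomial.map_aeval`-like); `Ideal.span_le`. -/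
theorem JT_le {k : Type} [Field k] {n : ℕ} {ι : Type} [Fintype ι] (S : Set (MvPolynomial (Fin (n + 1)) k))
    (f : Fin (n + 1) → PowerSeries k) (b : ι → Fin (n + 1) → PowerSeries k) (hf : ∀ P ∈ S, MvPolynomial.aeval f P = 0) :
    JT S f b ≤ RingHom.ker (MvPolynomial.constantCoeff (R := k) (σ := ι)) := by
  unfold JT
  rw [Ideal.span_le]
  rintro q ⟨P, hP, l, rfl⟩
  rw [SetLike.mem_coe, RingHom.mem_ker]
  have h1 := E6_map_aeval (MvPolynomial.aeval (fun _ : ι => (0 : k))) (gen f b) P
  have h2 : (fun i => PowerSeries.map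
      ((MvPolynomial.aeval (fun _ : ι => (0 : k)) : MvPolynomial ι k →ₐ[k] k) : MvPolynomial ι k →+* k)
      (gen f b i)) = f := by
    funext i
    rw [E6_gen]
    simp
  rw [h2, hf P hP] at h1
  have h3 := congrArg (PowerSeries.coeff l) h1
  rw [PowerSeries.coeff_map, map_zero] at h3
  have h4 : MvPolynomial.aeval (fun _ : ι => (0 : k)) (PowerSeries.coeff l (MvPolynomial.aeval (gen f b) P)) = 0 := h3
  have h5 := MvPolynomial.aeval_zero (S₁ := k) (PowerSeries.coeff l (MvPolynomial.aeval (gen f b) P))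
  have h6 : (0 : ι → k) = fun _ => 0 := rfl
  rw [h6, h4] at h5
  exact h5.symm

/-- PROOF. The image of `gen f b i` under `PowerSeries.map (aeval x)` is `r i = map f i + ∑ α, C (x α) * map (b α i)`, so the coefficient number `l` of `aeval r P` is `aeval x (coeff l (aeval (gen f b) P)) = 0`. -/
theorem gen_zero {k L : Type} [Field k] [Field L] [Algebra k L] {n : ℕ} {ι : Type} [Fintype ι]
    (S : Set (MvPolynomial (Fin (n + 1)) k)) (f : Fin (n + 1) → PowerSeries k)
    (b : ι → Fin (n + 1) → PowerSeries k) (x : ι → L) (hx : ∀ q ∈ JT S f b, MvPolynomial.aeval x q = 0)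
    (P : MvPolynomial (Fin (n + 1)) k) (hP : P ∈ S) :
    MvPolynomial.aeval (fun i => PowerSeries.map (algebraMap k L) (f i) +
      ∑ α, PowerSeries.C (x α) * PowerSeries.map (algebraMap k L) (b α i)) P = 0 := by
  have h1 := E6_map_aeval (MvPolynomial.aeval x) (gen f b) P
  have h2 : (fun i => PowerSeries.map ((MvPolynomial.aeval x : MvPolynomial ι k →ₐ[k] L) : MvPolynomial ι k →+* L)
      (gen f b i)) = fun i => PowerSeries.map (algebraMap k L) (f i) +
      ∑ α, PowerSeries.C (x α) * PowerSeries.map (algebraMap k L) (b α i) := by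
    funext i
    rw [E6_gen]
  rw [h2] at h1
  rw [← h1]
  ext l
  rw [PowerSeries.coeff_map, map_zero]
  exact hx _ (Ideal.subset_span ⟨P, hP, l, rfl⟩)

end Pool.Agent.Lib.MP_1e3e9c_agF
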