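import Mathlib
import Pool.Agent.Lib.MP_1e3e9c_agF.FDefs

/-!
# MP_1e3e9c_ag, project F, block F6: definitions
-/

set_option autoImplicit false

namespace Pool.Agent.Lib.MP_1e3e9c_agF

/-- The `l`-th Hasse derivative of the power series `g`. -/
noncomputable def Dv {R : Type} [CommRing R] (l : ℕ) (g : PowerSeries R) : PowerSeries R :=
  PowerSeries.mk fun j => ((j + l).choose l : R) * PowerSeries.coeff (j + l) g

/-- The power series `g` has coefficients in the valuation ring `A`, and its reduction is `p`. -/
def Rs {L : Type} [Field L] (A : ValuationSubring L) (g : PowerSeries L)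
    (p : PowerSeries (IsLocalRing.ResidueField A)) : Prop :=
  ∃ g' : PowerSeries A, PowerSeries.map (algebraMap A L) g' = g ∧
    PowerSeries.map (IsLocalRing.residue A) g' = p

end Pool.Agent.Lib.MP_1e3e9c_agF
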