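import Mathlib
import Pool.Agent.Lib.MP_1e3e9c_agF.GDefs

/-!
# MP_1e3e9c_ag, project F, leaf G1: power series over a valuation ring and their reductions

PROOF. `rs_iff`: left to right: `coeff l g = (coeff l g' : L)`, `PowerSeries.coeff_map`; right to left: `g' = PowerSeries.mk fun l => ⟨coeff l g, _⟩`, both equations by `PowerSeries.ext`. `rs_add`, `rs_mul`: take `g' + h'`, `g' * h'` (`map_add`, `map_mul`). `rs_C`:
`g' = PowerSeries.C x`. `rs_uniq`: `PowerSeries.map (algebraMap A L)` is injective (`PowerSeries.map_injective`, `Subtype.val_injective`). `rs_aeval`: choose `g' i` with `map (algebraMap A L) (g' i) = r i`, `map residue (g' i) = p i`. Let `Z = MvPolynomial.aeval g' P` (in `PowerSeries A`, a `k`-algebra).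
`PowerSeries.mapAlgHom (IsScalarTower.toAlgHom k A L)` maps `Z` to `aeval r P` (`MvPolynomial.comp_aeval_apply`; see `M7_map` in agM.M7 for polynomials), and `PowerSeries.mapAlgHom (IsScalarTower.toAlgHom k A (ResidueField A))` maps `Z` to `aeval p P`; injectivity of the first map: `aeval r P = 0` gives `Z = 0`.
-/

set_option autoImplicit false

namespace Pool.Agent.Lib.MP_1e3e9c_agF

open Pool.Agent.Lib.MP_1e3e9c_agR Pool.Agent.Lib.MP_1e3e9c_agM

theorem rs_iff {L : Type} [Field L] (A : ValuationSubring L) (g : PowerSeries L)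
    (p : PowerSeries (IsLocalRing.ResidueField A)) :
    Rs A g p ↔ ∀ l, ∃ h : PowerSeries.coeff l g ∈ A,
      IsLocalRing.residue A ⟨PowerSeries.coeff l g, h⟩ = PowerSeries.coeff l p := by
  constructor
  · rintro ⟨g', h1, h2⟩ l
    have h3 : PowerSeries.coeff l g = ((PowerSeries.coeff l g' : A) : L) := by
      rw [← h1, PowerSeries.coeff_map]
      rfl
    have h4 : PowerSeries.coeff l g ∈ A := by
      rw [h3]
      exact (PowerSeries.coeff l g').2
    refine ⟨h4, ?_⟩
    have h5 : (⟨PowerSeries.coeff l g, h4⟩ : A) = PowerSeries.coeff l g' := Subtype.ext h3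
    rw [h5, ← h2, PowerSeries.coeff_map]
  · intro h
    choose h1 h2 using h
    refine ⟨PowerSeries.mk fun l => ⟨PowerSeries.coeff l g, h1 l⟩, ?_, ?_⟩
    · refine PowerSeries.ext fun l => ?_
      rw [PowerSeries.coeff_map, PowerSeries.coeff_mk]
      rfl
    · refine PowerSeries.ext fun l => ?_
      rw [PowerSeries.coeff_map, PowerSeries.coeff_mk]
      exact h2 l

theorem rs_add {L : Type} [Field L] (A : ValuationSubring L) {g h : PowerSeries L}
    {p q : PowerSeries (IsLocalRing.ResidueField A)} (hg : Rs A g p) (hh : Rs A h q) :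
    Rs A (g + h) (p + q) := by
  obtain ⟨g', h1, h2⟩ := hg
  obtain ⟨h', h3, h4⟩ := hh
  exact ⟨g' + h', by rw [map_add, h1, h3], by rw [map_add, h2, h4]⟩

theorem rs_mul {L : Type} [Field L] (A : ValuationSubring L) {g h : PowerSeries L}
    {p q : PowerSeries (IsLocalRing.ResidueField A)} (hg : Rs A g p) (hh : Rs A h q) :
    Rs A (g * h) (p * q) := by
  obtain ⟨g', h1, h2⟩ := hg
  obtain ⟨h', h3, h4⟩ := hh
  exact ⟨g' * h', by rw [map_mul, h1, h3], by rw [map_mul, h2, h4]⟩

theorem rs_C {L : Type} [Field L] (A : ValuationSubring L) (x : A) :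
    Rs A (PowerSeries.C (x : L)) (PowerSeries.C (IsLocalRing.residue A x)) := by
  refine ⟨PowerSeries.C x, ?_, ?_⟩
  · rw [PowerSeries.map_C]
    rfl
  · rw [PowerSeries.map_C]

theorem rs_uniq {L : Type} [Field L] (A : ValuationSubring L) {g : PowerSeries L}
    {p q : PowerSeries (IsLocalRing.ResidueField A)} (hp : Rs A g p) (hq : Rs A g q) : p = q := by
  obtain ⟨g₁, h1, h2⟩ := hp
  obtain ⟨g₂, h3, h4⟩ := hq
  have h5 : g₁ = g₂ := PowerSeries.map_injective (algebraMap A L) Subtype.val_injective
    (h1.trans h3.symm)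
  rw [← h2, ← h4, h5]

private theorem G1_map {k A B : Type} [Field k] [CommRing A] [CommRing B] [Algebra k A]
    [Algebra k B] (φ : A →ₐ[k] B) {n : ℕ} (f : Fin (n + 1) → PowerSeries A)
    (P : MvPolynomial (Fin (n + 1)) k) :
    PowerSeries.map (φ : A →+* B) (MvPolynomial.aeval f P) =
      MvPolynomial.aeval (fun i => PowerSeries.map (φ : A →+* B) (f i)) P :=
  MvPolynomial.comp_aeval_apply f (PowerSeries.mapAlgHom φ) P

theorem rs_aeval {k L : Type} [Field k] [Field L] [Algebra k L] (A : ValuationSubring L)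
    [Algebra k A] [IsScalarTower k A L] {n : ℕ} {r : Fin (n + 1) → PowerSeries L}
    {p : Fin (n + 1) → PowerSeries (IsLocalRing.ResidueField A)} (h : ∀ i, Rs A (r i) (p i))
    {P : MvPolynomial (Fin (n + 1)) k} (hP : MvPolynomial.aeval r P = 0) :
    MvPolynomial.aeval p P = 0 := by
  choose g' h1 h2 using h
  have h3 : PowerSeries.map ((IsScalarTower.toAlgHom k A L : A →ₐ[k] L) : A →+* L)
      (MvPolynomial.aeval g' P) = MvPolynomial.aeval r P := by
    rw [G1_map (IsScalarTower.toAlgHom k A L) g' P]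
    have h4 : (fun i => PowerSeries.map ((IsScalarTower.toAlgHom k A L : A →ₐ[k] L) : A →+* L)
        (g' i)) = r := funext h1
    rw [h4]
  have h4 : MvPolynomial.aeval g' P = 0 := by
    refine PowerSeries.map_injective _ Subtype.val_injective (h3.trans ?_)
    rw [hP, map_zero]
  have h5 : PowerSeries.map ((IsScalarTower.toAlgHom k A (IsLocalRing.ResidueField A) :
      A →ₐ[k] IsLocalRing.ResidueField A) : A →+* IsLocalRing.ResidueField A)
      (MvPolynomial.aeval g' P) = MvPolynomial.aeval p P := by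
    rw [G1_map (IsScalarTower.toAlgHom k A (IsLocalRing.ResidueField A)) g' P]
    have h6 : (fun i => PowerSeries.map ((IsScalarTower.toAlgHom k A (IsLocalRing.ResidueField A) :
      A →ₐ[k] IsLocalRing.ResidueField A) : A →+* IsLocalRing.ResidueField A)
        (g' i)) = p := funext h2
    rw [h6]
  rw [← h5, h4, map_zero]

end Pool.Agent.Lib.MP_1e3e9c_agF
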