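import Mathlib
import Pool.Agent.Lib.MP_1e3e9c_agF.GDefs

/-!
# MP_1e3e9c_ag, project F, leaf G3: power series whose coefficients span a finite-dimensional space

PROOF. `Fg k g` means: `W g = Submodule.span k (Set.range fun l => coeff l g)` is finitely generated. A submodule of a finitely generated `k`-submodule of `L` is finitely generated (`k` a field: `Submodule.fg_of_le`, or `Module.Finite`/`IsNoetherian`). `fg_C`: the coefficients of `C a` are `a` and `0`: contained in
`span {a}`. `fg_add`: `W (f + g) ≤ W f ⊔ W g`. `fg_mul`: `W (f * g) ≤ W f * W g` (`PowerSeries.coeff_mul`, `Submodule.mul_mem_mul`, `Submodule.FG.mul`; submodules of the `k`-algebra `L`). `fg_dv`: `(N : L) * x = (N : k) • x`, so `W (Dv l g) ≤ W g`.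
`exists_alg`: the carrier `{g | Fg k g}` (closed under `*`, `+`; contains `algebraMap L (PowerSeries L) a = C a`).
`fg_val`: `W g` is spanned by finitely many of the coefficients (`Submodule.FG` of a span: `Submodule.fg_span_iff_fg_span_finset_subset` or `Submodule.exists_finset_of_mem_...`/compactness), so there is `M` such that all `coeff l g` are in the `k`-span of the `coeff l' g`, `l' ≤ M`. Let `c` be a coefficient of
the largest value among `l' ≤ M` (`Finset.exists_max_image`). The elements `x : L` with `A.valuation x ≤ A.valuation c` form a `k`-submodule of `L` (`A.valuation (a • x) ≤ A.valuation x` by `hkA`, `ValuationSubring.valuation_le_one_iff`; `Valuation.map_add_le`) which contains the `coeff l' g`,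
`l' ≤ M`, so it contains all `coeff l g`.
-/

set_option autoImplicit false

namespace Pool.Agent.Lib.MP_1e3e9c_agF

private theorem G3_le {k V : Type} [Field k] [AddCommGroup V] [Module k V] {N M : Submodule k V} (hM : M.FG)
    (h : N ≤ M) : N.FG := by
  have h1 := isNoetherian_of_fg_of_noetherian M hM
  exact isNoetherian_submodule.1 h1 N h

private theorem G3_mem {k L : Type} [Field k] [Field L] [Algebra k L] (g : PowerSeries L) (l : ℕ) :
    PowerSeries.coeff l g ∈ Submodule.span k (Set.range fun l => PowerSeries.coeff l g) :=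
  Submodule.subset_span ⟨l, rfl⟩

theorem fg_C (k : Type) {L : Type} [Field k] [Field L] [Algebra k L] (a : L) :
    Fg k (PowerSeries.C a) := by
  refine G3_le (Submodule.fg_span_singleton a) (Submodule.span_le.2 ?_)
  rintro _ ⟨l, rfl⟩
  show PowerSeries.coeff l (PowerSeries.C a) ∈ Submodule.span k {a}
  rw [PowerSeries.coeff_C]
  split_ifs
  · exact Submodule.mem_span_singleton_self a
  · exact Submodule.zero_mem _

theorem fg_add {k L : Type} [Field k] [Field L] [Algebra k L] {f g : PowerSeries L}
    (hf : Fg k f) (hg : Fg k g) : Fg k (f + g) := by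
  refine G3_le (Submodule.FG.sup hf hg) (Submodule.span_le.2 ?_)
  rintro _ ⟨l, rfl⟩
  show PowerSeries.coeff l (f + g) ∈ Submodule.span k (Set.range fun l => PowerSeries.coeff l f) ⊔
    Submodule.span k (Set.range fun l => PowerSeries.coeff l g)
  rw [map_add]
  exact Submodule.add_mem_sup (G3_mem f l) (G3_mem g l)

theorem fg_mul {k L : Type} [Field k] [Field L] [Algebra k L] {f g : PowerSeries L}
    (hf : Fg k f) (hg : Fg k g) : Fg k (f * g) := by
  refine G3_le (Submodule.FG.mul hf hg) (Submodule.span_le.2 ?_)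
  rintro _ ⟨l, rfl⟩
  show PowerSeries.coeff l (f * g) ∈ Submodule.span k (Set.range fun l => PowerSeries.coeff l f) *
    Submodule.span k (Set.range fun l => PowerSeries.coeff l g)
  rw [PowerSeries.coeff_mul]
  exact Submodule.sum_mem _ fun p _ => Submodule.mul_mem_mul (G3_mem f p.1) (G3_mem g p.2)

theorem fg_dv {k L : Type} [Field k] [Field L] [Algebra k L] {g : PowerSeries L}
    (hg : Fg k g) (l : ℕ) : Fg k (Dv l g) := by
  refine G3_le hg (Submodule.span_le.2 ?_)
  rintro _ ⟨j, rfl⟩
  show PowerSeries.coeff j (Dv l g) ∈ Submodule.span k (Set.range fun l => PowerSeries.coeff l g)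
  have h1 : PowerSeries.coeff j (Dv l g) = (((j + l).choose l : ℕ) : k) • PowerSeries.coeff (j + l) g := by
    rw [Dv, PowerSeries.coeff_mk, Algebra.smul_def, map_natCast]
  rw [h1]
  exact Submodule.smul_mem _ _ (G3_mem g (j + l))

theorem exists_alg (k L : Type) [Field k] [Field L] [Algebra k L] :
    ∃ B : Subalgebra L (PowerSeries L), ∀ g, g ∈ B ↔ Fg k g := by
  refine ⟨{
    carrier := {g | Fg k g}
    mul_mem' := fun hf hg => fg_mul hf hg
    add_mem' := fun hf hg => fg_add hf hg
    algebraMap_mem' := fun a => ?_ }, fun g => Iff.rfl⟩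
  show Fg k (algebraMap L (PowerSeries L) a)
  rw [PowerSeries.algebraMap_apply, Algebra.algebraMap_self, RingHom.id_apply]
  exact fg_C k a

theorem fg_val {k L : Type} [Field k] [Field L] [Algebra k L] (A : ValuationSubring L)
    (hkA : ∀ a : k, algebraMap k L a ∈ A) {g : PowerSeries L} (hg : Fg k g) :
    ∃ M : ℕ, ∀ l, ∃ l' ≤ M,
      A.valuation (PowerSeries.coeff l g) ≤ A.valuation (PowerSeries.coeff l' g) := by
  obtain ⟨t, ht, hW⟩ := Submodule.fg_span_iff_fg_span_finset_subset _ |>.1 hg
  have h1 : ∀ x ∈ t, ∃ l, PowerSeries.coeff l g = x := fun x hx => ht hx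
  choose! φ hφ using h1
  obtain ⟨l0, hl0, hmax⟩ := Finset.exists_max_image (Finset.range (t.sup φ + 1))
    (fun l => A.valuation (PowerSeries.coeff l g)) ⟨0, Finset.mem_range.2 (Nat.succ_pos _)⟩
  refine ⟨t.sup φ, fun l => ⟨l0, Nat.lt_succ_iff.1 (Finset.mem_range.1 hl0), ?_⟩⟩
  have h2 : PowerSeries.coeff l g ∈ Submodule.span k (t : Set L) := by
    rw [← hW]
    exact G3_mem g l
  obtain ⟨z, hz⟩ : ∃ z : L, z = PowerSeries.coeff l g := ⟨_, rfl⟩
  rw [← hz] at h2 ⊢
  clear hz
  induction h2 using Submodule.span_induction with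
  | mem x hx =>
    rw [← hφ x hx]
    exact hmax _ (Finset.mem_range.2 (Nat.lt_succ_iff.2 (Finset.le_sup (f := φ) hx)))
  | zero =>
    rw [map_zero]
    exact zero_le
  | add x y _ _ hx hy => exact (A.valuation.map_add x y).trans (max_le hx hy)
  | smul a x _ hx =>
    rw [Algebra.smul_def, map_mul]
    have h3 : A.valuation (algebraMap k L a) ≤ 1 := (A.valuation_le_one_iff _).2 (hkA a)
    calc A.valuation (algebraMap k L a) * A.valuation x ≤ 1 * A.valuation x := mul_le_mul_left h3 _
      _ = A.valuation x := one_mul _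
      _ ≤ _ := hx

end Pool.Agent.Lib.MP_1e3e9c_agF
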