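import Mathlib
import Pool.Agent.Lib.MP_1e3e9c_agF.G1
import Pool.Agent.Lib.MP_1e3e9c_agF.G3

/-!
# MP_1e3e9c_ag, project F, leaf G5: the reduction is a polynomial; normal form

PROOF. `val = A.valuation`, `x ∈ A ↔ val x ≤ 1`, `x ∈ A.nonunits ↔ val x < 1`. `M` from `fg_val` (G3). (1) For `l > M` and `l' ≤ M` with `val (coeff l g) ≤ val (coeff l' g)`: `val (coeff l g * η ^ l) ≤ val (coeff l' g * η ^ l') * val η ^ (l - l')` (`val η < 1`).
`red_pol`: so for `l > M`: `val (coeff l g * η ^ l) < 1`, the residue is `0`: the power series of the residues of `coeff l (rescale η g) = η ^ l * coeff l g` (`PowerSeries.coeff_rescale`) is the polynomial `∑_(l ≤ M) C (residue) * X ^ l` (or `PowerSeries.trunc (M + 1)`); use `rs_iff` (G1).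
`norm_form`: `g ≠ 0`, so some coefficient is not `0`, and by the choice of `M` some `coeff l' g ≠ 0` with `l' ≤ M`. Let `b = coeff m g * η ^ m` be of the largest value among `m ≤ M` (`Finset.exists_max_image`), `b ≠ 0` (`η ≠ 0`); by (1) `val (coeff l g * η ^ l) ≤ val b` for all `l`. Let
`g' = C b⁻¹ * g`; `Fg k g'` by `fg_mul`, `fg_C` (G3). All `coeff l g' * η ^ l = b⁻¹ * (coeff l g * η ^ l)` are in `A`, for `l = m` it is `1`. `p` from `red_pol`; its coefficient of index `m` is `1` (`rs_iff`), so `p ≠ 0`.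
-/

set_option autoImplicit false

namespace Pool.Agent.Lib.MP_1e3e9c_agF

private theorem G5_le {L : Type} [Field L] (A : ValuationSubring L) {η : L} {g : PowerSeries L} {M : ℕ}
    (hM : ∀ l, ∃ l' ≤ M, A.valuation (PowerSeries.coeff l g) ≤ A.valuation (PowerSeries.coeff l' g)) {l : ℕ}
    (hl : M < l) : ∃ l' ≤ M, ∃ r, r ≠ 0 ∧ A.valuation (PowerSeries.coeff l g * η ^ l) ≤
      A.valuation (PowerSeries.coeff l' g * η ^ l') * A.valuation η ^ r := by
  obtain ⟨l', hl', h⟩ := hM l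
  refine ⟨l', hl', l - l', by omega, ?_⟩
  rw [map_mul, map_mul, map_pow, map_pow, mul_assoc, ← pow_add, Nat.add_sub_cancel' (by omega)]
  exact mul_le_mul_left h _

theorem red_pol {k L : Type} [Field k] [Field L] [Algebra k L] (A : ValuationSubring L)
    (hkA : ∀ a : k, algebraMap k L a ∈ A) {η : L} (hη : η ∈ A.nonunits) {g : PowerSeries L}
    (hg : Fg k g) (hA : ∀ l, PowerSeries.coeff l g * η ^ l ∈ A) :
    ∃ p : Polynomial (IsLocalRing.ResidueField A),
      Rs A (PowerSeries.rescale η g) (p : PowerSeries (IsLocalRing.ResidueField A)) := by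
  obtain ⟨M, hM⟩ := fg_val A hkA hg
  have hη1 : A.valuation η < 1 := A.mem_nonunits_iff.1 hη
  have hmem : ∀ l, PowerSeries.coeff l (PowerSeries.rescale η g) ∈ A := by
    intro l
    rw [PowerSeries.coeff_rescale, mul_comm]
    exact hA l
  refine ⟨∑ l ∈ Finset.range (M + 1), Polynomial.monomial l (IsLocalRing.residue A ⟨_, hmem l⟩), ?_⟩
  rw [rs_iff]
  intro l
  refine ⟨hmem l, ?_⟩
  rw [Polynomial.coeff_coe, Polynomial.finsetSum_coeff]
  simp only [Polynomial.coeff_monomial]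
  rw [Finset.sum_ite_eq' (Finset.range (M + 1)) l fun l => IsLocalRing.residue A ⟨_, hmem l⟩]
  by_cases hl : l ∈ Finset.range (M + 1)
  · rw [if_pos hl]
  · rw [if_neg hl, IsLocalRing.residue_eq_zero_iff, ValuationSubring.valuation_lt_one_iff]
    rw [Finset.mem_range] at hl
    obtain ⟨l', _, r, hr, h⟩ := G5_le A (η := η) hM (l := l) (by omega)
    show A.valuation (PowerSeries.coeff l (PowerSeries.rescale η g)) < 1
    rw [PowerSeries.coeff_rescale, mul_comm]
    refine lt_of_le_of_lt h ?_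
    refine lt_of_le_of_lt (mul_le_of_le_one_left' ((A.valuation_le_one_iff _).2 (hA l'))) ?_
    exact pow_lt_one₀ zero_le hη1 hr

theorem norm_form {k L : Type} [Field k] [Field L] [Algebra k L] (A : ValuationSubring L)
    (hkA : ∀ a : k, algebraMap k L a ∈ A) {η : L} (hη : η ∈ A.nonunits) (hη0 : η ≠ 0)
    {g : PowerSeries L} (hg : Fg k g) (hg0 : g ≠ 0) :
    ∃ (b : L) (g' : PowerSeries L) (p : Polynomial (IsLocalRing.ResidueField A)), b ≠ 0 ∧
      g = PowerSeries.C b * g' ∧ Fg k g' ∧ p ≠ 0 ∧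
      Rs A (PowerSeries.rescale η g') (p : PowerSeries (IsLocalRing.ResidueField A)) := by
  obtain ⟨M, hM⟩ := fg_val A hkA hg
  have hη1 : A.valuation η < 1 := A.mem_nonunits_iff.1 hη
  obtain ⟨m, hm, hmax⟩ := Finset.exists_max_image (Finset.range (M + 1))
    (fun m => A.valuation (PowerSeries.coeff m g * η ^ m)) ⟨0, Finset.mem_range.2 (Nat.succ_pos M)⟩
  have hle : ∀ l, A.valuation (PowerSeries.coeff l g * η ^ l) ≤ A.valuation (PowerSeries.coeff m g * η ^ m) := by
    intro l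
    by_cases hl : l ∈ Finset.range (M + 1)
    · exact hmax l hl
    · rw [Finset.mem_range] at hl
      obtain ⟨l', hl', r, hr, h⟩ := G5_le A (η := η) hM (l := l) (by omega)
      refine h.trans (le_trans ?_ (hmax l' (Finset.mem_range.2 (by omega))))
      exact mul_le_of_le_one_right' (pow_le_one₀ zero_le hη1.le)
  have hb : PowerSeries.coeff m g * η ^ m ≠ 0 := by
    intro h0
    apply hg0
    ext l
    have h1 := hle l
    rw [h0, map_zero, le_zero_iff, map_eq_zero, mul_eq_zero] at h1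
    rw [map_zero]
    exact h1.resolve_right (pow_ne_zero _ hη0)
  obtain ⟨b, hbd⟩ : ∃ b, b = PowerSeries.coeff m g * η ^ m := ⟨_, rfl⟩
  rw [← hbd] at hb hle
  have hcoeff : ∀ l, PowerSeries.coeff l (PowerSeries.C b⁻¹ * g) = b⁻¹ * PowerSeries.coeff l g := fun l =>
    PowerSeries.coeff_C_mul l g b⁻¹
  have hFg : Fg k (PowerSeries.C b⁻¹ * g) := fg_mul (fg_C k b⁻¹) hg
  have hA : ∀ l, PowerSeries.coeff l (PowerSeries.C b⁻¹ * g) * η ^ l ∈ A := by
    intro l
    rw [hcoeff, mul_assoc, ← A.valuation_le_one_iff, map_mul, map_inv₀]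
    have hvb : A.valuation b ≠ 0 := (map_ne_zero _).2 hb
    calc (A.valuation b)⁻¹ * A.valuation (PowerSeries.coeff l g * η ^ l) ≤ (A.valuation b)⁻¹ * A.valuation b :=
          mul_le_mul_right (hle l) _
      _ = 1 := inv_mul_cancel₀ hvb
  obtain ⟨p, hp⟩ := red_pol A hkA hη hFg hA
  refine ⟨b, PowerSeries.C b⁻¹ * g, p, hb, ?_, hFg, ?_, hp⟩
  · rw [← mul_assoc, ← map_mul, mul_inv_cancel₀ hb, map_one, one_mul]
  · intro hp0
    obtain ⟨h1, h2⟩ := (rs_iff A _ _).1 hp m
    have h3 : PowerSeries.coeff m (PowerSeries.rescale η (PowerSeries.C b⁻¹ * g)) = 1 := by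
      rw [PowerSeries.coeff_rescale, hcoeff, mul_comm, mul_assoc, ← hbd, inv_mul_cancel₀ hb]
    have h4 : (⟨_, h1⟩ : A) = 1 := Subtype.ext h3
    rw [h4, map_one, hp0, Polynomial.coeff_coe, Polynomial.coeff_zero] at h2
    exact one_ne_zero h2

end Pool.Agent.Lib.MP_1e3e9c_agF
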