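import Mathlib
import Pool.Agent.Lib.MP_1e3e9c_agF.G5

/-!
# MP_1e3e9c_ag, project F, leaf G6: the prime ideal of a root

PROOF. `B` is the algebra of the power series `g` with `Fg k g`. Let `N ⊆ B` be the set of the `g` such that there is a polynomial `q` over the residue field with `Rs A (rescale η g) q` and `q.eval a ≠ 0`. It is a submonoid: `1` (`q = 1`, `rs_C` for `1`), products (`rescale` is a ring homomorphism, `rs_mul`, `Polynomial.coe_mul`,
`Polynomial.eval_mul`). CLAIM: the ideal `span {ρ}` of `B` is disjoint from `N`. Let `g₀ : B`, `s = ρ * g₀ ∈ N` with the polynomial `q`. `g₀ ≠ 0`: otherwise `s = 0`, `q = 0` (`rs_uniq` with `rs_C` for `0`), `q.eval a = 0`. `norm_form` (G5): `g₀ = C b * g'`, `Rs A (rescale η g') p'`, `p' ≠ 0`. Then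
`Rs A (rescale η (ρ * g')) (p * p')`, `p * p' ≠ 0`: choose `m` with `(p * p').coeff m ≠ 0`. `rescale η s = C b * rescale η (ρ * g')`. The coefficients of index `m` (`rs_iff`): `x = coeff m (rescale η (ρ g'))` is in `A` and its residue is not `0`, so it is a unit of `A`; `b * x ∈ A`, so `b ∈ A`
(`b = (b x) x⁻¹`; `IsLocalRing.residue_ne_zero_iff_isUnit`). So `Rs A (rescale η s) (C (residue b) * (p * p'))` (`rs_C`, `rs_mul`) and `q = C (residue b) * p * p'` (`rs_uniq`, `Polynomial.coe_injective`), `q.eval a = residue b * p.eval a * p'.eval a = 0`: contradiction. So by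
`Ideal.exists_le_prime_disjoint` there is a prime ideal `𝔮 ≥ span {ρ}` disjoint from `N`; that is the last statement.
-/

set_option autoImplicit false

namespace Pool.Agent.Lib.MP_1e3e9c_agF

theorem root_prime {k L : Type} [Field k] [Field L] [Algebra k L] (A : ValuationSubring L)
    (hkA : ∀ x : k, algebraMap k L x ∈ A) {η : L} (hη : η ∈ A.nonunits) (hη0 : η ≠ 0)
    (B : Subalgebra L (PowerSeries L)) (hB : ∀ g, g ∈ B ↔ Fg k g)
    (a : IsLocalRing.ResidueField A) (ρ : B) (p : Polynomial (IsLocalRing.ResidueField A))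
    (hp : Rs A (PowerSeries.rescale η (ρ : PowerSeries L))
      (p : PowerSeries (IsLocalRing.ResidueField A))) (hp0 : p ≠ 0) (hpa : p.eval a = 0) :
    ∃ 𝔮 : Ideal B, 𝔮.IsPrime ∧ ρ ∈ 𝔮 ∧
      ∀ g ∈ 𝔮, ∀ q : Polynomial (IsLocalRing.ResidueField A),
        Rs A (PowerSeries.rescale η (g : PowerSeries L))
          (q : PowerSeries (IsLocalRing.ResidueField A)) → q.eval a = 0 := by
  classical
  let N : Submonoid B :=
    { carrier := {g | ∃ q : Polynomial (IsLocalRing.ResidueField A),
        Rs A (PowerSeries.rescale η (g : PowerSeries L))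
          (q : PowerSeries (IsLocalRing.ResidueField A)) ∧ q.eval a ≠ 0}
      one_mem' := by
        refine ⟨1, ?_, ?_⟩
        · have h1 := rs_C A 1
          rw [map_one, map_one] at h1
          have h2 : PowerSeries.rescale η (((1 : B)) : PowerSeries L) = PowerSeries.C (((1 : A)) : L) := by
            show PowerSeries.rescale η (1 : PowerSeries L) = PowerSeries.C (1 : L)
            rw [map_one, map_one]
          rw [h2, Polynomial.coe_one]
          exact h1
        · rw [Polynomial.eval_one]
          exact one_ne_zero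
      mul_mem' := by
        rintro g h ⟨q, hq, hqa⟩ ⟨q', hq', hqa'⟩
        refine ⟨q * q', ?_, ?_⟩
        · have h2 : PowerSeries.rescale η ((g * h : B) : PowerSeries L) =
              PowerSeries.rescale η (g : PowerSeries L) * PowerSeries.rescale η (h : PowerSeries L) := by
            show PowerSeries.rescale η ((g : PowerSeries L) * (h : PowerSeries L)) = _
            rw [map_mul]
          rw [h2, Polynomial.coe_mul]
          exact rs_mul A hq hq'
        · rw [Polynomial.eval_mul]
          exact mul_ne_zero hqa hqa' }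
  have hN : ∀ g : B, g ∈ N ↔ ∃ q : Polynomial (IsLocalRing.ResidueField A),
      Rs A (PowerSeries.rescale η (g : PowerSeries L))
        (q : PowerSeries (IsLocalRing.ResidueField A)) ∧ q.eval a ≠ 0 := fun _ => Iff.rfl
  have hdis : Disjoint ((Ideal.span {ρ} : Ideal B) : Set B) (N : Set B) := by
    rw [Set.disjoint_left]
    intro s hs hsN
    obtain ⟨g₀, rfl⟩ := Ideal.mem_span_singleton.1 hs
    obtain ⟨q, hq, hqa⟩ := (hN _).1 hsN
    have hqa0 : q ≠ 0 := by
      rintro rfl
      exact hqa Polynomial.eval_zero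
    have hg0 : (g₀ : PowerSeries L) ≠ 0 := by
      intro h0
      apply hqa0
      have h1 : PowerSeries.rescale η ((ρ * g₀ : B) : PowerSeries L) = PowerSeries.C (((0 : A)) : L) := by
        show PowerSeries.rescale η ((ρ : PowerSeries L) * (g₀ : PowerSeries L)) = PowerSeries.C (0 : L)
        rw [h0, mul_zero, map_zero, map_zero]
      rw [h1] at hq
      have h2 := rs_uniq A hq (rs_C A 0)
      rw [map_zero, map_zero] at h2
      exact Polynomial.coe_injective _ (by rw [h2, Polynomial.coe_zero])
    obtain ⟨b, g', p', hb, hgg, -, hp'0, hp'⟩ := norm_form A hkA hη hη0 ((hB _).1 g₀.2) hg0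
    have hpp := rs_mul A hp hp'
    have hpp0 : p * p' ≠ 0 := mul_ne_zero hp0 hp'0
    obtain ⟨m, hm⟩ : ∃ m, (p * p').coeff m ≠ 0 := by
      by_contra hcon
      push Not at hcon
      exact hpp0 (Polynomial.ext fun m => by rw [hcon m, Polynomial.coeff_zero])
    have hs' : PowerSeries.rescale η ((ρ * g₀ : B) : PowerSeries L) =
        PowerSeries.C b * (PowerSeries.rescale η (ρ : PowerSeries L) * PowerSeries.rescale η g') := by
      show PowerSeries.rescale η ((ρ : PowerSeries L) * (g₀ : PowerSeries L)) = _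
      rw [hgg, ← map_mul]
      ext l
      rw [PowerSeries.coeff_rescale, PowerSeries.coeff_C_mul, PowerSeries.coeff_rescale, mul_left_comm,
        PowerSeries.coeff_C_mul]
      ring
    obtain ⟨hx, hxr⟩ := (rs_iff A _ _).1 hpp m
    rw [← Polynomial.coe_mul, Polynomial.coeff_coe] at hxr
    have hxu : IsUnit (⟨_, hx⟩ : A) := by
      rw [← IsLocalRing.residue_ne_zero_iff_isUnit, hxr]
      exact hm
    obtain ⟨u, hu⟩ := hxu.exists_right_inv
    have hu' : PowerSeries.coeff m (PowerSeries.rescale η (ρ : PowerSeries L) * PowerSeries.rescale η g') *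
        (u : L) = 1 := congrArg (fun z : A => (z : L)) hu
    have hbA : b ∈ A := by
      rw [hs'] at hq
      obtain ⟨hy, -⟩ := (rs_iff A _ _).1 hq m
      rw [PowerSeries.coeff_C_mul] at hy
      have h3 := A.mul_mem _ _ hy u.2
      rw [mul_assoc, hu', mul_one] at h3
      exact h3
    have h4 := rs_mul A (rs_C A ⟨b, hbA⟩) hpp
    rw [hs'] at hq
    have h5 := rs_uniq A hq h4
    rw [← Polynomial.coe_mul, ← Polynomial.coe_C, ← Polynomial.coe_mul] at h5
    have h6 := Polynomial.coe_injective _ h5
    apply hqa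
    rw [h6, Polynomial.eval_mul, Polynomial.eval_mul, hpa, zero_mul, mul_zero]
  obtain ⟨𝔮, h1, h2, h3⟩ := Ideal.exists_le_prime_disjoint _ N hdis
  refine ⟨𝔮, h1, h2 (Ideal.mem_span_singleton_self ρ), fun g hg q hq => ?_⟩
  by_contra hne
  exact Set.disjoint_left.1 h3 hg ((hN g).2 ⟨q, hq, hne⟩)

end Pool.Agent.Lib.MP_1e3e9c_agF
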