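import Mathlib

/-!
# MP_1e3e9c_ag, project F, leaf G7: a dominating valuation ring (MATHLIB ONLY)

PROOF. (1) `L' = AlgebraicClosure (FractionRing (B ⧸ 𝔮))`, `c : B →+* L'` the composition of the three canonical maps; its kernel is `𝔮`. `φ : R →+* L'` the restriction of `c` to `R`; `𝔫 = RingHom.ker ε`, a proper ideal (`κ` is a field). `ker φ ≤ 𝔫` by `h𝔮`. As in `M4_val` (agM.M4): the image of `𝔫` in the
subring `φ.range` generates a proper ideal (`φ.rangeRestrict` is surjective, `Ideal.comap_map_of_surjective`, `ker φ ≤ 𝔫`), and `Ideal.image_subset_nonunits_valuationSubring` gives a valuation subring `A'` of `L'` with `φ R ⊆ A'`, `φ 𝔫 ⊆ A'.nonunits`. (2) The ring homomorphism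
`A → R → A' → κ'`, `x ↦ residue (φ (ι x))`, sends the maximal ideal of `A` (the kernel of `residue`) to `0` (`ε (ι x) = residue x = 0`, so `ι x ∈ 𝔫`, `φ (ι x)` is a nonunit), so it induces `j : κ →+* κ'` with `j (residue x) = residue (φ (ι x))` (`Ideal.Quotient.lift`; `IsLocalRing.ResidueField A` is
`A ⧸ maximalIdeal A`; `IsLocalRing.residue_surjective`). (3) For `g : R` choose `x : A` with `residue x = ε g`. `ε (g - ι x) = 0`, so `φ (g - ι x)` is a nonunit, and `residue (φ g) = residue (φ (ι x)) = j (residue x) = j (ε g)`.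
-/

set_option autoImplicit false

namespace Pool.Agent.Lib.MP_1e3e9c_agF

private theorem G7_dom {P L' : Type} [CommRing P] [Field L'] (φ : P →+* L') (𝔫 : Ideal P) (hm : 𝔫 ≠ ⊤)
    (hle : RingHom.ker φ ≤ 𝔫) : ∃ A' : ValuationSubring L', (∀ p, φ p ∈ A') ∧ ∀ p ∈ 𝔫, φ p ∈ A'.nonunits := by
  classical
  have hsur : Function.Surjective φ.rangeRestrict := φ.rangeRestrict_surjective
  have htop : Ideal.map φ.rangeRestrict 𝔫 ≠ ⊤ := by
    intro h
    apply hm
    have h1 := Ideal.comap_map_of_surjective φ.rangeRestrict hsur 𝔫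
    rw [h, Ideal.comap_top] at h1
    rw [eq_top_iff, h1]
    refine sup_le le_rfl (le_trans ?_ hle)
    intro p hp
    rw [Ideal.mem_comap, Ideal.mem_bot] at hp
    rw [RingHom.mem_ker]
    exact congrArg Subtype.val hp
  obtain ⟨A, hA, hI⟩ := Ideal.image_subset_nonunits_valuationSubring _ htop
  exact ⟨A, fun p => hA ⟨p, rfl⟩, fun p hp => hI ⟨φ.rangeRestrict p, Ideal.mem_map_of_mem _ hp, rfl⟩⟩

theorem dominate {B L : Type} [CommRing B] [Field L] (A : ValuationSubring L) (R : Subring B)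
    (ε : R →+* IsLocalRing.ResidueField A) (ι : A →+* R)
    (hι : ∀ x, ε (ι x) = IsLocalRing.residue A x) (𝔮 : Ideal B) (hp : 𝔮.IsPrime)
    (h𝔮 : ∀ g : R, (g : B) ∈ 𝔮 → ε g = 0) :
    ∃ (L' : Type) (_ : Field L') (_ : IsAlgClosed L') (c : B →+* L') (A' : ValuationSubring L')
      (j : IsLocalRing.ResidueField A →+* IsLocalRing.ResidueField A'),
      (∀ g ∈ 𝔮, c g = 0) ∧
        ∀ g : R, ∃ h : c (g : B) ∈ A', IsLocalRing.residue A' ⟨c (g : B), h⟩ = j (ε g) := by
  classical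
  obtain ⟨c, hc⟩ : ∃ c : B →+* AlgebraicClosure (FractionRing (B ⧸ 𝔮)),
      c = (algebraMap (FractionRing (B ⧸ 𝔮)) (AlgebraicClosure (FractionRing (B ⧸ 𝔮)))).comp
        ((algebraMap (B ⧸ 𝔮) (FractionRing (B ⧸ 𝔮))).comp (Ideal.Quotient.mk 𝔮)) := ⟨_, rfl⟩
  have hker : ∀ b : B, c b = 0 ↔ b ∈ 𝔮 := by
    intro b
    rw [hc, RingHom.comp_apply, RingHom.comp_apply,
      map_eq_zero_iff _ (algebraMap (FractionRing (B ⧸ 𝔮))
        (AlgebraicClosure (FractionRing (B ⧸ 𝔮)))).injective,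
      map_eq_zero_iff _ (IsFractionRing.injective (B ⧸ 𝔮) (FractionRing (B ⧸ 𝔮))),
      Ideal.Quotient.eq_zero_iff_mem]
  have hle : RingHom.ker (c.comp R.subtype) ≤ RingHom.ker ε := by
    intro g hg
    rw [RingHom.mem_ker] at hg ⊢
    exact h𝔮 g ((hker _).1 hg)
  obtain ⟨A', hA, hn⟩ := G7_dom (c.comp R.subtype) (RingHom.ker ε) (RingHom.ker_ne_top ε) hle
  obtain ⟨φ, hφ⟩ : ∃ φ : R →+* A', ∀ g : R, ((φ g : A') : AlgebraicClosure (FractionRing (B ⧸ 𝔮))) = c (g : B) :=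
    ⟨(c.comp R.subtype).codRestrict A' hA, fun g => rfl⟩
  have hres : ∀ g : R, ε g = 0 → IsLocalRing.residue A' (φ g) = 0 := by
    intro g hg
    rw [IsLocalRing.residue_eq_zero_iff, ← ValuationSubring.coe_mem_nonunits_iff, hφ]
    exact hn g (RingHom.mem_ker.2 hg)
  obtain ⟨j, hj⟩ : ∃ j : IsLocalRing.ResidueField A →+* IsLocalRing.ResidueField A',
      ∀ x : A, j (IsLocalRing.residue A x) = IsLocalRing.residue A' (φ (ι x)) := by
    refine ⟨Ideal.Quotient.lift (IsLocalRing.maximalIdeal A)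
      ((IsLocalRing.residue A').comp (φ.comp ι)) (fun x hx => ?_), fun x => rfl⟩
    show IsLocalRing.residue A' (φ (ι x)) = 0
    apply hres
    rw [hι]
    exact (IsLocalRing.residue_eq_zero_iff x).2 hx
  refine ⟨AlgebraicClosure (FractionRing (B ⧸ 𝔮)), inferInstance, inferInstance, c, A', j,
    fun g hg => (hker g).2 hg, fun g => ⟨hA g, ?_⟩⟩
  obtain ⟨x, hx⟩ := IsLocalRing.residue_surjective (ε g)
  have h1 : IsLocalRing.residue A' (φ (g - ι x)) = 0 := by
    apply hres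
    rw [map_sub, hι, hx, sub_self]
  rw [map_sub, map_sub, sub_eq_zero, ← hj, hx] at h1
  rw [← h1]
  exact congrArg _ (Subtype.ext (hφ g).symm)

end Pool.Agent.Lib.MP_1e3e9c_agF
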