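import Mathlib
import Pool.Agent.Lib.MP_1e3e9c_agF.G6
import Pool.Agent.Lib.MP_1e3e9c_agF.G7

/-!
# MP_1e3e9c_ag, project F, leaf G8: a root of the reduction is the reduction of a root

PROOF. `κ = ResidueField A`. `𝔮` from `root_prime` (G6). Let `R ⊆ B` be the subring of the `g` such that there is a polynomial `q` over `κ` with `Rs A (rescale η g) q` (`rs_add`, `rs_mul`, `rs_C` for `0, 1, -1`: `-g = C (-1) * g`; `rescale η` is a ring homomorphism; `Polynomial.coe_add`,
`Polynomial.coe_mul`). `q` is unique (`rs_uniq`, `Polynomial.coe_injective`). `ε g = q.eval a` defines a ring homomorphism `ε : R →+* κ` (choice of `q` and uniqueness). `ι x = C (x : L)` (an element of `R`: `rescale η (C x) = C x`, `rs_C`; in `B` because `Fg k (C x)`, `fg_C`, `hB`), `ε (ι x) = residue x`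
(the polynomial is `Polynomial.C (residue x)`). The hypothesis `h𝔮` of `dominate` (G7) is the last statement of `root_prime`. `dominate` gives the result: `c ρ = 0` because `ρ ∈ 𝔮`; for `g : B` and `q` with `Rs A (rescale η g) q`, `g ∈ R` and `ε g = q.eval a`.
-/

set_option autoImplicit false

namespace Pool.Agent.Lib.MP_1e3e9c_agF

private theorem G8_neg {L : Type} [Field L] (A : ValuationSubring L) {g : PowerSeries L}
    {p : PowerSeries (IsLocalRing.ResidueField A)} (hg : Rs A g p) : Rs A (-g) (-p) := by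
  obtain ⟨g', h1, h2⟩ := hg
  exact ⟨-g', by rw [map_neg, h1], by rw [map_neg, h2]⟩

private theorem G8_resc {L : Type} [Field L] (η x : L) :
    PowerSeries.rescale η (PowerSeries.C x) = PowerSeries.C x := by
  ext l
  rw [PowerSeries.coeff_rescale, PowerSeries.coeff_C]
  split_ifs with h
  · rw [h, pow_zero, one_mul]
  · rw [mul_zero]

private theorem G8_C {L : Type} [Field L] (A : ValuationSubring L) (η : L) (x : A) :
    Rs A (PowerSeries.rescale η (PowerSeries.C (x : L)))
      ((Polynomial.C (IsLocalRing.residue A x) : Polynomial (IsLocalRing.ResidueField A)) :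
        PowerSeries (IsLocalRing.ResidueField A)) := by
  rw [G8_resc, Polynomial.coe_C]
  exact rs_C A x

/-- The power series of `B` whose rescaling reduces to a polynomial. -/
private noncomputable def G8_R {L : Type} [Field L] (A : ValuationSubring L) (η : L)
    (B : Subalgebra L (PowerSeries L)) : Subring B where
  carrier := {g | ∃ q : Polynomial (IsLocalRing.ResidueField A),
    Rs A (PowerSeries.rescale η (g : PowerSeries L)) (q : PowerSeries (IsLocalRing.ResidueField A))}
  mul_mem' := by
    rintro g h ⟨q, hq⟩ ⟨q', hq'⟩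
    refine ⟨q * q', ?_⟩
    have h1 : ((g * h : B) : PowerSeries L) = (g : PowerSeries L) * (h : PowerSeries L) := rfl
    rw [h1, map_mul, Polynomial.coe_mul]
    exact rs_mul A hq hq'
  one_mem' := by
    refine ⟨1, ?_⟩
    have h1 := G8_C A η 1
    rw [map_one, map_one] at h1
    have h2 : ((1 : B) : PowerSeries L) = PowerSeries.C ((1 : A) : L) := by
      rw [OneMemClass.coe_one, OneMemClass.coe_one, map_one]
    rw [h2]
    exact h1
  add_mem' := by
    rintro g h ⟨q, hq⟩ ⟨q', hq'⟩
    refine ⟨q + q', ?_⟩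
    have h1 : ((g + h : B) : PowerSeries L) = (g : PowerSeries L) + (h : PowerSeries L) := rfl
    rw [h1, map_add, Polynomial.coe_add]
    exact rs_add A hq hq'
  zero_mem' := by
    refine ⟨0, ?_⟩
    have h1 := G8_C A η 0
    rw [map_zero, map_zero] at h1
    have h2 : ((0 : B) : PowerSeries L) = PowerSeries.C ((0 : A) : L) := by
      rw [ZeroMemClass.coe_zero, ZeroMemClass.coe_zero, map_zero]
    rw [h2]
    exact h1
  neg_mem' := by
    rintro g ⟨q, hq⟩
    refine ⟨-q, ?_⟩
    have h1 : ((-g : B) : PowerSeries L) = -(g : PowerSeries L) := rfl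
    have h2 : ((-q : Polynomial (IsLocalRing.ResidueField A)) :
        PowerSeries (IsLocalRing.ResidueField A)) =
        -(q : PowerSeries (IsLocalRing.ResidueField A)) :=
      map_neg (Polynomial.coeToPowerSeries.ringHom (R := IsLocalRing.ResidueField A)) q
    rw [h1, map_neg, h2]
    exact G8_neg A hq

theorem root {k L : Type} [Field k] [Field L] [Algebra k L] (A : ValuationSubring L)
    (hkA : ∀ x : k, algebraMap k L x ∈ A) {η : L} (hη : η ∈ A.nonunits) (hη0 : η ≠ 0)
    (B : Subalgebra L (PowerSeries L)) (hB : ∀ g, g ∈ B ↔ Fg k g)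
    (a : IsLocalRing.ResidueField A) (ρ : B) (p : Polynomial (IsLocalRing.ResidueField A))
    (hp : Rs A (PowerSeries.rescale η (ρ : PowerSeries L))
      (p : PowerSeries (IsLocalRing.ResidueField A))) (hp0 : p ≠ 0) (hpa : p.eval a = 0) :
    ∃ (L' : Type) (_ : Field L') (_ : IsAlgClosed L') (c : B →+* L') (A' : ValuationSubring L')
      (j : IsLocalRing.ResidueField A →+* IsLocalRing.ResidueField A'),
      c ρ = 0 ∧ ∀ (g : B) (q : Polynomial (IsLocalRing.ResidueField A)),
        Rs A (PowerSeries.rescale η (g : PowerSeries L))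
          (q : PowerSeries (IsLocalRing.ResidueField A)) →
        ∃ h : c g ∈ A', IsLocalRing.residue A' ⟨c g, h⟩ = j (q.eval a) := by
  obtain ⟨𝔮, hprime, hρ, h𝔮⟩ := root_prime A hkA hη hη0 B hB a ρ p hp hp0 hpa
  obtain ⟨Q, hQ⟩ : ∃ Q : G8_R A η B → Polynomial (IsLocalRing.ResidueField A),
      ∀ g : G8_R A η B, Rs A (PowerSeries.rescale η ((g : B) : PowerSeries L))
        (Q g : PowerSeries (IsLocalRing.ResidueField A)) :=
    ⟨fun g => Classical.choose g.2, fun g => Classical.choose_spec g.2⟩
  have huniq : ∀ (g : G8_R A η B) (q : Polynomial (IsLocalRing.ResidueField A)),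
      Rs A (PowerSeries.rescale η ((g : B) : PowerSeries L))
        (q : PowerSeries (IsLocalRing.ResidueField A)) → Q g = q := fun g q hq =>
    Polynomial.coe_injective _ (rs_uniq A (hQ g) hq)
  obtain ⟨Qh, hQh⟩ : ∃ Qh : G8_R A η B →+* Polynomial (IsLocalRing.ResidueField A),
      ∀ g, Qh g = Q g := by
    refine ⟨{ toFun := Q, map_one' := ?_, map_mul' := ?_, map_zero' := ?_, map_add' := ?_ },
      fun g => rfl⟩
    · refine huniq 1 1 ?_
      have h1 := G8_C A η 1
      rw [map_one, map_one] at h1
      have h2 : (((1 : G8_R A η B) : B) : PowerSeries L) = PowerSeries.C ((1 : A) : L) := by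
        rw [OneMemClass.coe_one, OneMemClass.coe_one, OneMemClass.coe_one, map_one]
      rw [h2]
      exact h1
    · intro g h
      refine huniq (g * h) (Q g * Q h) ?_
      have h1 : (((g * h : G8_R A η B) : B) : PowerSeries L) =
        ((g : B) : PowerSeries L) * ((h : B) : PowerSeries L) := rfl
      rw [h1, map_mul, Polynomial.coe_mul]
      exact rs_mul A (hQ g) (hQ h)
    · refine huniq 0 0 ?_
      have h1 := G8_C A η 0
      rw [map_zero, map_zero] at h1
      have h2 : (((0 : G8_R A η B) : B) : PowerSeries L) = PowerSeries.C ((0 : A) : L) := by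
        rw [ZeroMemClass.coe_zero, ZeroMemClass.coe_zero, ZeroMemClass.coe_zero, map_zero]
      rw [h2]
      exact h1
    · intro g h
      refine huniq (g + h) (Q g + Q h) ?_
      have h1 : (((g + h : G8_R A η B) : B) : PowerSeries L) =
        ((g : B) : PowerSeries L) + ((h : B) : PowerSeries L) := rfl
      rw [h1, map_add, Polynomial.coe_add]
      exact rs_add A (hQ g) (hQ h)
  have hBC : ∀ x : A, ((PowerSeries.C (R := L)).comp (algebraMap A L)) x ∈ B := fun x =>
    (hB _).2 (fg_C k _)
  obtain ⟨ι, hι⟩ : ∃ ι : A →+* G8_R A η B, ∀ x, ((ι x : B) : PowerSeries L) =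
      PowerSeries.C (x : L) :=
    ⟨(((PowerSeries.C (R := L)).comp (algebraMap A L)).codRestrict B hBC).codRestrict (G8_R A η B)
      fun x => ⟨Polynomial.C (IsLocalRing.residue A x), G8_C A η x⟩, fun x => rfl⟩
  obtain ⟨L', i1, i2, c, A', j, hc, hcr⟩ := dominate A (G8_R A η B)
    ((Polynomial.evalRingHom a).comp Qh) ι (fun x => by
      have h1 : Q (ι x) = Polynomial.C (IsLocalRing.residue A x) := by
        refine huniq _ _ ?_
        rw [hι]
        exact G8_C A η x
      rw [RingHom.comp_apply, hQh, h1, Polynomial.coe_evalRingHom, Polynomial.eval_C]) 𝔮 hprime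
    (fun g hg => by
      rw [RingHom.comp_apply, hQh, Polynomial.coe_evalRingHom]
      exact h𝔮 g hg (Q g) (hQ g))
  refine ⟨L', i1, i2, c, A', j, hc ρ hρ, fun g q hq => ?_⟩
  obtain ⟨h1, h2⟩ := hcr ⟨g, ⟨q, hq⟩⟩
  refine ⟨h1, ?_⟩
  rw [RingHom.comp_apply, hQh, huniq _ q hq, Polynomial.coe_evalRingHom] at h2
  exact h2

end Pool.Agent.Lib.MP_1e3e9c_agF
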