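import Mathlib
import Pool.Agent.Lib.MP_1e3e9c_agF.GDefs

/-!
# MP_1e3e9c_ag, project F, leaf G2: Hasse derivatives of power series

PROOF. `dv_mul` (Leibniz): compare the coefficients of index `m`. Put `N = m + l + 1`, `F = PowerSeries.trunc N f`, `G = PowerSeries.trunc N g` (polynomials; `coeff j F = coeff j f` for `j < N`). Both sides at index `m` involve only the coefficients of `f`, `g` of index `≤ m + l`
(`PowerSeries.coeff_mul`, `Finset.antidiagonal`), so they do not change if `f`, `g` are replaced by `F`, `G`; for polynomials it is `Polynomial.hasseDeriv_mul` (`Polynomial.hasseDeriv_coeff`, `dv_pol`). (Or directly: `(m+l).choose l` times a sum over `a + b = m + l` of `f_a g_b`, and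
`∑_(x + y = l) a.choose x * b.choose y = (a + b).choose l`, `Nat.add_choose_eq`, Vandermonde.) `dv_zero`: `(j + 0).choose 0 = 1`. `dv_C`: for `l > 0` the coefficients `coeff (j + l) (C a)` are `0`. `dv_add`, `dv_map`, `dv_pol`, `dv_rescale`: compare coefficients
(`PowerSeries.coeff_rescale`: `coeff n (rescale a f) = a ^ n * coeff n f`; `Polynomial.coeff_coe`; `Polynomial.hasseDeriv_coeff`). `taylor_pol`: `Polynomial.taylor_coeff`.
-/

set_option autoImplicit false

namespace Pool.Agent.Lib.MP_1e3e9c_agF

private theorem G2_pol {R : Type} [CommRing R] (l : ℕ) (p : Polynomial R) :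
    Dv l (p : PowerSeries R) = ((Polynomial.hasseDeriv l p : Polynomial R) : PowerSeries R) := by
  ext j
  simp only [Dv, PowerSeries.coeff_mk, Polynomial.coeff_coe, Polynomial.hasseDeriv_coeff]

theorem dv_add {R : Type} [CommRing R] (l : ℕ) (f g : PowerSeries R) :
    Dv l (f + g) = Dv l f + Dv l g := by
  ext j
  simp only [Dv, PowerSeries.coeff_mk, map_add]
  ring

theorem dv_mul {R : Type} [CommRing R] (l : ℕ) (f g : PowerSeries R) :
    Dv l (f * g) = ∑ x ∈ Finset.HasAntidiagonal.antidiagonal l, Dv x.1 f * Dv x.2 g := by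
  ext m
  have h1 : PowerSeries.coeff m (Dv l (f * g)) = PowerSeries.coeff m (Dv l
      (((PowerSeries.trunc (m + l + 1) f * PowerSeries.trunc (m + l + 1) g : Polynomial R)) : PowerSeries R)) := by
    simp only [Dv, PowerSeries.coeff_mk]
    rw [PowerSeries.coeff_mul_eq_coeff_trunc_mul_trunc f g (Nat.lt_succ_self (m + l)), Polynomial.coe_mul]
  rw [h1, G2_pol, Polynomial.hasseDeriv_mul, Polynomial.coeff_coe, Polynomial.finsetSum_coeff, map_sum]
  refine Finset.sum_congr rfl fun x hx => ?_
  rw [Finset.HasAntidiagonal.mem_antidiagonal] at hx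
  rw [← Polynomial.coeff_coe, Polynomial.coe_mul, ← G2_pol, ← G2_pol, PowerSeries.coeff_mul, PowerSeries.coeff_mul]
  refine Finset.sum_congr rfl fun y hy => ?_
  rw [Finset.HasAntidiagonal.mem_antidiagonal] at hy
  simp only [Dv, PowerSeries.coeff_mk]
  rw [PowerSeries.coeff_coe_trunc_of_lt (by omega), PowerSeries.coeff_coe_trunc_of_lt (by omega)]

theorem dv_zero {R : Type} [CommRing R] (g : PowerSeries R) : Dv 0 g = g := by
  ext j
  simp [Dv]

theorem dv_C {R : Type} [CommRing R] {l : ℕ} (hl : 0 < l) (a : R) :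
    Dv l (PowerSeries.C a) = 0 := by
  ext j
  simp only [Dv, PowerSeries.coeff_mk, map_zero]
  rw [PowerSeries.coeff_C, if_neg (by omega), mul_zero]

theorem dv_map {R R' : Type} [CommRing R] [CommRing R'] (φ : R →+* R') (l : ℕ)
    (g : PowerSeries R) : PowerSeries.map φ (Dv l g) = Dv l (PowerSeries.map φ g) := by
  ext j
  simp only [Dv, PowerSeries.coeff_mk, PowerSeries.coeff_map, map_mul, map_natCast]

theorem dv_pol {R : Type} [CommRing R] (l : ℕ) (p : Polynomial R) :
    Dv l (p : PowerSeries R) = ((Polynomial.hasseDeriv l p : Polynomial R) : PowerSeries R) :=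
  G2_pol l p

theorem dv_rescale {R : Type} [CommRing R] (η : R) (l : ℕ) (g : PowerSeries R) :
    PowerSeries.rescale η (Dv l g * PowerSeries.C (η ^ l)) = Dv l (PowerSeries.rescale η g) := by
  ext j
  rw [PowerSeries.coeff_rescale, PowerSeries.coeff_mul_C]
  simp only [Dv, PowerSeries.coeff_mk, PowerSeries.coeff_rescale]
  rw [pow_add]
  ring

end Pool.Agent.Lib.MP_1e3e9c_agF
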