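import Mathlib
import Pool.Agent.Lib.MP_1e3e9c_agF.G2
import Pool.Agent.Lib.MP_1e3e9c_agF.G3

/-!
# MP_1e3e9c_ag, project F, leaf G9: the Taylor homomorphism

PROOF. For `g : B` let `d l g : B` be the Hasse derivative `Dv l g` (in `B` by `hB`, `fg_dv`). `Θ g = PowerSeries.mk fun l => c (d l g)`. It is a ring homomorphism: `map_zero`, `map_add`: `dv_add` (G2), `Dv l 0 = 0` (`dv_add` or `dv_map`, or by coefficients); `map_one`: `1 = C 1`, `dv_zero` and `dv_C`;
`map_mul`: `dv_mul` (G2) and `PowerSeries.coeff_mul`: `coeff l (Θ f * Θ g) = ∑_(x in antidiagonal l) c (d x.1 f) * c (d x.2 g) = c (∑ d x.1 f * d x.2 g) = c (d l (f * g))`. The last statement: `d' = d l g` in `B` by `Subtype.ext`.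
-/

set_option autoImplicit false

namespace Pool.Agent.Lib.MP_1e3e9c_agF

theorem taylor_hom {k L L' : Type} [Field k] [Field L] [Algebra k L] [Field L']
    (B : Subalgebra L (PowerSeries L)) (hB : ∀ g, g ∈ B ↔ Fg k g) (c : B →+* L') :
    ∃ Θ : B →+* PowerSeries L', ∀ (g d : B) (l : ℕ), (d : PowerSeries L) = Dv l g →
      PowerSeries.coeff l (Θ g) = c d := by
  have hd0 : ∀ l, Dv l (0 : PowerSeries L) = 0 := by
    intro l
    have h := dv_add l (0 : PowerSeries L) 0
    rw [add_zero] at h
    exact left_eq_add.1 h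
  have hmem : ∀ (l : ℕ) (g : B), Dv l (g : PowerSeries L) ∈ B := fun l g =>
    (hB _).2 (fg_dv ((hB _).1 g.2) l)
  let dd : ℕ → B → B := fun l g => ⟨Dv l (g : PowerSeries L), hmem l g⟩
  have hone : ∀ l, dd l 1 = if l = 0 then 1 else 0 := by
    intro l
    refine Subtype.ext ?_
    show Dv l (1 : PowerSeries L) = _
    split_ifs with h
    · rw [h, dv_zero]
      rfl
    · rw [← map_one (PowerSeries.C (R := L)), dv_C (Nat.pos_of_ne_zero h)]
      rfl
  have hmul : ∀ (l : ℕ) (f g : B),
      dd l (f * g) = ∑ x ∈ Finset.HasAntidiagonal.antidiagonal l, dd x.1 f * dd x.2 g := by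
    intro l f g
    refine Subtype.ext ?_
    show Dv l ((f : PowerSeries L) * (g : PowerSeries L)) = _
    rw [dv_mul]
    exact (map_sum B.val (fun x : ℕ × ℕ => dd x.1 f * dd x.2 g) (Finset.HasAntidiagonal.antidiagonal l)).symm
  have hadd : ∀ (l : ℕ) (f g : B), dd l (f + g) = dd l f + dd l g := by
    intro l f g
    exact Subtype.ext (dv_add l (f : PowerSeries L) (g : PowerSeries L))
  have hzero : ∀ l, dd l 0 = 0 := fun l => Subtype.ext (hd0 l)
  refine ⟨
    { toFun := fun g => PowerSeries.mk fun l => c (dd l g)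
      map_one' := ?_
      map_mul' := ?_
      map_zero' := ?_
      map_add' := ?_ }, ?_⟩
  · ext l
    rw [PowerSeries.coeff_mk, PowerSeries.coeff_one, hone l]
    split_ifs with h
    · exact map_one c
    · exact map_zero c
  · intro f g
    ext l
    rw [PowerSeries.coeff_mk, PowerSeries.coeff_mul, hmul l f g, map_sum]
    refine Finset.sum_congr rfl fun x _ => ?_
    rw [map_mul, PowerSeries.coeff_mk, PowerSeries.coeff_mk]
  · ext l
    rw [PowerSeries.coeff_mk, hzero l, map_zero, map_zero]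
  · intro f g
    ext l
    rw [PowerSeries.coeff_mk, hadd l f g, map_add, map_add, PowerSeries.coeff_mk, PowerSeries.coeff_mk]
  · intro g d l h
    show PowerSeries.coeff l (PowerSeries.mk fun l => c (dd l g)) = c d
    rw [PowerSeries.coeff_mk]
    exact congrArg c (Subtype.ext h.symm)

end Pool.Agent.Lib.MP_1e3e9c_agF
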