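import Mathlib
import Pool.Agent.Lib.MP_1e3e9c_agF.G8
import Pool.Agent.Lib.MP_1e3e9c_agF.G9

/-!
# MP_1e3e9c_ag, project F, leaf G10: the curve at a root of the reduction

PROOF. `κ = ResidueField A`. `B` from `exists_alg` (G3); `r' i, b' i : B` the elements `r i`, `b i`. `c, L', A', j` from `root` (G8) for `ρ = r' i₀`, `p = q i₀`; `Θ` from `taylor_hom` (G9). `L'` is a `k`-algebra by `x ↦ c (algebraMap L B (algebraMap k L x))`. For `x : L` in `A`, `C x : B` satisfies
`Rs A (rescale η (C x)) (Polynomial.C (residue x))` (`rescale η (C x) = C x`, `rs_C`), so `c (C x) ∈ A'` and its residue is `j (residue x)`. In particular `k` maps to `A'` (`algebraMap k L x` is in `A`): so `A'` is a `k`-algebra, `IsScalarTower k A' L'` (see M8 in agM: `codRestrict ... toAlgebra`), and `j` is a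
`k`-algebra homomorphism. THE SERIES: `F i = PowerSeries.rescale (c (C η)) (Θ (r' i))`, over `L'`. Its coefficient of index `l` is `c (C η) ^ l * c (d l) = c (D * C (η ^ l))`, `D = Dv l (r i)` (in `B` by `fg_dv`), and by `dv_rescale`, `hq i`, `dv_map`, `dv_pol` (G2): `Rs A (rescale η (D * C (η ^ l))) (hasseDeriv l (q i))`
(if `g'` over `A` has the images `rescale η (r i)`, `q i`, then `Dv l g'` has the images `Dv l (rescale η (r i))` and `Dv l (q i) = hasseDeriv l (q i)`). So by `root` the coefficient is in `A'` and its residue is `j ((hasseDeriv l (q i)).eval a) = j ((taylor a (q i)).coeff l)` (`Polynomial.taylor_coeff`). So `F i` comes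
from `f i : PowerSeries A'` with the reduction `(taylor a (q i)).map j`. VALUES: `Θ` and `rescale` are ring homomorphisms, `Θ (C x) = C (c (C x))` (`dv_zero`, `dv_C`), so `g ↦ rescale (c (C η)) (Θ g)` is a `k`-algebra homomorphism `B → PowerSeries L'` and `aeval F P` is the image of `aeval r' P`, whose image in
`PowerSeries L` (injective) is `aeval r P = 0` (`MvPolynomial.comp_aeval_apply` or `MvPolynomial.map_aeval`); and `PowerSeries A' → PowerSeries L'` is injective. CONSTANT COEFFICIENTS: `constantCoeff (F i) = c (r' i)` (`dv_zero`); `c (r' i₀) = 0`; `∑ c (b' i) * c (r' i) = c 1 = 1`, so some `c (r' i) ≠ 0`.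
-/

set_option autoImplicit false

namespace Pool.Agent.Lib.MP_1e3e9c_agF

private theorem G10_rescale_C {R : Type} [CommRing R] (η x : R) :
    PowerSeries.rescale η (PowerSeries.C x) = PowerSeries.C x := by
  ext l
  rw [PowerSeries.coeff_rescale, PowerSeries.coeff_C]
  split_ifs with h
  · rw [h, pow_zero, one_mul]
  · rw [mul_zero]

private theorem G10_coe {L : Type} [Field L] (B : Subalgebra L (PowerSeries L)) (x : L) :
    ((algebraMap L B x : B) : PowerSeries L) = PowerSeries.C x := by
  rw [Subalgebra.coe_algebraMap, PowerSeries.algebraMap_apply]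
  rfl

private theorem G10_rs {L : Type} [Field L] (A : ValuationSubring L) (η : L) (g : PowerSeries L)
    (q : Polynomial (IsLocalRing.ResidueField A)) (l : ℕ)
    (h : Rs A (PowerSeries.rescale η g) (q : PowerSeries (IsLocalRing.ResidueField A))) :
    Rs A (PowerSeries.rescale η (Dv l g * PowerSeries.C (η ^ l)))
      ((Polynomial.hasseDeriv l q : Polynomial (IsLocalRing.ResidueField A)) :
        PowerSeries (IsLocalRing.ResidueField A)) := by
  obtain ⟨g', h1, h2⟩ := h
  refine ⟨Dv l g', ?_, ?_⟩
  · rw [dv_map, h1, dv_rescale]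
  · rw [dv_map, h2, dv_pol]

theorem recentre {k L : Type} [Field k] [Field L] [Algebra k L] (A : ValuationSubring L)
    [Algebra k A] [IsScalarTower k A L] {η : L} (hη : η ∈ A.nonunits) (hη0 : η ≠ 0) {n : ℕ}
    (r b : Fin (n + 1) → PowerSeries L) (hr : ∀ i, Fg k (r i)) (hb : ∀ i, Fg k (b i))
    (h1 : ∑ i, b i * r i = 1) (q : Fin (n + 1) → Polynomial (IsLocalRing.ResidueField A))
    (hq : ∀ i, Rs A (PowerSeries.rescale η (r i))
      (q i : PowerSeries (IsLocalRing.ResidueField A)))
    (a : IsLocalRing.ResidueField A) (i₀ : Fin (n + 1)) (hq0 : q i₀ ≠ 0)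
    (hqa : (q i₀).eval a = 0) :
    ∃ (L' : Type) (_ : Field L') (_ : IsAlgClosed L') (_ : Algebra k L')
      (A' : ValuationSubring L') (_ : Algebra k A') (_ : IsScalarTower k A' L')
      (j : IsLocalRing.ResidueField A →ₐ[k] IsLocalRing.ResidueField A')
      (f : Fin (n + 1) → PowerSeries A'),
      (∀ P : MvPolynomial (Fin (n + 1)) k, MvPolynomial.aeval r P = 0 →
        MvPolynomial.aeval f P = 0) ∧
      (∀ i, PowerSeries.map (IsLocalRing.residue A') (f i) =
        (((Polynomial.taylor a (q i)).map
          (j : IsLocalRing.ResidueField A →+* IsLocalRing.ResidueField A') :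
            Polynomial (IsLocalRing.ResidueField A')) :
              PowerSeries (IsLocalRing.ResidueField A'))) ∧
      PowerSeries.constantCoeff (f i₀) = 0 ∧ ∃ i, PowerSeries.constantCoeff (f i) ≠ 0 := by
  classical
  have hkA : ∀ x : k, algebraMap k L x ∈ A := fun x => by
    rw [IsScalarTower.algebraMap_apply k A L]
    exact (algebraMap k A x).2
  obtain ⟨B, hB⟩ := exists_alg k L
  obtain ⟨r', hr'⟩ : ∃ r' : Fin (n + 1) → B, ∀ i, (r' i : PowerSeries L) = r i :=
    ⟨fun i => ⟨r i, (hB _).2 (hr i)⟩, fun _ => rfl⟩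
  obtain ⟨b', hb'⟩ : ∃ b' : Fin (n + 1) → B, ∀ i, (b' i : PowerSeries L) = b i :=
    ⟨fun i => ⟨b i, (hB _).2 (hb i)⟩, fun _ => rfl⟩
  obtain ⟨L', iF, iC, c, A', j, hc0, hc⟩ := root A hkA hη hη0 B hB a (r' i₀) (q i₀)
    (by rw [hr']; exact hq i₀) hq0 hqa
  obtain ⟨Θ, hΘ⟩ := taylor_hom B hB c
  -- the constants
  obtain ⟨K, hK⟩ : ∃ K : L →+* L', ∀ x, K x = c (algebraMap L B x) :=
    ⟨c.comp (algebraMap L B), fun _ => rfl⟩
  have hconst : ∀ x : A, ∃ h : K (x : L) ∈ A',
      IsLocalRing.residue A' ⟨K (x : L), h⟩ = j (IsLocalRing.residue A x) := by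
    intro x
    obtain ⟨h2, h3⟩ := hc (algebraMap L B (x : L)) (Polynomial.C (IsLocalRing.residue A x)) (by
      rw [G10_coe, G10_rescale_C, Polynomial.coe_C]
      exact rs_C A x)
    rw [Polynomial.eval_C] at h3
    refine ⟨by rw [hK]; exact h2, ?_⟩
    rw [← h3]
    congr 1
    exact Subtype.ext (hK _)
  let KA : A →+* A' := (K.comp (algebraMap A L)).codRestrict A'.toSubring fun x => (hconst x).1
  have hKA : ∀ x : A, ((KA x : A') : L') = K (x : L) := fun _ => rfl
  let algL : Algebra k L' := (K.comp (algebraMap k L)).toAlgebra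
  let algA : Algebra k A' := (KA.comp (algebraMap k A)).toAlgebra
  have hkL' : ∀ x : k, algebraMap k L' x = K (algebraMap k L x) := fun _ => rfl
  have hkA' : ∀ x : k, algebraMap k A' x = KA (algebraMap k A x) := fun _ => rfl
  have tower : IsScalarTower k A' L' := by
    refine IsScalarTower.of_algebraMap_eq fun x => ?_
    rw [hkL', hkA', IsScalarTower.algebraMap_apply k A L]
    rfl
  let jA : IsLocalRing.ResidueField A →ₐ[k] IsLocalRing.ResidueField A' :=
    { j with
      commutes' := fun x => by
        have h2 := (hconst (algebraMap k A x)).2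
        exact h2.symm }
  -- the elements of the algebra
  have hd : ∀ i l, ∃ d : B, (d : PowerSeries L) = Dv l (r i) := fun i l =>
    ⟨⟨Dv l (r i), (hB _).2 (fg_dv (hr i) l)⟩, rfl⟩
  choose d hd using hd
  have hE : ∀ i l, ∃ h : c (d i l * algebraMap L B (η ^ l)) ∈ A',
      IsLocalRing.residue A' ⟨c (d i l * algebraMap L B (η ^ l)), h⟩ =
        j ((Polynomial.hasseDeriv l (q i)).eval a) := by
    intro i l
    refine hc _ _ ?_
    have h2 : ((d i l * algebraMap L B (η ^ l) : B) : PowerSeries L) =
        Dv l (r i) * PowerSeries.C (η ^ l) := by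
      rw [Subalgebra.coe_mul, hd, G10_coe]
    rw [h2]
    exact G10_rs A η (r i) (q i) l (hq i)
  obtain ⟨f, hf⟩ : ∃ f : Fin (n + 1) → PowerSeries A', ∀ i l, PowerSeries.coeff l (f i) =
      ⟨c (d i l * algebraMap L B (η ^ l)), (hE i l).1⟩ :=
    ⟨fun i => PowerSeries.mk fun l => ⟨c (d i l * algebraMap L B (η ^ l)), (hE i l).1⟩,
      fun i l => PowerSeries.coeff_mk _ _⟩
  have hΘC : ∀ x : L, Θ (algebraMap L B x) = PowerSeries.C (K x) := by
    intro x
    ext l
    rw [PowerSeries.coeff_C]
    rcases Nat.eq_zero_or_pos l with h2 | h2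
    · rw [h2, if_pos rfl, hK]
      exact hΘ _ _ 0 (dv_zero _).symm
    · rw [if_neg h2.ne', hΘ (algebraMap L B x) 0 l, map_zero]
      rw [G10_coe, dv_C h2]
      rfl
  have hF : ∀ i, PowerSeries.map (algebraMap A' L') (f i) =
      PowerSeries.rescale (K η) (Θ (r' i)) := by
    intro i
    ext l
    rw [PowerSeries.coeff_map, hf, PowerSeries.coeff_rescale, hΘ (r' i) (d i l) l (by rw [hd, hr']),
      ← map_pow, hK]
    show c (d i l * algebraMap L B (η ^ l)) = c (algebraMap L B (η ^ l)) * c (d i l)
    rw [map_mul, mul_comm]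
  have hzero : ∀ i, ((PowerSeries.constantCoeff (f i) : A') : L') = c (r' i) := by
    intro i
    have h2 : PowerSeries.constantCoeff (f i) = PowerSeries.coeff 0 (f i) := by
      rw [PowerSeries.coeff_zero_eq_constantCoeff]
    rw [h2, hf]
    show c (d i 0 * algebraMap L B (η ^ 0)) = c (r' i)
    rw [pow_zero, map_one, mul_one]
    congr 1
    apply Subtype.ext
    rw [hd, dv_zero, hr']
  refine ⟨L', iF, iC, algL, A', algA, tower, jA, f, ?_, ?_, ?_, ?_⟩
  · intro P hP
    -- in the algebra
    have h2 : MvPolynomial.eval₂ ((algebraMap L B).comp (algebraMap k L)) r' P = 0 := by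
      apply Subtype.ext
      have h3 := MvPolynomial.eval₂_comp_left (B.val : B →+* PowerSeries L)
        ((algebraMap L B).comp (algebraMap k L)) r' P
      have h4 : ((B.val : B →+* PowerSeries L)).comp ((algebraMap L B).comp (algebraMap k L)) =
          algebraMap k (PowerSeries L) := by
        ext1 x
        exact (IsScalarTower.algebraMap_apply k L (PowerSeries L) x).symm
      have h5 : (B.val : B →+* PowerSeries L) ∘ r' = r := funext hr'
      rw [h4, h5] at h3
      exact h3.trans hP
    have h3 := MvPolynomial.eval₂_comp_left ((PowerSeries.rescale (K η)).comp Θ)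
      ((algebraMap L B).comp (algebraMap k L)) r' P
    rw [h2, map_zero] at h3
    have h4 := MvPolynomial.eval₂_comp_left (PowerSeries.map (algebraMap A' L'))
      (algebraMap k (PowerSeries A')) f P
    have h5 : ((PowerSeries.rescale (K η)).comp Θ).comp ((algebraMap L B).comp (algebraMap k L)) =
        (PowerSeries.map (algebraMap A' L')).comp (algebraMap k (PowerSeries A')) := by
      ext1 x
      show PowerSeries.rescale (K η) (Θ (algebraMap L B (algebraMap k L x))) =
        PowerSeries.map (algebraMap A' L') (algebraMap k (PowerSeries A') x)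
      rw [hΘC, G10_rescale_C, PowerSeries.algebraMap_apply, PowerSeries.map_C, hkA']
      rw [IsScalarTower.algebraMap_apply k A L]
      rfl
    have h6 : ((PowerSeries.rescale (K η)).comp Θ) ∘ r' =
        PowerSeries.map (algebraMap A' L') ∘ f := funext fun i => (hF i).symm
    rw [h5, h6, ← h4] at h3
    refine PowerSeries.map_injective (algebraMap A' L') Subtype.val_injective ?_
    rw [map_zero]
    exact h3.symm
  · intro i
    ext l
    rw [PowerSeries.coeff_map, hf, (hE i l).2, Polynomial.coeff_coe, Polynomial.coeff_map,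
      Polynomial.taylor_coeff]
    rfl
  · apply Subtype.ext
    rw [hzero, hc0]
    rfl
  · by_contra hcon
    push Not at hcon
    have h2 : ∀ i, c (r' i) = 0 := fun i => by
      rw [← hzero, hcon i]
      rfl
    have h3 : ∑ i, b' i * r' i = 1 := by
      apply Subtype.ext
      have h4 : ((∑ i, b' i * r' i : B) : PowerSeries L) = ∑ i, b i * r i := by
        rw [AddSubmonoidClass.coe_finsetSum]
        exact Finset.sum_congr rfl fun i _ => by rw [Subalgebra.coe_mul, hb', hr']
      rw [h4, h1]
      rfl
    have h4 := congrArg c h3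
    rw [map_sum, map_one] at h4
    refine one_ne_zero (h4.symm.trans (Finset.sum_eq_zero fun i _ => ?_))
    rw [map_mul, h2, mul_zero]

end Pool.Agent.Lib.MP_1e3e9c_agF
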