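import Mathlib

/-!
# MP_1e3e9c_ag, project F, leaf G11: the first break, for power series (MATHLIB ONLY)

PROOF. The proof of `zoom` (`Pool/Agent/Lib/MP_1e3e9c_agM/M6.lean`, copy it), with `PowerSeries.coeff l (f i)` instead of `(f i).coeff l`, `PowerSeries.C ((θ ^ (w i * e))⁻¹) * PowerSeries.rescale θ (f i)` instead of `Polynomial.C ... * (f i).comp (C θ * X)` (`PowerSeries.coeff_rescale`:
`coeff l (rescale θ f) = θ ^ l * coeff l f`, `PowerSeries.coeff_C_mul`). Only the finitely many pairs `(i, l)` with `l < w i * e` matter for the choice of `θ`.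
-/

set_option autoImplicit false

namespace Pool.Agent.Lib.MP_1e3e9c_agF

theorem zoom_ps {L : Type} [Field L] [IsAlgClosed L] (A : ValuationSubring L) {n e : ℕ}
    {w : Fin (n + 1) → ℕ} (f : Fin (n + 1) → PowerSeries L)
    (hA : ∀ i l, PowerSeries.coeff l (f i) ∈ A)
    (hm : ∀ i l, l < w i * e → PowerSeries.coeff l (f i) ∈ A.nonunits)
    (hne : ∃ i l, l < w i * e ∧ PowerSeries.coeff l (f i) ≠ 0) :
    ∃ (θ : L) (g : Fin (n + 1) → PowerSeries L), θ ≠ 0 ∧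
      (∀ i, PowerSeries.C (θ ^ (w i * e)) * g i = PowerSeries.rescale θ (f i)) ∧
      (∀ i l, PowerSeries.coeff l (g i) ∈ A) ∧
      (∀ i l, w i * e < l → PowerSeries.coeff l (g i) ∈ A.nonunits) ∧
      (∀ i, PowerSeries.coeff (w i * e) (g i) = PowerSeries.coeff (w i * e) (f i)) ∧
      ∃ i l, l < w i * e ∧ PowerSeries.coeff l (g i) ∉ A.nonunits := by
  classical
  have hr : ∀ (i : Fin (n + 1)) (l : ℕ), ∃ ρ : L, l < w i * e → ρ ^ (w i * e - l) = PowerSeries.coeff l (f i) := by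
    intro i l
    by_cases h : l < w i * e
    · obtain ⟨ρ, hρ⟩ := IsAlgClosed.exists_pow_nat_eq (PowerSeries.coeff l (f i)) (Nat.sub_pos_of_lt h)
      exact ⟨ρ, fun _ => hρ⟩
    · exact ⟨0, fun h' => absurd h' h⟩
  choose r hr using hr
  set B : Finset (Σ _ : Fin (n + 1), ℕ) := (Finset.univ : Finset (Fin (n + 1))).sigma
    (fun i => (Finset.range (w i * e)).filter (fun l => PowerSeries.coeff l (f i) ≠ 0)) with hB
  have hBm : ∀ (i : Fin (n + 1)) (l : ℕ), (⟨i, l⟩ : Σ _ : Fin (n + 1), ℕ) ∈ B ↔ l < w i * e ∧ PowerSeries.coeff l (f i) ≠ 0 := by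
    intro i l
    rw [hB, Finset.mem_sigma, Finset.mem_filter, Finset.mem_range]
    simp
  obtain ⟨i₁, l₁, hl₁, hc₁⟩ := hne
  obtain ⟨⟨i₀, l₀⟩, hmem, hmax⟩ := Finset.exists_max_image B (fun x => A.valuation (r x.1 x.2))
    ⟨⟨i₁, l₁⟩, (hBm i₁ l₁).2 ⟨hl₁, hc₁⟩⟩
  obtain ⟨hl₀, hc₀⟩ := (hBm i₀ l₀).1 hmem
  obtain ⟨θ, hθ⟩ : ∃ θ, θ = r i₀ l₀ := ⟨_, rfl⟩
  have hmax' : ∀ i l, l < w i * e → PowerSeries.coeff l (f i) ≠ 0 → A.valuation (r i l) ≤ A.valuation θ := by
    intro i l hl hc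
    rw [hθ]
    exact hmax ⟨i, l⟩ ((hBm i l).2 ⟨hl, hc⟩)
  have hθe : θ ^ (w i₀ * e - l₀) = PowerSeries.coeff l₀ (f i₀) := by
    rw [hθ]
    exact hr i₀ l₀ hl₀
  have hk₀ : w i₀ * e - l₀ ≠ 0 := (Nat.sub_pos_of_lt hl₀).ne'
  have hθ0 : θ ≠ 0 := by
    intro h
    apply hc₀
    rw [← hθe, h, zero_pow hk₀]
  have hvθ : A.valuation θ < 1 := by
    by_contra h
    rw [not_lt] at h
    have h1 := (A.mem_nonunits_iff).1 (hm i₀ l₀ hl₀)
    rw [← hθe, map_pow] at h1
    exact absurd h1 (not_lt.2 (one_le_pow₀ h))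
  have hco : ∀ i l, PowerSeries.coeff l (PowerSeries.C ((θ ^ (w i * e))⁻¹) * PowerSeries.rescale θ (f i)) =
      (θ ^ (w i * e))⁻¹ * (PowerSeries.coeff l (f i) * θ ^ l) := by
    intro i l
    rw [PowerSeries.coeff_C_mul, PowerSeries.coeff_rescale, mul_comm (θ ^ l)]
  have hlow : ∀ i l, l < w i * e → (θ ^ (w i * e))⁻¹ * (PowerSeries.coeff l (f i) * θ ^ l) =
      (r i l / θ) ^ (w i * e - l) := by
    intro i l hl
    rw [← hr i l hl, div_pow]
    have h1 : θ ^ (w i * e) = θ ^ (w i * e - l) * θ ^ l := by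
      rw [← pow_add, Nat.sub_add_cancel hl.le]
    have h2 : θ ^ (w i * e - l) ≠ 0 := pow_ne_zero _ hθ0
    have h3 : θ ^ l ≠ 0 := pow_ne_zero _ hθ0
    rw [h1]
    field_simp
  refine ⟨θ, fun i => PowerSeries.C ((θ ^ (w i * e))⁻¹) * PowerSeries.rescale θ (f i), hθ0, ?_, ?_, ?_,
    ?_, i₀, l₀, hl₀, ?_⟩
  · intro i
    rw [← mul_assoc, ← map_mul, mul_inv_cancel₀ (pow_ne_zero _ hθ0), map_one, one_mul]
  · intro i l
    rw [hco]
    rcases lt_trichotomy l (w i * e) with h | h | h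
    · by_cases hc : PowerSeries.coeff l (f i) = 0
      · rw [hc, zero_mul, mul_zero]
        exact A.zero_mem
      · rw [hlow i l h]
        have h5 : r i l / θ ∈ A := by
          rw [← A.valuation_le_one_iff, map_div₀]
          exact div_le_one_of_le₀ (hmax' i l h hc) zero_le
        exact A.toSubring.pow_mem h5 _
    · rw [h, mul_comm (PowerSeries.coeff (w i * e) (f i)), ← mul_assoc, inv_mul_cancel₀ (pow_ne_zero _ hθ0), one_mul]
      exact hA i _
    · have h1 : (θ ^ (w i * e))⁻¹ * (PowerSeries.coeff l (f i) * θ ^ l) = PowerSeries.coeff l (f i) * θ ^ (l - w i * e) := by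
        have h2 : θ ^ l = θ ^ (l - w i * e) * θ ^ (w i * e) := by
          rw [← pow_add, Nat.sub_add_cancel h.le]
        have h3 : θ ^ (w i * e) ≠ 0 := pow_ne_zero _ hθ0
        rw [h2]
        field_simp
      rw [h1]
      have h5 : θ ∈ A := by
        rw [← A.valuation_le_one_iff]
        exact hvθ.le
      exact A.mul_mem _ _ (hA i l) (A.toSubring.pow_mem h5 _)
  · intro i l h
    rw [hco]
    have h1 : (θ ^ (w i * e))⁻¹ * (PowerSeries.coeff l (f i) * θ ^ l) = PowerSeries.coeff l (f i) * θ ^ (l - w i * e) := by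
      have h2 : θ ^ l = θ ^ (l - w i * e) * θ ^ (w i * e) := by
        rw [← pow_add, Nat.sub_add_cancel h.le]
      have h3 : θ ^ (w i * e) ≠ 0 := pow_ne_zero _ hθ0
      rw [h2]
      field_simp
    rw [h1, A.mem_nonunits_iff, map_mul, map_pow]
    have h4 : A.valuation (PowerSeries.coeff l (f i)) ≤ 1 := (A.valuation_le_one_iff _).2 (hA i l)
    have h5 : A.valuation θ ^ (l - w i * e) < 1 := pow_lt_one₀ zero_le hvθ (Nat.sub_pos_of_lt h).ne'
    exact mul_lt_one_of_nonneg_of_lt_one_right h4 zero_le h5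
  · intro i
    rw [hco, mul_comm (PowerSeries.coeff (w i * e) (f i)), ← mul_assoc, inv_mul_cancel₀ (pow_ne_zero _ hθ0), one_mul]
  · rw [hco, hlow i₀ l₀ hl₀, ← hθ, div_self hθ0, one_pow, A.mem_nonunits_iff, map_one]
    exact lt_irrefl 1

end Pool.Agent.Lib.MP_1e3e9c_agF
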