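import Mathlib
import Pool.Agent.Lib.MP_1e3e9c_agM.M1
import Pool.Agent.Lib.MP_1e3e9c_agF.G1
import Pool.Agent.Lib.MP_1e3e9c_agF.G11

/-!
# MP_1e3e9c_ag, project F, leaf G12: the centre of a constant reduction, for power series

PROOF. The proof of `centre` (`Pool/Agent/Lib/MP_1e3e9c_agM/M7.lean`; copy its private lemmas), with power series `f i` over `A` and a power series `h`. `κ = IsLocalRing.ResidueField A`; `red` = `PowerSeries.map (residue A)`. Induction on `e` (for all `f`, `h`). `red (f i) = C (v i) * h ^ w i`, `h = X ^ e * h'`, `ε = h'(0) ≠ 0`.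
So the coefficients of `red (f i)` of index `l < w i * e` are `0` and the one of index `w i * e` is `v i * ε ^ (w i)` (`PowerSeries.X_pow_dvd_iff`, `PowerSeries.coeff_X_pow_mul`). `e = 0`: for `v i ≠ 0` the reduction of `constantCoeff (f i)` is `v i * ε ^ (w i) ≠ 0`. `e > 0`: the coefficients of `f i` at `l < w i * e` are nonunits.
If they are all `0`, then `constantCoeff (f i) = 0` for all `i` (`0 < w i * e`). Otherwise `zoom_ps` (G11; applied to the images of the `f i` over `L`) gives `θ` and `g i` over `L`, with coefficients in `A`: `g i` comes from `G i : PowerSeries A`. `aeval G P = 0` for `P ∈ S`: `P` is weighted homogeneous of weight `m`;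
`rescale θ` is a ring homomorphism over `k`; `aeval (rescale θ (f i)) P = 0`, `rescale θ (f i) = C (θ ^ e) ^ (w i) * g i`, so `C (θ ^ e) ^ m * aeval g P = 0` (`M7_scale`), and `PowerSeries A → PowerSeries L` is injective. The coefficients of `G i` of index `> w i * e` have the reduction `0`: so `red (G i)` is a POLYNOMIAL
`gb i` (coerced to power series) with `natDegree (gb i) ≤ w i * e` and `coeff (w i * e) (gb i) = v i * ε ^ (w i)`; `aeval gb P = 0` (`Polynomial.coeToPowerSeries` is injective, a `k`-algebra homomorphism: `Polynomial.coeToPowerSeries.algHom`; or `rs_aeval` of G1). From here as in M7: `r i = C (ε⁻¹ ^ w i) * reflect (w i * e) (gb i)`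
is a curve of degree `≤ w i * e` through `v` in the zero set of `S` (`M7_refl`); by `hM (e + 1)` and `orbit_poly` (M1) `r i = C (v i) * f₁ ^ w i`, `natDegree f₁ ≤ e`, `gb i = C (v i) * h₂ ^ w i`, `h₂ = C ε * reflect e f₁ ≠ 0`, `h₂ = X ^ e' * h₃`, `h₃(0) ≠ 0`, `e' < e` (otherwise the coefficients of `gb i` of index
`< w i * e` are `0`, against the last statement of `zoom_ps`). The induction hypothesis for `G`, `e'`, `(h₂ : PowerSeries κ)`; `constantCoeff (G i) = 0 ↔ constantCoeff (f i) = 0` because `θ ≠ 0`.
-/

set_option autoImplicit false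

namespace Pool.Agent.Lib.MP_1e3e9c_agF

open Pool.Agent.Lib.MP_1e3e9c_agR Pool.Agent.Lib.MP_1e3e9c_agM

private theorem G12_scale {k R : Type} [Field k] [CommRing R] [Algebra k R] {n : ℕ}
    {w : Fin (n + 1) → ℕ} {P : MvPolynomial (Fin (n + 1)) k} {m : ℕ}
    (hP : P.IsWeightedHomogeneous w m) (c : R) (g : Fin (n + 1) → R) :
    MvPolynomial.aeval (fun i => c ^ w i * g i) P = c ^ m * MvPolynomial.aeval g P := by
  rw [MvPolynomial.aeval_def, MvPolynomial.aeval_def, MvPolynomial.eval₂_eq', MvPolynomial.eval₂_eq',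
    Finset.mul_sum]
  refine Finset.sum_congr rfl fun d hd => ?_
  have h1 : ∑ i, w i * d i = m := by
    have h2 := hP (MvPolynomial.mem_support_iff.mp hd)
    rw [Finsupp.weight_apply, Finsupp.sum_fintype _ _ (fun i => by rw [zero_smul])] at h2
    rw [← h2]
    exact Finset.sum_congr rfl fun i _ => by rw [smul_eq_mul, mul_comm]
  have h3 : ∏ i, (c ^ w i * g i) ^ d i = c ^ m * ∏ i, g i ^ d i := by
    rw [← h1, ← Finset.prod_pow_eq_pow_sum, ← Finset.prod_mul_distrib]
    exact Finset.prod_congr rfl fun i _ => by rw [mul_pow, pow_mul]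
  rw [h3]
  ring

private theorem G12_refl {k K : Type} [Field k] [Field K] [Algebra k K] {n : ℕ}
    {w : Fin (n + 1) → ℕ} {P : MvPolynomial (Fin (n + 1)) k} {m : ℕ}
    (hP : P.IsWeightedHomogeneous w m) (e : ℕ) (c : K) (a : Fin (n + 1) → Polynomial K)
    (ha : ∀ i, (a i).natDegree ≤ w i * e) (h0 : MvPolynomial.aeval a P = 0) :
    MvPolynomial.aeval (fun i => Polynomial.C (c ^ w i) * (a i).reflect (w i * e)) P = 0 := by
  obtain ⟨T, hT⟩ : ∃ T : FractionRing (Polynomial K),
      T = algebraMap (Polynomial K) (FractionRing (Polynomial K)) Polynomial.X := ⟨_, rfl⟩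
  have hT0 : T ≠ 0 := by
    rw [hT]
    exact (map_ne_zero_iff _ (IsFractionRing.injective (Polynomial K) (FractionRing (Polynomial K)))).mpr
      Polynomial.X_ne_zero
  have hinj := IsFractionRing.injective (Polynomial K) (FractionRing (Polynomial K))
  have hC : ∀ x : K, algebraMap (Polynomial K) (FractionRing (Polynomial K)) (Polynomial.C x) =
      algebraMap K (FractionRing (Polynomial K)) x := fun x =>
    (IsScalarTower.algebraMap_apply K (Polynomial K) (FractionRing (Polynomial K)) x).symm
  have key : ∀ i, algebraMap (Polynomial K) (FractionRing (Polynomial K))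
      (Polynomial.C (c ^ w i) * (a i).reflect (w i * e)) =
      (algebraMap K (FractionRing (Polynomial K)) c * T ^ e) ^ w i * Polynomial.aeval (T⁻¹) (a i) := by
    intro i
    have h1 : Polynomial.aeval T ((a i).reflect (w i * e)) =
        algebraMap (Polynomial K) (FractionRing (Polynomial K)) ((a i).reflect (w i * e)) := by
      rw [hT, Polynomial.aeval_algebraMap_apply, Polynomial.aeval_X_left_apply]
    have h2 : Polynomial.aeval T ((a i).reflect (w i * e)) = T ^ (w i * e) * Polynomial.aeval (T⁻¹) (a i) := by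
      let _ : Invertible (T⁻¹) := invertibleOfNonzero (inv_ne_zero hT0)
      have h3 := Polynomial.eval₂_reflect_mul_pow (algebraMap K (FractionRing (Polynomial K))) (T⁻¹) (w i * e)
        (a i) (ha i)
      rw [invOf_eq_inv, inv_inv] at h3
      rw [Polynomial.aeval_def, Polynomial.aeval_def, ← h3, mul_left_comm, ← mul_pow,
        mul_inv_cancel₀ hT0, one_pow, mul_one]
    rw [map_mul, ← h1, h2, mul_pow, ← pow_mul, mul_comm e (w i), hC, map_pow]
    ring
  apply hinj
  rw [map_zero]
  have h1 := MvPolynomial.comp_aeval_apply (fun i => Polynomial.C (c ^ w i) * (a i).reflect (w i * e))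
    (IsScalarTower.toAlgHom k (Polynomial K) (FractionRing (Polynomial K))) P
  have h2 := MvPolynomial.comp_aeval_apply a
    ((Polynomial.aeval (T⁻¹) : Polynomial K →ₐ[K] FractionRing (Polynomial K)).restrictScalars k) P
  rw [h0, map_zero] at h2
  refine h1.trans ?_
  have h3 : (fun i => (IsScalarTower.toAlgHom k (Polynomial K) (FractionRing (Polynomial K)))
      (Polynomial.C (c ^ w i) * (a i).reflect (w i * e))) =
      fun i => (algebraMap K (FractionRing (Polynomial K)) c * T ^ e) ^ w i * Polynomial.aeval (T⁻¹) (a i) :=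
    funext key
  rw [h3, G12_scale hP]
  have h4 : MvPolynomial.aeval (fun i => Polynomial.aeval (T⁻¹) (a i)) P = 0 := h2.symm
  rw [h4, mul_zero]

private theorem G12_pow {K : Type} [Field K] {e : ℕ} {f : Polynomial K} (hf : f.natDegree ≤ e) (w : ℕ) :
    (f ^ w).reflect (w * e) = (f.reflect e) ^ w := by
  induction w with
  | zero => rw [pow_zero, pow_zero, zero_mul, Polynomial.reflect_one, pow_zero]
  | succ w ih =>
    rw [Nat.succ_mul, pow_succ, pow_succ, Polynomial.reflect_mul _ _ (Polynomial.natDegree_pow_le_of_le w hf) hf, ih]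

private theorem G12_coeff {K : Type} [Field K] {h h' : PowerSeries K} {e : ℕ}
    (hh : h = PowerSeries.X ^ e * h') (c : K) (w : ℕ) :
    (∀ l, l < w * e → PowerSeries.coeff l (PowerSeries.C c * h ^ w) = 0) ∧
      PowerSeries.coeff (w * e) (PowerSeries.C c * h ^ w) = c * PowerSeries.constantCoeff h' ^ w := by
  have h1 : h ^ w = PowerSeries.X ^ (w * e) * h' ^ w := by
    rw [hh, mul_pow, ← pow_mul, mul_comm e w]
  refine ⟨fun l hl => ?_, ?_⟩
  · rw [h1, PowerSeries.coeff_C_mul, PowerSeries.coeff_X_pow_mul', if_neg (not_le.mpr hl), mul_zero]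
  · rw [h1, PowerSeries.coeff_C_mul, PowerSeries.coeff_X_pow_mul', if_pos le_rfl, Nat.sub_self,
      PowerSeries.coeff_zero_eq_constantCoeff_apply, map_pow]

theorem centre_ps {k L : Type} [Field k] [Field L] [IsAlgClosed L] [Algebra k L]
    (A : ValuationSubring L) [Algebra k A] [IsScalarTower k A L] {n : ℕ}
    {w : Fin (n + 1) → ℕ} (hw : ∀ i, 0 < w i) {S : Set (MvPolynomial (Fin (n + 1)) k)}
    (hS : ∀ P ∈ S, ∃ m, P.IsWeightedHomogeneous w m) {v : Fin (n + 1) → k} (hv : v ≠ 0)
    (hM : ∀ D, Mn (IsLocalRing.ResidueField A) w S D v)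
    (hG : Gp (IsLocalRing.ResidueField A) w S)
    (e : ℕ) (f : Fin (n + 1) → PowerSeries A)
    (hf : ∀ P ∈ S, MvPolynomial.aeval f P = 0) (h : PowerSeries (IsLocalRing.ResidueField A))
    (hr : ∀ i, PowerSeries.map (IsLocalRing.residue A) (f i) =
      PowerSeries.C (bc (IsLocalRing.ResidueField A) v i) * h ^ w i)
    (hh : ∃ h' : PowerSeries (IsLocalRing.ResidueField A),
      h = PowerSeries.X ^ e * h' ∧ PowerSeries.constantCoeff h' ≠ 0) :
    (∀ i, PowerSeries.constantCoeff (f i) = 0) ∨
      ∀ i, v i ≠ 0 → PowerSeries.constantCoeff (f i) ≠ 0 := by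
  induction e using Nat.strong_induction_on generalizing f h with
  | _ e ih =>
  obtain ⟨h', hh1, hh2⟩ := hh
  have hbi : ∀ i, bc (IsLocalRing.ResidueField A) v i ≠ 0 ↔ v i ≠ 0 := fun i =>
    (map_ne_zero_iff (algebraMap k (IsLocalRing.ResidueField A))
      (algebraMap k (IsLocalRing.ResidueField A)).injective)
  have hcoef : ∀ i l, IsLocalRing.residue A (PowerSeries.coeff l (f i)) =
      PowerSeries.coeff l (PowerSeries.C (bc (IsLocalRing.ResidueField A) v i) * h ^ w i) := by
    intro i l
    rw [← hr i, PowerSeries.coeff_map]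
  rcases Nat.eq_zero_or_pos e with rfl | hepos
  · right
    intro i hi h0
    have h1 := hcoef i 0
    have h2 := (G12_coeff hh1 (bc (IsLocalRing.ResidueField A) v i) (w i)).2
    rw [mul_zero] at h2
    rw [PowerSeries.coeff_zero_eq_constantCoeff_apply, h0, map_zero, h2] at h1
    exact (mul_ne_zero ((hbi i).mpr hi) (pow_ne_zero _ hh2)) h1.symm
  -- the power series over `L`
  obtain ⟨F, hF⟩ : ∃ F : Fin (n + 1) → PowerSeries L, F = fun i => PowerSeries.map (algebraMap A L) (f i) := ⟨_, rfl⟩
  have hFc : ∀ i l, PowerSeries.coeff l (F i) = ((PowerSeries.coeff l (f i) : A) : L) := by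
    intro i l
    rw [hF]
    simp only [PowerSeries.coeff_map]
    rfl
  have hnu : ∀ a : A, (a : L) ∈ A.nonunits ↔ IsLocalRing.residue A a = 0 := fun a => by
    rw [ValuationSubring.coe_mem_nonunits_iff, IsLocalRing.residue_eq_zero_iff]
  by_cases hne : ∃ i l, l < w i * e ∧ PowerSeries.coeff l (F i) ≠ 0
  · have hA : ∀ i l, PowerSeries.coeff l (F i) ∈ A := fun i l => by
      rw [hFc]
      exact SetLike.coe_mem _
    have hm : ∀ i l, l < w i * e → PowerSeries.coeff l (F i) ∈ A.nonunits := by
      intro i l hl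
      rw [hFc, hnu, hcoef]
      exact (G12_coeff hh1 _ (w i)).1 l hl
    obtain ⟨θ, g, hθ, hg1, hg2, hg3, hg4, i₀, l₀, hl₀, hg5⟩ := zoom_ps A F hA hm hne
    obtain ⟨G, hGd⟩ : ∃ G : Fin (n + 1) → PowerSeries A, G = fun i => PowerSeries.mk fun l => ⟨PowerSeries.coeff l (g i), hg2 i l⟩ :=
      ⟨_, rfl⟩
    have hGc : ∀ i l, PowerSeries.coeff l (g i) = ((PowerSeries.coeff l (G i) : A) : L) := by
      intro i l
      rw [hGd]
      simp only [PowerSeries.coeff_mk]
    have hG1 : ∀ i, PowerSeries.map (algebraMap A L) (G i) = g i := by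
      intro i
      ext l
      rw [PowerSeries.coeff_map, hGc]
      rfl
    have hAL : Function.Injective (algebraMap A L) := Subtype.val_injective
    -- the values of `G`
    have hGS : ∀ P ∈ S, MvPolynomial.aeval G P = 0 := by
      intro P hP
      obtain ⟨m, hPm⟩ := hS P hP
      apply PowerSeries.map_injective (algebraMap A L) hAL
      rw [map_zero]
      have h1 := MvPolynomial.comp_aeval_apply G (PowerSeries.mapAlgHom (IsScalarTower.toAlgHom k A L)) P
      have h2 := MvPolynomial.comp_aeval_apply f (PowerSeries.mapAlgHom (IsScalarTower.toAlgHom k A L)) P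
      rw [hf P hP, map_zero] at h2
      refine h1.trans ?_
      have h3 : (fun i => PowerSeries.mapAlgHom (IsScalarTower.toAlgHom k A L) (G i)) = g :=
        funext fun i => hG1 i
      have h4 : (fun i => PowerSeries.mapAlgHom (IsScalarTower.toAlgHom k A L) (f i)) = F :=
        hF.symm
      rw [h3]
      rw [h4] at h2
      have h5 := MvPolynomial.comp_aeval_apply F ((PowerSeries.rescaleAlgHom θ).restrictScalars k) P
      rw [← h2, map_zero] at h5
      have h6 : (fun i => ((PowerSeries.rescaleAlgHom θ).restrictScalars k) (F i)) =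
          fun i => (PowerSeries.C (θ ^ e)) ^ w i * g i := by
        funext i
        have h7 : ((PowerSeries.rescaleAlgHom θ).restrictScalars k) (F i) = PowerSeries.rescale θ (F i) := by
          rw [← PowerSeries.coe_rescaleAlgHom]
          rfl
        rw [h7, ← hg1 i, ← map_pow, ← pow_mul, mul_comm e (w i)]
      rw [h6, G12_scale hPm] at h5
      exact (mul_eq_zero.mp h5.symm).resolve_left
        (pow_ne_zero _ (by
          intro h8
          exact (pow_ne_zero e hθ) (PowerSeries.C_injective (by rw [h8, map_zero]))))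
    -- the reductions
    obtain ⟨gb, hgb⟩ : ∃ gb : Fin (n + 1) → Polynomial (IsLocalRing.ResidueField A),
        gb = fun i => PowerSeries.trunc (w i * e + 1) (PowerSeries.map (IsLocalRing.residue A) (G i)) := ⟨_, rfl⟩
    have hred0 : ∀ i l, w i * e < l → IsLocalRing.residue A (PowerSeries.coeff l (G i)) = 0 := by
      intro i l hl
      rw [← hnu, ← hGc]
      exact hg3 i l hl
    have hgbc : ∀ i l, (gb i).coeff l = IsLocalRing.residue A (PowerSeries.coeff l (G i)) := by
      intro i l
      rw [hgb]
      simp only [PowerSeries.coeff_trunc]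
      by_cases hl : l < w i * e + 1
      · rw [if_pos hl, PowerSeries.coeff_map]
      · rw [if_neg hl, hred0 i l (by omega)]
    have hgbcoe : ∀ i, ((gb i : Polynomial (IsLocalRing.ResidueField A)) : PowerSeries (IsLocalRing.ResidueField A)) =
        PowerSeries.map (IsLocalRing.residue A) (G i) := by
      intro i
      ext l
      rw [Polynomial.coeff_coe, hgbc, PowerSeries.coeff_map]
    have hid : ∀ x : PowerSeries (IsLocalRing.ResidueField A),
        PowerSeries.map (algebraMap (IsLocalRing.ResidueField A) (IsLocalRing.ResidueField A)) x = x := by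
      intro x
      ext l
      rw [PowerSeries.coeff_map]
      rfl
    have hgbS : ∀ P ∈ S, MvPolynomial.aeval gb P = 0 := by
      intro P hP
      have h1 := MvPolynomial.comp_aeval_apply G
        (PowerSeries.mapAlgHom (IsScalarTower.toAlgHom k A (IsLocalRing.ResidueField A))) P
      rw [hGS P hP, map_zero] at h1
      have h2 := MvPolynomial.comp_aeval_apply gb
        ((Polynomial.coeToPowerSeries.algHom (IsLocalRing.ResidueField A)).restrictScalars k) P
      have h3 : (fun i => ((Polynomial.coeToPowerSeries.algHom (IsLocalRing.ResidueField A)).restrictScalars k) (gb i)) =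
          fun i => PowerSeries.mapAlgHom (IsScalarTower.toAlgHom k A (IsLocalRing.ResidueField A)) (G i) := by
        funext i
        have h4 : ((Polynomial.coeToPowerSeries.algHom (IsLocalRing.ResidueField A)).restrictScalars k) (gb i) =
            ((gb i : Polynomial (IsLocalRing.ResidueField A)) : PowerSeries (IsLocalRing.ResidueField A)) := by
          rw [AlgHom.restrictScalars_apply, Polynomial.coeToPowerSeries.algHom_apply]
          exact hid _
        rw [h4, hgbcoe]
        rfl
      rw [h3, ← h1] at h2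
      apply Polynomial.coe_injective
      rw [Polynomial.coe_zero, ← h2, AlgHom.restrictScalars_apply, Polynomial.coeToPowerSeries.algHom_apply]
      exact (hid _).symm
    have hgbd : ∀ i, (gb i).natDegree ≤ w i * e := by
      intro i
      rw [Polynomial.natDegree_le_iff_coeff_eq_zero]
      intro l hl
      rw [hgbc]
      exact hred0 i l hl
    obtain ⟨ε, hε⟩ : ∃ ε : IsLocalRing.ResidueField A, ε = PowerSeries.constantCoeff h' := ⟨_, rfl⟩
    have hε0 : ε ≠ 0 := by rwa [hε]
    have hgbe : ∀ i, (gb i).coeff (w i * e) = bc (IsLocalRing.ResidueField A) v i * ε ^ w i := by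
      intro i
      have h1 : PowerSeries.coeff (w i * e) (G i) = PowerSeries.coeff (w i * e) (f i) := by
        apply hAL
        show ((PowerSeries.coeff (w i * e) (G i) : A) : L) = ((PowerSeries.coeff (w i * e) (f i) : A) : L)
        rw [← hGc, ← hFc, hg4]
      rw [hgbc, h1, hcoef, hε]
      exact (G12_coeff hh1 _ (w i)).2
    obtain ⟨r, hrr⟩ : ∃ r : Fin (n + 1) → Polynomial (IsLocalRing.ResidueField A),
        r = fun i => Polynomial.C ((ε⁻¹) ^ w i) * (gb i).reflect (w i * e) := ⟨_, rfl⟩
    have hrd : ∀ i, (r i).natDegree ≤ w i * e := by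
      intro i
      rw [hrr]
      refine (Polynomial.natDegree_C_mul_le _ _).trans ?_
      refine Polynomial.natDegree_reflect_le.trans ?_
      rw [max_eq_left (hgbd i)]
    have hr0 : ∀ i, (r i).coeff 0 = bc (IsLocalRing.ResidueField A) v i := by
      intro i
      rw [hrr]
      simp only
      rw [Polynomial.coeff_C_mul, Polynomial.coeff_reflect, Polynomial.revAt_zero, hgbe, inv_pow]
      have := pow_ne_zero (w i) hε0
      field_simp
    have hrS : ∀ P ∈ S, MvPolynomial.aeval r P = 0 := by
      intro P hP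
      obtain ⟨m, hPm⟩ := hS P hP
      rw [hrr]
      exact G12_refl hPm e _ gb hgbd (hgbS P hP)
    have hBi := hM (e + 1) e (Nat.lt_succ_self e) r hrd hr0 hrS
    have hb0 : bc (IsLocalRing.ResidueField A) v ≠ 0 := by
      obtain ⟨i, hi⟩ := Function.ne_iff.mp hv
      exact Function.ne_iff.mpr ⟨i, (hbi i).mpr hi⟩
    have hGcv : Gc w (bc (IsLocalRing.ResidueField A) v) := by
      refine hG _ hb0 fun P hP => ?_
      have h1 := MvPolynomial.comp_aeval_apply r
        ((Polynomial.aeval (0 : IsLocalRing.ResidueField A) :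
          Polynomial (IsLocalRing.ResidueField A) →ₐ[IsLocalRing.ResidueField A]
            IsLocalRing.ResidueField A).restrictScalars k) P
      rw [hrS P hP, map_zero] at h1
      have h2 : (fun i => ((Polynomial.aeval (0 : IsLocalRing.ResidueField A) :
          Polynomial (IsLocalRing.ResidueField A) →ₐ[IsLocalRing.ResidueField A]
            IsLocalRing.ResidueField A).restrictScalars k) (r i)) =
          bc (IsLocalRing.ResidueField A) v := by
        funext i
        rw [← hr0 i, Polynomial.coeff_zero_eq_eval_zero]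
        rfl
      rw [h2] at h1
      exact h1.symm
    obtain ⟨f₁, hf₁, hrf⟩ := orbit_poly hw hb0 hGcv hBi hr0
    have hf₁0 : f₁ ≠ 0 := by
      intro h0
      rw [h0, Polynomial.eval_zero] at hf₁
      exact zero_ne_one hf₁
    have hf₁d : f₁.natDegree ≤ e := by
      obtain ⟨i, hi⟩ := Function.ne_iff.mp hv
      have h1 := hrd i
      rw [hrf i, Polynomial.natDegree_C_mul ((hbi i).mpr hi), Polynomial.natDegree_pow] at h1
      exact Nat.le_of_mul_le_mul_left h1 (hw i)
    obtain ⟨h₂, hh₂⟩ : ∃ h₂ : Polynomial (IsLocalRing.ResidueField A),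
        h₂ = Polynomial.C ε * f₁.reflect e := ⟨_, rfl⟩
    have hh₂0 : h₂ ≠ 0 := by
      rw [hh₂]
      refine mul_ne_zero (Polynomial.C_ne_zero.mpr hε0) ?_
      rw [Ne, Polynomial.reflect_eq_zero_iff]
      exact hf₁0
    have hgh : ∀ i, gb i = Polynomial.C (bc (IsLocalRing.ResidueField A) v i) * h₂ ^ w i := by
      intro i
      have h1 : (gb i).reflect (w i * e) = Polynomial.C (ε ^ w i) *
          (Polynomial.C (bc (IsLocalRing.ResidueField A) v i) * f₁ ^ w i) := by
        rw [← hrf i, hrr]
        simp only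
        rw [← mul_assoc, ← Polynomial.C_mul, ← mul_pow, mul_inv_cancel₀ hε0, one_pow, Polynomial.C_1, one_mul]
      have h2 : gb i = ((gb i).reflect (w i * e)).reflect (w i * e) := Polynomial.reflect_reflect.symm
      rw [h2, h1, Polynomial.reflect_C_mul, Polynomial.reflect_C_mul, G12_pow hf₁d, hh₂, mul_pow,
        ← Polynomial.C_pow]
      ring
    have hGh : ∀ i, PowerSeries.map (IsLocalRing.residue A) (G i) =
        PowerSeries.C (bc (IsLocalRing.ResidueField A) v i) *
          (h₂ : PowerSeries (IsLocalRing.ResidueField A)) ^ w i := by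
      intro i
      rw [← hgbcoe i, hgh i, Polynomial.coe_mul, Polynomial.coe_C, Polynomial.coe_pow]
    obtain ⟨e', h₃, hh₃, hh₃0⟩ : ∃ (e' : ℕ) (h₃ : PowerSeries (IsLocalRing.ResidueField A)),
        (h₂ : PowerSeries (IsLocalRing.ResidueField A)) = PowerSeries.X ^ e' * h₃ ∧
          PowerSeries.constantCoeff h₃ ≠ 0 := by
      obtain ⟨q, hq, hq2⟩ := Polynomial.exists_eq_pow_rootMultiplicity_mul_and_not_dvd h₂ hh₂0 0
      rw [Polynomial.C_0, sub_zero] at hq
      rw [Polynomial.C_0, sub_zero, Polynomial.X_dvd_iff] at hq2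
      refine ⟨h₂.rootMultiplicity 0, (q : PowerSeries (IsLocalRing.ResidueField A)), ?_, ?_⟩
      · have h1 := congrArg (fun p : Polynomial (IsLocalRing.ResidueField A) =>
          (p : PowerSeries (IsLocalRing.ResidueField A))) hq
        simp only [Polynomial.coe_mul, Polynomial.coe_pow, Polynomial.coe_X] at h1
        exact h1
      · rw [Polynomial.constantCoeff_coe]
        exact hq2
    have he' : e' < e := by
      by_contra hcon
      push Not at hcon
      have h1 : (h₂ : PowerSeries (IsLocalRing.ResidueField A)) =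
          PowerSeries.X ^ e * (PowerSeries.X ^ (e' - e) * h₃) := by
        rw [← mul_assoc, ← pow_add, Nat.add_sub_cancel' hcon]
        exact hh₃
      apply hg5
      rw [hGc, hnu, ← PowerSeries.coeff_map, hGh i₀]
      exact (G12_coeff h1 _ (w i₀)).1 l₀ hl₀
    have hfin := ih e' he' G hGS (h₂ : PowerSeries (IsLocalRing.ResidueField A)) hGh ⟨h₃, hh₃, hh₃0⟩
    have hzero : ∀ i, PowerSeries.constantCoeff (G i) = 0 ↔ PowerSeries.constantCoeff (f i) = 0 := by
      intro i
      have h1 := congrArg (fun p => PowerSeries.coeff 0 p) (hg1 i)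
      simp only [PowerSeries.coeff_C_mul, PowerSeries.coeff_rescale, pow_zero, one_mul] at h1
      rw [hGc, hFc, PowerSeries.coeff_zero_eq_constantCoeff_apply, PowerSeries.coeff_zero_eq_constantCoeff_apply] at h1
      have h2 : θ ^ (w i * e) ≠ 0 := pow_ne_zero _ hθ
      constructor
      · intro h0
        rw [h0] at h1
        apply hAL
        show ((PowerSeries.constantCoeff (f i) : A) : L) = ((0 : A) : L)
        rw [← h1]
        simp
      · intro h0
        rw [h0] at h1
        apply hAL
        show ((PowerSeries.constantCoeff (G i) : A) : L) = ((0 : A) : L)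
        have h3 : ((0 : A) : L) = 0 := rfl
        rw [h3] at h1 ⊢
        exact (mul_eq_zero.mp h1).resolve_left h2
    rcases hfin with h1 | h1
    · left
      exact fun i => (hzero i).mp (h1 i)
    · right
      exact fun i hi h0 => h1 i hi ((hzero i).mpr h0)
  · left
    push Not at hne
    intro i
    have h1 := hne i 0 (Nat.mul_pos (hw i) hepos)
    rw [hFc, PowerSeries.coeff_zero_eq_constantCoeff_apply] at h1
    exact Subtype.ext h1

end Pool.Agent.Lib.MP_1e3e9c_agF
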