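import Mathlib

/-!
# MP_1e3e9c_ag, project F, leaf G13: the residue field is algebraically closed (MATHLIB ONLY)

PROOF. `κ = IsLocalRing.ResidueField A`. `IsAlgClosed.of_exists_root`: let `p : Polynomial κ` be monic and irreducible. `residue` is surjective, so `p` lifts to a monic polynomial `P` over `A` of the same degree (`Polynomial.lifts_and_natDegree_eq_and_monic`, `Polynomial.mem_lifts`).
`P.map (algebraMap A L)` is monic of positive degree, so it has a root `x : L` (`IsAlgClosed.exists_root`); `x` is integral over `A`, and `A` is integrally closed in `L` (`ValuationSubring`: `IsIntegrallyClosed A`, `IsFractionRing A L`; `IsIntegrallyClosed.isIntegral_iff` or `IsIntegrallyClosed.algebraMap_eq_of_integral`):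
`x` is the image of `y : A`, `P.eval y = 0`, so `p.eval (residue y) = 0` (`Polynomial.eval_map`, `Polynomial.hom_eval₂`).
-/

set_option autoImplicit false

namespace Pool.Agent.Lib.MP_1e3e9c_agF

theorem res_closed {L : Type} [Field L] [IsAlgClosed L] (A : ValuationSubring L) :
    IsAlgClosed (IsLocalRing.ResidueField A) := by
  refine IsAlgClosed.of_exists_root _ fun p hp hirr => ?_
  have hlift : p ∈ Polynomial.lifts (IsLocalRing.residue A) := by
    obtain ⟨q, hq⟩ := Polynomial.map_surjective (IsLocalRing.residue A) IsLocalRing.residue_surjective p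
    exact (Polynomial.mem_lifts p).2 ⟨q, hq⟩
  obtain ⟨P, hPp, hdeg, hPm⟩ := Polynomial.lifts_and_natDegree_eq_and_monic hlift hp
  have hdP : (P.map (algebraMap A L)).degree ≠ 0 := by
    rw [hPm.degree_map, Polynomial.degree_eq_natDegree hPm.ne_zero, hdeg]
    intro h
    have h1 : 0 < p.natDegree := hirr.natDegree_pos
    have h2 : p.natDegree = 0 := by exact_mod_cast h
    omega
  obtain ⟨x, hx⟩ := IsAlgClosed.exists_root (P.map (algebraMap A L)) hdP
  have hint : IsIntegral A x := by
    refine ⟨P, hPm, ?_⟩
    rw [Polynomial.IsRoot.def, Polynomial.eval_map] at hx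
    exact hx
  obtain ⟨y, hy⟩ := IsIntegrallyClosed.isIntegral_iff.1 hint
  have hPy : P.eval y = 0 := by
    rw [Polynomial.IsRoot.def, Polynomial.eval_map, ← hy, Polynomial.eval₂_at_apply] at hx
    exact (FaithfulSMul.algebraMap_injective A L) (hx.trans (map_zero (algebraMap A L)).symm)
  refine ⟨IsLocalRing.residue A y, ?_⟩
  rw [← hPp, Polynomial.eval_map, Polynomial.eval₂_at_apply, hPy, map_zero]

end Pool.Agent.Lib.MP_1e3e9c_agF
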