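import Mathlib
import Pool.Agent.Lib.MP_1e3e9c_agF.G3

/-!
# MP_1e3e9c_ag, project F, leaf G4: the scale of a bubble

PROOF. By `fg_val` (G3) for each `r i`, and the maximum of the finitely many `M`: there is `M` such that for all `i, l` there is `l' ≤ M` with `val (coeff l (r i)) ≤ val (coeff l' (r i))` (`val = A.valuation`, `x ∈ A ↔ val x ≤ 1`, `x ∈ A.nonunits ↔ val x < 1`: `ValuationSubring.valuation_le_one_iff`,
`ValuationSubring.mem_nonunits_iff`). Let `B` be the finite set of the pairs `(i, l)` with `l ≤ M`, `coeff l (r i) ∉ A`; it is not empty by `hne` (the pair of `hne` has a pair `(i, l')` with a larger value), and `l ≥ 1` in it (`h0`). For a pair in `B` choose `ρ` with `ρ ^ l = (coeff l (r i))⁻¹`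
(`IsAlgClosed.exists_pow_nat_eq`), so `val ρ < 1`, `ρ ≠ 0`. Let `η` be the `ρ` of the smallest value (`Finset.exists_min_image`), of the pair `(i₀, l₀)`. For all `(i, l)` with `l ≤ M`: `val (coeff l (r i) * η ^ l) ≤ 1` (for `(i, l) ∈ B`: `val (coeff) = (val ρ)^(-l)`, `val η ≤ val ρ`; otherwise
`coeff ∈ A`, `η ∈ A`). For `l > M`, `l' ≤ M` as above: `val (coeff l (r i)) * val η ^ l ≤ val (coeff l' (r i)) * val η ^ l' * val η ^ (l - l') ≤ 1`. For `(i₀, l₀)`: `coeff * η ^ l₀ = 1`.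
-/

set_option autoImplicit false

namespace Pool.Agent.Lib.MP_1e3e9c_agF

theorem scale {k L : Type} [Field k] [Field L] [IsAlgClosed L] [Algebra k L]
    (A : ValuationSubring L) (hkA : ∀ a : k, algebraMap k L a ∈ A) {n : ℕ}
    (r : Fin (n + 1) → PowerSeries L) (hr : ∀ i, Fg k (r i))
    (h0 : ∀ i, PowerSeries.coeff 0 (r i) ∈ A) (hne : ∃ i l, PowerSeries.coeff l (r i) ∉ A) :
    ∃ η : L, η ≠ 0 ∧ η ∈ A.nonunits ∧ (∀ i l, PowerSeries.coeff l (r i) * η ^ l ∈ A) ∧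
      ∃ i l, 0 < l ∧ PowerSeries.coeff l (r i) * η ^ l ∉ A.nonunits := by
  classical
  have hM' : ∀ i, ∃ M : ℕ, ∀ l, ∃ l' ≤ M,
      A.valuation (PowerSeries.coeff l (r i)) ≤ A.valuation (PowerSeries.coeff l' (r i)) :=
    fun i => fg_val A hkA (hr i)
  choose M hM using hM'
  obtain ⟨c, hc⟩ : ∃ c : Fin (n + 1) → ℕ → L, c = fun i l => PowerSeries.coeff l (r i) := ⟨_, rfl⟩
  have hci : ∀ i l, PowerSeries.coeff l (r i) = c i l := fun i l => by rw [hc]
  simp only [hci] at hM h0 hne ⊢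
  have hnA : ∀ x : L, x ∉ A ↔ 1 < A.valuation x := by
    intro x
    rw [← A.valuation_le_one_iff, not_le]
  have hpos : ∀ i l, c i l ∉ A → l ≠ 0 := by
    intro i l h hl
    rw [hl] at h
    exact h (h0 i)
  have hρ' : ∀ (i : Fin (n + 1)) (l : ℕ), ∃ ρ : L, c i l ∉ A → ρ ^ l = (c i l)⁻¹ := by
    intro i l
    by_cases h : c i l ∉ A
    · obtain ⟨ρ, hρ⟩ := IsAlgClosed.exists_pow_nat_eq ((c i l)⁻¹) (Nat.pos_of_ne_zero (hpos i l h))
      exact ⟨ρ, fun _ => hρ⟩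
    · exact ⟨0, fun h' => absurd h' h⟩
  choose ρ hρ using hρ'
  obtain ⟨B, hB⟩ : ∃ B : Finset (Σ _ : Fin (n + 1), ℕ), B = (Finset.univ : Finset (Fin (n + 1))).sigma
    (fun i => (Finset.range (M i + 1)).filter (fun l => c i l ∉ A)) := ⟨_, rfl⟩
  have hBm : ∀ (i : Fin (n + 1)) (l : ℕ), (⟨i, l⟩ : Σ _ : Fin (n + 1), ℕ) ∈ B ↔
      l < M i + 1 ∧ c i l ∉ A := by
    intro i l
    rw [hB, Finset.mem_sigma, Finset.mem_filter, Finset.mem_range]
    simp
  obtain ⟨i₁, l₁, hc₁⟩ := hne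
  obtain ⟨l₂, hl₂, hv₂⟩ := hM i₁ l₁
  have hc₂ : c i₁ l₂ ∉ A := by
    rw [hnA] at hc₁ ⊢
    exact hc₁.trans_le hv₂
  obtain ⟨⟨i₀, l₀⟩, hmem, hmin⟩ := Finset.exists_min_image B (fun x => A.valuation (ρ x.1 x.2))
    ⟨⟨i₁, l₂⟩, (hBm i₁ l₂).2 ⟨Nat.lt_succ_of_le hl₂, hc₂⟩⟩
  obtain ⟨hl₀, hc₀⟩ := (hBm i₀ l₀).1 hmem
  obtain ⟨η, hη⟩ : ∃ η, η = ρ i₀ l₀ := ⟨_, rfl⟩
  have hmin' : ∀ i l, l ≤ M i → c i l ∉ A → A.valuation η ≤ A.valuation (ρ i l) := by
    intro i l hl hci'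
    rw [hη]
    exact hmin ⟨i, l⟩ ((hBm i l).2 ⟨Nat.lt_succ_of_le hl, hci'⟩)
  have hηe : η ^ l₀ = (c i₀ l₀)⁻¹ := by
    rw [hη]
    exact hρ i₀ l₀ hc₀
  have hl₀' : l₀ ≠ 0 := hpos i₀ l₀ hc₀
  have hne0 : ∀ x : L, x ∉ A → x ≠ 0 := by
    intro x hx h
    rw [h] at hx
    exact hx A.zero_mem
  have hη0 : η ≠ 0 := by
    intro h
    rw [h, zero_pow hl₀'] at hηe
    exact inv_ne_zero (hne0 _ hc₀) hηe.symm
  have hvη : A.valuation η < 1 := by
    by_contra h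
    rw [not_lt] at h
    have h1 : (1 : A.ValueGroup) ≤ A.valuation η ^ l₀ := one_le_pow₀ h
    rw [← map_pow, hηe, map_inv₀] at h1
    have h2 : 1 < A.valuation (c i₀ l₀) := (hnA _).1 hc₀
    have h3 : (A.valuation (c i₀ l₀))⁻¹ < 1 := inv_lt_one_of_one_lt₀ h2
    exact absurd h1 (not_le.2 h3)
  have hlow : ∀ i l, l ≤ M i → A.valuation (c i l) * A.valuation η ^ l ≤ 1 := by
    intro i l hl
    by_cases h : c i l ∈ A
    · have h1 : A.valuation (c i l) ≤ 1 := (A.valuation_le_one_iff _).2 h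
      exact mul_le_one₀ h1 zero_le (pow_le_one₀ zero_le hvη.le)
    · have h1 : A.valuation η ^ l ≤ A.valuation (ρ i l) ^ l :=
        pow_le_pow_left₀ zero_le (hmin' i l hl h) l
      have h2 : A.valuation (c i l) * A.valuation η ^ l ≤
          A.valuation (c i l) * A.valuation (ρ i l) ^ l := mul_le_mul_right h1 _
      refine h2.trans (le_of_eq ?_)
      rw [← map_pow, hρ i l h, ← map_mul, mul_inv_cancel₀ (hne0 _ h), map_one]
  refine ⟨η, hη0, A.mem_nonunits_iff.2 hvη, ?_, i₀, l₀, Nat.pos_of_ne_zero hl₀', ?_⟩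
  · intro i l
    rw [← A.valuation_le_one_iff, map_mul, map_pow]
    rcases le_or_gt l (M i) with hl | hl
    · exact hlow i l hl
    · obtain ⟨l', hl', hv⟩ := hM i l
      have e : l = l' + (l - l') := by omega
      have h1 : A.valuation η ^ l = A.valuation η ^ l' * A.valuation η ^ (l - l') := by
        rw [← pow_add, ← e]
      have h2 : A.valuation (c i l) * A.valuation η ^ l ≤
          A.valuation (c i l') * A.valuation η ^ l := mul_le_mul_left hv _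
      refine h2.trans ?_
      rw [h1, ← mul_assoc]
      exact mul_le_one₀ (hlow i l' hl') zero_le (pow_le_one₀ zero_le hvη.le)
  · rw [hηe, mul_inv_cancel₀ (hne0 _ hc₀), A.mem_nonunits_iff, map_one]
    exact lt_irrefl 1

end Pool.Agent.Lib.MP_1e3e9c_agF
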