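import Mathlib
import Pool.Agent.Lib.MP_1e3e9c_agM.M2
import Pool.Agent.Lib.MP_1e3e9c_agF.G4
import Pool.Agent.Lib.MP_1e3e9c_agF.G10
import Pool.Agent.Lib.MP_1e3e9c_agF.G12
import Pool.Agent.Lib.MP_1e3e9c_agF.G13

/-!
# MP_1e3e9c_ag, project F, block F6: an unbounded family of formal curves bubbles (assembly)
-/

set_option autoImplicit false

namespace Pool.Agent.Lib.MP_1e3e9c_agF

open Pool.Agent.Lib.MP_1e3e9c_agR Pool.Agent.Lib.MP_1e3e9c_agM

/-- A ring homomorphism which respects the constants commutes with the evaluation of polynomials. -/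
private theorem G14_aeval {k R T : Type} [Field k] [CommRing R] [CommRing T] [Algebra k R]
    [Algebra k T] (φ : R →+* T) (hφ : ∀ x : k, φ (algebraMap k R x) = algebraMap k T x) {n : ℕ}
    (r : Fin (n + 1) → R) (P : MvPolynomial (Fin (n + 1)) k) :
    MvPolynomial.aeval (fun i => φ (r i)) P = φ (MvPolynomial.aeval r P) := by
  have h1 : φ.comp (algebraMap k R) = algebraMap k T := RingHom.ext hφ
  rw [MvPolynomial.aeval_def, MvPolynomial.aeval_def, ← h1, MvPolynomial.eval₂_comp_left φ]
  rfl

theorem bubble {k L : Type} [Field k] [IsAlgClosed k] [Field L] [IsAlgClosed L] [Algebra k L]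
    (A : ValuationSubring L) (hkA : ∀ a : k, algebraMap k L a ∈ A) {n : ℕ}
    {w : Fin (n + 1) → ℕ} (hw : ∀ i, 0 < w i) {S : Set (MvPolynomial (Fin (n + 1)) k)}
    (hS : ∀ P ∈ S, ∃ m, P.IsWeightedHomogeneous w m) {v : Fin (n + 1) → k} (hv0 : v ≠ 0)
    (hvS : ∀ P ∈ S, MvPolynomial.eval v P = 0) (hG : Gp k w S) (hM : ∀ D, Mn k w S D v)
    (r a : Fin (n + 1) → PowerSeries L) (hr : ∀ i, Fg k (r i)) (ha : ∀ i, Fg k (a i))
    (h0 : ∀ i, PowerSeries.constantCoeff (r i) = algebraMap k L (v i))
    (hP : ∀ P ∈ S, MvPolynomial.aeval r P = 0) (h1 : ∑ i, a i * r i = 1) :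
    ∀ i l, PowerSeries.coeff l (r i) ∈ A := by
  classical
  by_contra hcon
  push Not at hcon
  let iAk : Algebra k A := ((algebraMap k L).codRestrict A.toSubring hkA).toAlgebra
  have iT : IsScalarTower k A L := IsScalarTower.of_algebraMap_eq fun _ => rfl
  have h0' : ∀ i, PowerSeries.coeff 0 (r i) = algebraMap k L (v i) := by
    intro i
    rw [PowerSeries.coeff_zero_eq_constantCoeff_apply, h0 i]
  obtain ⟨η, hη0, hη, hηA, i₁, l₁, hl₁, hu⟩ := scale A hkA r hr
    (fun i => by rw [h0' i]; exact hkA _) hcon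
  have hq : ∀ i, ∃ p : Polynomial (IsLocalRing.ResidueField A),
      Rs A (PowerSeries.rescale η (r i)) (p : PowerSeries (IsLocalRing.ResidueField A)) :=
    fun i => red_pol A hkA hη (hr i) (hηA i)
  choose q hq using hq
  -- the reduction is a curve through `v`
  have hbi : ∀ i, bc (IsLocalRing.ResidueField A) v i ≠ 0 ↔ v i ≠ 0 := fun i =>
    (map_ne_zero_iff (algebraMap k (IsLocalRing.ResidueField A))
      (algebraMap k (IsLocalRing.ResidueField A)).injective)
  have hq0 : ∀ i, (q i).coeff 0 = bc (IsLocalRing.ResidueField A) v i := by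
    intro i
    obtain ⟨h, hh⟩ := (rs_iff A _ _).1 (hq i) 0
    rw [Polynomial.coeff_coe] at hh
    rw [← hh]
    have h2 : (⟨PowerSeries.coeff 0 (PowerSeries.rescale η (r i)), h⟩ : A) =
        algebraMap k A (v i) := by
      apply Subtype.ext
      show PowerSeries.coeff 0 (PowerSeries.rescale η (r i)) = algebraMap k L (v i)
      rw [PowerSeries.coeff_rescale, pow_zero, one_mul, h0' i]
    rw [h2]
    rfl
  have hqS : ∀ P ∈ S, MvPolynomial.aeval q P = 0 := by
    intro P hPS
    have h2 : MvPolynomial.aeval (fun i => PowerSeries.rescale η (r i)) P = 0 := by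
      rw [G14_aeval (PowerSeries.rescale η) (fun x => ?_) r P, hP P hPS, map_zero]
      rw [PowerSeries.algebraMap_apply, ← PowerSeries.monomial_zero_eq_C_apply]
      ext m
      rw [PowerSeries.coeff_rescale, PowerSeries.coeff_monomial]
      split_ifs with h3
      · rw [h3, pow_zero, one_mul]
      · rw [mul_zero]
    have h3 := rs_aeval A hq h2
    have h4 := G14_aeval (Polynomial.coeToPowerSeries.ringHom
      (R := IsLocalRing.ResidueField A)) (fun x => by
        rw [Polynomial.coeToPowerSeries.ringHom_apply, Polynomial.algebraMap_apply,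
          Polynomial.coe_C, PowerSeries.algebraMap_apply]) q P
    rw [Polynomial.coeToPowerSeries.ringHom_apply] at h4
    have h5 : (fun i => Polynomial.coeToPowerSeries.ringHom (q i)) =
        fun i => (q i : PowerSeries (IsLocalRing.ResidueField A)) := rfl
    rw [h5, h3] at h4
    exact Polynomial.coe_injective _ (by rw [← h4, Polynomial.coe_zero])
  obtain ⟨D, hD⟩ : ∃ D, ∀ i, (q i).natDegree ≤ D :=
    ⟨Finset.univ.sup fun i => (q i).natDegree, fun i =>
      Finset.le_sup (f := fun i => (q i).natDegree) (Finset.mem_univ i)⟩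
  have hqD : ∀ i, (q i).natDegree ≤ w i * D := fun i =>
    (hD i).trans (Nat.le_mul_of_pos_left D (hw i))
  have hBi : Bi w (bc (IsLocalRing.ResidueField A) v) q :=
    (mn_transfer (L := IsLocalRing.ResidueField A) (hM (D + 1))) D (Nat.lt_succ_self D) q hqD
      hq0 hqS
  have hb0 : bc (IsLocalRing.ResidueField A) v ≠ 0 := by
    obtain ⟨i, hi⟩ := Function.ne_iff.mp hv0
    exact Function.ne_iff.mpr ⟨i, (hbi i).mpr hi⟩
  have hGcv : Gc w (bc (IsLocalRing.ResidueField A) v) := by
    refine gp_transfer (L := IsLocalRing.ResidueField A) hG _ hb0 fun P hPS => ?_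
    have h2 := G14_aeval (algebraMap k (IsLocalRing.ResidueField A)) (fun x => rfl) v P
    rw [MvPolynomial.aeval_eq_eval, hvS P hPS, map_zero] at h2
    exact h2
  obtain ⟨h, hh1, hh⟩ := orbit_poly hw hb0 hGcv hBi hq0
  obtain ⟨i₀, hi₀⟩ : ∃ i, v i ≠ 0 := by
    obtain ⟨i, hi⟩ := Function.ne_iff.mp hv0
    exact ⟨i, hi⟩
  have hh0 : h ≠ 0 := by
    intro h2
    rw [h2, Polynomial.eval_zero] at hh1
    exact zero_ne_one hh1
  -- `h` is not constant
  have hdeg : h.degree ≠ 0 := by
    intro h2
    have h3 : h = Polynomial.C (h.coeff 0) := Polynomial.eq_C_of_degree_eq_zero h2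
    obtain ⟨h4, h5⟩ := (rs_iff A _ _).1 (hq i₁) l₁
    have h6 : (q i₁).coeff l₁ = 0 := by
      rw [hh i₁, h3, ← Polynomial.C_pow, ← Polynomial.C_mul, Polynomial.coeff_C,
        if_neg hl₁.ne']
    rw [Polynomial.coeff_coe, h6, IsLocalRing.residue_eq_zero_iff] at h5
    apply hu
    rw [ValuationSubring.mem_nonunits_iff_exists_mem_maximalIdeal]
    have h7 : PowerSeries.coeff l₁ (PowerSeries.rescale η (r i₁)) =
        PowerSeries.coeff l₁ (r i₁) * η ^ l₁ := by
      rw [PowerSeries.coeff_rescale, mul_comm]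
    rw [← h7]
    exact ⟨h4, h5⟩
  have iC : IsAlgClosed (IsLocalRing.ResidueField A) := res_closed A
  obtain ⟨t, ht⟩ := IsAlgClosed.exists_root h hdeg
  have hqi0 : q i₀ ≠ 0 := by
    rw [hh i₀]
    exact mul_ne_zero (Polynomial.C_ne_zero.mpr ((hbi i₀).mpr hi₀)) (pow_ne_zero _ hh0)
  have hqt : (q i₀).eval t = 0 := by
    rw [hh i₀, Polynomial.eval_mul, Polynomial.eval_pow, Polynomial.IsRoot.def.1 ht,
      zero_pow (hw i₀).ne', mul_zero]
  obtain ⟨L', iF', iC', iA', A', iAk', iT', j, f, hfP, hfr, hf0, i₂, hi₂⟩ :=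
    recentre A hη hη0 r a hr ha h1 q hq t i₀ hqi0 hqt
  -- the reduction at the root
  have ht0 : Polynomial.taylor t h ≠ 0 := by
    rw [Ne, Polynomial.taylor_eq_zero]
    exact hh0
  obtain ⟨e, h', hh', hh'0⟩ : ∃ (e : ℕ) (h' : Polynomial (IsLocalRing.ResidueField A)),
      Polynomial.taylor t h = Polynomial.X ^ e * h' ∧ h'.coeff 0 ≠ 0 := by
    obtain ⟨g, hg, hg2⟩ := Polynomial.exists_eq_pow_rootMultiplicity_mul_and_not_dvd
      (Polynomial.taylor t h) ht0 0
    refine ⟨(Polynomial.taylor t h).rootMultiplicity 0, g, ?_, ?_⟩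
    · rw [Polynomial.C_0, sub_zero] at hg
      exact hg
    · rw [Polynomial.C_0, sub_zero, Polynomial.X_dvd_iff] at hg2
      exact hg2
  have hjb : ∀ i, j (bc (IsLocalRing.ResidueField A) v i) =
      bc (IsLocalRing.ResidueField A') v i := fun i => j.commutes (v i)
  have hfin := centre_ps A' hw hS hv0
    (fun D => mn_transfer (L := IsLocalRing.ResidueField A') (hM D))
    (gp_transfer (L := IsLocalRing.ResidueField A') hG) e f
    (fun P hPS => hfP P (hP P hPS))
    (((Polynomial.taylor t h).map (j : IsLocalRing.ResidueField A →+* IsLocalRing.ResidueField A') :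
      Polynomial (IsLocalRing.ResidueField A')) : PowerSeries (IsLocalRing.ResidueField A'))
    (fun i => by
      rw [hfr i, hh i, Polynomial.taylor_mul, Polynomial.taylor_C, Polynomial.taylor_pow,
        Polynomial.map_mul, Polynomial.map_pow, Polynomial.map_C, Polynomial.coe_mul,
        Polynomial.coe_pow, Polynomial.coe_C]
      congr 1
      exact congrArg PowerSeries.C (hjb i))
    ⟨((h'.map (j : IsLocalRing.ResidueField A →+* IsLocalRing.ResidueField A') :
      Polynomial (IsLocalRing.ResidueField A')) : PowerSeries (IsLocalRing.ResidueField A')), by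
      rw [hh', Polynomial.map_mul, Polynomial.map_pow, Polynomial.map_X, Polynomial.coe_mul,
        Polynomial.coe_pow, Polynomial.coe_X], by
      rw [← PowerSeries.coeff_zero_eq_constantCoeff_apply, Polynomial.coeff_coe,
        Polynomial.coeff_map]
      intro h2
      apply hh'0
      exact (map_eq_zero_iff (j : IsLocalRing.ResidueField A →+* IsLocalRing.ResidueField A')
        (j : IsLocalRing.ResidueField A →+* IsLocalRing.ResidueField A').injective).1 h2⟩
  rcases hfin with h2 | h2
  · exact hi₂ (h2 i₂)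
  · exact h2 i₀ hi₀ hf0

end Pool.Agent.Lib.MP_1e3e9c_agF
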