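import Mathlib
import Pool.Agent.Lib.MP_1e3e9c_agF.A7
import Pool.Agent.Lib.MP_1e3e9c_agF.D10
import Pool.Agent.Lib.MP_1e3e9c_agF.D13
import Pool.Agent.Lib.MP_1e3e9c_agF.G14
import Pool.Agent.Lib.MP_1e3e9c_agF.E1
import Pool.Agent.Lib.MP_1e3e9c_agF.E2
import Pool.Agent.Lib.MP_1e3e9c_agF.E3
import Pool.Agent.Lib.MP_1e3e9c_agF.E4
import Pool.Agent.Lib.MP_1e3e9c_agF.E5
import Pool.Agent.Lib.MP_1e3e9c_agF.E6

/-! Project F, F5: in characteristic `p` there is a nonconstant curve of some degree through every point (assembly) -/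

set_option autoImplicit false

namespace Pool.Agent.Lib.MP_1e3e9c_agF

open Pool.Agent.Lib.MP_1e3e9c_agR Pool.Agent.Lib.MP_1e3e9c_agM

private theorem E7_sum {k L : Type} [Field k] [Field L] [Algebra k L] {n : ℕ} {di : Fin (n + 1) → ℕ}
    (u : ∀ i, Fin (di i) → PowerSeries k) (x : (Σ i, Fin (di i)) → L) (i : Fin (n + 1)) :
    (∑ α : Σ i, Fin (di i), PowerSeries.C (x α) *
      PowerSeries.map (algebraMap k L) (if α.1 = i then u α.1 α.2 else 0)) =
      ∑ j, PowerSeries.C (x ⟨i, j⟩) * PowerSeries.map (algebraMap k L) (u i j) := by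
  rw [Fintype.sum_sigma, Finset.sum_eq_single i]
  · refine Finset.sum_congr rfl fun j _ => ?_
    rw [if_pos rfl]
  · intro i' _ hi'
    refine Finset.sum_eq_zero fun j _ => ?_
    rw [if_neg hi', map_zero, mul_zero]
  · intro h
    exact absurd (Finset.mem_univ i) h

theorem not_mn {k : Type} [Field k] [IsAlgClosed k] {p : ℕ} [Fact p.Prime] [CharP k p]
    {n c e m : ℕ} {w : Fin (n + 1) → ℕ} (hw : ∀ i, 0 < w i)
    {S : Set (MvPolynomial (Fin (n + 1)) k)}
    (hS : ∀ P ∈ S, ∃ m, P.IsWeightedHomogeneous w m) (hsm : Sm S c) (hG : Gp k w S)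
    (hc : c + 2 ≤ n + 1)
    {ψ : (Fin c → Fin (n + 1)) → MvPolynomial (Fin (n + 1)) k} (hψ : Cnl w S c e ψ)
    (hm : m + e = ∑ i, w i) (hm0 : 0 < m) {v : Fin (n + 1) → k} (hv0 : v ≠ 0)
    (hvS : ∀ P ∈ S, MvPolynomial.eval v P = 0) : ¬ ∀ D, Mn k w S D v := by
  intro hM
  have hgv : Gc w v := hG v hv0 fun P hP => by
    rw [MvPolynomial.aeval_eq_eval]
    exact hvS P hP
  obtain ⟨g, hg0, hgS, r, hr, hord, hdim⟩ := exists_arc hw hS hv0 hvS (hsm v hv0 hvS) hgv hc
  have hp2 : 2 ≤ p := (Fact.out : p.Prime).two_le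
  have hW : 0 < ∑ i, w i := lt_of_lt_of_le hm0 (by omega)
  have hWR : (0 : ℝ) < ((∑ i, w i : ℕ) : ℝ) := by exact_mod_cast hW
  have hmR : (0 : ℝ) < (m : ℝ) := by exact_mod_cast hm0
  obtain ⟨γ, hγ⟩ := hdim ((m : ℝ) / (2 * ((∑ i, w i : ℕ) : ℝ))) (by positivity)
  obtain ⟨s, hs⟩ := exists_pow_large (p := p) hp2 (n := n) (e := e) hm hm0 (γ := γ) hr
  obtain ⟨L, f, hL, hf0, hfin, hrank, hsat, d, y, hy, hy0, hwd, hbp⟩ :=
    frob_datum s hw (S := S) hv0 hgv g hg0 hgS
  have hex : ∀ i : Fin (n + 1), ∃ (d : ℕ) (u : Fin d → PowerSeries k), LinearIndependent k u ∧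
      (∀ j, u j ∈ L (w i * p ^ s)) ∧ (∀ j, PowerSeries.constantCoeff (u j) = 0) ∧
      Module.finrank k (L (w i * p ^ s)) ≤ d + 1 := fun i => by
    have := hfin (w i * p ^ s)
    exact exists_basis_zero (L (w i * p ^ s))
  choose di u hu hmem hu0 hrk using hex
  set b : (Σ i, Fin (di i)) → Fin (n + 1) → PowerSeries k :=
    fun α i => if α.1 = i then u α.1 α.2 else 0 with hbdef
  have hbL : ∀ α i, b α i ∈ L (w i * p ^ s) := by
    rintro ⟨i', j⟩ i
    by_cases h : i' = i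
    · subst h
      simp only [hbdef, if_true]
      exact hmem i' j
    · simp only [hbdef, if_neg h]
      exact zero_mem _
  have hb0 : ∀ α i, PowerSeries.constantCoeff (b α i) = 0 := by
    rintro ⟨i', j⟩ i
    by_cases h : i' = i
    · subst h
      simp only [hbdef, if_true]
      exact hu0 i' j
    · simp only [hbdef, if_neg h, map_zero]
  have hf0' : (fun i => PowerSeries.constantCoeff (f i)) ≠ 0 := by
    intro h
    apply hv0
    funext i
    rw [← hf0 i]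
    exact congrFun h i
  have hsat' : ∀ d' ≤ e * p ^ s, ∀ δ : PowerSeries k, δ ≠ 0 →
      (∃ M : ℕ, ∀ i, f i ^ M * δ ∈ L (d' + w i * M * p ^ s)) → δ.order ≤ (⌊r * e * (p : ℝ) ^ s⌋₊ : ℕ) := by
    intro d' hd' δ hδ hδM
    obtain ⟨δ', hδ', hS', hor⟩ := hsat d' δ hδ hδM
    rw [← hor]
    have h1 : δ'.order ≠ ⊤ := fun h => hδ' (PowerSeries.order_eq_top.1 h)
    obtain ⟨o, ho⟩ := ENat.ne_top_iff_exists.1 h1
    rw [← ho]
    have h2 := hord d' δ' hδ' hS' o ho.symm
    have h3 : (o : ℝ) ≤ r * e * (p : ℝ) ^ s := by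
      refine le_trans h2 ?_
      have h4 : (d' : ℝ) ≤ (e : ℝ) * (p : ℝ) ^ s := by exact_mod_cast hd'
      calc r * (d' : ℝ) ≤ r * ((e : ℝ) * (p : ℝ) ^ s) := mul_le_mul_of_nonneg_left h4 hr.le
        _ = r * e * (p : ℝ) ^ s := by ring
    exact_mod_cast Nat.le_floor h3
  have hcard : (1 - (m : ℝ) / (2 * ((∑ i, w i : ℕ) : ℝ))) * r * ((∑ i, w i : ℕ) : ℝ) * (p : ℝ) ^ s -
      (n + 1) * (γ + 1) ≤ (Fintype.card (Σ i, Fin (di i)) : ℝ) := by
    have h1 : (Fintype.card (Σ i, Fin (di i)) : ℝ) = ∑ i, (di i : ℝ) := by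
      rw [Fintype.card_sigma]
      simp
    have h2 : ∀ i, (1 - (m : ℝ) / (2 * ((∑ i, w i : ℕ) : ℝ))) * r * ((w i : ℝ) * (p : ℝ) ^ s) - γ - 1 ≤ (di i : ℝ) := by
      intro i
      have h3 := hγ (w i * p ^ s)
      have h4 : (Module.finrank k (Ad w g (w i * p ^ s)) : ℝ) ≤ (di i : ℝ) + 1 := by
        rw [← hrank]
        exact_mod_cast hrk i
      push_cast at h3 h4 ⊢
      linarith
    have h5 := Finset.sum_le_sum fun i (_ : i ∈ Finset.univ) => h2 i
    rw [h1]
    refine le_trans (le_of_eq ?_) h5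
    rw [Finset.sum_sub_distrib, Finset.sum_sub_distrib, ← Finset.mul_sum, ← Finset.sum_mul]
    simp only [Finset.sum_const, Finset.card_univ, Fintype.card_fin, nsmul_eq_mul]
    push_cast
    ring
  have hlt : ⌊r * e * (p : ℝ) ^ s⌋₊ < Fintype.card (Σ i, Fin (di i)) := by
    have h1 := hs _ hcard
    have h2 : (0 : ℝ) ≤ r * e * (p : ℝ) ^ s := by positivity
    exact (Nat.floor_lt h2).2 h1
  have hh := def_height hw hS hsm hψ hL hf0' b hbL hb0 hsat'
  have hJ := JT_le S f b hL.base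
  have hprime : (RingHom.ker (MvPolynomial.constantCoeff (R := k) (σ := Σ i, Fin (di i)))).IsPrime :=
    RingHom.ker_isPrime _
  obtain ⟨𝔭, hmin, hle⟩ := Ideal.exists_minimalPrimes_le hJ
  have h1 := hh 𝔭 hmin hle
  obtain ⟨L', i1, i2, i3, A, x, hkA, hx, α, hα⟩ := exists_place 𝔭 hmin.1.1 hle
    (lt_of_le_of_lt h1 (by exact_mod_cast hlt))
  have hP := gen_zero S f b x fun q hq => (hx q).2 (hmin.1.2 hq)
  have := hfin d
  obtain ⟨a, ha, hya⟩ := bpf_gen f b (fun i => L (d - w i * p ^ s)) (L d) (fun α i a ha => by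
      have h2 := hL.mul _ _ _ _ (hbL α i) ha
      rwa [Nat.add_sub_cancel' (hwd i)] at h2) hbp x (fun q hq => hle ((hx q).1 hq)) y hy
  obtain ⟨y', hy'⟩ : ∃ y', y * y' = 1 := by
    have h2 : IsUnit y := PowerSeries.isUnit_iff_constantCoeff.2 (isUnit_iff_ne_zero.2 hy0)
    exact h2.exists_right_inv
  have hco := bubble A hkA hw hS hv0 hvS hG hM
    (fun i => PowerSeries.map (algebraMap k L') (f i) +
      ∑ α, PowerSeries.C (x α) * PowerSeries.map (algebraMap k L') (b α i))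
    (fun i => a i * PowerSeries.map (algebraMap k L') y')
    (fun i => Fg_gen (f i) (fun α => b α i) x) (fun i => Fg_mul_map _ (Fg_span _ _ (ha i)) y')
    (fun i => by
      rw [map_add, map_sum, ← PowerSeries.coeff_zero_eq_constantCoeff_apply, PowerSeries.coeff_map,
        PowerSeries.coeff_zero_eq_constantCoeff_apply, hf0 i, Finset.sum_eq_zero, add_zero]
      intro α _
      rw [map_mul, ← PowerSeries.coeff_zero_eq_constantCoeff_apply (PowerSeries.map _ _), PowerSeries.coeff_map,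
        PowerSeries.coeff_zero_eq_constantCoeff_apply, hb0, map_zero, mul_zero])
    hP (by
      have h2 : PowerSeries.map (algebraMap k L') y * PowerSeries.map (algebraMap k L') y' = 1 := by
        rw [← map_mul, hy', map_one]
      rw [← h2, hya, Finset.sum_mul]
      refine Finset.sum_congr rfl fun i _ => ?_
      ring)
  obtain ⟨i, j⟩ := α
  refine hα (coef_mem A hkA (u i) (hu i) (f i) (fun j => x ⟨i, j⟩) (fun l => ?_) j)
  have h2 := hco i l
  rw [hbdef, E7_sum u x i] at h2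
  exact h2

end Pool.Agent.Lib.MP_1e3e9c_agF
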