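import Mathlib

/-!
# H1 (medium-, Mathlib only): reduction of finitely many elements

PROOF. `A := Algebra.adjoin ℤ F` is of finite type over `ℤ` (`Subalgebra.fg_adjoin_finset`, `Subalgebra.fg_iff_finiteType`); let `𝔪` be a maximal ideal of it
(`Ideal.exists_maximal`) and `K := A ⧸ 𝔪`, a field of finite type over the Jacobson ring `ℤ`, so `K` is finite over `ℤ` (`RingHom.finite...`, in Mathlib
`finite_of_finite_type_of_isJacobsonRing`). Let `p` be the characteristic of `K` (`CharP.exists`). If `p = 0`, then `ℤ → K` is injective and integral, and `ℤ` would be a field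
(`isField_of_isIntegral_of_isField`, `Int.not_isField`); so `p` is a prime (`CharP.char_is_prime_or_zero`). `κ := AlgebraicClosure K`, `Λ := A.toSubring`, `φ` the composition
`A → K → κ`.
-/

set_option autoImplicit false

namespace Pool.Agent.Lib.MP_1e3e9c_agF

private theorem H1_jac : IsJacobsonRing ℤ := by
  rw [isJacobsonRing_iff_sInf_maximal]
  intro I hI
  by_cases hb : I = ⊥
  · refine ⟨{J | J.IsMaximal}, fun J hJ => Or.inl hJ, ?_⟩
    rw [hb]
    symm
    rw [eq_bot_iff]
    intro x hx
    rw [Ideal.mem_bot]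
    by_contra hx0
    obtain ⟨p, hp1, hp2⟩ := Nat.exists_infinite_primes (x.natAbs + 1)
    have hpi : Prime (p : ℤ) := Nat.prime_iff_prime_int.1 hp2
    have hmax : (Ideal.span {(p : ℤ)}).IsMaximal :=
      PrincipalIdealRing.isMaximal_of_irreducible hpi.irreducible
    have hmem : x ∈ Ideal.span {(p : ℤ)} := (Submodule.mem_sInf.1 hx) _ hmax
    rw [Ideal.mem_span_singleton] at hmem
    have h3 := Int.natAbs_dvd_natAbs.2 hmem
    rw [Int.natAbs_natCast] at h3
    have h4 := Nat.le_of_dvd (Int.natAbs_pos.2 hx0) h3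
    omega
  · have hm : I.IsMaximal := hI.isMaximal hb
    refine ⟨{I}, fun J hJ => ?_, ?_⟩
    · rw [Set.mem_singleton_iff] at hJ
      rw [hJ]
      exact Or.inl hm
    · rw [sInf_singleton]

theorem exists_red {k : Type} [Field k] (F : Set k) (hF : F.Finite) :
    ∃ (p : ℕ) (_ : Fact p.Prime) (κ : Type) (_ : Field κ) (_ : IsAlgClosed κ) (_ : CharP κ p)
      (Λ : Subring k) (_ : Λ →+* κ), F ⊆ Λ := by
  classical
  let A : Subalgebra ℤ k := Algebra.adjoin ℤ F
  have hFG : A.FG := ⟨hF.toFinset, by rw [hF.coe_toFinset]⟩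
  have : Algebra.FiniteType ℤ A := (Subalgebra.fg_iff_finiteType A).1 hFG
  obtain ⟨m, hm⟩ := Ideal.exists_maximal A
  have := hm
  let : Field (A ⧸ m) := Ideal.Quotient.field m
  have : Algebra.FiniteType ℤ (A ⧸ m) :=
    Algebra.FiniteType.of_surjective (Ideal.Quotient.mkₐ ℤ m) (Ideal.Quotient.mkₐ_surjective ℤ m)
  have hjac : IsJacobsonRing ℤ := H1_jac
  have : Module.Finite ℤ (A ⧸ m) := finite_of_finite_type_of_isJacobsonRing ℤ (A ⧸ m)
  obtain ⟨p, hp⟩ := CharP.exists (A ⧸ m)
  have hpp : p.Prime := by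
    rcases CharP.char_is_prime_or_zero (A ⧸ m) p with h | h
    · exact h
    · exfalso
      subst h
      have : CharZero (A ⧸ m) := CharP.charP_to_charZero (A ⧸ m)
      have hinj : Function.Injective (algebraMap ℤ (A ⧸ m)) := by
        intro x y hxy
        simpa using hxy
      have : Algebra.IsIntegral ℤ (A ⧸ m) := Algebra.IsIntegral.of_finite ℤ (A ⧸ m)
      exact Int.not_isField (isField_of_isIntegral_of_isField hinj (Field.toIsField (A ⧸ m)))
  have : CharP (AlgebraicClosure (A ⧸ m)) p :=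
    charP_of_injective_algebraMap (algebraMap (A ⧸ m) (AlgebraicClosure (A ⧸ m))).injective p
  exact ⟨p, ⟨hpp⟩, AlgebraicClosure (A ⧸ m), inferInstance, inferInstance, inferInstance,
    A.toSubring, (algebraMap (A ⧸ m) (AlgebraicClosure (A ⧸ m))).comp (Ideal.Quotient.mk m),
    fun x hx => Algebra.subset_adjoin hx⟩

end Pool.Agent.Lib.MP_1e3e9c_agF
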