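import Mathlib
import Pool.Agent.Lib.MP_1e3e9c_agF.FDefs

/-!
# MP_1e3e9c_ag, project F, block F7 (reduction to characteristic p): definitions

`Λ` is a subring of the field `k` and `φ : Λ → κ` a homomorphism. `Re Λ φ a a'`: `a ∈ Λ` and `a' = φ a`. `Rd Λ φ P P'`: the coefficients of the polynomial `P`
are in `Λ`, and `P'` is the polynomial with the coefficients `φ`. `ceq`: the coefficient of `t^m` of `P(x(t))`, where `x(t)` is the generic curve `gcv`
of degree `D` through `v`; `cbi`: the coefficient of `t^m` of the binomial `x_i(t)^(w_j) v_j^(w_i) - x_j(t)^(w_i) v_i^(w_j)`.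
-/

set_option autoImplicit false

namespace Pool.Agent.Lib.MP_1e3e9c_agF

open Pool.Agent.Lib.MP_1e3e9c_agR Pool.Agent.Lib.MP_1e3e9c_agM

/-- `a'` is the reduction of `a`. -/
def Re {k κ : Type} [Field k] [CommRing κ] (Λ : Subring k) (φ : Λ →+* κ) (a : k) (a' : κ) : Prop :=
  ∃ b : Λ, (b : k) = a ∧ φ b = a'

/-- `P'` is the reduction of the polynomial `P`. -/
def Rd {k κ σ : Type} [Field k] [CommRing κ] (Λ : Subring k) (φ : Λ →+* κ)
    (P : MvPolynomial σ k) (P' : MvPolynomial σ κ) : Prop :=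
  ∃ Q : MvPolynomial σ Λ, MvPolynomial.map Λ.subtype Q = P ∧ MvPolynomial.map φ Q = P'

/-- The minor of the Jacobian matrix, over a ring. -/
noncomputable def mnR {R : Type} [CommRing R] {n c : ℕ} (P : Fin c → MvPolynomial (Fin (n + 1)) R)
    (j : Fin c → Fin (n + 1)) : MvPolynomial (Fin (n + 1)) R :=
  Matrix.det (Matrix.of fun a b : Fin c => MvPolynomial.pderiv (j b) (P a))

theorem mnR_eq {k : Type} [Field k] {n c : ℕ} (P : Fin c → MvPolynomial (Fin (n + 1)) k)
    (j : Fin c → Fin (n + 1)) : mnR P j = mnr P j := rfl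

/-- The generic curve of degree `D` through `v`. -/
noncomputable def gcv {R : Type} [CommRing R] {n : ℕ} (w : Fin (n + 1) → ℕ) (D : ℕ)
    (v : Fin (n + 1) → R) (i : Fin (n + 1)) : Polynomial (MvPolynomial (Un w D) R) :=
  Polynomial.C (MvPolynomial.C (v i)) +
    ∑ l : Fin (w i * D), Polynomial.C (MvPolynomial.X ⟨i, l⟩) * Polynomial.X ^ ((l : ℕ) + 1)

/-- The coefficient of `t^m` of the value of `P` on the generic curve. -/
noncomputable def ceq {R : Type} [CommRing R] {n : ℕ} (w : Fin (n + 1) → ℕ) (D : ℕ)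
    (v : Fin (n + 1) → R) (P : MvPolynomial (Fin (n + 1)) R) (m : ℕ) : MvPolynomial (Un w D) R :=
  (MvPolynomial.eval₂ (Polynomial.C.comp MvPolynomial.C) (gcv w D v) P).coeff m

/-- The coefficient of `t^m` of the binomial. -/
noncomputable def cbi {R : Type} [CommRing R] {n : ℕ} (w : Fin (n + 1) → ℕ) (D : ℕ)
    (v : Fin (n + 1) → R) (i j : Fin (n + 1)) (m : ℕ) : MvPolynomial (Un w D) R :=
  (gcv w D v i ^ w j * Polynomial.C (MvPolynomial.C (v j ^ w i)) -
    gcv w D v j ^ w i * Polynomial.C (MvPolynomial.C (v i ^ w j))).coeff m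

end Pool.Agent.Lib.MP_1e3e9c_agF
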