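import Mathlib
import Pool.Agent.Lib.MP_1e3e9c_agF.HDefs

/-!
# H2 (easy+, many small theorems): rules for the reduction of polynomials

PROOF. `Rd`: take the witnesses `Q`, `Q'` and use `map_add`, `map_mul`, ... of the ring homomorphisms `MvPolynomial.map Λ.subtype`, `MvPolynomial.map φ`. `Rd.sum`, `Rd.prod`: choose the witnesses
(or `Finset.induction_on`). `Rd.pderiv`: `MvPolynomial.pderiv_map`. `Rd.mnR`: the determinant of the matrix of the witnesses, `RingHom.map_det` (unfold `mnR`, choose the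
witnesses of the `P l`). `Rd.eval`: choose `b i : Λ` for the `v i`; `MvPolynomial.eval b Q` is the witness: `MvPolynomial.eval_map`, `MvPolynomial.eval₂_comp_left` or `MvPolynomial.map_eval` style
(`MvPolynomial.induction_on Q`). `Rd.hom`: `MvPolynomial.IsWeightedHomogeneous` is a statement on the nonzero coefficients: `coeff_map`; the coefficient of `Q` is not zero if that of `P'` is
not zero, and then that of `P` is not zero (`Λ.subtype` is injective). `rd_exists`: `F` = the set of the coefficients of `P` (finite: image of the support); `P ∈ Set.range (map Λ.subtype)` by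
`MvPolynomial.mem_range_map_iff_coeffs_subset` or by hand: `Q = ∑ m ∈ P.support, monomial m ⟨P.coeff m, _⟩`. `Re.exists` is trivial. `Re.zero`: `Λ.subtype` is injective.
-/

set_option autoImplicit false

namespace Pool.Agent.Lib.MP_1e3e9c_agF

open Pool.Agent.Lib.MP_1e3e9c_agR Pool.Agent.Lib.MP_1e3e9c_agM

variable {k κ σ : Type} [Field k] [CommRing κ] {Λ : Subring k} {φ : Λ →+* κ}

private theorem H2_eval {R S σ : Type} [CommRing R] [CommRing S] (f : R →+* S) (b : σ → R)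
    (Q : MvPolynomial σ R) : f (MvPolynomial.eval b Q) =
      MvPolynomial.eval (fun i => f (b i)) (MvPolynomial.map f Q) := by
  rw [MvPolynomial.eval_map, ← MvPolynomial.eval₂_id, MvPolynomial.eval₂_comp_left,
    RingHom.comp_id]
  rfl

private theorem H2_mnR {R S : Type} [CommRing R] [CommRing S] (f : R →+* S) {n c : ℕ}
    (Q : Fin c → MvPolynomial (Fin (n + 1)) R) (j : Fin c → Fin (n + 1)) :
    MvPolynomial.map f (mnR Q j) = mnR (fun l => MvPolynomial.map f (Q l)) j := by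
  unfold mnR
  rw [RingHom.map_det]
  refine congrArg Matrix.det (Matrix.ext fun a b => ?_)
  exact MvPolynomial.pderiv_map.symm

theorem Rd.zero : Rd Λ φ (0 : MvPolynomial σ k) 0 := by
  exact ⟨0, map_zero _, map_zero _⟩

theorem Rd.one : Rd Λ φ (1 : MvPolynomial σ k) 1 := by
  exact ⟨1, map_one _, map_one _⟩

theorem Rd.X (i : σ) : Rd Λ φ (MvPolynomial.X i) (MvPolynomial.X i) := by
  exact ⟨MvPolynomial.X i, MvPolynomial.map_X _ _, MvPolynomial.map_X _ _⟩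

theorem Rd.C {a : k} {a' : κ} (h : Re Λ φ a a') :
    Rd Λ φ (MvPolynomial.C a : MvPolynomial σ k) (MvPolynomial.C a') := by
  obtain ⟨b, h1, h2⟩ := h
  refine ⟨MvPolynomial.C b, ?_, ?_⟩
  · rw [MvPolynomial.map_C, ← h1]
    rfl
  · rw [MvPolynomial.map_C, h2]

theorem Rd.add {P Q : MvPolynomial σ k} {P' Q' : MvPolynomial σ κ} (h : Rd Λ φ P P')
    (h' : Rd Λ φ Q Q') : Rd Λ φ (P + Q) (P' + Q') := by
  obtain ⟨A, h1, h2⟩ := h
  obtain ⟨B, h3, h4⟩ := h'
  exact ⟨A + B, by rw [map_add, h1, h3], by rw [map_add, h2, h4]⟩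

theorem Rd.sub {P Q : MvPolynomial σ k} {P' Q' : MvPolynomial σ κ} (h : Rd Λ φ P P')
    (h' : Rd Λ φ Q Q') : Rd Λ φ (P - Q) (P' - Q') := by
  obtain ⟨A, h1, h2⟩ := h
  obtain ⟨B, h3, h4⟩ := h'
  exact ⟨A - B, by rw [map_sub, h1, h3], by rw [map_sub, h2, h4]⟩

theorem Rd.mul {P Q : MvPolynomial σ k} {P' Q' : MvPolynomial σ κ} (h : Rd Λ φ P P')
    (h' : Rd Λ φ Q Q') : Rd Λ φ (P * Q) (P' * Q') := by
  obtain ⟨A, h1, h2⟩ := h
  obtain ⟨B, h3, h4⟩ := h'
  exact ⟨A * B, by rw [map_mul, h1, h3], by rw [map_mul, h2, h4]⟩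

theorem Rd.pow {P : MvPolynomial σ k} {P' : MvPolynomial σ κ} (h : Rd Λ φ P P') (m : ℕ) :
    Rd Λ φ (P ^ m) (P' ^ m) := by
  obtain ⟨A, h1, h2⟩ := h
  exact ⟨A ^ m, by rw [map_pow, h1], by rw [map_pow, h2]⟩

theorem Rd.mnR {n c : ℕ} {P : Fin c → MvPolynomial (Fin (n + 1)) k}
    {P' : Fin c → MvPolynomial (Fin (n + 1)) κ} (h : ∀ l, Rd Λ φ (P l) (P' l))
    (j : Fin c → Fin (n + 1)) :
    Rd Λ φ (Pool.Agent.Lib.MP_1e3e9c_agF.mnR P j) (Pool.Agent.Lib.MP_1e3e9c_agF.mnR P' j) := by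
  choose Q h1 h2 using h
  refine ⟨Pool.Agent.Lib.MP_1e3e9c_agF.mnR Q j, ?_, ?_⟩
  · rw [H2_mnR]
    exact congrArg (fun P => Pool.Agent.Lib.MP_1e3e9c_agF.mnR P j) (funext h1)
  · rw [H2_mnR]
    exact congrArg (fun P => Pool.Agent.Lib.MP_1e3e9c_agF.mnR P j) (funext h2)

theorem Rd.eval {v : σ → k} {v' : σ → κ} (hv : ∀ i, Re Λ φ (v i) (v' i)) {P : MvPolynomial σ k}
    {P' : MvPolynomial σ κ} (h : Rd Λ φ P P') :
    Re Λ φ (MvPolynomial.eval v P) (MvPolynomial.eval v' P') := by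
  choose b h1 h2 using hv
  obtain ⟨Q, h3, h4⟩ := h
  refine ⟨MvPolynomial.eval b Q, ?_, ?_⟩
  · rw [← h3, ← funext h1]
    exact H2_eval Λ.subtype b Q
  · rw [← h4, ← funext h2]
    exact H2_eval φ b Q

theorem Rd.hom {w : σ → ℕ} {P : MvPolynomial σ k} {P' : MvPolynomial σ κ} (h : Rd Λ φ P P')
    {m : ℕ} (hP : P.IsWeightedHomogeneous w m) : P'.IsWeightedHomogeneous w m := by
  obtain ⟨Q, h1, h2⟩ := h
  intro d hd
  refine hP ?_
  rw [← h1, MvPolynomial.coeff_map]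
  rw [← h2, MvPolynomial.coeff_map] at hd
  intro h0
  have h3 : MvPolynomial.coeff d Q = 0 := Subtype.ext h0
  rw [h3, map_zero] at hd
  exact hd rfl

theorem Rd.ne_zero {P : MvPolynomial σ k} {P' : MvPolynomial σ κ} (h : Rd Λ φ P P')
    (hP : P' ≠ 0) : P ≠ 0 := by
  obtain ⟨Q, h1, h2⟩ := h
  intro h0
  rw [h0] at h1
  have h3 : Q = 0 := by
    refine MvPolynomial.map_injective Λ.subtype Subtype.val_injective ?_
    rw [h1, map_zero]
  rw [h3, map_zero] at h2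
  exact hP h2.symm

theorem Re.zero {a' : κ} (h : Re Λ φ 0 a') : a' = 0 := by
  obtain ⟨b, h1, h2⟩ := h
  have h3 : b = 0 := Subtype.ext h1
  rw [← h2, h3, map_zero]

theorem Re.mul_one {a b : k} {a' b' : κ} (ha : Re Λ φ a a') (hb : Re Λ φ b b') (h : a * b = 1) :
    a' * b' = 1 := by
  obtain ⟨x, h1, h2⟩ := ha
  obtain ⟨y, h3, h4⟩ := hb
  have h5 : x * y = 1 := by
    apply Subtype.ext
    show (x : k) * (y : k) = 1
    rw [h1, h3, h]
  rw [← h2, ← h4, ← map_mul, h5, map_one]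

theorem re_exists {a : k} (ha : a ∈ Λ) (φ : Λ →+* κ) : ∃ a', Re Λ φ a a' := by
  exact ⟨φ ⟨a, ha⟩, ⟨a, ha⟩, rfl, rfl⟩

theorem rd_exists {k σ : Type} [Field k] (P : MvPolynomial σ k) :
    ∃ F : Set k, F.Finite ∧ ∀ (κ : Type) [CommRing κ] (Λ : Subring k) (φ : Λ →+* κ),
      F ⊆ Λ → ∃ P', Rd Λ φ P P' := by
  classical
  refine ⟨(P.coeffs : Set k), Finset.finite_toSet _, fun κ _ Λ φ hF => ?_⟩
  have h1 : P ∈ Set.range (MvPolynomial.map Λ.subtype) := by
    rw [MvPolynomial.mem_range_map_iff_coeffs_subset]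
    intro x hx
    exact ⟨⟨x, hF hx⟩, rfl⟩
  obtain ⟨Q, hQ⟩ := h1
  exact ⟨MvPolynomial.map φ Q, Q, hQ, rfl⟩

end Pool.Agent.Lib.MP_1e3e9c_agF
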