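import Mathlib
import Pool.Agent.Lib.MP_1e3e9c_agF.H2

/-!
# H3 (medium-): reduction of an ideal membership

PROOF. `f = ∑ i ∈ s, a i * g i` with `a i : MvPolynomial σ k` (`Finsupp.mem_ideal_span_range_iff_exists_finsupp` or `Submodule.mem_span_range_iff_exists_finsupp`; `s` finite). `F` = the set of the
coefficients of all the `a i`, `i ∈ s` (union of the sets of `rd_exists`). Now let `Λ ⊇ F`, `φ`, `f'`, `g'` be given, `Q`, `Q' i` the witnesses of `Rd Λ φ f f'`, `Rd Λ φ (g i) (g' i)` and `A i` those of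
`Rd Λ φ (a i) _` (`rd_exists`). Then `map Λ.subtype Q = map Λ.subtype (∑ i ∈ s, A i * Q' i)`, so `Q = ∑ i ∈ s, A i * Q' i` (`MvPolynomial.map_injective`, `Λ.subtype` is injective). Apply
`map φ`: `f' = ∑ i ∈ s, map φ (A i) * g' i`.
-/

set_option autoImplicit false

namespace Pool.Agent.Lib.MP_1e3e9c_agF

private theorem H3_uniq {k κ σ : Type} [Field k] [CommRing κ] {Λ : Subring k} {φ : Λ →+* κ} {P : MvPolynomial σ k}
    {P' P'' : MvPolynomial σ κ} (h : Rd Λ φ P P') (h' : Rd Λ φ P P'') : P' = P'' := by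
  obtain ⟨Q, hQ, rfl⟩ := h
  obtain ⟨Q', hQ', rfl⟩ := h'
  have h1 : Q = Q' := MvPolynomial.map_injective Λ.subtype Subtype.val_injective (hQ.trans hQ'.symm)
  rw [h1]

private theorem H3_sum {k κ σ ι : Type} [Field k] [CommRing κ] {Λ : Subring k} {φ : Λ →+* κ} (s : Finset ι)
    {P : ι → MvPolynomial σ k} {P' : ι → MvPolynomial σ κ} (h : ∀ i ∈ s, Rd Λ φ (P i) (P' i)) :
    Rd Λ φ (∑ i ∈ s, P i) (∑ i ∈ s, P' i) := by
  classical
  induction s using Finset.induction_on with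
  | empty =>
    rw [Finset.sum_empty, Finset.sum_empty]
    exact Rd.zero
  | insert i s hi ih =>
    rw [Finset.sum_insert hi, Finset.sum_insert hi]
    exact (h i (Finset.mem_insert_self i s)).add (ih fun j hj => h j (Finset.mem_insert_of_mem hj))

theorem rd_span {k σ ι : Type} [Field k] (f : MvPolynomial σ k) (g : ι → MvPolynomial σ k)
    (h : f ∈ Ideal.span (Set.range g)) :
    ∃ F : Set k, F.Finite ∧ ∀ (κ : Type) [CommRing κ] (Λ : Subring k) (φ : Λ →+* κ), F ⊆ Λ →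
      ∀ (f' : MvPolynomial σ κ) (g' : ι → MvPolynomial σ κ), Rd Λ φ f f' →
        (∀ i, Rd Λ φ (g i) (g' i)) → f' ∈ Ideal.span (Set.range g') := by
  obtain ⟨c, hc⟩ := Finsupp.mem_ideal_span_range_iff_exists_finsupp.1 h
  choose F hF hF' using fun i => rd_exists (c i)
  refine ⟨⋃ i ∈ (c.support : Set ι), F i, Set.Finite.biUnion c.support.finite_toSet fun i _ => hF i, ?_⟩
  intro κ _ Λ φ hΛ f' g' hf hg
  have hex : ∀ i, ∃ a' : MvPolynomial σ κ, i ∈ c.support → Rd Λ φ (c i) a' := by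
    intro i
    by_cases hi : i ∈ c.support
    · obtain ⟨a', ha'⟩ := hF' i κ Λ φ fun x hx => hΛ (Set.mem_biUnion hi hx)
      exact ⟨a', fun _ => ha'⟩
    · exact ⟨0, fun h => absurd h hi⟩
  choose a' ha' using hex
  have h1 : Rd Λ φ (∑ i ∈ c.support, c i * g i) (∑ i ∈ c.support, a' i * g' i) :=
    H3_sum _ fun i hi => (ha' i hi).mul (hg i)
  have h2 : ∑ i ∈ c.support, c i * g i = f := hc
  rw [h2] at h1
  rw [H3_uniq hf h1]
  exact Ideal.sum_mem _ fun i _ => Ideal.mul_mem_left _ _ (Ideal.subset_span ⟨i, rfl⟩)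

end Pool.Agent.Lib.MP_1e3e9c_agF
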