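import Mathlib

/-!
# H5 (easy+, Mathlib only, 3 theorems): Nullstellensatz

PROOF. `null_mem`: `f` is in the vanishing ideal of the zero locus of `Ideal.span (Set.range g)` (a point `x` of the zero locus satisfies `eval x (g i) = 0`), which is the radical
(`MvPolynomial.vanishingIdeal_zeroLocus_eq_radical`). `null_pow`: for every `j` the polynomial `X j` vanishes at all common zeros, so `X j ^ M j` is in the ideal; take `M = ∑ j, M j` (or the supremum)
and multiply by `X j ^ (M - M j)`. `span_eval`: `Submodule.span_induction`, or `Ideal.span_le` with the kernel of `eval x`.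
-/

set_option autoImplicit false

namespace Pool.Agent.Lib.MP_1e3e9c_agF

theorem null_mem {k σ ι : Type} [Field k] [IsAlgClosed k] [Finite σ] (g : ι → MvPolynomial σ k)
    (f : MvPolynomial σ k)
    (h : ∀ x : σ → k, (∀ i, MvPolynomial.eval x (g i) = 0) → MvPolynomial.eval x f = 0) :
    ∃ M : ℕ, f ^ M ∈ Ideal.span (Set.range g) := by
  have h1 : f ∈ MvPolynomial.vanishingIdeal k (MvPolynomial.zeroLocus k (Ideal.span (Set.range g))) := by
    intro x hx
    rw [MvPolynomial.aeval_eq_eval]
    refine h x fun i => ?_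
    have h2 := hx (g i) (Ideal.subset_span ⟨i, rfl⟩)
    rwa [MvPolynomial.aeval_eq_eval] at h2
  rw [MvPolynomial.vanishingIdeal_zeroLocus_eq_radical] at h1
  exact h1

theorem null_pow {k σ ι : Type} [Field k] [IsAlgClosed k] [Finite σ] (g : ι → MvPolynomial σ k)
    (h : ∀ x : σ → k, (∀ i, MvPolynomial.eval x (g i) = 0) → x = 0) :
    ∃ M : ℕ, ∀ j, (MvPolynomial.X j : MvPolynomial σ k) ^ M ∈ Ideal.span (Set.range g) := by
  classical
  have := Fintype.ofFinite σ
  have h1 : ∀ j : σ, ∃ M : ℕ, (MvPolynomial.X j : MvPolynomial σ k) ^ M ∈ Ideal.span (Set.range g) := by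
    intro j
    refine null_mem g _ fun x hx => ?_
    rw [MvPolynomial.eval_X, h x hx]
    rfl
  choose M hM using h1
  refine ⟨∑ j, M j, fun j => ?_⟩
  exact Ideal.pow_mem_of_pow_mem _ (hM j) (Finset.single_le_sum (fun _ _ => Nat.zero_le _) (Finset.mem_univ j))

theorem span_eval {k σ ι : Type} [Field k] {g : ι → MvPolynomial σ k} {f : MvPolynomial σ k}
    (h : f ∈ Ideal.span (Set.range g)) {x : σ → k} (hx : ∀ i, MvPolynomial.eval x (g i) = 0) :
    MvPolynomial.eval x f = 0 := by
  have h1 : Ideal.span (Set.range g) ≤ RingHom.ker (MvPolynomial.eval x) := by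
    rw [Ideal.span_le]
    rintro _ ⟨i, rfl⟩
    exact hx i
  exact h1 h

end Pool.Agent.Lib.MP_1e3e9c_agF
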