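import Mathlib
import Pool.Agent.Lib.MP_1e3e9c_agF.H5
import Pool.Agent.Lib.MP_1e3e9c_agF.HDefs

/-!
# H6 (medium): the certificate of smoothness

PROOF. `mnr_ne`: the rows `gr (P l) v` are linearly independent, so some `c x c` minor is not zero (finite-dimensional linear algebra: `exists_linearIndependent'` on the columns,
`Matrix.rank_eq_finrank_span_cols`, `LinearIndependent.rank_matrix`, `Matrix.linearIndependent_rows_iff_isUnit`; see `exists_minor` in the store file OA_V6.lean), and `eval v (mnr P j)` is this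
minor (`RingHom.map_det`, unfold `mnr`, `gr`).
`cert_sm`: the ring is Noetherian, so there is a finite subset `T₀` of `S` with `Ideal.span T₀ = Ideal.span S` (`Submodule.fg...`: every element of a finite generating set is in the span of a finite
subset of `S`, `Submodule.mem_span_finite_of_mem_span`). Let `x ≠ 0` be a zero of `S`: `hsm` gives `P^x : Fin c → MvPolynomial`, with values in `S`, for every `Q ∈ T₀` a `h_Q` with `h_Q(x) ≠ 0`,
`h_Q Q ∈ (P^x)`, and `mnr_ne` a `j^x`. `h^x := ∏_(Q ∈ T₀) h_Q`: `h^x(x) ≠ 0`, `h^x F ∈ (P^x)` for all `F ∈ Ideal.span T₀`. Let `g` be the family indexed by `T₀ ⊕ {x // x ≠ 0, x a zero of S}`: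
`g Q = Q`, `g x = mnr P^x j^x * h^x`. Its only common zero is `0`. By `null_pow` there is `M` with `X i ^ M ∈ Ideal.span (Set.range g)` for all `i`; a finite subset of the index set suffices for all the
`i : Fin (n + 1)` (`Submodule.mem_span_finite_of_mem_span` or finsupps): points `x_1, ..., x_B`. `T` : an enumeration (`Fin s`) of the finite set `T₀ ∪ ⋃_b range P^(x_b)`, `a b l` the number of
`P^(x_b) l`. All `T q ∈ S ⊆ Ideal.span T₀`, so `h b * T q ∈ (P^(x_b))`.
-/

set_option autoImplicit false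

namespace Pool.Agent.Lib.MP_1e3e9c_agF

open Pool.Agent.Lib.MP_1e3e9c_agR Pool.Agent.Lib.MP_1e3e9c_agM

theorem mnr_ne {k : Type} [Field k] {n c : ℕ} {P : Fin c → MvPolynomial (Fin (n + 1)) k}
    {v : Fin (n + 1) → k} (h : LinearIndependent k (fun l => gr (P l) v)) :
    ∃ j : Fin c → Fin (n + 1), MvPolynomial.eval v (mnr P j) ≠ 0 := by
  classical
  let N : Matrix (Fin c) (Fin (n + 1)) k := Matrix.of fun l i => gr (P l) v i
  have h3 : N.rank = c := by
    have h' := LinearIndependent.rank_matrix (M := N) h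
    rwa [Fintype.card_fin] at h'
  obtain ⟨κ, a, ha, hsp, hli⟩ := exists_linearIndependent' k N.col
  have hF : Fintype κ := Fintype.ofInjective a ha
  have hcard : Fintype.card κ = c := by
    rw [← finrank_span_eq_card hli, hsp, ← Matrix.rank_eq_finrank_span_cols, h3]
  let e : Fin c ≃ κ := (Fintype.equivFinOfCardEq hcard).symm
  refine ⟨fun i => a (e i), fun h0 => ?_⟩
  have h4 : LinearIndependent k (fun i : Fin c => N.col (a (e i))) := hli.comp e e.injective
  have h5 : IsUnit (Matrix.of fun i b : Fin c => N b (a (e i))) :=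
    Matrix.linearIndependent_rows_iff_isUnit.1 h4
  rw [Matrix.isUnit_iff_isUnit_det, ← Matrix.det_transpose] at h5
  have h6 : (Matrix.of fun i b : Fin c => N b (a (e i))).transpose.det =
      MvPolynomial.eval v (mnr P fun i => a (e i)) := by
    unfold mnr
    rw [RingHom.map_det]
    rfl
  rw [h6, h0] at h5
  exact not_isUnit_zero h5

private theorem H6_loc {k : Type} [Field k] {n : ℕ} {S : Set (MvPolynomial (Fin (n + 1)) k)}
    {v : Fin (n + 1) → k} {I : Ideal (MvPolynomial (Fin (n + 1)) k)}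
    (hloc : ∀ Q ∈ S, ∃ h, MvPolynomial.eval v h ≠ 0 ∧ h * Q ∈ I)
    (T₀ : Finset (MvPolynomial (Fin (n + 1)) k)) (hT₀ : ∀ Q ∈ T₀, Q ∈ S) :
    ∃ h, MvPolynomial.eval v h ≠ 0 ∧ ∀ F ∈ Ideal.span (T₀ : Set (MvPolynomial (Fin (n + 1)) k)),
      h * F ∈ I := by
  classical
  have key : ∀ T₁ : Finset (MvPolynomial (Fin (n + 1)) k), (∀ Q ∈ T₁, Q ∈ S) →
      ∃ h, MvPolynomial.eval v h ≠ 0 ∧ ∀ Q ∈ T₁, h * Q ∈ I := by
    intro T₁
    induction T₁ using Finset.induction_on with
    | empty =>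
      intro _
      exact ⟨1, by simp, by simp⟩
    | insert Q T₁ hQ ih =>
      intro hS
      obtain ⟨h, h1, h2⟩ := ih fun R hR => hS R (Finset.mem_insert_of_mem hR)
      obtain ⟨g, g1, g2⟩ := hloc Q (hS Q (Finset.mem_insert_self _ _))
      refine ⟨h * g, ?_, ?_⟩
      · rw [map_mul]
        exact mul_ne_zero h1 g1
      · intro R hR
        rcases Finset.mem_insert.1 hR with rfl | hR
        · rw [mul_assoc]
          exact I.mul_mem_left _ g2
        · rw [mul_comm h g, mul_assoc]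
          exact I.mul_mem_left _ (h2 R hR)
  obtain ⟨h, h1, h2⟩ := key T₀ hT₀
  refine ⟨h, h1, fun F hF => ?_⟩
  induction hF using Submodule.span_induction with
  | mem x hx => exact h2 x hx
  | zero =>
    rw [mul_zero]
    exact I.zero_mem
  | add x y _ _ hx hy =>
    rw [mul_add]
    exact I.add_mem hx hy
  | smul r x _ hx =>
    rw [smul_eq_mul, mul_left_comm]
    exact I.mul_mem_left _ hx

theorem cert_sm {k : Type} [Field k] [IsAlgClosed k] {n c : ℕ}
    {S : Set (MvPolynomial (Fin (n + 1)) k)} (hsm : Sm S c) :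
    ∃ (s B M : ℕ) (T : Fin s → MvPolynomial (Fin (n + 1)) k) (a : Fin B → Fin c → Fin s)
      (j : Fin B → Fin c → Fin (n + 1)) (h : Fin B → MvPolynomial (Fin (n + 1)) k),
      (∀ q, T q ∈ S) ∧ Ideal.span (Set.range T) = Ideal.span S ∧
      (∀ b q, h b * T q ∈ Ideal.span (Set.range fun l => T (a b l))) ∧
      ∀ i, (MvPolynomial.X i : MvPolynomial (Fin (n + 1)) k) ^ M ∈
        Ideal.span (Set.range (Sum.elim T fun b => mnR (fun l => T (a b l)) (j b) * h b)) := by
  classical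
  obtain ⟨T₀, hT₀S, hT₀⟩ := Submodule.fg_span_iff_fg_span_finset_subset
    (R := MvPolynomial (Fin (n + 1)) k) S |>.1 (IsNoetherian.noetherian (Ideal.span S))
  have hspan : Ideal.span S = Ideal.span (T₀ : Set (MvPolynomial (Fin (n + 1)) k)) := hT₀
  -- the points
  let X : Type := {x : Fin (n + 1) → k // x ≠ 0 ∧ ∀ P ∈ S, MvPolynomial.eval x P = 0}
  have hdata : ∀ x : X, ∃ (P : Fin c → MvPolynomial (Fin (n + 1)) k) (J : Fin c → Fin (n + 1))
      (h : MvPolynomial (Fin (n + 1)) k), (∀ l, P l ∈ S) ∧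
      MvPolynomial.eval x.1 (mnr P J) ≠ 0 ∧ MvPolynomial.eval x.1 h ≠ 0 ∧
      ∀ F ∈ Ideal.span S, h * F ∈ Ideal.span (Set.range P) := by
    intro x
    obtain ⟨P, hP, hli, hloc⟩ := hsm x.1 x.2.1 x.2.2
    obtain ⟨J, hJ⟩ := mnr_ne hli
    obtain ⟨h, h1, h2⟩ := H6_loc hloc T₀ fun Q hQ => hT₀S hQ
    refine ⟨P, J, h, hP, hJ, h1, fun F hF => h2 F ?_⟩
    rw [← hspan]
    exact hF
  choose P J h hPS hJ hh hloc using hdata
  let g : (T₀ ⊕ X) → MvPolynomial (Fin (n + 1)) k :=
    Sum.elim (fun Q => Q.1) fun x => mnR (P x) (J x) * h x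
  have hzero : ∀ y : Fin (n + 1) → k, (∀ i, MvPolynomial.eval y (g i) = 0) → y = 0 := by
    intro y hy
    by_contra hne
    have h1 : ∀ Q ∈ S, MvPolynomial.eval y Q = 0 := by
      intro Q hQ
      have h2 : Q ∈ Ideal.span (Set.range fun q : T₀ => (q.1 : MvPolynomial (Fin (n + 1)) k)) := by
        have h3 : (Set.range fun q : T₀ => (q.1 : MvPolynomial (Fin (n + 1)) k)) =
            (T₀ : Set (MvPolynomial (Fin (n + 1)) k)) := by
          ext z
          simp
        rw [h3, ← hspan]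
        exact Ideal.subset_span hQ
      exact span_eval h2 fun q => hy (Sum.inl q)
    have h4 := hy (Sum.inr ⟨y, hne, h1⟩)
    have h5 : MvPolynomial.eval y (mnR (P ⟨y, hne, h1⟩) (J ⟨y, hne, h1⟩) * h ⟨y, hne, h1⟩) = 0 := h4
    rw [map_mul, mnR_eq] at h5
    rcases mul_eq_zero.1 h5 with h6 | h6
    · exact hJ ⟨y, hne, h1⟩ h6
    · exact hh ⟨y, hne, h1⟩ h6
  obtain ⟨M, hM⟩ := null_pow g hzero
  have hfs : ∀ i, ∃ f : (T₀ ⊕ X) →₀ MvPolynomial (Fin (n + 1)) k,
      (f.sum fun u r => r • g u) = (MvPolynomial.X i : MvPolynomial (Fin (n + 1)) k) ^ M := by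
    intro i
    exact Finsupp.mem_span_range_iff_exists_finsupp.1 (hM i)
  choose f hf using hfs
  let U : Finset (T₀ ⊕ X) := Finset.univ.biUnion fun i => (f i).support
  let Xf : Finset X := U.toRight
  let α : Type := T₀ ⊕ (Xf × Fin c)
  let T' : α → MvPolynomial (Fin (n + 1)) k := Sum.elim (fun Q => Q.1) fun p => P p.1.1 p.2
  let ea : α ≃ Fin (Fintype.card α) := Fintype.equivFin α
  let eb : Xf ≃ Fin (Fintype.card Xf) := Fintype.equivFin Xf
  have hT'S : ∀ q, T' q ∈ S := by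
    rintro (Q | p)
    · exact hT₀S Q.2
    · exact hPS p.1.1 p.2
  have hTa : ∀ (b : Fin (Fintype.card Xf)) (l : Fin c),
      T' (ea.symm (ea (Sum.inr (eb.symm b, l)))) = P (eb.symm b).1 l := by
    intro b l
    rw [Equiv.symm_apply_apply]
    rfl
  refine ⟨Fintype.card α, Fintype.card Xf, M, fun q => T' (ea.symm q),
    fun b l => ea (Sum.inr (eb.symm b, l)), fun b => J (eb.symm b).1, fun b => h (eb.symm b).1,
    fun q => hT'S _, ?_, ?_, ?_⟩
  · refine le_antisymm (Ideal.span_mono ?_) ?_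
    · rintro _ ⟨q, rfl⟩
      exact hT'S _
    · rw [hspan]
      refine Ideal.span_mono ?_
      intro Q hQ
      refine ⟨ea (Sum.inl ⟨Q, hQ⟩), ?_⟩
      show T' (ea.symm (ea (Sum.inl ⟨Q, hQ⟩))) = Q
      rw [Equiv.symm_apply_apply]
      rfl
  · intro b q
    have h1 : (fun l => T' (ea.symm (ea (Sum.inr (eb.symm b, l))))) = P (eb.symm b).1 :=
      funext fun l => hTa b l
    rw [h1]
    exact hloc _ _ (Ideal.subset_span (hT'S _))
  · intro i
    rw [← hf i]
    refine Submodule.sum_mem _ fun u hu => ?_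
    refine Submodule.smul_mem _ _ (Ideal.subset_span ?_)
    have huU : u ∈ U := Finset.mem_biUnion.2 ⟨i, Finset.mem_univ _, hu⟩
    rcases u with Q | x
    · refine ⟨Sum.inl (ea (Sum.inl Q)), ?_⟩
      show T' (ea.symm (ea (Sum.inl Q))) = Q.1
      rw [Equiv.symm_apply_apply]
      rfl
    · have hx : x ∈ Xf := Finset.mem_toRight.2 huU
      refine ⟨Sum.inr (eb ⟨x, hx⟩), ?_⟩
      show mnR (fun l => T' (ea.symm (ea (Sum.inr (eb.symm (eb ⟨x, hx⟩), l)))))
        (J (eb.symm (eb ⟨x, hx⟩)).1) * h (eb.symm (eb ⟨x, hx⟩)).1 = mnR (P x) (J x) * h x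
      have h1 : (fun l => T' (ea.symm (ea (Sum.inr (eb.symm (eb ⟨x, hx⟩), l))))) =
          P (eb.symm (eb ⟨x, hx⟩)).1 := funext fun l => hTa _ l
      rw [h1, Equiv.symm_apply_apply]

end Pool.Agent.Lib.MP_1e3e9c_agF
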