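import Mathlib
import Pool.Agent.Lib.MP_1e3e9c_agF.H5
import Pool.Agent.Lib.MP_1e3e9c_agF.HDefs

/-!
# H7 (easy+, 3 theorems): the certificates of the gcd condition and of the canonical bundle

PROOF. If all `T q` vanish at `x`, then all `P ∈ S` do (`P ∈ Ideal.span (Set.range T)`, `span_eval`). `cert_gp`: `null_pow` with the family `Sum.elim T fun i => if d ∣ w i then 0 else X i`: a common zero
`x ≠ 0` would satisfy `x i = 0` if `¬ d ∣ w i`, so `d = 1` by `hG` (`Gp k w S` at `x`, `MvPolynomial.aeval_eq_eval`). `cert_eq`: for every `t, i, j` the polynomial `X t * (ψ i * mnR P j - ψ j * mnR P i)`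
vanishes at all zeros `x` of the `T q` (if `x = 0` because of `X t`, otherwise by `hψ.eq`, `mnR_eq`): `null_mem`. `cert_ne`: `null_pow` with `Sum.elim T ψ` and `hψ.ne`.
-/

set_option autoImplicit false

namespace Pool.Agent.Lib.MP_1e3e9c_agF

open Pool.Agent.Lib.MP_1e3e9c_agR Pool.Agent.Lib.MP_1e3e9c_agM

variable {k : Type} [Field k] [IsAlgClosed k] {n c e s : ℕ} {w : Fin (n + 1) → ℕ}
  {S : Set (MvPolynomial (Fin (n + 1)) k)} {T : Fin s → MvPolynomial (Fin (n + 1)) k}
  {ψ : (Fin c → Fin (n + 1)) → MvPolynomial (Fin (n + 1)) k}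

omit [IsAlgClosed k] in
private theorem H7_S (hT : Ideal.span (Set.range T) = Ideal.span S) {x : Fin (n + 1) → k}
    (hx : ∀ q, MvPolynomial.eval x (T q) = 0) : ∀ P ∈ S, MvPolynomial.eval x P = 0 := by
  intro P hP
  refine span_eval (g := T) ?_ hx
  rw [hT]
  exact Ideal.subset_span hP

theorem cert_gp (hT : Ideal.span (Set.range T) = Ideal.span S) (hG : Gp k w S) (d : ℕ)
    (hd : d ≠ 1) : ∃ M : ℕ, ∀ j, (MvPolynomial.X j : MvPolynomial (Fin (n + 1)) k) ^ M ∈
      Ideal.span (Set.range (Sum.elim T fun i : Fin (n + 1) =>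
        if d ∣ w i then 0 else MvPolynomial.X i)) := by
  refine null_pow _ fun x hx => ?_
  by_contra h0
  refine hd (hG x h0 (fun P hP => ?_) d fun i hi => ?_)
  · rw [MvPolynomial.aeval_eq_eval]
    exact H7_S hT (fun q => hx (Sum.inl q)) P hP
  · by_contra hnd
    have h1 := hx (Sum.inr i)
    rw [Sum.elim_inr, if_neg hnd, MvPolynomial.eval_X] at h1
    exact hi h1

theorem cert_eq (hTS : ∀ q, T q ∈ S) (hT : Ideal.span (Set.range T) = Ideal.span S)
    (hψ : Cnl w S c e ψ) (a : Fin c → Fin s) (i j : Fin c → Fin (n + 1)) (t : Fin (n + 1)) :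
    ∃ M : ℕ, (MvPolynomial.X t * (ψ i * mnR (fun l => T (a l)) j -
      ψ j * mnR (fun l => T (a l)) i)) ^ M ∈ Ideal.span (Set.range T) := by
  refine null_mem T _ fun x hx => ?_
  by_cases h0 : x = 0
  · rw [map_mul, MvPolynomial.eval_X, h0, Pi.zero_apply, zero_mul]
  · have h1 := hψ.eq x h0 (H7_S hT hx) (fun l => T (a l)) (fun l => hTS _) i j
    rw [mnR_eq, mnR_eq, map_mul, map_sub, map_mul, map_mul, h1, sub_self, mul_zero]

theorem cert_ne (hT : Ideal.span (Set.range T) = Ideal.span S) (hψ : Cnl w S c e ψ) :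
    ∃ M : ℕ, ∀ j, (MvPolynomial.X j : MvPolynomial (Fin (n + 1)) k) ^ M ∈
      Ideal.span (Set.range (Sum.elim T ψ)) := by
  refine null_pow _ fun x hx => ?_
  by_contra h0
  obtain ⟨j, hj⟩ := hψ.ne x h0 (H7_S hT fun q => hx (Sum.inl q))
  exact hj (hx (Sum.inr j))

end Pool.Agent.Lib.MP_1e3e9c_agF
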