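import Mathlib
import Pool.Agent.Lib.MP_1e3e9c_agF.HDefs

/-!
# H4 (medium-, 4 theorems): the equations of the generic curve

PROOF. Naturality: for a homomorphism `f : R → R'` of rings one has `(gcv w D v i).map (MvPolynomial.map f) = gcv w D (f ∘ v) i` (`Polynomial.map_add`, `Polynomial.map_sum`, ...), so
`MvPolynomial.map f (ceq w D v P m) = ceq w D (f ∘ v) (MvPolynomial.map f P) m` (`Polynomial.coeff_map`, `MvPolynomial.induction_on P` or `MvPolynomial.eval₂_comp_left`) and the same for `cbi`. `rd_ceq`,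
`rd_cbi`: the witness is `ceq w D b Q m`, `cbi w D b i j m` for the witnesses `b` of `v`, `Q` of `P`; apply naturality with `f = Λ.subtype` and `f = φ`.
`eval_ceq`, `eval_cbi`: for a field the homomorphism `MvPolynomial.eval c : MvPolynomial (Un w D) k → k` maps `gcv w D v i` to `crv w D v c i`: `(gcv w D v i).map (MvPolynomial.eval c) = crv w D v c i`
(unfold both), and `Polynomial.coeff_map`.
-/

set_option autoImplicit false

namespace Pool.Agent.Lib.MP_1e3e9c_agF

open Pool.Agent.Lib.MP_1e3e9c_agR Pool.Agent.Lib.MP_1e3e9c_agM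

private theorem H4_gcv {R R' : Type} [CommRing R] [CommRing R'] (f : R →+* R') {n : ℕ} (w : Fin (n + 1) → ℕ)
    (D : ℕ) (v : Fin (n + 1) → R) (i : Fin (n + 1)) :
    (gcv w D v i).map (MvPolynomial.map f) = gcv w D (fun i => f (v i)) i := by
  unfold gcv
  rw [Polynomial.map_add, Polynomial.map_C, MvPolynomial.map_C, Polynomial.map_sum]
  congr 1
  refine Finset.sum_congr rfl fun l _ => ?_
  rw [Polynomial.map_mul, Polynomial.map_C, MvPolynomial.map_X, Polynomial.map_pow, Polynomial.map_X]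

private theorem H4_ceq {R R' : Type} [CommRing R] [CommRing R'] (f : R →+* R') {n : ℕ} (w : Fin (n + 1) → ℕ)
    (D : ℕ) (v : Fin (n + 1) → R) (P : MvPolynomial (Fin (n + 1)) R) (m : ℕ) :
    MvPolynomial.map f (ceq w D v P m) = ceq w D (fun i => f (v i)) (MvPolynomial.map f P) m := by
  unfold ceq
  rw [← Polynomial.coeff_map, MvPolynomial.eval₂_map]
  congr 1
  have h1 := MvPolynomial.eval₂_comp_left (Polynomial.mapRingHom (MvPolynomial.map f))
    (Polynomial.C.comp (MvPolynomial.C : R →+* MvPolynomial (Un w D) R)) (gcv w D v) P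
  rw [Polynomial.coe_mapRingHom] at h1
  rw [h1]
  congr 1
  · refine RingHom.ext fun a => ?_
    rw [RingHom.comp_apply, RingHom.comp_apply, RingHom.comp_apply, RingHom.comp_apply, Polynomial.coe_mapRingHom,
      Polynomial.map_C, MvPolynomial.map_C]
  · funext i
    exact H4_gcv f w D v i

private theorem H4_cbi {R R' : Type} [CommRing R] [CommRing R'] (f : R →+* R') {n : ℕ} (w : Fin (n + 1) → ℕ)
    (D : ℕ) (v : Fin (n + 1) → R) (i j : Fin (n + 1)) (m : ℕ) :
    MvPolynomial.map f (cbi w D v i j m) = cbi w D (fun i => f (v i)) i j m := by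
  unfold cbi
  rw [← Polynomial.coeff_map, Polynomial.map_sub, Polynomial.map_mul, Polynomial.map_mul, Polynomial.map_pow,
    Polynomial.map_pow, H4_gcv, H4_gcv, Polynomial.map_C, Polynomial.map_C, MvPolynomial.map_C, MvPolynomial.map_C]
  simp only [map_pow]

private theorem H4_crv {k : Type} [Field k] {n : ℕ} (w : Fin (n + 1) → ℕ) (D : ℕ) (v : Fin (n + 1) → k)
    (c : Un w D → k) (i : Fin (n + 1)) : (gcv w D v i).map (MvPolynomial.eval c) = crv w D v c i := by
  unfold gcv crv
  rw [Polynomial.map_add, Polynomial.map_C, MvPolynomial.eval_C, Polynomial.map_sum]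
  congr 1
  refine Finset.sum_congr rfl fun l _ => ?_
  rw [Polynomial.map_mul, Polynomial.map_C, MvPolynomial.eval_X, Polynomial.map_pow, Polynomial.map_X]

theorem rd_ceq {k κ : Type} [Field k] [CommRing κ] {Λ : Subring k} {φ : Λ →+* κ} {n : ℕ}
    (w : Fin (n + 1) → ℕ) (D : ℕ) {v : Fin (n + 1) → k} {v' : Fin (n + 1) → κ}
    (hv : ∀ i, Re Λ φ (v i) (v' i)) {P : MvPolynomial (Fin (n + 1)) k}
    {P' : MvPolynomial (Fin (n + 1)) κ} (h : Rd Λ φ P P') (m : ℕ) :
    Rd Λ φ (ceq w D v P m) (ceq w D v' P' m) := by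
  obtain ⟨Q, hQ, hQ'⟩ := h
  choose b hb hb' using hv
  refine ⟨ceq w D b Q m, ?_, ?_⟩
  · rw [H4_ceq, hQ]
    exact congrArg (fun x => ceq w D x P m) (funext hb)
  · rw [H4_ceq, hQ']
    exact congrArg (fun x => ceq w D x P' m) (funext hb')

theorem rd_cbi {k κ : Type} [Field k] [CommRing κ] {Λ : Subring k} {φ : Λ →+* κ} {n : ℕ}
    (w : Fin (n + 1) → ℕ) (D : ℕ) {v : Fin (n + 1) → k} {v' : Fin (n + 1) → κ}
    (hv : ∀ i, Re Λ φ (v i) (v' i)) (i j : Fin (n + 1)) (m : ℕ) :
    Rd Λ φ (cbi w D v i j m) (cbi w D v' i j m) := by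
  choose b hb hb' using hv
  refine ⟨cbi w D b i j m, ?_, ?_⟩
  · rw [H4_cbi]
    exact congrArg (fun x => cbi w D x i j m) (funext hb)
  · rw [H4_cbi]
    exact congrArg (fun x => cbi w D x i j m) (funext hb')

theorem eval_ceq {k : Type} [Field k] {n : ℕ} (w : Fin (n + 1) → ℕ) (D : ℕ)
    (v : Fin (n + 1) → k) (P : MvPolynomial (Fin (n + 1)) k) (m : ℕ) (c : Un w D → k) :
    MvPolynomial.eval c (ceq w D v P m) = (MvPolynomial.aeval (crv w D v c) P).coeff m := by
  unfold ceq
  rw [← Polynomial.coeff_map, MvPolynomial.aeval_def]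
  congr 1
  have h1 := MvPolynomial.eval₂_comp_left (Polynomial.mapRingHom (MvPolynomial.eval c))
    (Polynomial.C.comp (MvPolynomial.C : k →+* MvPolynomial (Un w D) k)) (gcv w D v) P
  rw [Polynomial.coe_mapRingHom] at h1
  rw [h1]
  congr 1
  · refine RingHom.ext fun a => ?_
    rw [RingHom.comp_apply, RingHom.comp_apply, Polynomial.coe_mapRingHom, Polynomial.map_C, MvPolynomial.eval_C]
    rfl
  · funext i
    exact H4_crv w D v c i

theorem eval_cbi {k : Type} [Field k] {n : ℕ} (w : Fin (n + 1) → ℕ) (D : ℕ)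
    (v : Fin (n + 1) → k) (i j : Fin (n + 1)) (m : ℕ) (c : Un w D → k) :
    MvPolynomial.eval c (cbi w D v i j m) =
      (crv w D v c i ^ w j * Polynomial.C (v j ^ w i) -
        crv w D v c j ^ w i * Polynomial.C (v i ^ w j)).coeff m := by
  unfold cbi
  rw [← Polynomial.coeff_map, Polynomial.map_sub, Polynomial.map_mul, Polynomial.map_mul, Polynomial.map_pow,
    Polynomial.map_pow, H4_crv, H4_crv, Polynomial.map_C, Polynomial.map_C, MvPolynomial.eval_C, MvPolynomial.eval_C]

end Pool.Agent.Lib.MP_1e3e9c_agF
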