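import Mathlib
import Pool.Agent.Lib.MP_1e3e9c_agF.H4
import Pool.Agent.Lib.MP_1e3e9c_agF.H5
import Pool.Agent.Lib.MP_1e3e9c_agM.M2

/-!
# H8 (medium-, 3 theorems): no curves, certificate

PROOF. `cert_crv`: `null_mem` with the family of the `ceq w D v (T q) m`. Let `c` be a common zero: by `eval_ceq` all coefficients of `aeval (crv w D v c) (T q)` vanish, so `aeval (crv w D v c) P = 0` for all
`P ∈ Ideal.span S` (`hT`; the kernel of the homomorphism `aeval`), so `eval (val (crv w D v c) t) P = 0` for all `t` (evaluate at `t`: `MvPolynomial.aeval_def`, `eval₂_comp`; lemma `eval_val` of agM).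
As `c` is not in `Cn w D S v`, all values are `a^(w_i) v_i`, so `Bi w v (crv w D v c)` (`bi_of_const` of agM.M2), that is `eval c (cbi ..) = 0` (`eval_cbi`).
`no_crv`: for `c ∈ Cn w D (Set.range T) v` all `ceq w D v (T q) m` vanish at `c` (`κ` is infinite, a polynomial with zero values is zero), so `cbi w D v i j m ^ M` vanishes at `c` (`span_eval`), so
`eval c (cbi ..) = 0` for all `m`, so the binomial identity of `Bi` holds; evaluating it at `t`, `orbit` (agM.M1) gives `a` with `(crv i).eval t = a^(w_i) v_i`: contradiction.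
`cn_mono`: the curve `crv w D v c` is `crv w D₀ v c₀` with `c₀ ⟨i, l⟩ = (crv w D v c i).coeff (l + 1)` (compare the coefficients; the degree of `crv w D v c i` is `≤ w i * D ≤ w i * D₀`).
-/

set_option autoImplicit false

namespace Pool.Agent.Lib.MP_1e3e9c_agF

open Pool.Agent.Lib.MP_1e3e9c_agR Pool.Agent.Lib.MP_1e3e9c_agM

private theorem H8_bezout {ι : Type} (I : Finset ι) (w : ι → ℕ) (h : ∀ d : ℕ, (∀ i ∈ I, d ∣ w i) → d = 1) :
    ∃ m : ι → ℤ, ∑ i ∈ I, m i * (w i : ℤ) = 1 := by
  obtain ⟨f, hf⟩ := Finset.gcd_eq_sum_mul I (fun i => (w i : ℤ))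
  set g : ℤ := I.gcd (fun i => (w i : ℤ)) with hg
  have h1 : g.natAbs = 1 := by
    apply h
    intro i hi
    have h2 : g ∣ (w i : ℤ) := Finset.gcd_dvd hi
    exact Int.natAbs_dvd_natAbs.2 h2
  have h3 : g * g = 1 := by
    rw [← Int.natAbs_mul_self' g, h1]
    rfl
  refine ⟨fun i => g * f i, ?_⟩
  have h4 : ∑ i ∈ I, g * f i * (w i : ℤ) = g * ∑ i ∈ I, f i * (w i : ℤ) := by
    rw [Finset.mul_sum]
    exact Finset.sum_congr rfl fun i _ => mul_assoc _ _ _
  rw [h4]
  have h5 : ∑ i ∈ I, f i * (w i : ℤ) = g := by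
    rw [hf]
    exact Finset.sum_congr rfl fun i _ => by ring
  rw [h5, h3]

private theorem H8_orbit {K : Type} [Field K] {n : ℕ} {w : Fin (n + 1) → ℕ} (hw : ∀ i, 0 < w i)
    {v z : Fin (n + 1) → K} (hv : v ≠ 0) (hg : Gc w v)
    (h : ∀ i j, z i ^ w j * v j ^ w i = z j ^ w i * v i ^ w j) : ∃ a, ∀ i, z i = a ^ w i * v i := by
  classical
  set I : Finset (Fin (n + 1)) := Finset.univ.filter fun i => v i ≠ 0 with hI
  obtain ⟨j₀, hj₀⟩ := Function.ne_iff.1 hv
  have hj₀' : v j₀ ≠ 0 := hj₀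
  have hz0 : ∀ i, v i = 0 → z i = 0 := by
    intro i hi
    have h1 := h i j₀
    rw [hi, zero_pow (hw j₀).ne', mul_zero] at h1
    rcases mul_eq_zero.1 h1 with h2 | h2
    · exact (pow_eq_zero_iff (hw j₀).ne').1 h2
    · exact absurd ((pow_eq_zero_iff (hw i).ne').1 h2) hj₀'
  have hu : ∀ i j, v i ≠ 0 → v j ≠ 0 → (z i / v i) ^ w j = (z j / v j) ^ w i := by
    intro i j hi hj
    rw [div_pow, div_pow, div_eq_div_iff (pow_ne_zero _ hi) (pow_ne_zero _ hj)]
    exact h i j
  by_cases hz : ∃ i, v i ≠ 0 ∧ z i = 0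
  · obtain ⟨i, hi, hzi⟩ := hz
    refine ⟨0, fun j => ?_⟩
    rw [zero_pow (hw j).ne', zero_mul]
    by_cases hj : v j = 0
    · exact hz0 j hj
    · have h1 := hu i j hi hj
      rw [hzi, zero_div, zero_pow (hw j).ne'] at h1
      have h2 := (pow_eq_zero_iff (hw i).ne').1 h1.symm
      rcases div_eq_zero_iff.1 h2 with h3 | h3
      · exact h3
      · exact absurd h3 hj
  · push Not at hz
    obtain ⟨m, hm⟩ := H8_bezout I w (fun d hd => hg d fun i hi =>
      hd i (Finset.mem_filter.2 ⟨Finset.mem_univ _, hi⟩))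
    refine ⟨∏ i ∈ I, (z i / v i) ^ m i, fun j => ?_⟩
    by_cases hj : v j = 0
    · rw [hz0 j hj, hj, mul_zero]
    · have hzj : z j / v j ≠ 0 := div_ne_zero (hz j hj) hj
      have h1 : (∏ i ∈ I, (z i / v i) ^ m i) ^ w j = z j / v j := by
        calc (∏ i ∈ I, (z i / v i) ^ m i) ^ w j = ∏ i ∈ I, (z j / v j) ^ (m i * (w i : ℤ)) := by
              rw [← Finset.prod_pow]
              refine Finset.prod_congr rfl fun i hi => ?_
              have hi' : v i ≠ 0 := (Finset.mem_filter.1 hi).2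
              rw [← zpow_natCast ((z i / v i) ^ m i) (w j), ← zpow_mul, mul_comm (m i) ((w j : ℕ) : ℤ),
                zpow_mul, zpow_natCast, hu i j hi' hj, ← zpow_natCast (z j / v j) (w i), ← zpow_mul,
                mul_comm ((w i : ℕ) : ℤ) (m i)]
          _ = (z j / v j) ^ (∑ i ∈ I, m i * (w i : ℤ)) := by
              clear_value I
              clear hm hI
              induction I using Finset.induction_on with
              | empty => simp
              | insert a s ha ih => rw [Finset.prod_insert ha, Finset.sum_insert ha, zpow_add₀ hzj, ih]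
          _ = z j / v j := by rw [hm, zpow_one]
      rw [h1, div_mul_cancel₀ _ hj]

private theorem H8_coeff {k : Type} [Field k] {n : ℕ} (w : Fin (n + 1) → ℕ) (D : ℕ)
    (v : Fin (n + 1) → k) (c : Un w D → k) (i : Fin (n + 1)) (m : ℕ) :
    (crv w D v c i).coeff m = if m = 0 then v i else
      ∑ l : Fin (w i * D), if m = (l : ℕ) + 1 then c ⟨i, l⟩ else 0 := by
  unfold crv
  rw [Polynomial.coeff_add, Polynomial.coeff_C, Polynomial.finsetSum_coeff]
  have h1 : ∀ l : Fin (w i * D),
      (Polynomial.C (c ⟨i, l⟩) * Polynomial.X ^ ((l : ℕ) + 1)).coeff m =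
        if m = (l : ℕ) + 1 then c ⟨i, l⟩ else 0 := fun l => Polynomial.coeff_C_mul_X_pow _ _ _
  rw [Finset.sum_congr rfl fun l _ => h1 l]
  by_cases hm : m = 0
  · rw [if_pos hm, if_pos hm, Finset.sum_eq_zero, add_zero]
    intro l _
    rw [if_neg (by omega)]
  · rw [if_neg hm, if_neg hm, zero_add]

theorem cert_crv {k : Type} [Field k] [IsAlgClosed k] {n D s : ℕ} {w : Fin (n + 1) → ℕ}
    {S : Set (MvPolynomial (Fin (n + 1)) k)} {T : Fin s → MvPolynomial (Fin (n + 1)) k}
    (hT : Ideal.span (Set.range T) = Ideal.span S) {v : Fin (n + 1) → k}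
    (hE : Cn w D S v = ∅) (i j : Fin (n + 1)) (m : ℕ) :
    ∃ M : ℕ, cbi w D v i j m ^ M ∈
      Ideal.span (Set.range fun x : Fin s × ℕ => ceq w D v (T x.1) x.2) := by
  refine null_mem _ _ fun c hc => ?_
  have h1 : ∀ q, MvPolynomial.aeval (crv w D v c) (T q) = 0 := by
    intro q
    ext m
    rw [← eval_ceq, Polynomial.coeff_zero]
    exact hc (q, m)
  have h2 : ∀ P ∈ S, MvPolynomial.aeval (crv w D v c) P = 0 := by
    intro P hP
    have h3 : P ∈ Ideal.span (Set.range T) := by
      rw [hT]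
      exact Ideal.subset_span hP
    have h4 : Ideal.span (Set.range T) ≤ RingHom.ker
        (MvPolynomial.aeval (crv w D v c) : MvPolynomial (Fin (n + 1)) k →ₐ[k] Polynomial k) := by
      rw [Ideal.span_le]
      rintro _ ⟨q, rfl⟩
      exact h1 q
    exact h4 h3
  have h5 : ∀ t, ∃ a : k, ∀ i, (crv w D v c i).eval t = a ^ w i * v i := by
    by_contra h6
    have h7 : c ∈ Cn w D S v :=
      ⟨fun t P hP => by rw [eval_val, h2 P hP, Polynomial.eval_zero], h6⟩
    rw [hE] at h7
    exact h7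
  have h8 : Bi w v (crv w D v c) := bi_of_const h5
  rw [eval_cbi, h8 i j, sub_self, Polynomial.coeff_zero]

theorem no_crv {κ : Type} [Field κ] [IsAlgClosed κ] {n D s : ℕ} {w : Fin (n + 1) → ℕ}
    (hw : ∀ i, 0 < w i) {T : Fin s → MvPolynomial (Fin (n + 1)) κ} {v : Fin (n + 1) → κ}
    (hv0 : v ≠ 0) (hg : Gc w v)
    (h : ∀ i j, ∀ m, ∃ M : ℕ, cbi w D v i j m ^ M ∈
      Ideal.span (Set.range fun x : Fin s × ℕ => ceq w D v (T x.1) x.2)) :
    ¬ (Cn w D (Set.range T) v).Nonempty := by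
  rintro ⟨c, hc1, hc2⟩
  have h1 : ∀ q, MvPolynomial.aeval (crv w D v c) (T q) = 0 := by
    intro q
    refine Polynomial.funext fun t => ?_
    rw [← eval_val, Polynomial.eval_zero]
    exact hc1 t _ ⟨q, rfl⟩
  have h2 : Bi w v (crv w D v c) := by
    intro i j
    rw [← sub_eq_zero]
    ext m
    rw [← eval_cbi, Polynomial.coeff_zero]
    obtain ⟨M, hM⟩ := h i j m
    have h3 := span_eval hM (x := c) (fun x => by rw [eval_ceq, h1, Polynomial.coeff_zero])
    rw [map_pow] at h3
    by_cases hM0 : M = 0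
    · rw [hM0, pow_zero] at h3
      exact absurd h3 one_ne_zero
    · exact (pow_eq_zero_iff hM0).1 h3
  apply hc2
  intro t
  refine H8_orbit (z := fun i => (crv w D v c i).eval t) hw hv0 hg fun i j => ?_
  have h4 := congrArg (Polynomial.eval t) (h2 i j)
  rw [Polynomial.eval_mul, Polynomial.eval_mul, Polynomial.eval_pow, Polynomial.eval_pow,
    Polynomial.eval_C, Polynomial.eval_C] at h4
  exact h4

theorem cn_mono {κ : Type} [Field κ] {n D D₀ : ℕ} {w : Fin (n + 1) → ℕ}
    {S : Set (MvPolynomial (Fin (n + 1)) κ)} {v : Fin (n + 1) → κ} (hD : D ≤ D₀)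
    (h : (Cn w D S v).Nonempty) : (Cn w D₀ S v).Nonempty := by
  obtain ⟨c, hc1, hc2⟩ := h
  obtain ⟨c₀, hc₀⟩ : ∃ c₀ : Un w D₀ → κ,
      c₀ = fun x => (crv w D v c x.1).coeff ((x.2 : ℕ) + 1) := ⟨_, rfl⟩
  have h1 : crv w D₀ v c₀ = crv w D v c := by
    funext i
    ext m
    rw [H8_coeff w D₀]
    by_cases hm : m = 0
    · rw [if_pos hm, H8_coeff, if_pos hm]
    · rw [if_neg hm]
      by_cases hlt : m - 1 < w i * D₀
      · rw [Finset.sum_eq_single (⟨m - 1, hlt⟩ : Fin (w i * D₀))]
        · have h2 : m = m - 1 + 1 := by omega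
          rw [if_pos h2, hc₀]
          dsimp only
          rw [← h2]
        · intro l _ hl
          rw [if_neg]
          intro h3
          exact hl (Fin.ext (by simp only; omega))
        · intro h3
          exact absurd (Finset.mem_univ _) h3
      · rw [Finset.sum_eq_zero, H8_coeff, if_neg hm, Finset.sum_eq_zero]
        · intro l _
          have h3 : w i * D ≤ w i * D₀ := Nat.mul_le_mul_left _ hD
          have h4 := l.isLt
          rw [if_neg (by omega)]
        · intro l _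
          have h4 := l.isLt
          rw [if_neg (by omega)]
  refine ⟨c₀, ?_, ?_⟩
  · rw [h1]
    exact hc1
  · rw [h1]
    exact hc2

end Pool.Agent.Lib.MP_1e3e9c_agF
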