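import Mathlib
import Pool.Agent.Lib.MP_1e3e9c_agF.H5
import Pool.Agent.Lib.MP_1e3e9c_agF.HDefs

/-!
# H9 (easy+, 3 theorems): from the certificates back to the geometry

PROOF. `sm_of_cert`: let `x ≠ 0` be a common zero of the `T q`, `x i ≠ 0`. If all `mnR (..) (j b) * h b` vanish at `x`, then so does `X i ^ M` (`span_eval`): contradiction. So for some `b` the minor and `h b`
do not vanish at `x`: `P := fun l => T (a b l)`; its gradients are independent because a minor of the matrix of the gradients is not zero (`Matrix.linearIndependent_rows_of_det_ne_zero` for the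
submatrix, `LinearIndependent.of_comp` with the projection to the columns `j b`; `RingHom.map_det`, unfold `mnR`, `gr`), and `h b` is the `h` of `LCI` for all `Q = T q`.
`gp_of_cert`: let `x ≠ 0` be a common zero and `d ∣ w i` for all `i` with `x i ≠ 0`; suppose `d ≠ 1`. There is `i` with `x i ≠ 0`, so `d ∣ w i`, `d ≤ w i ≤ ∑ w`. All the generators of the ideal of
`h d` vanish at `x` (`if d ∣ w i then 0 else X i`), so `x j ^ M = 0` for all `j`: contradiction.
`cnl_of_cert`: `P : Fin c → _` with values in `Set.range T` is `fun l => T (a l)`. `eq`: take `t` with `x t ≠ 0`; the power in `h1` vanishes at `x` (`span_eval`), so the difference does. `ne`: if all `ψ j`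
vanish at `x`, then `x t ^ M = 0` by `h2`.
-/

set_option autoImplicit false

namespace Pool.Agent.Lib.MP_1e3e9c_agF

open Pool.Agent.Lib.MP_1e3e9c_agR Pool.Agent.Lib.MP_1e3e9c_agM

variable {κ : Type} [Field κ] {n c e s : ℕ} {w : Fin (n + 1) → ℕ}
  {T : Fin s → MvPolynomial (Fin (n + 1)) κ}
  {ψ : (Fin c → Fin (n + 1)) → MvPolynomial (Fin (n + 1)) κ}

theorem sm_of_cert {B M : ℕ} (a : Fin B → Fin c → Fin s) (j : Fin B → Fin c → Fin (n + 1))
    (h : Fin B → MvPolynomial (Fin (n + 1)) κ)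
    (h1 : ∀ b q, h b * T q ∈ Ideal.span (Set.range fun l => T (a b l)))
    (h2 : ∀ i, (MvPolynomial.X i : MvPolynomial (Fin (n + 1)) κ) ^ M ∈
      Ideal.span (Set.range (Sum.elim T fun b => mnR (fun l => T (a b l)) (j b) * h b))) :
    Sm (Set.range T) c := by
  intro x hx hS
  obtain ⟨i, hi⟩ := Function.ne_iff.1 hx
  have hi' : x i ≠ 0 := hi
  have hb : ∃ b, MvPolynomial.eval x (mnR (fun l => T (a b l)) (j b) * h b) ≠ 0 := by
    by_contra hn
    have hn' : ∀ b, MvPolynomial.eval x (mnR (fun l => T (a b l)) (j b) * h b) = 0 := fun b =>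
      not_not.1 fun g => hn ⟨b, g⟩
    have h3 := span_eval (h2 i) (x := x) (fun s => by
      rcases s with q | b
      · exact hS _ ⟨q, rfl⟩
      · exact hn' b)
    rw [map_pow, MvPolynomial.eval_X] at h3
    exact pow_ne_zero M hi' h3
  obtain ⟨b, hb⟩ := hb
  rw [map_mul] at hb
  have hb1 := left_ne_zero_of_mul hb
  have hb2 := right_ne_zero_of_mul hb
  refine ⟨fun l => T (a b l), fun l => ⟨_, rfl⟩, ?_, ?_⟩
  · have h4 : Matrix.det (Matrix.of fun l m : Fin c => gr (T (a b l)) x (j b m)) ≠ 0 := by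
      unfold mnR at hb1
      rw [RingHom.map_det] at hb1
      exact hb1
    have h5 := Matrix.linearIndependent_rows_of_det_ne_zero h4
    exact LinearIndependent.of_comp (LinearMap.funLeft κ κ (j b)) h5
  · rintro Q ⟨q, rfl⟩
    exact ⟨h b, hb2, h1 b q⟩

theorem gp_of_cert (hw : ∀ i, 0 < w i)
    (h : ∀ d ≤ ∑ i, w i, d ≠ 1 → ∃ M : ℕ, ∀ j,
      (MvPolynomial.X j : MvPolynomial (Fin (n + 1)) κ) ^ M ∈
        Ideal.span (Set.range (Sum.elim T fun i : Fin (n + 1) =>
          if d ∣ w i then 0 else MvPolynomial.X i))) : Gp κ w (Set.range T) := by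
  intro x hx hS d hd
  by_contra hne
  obtain ⟨i, hi⟩ := Function.ne_iff.1 hx
  have hi' : x i ≠ 0 := hi
  have hle : d ≤ ∑ i, w i :=
    (Nat.le_of_dvd (hw i) (hd i hi')).trans (Finset.single_le_sum (fun _ _ => Nat.zero_le _) (Finset.mem_univ i))
  obtain ⟨M, hM⟩ := h d hle hne
  have h3 := span_eval (hM i) (x := x) (fun s => by
    rcases s with q | m
    · have h4 := hS _ ⟨q, rfl⟩
      rw [MvPolynomial.aeval_eq_eval] at h4
      exact h4
    · show MvPolynomial.eval x (if d ∣ w m then 0 else MvPolynomial.X m) = 0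
      split_ifs with h5
      · exact map_zero _
      · rw [MvPolynomial.eval_X]
        by_contra h6
        exact h5 (hd m h6))
  rw [map_pow, MvPolynomial.eval_X] at h3
  exact pow_ne_zero M hi' h3

theorem cnl_of_cert
    (h0 : ∀ j, ψ j ≠ 0 → ∃ d, (ψ j).IsWeightedHomogeneous w d ∧ d + ∑ b, w (j b) = e)
    (h1 : ∀ (a : Fin c → Fin s) (i j : Fin c → Fin (n + 1)) (t : Fin (n + 1)), ∃ M : ℕ,
      (MvPolynomial.X t * (ψ i * mnR (fun l => T (a l)) j - ψ j * mnR (fun l => T (a l)) i)) ^ M ∈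
        Ideal.span (Set.range T))
    (h2 : ∃ M : ℕ, ∀ j, (MvPolynomial.X j : MvPolynomial (Fin (n + 1)) κ) ^ M ∈
      Ideal.span (Set.range (Sum.elim T ψ))) : Cnl w (Set.range T) c e ψ := by
  refine ⟨h0, ?_, ?_⟩
  · intro x hx hS P hP i j
    choose a ha using hP
    obtain ⟨t, ht⟩ := Function.ne_iff.1 hx
    have ht' : x t ≠ 0 := ht
    have hPa : P = fun l => T (a l) := funext fun l => (ha l).symm
    obtain ⟨M, hM⟩ := h1 a i j t
    have h3 := span_eval hM (x := x) (fun q => hS _ ⟨q, rfl⟩)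
    rw [map_pow] at h3
    have h4 : MvPolynomial.eval x (MvPolynomial.X t *
        (ψ i * mnR (fun l => T (a l)) j - ψ j * mnR (fun l => T (a l)) i)) = 0 := by
      by_contra h5
      exact pow_ne_zero M h5 h3
    rw [map_mul, MvPolynomial.eval_X] at h4
    have h5 := (mul_eq_zero.1 h4).resolve_left ht'
    rw [map_sub, map_mul, map_mul, mnR_eq, mnR_eq, ← hPa] at h5
    exact sub_eq_zero.1 h5
  · intro x hx hS
    by_contra hn
    have hn' : ∀ j, MvPolynomial.eval x (ψ j) = 0 := fun j => not_not.1 fun g => hn ⟨j, g⟩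
    obtain ⟨t, ht⟩ := Function.ne_iff.1 hx
    have ht' : x t ≠ 0 := ht
    obtain ⟨M, hM⟩ := h2
    have h3 := span_eval (hM t) (x := x) (fun s => by
      rcases s with q | b
      · exact hS _ ⟨q, rfl⟩
      · exact hn' b)
    rw [map_pow, MvPolynomial.eval_X] at h3
    exact pow_ne_zero M ht' h3

end Pool.Agent.Lib.MP_1e3e9c_agF
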