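import Mathlib
import Pool.Agent.Lib.MP_1e3e9c_agF.H1
import Pool.Agent.Lib.MP_1e3e9c_agF.H3
import Pool.Agent.Lib.MP_1e3e9c_agF.H6
import Pool.Agent.Lib.MP_1e3e9c_agF.H7
import Pool.Agent.Lib.MP_1e3e9c_agF.H8
import Pool.Agent.Lib.MP_1e3e9c_agF.H9

/-!
# F7: reduction to characteristic `p`
-/

set_option autoImplicit false

namespace Pool.Agent.Lib.MP_1e3e9c_agF

open Pool.Agent.Lib.MP_1e3e9c_agR Pool.Agent.Lib.MP_1e3e9c_agM

/-- a statement which is true for all sufficiently large subrings -/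
def Ev (k : Type) [Field k]
    (p : ∀ (κ : Type) (_ : CommRing κ) (Λ : Subring k) (_ : Λ →+* κ), Prop) : Prop :=
  ∃ F : Set k, F.Finite ∧ ∀ (κ : Type) (i : CommRing κ) (Λ : Subring k) (φ : Λ →+* κ),
    F ⊆ Λ → p κ i Λ φ

theorem Ev.and {k : Type} [Field k]
    {p q : ∀ (κ : Type) (_ : CommRing κ) (Λ : Subring k) (_ : Λ →+* κ), Prop} (hp : Ev k p)
    (hq : Ev k q) : Ev k fun κ i Λ φ => p κ i Λ φ ∧ q κ i Λ φ := by
  obtain ⟨F, hF, h⟩ := hp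
  obtain ⟨F', hF', h'⟩ := hq
  exact ⟨F ∪ F', hF.union hF', fun κ i Λ φ hs => ⟨h κ i Λ φ (Set.subset_union_left.trans hs),
    h' κ i Λ φ (Set.subset_union_right.trans hs)⟩⟩

theorem Ev.all {k ι : Type} [Field k] [Finite ι]
    {p : ι → ∀ (κ : Type) (_ : CommRing κ) (Λ : Subring k) (_ : Λ →+* κ), Prop}
    (hp : ∀ x, Ev k (p x)) : Ev k fun κ i Λ φ => ∀ x, p x κ i Λ φ := by
  choose F hF h using hp
  exact ⟨⋃ x, F x, Set.finite_iUnion hF, fun κ i Λ φ hs x =>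
    h x κ i Λ φ ((Set.subset_iUnion F x).trans hs)⟩

theorem natDegree_gcv {R : Type} [CommRing R] {n : ℕ} (w : Fin (n + 1) → ℕ) (D : ℕ)
    (v : Fin (n + 1) → R) (i : Fin (n + 1)) : (gcv w D v i).natDegree ≤ w i * D := by
  unfold gcv
  refine (Polynomial.natDegree_add_le _ _).trans (max_le ?_ ?_)
  · rw [Polynomial.natDegree_C]
    exact Nat.zero_le _
  · refine Polynomial.natDegree_sum_le_of_forall_le _ _ fun l _ => ?_
    refine (Polynomial.natDegree_C_mul_X_pow_le _ _).trans ?_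
    exact l.2

theorem cbi_zero {R : Type} [CommRing R] {n : ℕ} (w : Fin (n + 1) → ℕ) (D : ℕ)
    (v : Fin (n + 1) → R) (i j : Fin (n + 1)) (m : ℕ) (hm : w i * w j * D < m) :
    cbi w D v i j m = 0 := by
  unfold cbi
  apply Polynomial.coeff_eq_zero_of_natDegree_lt
  refine lt_of_le_of_lt ((Polynomial.natDegree_sub_le _ _).trans (max_le ?_ ?_)) hm
  · refine (Polynomial.natDegree_mul_C_le _ _).trans (Polynomial.natDegree_pow_le.trans ?_)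
    calc w j * (gcv w D v i).natDegree ≤ w j * (w i * D) := Nat.mul_le_mul_left _ (natDegree_gcv w D v i)
      _ = w i * w j * D := by ring
  · refine (Polynomial.natDegree_mul_C_le _ _).trans (Polynomial.natDegree_pow_le.trans ?_)
    calc w i * (gcv w D v j).natDegree ≤ w i * (w j * D) := Nat.mul_le_mul_left _ (natDegree_gcv w D v j)
      _ = w i * w j * D := by ring

theorem spread {k : Type} [Field k] [IsAlgClosed k] [CharZero k] {n c e D₀ : ℕ}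
    {w : Fin (n + 1) → ℕ} (hw : ∀ i, 0 < w i) {S : Set (MvPolynomial (Fin (n + 1)) k)}
    (hS : ∀ P ∈ S, ∃ m, P.IsWeightedHomogeneous w m) (hsm : Sm S c) (hG : Gp k w S)
    {ψ : (Fin c → Fin (n + 1)) → MvPolynomial (Fin (n + 1)) k} (hψ : Cnl w S c e ψ)
    {v : Fin (n + 1) → k} (hv0 : v ≠ 0) (hvS : ∀ P ∈ S, MvPolynomial.eval v P = 0)
    (H : ∀ (p : ℕ) (_ : Fact p.Prime) (κ : Type) (_ : Field κ) (_ : IsAlgClosed κ) (_ : CharP κ p)
      (S' : Set (MvPolynomial (Fin (n + 1)) κ))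
      (ψ' : (Fin c → Fin (n + 1)) → MvPolynomial (Fin (n + 1)) κ) (v' : Fin (n + 1) → κ),
      (∀ P ∈ S', ∃ m, P.IsWeightedHomogeneous w m) → Sm S' c → Gp κ w S' → Cnl w S' c e ψ' →
      v' ≠ 0 → (∀ P ∈ S', MvPolynomial.eval v' P = 0) → ∃ D ≤ D₀, (Cn w D S' v').Nonempty) :
    ∃ D ≤ D₀, (Cn w D S v).Nonempty := by
  classical
  by_contra hcon
  push Not at hcon
  have hE : Cn w D₀ S v = ∅ := by
    rw [← Set.not_nonempty_iff_eq_empty]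
    intro h
    exact absurd (hcon D₀ le_rfl) (by
      rw [← Set.not_nonempty_iff_eq_empty]
      exact not_not.2 h)
  obtain ⟨s, B, M, T, a, j, h, hTS, hT, h1, h2⟩ := cert_sm hsm
  obtain ⟨i₀, hi₀⟩ := Function.ne_iff.1 hv0
  choose Mg hMg using fun d : {d : Fin (∑ i, w i + 1) // (d : ℕ) ≠ 1} =>
    cert_gp (w := w) hT hG (d.1 : ℕ) d.2
  choose Me hMe using fun (a : Fin c → Fin s) (i j : Fin c → Fin (n + 1)) (t : Fin (n + 1)) =>
    cert_eq hTS hT hψ a i j t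
  obtain ⟨Mn', hMn⟩ := cert_ne hT hψ
  choose Mc hMc using fun (i j : Fin (n + 1)) (m : Fin (w i * w j * D₀ + 1)) =>
    cert_crv (D := D₀) (w := w) hT hE i j (m : ℕ)
  have e1 : Ev k fun κ _ Λ φ => ∀ q, ∃ P', Rd Λ φ (T q) P' :=
    Ev.all fun q => rd_exists (T q)
  have e2 : Ev k fun κ _ Λ φ => ∀ j, ∃ P', Rd Λ φ (ψ j) P' :=
    Ev.all fun j => rd_exists (ψ j)
  have e3 : Ev k fun κ _ Λ φ => ∀ b, ∃ P', Rd Λ φ (h b) P' :=
    Ev.all fun b => rd_exists (h b)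
  have e4 : Ev k fun κ _ Λ φ => (∀ i, v i ∈ Λ) ∧ (v i₀)⁻¹ ∈ Λ :=
    ⟨insert (v i₀)⁻¹ (Set.range v), (Set.finite_range v).insert _, fun κ _ Λ φ hs =>
      ⟨fun i => hs (Set.mem_insert_of_mem _ ⟨i, rfl⟩), hs (Set.mem_insert _ _)⟩⟩
  have e5 : Ev k fun κ _ Λ φ => ∀ x : Fin B × Fin s, ∀ (f' : MvPolynomial (Fin (n + 1)) κ)
      (g' : Fin c → MvPolynomial (Fin (n + 1)) κ), Rd Λ φ (h x.1 * T x.2) f' →
      (∀ l, Rd Λ φ (T (a x.1 l)) (g' l)) → f' ∈ Ideal.span (Set.range g') :=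
    Ev.all fun x => rd_span _ _ (h1 x.1 x.2)
  have e6 : Ev k fun κ _ Λ φ => ∀ i : Fin (n + 1), ∀ (f' : MvPolynomial (Fin (n + 1)) κ)
      (g' : Fin s ⊕ Fin B → MvPolynomial (Fin (n + 1)) κ),
      Rd Λ φ ((MvPolynomial.X i : MvPolynomial (Fin (n + 1)) k) ^ M) f' →
      (∀ x, Rd Λ φ (Sum.elim T (fun b => mnR (fun l => T (a b l)) (j b) * h b) x) (g' x)) →
      f' ∈ Ideal.span (Set.range g') :=
    Ev.all fun i => rd_span _ _ (h2 i)
  have e7 : Ev k fun κ _ Λ φ => ∀ x : {d : Fin (∑ i, w i + 1) // (d : ℕ) ≠ 1} × Fin (n + 1),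
      ∀ (f' : MvPolynomial (Fin (n + 1)) κ)
      (g' : Fin s ⊕ Fin (n + 1) → MvPolynomial (Fin (n + 1)) κ),
      Rd Λ φ ((MvPolynomial.X x.2 : MvPolynomial (Fin (n + 1)) k) ^ Mg x.1) f' →
      (∀ y, Rd Λ φ (Sum.elim T (fun i : Fin (n + 1) =>
        if (x.1.1 : ℕ) ∣ w i then 0 else MvPolynomial.X i) y) (g' y)) →
      f' ∈ Ideal.span (Set.range g') :=
    Ev.all fun x => rd_span _ _ (hMg x.1 x.2)
  have e8 : Ev k fun κ _ Λ φ => ∀ x : (Fin c → Fin s) × (Fin c → Fin (n + 1)) ×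
      (Fin c → Fin (n + 1)) × Fin (n + 1),
      ∀ (f' : MvPolynomial (Fin (n + 1)) κ) (g' : Fin s → MvPolynomial (Fin (n + 1)) κ),
      Rd Λ φ ((MvPolynomial.X x.2.2.2 * (ψ x.2.1 * mnR (fun l => T (x.1 l)) x.2.2.1 -
        ψ x.2.2.1 * mnR (fun l => T (x.1 l)) x.2.1)) ^ Me x.1 x.2.1 x.2.2.1 x.2.2.2) f' →
      (∀ y, Rd Λ φ (T y) (g' y)) → f' ∈ Ideal.span (Set.range g') :=
    Ev.all fun x => rd_span _ _ (hMe x.1 x.2.1 x.2.2.1 x.2.2.2)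
  have e9 : Ev k fun κ _ Λ φ => ∀ i : Fin (n + 1), ∀ (f' : MvPolynomial (Fin (n + 1)) κ)
      (g' : Fin s ⊕ (Fin c → Fin (n + 1)) → MvPolynomial (Fin (n + 1)) κ),
      Rd Λ φ ((MvPolynomial.X i : MvPolynomial (Fin (n + 1)) k) ^ Mn') f' →
      (∀ x, Rd Λ φ (Sum.elim T ψ x) (g' x)) → f' ∈ Ideal.span (Set.range g') :=
    Ev.all fun i => rd_span _ _ (hMn i)
  have e10 : Ev k fun κ _ Λ φ => ∀ x : (Σ y : Fin (n + 1) × Fin (n + 1), Fin (w y.1 * w y.2 * D₀ + 1)),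
      ∀ (f' : MvPolynomial (Un w D₀) κ) (g' : Fin s × ℕ → MvPolynomial (Un w D₀) κ),
      Rd Λ φ (cbi w D₀ v x.1.1 x.1.2 (x.2 : ℕ) ^ Mc x.1.1 x.1.2 x.2) f' →
      (∀ y, Rd Λ φ (ceq w D₀ v (T y.1) y.2) (g' y)) → f' ∈ Ideal.span (Set.range g') :=
    Ev.all fun x => rd_span _ _ (hMc x.1.1 x.1.2 x.2)
  obtain ⟨F, hF, hall⟩ := ((((((((e1.and e2).and e3).and e4).and e5).and e6).and e7).and e8).and e9).and e10
  obtain ⟨p, hp, κ, iκ, iac, ich, Λ, φ, hΛ⟩ := exists_red F hF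
  obtain ⟨⟨⟨⟨⟨⟨⟨⟨⟨d1, d2⟩, d3⟩, d4⟩, d5⟩, d6⟩, d7⟩, d8⟩, d9⟩, d10⟩ := hall κ _ Λ φ hΛ
  choose T' hT' using d1
  choose ψ' hψ' using d2
  choose h' hh' using d3
  choose v' hv' using fun i => re_exists (d4.1 i) φ
  obtain ⟨y, hy⟩ := re_exists d4.2 φ
  have hv0' : v' ≠ 0 := by
    intro h0
    have h3 := Re.mul_one (hv' i₀) hy (mul_inv_cancel₀ hi₀)
    rw [h0, Pi.zero_apply, zero_mul] at h3
    exact zero_ne_one h3
  have hS' : ∀ P ∈ Set.range T', ∃ m, P.IsWeightedHomogeneous w m := by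
    rintro _ ⟨q, rfl⟩
    obtain ⟨m, hm⟩ := hS _ (hTS q)
    exact ⟨m, (hT' q).hom hm⟩
  have hvS' : ∀ P ∈ Set.range T', MvPolynomial.eval v' P = 0 := by
    rintro _ ⟨q, rfl⟩
    have h3 := (hT' q).eval hv'
    rw [hvS _ (hTS q)] at h3
    exact h3.zero
  have hsm' : Sm (Set.range T') c := by
    refine sm_of_cert (M := M) a j h' (fun b q => ?_) fun i => ?_
    · exact d5 (b, q) _ _ ((hh' b).mul (hT' q)) fun l => hT' _
    · refine d6 i _ _ ((Rd.X i).pow M) fun x => ?_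
      rcases x with q | b
      · exact hT' q
      · exact (Rd.mnR (fun l => hT' _) _).mul (hh' b)
  have hG' : Gp κ w (Set.range T') := by
    refine gp_of_cert hw fun d hd hd1 => ?_
    refine ⟨Mg ⟨⟨d, Nat.lt_succ_of_le hd⟩, hd1⟩, fun i => ?_⟩
    refine d7 (⟨⟨d, Nat.lt_succ_of_le hd⟩, hd1⟩, i) _ _ ((Rd.X i).pow _) fun x => ?_
    rcases x with q | b
    · exact hT' q
    · by_cases hdb : d ∣ w b
      · simp only [Sum.elim_inr, if_pos hdb]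
        exact Rd.zero
      · simp only [Sum.elim_inr, if_neg hdb]
        exact Rd.X b
  have hψ'' : Cnl w (Set.range T') c e ψ' := by
    refine cnl_of_cert (fun j hj => ?_) (fun a i j t => ?_) ⟨Mn', fun i => ?_⟩
    · obtain ⟨d, hd, hde⟩ := hψ.hom j ((hψ' j).ne_zero hj)
      exact ⟨d, (hψ' j).hom hd, hde⟩
    · refine ⟨Me a i j t, ?_⟩
      refine d8 (a, i, j, t) _ _ (Rd.pow ((Rd.X t).mul (Rd.sub ((hψ' i).mul (Rd.mnR (fun l => hT' _) _))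
        ((hψ' j).mul (Rd.mnR (fun l => hT' _) _)))) _) fun y => hT' y
    · refine d9 i _ _ ((Rd.X i).pow _) fun x => ?_
      rcases x with q | b
      · exact hT' q
      · exact hψ' b
  obtain ⟨D, hD, hne⟩ := H p hp κ iκ iac ich (Set.range T') ψ' v' hS' hsm' hG' hψ'' hv0' hvS'
  refine no_crv (D := D₀) (T := T') hw hv0' (hG' v' hv0' fun P hP => ?_) (fun i j m => ?_)
    (cn_mono hD hne)
  · rw [MvPolynomial.aeval_eq_eval]
    exact hvS' P hP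
  · by_cases hm : m < w i * w j * D₀ + 1
    · refine ⟨Mc i j ⟨m, hm⟩, ?_⟩
      exact d10 ⟨(i, j), ⟨m, hm⟩⟩ _ _ ((rd_cbi w D₀ hv' i j m).pow _) fun y =>
        rd_ceq w D₀ hv' (hT' y.1) y.2
    · refine ⟨1, ?_⟩
      rw [cbi_zero w D₀ v' i j m (by omega), pow_one]
      exact Submodule.zero_mem _

end Pool.Agent.Lib.MP_1e3e9c_agF
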