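import Mathlib

/-!
# MP_1e3e9c_ag, project F, leaf B3: the dimension formula for a polynomial ring (MATHLIB ONLY)

PROOF. `R = MvPolynomial U k`, `𝔭` a prime, `𝔭 ≤ 𝔪₀ = ker constantCoeff`, a maximal ideal of height `card U`. `card U = 𝔪₀.height ≤ 𝔭.height + (𝔪₀ / 𝔭).height` because `R` is catenary, or as follows: by Noether normalisation (Mathlib: `exists_integral_inj_algHom_of_fg`) `R ⧸ 𝔭` is integral over `k[s]` (`s` variables), `s = ringKrullDim (R ⧸ 𝔭)`,
and `𝔭.height + s = card U`: this may be in Mathlib (`MvPolynomial` / `Algebra.FiniteType` and `ringKrullDim` / `height`, look for `height_add_ringKrullDim`, `Ideal.height_add_coheight`, `catenary`); otherwise an induction on `card U` with `Polynomial`: for a prime `𝔓` of `A[X]` over the prime `𝔭' = 𝔓 ∩ A` of the Noetherian ring `A`: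
`𝔓.height = 𝔭'.height` if `𝔓 = 𝔭' A[X]` and `𝔓.height = 𝔭'.height + 1` otherwise (Mathlib: `Polynomial.height_eq_height_add_one`, `Ideal.height_polynomial`...), with the corresponding change of the transcendence degree of the residue field: `ringKrullDim (R ⧸ 𝔭)` is the transcendence degree of `R ⧸ 𝔭` over `k` (Mathlib: `Algebra.trdeg`, `ringKrullDim_eq_trdeg`
if it exists). The file Pool/Agent/Lib/MP_1e3e9c_agM/M9.lean has (private, with proofs, to be copied) `M9_mv` (the height of the maximal ideals of `MvPolynomial (Fin s) k` is `s`) and `M9_fg` (for a domain of finite type over `k` the height of every maximal ideal is the Krull dimension), and MP_1e3e9c_agR/C1.lean has a formula for heights in polynomial rings.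
Alternative proof of the inequality needed: Noether normalisation of `R` adapted to `𝔭` (Nagata): `R` is finite over a polynomial ring `k[y_1..y_N]` with `𝔭 ∩ k[y] = (y_1..y_h)`; going down (`k[y]` normal) gives `𝔭.height ≥ h`... and `R ⧸ 𝔭` is finite over `k[y_(h+1)..y_N]`, so `ringKrullDim (R ⧸ 𝔭) = N - h ≥ N - 𝔭.height`.
-/

set_option autoImplicit false

namespace Pool.Agent.Lib.MP_1e3e9c_agF

/-- the maximal ideals of the polynomial ring in `s` variables over a field have height at least `s` -/
private theorem B3_mv {k : Type} [Field k] (s : ℕ) :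
    ∀ m : Ideal (MvPolynomial (Fin s) k), m.IsMaximal → (s : ℕ∞) ≤ m.height := by
  induction s with
  | zero =>
    intro m _
    simp
  | succ s ih =>
    intro m hm
    let e := (MvPolynomial.finSuccEquiv k s).toRingEquiv
    let m' : Ideal (Polynomial (MvPolynomial (Fin s) k)) := m.map e
    have hm' : m'.IsMaximal := Ideal.map_isMaximal_of_equiv e
    have h1 : m'.height = m.height := RingEquiv.height_map e m
    have h2 : (m'.comap (Polynomial.C : MvPolynomial (Fin s) k →+* _)).IsMaximal :=
      Polynomial.isMaximal_comap_C_of_isJacobsonRing m'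
    have h0 : m'.LiesOver (m'.comap (Polynomial.C : MvPolynomial (Fin s) k →+* _)) := ⟨rfl⟩
    have h3 := Polynomial.height_eq_height_add_one (m'.comap (Polynomial.C : MvPolynomial (Fin s) k →+* _)) m'
    rw [← h1, h3]
    push_cast
    gcongr
    exact ih _ h2

/-- the dimension is at least the transcendence degree -/
private theorem B3_dim_ge {k B : Type} [Field k] [CommRing B] [IsDomain B] [Algebra k B]
    [Algebra.FiniteType k B] {N : ℕ} (hN : (N : Cardinal) ≤ Algebra.trdeg k B) :
    ((N : ℕ) : WithBot ℕ∞) ≤ ringKrullDim B := by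
  obtain ⟨s, g, hinj, hint⟩ := exists_integral_inj_algHom_of_fg k B
  let _ : Algebra (MvPolynomial (Fin s) k) B := g.toRingHom.toAlgebra
  have htow : IsScalarTower k (MvPolynomial (Fin s) k) B :=
    IsScalarTower.of_algebraMap_eq fun x => (g.commutes x).symm
  have hI : Algebra.IsIntegral (MvPolynomial (Fin s) k) B := ⟨hint⟩
  have hF : FaithfulSMul (MvPolynomial (Fin s) k) B :=
    (faithfulSMul_iff_algebraMap_injective _ _).2 hinj
  have hNs : N ≤ s := by
    have h1 := trdeg_add_eq k (MvPolynomial (Fin s) k) (A := B)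
    have h2 : Algebra.trdeg (MvPolynomial (Fin s) k) B = 0 := trdeg_eq_zero
    rw [h2, add_zero, MvPolynomial.trdeg_of_isDomain, Cardinal.mk_fin, Cardinal.lift_natCast] at h1
    rw [← h1] at hN
    exact_mod_cast hN
  have hdim : ringKrullDim (MvPolynomial (Fin s) k) = (s : WithBot ℕ∞) := by
    rw [MvPolynomial.ringKrullDim_of_isNoetherianRing, ringKrullDim_eq_zero_of_field, zero_add,
      Nat.card_eq_fintype_card, Fintype.card_fin]
  have hle : ringKrullDim (MvPolynomial (Fin s) k) ≤ ringKrullDim B := by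
    refine iSup_le fun l => ?_
    obtain ⟨P, hP, hP2⟩ := Ideal.exists_ideal_over_prime_of_isIntegral_of_isDomain (S := B)
      (RelSeries.head l).asIdeal (by
        rw [(RingHom.injective_iff_ker_eq_bot (algebraMap (MvPolynomial (Fin s) k) B)).1 hinj]
        exact bot_le)
    have : P.IsPrime := hP
    have : P.LiesOver (RelSeries.head l).asIdeal := ⟨hP2.symm⟩
    obtain ⟨L, hL, -, -⟩ := Ideal.exists_ltSeries_of_hasGoingUp l P
    rw [← hL]
    exact le_iSup (fun L : LTSeries (PrimeSpectrum B) => ((L.length : ℕ) : WithBot ℕ∞)) L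
  rw [hdim] at hle
  refine le_trans ?_ hle
  exact_mod_cast hNs

private theorem B3_memC {A : Type} [CommRing A] (p : Ideal A) (a : A) :
    (Polynomial.C a : Polynomial A) ∈ p.map (Polynomial.C : A →+* Polynomial A) ↔ a ∈ p := by
  rw [Ideal.mem_map_C_iff]
  constructor
  · intro h
    have h0 := h 0
    rwa [Polynomial.coeff_C_zero] at h0
  · intro h n
    rw [Polynomial.coeff_C]
    split_ifs
    · exact h
    · exact p.zero_mem

/-- extension of primes to the polynomial ring does not lower the height -/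
private theorem B3_height_map {A : Type} [CommRing A] (p : Ideal A) [hp : p.IsPrime] :
    p.height ≤ (p.map (Polynomial.C : A →+* Polynomial A)).height := by
  let f : PrimeSpectrum A → PrimeSpectrum (Polynomial A) := fun q =>
    ⟨q.asIdeal.map (Polynomial.C : A →+* Polynomial A), Ideal.isPrime_map_C_of_isPrime⟩
  have hf : StrictMono f := by
    intro q q' hq
    refine lt_of_le_of_ne (Ideal.map_mono hq.le) fun h => hq.ne ?_
    apply PrimeSpectrum.ext
    ext a
    have h1 : q.asIdeal.map (Polynomial.C : A →+* Polynomial A) = q'.asIdeal.map Polynomial.C :=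
      congrArg PrimeSpectrum.asIdeal h
    rw [← B3_memC, h1, B3_memC]
  have h1 := Order.height_le_height_apply_of_strictMono f hf ⟨p, hp⟩
  rw [← PrimeSpectrum.height_eq_orderHeight, ← PrimeSpectrum.height_eq_orderHeight] at h1
  exact h1

/-- the step from `A` to the polynomial ring over `A` -/
private theorem B3_step {k A : Type} [Field k] [CommRing A] [Algebra k A] (P : Ideal (Polynomial A))
    [hP : P.IsPrime] (n d : ℕ)
    (hd : (d : Cardinal) ≤ Algebra.trdeg k (A ⧸ P.comap (Polynomial.C : A →+* Polynomial A)))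
    (hn : (n : ℕ∞) ≤ (P.comap (Polynomial.C : A →+* Polynomial A)).height + d) :
    ∃ d' : ℕ, (d' : Cardinal) ≤ Algebra.trdeg k (Polynomial A ⧸ P) ∧ ((n + 1 : ℕ) : ℕ∞) ≤ P.height + d' := by
  obtain ⟨p, hp⟩ : ∃ p : Ideal A, p = P.comap (Polynomial.C : A →+* Polynomial A) := ⟨_, rfl⟩
  rw [← hp] at hd hn
  have hpp : p.IsPrime := by
    rw [hp]
    exact Ideal.comap_isPrime _ _
  have hle : p.map (Polynomial.C : A →+* Polynomial A) ≤ P := by
    rw [hp]
    exact Ideal.map_comap_le
  have hh := B3_height_map p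
  by_cases hPp : p.map (Polynomial.C : A →+* Polynomial A) = P
  · refine ⟨d + 1, ?_, ?_⟩
    · have h1 := trdeg_add_eq k (A ⧸ p) (A := Polynomial (A ⧸ p))
      rw [Polynomial.trdeg_of_isDomain] at h1
      let f : Polynomial (A ⧸ p) →ₐ[k] Polynomial A ⧸ p.map (Polynomial.C : A →+* Polynomial A) :=
        { (Ideal.polynomialQuotientEquivQuotientPolynomial p).toRingHom with
          commutes' := fun r => by
            have h2 := Ideal.polynomialQuotientEquivQuotientPolynomial_map_mk p
              (Polynomial.C (algebraMap k A r))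
            rw [Polynomial.map_C] at h2
            exact h2 }
      have h3 := trdeg_le_of_injective f
        (Ideal.polynomialQuotientEquivQuotientPolynomial p).injective
      rw [← hPp]
      refine le_trans ?_ h3
      rw [← h1]
      push_cast
      gcongr
    · rw [← hPp]
      push_cast
      rw [← add_assoc]
      gcongr
      exact hn.trans (by gcongr)
  · refine ⟨d, ?_, ?_⟩
    · let f : (A ⧸ p) →ₐ[k] (Polynomial A ⧸ P) :=
        Ideal.Quotient.liftₐ p ((Ideal.Quotient.mkₐ k P).comp (Polynomial.CAlgHom (R := k) (A := A))) (by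
          intro a ha
          rw [hp] at ha
          exact Ideal.Quotient.eq_zero_iff_mem.2 ha)
      have hf : Function.Injective f := by
        rw [injective_iff_map_eq_zero]
        intro x hx
        obtain ⟨a, rfl⟩ := Ideal.Quotient.mk_surjective x
        have h1 : Ideal.Quotient.mk P (Polynomial.C a) = 0 := hx
        rw [Ideal.Quotient.eq_zero_iff_mem] at h1 ⊢
        rw [hp]
        exact h1
      exact hd.trans (trdeg_le_of_injective f hf)
    · have h1 : (p.map (Polynomial.C : A →+* Polynomial A)).IsPrime := Ideal.isPrime_map_C_of_isPrime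
      have h2 := Ideal.height_add_one_le_of_lt_of_isPrime (lt_of_le_of_ne hle hPp)
      push_cast
      calc (n : ℕ∞) + 1 ≤ p.height + d + 1 := by gcongr
        _ = p.height + 1 + d := by rw [add_assoc, add_comm (d : ℕ∞) 1, ← add_assoc]
        _ ≤ (p.map (Polynomial.C : A →+* Polynomial A)).height + 1 + d := by gcongr
        _ ≤ P.height + d := by gcongr

private theorem B3_quot {k A B : Type} [Field k] [CommRing A] [CommRing B] [Algebra k A] [Algebra k B] (e : A ≃ₐ[k] B)
    (P : Ideal A) (P' : Ideal B) (hP' : P' = P.map e.toRingEquiv) :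
    Algebra.trdeg k (B ⧸ P') ≤ Algebra.trdeg k (A ⧸ P) := by
  have h1 : ∀ b ∈ P', e.symm b ∈ P := by
    intro b hb
    rw [hP'] at hb
    obtain ⟨a, ha, rfl⟩ := (Ideal.mem_map_of_equiv e.toRingEquiv b).1 hb
    have h2 : e.symm (e.toRingEquiv a) = a := e.symm_apply_apply a
    rwa [h2]
  let f : (B ⧸ P') →ₐ[k] (A ⧸ P) :=
    Ideal.Quotient.liftₐ P' ((Ideal.Quotient.mkₐ k P).comp (e.symm : B →ₐ[k] A)) (by
      intro b hb
      exact Ideal.Quotient.eq_zero_iff_mem.2 (h1 b hb))
  have hf : Function.Injective f := by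
    rw [injective_iff_map_eq_zero]
    intro x hx
    obtain ⟨b, rfl⟩ := Ideal.Quotient.mk_surjective x
    have h2 : Ideal.Quotient.mk P (e.symm b) = 0 := hx
    rw [Ideal.Quotient.eq_zero_iff_mem] at h2 ⊢
    rw [hP']
    refine (Ideal.mem_map_of_equiv e.toRingEquiv b).2 ⟨e.symm b, h2, ?_⟩
    exact e.apply_symm_apply b
  exact trdeg_le_of_injective f hf

private theorem B3_fin {k : Type} [Field k] (n : ℕ) :
    ∀ P : Ideal (MvPolynomial (Fin n) k), P.IsPrime → ∃ d : ℕ,
      (d : Cardinal) ≤ Algebra.trdeg k (MvPolynomial (Fin n) k ⧸ P) ∧ (n : ℕ∞) ≤ P.height + d := by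
  induction n with
  | zero =>
    intro P _
    exact ⟨0, by simp, by simp⟩
  | succ n ih =>
    intro P hP
    let e := MvPolynomial.finSuccEquiv k n
    obtain ⟨P', hP'⟩ : ∃ P' : Ideal (Polynomial (MvPolynomial (Fin n) k)), P' = P.map e.toRingEquiv := ⟨_, rfl⟩
    have h1 : P'.height = P.height := by
      rw [hP']
      exact RingEquiv.height_map e.toRingEquiv P
    have h2 : P'.IsPrime := by
      rw [hP']
      exact Ideal.map_isPrime_of_equiv e.toRingEquiv
    obtain ⟨d, hd, hn⟩ := ih (P'.comap (Polynomial.C : MvPolynomial (Fin n) k →+* _)) (Ideal.comap_isPrime _ _)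
    obtain ⟨d', hd', hn'⟩ := B3_step (k := k) P' n d hd hn
    refine ⟨d', ?_, ?_⟩
    · exact hd'.trans (B3_quot e P P' hP')
    · rw [← h1]
      exact hn'

private theorem B3_any {k U : Type} [Field k] [Fintype U] (P : Ideal (MvPolynomial U k)) [hP : P.IsPrime] :
    ∃ d : ℕ, (d : Cardinal) ≤ Algebra.trdeg k (MvPolynomial U k ⧸ P) ∧
      ((Fintype.card U : ℕ) : ℕ∞) ≤ P.height + d := by
  let e := MvPolynomial.renameEquiv k (Fintype.equivFin U)
  obtain ⟨P', hP'⟩ : ∃ P' : Ideal (MvPolynomial (Fin (Fintype.card U)) k), P' = P.map e.toRingEquiv := ⟨_, rfl⟩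
  have h1 : P'.height = P.height := by
    rw [hP']
    exact RingEquiv.height_map e.toRingEquiv P
  have h2 : P'.IsPrime := by
    rw [hP']
    exact Ideal.map_isPrime_of_equiv e.toRingEquiv
  obtain ⟨d, hd, hn⟩ := B3_fin (k := k) _ P' h2
  refine ⟨d, ?_, ?_⟩
  · exact hd.trans (B3_quot e P P' hP')
  · rw [← h1]
    exact hn

theorem dim_quot {k U : Type} [Field k] [Fintype U] (𝔭 : Ideal (MvPolynomial U k)) [𝔭.IsPrime]
    {W : ℕ} (h : 𝔭.height ≤ W) :
    ((Fintype.card U : ℕ) : WithBot ℕ∞) ≤ ringKrullDim (MvPolynomial U k ⧸ 𝔭) + (W : ℕ) := by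
  obtain ⟨d, hd, hn⟩ := B3_any 𝔭
  have h1 := B3_dim_ge hd
  have h2 : ((Fintype.card U : ℕ) : ℕ∞) ≤ ((W + d : ℕ) : ℕ∞) := by
    push_cast
    exact hn.trans (by gcongr)
  have h3 : Fintype.card U ≤ W + d := by exact_mod_cast h2
  calc ((Fintype.card U : ℕ) : WithBot ℕ∞) ≤ ((W + d : ℕ) : WithBot ℕ∞) := by exact_mod_cast h3
    _ = ((d : ℕ) : WithBot ℕ∞) + (W : ℕ) := by
      push_cast
      rw [add_comm]
    _ ≤ ringKrullDim (MvPolynomial U k ⧸ 𝔭) + (W : ℕ) := by gcongr

/-- a maximal ideal has height `card U` -/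
theorem ht_max {k U : Type} [Field k] [Fintype U] (𝔭 : Ideal (MvPolynomial U k))
    [𝔭.IsMaximal] : 𝔭.height = (Fintype.card U : ℕ) := by
  refine le_antisymm ?_ ?_
  · have h1 := Ideal.height_le_ringKrullDim_of_ne_top (I := 𝔭) (Ideal.IsPrime.ne_top inferInstance)
    rw [MvPolynomial.ringKrullDim_of_isNoetherianRing, ringKrullDim_eq_zero_of_field, zero_add,
      Nat.card_eq_fintype_card] at h1
    exact_mod_cast h1
  · let e := MvPolynomial.renameEquiv k (Fintype.equivFin U)
    have h1 : (𝔭.map e.toRingEquiv).height = 𝔭.height := RingEquiv.height_map e.toRingEquiv 𝔭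
    have h2 : (𝔭.map e.toRingEquiv).IsMaximal := Ideal.map_isMaximal_of_equiv e.toRingEquiv
    rw [← h1]
    exact B3_mv _ _ h2

end Pool.Agent.Lib.MP_1e3e9c_agF
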