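import Mathlib
import Pool.Agent.Lib.MP_1e3e9c_agR.ZDefs
import Pool.Agent.Lib.MP_1e3e9c_agR.CDefs
import Pool.Agent.Lib.MP_1e3e9c_agF.A1
import Pool.Agent.Lib.MP_1e3e9c_agF.B3

/-!
# MP_1e3e9c_ag, project F, leaf I1: the dimension near a smooth point

PROOF. (1) `dim_smooth`. `R = MvPolynomial (Fin (n + 1)) k`, `J = Ideal.span S`, finitely generated: `J = span (Q_1, .., Q_r)`, `Q_j ∈ S` (Noetherian: `Submodule.fg_span_iff_fg_span_finset_subset` or similar). `LCI S c x₀`: `P l ∈ S` and for each `Q_j` an `h_j`, `h_j(x₀) ≠ 0`, `h_j Q_j ∈ span (P)`; `s = ∏ h_j`: `s(x₀) ≠ 0`, `s J ≤ span (P)`.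
Translate `x₀` to the origin (the automorphism `X i ↦ X i + C (x₀ i)`) and apply `ht_of_gen` (A1) to a minimal prime `𝔭` of `J` contained in the maximal ideal of `x₀` (`Ideal.exists_minimalPrimes_le`; `J` vanishes at `x₀`): `𝔭.height ≤ c`. `dim_quot` (B3): `n + 1 ≤ ringKrullDim (R ⧸ 𝔭) + c`, so `N ≤ ringKrullDim (R ⧸ 𝔭)`. The vanishing ideal `I` of the set
`{x | (∀ P ∈ S, P(x) = 0) ∧ B(x) ≠ 0}` is contained in `𝔭`: for `q ∈ I` the product `q B` vanishes at all zeros of `𝔭` (they are zeros of `S`), so `q B ∈ 𝔭` (Nullstellensatz, `𝔭` prime), and `B ∉ 𝔭` (`B(x₀) ≠ 0`). `ringKrullDim_le_of_surjective` for `R ⧸ I → R ⧸ 𝔭`. `dm` is defined in `RDefs`.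
(2) `lci_insert`. `LCI S c v`: `P l` with linearly independent gradients; the gradient of every `Q ∈ S` is a combination of the gradients of the `P l` (differentiate `h Q = ∑ h_l P_l` at `v`, where all vanish, `h(v) ≠ 0`). `Smo S G c v`: `P' l ∈ S` such that the gradients of `G` and of the `P' l` are linearly independent: the `c` gradients of the `P' l` are a basis of the span of the gradients of the `P l`
(dimension `c`), so the gradient of `G` is not in this span. Take `Fin.cons G P`. For `Q = G`: `h = 1`. For `Q ∈ S`: the old `h`.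
(3) `lci_cover`. The polynomials `E` and `rename Fin.succ (P l)`: `pderiv 0` of the latter is `0`, `pderiv 0 E` is not zero at `u`, `pderiv i.succ (rename Fin.succ P)` is `rename Fin.succ (pderiv i P)`; so the gradients are linearly independent. `h = rename Fin.succ h'`.
(4) `minor_ne`: from `LCI S c x₀`: `P l ∈ S` and a minor `mnr`-like polynomial `B` with `B(x₀) ≠ 0` such that `B(x) ≠ 0` implies that the gradients of `Fin.cons G P` at `x` are linearly independent: `B = ` a `(c+1) × (c+1)` minor of the Jacobian matrix of `Fin.cons G P'` (`P'` from `Smo`), nonzero at `v`.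
-/

set_option autoImplicit false

namespace Pool.Agent.Lib.MP_1e3e9c_agF

open Pool.Agent.Lib.MP_1e3e9c_agR

theorem dim_smooth {k : Type} [Field k] [IsAlgClosed k] {n c N : ℕ} (hc : c + N = n + 1)
    {S : Set (MvPolynomial (Fin (n + 1)) k)} {x₀ : Fin (n + 1) → k}
    (h0 : ∀ P ∈ S, MvPolynomial.eval x₀ P = 0) (hl : LCI S c x₀)
    (B : MvPolynomial (Fin (n + 1)) k) (hB : MvPolynomial.eval x₀ B ≠ 0) :
    (N : WithBot ℕ∞) ≤
      dm {x : Fin (n + 1) → k | (∀ P ∈ S, MvPolynomial.eval x P = 0) ∧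
        MvPolynomial.eval x B ≠ 0} := by
  classical
  obtain ⟨P, hPS, -, hPh⟩ := hl
  -- the translation
  obtain ⟨φ, hφ⟩ : ∃ φ : MvPolynomial (Fin (n + 1)) k →ₐ[k] MvPolynomial (Fin (n + 1)) k,
      φ = MvPolynomial.aeval fun i => MvPolynomial.X i + MvPolynomial.C (x₀ i) := ⟨_, rfl⟩
  have hev : ∀ (y : Fin (n + 1) → k) (q : MvPolynomial (Fin (n + 1)) k),
      MvPolynomial.eval y (φ q) = MvPolynomial.eval (fun i => y i + x₀ i) q := by
    intro y q
    induction q using MvPolynomial.induction_on with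
    | C a => rw [hφ, MvPolynomial.algHom_C, MvPolynomial.eval_C, MvPolynomial.algebraMap_eq, MvPolynomial.eval_C]
    | add p q hp hq => rw [map_add, map_add, hp, hq, map_add]
    | mul_X p i hp =>
      rw [map_mul, map_mul, hp, map_mul, MvPolynomial.eval_X, hφ, MvPolynomial.aeval_X, map_add,
        MvPolynomial.eval_X, MvPolynomial.eval_C]
  have hsurj : Function.Surjective φ := by
    intro q
    refine ⟨MvPolynomial.aeval (fun i => MvPolynomial.X i - MvPolynomial.C (x₀ i)) q, ?_⟩
    have h1 : φ.comp (MvPolynomial.aeval fun i => MvPolynomial.X i - MvPolynomial.C (x₀ i)) =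
        AlgHom.id k (MvPolynomial (Fin (n + 1)) k) := by
      refine MvPolynomial.algHom_ext fun i => ?_
      rw [AlgHom.comp_apply, MvPolynomial.aeval_X, map_sub, hφ, MvPolynomial.aeval_X,
        MvPolynomial.algHom_C, MvPolynomial.algebraMap_eq, AlgHom.id_apply, add_sub_cancel_right]
    exact DFunLike.congr_fun h1 q
  have hc0 : ∀ q : MvPolynomial (Fin (n + 1)) k,
      MvPolynomial.constantCoeff (φ q) = MvPolynomial.eval x₀ q := by
    intro q
    rw [← MvPolynomial.eval_zero, hev]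
    congr 2
    funext i
    rw [Pi.zero_apply, zero_add]
  -- the element `s`
  obtain ⟨F, hFS, hFJ⟩ := (Submodule.fg_span_iff_fg_span_finset_subset S).1
    (IsNoetherian.noetherian (Submodule.span (MvPolynomial (Fin (n + 1)) k) S))
  obtain ⟨h, hh⟩ : ∃ h : MvPolynomial (Fin (n + 1)) k → MvPolynomial (Fin (n + 1)) k,
      ∀ Q ∈ F, MvPolynomial.eval x₀ (h Q) ≠ 0 ∧ h Q * Q ∈ Ideal.span (Set.range P) := by
    have h1 : ∀ Q : MvPolynomial (Fin (n + 1)) k, ∃ h : MvPolynomial (Fin (n + 1)) k, Q ∈ F →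
        MvPolynomial.eval x₀ h ≠ 0 ∧ h * Q ∈ Ideal.span (Set.range P) := by
      intro Q
      by_cases hQ : Q ∈ F
      · obtain ⟨h, h1, h2⟩ := hPh Q (hFS hQ)
        exact ⟨h, fun _ => ⟨h1, h2⟩⟩
      · exact ⟨0, fun h => absurd h hQ⟩
    choose h h1 using h1
    exact ⟨h, fun Q hQ => h1 Q hQ⟩
  obtain ⟨s, hs⟩ : ∃ s, s = ∏ Q ∈ F, h Q := ⟨_, rfl⟩
  have hs0 : MvPolynomial.eval x₀ s ≠ 0 := by
    rw [hs, map_prod]
    exact Finset.prod_ne_zero_iff.2 fun Q hQ => (hh Q hQ).1
  have hsJ : ∀ x ∈ Ideal.span S, s * x ∈ Ideal.span (Set.range P) := by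
    intro x hx
    have hx' : x ∈ Ideal.span (F : Set (MvPolynomial (Fin (n + 1)) k)) := by
      rw [Ideal.span, ← hFJ]
      exact hx
    refine Submodule.span_induction (p := fun x _ => s * x ∈ Ideal.span (Set.range P)) ?_ ?_ ?_ ?_ hx'
    · intro Q hQ
      rw [hs, ← Finset.mul_prod_erase F h hQ]
      have h2 := Ideal.mul_mem_left (Ideal.span (Set.range P)) (∏ Q' ∈ F.erase Q, h Q') (hh Q hQ).2
      have h3 : h Q * (∏ Q' ∈ F.erase Q, h Q') * Q = (∏ Q' ∈ F.erase Q, h Q') * (h Q * Q) := by ring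
      rw [h3]
      exact h2
    · rw [mul_zero]
      exact Submodule.zero_mem _
    · intro a b _ _ ha hb
      rw [mul_add]
      exact Submodule.add_mem _ ha hb
    · intro a b _ hb
      have h3 : s * (a • b) = a * (s * b) := by
        rw [smul_eq_mul]
        ring
      rw [h3]
      exact Ideal.mul_mem_left _ _ hb
  -- the prime ideal
  have hJ0 : (Ideal.span S).map φ ≤ RingHom.ker (MvPolynomial.constantCoeff (σ := Fin (n + 1)) (R := k)) := by
    rw [Ideal.map_le_iff_le_comap, Ideal.span_le]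
    intro Q hQ
    show MvPolynomial.constantCoeff (φ Q) = 0
    rw [hc0]
    exact h0 Q hQ
  have hprime : (RingHom.ker (MvPolynomial.constantCoeff (σ := Fin (n + 1)) (R := k))).IsPrime :=
    RingHom.ker_isPrime _
  obtain ⟨𝔭, h𝔭, h𝔭0⟩ := Ideal.exists_minimalPrimes_le hJ0
  have h𝔭p : 𝔭.IsPrime := h𝔭.1.1
  have hht := ht_of_gen ((Ideal.span S).map φ) c (Finset.univ.image fun l => φ (P l)) (φ s)
    (Finset.card_image_le.trans (by rw [Finset.card_univ, Fintype.card_fin])) (by
      intro q hq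
      obtain ⟨l, -, rfl⟩ := Finset.mem_image.1 hq
      exact Ideal.mem_map_of_mem _ (Ideal.subset_span (hPS l)))
    (by rw [hc0]; exact hs0) (by
      intro x' hx'
      obtain ⟨x, hx, rfl⟩ := (Ideal.mem_map_iff_of_surjective φ hsurj).1 hx'
      have h1 := Ideal.mem_map_of_mem φ (hsJ x hx)
      rw [Ideal.map_span, map_mul] at h1
      refine Ideal.span_mono ?_ h1
      rintro _ ⟨_, ⟨l, rfl⟩, rfl⟩
      exact Finset.mem_coe.2 (Finset.mem_image.2 ⟨l, Finset.mem_univ _, rfl⟩)) 𝔭 h𝔭 h𝔭0
  have hdim := dim_quot 𝔭 hht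
  rw [Fintype.card_fin] at hdim
  have hN : (N : WithBot ℕ∞) ≤ ringKrullDim (MvPolynomial (Fin (n + 1)) k ⧸ 𝔭) := by
    have h1 : ((n + 1 : ℕ) : WithBot ℕ∞) = (N : WithBot ℕ∞) + (c : ℕ) := by
      rw [← hc, add_comm]
      norm_cast
    rw [h1] at hdim
    exact ENat.WithBot.add_le_add_natCast_right_iff.1 hdim
  refine hN.trans ?_
  -- the vanishing ideal
  have hI : ∀ q ∈ MvPolynomial.vanishingIdeal k {x : Fin (n + 1) → k |
      (∀ P ∈ S, MvPolynomial.eval x P = 0) ∧ MvPolynomial.eval x B ≠ 0}, φ q ∈ 𝔭 := by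
    intro q hq
    have h1 : φ q * φ B ∈ 𝔭 := by
      rw [← MvPolynomial.IsPrime.vanishingIdeal_zeroLocus (K := k) 𝔭, MvPolynomial.mem_vanishingIdeal_iff]
      intro y hy
      rw [MvPolynomial.mem_zeroLocus_iff] at hy
      have h2 : ∀ P ∈ S, MvPolynomial.eval (fun i => y i + x₀ i) P = 0 := by
        intro P hP
        rw [← hev]
        exact hy _ (h𝔭.1.2 (Ideal.mem_map_of_mem _ (Ideal.subset_span hP)))
      rw [map_mul]
      have h3 : MvPolynomial.aeval y (φ q) = MvPolynomial.eval (fun i => y i + x₀ i) q := hev y q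
      have h4 : MvPolynomial.aeval y (φ B) = MvPolynomial.eval (fun i => y i + x₀ i) B := hev y B
      rw [h3, h4]
      by_cases h5 : MvPolynomial.eval (fun i => y i + x₀ i) B = 0
      · rw [h5, mul_zero]
      · have h6 : MvPolynomial.eval (fun i => y i + x₀ i) q = 0 := hq _ ⟨h2, h5⟩
        rw [h6, zero_mul]
    rcases h𝔭p.mem_or_mem h1 with h2 | h2
    · exact h2
    · exfalso
      have h3 : MvPolynomial.constantCoeff (φ B) = 0 := h𝔭0 h2
      rw [hc0] at h3
      exact hB h3
  unfold dm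
  refine ringKrullDim_le_of_surjective (Ideal.Quotient.lift _ ((Ideal.Quotient.mk 𝔭).comp φ.toRingHom)
    fun q hq => Ideal.Quotient.eq_zero_iff_mem.2 (hI q hq)) ?_
  refine Ideal.Quotient.lift_surjective_of_surjective _ _ ?_
  exact Ideal.Quotient.mk_surjective.comp hsurj

/-- the gradient of a member of `S` -/
private theorem I1_grad {k : Type} [Field k] {n c : ℕ} {v : Fin (n + 1) → k}
    {P : Fin c → MvPolynomial (Fin (n + 1)) k} (hP : ∀ l, MvPolynomial.eval v (P l) = 0)
    {Q h : MvPolynomial (Fin (n + 1)) k} (hQ : MvPolynomial.eval v Q = 0)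
    (hh : MvPolynomial.eval v h ≠ 0) (hQP : h * Q ∈ Ideal.span (Set.range P)) :
    gr Q v ∈ Submodule.span k (Set.range fun l => gr (P l) v) := by
  obtain ⟨a, ha⟩ := (Ideal.mem_span_range_iff_exists_fun).1 hQP
  have h1 : MvPolynomial.eval v h • gr Q v = ∑ l, MvPolynomial.eval v (a l) • gr (P l) v := by
    funext i
    have h2 := congrArg (fun q => MvPolynomial.eval v (MvPolynomial.pderiv i q)) ha
    simp only [map_sum, Derivation.leibniz, smul_eq_mul, map_add, map_mul, hP, hQ, zero_mul, add_zero] at h2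
    rw [Finset.sum_apply]
    exact h2.symm
  have h2 : gr Q v = (MvPolynomial.eval v h)⁻¹ • ∑ l, MvPolynomial.eval v (a l) • gr (P l) v := by
    rw [← h1, smul_smul, inv_mul_cancel₀ hh, one_smul]
  rw [h2]
  refine Submodule.smul_mem _ _ (Submodule.sum_mem _ fun l _ => Submodule.smul_mem _ _ ?_)
  exact Submodule.subset_span ⟨l, rfl⟩


theorem lci_insert {k : Type} [Field k] {n c : ℕ} {S : Set (MvPolynomial (Fin (n + 1)) k)}
    {G : MvPolynomial (Fin (n + 1)) k} {v : Fin (n + 1) → k}
    (hv : ∀ P ∈ S, MvPolynomial.eval v P = 0) (hG : MvPolynomial.eval v G = 0)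
    (h1 : LCI S c v) (h2 : Smo S G c v) : LCI (insert G S) (c + 1) v := by
  obtain ⟨P, hPS, hli, hPh⟩ := h1
  obtain ⟨P', hPS', hli'⟩ := h2
  rw [linearIndependent_finCons] at hli'
  have hle : Submodule.span k (Set.range fun l => gr (P' l) v) ≤
      Submodule.span k (Set.range fun l => gr (P l) v) := by
    rw [Submodule.span_le]
    rintro _ ⟨l, rfl⟩
    obtain ⟨h, h3, h4⟩ := hPh (P' l) (hPS' l)
    exact I1_grad (fun l => hv _ (hPS l)) (hv _ (hPS' l)) h3 h4
  have heq := Submodule.eq_of_le_of_finrank_eq hle (by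
    rw [finrank_span_eq_card hli, finrank_span_eq_card hli'.1])
  refine ⟨Fin.cons G P, ?_, ?_, ?_⟩
  · intro l
    refine Fin.cases ?_ (fun l => ?_) l
    · exact Set.mem_insert _ _
    · exact Set.mem_insert_of_mem _ (hPS l)
  · have h3 : (fun l => gr ((Fin.cons G P : Fin (c + 1) → MvPolynomial (Fin (n + 1)) k) l) v) =
        Fin.cons (gr G v) fun l => gr (P l) v := by
      funext l
      refine Fin.cases ?_ (fun l => ?_) l
      · rfl
      · rfl
    rw [h3, linearIndependent_finCons]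
    refine ⟨hli, ?_⟩
    rw [← heq]
    exact hli'.2
  · have hsub : Set.range P ⊆ Set.range (Fin.cons G P : Fin (c + 1) → MvPolynomial (Fin (n + 1)) k) := by
      rintro _ ⟨l, rfl⟩
      exact ⟨l.succ, rfl⟩
    intro Q hQ
    rcases Set.mem_insert_iff.1 hQ with rfl | hQ
    · refine ⟨1, by rw [map_one]; exact one_ne_zero, ?_⟩
      rw [one_mul]
      exact Ideal.subset_span ⟨0, rfl⟩
    · obtain ⟨h, h3, h4⟩ := hPh Q hQ
      exact ⟨h, h3, Ideal.span_mono hsub h4⟩

private theorem I1_pd0 {k : Type} [Field k] {n : ℕ} (q : MvPolynomial (Fin (n + 1)) k) :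
    MvPolynomial.pderiv 0 (MvPolynomial.rename Fin.succ q : MvPolynomial (Fin (n + 1 + 1)) k) = 0 := by
  induction q using MvPolynomial.induction_on with
  | C a => rw [MvPolynomial.rename_C, MvPolynomial.pderiv_C]
  | add p q hp hq => rw [map_add, map_add, hp, hq, add_zero]
  | mul_X p i hp =>
    rw [map_mul, Derivation.leibniz, hp, MvPolynomial.rename_X, smul_zero, add_zero,
      MvPolynomial.pderiv_X_of_ne (Fin.succ_ne_zero i), smul_zero]


theorem lci_cover {k : Type} [Field k] {n c : ℕ} {S : Set (MvPolynomial (Fin (n + 1)) k)}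
    {E : MvPolynomial (Fin (n + 1 + 1)) k} {u : Fin (n + 1 + 1) → k}
    (h1 : LCI S c fun i => u i.succ)
    (h2 : MvPolynomial.eval u (MvPolynomial.pderiv 0 E) ≠ 0) :
    LCI (insert E (coneS S)) (c + 1) u := by
  obtain ⟨P, hPS, hli, hPh⟩ := h1
  have hev : ∀ q : MvPolynomial (Fin (n + 1)) k,
      MvPolynomial.eval u (MvPolynomial.rename Fin.succ q) = MvPolynomial.eval (fun i => u i.succ) q := by
    intro q
    rw [MvPolynomial.eval_rename]
    rfl
  have hg : ∀ (q : MvPolynomial (Fin (n + 1)) k) (i : Fin (n + 1)),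
      gr (MvPolynomial.rename Fin.succ q) u i.succ = gr q (fun i => u i.succ) i := by
    intro q i
    unfold gr
    rw [MvPolynomial.pderiv_rename (Fin.succ_injective _), hev]
  have hg0 : ∀ q : MvPolynomial (Fin (n + 1)) k, gr (MvPolynomial.rename Fin.succ q) u 0 = 0 := by
    intro q
    unfold gr
    rw [I1_pd0, map_zero]
  refine ⟨Fin.cons E fun l => MvPolynomial.rename Fin.succ (P l), ?_, ?_, ?_⟩
  · intro l
    refine Fin.cases ?_ (fun l => ?_) l
    · exact Set.mem_insert _ _
    · exact Set.mem_insert_of_mem _ ⟨P l, hPS l, rfl⟩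
  · have h3 : (fun l => gr ((Fin.cons E fun l => MvPolynomial.rename Fin.succ (P l) :
        Fin (c + 1) → MvPolynomial (Fin (n + 1 + 1)) k) l) u) =
        Fin.cons (gr E u) fun l => gr (MvPolynomial.rename Fin.succ (P l)) u := by
      funext l
      refine Fin.cases ?_ (fun l => ?_) l
      · rfl
      · rfl
    rw [h3, linearIndependent_finCons]
    constructor
    · refine LinearIndependent.of_comp (LinearMap.funLeft k k Fin.succ) ?_
      have h4 : (⇑(LinearMap.funLeft k k Fin.succ) ∘ fun l => gr (MvPolynomial.rename Fin.succ (P l)) u) =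
          fun l => gr (P l) fun i => u i.succ := by
        funext l i
        exact hg (P l) i
      rw [h4]
      exact hli
    · intro hmem
      have h4 : Submodule.span k (Set.range fun l => gr (MvPolynomial.rename Fin.succ (P l)) u) ≤
          LinearMap.ker (LinearMap.proj 0 : (Fin (n + 1 + 1) → k) →ₗ[k] k) := by
        rw [Submodule.span_le]
        rintro _ ⟨l, rfl⟩
        exact hg0 (P l)
      exact h2 (h4 hmem)
  · intro Q hQ
    rcases Set.mem_insert_iff.1 hQ with rfl | ⟨Q, hQ', rfl⟩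
    · refine ⟨1, by rw [map_one]; exact one_ne_zero, ?_⟩
      rw [one_mul]
      exact Ideal.subset_span ⟨0, rfl⟩
    · obtain ⟨h, h3, h4⟩ := hPh Q hQ'
      refine ⟨MvPolynomial.rename Fin.succ h, by rw [hev]; exact h3, ?_⟩
      obtain ⟨a, ha⟩ := (Ideal.mem_span_range_iff_exists_fun).1 h4
      rw [← map_mul, ← ha, map_sum]
      refine Submodule.sum_mem _ fun l _ => ?_
      rw [map_mul]
      refine Ideal.mul_mem_left _ _ (Ideal.subset_span ⟨l.succ, rfl⟩)

private theorem I1_minor {F : Type} [Field F] {n N : ℕ} (v : Fin (N + 1) → Fin (n + 1) → F)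
    (h : LinearIndependent F v) : ∃ I : Fin (N + 1) → Fin (n + 1), (Matrix.of fun a b => v b (I a)).det ≠ 0 := by
  classical
  obtain ⟨R, hR⟩ : ∃ R : Fin (n + 1) → Fin (N + 1) → F, R = fun i b => v b i := ⟨_, rfl⟩
  -- the rows span
  have hker : LinearMap.ker (Fintype.linearCombination F v) = ⊥ := by
    rw [LinearMap.ker_eq_bot]
    exact linearIndependent_iff_injective_fintypeLinearCombination.1 h
  obtain ⟨g, hg⟩ := LinearMap.exists_leftInverse_of_injective _ hker
  have hgv : ∀ b, g (v b) = Pi.single b 1 := by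
    intro b
    have h2 := LinearMap.congr_fun hg (Pi.single b 1)
    rw [LinearMap.comp_apply, Fintype.linearCombination_apply_single, one_smul] at h2
    exact h2
  have hspan : (⊤ : Submodule F (Fin (N + 1) → F)) ≤ Submodule.span F (Set.range R) := by
    rw [← (Pi.basisFun F (Fin (N + 1))).span_eq, Submodule.span_le]
    rintro _ ⟨b, rfl⟩
    have h1 : (Pi.basisFun F (Fin (N + 1))) b = ∑ i, (g (fun j => if i = j then 1 else 0) b) • R i := by
      funext b'
      have h2 := congrFun (hgv b') b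
      rw [LinearMap.pi_apply_eq_sum_univ g (v b'), Finset.sum_apply] at h2
      rw [Pi.basisFun_apply, Finset.sum_apply]
      have h3 : ∑ i, (g (fun j => if i = j then 1 else 0) b • R i) b' =
          ∑ c, (v b' c • g fun j => if c = j then 1 else 0) b := by
        refine Finset.sum_congr rfl fun i _ => ?_
        rw [Pi.smul_apply, Pi.smul_apply, smul_eq_mul, smul_eq_mul, hR, mul_comm]
      rw [h3, h2, Pi.single_apply, Pi.single_apply]
      by_cases hb : b = b'
      · rw [if_pos hb, if_pos hb.symm]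
      · rw [if_neg hb, if_neg (fun h5 => hb h5.symm)]
    rw [h1]
    exact Submodule.sum_mem _ fun i _ => Submodule.smul_mem _ _ (Submodule.subset_span ⟨i, rfl⟩)
  obtain ⟨κ, a, ha, hsp, hli⟩ := exists_linearIndependent' F R
  have hfin : Finite κ := Finite.of_injective a ha
  have hft := Fintype.ofFinite κ
  have hcard : Fintype.card κ = N + 1 := by
    have h1 := Module.finrank_eq_card_basis (Module.Basis.mk hli (by rw [hsp]; exact hspan))
    rw [Module.finrank_fin_fun] at h1
    exact h1.symm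
  let e : Fin (N + 1) ≃ κ := (Fintype.equivFinOfCardEq hcard).symm
  refine ⟨fun x => a (e x), ?_⟩
  have h3 : LinearIndependent F (Matrix.of fun x b => v b (a (e x)) : Matrix (Fin (N + 1)) (Fin (N + 1)) F).row := by
    have h4 := hli.comp e e.injective
    rw [hR] at h4
    exact h4
  have h5 := (Matrix.isUnit_iff_isUnit_det _).1 (Matrix.linearIndependent_rows_iff_isUnit.1 h3)
  exact h5.ne_zero


theorem minor_ne {k : Type} [Field k] {n c : ℕ} {S : Set (MvPolynomial (Fin (n + 1)) k)}
    {G : MvPolynomial (Fin (n + 1)) k} {v : Fin (n + 1) → k} (h : Smo S G c v) :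
    ∃ B : MvPolynomial (Fin (n + 1)) k, MvPolynomial.eval v B ≠ 0 ∧
      ∀ x : Fin (n + 1) → k, MvPolynomial.eval x B ≠ 0 → Smo S G c x := by
  obtain ⟨P, hPS, hli⟩ := h
  obtain ⟨I, hI⟩ := I1_minor _ hli
  have hev : ∀ x : Fin (n + 1) → k,
      MvPolynomial.eval x (Matrix.of fun a b : Fin (c + 1) => MvPolynomial.pderiv (I a)
        ((Fin.cons G P : Fin (c + 1) → MvPolynomial (Fin (n + 1)) k) b)).det =
      (Matrix.of fun a b : Fin (c + 1) =>
        (Fin.cons (gr G x) fun l => gr (P l) x : Fin (c + 1) → Fin (n + 1) → k) b (I a)).det := by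
    intro x
    rw [RingHom.map_det]
    congr 1
    ext a b
    refine Fin.cases ?_ (fun l => ?_) b
    · rfl
    · rfl
  refine ⟨(Matrix.of fun a b : Fin (c + 1) => MvPolynomial.pderiv (I a)
    ((Fin.cons G P : Fin (c + 1) → MvPolynomial (Fin (n + 1)) k) b)).det, ?_, fun x hx => ?_⟩
  · rw [hev]
    exact hI
  · rw [hev] at hx
    refine ⟨P, hPS, ?_⟩
    refine LinearIndependent.of_comp (LinearMap.funLeft k k I) ?_
    exact Matrix.linearIndependent_cols_of_det_ne_zero hx

end Pool.Agent.Lib.MP_1e3e9c_agF
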