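import Mathlib
import Pool.Agent.Lib.MP_1e3e9c_agM.M10

/-!
# MP_1e3e9c_ag, project F, leaf B6: reparametrizations (characteristic zero)

PROOF. Let `c₀ ∈ Cn`, `p i = crv w D v c₀ i`. For `a, b : k` let `c (a, b)` be the vector of the coefficients of the curve `t ↦ (1 + b t)^(w i * D) * p i (a t / (1 + b t)) = ∑_j coeff j (p i) * a^j * t^j * (1 + b t)^(w i * D - j)`; it is the curve `crv w D v (c (a, b))` and its coordinates are polynomials in `a, b`:
`φ : MvPolynomial (Un w D) k →ₐ MvPolynomial (Fin 2) k` (`a = X 0`, `b = X 1`), `eval (a, b) (φ q) = eval (c (a, b)) q`. For `a ≠ 0` (and `k` infinite) it has values in the zero set of `S` (weighted homogeneous: at all `t` with `1 + b t ≠ 0`, so at all `t`) and is not constant (if it were `α^(w i) v i` at all `t`, then the curve `p` would be, at all but one points,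
and so everywhere or: apply the inverse reparametrization). So `φ` maps `I = vanishingIdeal k (Cn w D S v)` to polynomials which vanish at all `(a, b)`, `a ≠ 0`: to `0`. `𝔮 = ker φ ⊇ I` is prime, and it is enough to show that `ringKrullDim (R ⧸ 𝔮) ≥ 2`, `R ⧸ 𝔮 ≅ B = ` the image of `φ`, a domain of finite type over `k`; `ringKrullDim B` is the transcendence degree
of `B` over `k` (Noether normalisation: `B` is integral over `k[s]`, `s = ringKrullDim B`). Suppose it is `≤ 1`: then any two elements of `B` are algebraically dependent over `k`. In characteristic `0` the Jacobian of two algebraically dependent polynomials `F, G` in `a, b` vanishes: `F_a G_b = F_b G_a` (differentiate a relation `H(F, G) = 0` of least degree: `H_1(F, G) F_a + H_2(F, G) G_a = 0`, the same for `b`, and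
`H_1(F, G)`, `H_2(F, G)` are not both zero, as one of the partial derivatives `H_1`, `H_2` is not zero and has smaller degree). At `(a, b) = (1, 0)` the derivatives of the curve are `∂_a : t p_i'(t)` and `∂_b : w_i D t p_i(t) - t² p_i'(t)`. All the `2 × 2` minors vanish, so the two vectors in `k^(Un)` (coefficients of these tuples of polynomials) are linearly dependent: there is `(α, β) ≠ 0` with
`α t p_i' + β (w_i D t p_i - t² p_i') = 0` for all `i`, i.e. `(α - β t) p_i' = - β w_i D p_i`. If `β = 0`: `p_i' = 0` for all `i`, `p_i = v_i` (char 0), constant: contradiction. If `β ≠ 0`: evaluate at `t = 0`; if `α = 0` then `t p_i' = w_i D p_i`, so `p_i = C t^(w_i D)`, `v = p(0) = 0`: contradiction (`D > 0` because `Cn` is not empty, and `0 < w i`); if `α ≠ 0`: `p_i = v_i (1 - β t / α)^(w_i D)`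
(the quotient `p_i / (1 - β t/α)^(w_i D)` has derivative zero): constant: contradiction.
-/

set_option autoImplicit false

namespace Pool.Agent.Lib.MP_1e3e9c_agF

open Pool.Agent.Lib.MP_1e3e9c_agR Pool.Agent.Lib.MP_1e3e9c_agM

private theorem B6_smul {k : Type} [Field k] {n : ℕ} {w : Fin (n + 1) → ℕ} {m : ℕ}
    {F : MvPolynomial (Fin (n + 1)) k} (hF : F.IsWeightedHomogeneous w m)
    (b : k) (v : Fin (n + 1) → k) :
    MvPolynomial.eval (fun i => b ^ w i * v i) F = b ^ m * MvPolynomial.eval v F := by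
  rw [MvPolynomial.eval_eq', MvPolynomial.eval_eq', Finset.mul_sum]
  refine Finset.sum_congr rfl fun α hα => ?_
  rw [MvPolynomial.mem_support_iff] at hα
  have h1 := hF hα
  have h1' : ∑ i, w i * α i = m := by
    rw [← h1, Finsupp.weight_apply, Finsupp.sum_fintype _ _ fun i => by rw [zero_smul]]
    exact Finset.sum_congr rfl fun i _ => by rw [smul_eq_mul, mul_comm]
  have h2 : ∏ i, (b ^ w i * v i) ^ α i = b ^ m * ∏ i, v i ^ α i := by
    rw [← h1', ← Finset.prod_pow_eq_pow_sum, ← Finset.prod_mul_distrib]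
    refine Finset.prod_congr rfl fun i _ => ?_
    rw [mul_pow, ← pow_mul]
  rw [h2]
  ring

/-- the coefficient of degree `l + 1` of the reparametrized curve -/
private noncomputable def B6_F {k : Type} [Field k] (p : Polynomial k) (N l : ℕ) :
    MvPolynomial (Fin 2) k :=
  ∑ j ∈ Finset.range (l + 1 + 1), MvPolynomial.C (p.coeff j * ((N - j).choose (l + 1 - j) : ℕ)) *
    MvPolynomial.X 0 ^ j * MvPolynomial.X 1 ^ (l + 1 - j)

private theorem B6_eval {k : Type} [Field k] (p : Polynomial k) (N l : ℕ) (a b : k) :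
    MvPolynomial.eval ![a, b] (B6_F p N l) = ∑ j ∈ Finset.range (l + 1 + 1),
      p.coeff j * ((N - j).choose (l + 1 - j) : ℕ) * a ^ j * b ^ (l + 1 - j) := by
  unfold B6_F
  rw [map_sum]
  refine Finset.sum_congr rfl fun j _ => ?_
  rw [map_mul, map_mul, map_pow, map_pow, MvPolynomial.eval_C, MvPolynomial.eval_X,
    MvPolynomial.eval_X]
  rfl

private theorem B6_eval10 {k : Type} [Field k] (p : Polynomial k) (N l : ℕ) :
    MvPolynomial.eval ![1, 0] (B6_F p N l) = p.coeff (l + 1) := by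
  rw [B6_eval, Finset.sum_range_succ, Finset.sum_eq_zero, Nat.sub_self, Nat.choose_zero_right]
  · simp
  · intro j hj
    rw [Finset.mem_range] at hj
    rw [zero_pow (by omega), mul_zero]

private theorem B6_eval0 {k : Type} [Field k] (p : Polynomial k) (N l : ℕ) (b : k) :
    MvPolynomial.eval ![0, b] (B6_F p N l) =
      p.coeff 0 * (N.choose (l + 1) : ℕ) * b ^ (l + 1) := by
  rw [B6_eval, Finset.sum_eq_single 0]
  · rw [pow_zero, mul_one, Nat.sub_zero, Nat.sub_zero]
  · intro j _ hj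
    rw [zero_pow hj, mul_zero, zero_mul]
  · intro h
    exact absurd (Finset.mem_range.2 (Nat.succ_pos _)) h

private theorem B6_ev {k : Type} [Field k] (p : Polynomial k) (N : ℕ) (hp : p.natDegree ≤ N)
    (a b t : k) (h : 1 + b * t ≠ 0) :
    p.coeff 0 + ∑ l ∈ Finset.range N, MvPolynomial.eval ![a, b] (B6_F p N l) * t ^ (l + 1) =
      (1 + b * t) ^ N * p.eval (a * t / (1 + b * t)) := by
  have h1 := Finset.sum_range_diag_flip (N + 1) fun j m =>
    p.coeff j * ((N - j).choose m : ℕ) * a ^ j * b ^ m * t ^ (j + m)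
  have h2 : p.coeff 0 + ∑ l ∈ Finset.range N, MvPolynomial.eval ![a, b] (B6_F p N l) *
      t ^ (l + 1) = ∑ m ∈ Finset.range (N + 1), ∑ j ∈ Finset.range (m + 1),
        p.coeff j * ((N - j).choose (m - j) : ℕ) * a ^ j * b ^ (m - j) * t ^ (j + (m - j)) := by
    rw [Finset.sum_range_succ', add_comm]
    congr 1
    · refine Finset.sum_congr rfl fun l _ => ?_
      rw [B6_eval, Finset.sum_mul]
      refine Finset.sum_congr rfl fun j hj => ?_
      rw [Finset.mem_range] at hj
      rw [show j + (l + 1 - j) = l + 1 by omega]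
    · simp
  rw [h2, h1, Polynomial.eval_eq_sum_range' (Nat.lt_succ_of_le hp), Finset.mul_sum]
  refine Finset.sum_congr rfl fun j hj => ?_
  rw [Finset.mem_range] at hj
  have h3 : (1 + b * t) ^ N * (p.coeff j * (a * t / (1 + b * t)) ^ j) =
      p.coeff j * a ^ j * t ^ j * (b * t + 1) ^ (N - j) := by
    obtain ⟨e, he⟩ := Nat.exists_eq_add_of_le (Nat.lt_succ_iff.1 hj)
    rw [he, Nat.add_sub_cancel_left, div_pow, pow_add, add_comm (b * t) 1]
    field_simp
    ring
  rw [h3, add_pow, Finset.mul_sum, show N + 1 - j = N - j + 1 by omega]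
  refine Finset.sum_congr rfl fun m _ => ?_
  rw [one_pow, mul_one, mul_pow, pow_add]
  ring

theorem two_le {k : Type} [Field k] [IsAlgClosed k] [CharZero k] {n D : ℕ} {w : Fin (n + 1) → ℕ}
    (hw : ∀ i, 0 < w i) {S : Set (MvPolynomial (Fin (n + 1)) k)}
    (hS : ∀ P ∈ S, ∃ m, P.IsWeightedHomogeneous w m) {v : Fin (n + 1) → k} (hv0 : v ≠ 0)
    (hne : (Cn w D S v).Nonempty) :
    (2 : WithBot ℕ∞) ≤
      ringKrullDim (MvPolynomial (Un w D) k ⧸ MvPolynomial.vanishingIdeal k (Cn w D S v)) := by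
  classical
  obtain ⟨c₀, hc₀⟩ := hne
  obtain ⟨hS0, hnt⟩ := hc₀
  -- the curve
  obtain ⟨N, hN⟩ : ∃ N : Fin (n + 1) → ℕ, ∀ i, N i = w i * D := ⟨_, fun _ => rfl⟩
  have hD : 0 < D := by
    rcases Nat.eq_zero_or_pos D with h | h
    · exfalso
      apply hnt
      intro t
      refine ⟨1, fun i => ?_⟩
      subst h
      unfold crv
      rw [Finset.sum_eq_zero]
      · simp
      · intro l
        exact absurd l.2 (by simp)
    · exact h
  have hcv : ∀ (c : Un w D → k) i t, (crv w D v c i).eval t =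
      v i + ∑ l : Fin (w i * D), c ⟨i, l⟩ * t ^ ((l : ℕ) + 1) := by
    intro c i t
    unfold crv
    rw [Polynomial.eval_add, Polynomial.eval_C, Polynomial.eval_finsetSum]
    congr 1
    refine Finset.sum_congr rfl fun l _ => ?_
    rw [Polynomial.eval_mul, Polynomial.eval_C, Polynomial.eval_pow, Polynomial.eval_X]
  obtain ⟨p, hpe⟩ : ∃ p : Fin (n + 1) → Polynomial k, ∀ i, p i = crv w D v c₀ i :=
    ⟨_, fun _ => rfl⟩
  have hpd : ∀ i, (p i).natDegree ≤ w i * D := by
    intro i
    rw [hpe]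
    unfold crv
    refine (Polynomial.natDegree_add_le _ _).trans (max_le ?_ ?_)
    · rw [Polynomial.natDegree_C]
      exact Nat.zero_le _
    · refine Polynomial.natDegree_sum_le_of_forall_le _ _ fun l _ => ?_
      refine (Polynomial.natDegree_C_mul_le _ _).trans ?_
      rw [Polynomial.natDegree_X_pow]
      exact l.2
  have hpc : ∀ i (l : Fin (w i * D)), (p i).coeff ((l : ℕ) + 1) = c₀ ⟨i, l⟩ := by
    intro i l
    rw [hpe]
    unfold crv
    rw [Polynomial.coeff_add, Polynomial.coeff_C, if_neg (Nat.succ_ne_zero _), zero_add,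
      Polynomial.finsetSum_coeff, Finset.sum_eq_single l]
    · rw [Polynomial.coeff_C_mul, Polynomial.coeff_X_pow, if_pos rfl, mul_one]
    · intro l' _ hl'
      rw [Polynomial.coeff_C_mul, Polynomial.coeff_X_pow, if_neg, mul_zero]
      intro h
      exact hl' (Fin.ext (by omega))
    · intro h
      exact absurd (Finset.mem_univ _) h
  have hp0 : ∀ i, (p i).coeff 0 = v i := by
    intro i
    rw [Polynomial.coeff_zero_eq_eval_zero, hpe, hcv, Finset.sum_eq_zero, add_zero]
    intro l _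
    rw [zero_pow (Nat.succ_ne_zero _), mul_zero]
  -- the family of the reparametrized curves
  obtain ⟨F, hF⟩ : ∃ F : Un w D → MvPolynomial (Fin 2) k,
      ∀ x, F x = B6_F (p x.1) (w x.1 * D) (x.2 : ℕ) := ⟨_, fun _ => rfl⟩
  have hval : ∀ (a b t : k) (i : Fin (n + 1)), 1 + b * t ≠ 0 →
      (crv w D v (fun x => MvPolynomial.eval ![a, b] (F x)) i).eval t =
        ((1 + b * t) ^ D) ^ w i * (crv w D v c₀ i).eval (a * t / (1 + b * t)) := by
    intro a b t i ht
    rw [hcv, ← hpe, ← pow_mul, mul_comm D (w i), ← B6_ev (p i) (w i * D) (hpd i) a b t ht, hp0,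
      ← Fin.sum_univ_eq_sum_range fun l => MvPolynomial.eval ![a, b] (B6_F (p i) (w i * D) l) *
        t ^ (l + 1)]
    congr 1
    refine Finset.sum_congr rfl fun l _ => ?_
    rw [hF]
  -- the point at which the curve leaves the constant curve
  obtain ⟨t₀, ht₀⟩ : ∃ t₀, ¬ ∃ a : k, ∀ i, (crv w D v c₀ i).eval t₀ = a ^ w i * v i := by
    by_contra h
    push Not at h
    exact hnt h
  have hmem : ∀ a b : k, a ≠ 0 → a - b * t₀ ≠ 0 →
      (fun x => MvPolynomial.eval ![a, b] (F x)) ∈ Cn w D S v := by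
    intro a b ha hab
    refine ⟨fun t P hP => ?_, fun h => ?_⟩
    · -- the polynomial P(curve) vanishes at all t with 1 + b t ≠ 0
      obtain ⟨m, hm⟩ := hS P hP
      obtain ⟨Q, hQ⟩ : ∃ Q : Polynomial k, ∀ t, Q.eval t = MvPolynomial.eval
          (val (crv w D v (fun x => MvPolynomial.eval ![a, b] (F x))) t) P := by
        exact ⟨MvPolynomial.aeval (crv w D v (fun x => MvPolynomial.eval ![a, b] (F x))) P,
          fun t => (eval_val _ t P).symm⟩
      have h1 : Q * (1 + Polynomial.C b * Polynomial.X) = 0 := by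
        apply Polynomial.funext
        intro s
        rw [Polynomial.eval_mul, Polynomial.eval_add, Polynomial.eval_mul, Polynomial.eval_C,
          Polynomial.eval_X, Polynomial.eval_one, Polynomial.eval_zero]
        by_cases hs : 1 + b * s = 0
        · rw [hs, mul_zero]
        · rw [hQ]
          have h2 : val (crv w D v (fun x => MvPolynomial.eval ![a, b] (F x))) s =
              fun i => ((1 + b * s) ^ D) ^ w i * val (crv w D v c₀) (a * s / (1 + b * s)) i :=
            funext fun i => hval a b s i hs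
          rw [h2, B6_smul hm, hS0 _ P hP, mul_zero, zero_mul]
      have h3 : (1 + Polynomial.C b * Polynomial.X : Polynomial k) ≠ 0 := by
        intro h
        have := congrArg (Polynomial.eval 0) h
        simp at this
      have h4 := (mul_eq_zero.1 h1).resolve_right h3
      rw [← hQ, h4, Polynomial.eval_zero]
    · have h1 : 1 + b * (t₀ / (a - b * t₀)) = a / (a - b * t₀) := by
        field_simp
        ring
      have h2 : 1 + b * (t₀ / (a - b * t₀)) ≠ 0 := by
        rw [h1]
        exact div_ne_zero ha hab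
      obtain ⟨e, he⟩ := h (t₀ / (a - b * t₀))
      apply ht₀
      refine ⟨e / (a / (a - b * t₀)) ^ D, fun i => ?_⟩
      have h3 := he i
      rw [hval a b _ i h2, h1] at h3
      have h4 : a * (t₀ / (a - b * t₀)) / (a / (a - b * t₀)) = t₀ := by
        rw [mul_div_assoc', div_div_div_cancel_right₀ hab, mul_div_cancel_left₀ _ ha]
      rw [h4] at h3
      have h5 : ((a / (a - b * t₀)) ^ D) ^ w i ≠ 0 := pow_ne_zero _ (pow_ne_zero _
        (div_ne_zero ha hab))
      rw [div_pow, div_mul_eq_mul_div, eq_div_iff h5, ← h3]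
      ring
  -- the homomorphisms
  obtain ⟨φ, hφ⟩ : ∃ φ : MvPolynomial (Un w D) k →ₐ[k] MvPolynomial (Fin 2) k,
      φ = MvPolynomial.aeval F := ⟨_, rfl⟩
  have hφX : ∀ x, φ (MvPolynomial.X x) = F x := by
    intro x
    rw [hφ, MvPolynomial.aeval_X]
  have hφe : ∀ (q : MvPolynomial (Un w D) k) (z : Fin 2 → k), MvPolynomial.eval z (φ q) =
      MvPolynomial.eval (fun x => MvPolynomial.eval z (F x)) q := by
    intro q z
    induction q using MvPolynomial.induction_on with
    | C a => rw [hφ, MvPolynomial.aeval_C]; simp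
    | add p q hp hq => rw [map_add, map_add, map_add, hp, hq]
    | mul_X p i hp => rw [map_mul, map_mul, map_mul, hp, hφX, MvPolynomial.eval_X]
  have hI : ∀ q ∈ MvPolynomial.vanishingIdeal k (Cn w D S v), φ q = 0 := by
    intro q hq
    have h1 : φ q * (MvPolynomial.X 0 * (MvPolynomial.X 0 - MvPolynomial.C t₀ *
        MvPolynomial.X 1)) = 0 := by
      apply MvPolynomial.funext
      intro z
      rw [map_mul, map_mul, map_sub, map_mul, MvPolynomial.eval_X, MvPolynomial.eval_X,
        MvPolynomial.eval_C, map_zero]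
      by_cases h0 : z 0 = 0
      · rw [h0]
        ring
      by_cases h2 : z 0 - t₀ * z 1 = 0
      · rw [h2]
        ring
      have hz : z = ![z 0, z 1] := by
        funext j
        fin_cases j <;> rfl
      have h3 := hmem (z 0) (z 1) h0 (by rwa [mul_comm (z 1) t₀])
      have h4 := hq _ h3
      rw [MvPolynomial.aeval_eq_eval] at h4
      have h5 : MvPolynomial.eval z (φ q) = 0 := by
        rw [hφe]
        rw [← hz] at h4
        exact h4
      rw [h5, zero_mul]
    have h6 : (MvPolynomial.X 0 - MvPolynomial.C t₀ * MvPolynomial.X 1 :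
        MvPolynomial (Fin 2) k) ≠ 0 := by
      intro h
      have := congrArg (MvPolynomial.eval ![1, 0]) h
      simp at this
    exact (mul_eq_zero.1 h1).resolve_right (mul_ne_zero (MvPolynomial.X_ne_zero 0) h6)
  obtain ⟨ψ, hψ⟩ : ∃ ψ : MvPolynomial (Fin 2) k →ₐ[k] Polynomial k,
      ψ = MvPolynomial.aeval ![0, Polynomial.X] := ⟨_, rfl⟩
  have hψe : ∀ (q : MvPolynomial (Fin 2) k) (b : k),
      (ψ q).eval b = MvPolynomial.eval ![0, b] q := by
    intro q b
    induction q using MvPolynomial.induction_on with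
    | C a => rw [hψ, MvPolynomial.aeval_C]; simp
    | add p q hp hq => rw [map_add, map_add, Polynomial.eval_add, hp, hq]
    | mul_X p i hp =>
      rw [map_mul, map_mul, Polynomial.eval_mul, hp, hψ, MvPolynomial.aeval_X,
        MvPolynomial.eval_X]
      congr 1
      fin_cases i
      · simp
      · simp
  have hF0 : ∀ (x : Un w D) (b : k), MvPolynomial.eval ![0, b] (F x) =
      v x.1 * ((w x.1 * D).choose ((x.2 : ℕ) + 1) : ℕ) * b ^ ((x.2 : ℕ) + 1) := by
    intro x b
    rw [hF, B6_eval0, hp0]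
  have hF1 : ∀ x : Un w D, MvPolynomial.eval ![1, 0] (F x) = c₀ x := by
    intro x
    rw [hF, B6_eval10, hpc]
  -- the chain of the three prime ideals
  obtain ⟨q0, hq0⟩ : ∃ q0 : Ideal (MvPolynomial (Un w D) k),
      q0 = RingHom.ker (φ : MvPolynomial (Un w D) k →+* MvPolynomial (Fin 2) k) := ⟨_, rfl⟩
  obtain ⟨q1, hq1⟩ : ∃ q1 : Ideal (MvPolynomial (Un w D) k),
      q1 = RingHom.ker ((ψ.comp φ : MvPolynomial (Un w D) k →ₐ[k] Polynomial k) :
        MvPolynomial (Un w D) k →+* Polynomial k) := ⟨_, rfl⟩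
  obtain ⟨q2, hq2⟩ : ∃ q2 : Ideal (MvPolynomial (Un w D) k),
      q2 = RingHom.ker (MvPolynomial.eval (0 : Un w D → k)) := ⟨_, rfl⟩
  have m0 : ∀ q, q ∈ q0 ↔ φ q = 0 := by
    intro q
    rw [hq0, RingHom.mem_ker]
    rfl
  have m1 : ∀ q, q ∈ q1 ↔ ψ (φ q) = 0 := by
    intro q
    rw [hq1, RingHom.mem_ker]
    rfl
  have m2 : ∀ q, q ∈ q2 ↔ MvPolynomial.eval (0 : Un w D → k) q = 0 := by
    intro q
    rw [hq2, RingHom.mem_ker]
  have pr0 : q0.IsPrime := by
    rw [hq0]
    exact RingHom.ker_isPrime _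
  have pr1 : q1.IsPrime := by
    rw [hq1]
    exact RingHom.ker_isPrime _
  have pr2 : q2.IsPrime := by
    rw [hq2]
    exact RingHom.ker_isPrime _
  have hI0 : MvPolynomial.vanishingIdeal k (Cn w D S v) ≤ q0 := fun q hq => (m0 q).2 (hI q hq)
  have h01 : q0 ≤ q1 := fun q hq => by
    rw [m1, (m0 q).1 hq, map_zero]
  have h12 : q1 ≤ q2 := fun q hq => by
    have h1 := congrArg (Polynomial.eval 0) ((m1 q).1 hq)
    rw [hψe, hφe, Polynomial.eval_zero] at h1
    rw [m2, ← h1]
    congr 2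
    funext x
    rw [hF0, zero_pow (Nat.succ_ne_zero _), mul_zero]
    rfl
  obtain ⟨i₀, hi₀⟩ : ∃ i, v i ≠ 0 := by
    by_contra h
    push Not at h
    exact hv0 (funext h)
  have hN0 : 0 < w i₀ * D := Nat.mul_pos (hw i₀) hD
  obtain ⟨e, he⟩ : ∃ e : k, e = v i₀ * ((w i₀ * D : ℕ) : k) := ⟨_, rfl⟩
  have he0 : e ≠ 0 := by
    rw [he]
    exact mul_ne_zero hi₀ (Nat.cast_ne_zero.2 (Nat.pos_iff_ne_zero.1 hN0))
  obtain ⟨x₀, hx₀⟩ : ∃ x₀ : Un w D, x₀ = ⟨i₀, ⟨0, hN0⟩⟩ := ⟨_, rfl⟩
  have hFx₀ : ∀ b, MvPolynomial.eval ![0, b] (F x₀) = e * b := by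
    intro b
    rw [hF0, he, hx₀]
    show v i₀ * ((w i₀ * D).choose (0 + 1) : ℕ) * b ^ (0 + 1) = v i₀ * ((w i₀ * D : ℕ) : k) * b
    rw [zero_add, Nat.choose_one_right, pow_one]
  have n12 : ¬ q2 ≤ q1 := by
    intro h
    have h1 : MvPolynomial.X x₀ ∈ q2 := by
      rw [m2, MvPolynomial.eval_X]
      rfl
    have h2 := congrArg (Polynomial.eval 1) ((m1 _).1 (h h1))
    rw [hφX, hψe, hFx₀, Polynomial.eval_zero, mul_one] at h2
    exact he0 h2
  have n01 : ¬ q1 ≤ q0 := by
    intro h
    have key : ∀ x : Un w D, c₀ x = v x.1 * ((w x.1 * D).choose ((x.2 : ℕ) + 1) : ℕ) *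
        (c₀ x₀ / e) ^ ((x.2 : ℕ) + 1) := by
      intro x
      obtain ⟨g, hg⟩ : ∃ g : k, g = v x.1 * ((w x.1 * D).choose ((x.2 : ℕ) + 1) : ℕ) :=
        ⟨_, rfl⟩
      obtain ⟨Q, hQ⟩ : ∃ Q : MvPolynomial (Un w D) k, Q = MvPolynomial.X x *
          MvPolynomial.C (e ^ ((x.2 : ℕ) + 1)) - MvPolynomial.C g *
          MvPolynomial.X x₀ ^ ((x.2 : ℕ) + 1) := ⟨_, rfl⟩
      have hQe : ∀ z : Un w D → k, MvPolynomial.eval z Q =
          z x * e ^ ((x.2 : ℕ) + 1) - g * z x₀ ^ ((x.2 : ℕ) + 1) := by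
        intro z
        rw [hQ, map_sub, map_mul, map_mul, MvPolynomial.eval_X, MvPolynomial.eval_C,
          MvPolynomial.eval_C, map_pow (MvPolynomial.eval z) (MvPolynomial.X x₀),
          MvPolynomial.eval_X]
      have h1 : Q ∈ q1 := by
        rw [m1]
        apply Polynomial.funext
        intro b
        rw [hψe, hφe, hQe, hF0, hFx₀, ← hg, Polynomial.eval_zero, mul_pow]
        ring
      have h2 := congrArg (MvPolynomial.eval ![1, 0]) ((m0 Q).1 (h h1))
      rw [hφe, hQe, hF1, hF1, map_zero] at h2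
      rw [← hg, div_pow, mul_div_assoc', eq_div_iff (pow_ne_zero _ he0)]
      exact sub_eq_zero.1 h2
    apply hnt
    intro t
    refine ⟨(1 + c₀ x₀ / e * t) ^ D, fun i => ?_⟩
    rw [hcv, ← pow_mul, mul_comm D (w i), add_comm 1 (c₀ x₀ / e * t), add_pow,
      Finset.sum_range_succ', add_mul, Finset.sum_mul, pow_zero, Nat.choose_zero_right,
      Nat.cast_one, one_pow, one_mul, one_mul, one_mul, add_comm,
      ← Fin.sum_univ_eq_sum_range fun l => (c₀ x₀ / e * t) ^ (l + 1) *
        1 ^ (w i * D - (l + 1)) * (((w i * D).choose (l + 1) : ℕ) : k) * v i]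
    congr 1
    refine Finset.sum_congr rfl fun l _ => ?_
    rw [key, one_pow, mul_one, mul_pow]
    ring
  rw [ringKrullDim_quotient]
  obtain ⟨P0, hP0⟩ : ∃ P0 : PrimeSpectrum.zeroLocus
      (MvPolynomial.vanishingIdeal k (Cn w D S v) : Set (MvPolynomial (Un w D) k)),
      P0.1.asIdeal = q0 := ⟨⟨⟨q0, pr0⟩, hI0⟩, rfl⟩
  obtain ⟨P1, hP1⟩ : ∃ P1 : PrimeSpectrum.zeroLocus
      (MvPolynomial.vanishingIdeal k (Cn w D S v) : Set (MvPolynomial (Un w D) k)),
      P1.1.asIdeal = q1 := ⟨⟨⟨q1, pr1⟩, hI0.trans h01⟩, rfl⟩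
  obtain ⟨P2, hP2⟩ : ∃ P2 : PrimeSpectrum.zeroLocus
      (MvPolynomial.vanishingIdeal k (Cn w D S v) : Set (MvPolynomial (Un w D) k)),
      P2.1.asIdeal = q2 := ⟨⟨⟨q2, pr2⟩, (hI0.trans h01).trans h12⟩, rfl⟩
  have l01 : P0 < P1 := by
    rw [lt_iff_le_not_ge]
    constructor
    · show P0.1.asIdeal ≤ P1.1.asIdeal
      rw [hP0, hP1]
      exact h01
    · intro h
      have h1 : P1.1.asIdeal ≤ P0.1.asIdeal := h
      rw [hP0, hP1] at h1
      exact n01 h1
  have l12 : P1 < P2 := by
    rw [lt_iff_le_not_ge]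
    constructor
    · show P1.1.asIdeal ≤ P2.1.asIdeal
      rw [hP1, hP2]
      exact h12
    · intro h
      have h1 : P2.1.asIdeal ≤ P1.1.asIdeal := h
      rw [hP1, hP2] at h1
      exact n12 h1
  obtain ⟨s, hs⟩ : ∃ s : LTSeries (PrimeSpectrum.zeroLocus
      (MvPolynomial.vanishingIdeal k (Cn w D S v) : Set (MvPolynomial (Un w D) k))),
      s.length = 2 := by
    refine ⟨⟨2, ![P0, P1, P2], ?_⟩, rfl⟩
    intro i
    fin_cases i
    · exact l01
    · exact l12
  have h1 := Order.LTSeries.length_le_krullDim s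
  rw [hs] at h1
  exact_mod_cast h1

end Pool.Agent.Lib.MP_1e3e9c_agF
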