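import Mathlib
import Pool.Agent.Lib.MP_1e3e9c_agF.FDefs

/-!
# MP_1e3e9c_ag, project F, leaf B1: polynomial curves as power series

PROOF. `PL k d` is the space of the polynomials of degree `≤ d`, as power series. (1) `lsys_poly`: `one`: the polynomial `1`; `mul`: `natDegree_mul_le`; `mem`: `hd`; `base`: `aeval (fun i => (p i : PowerSeries k)) P = ((aeval p P : Polynomial k) : PowerSeries k)` (the coercion is a ring homomorphism, `Polynomial.coeToPowerSeries.algHom`).
(2) `sat_poly`: the polynomials `p i` have no common zero in the algebraically closed field `k`, so neither have the `p i ^ M`: `∑ a i * p i ^ M = 1` (the ideal they generate in the PID `k[X]` is generated by a common divisor, which has no zero: `Ideal.span (range) = ⊤`). `δ = ∑ a i * (p i ^ M * δ)` is the sum of the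
products of the polynomials `a i` and `q i`, `q i = p i ^ M * δ` (a polynomial of degree `≤ d + w i * M * D`): so `δ = (F : PowerSeries k)`, `F` a polynomial, `F ≠ 0`, `p i ^ M * F = q i`. For the index `i` with `(p i).coeff (w i * D) ≠ 0`: `natDegree (p i) = w i * D` (`hd`), so `M * (w i * D) + natDegree F ≤ d + w i * M * D`,
`natDegree F ≤ d`, and the order of `F ≠ 0` is at most its degree.
-/

set_option autoImplicit false

namespace Pool.Agent.Lib.MP_1e3e9c_agF

/-- The polynomials of degree at most `d`, as power series. -/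
noncomputable def PL (k : Type) [Field k] (d : ℕ) : Submodule k (PowerSeries k) :=
  (Polynomial.degreeLE k d).map (Polynomial.coeToPowerSeries.algHom (A := k) (R := k)).toLinearMap

private theorem B1_al {k : Type} [Field k] (q : Polynomial k) :
    Polynomial.coeToPowerSeries.algHom (A := k) (R := k) q = (q : PowerSeries k) := by
  rw [Polynomial.coeToPowerSeries.algHom_apply, Algebra.algebraMap_self]
  exact congrFun (PowerSeries.map_id (R := k)) _

theorem mem_PL {k : Type} [Field k] {d : ℕ} {x : PowerSeries k} :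
    x ∈ PL k d ↔ ∃ q : Polynomial k, q.natDegree ≤ d ∧ (q : PowerSeries k) = x := by
  unfold PL
  rw [Submodule.mem_map]
  constructor
  · rintro ⟨q, hq, rfl⟩
    refine ⟨q, Polynomial.natDegree_le_iff_degree_le.2 (Polynomial.mem_degreeLE.1 hq), ?_⟩
    exact (B1_al q).symm
  · rintro ⟨q, hq, rfl⟩
    refine ⟨q, Polynomial.mem_degreeLE.2 (Polynomial.natDegree_le_iff_degree_le.1 hq), ?_⟩
    exact B1_al q

theorem aeval_coe {k : Type} [Field k] {n : ℕ} (p : Fin (n + 1) → Polynomial k)
    (P : MvPolynomial (Fin (n + 1)) k) :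
    MvPolynomial.aeval (fun i => (p i : PowerSeries k)) P =
      ((MvPolynomial.aeval p P : Polynomial k) : PowerSeries k) := by
  have h1 : (fun i => (p i : PowerSeries k)) =
      fun i => Polynomial.coeToPowerSeries.algHom (A := k) (R := k) (p i) :=
    funext fun i => (B1_al (p i)).symm
  rw [h1, ← B1_al]
  exact (MvPolynomial.comp_aeval_apply p
    (Polynomial.coeToPowerSeries.algHom (A := k) (R := k)) P).symm

theorem lsys_poly {k : Type} [Field k] {n D : ℕ} {w : Fin (n + 1) → ℕ}
    {S : Set (MvPolynomial (Fin (n + 1)) k)} {p : Fin (n + 1) → Polynomial k}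
    (hd : ∀ i, (p i).natDegree ≤ w i * D) (hp : ∀ P ∈ S, MvPolynomial.aeval p P = 0) :
    Lsys w S D (PL k) fun i => (p i : PowerSeries k) := by
  refine ⟨?_, ?_, ?_, ?_⟩
  · exact mem_PL.2 ⟨1, by rw [Polynomial.natDegree_one], Polynomial.coe_one⟩
  · intro a b x y hx hy
    obtain ⟨q, hq, rfl⟩ := mem_PL.1 hx
    obtain ⟨r, hr, rfl⟩ := mem_PL.1 hy
    exact mem_PL.2 ⟨q * r, Polynomial.natDegree_mul_le.trans (add_le_add hq hr),
      Polynomial.coe_mul q r⟩
  · intro i
    exact mem_PL.2 ⟨p i, hd i, rfl⟩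
  · intro P hP
    rw [aeval_coe, hp P hP, Polynomial.coe_zero]

private theorem B1_unit {k : Type} [Field k] [IsAlgClosed k] {n : ℕ}
    {p : Fin (n + 1) → Polynomial k} (hb : ∀ t, ∃ i, (p i).eval t ≠ 0) (M : ℕ) :
    ∃ a : Fin (n + 1) → Polynomial k, ∑ i, a i * p i ^ M = 1 := by
  have htop : Ideal.span (Set.range fun i => p i ^ M) = ⊤ := by
    by_contra hne
    obtain ⟨c, hc⟩ : ∃ c, Ideal.span (Set.range fun i => p i ^ M) = Ideal.span {c} :=
      (IsPrincipalIdealRing.principal (Ideal.span (Set.range fun i => p i ^ M))).principal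
    have hcu : ¬ IsUnit c := by
      intro hu
      apply hne
      rw [hc]
      exact Ideal.span_singleton_eq_top.2 hu
    obtain ⟨t, ht⟩ := IsAlgClosed.exists_root c
      fun h => hcu (Polynomial.isUnit_iff_degree_eq_zero.2 h)
    obtain ⟨i, hi⟩ := hb t
    have h1 : p i ^ M ∈ Ideal.span {c} := by
      rw [← hc]
      exact Ideal.subset_span ⟨i, rfl⟩
    obtain ⟨r, hr⟩ := Ideal.mem_span_singleton.1 h1
    have h2 : (p i ^ M).eval t = 0 := by
      rw [hr, Polynomial.eval_mul, ht, zero_mul]
    rw [Polynomial.eval_pow] at h2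
    exact pow_ne_zero M hi h2
  have h1 : (1 : Polynomial k) ∈ Ideal.span (Set.range fun i => p i ^ M) := by
    rw [htop]
    exact Submodule.mem_top
  exact Ideal.mem_span_range_iff_exists_fun.1 h1

theorem sat_poly {k : Type} [Field k] [IsAlgClosed k] {n D d : ℕ} {w : Fin (n + 1) → ℕ}
    {p : Fin (n + 1) → Polynomial k} (hd : ∀ i, (p i).natDegree ≤ w i * D)
    (hb : ∀ t, ∃ i, (p i).eval t ≠ 0) (hinf : ∃ i, (p i).coeff (w i * D) ≠ 0)
    {δ : PowerSeries k} (hδ : δ ≠ 0)
    (h : ∃ M : ℕ, ∀ i, (p i : PowerSeries k) ^ M * δ ∈ PL k (d + w i * M * D)) :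
    δ.order ≤ d := by
  obtain ⟨M, hM⟩ := h
  choose q hq1 hq2 using fun i => mem_PL.1 (hM i)
  obtain ⟨a, ha⟩ := B1_unit hb M
  obtain ⟨F, hF⟩ : ∃ F : Polynomial k, F = ∑ i, a i * q i := ⟨_, rfl⟩
  have hco : ∀ r : Polynomial k, (r : PowerSeries k) = Polynomial.coeToPowerSeries.ringHom r :=
    fun r => (Polynomial.coeToPowerSeries.ringHom_apply (φ := r)).symm
  have hFδ : (F : PowerSeries k) = δ := by
    have h1 : (((∑ i, a i * p i ^ M : Polynomial k)) : PowerSeries k) * δ = δ := by
      rw [ha, Polynomial.coe_one, one_mul]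
    rw [← h1, hF, hco, hco, map_sum, map_sum, Finset.sum_mul]
    refine Finset.sum_congr rfl fun i _ => ?_
    rw [map_mul, map_mul, map_pow, ← hco, ← hco, ← hco, hq2, mul_assoc]
  have hF0 : F ≠ 0 := by
    intro h0
    apply hδ
    rw [← hFδ, h0, Polynomial.coe_zero]
  obtain ⟨i, hi⟩ := hinf
  have hpi : (p i).natDegree = w i * D :=
    le_antisymm (hd i) (Polynomial.le_natDegree_of_ne_zero hi)
  have hpi0 : p i ≠ 0 := by
    intro h0
    rw [h0, Polynomial.coeff_zero] at hi
    exact hi rfl
  have hqi : q i = p i ^ M * F := by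
    apply Polynomial.coe_injective k
    rw [hq2, Polynomial.coe_mul, Polynomial.coe_pow, hFδ]
  have hdeg := hq1 i
  rw [hqi, Polynomial.natDegree_mul (pow_ne_zero M hpi0) hF0, Polynomial.natDegree_pow, hpi] at hdeg
  have hle : F.natDegree ≤ d := by
    have h2 : M * (w i * D) = w i * M * D := by ring
    omega
  have h3 : PowerSeries.coeff F.natDegree δ ≠ 0 := by
    rw [← hFδ, Polynomial.coeff_coe]
    exact Polynomial.leadingCoeff_ne_zero.2 hF0
  exact (PowerSeries.order_le F.natDegree h3).trans (by exact_mod_cast hle)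

end Pool.Agent.Lib.MP_1e3e9c_agF
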