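import Mathlib
import Pool.Agent.Lib.MP_1e3e9c_agF.B1

/-!
# MP_1e3e9c_ag, project F, leaf B2: the family of all the polynomial curves through `v`

`bU w D x` for `x = ⟨i, l⟩` is the tuple `t^(l+1) e_i`; the member `f + ∑ u_x b_x` of the family, `f` the curve with the coefficients `c₀`, is the curve with the coefficients `c₀ + u`.
PROOF. (1) `gen_eval`: `PowerSeries.map (MvPolynomial.eval u)` of `gen f (bU w D) i` is `f i + ∑ u_x b_x i = ∑ (c₀ + u)_(i,l) t^(l+1) + v_i`, the coercion of `crv w D v (c₀ + u) i`; apply it to `aeval (gen f b) P` (ring homomorphisms). (2) `jt_zero`: the elements `coeff l (aeval (gen f b) P)` generate `JT`; their values at `u` are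
the coefficients of `aeval (crv w D v (c₀ + u)) P` by (1) and `aeval_coe`. (3) `jt_top`: let `P` be weighted homogeneous of weight `m`; the coefficient of `t^(m * D)` of `aeval (gen f b) P` is `aeval (top) P`, `top i = coeff (w i * D) (gen f b i) = C (c₀ ⟨i, w i * D - 1⟩) + X ⟨i, w i * D - 1⟩` (`0 < w i * D`), because `gen f b i` has no coefficients at
`l > w i * D` (for a monomial `∏ x_i^(α i)`, `∑ w i α i = m`: the coefficient of a product of `α i` factors of degree `≤ w i * D` at the sum of the bounds is the product of the top coefficients; view `gen f b i` as the coercion of a polynomial over `MvPolynomial _ k`: `Polynomial.coeff_prod..`, or do an induction for pairs: `coeff (a + b) (F G) = coeff a F * coeff b G`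
if `F`, `G` have no coefficients above `a`, `b`).
-/

set_option autoImplicit false

namespace Pool.Agent.Lib.MP_1e3e9c_agF

open Pool.Agent.Lib.MP_1e3e9c_agR

/-- The tuple `t^(l+1) e_i`. -/
noncomputable def bU {k : Type} [Field k] {n : ℕ} (w : Fin (n + 1) → ℕ) (D : ℕ) (x : Un w D) :
    Fin (n + 1) → PowerSeries k :=
  Pi.single x.1 (PowerSeries.X ^ ((x.2 : ℕ) + 1))

/-- the generic member as a polynomial -/
private noncomputable def B2_G {k : Type} [Field k] {n : ℕ} (w : Fin (n + 1) → ℕ) (D : ℕ) (v : Fin (n + 1) → k)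
    (c₀ : Un w D → k) (i : Fin (n + 1)) : Polynomial (MvPolynomial (Un w D) k) :=
  (crv w D v c₀ i).map MvPolynomial.C +
    ∑ l : Fin (w i * D), Polynomial.C (MvPolynomial.X (⟨i, l⟩ : Un w D)) * Polynomial.X ^ ((l : ℕ) + 1)

private theorem B2_sum {k R : Type} [Field k] [CommRing R] {n : ℕ} (w : Fin (n + 1) → ℕ) (D : ℕ)
    (φ : PowerSeries k →+* PowerSeries R) (a : Un w D → PowerSeries R) (i : Fin (n + 1)) :
    ∑ α : Un w D, a α * φ (bU w D α i) =
      ∑ l : Fin (w i * D), a ⟨i, l⟩ * φ (PowerSeries.X ^ ((l : ℕ) + 1)) := by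
  rw [Fintype.sum_sigma, Finset.sum_eq_single i]
  · refine Finset.sum_congr rfl fun l _ => ?_
    unfold bU
    rw [Pi.single_eq_same]
  · intro j _ hj
    refine Finset.sum_eq_zero fun l _ => ?_
    unfold bU
    rw [Pi.single_eq_of_ne hj.symm, map_zero, mul_zero]
  · intro h
    exact absurd (Finset.mem_univ i) h

private theorem B2_gen {k : Type} [Field k] {n D : ℕ} {w : Fin (n + 1) → ℕ} (v : Fin (n + 1) → k)
    (c₀ : Un w D → k) (i : Fin (n + 1)) :
    gen (fun i => (crv w D v c₀ i : PowerSeries k)) (bU w D) i = (B2_G w D v c₀ i : PowerSeries (MvPolynomial (Un w D) k)) := by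
  unfold gen
  rw [B2_sum w D (PowerSeries.map MvPolynomial.C) (fun α => PowerSeries.C (MvPolynomial.X α)) i]
  unfold B2_G
  rw [Polynomial.coe_add, Polynomial.polynomial_map_coe]
  congr 1
  rw [← Polynomial.coeToPowerSeries.ringHom_apply, map_sum]
  refine Finset.sum_congr rfl fun l _ => ?_
  rw [Polynomial.coeToPowerSeries.ringHom_apply, Polynomial.coe_mul, Polynomial.coe_C, Polynomial.coe_pow,
    Polynomial.coe_X, map_pow, PowerSeries.map_X]

private theorem B2_add {k : Type} [Field k] {n D : ℕ} {w : Fin (n + 1) → ℕ} (v : Fin (n + 1) → k)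
    (c₀ u : Un w D → k) (i : Fin (n + 1)) :
    (B2_G w D v c₀ i).map (MvPolynomial.eval u) = crv w D v (c₀ + u) i := by
  unfold B2_G
  rw [Polynomial.map_add, Polynomial.map_map]
  have h1 : (MvPolynomial.eval u).comp (MvPolynomial.C : k →+* MvPolynomial (Un w D) k) = RingHom.id k := by
    ext x
    rw [RingHom.comp_apply, MvPolynomial.eval_C, RingHom.id_apply]
  rw [h1, Polynomial.map_id, Polynomial.map_sum]
  unfold crv
  rw [add_assoc, ← Finset.sum_add_distrib]
  congr 1
  refine Finset.sum_congr rfl fun l _ => ?_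
  rw [Polynomial.map_mul, Polynomial.map_C, Polynomial.map_pow, Polynomial.map_X, MvPolynomial.eval_X, ← add_mul,
    ← Polynomial.C_add, Pi.add_apply]

/-- values at power series which are polynomials -/
private theorem B2_coe {k R : Type} [Field k] [CommRing R] [Algebra k R] {n : ℕ} (p : Fin (n + 1) → Polynomial R)
    (P : MvPolynomial (Fin (n + 1)) k) :
    MvPolynomial.aeval (fun i => (p i : PowerSeries R)) P =
      ((MvPolynomial.aeval p P : Polynomial R) : PowerSeries R) := by
  have h := MvPolynomial.map_aeval (R := k) p (Polynomial.coeToPowerSeries.ringHom : Polynomial R →+* PowerSeries R) P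
  rw [Polynomial.coeToPowerSeries.ringHom_apply] at h
  rw [h]
  have h1 : (Polynomial.coeToPowerSeries.ringHom : Polynomial R →+* PowerSeries R).comp (algebraMap k (Polynomial R)) =
      algebraMap k (PowerSeries R) := by
    ext x : 1
    rw [RingHom.comp_apply, Polynomial.algebraMap_apply, Polynomial.coeToPowerSeries.ringHom_apply, Polynomial.coe_C,
      PowerSeries.algebraMap_apply]
  rw [h1]
  rfl

private theorem B2_map {k R R' : Type} [Field k] [CommRing R] [Algebra k R] [CommRing R'] [Algebra k R'] {n : ℕ}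
    (φ : R →+* R') (hφ : φ.comp (algebraMap k R) = algebraMap k R') (p : Fin (n + 1) → R)
    (P : MvPolynomial (Fin (n + 1)) k) :
    φ (MvPolynomial.aeval p P) = MvPolynomial.aeval (fun i => φ (p i)) P := by
  rw [MvPolynomial.map_aeval, hφ]
  rfl

private theorem B2_evp {k : Type} [Field k] {n : ℕ} (p : Fin (n + 1) → Polynomial k)
    (P : MvPolynomial (Fin (n + 1)) k) (t : k) :
    (MvPolynomial.aeval p P).eval t = MvPolynomial.eval (val p t) P := by
  have h := B2_map (Polynomial.evalRingHom t) (by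
    ext x
    rw [RingHom.comp_apply, Polynomial.algebraMap_apply, Polynomial.coe_evalRingHom, Polynomial.eval_C]) p P
  rw [Polynomial.coe_evalRingHom] at h
  rw [h]
  rfl

private theorem B2_top {R : Type} [CommRing R] {ι : Type} (s : Finset ι) (G : ι → Polynomial R) (N d : ι → ℕ)
    (hG : ∀ i, (G i).natDegree ≤ N i) :
    (∏ i ∈ s, G i ^ d i).natDegree ≤ ∑ i ∈ s, d i * N i ∧
      (∏ i ∈ s, G i ^ d i).coeff (∑ i ∈ s, d i * N i) = ∏ i ∈ s, (G i).coeff (N i) ^ d i := by
  classical
  induction s using Finset.induction_on with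
  | empty => simp
  | insert j s hj ih =>
    have h1 : (G j ^ d j).natDegree ≤ d j * N j :=
      Polynomial.natDegree_pow_le.trans (Nat.mul_le_mul_left _ (hG j))
    rw [Finset.prod_insert hj, Finset.sum_insert hj, Finset.prod_insert hj]
    refine ⟨Polynomial.natDegree_mul_le.trans (Nat.add_le_add h1 ih.1), ?_⟩
    rw [Polynomial.coeff_mul_add_eq_of_natDegree_le h1 ih.1, ih.2, Polynomial.coeff_pow_of_natDegree_le (hG j)]

private theorem B2_deg {k : Type} [Field k] {n D : ℕ} {w : Fin (n + 1) → ℕ} (v : Fin (n + 1) → k)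
    (c₀ : Un w D → k) (i : Fin (n + 1)) : (B2_G w D v c₀ i).natDegree ≤ w i * D := by
  unfold B2_G
  refine Polynomial.natDegree_add_le_of_degree_le (Polynomial.natDegree_map_le.trans ?_) ?_
  · unfold crv
    refine Polynomial.natDegree_add_le_of_degree_le ?_ ?_
    · rw [Polynomial.natDegree_C]
      exact Nat.zero_le _
    · refine Polynomial.natDegree_sum_le_of_forall_le _ _ fun l _ => ?_
      exact (Polynomial.natDegree_C_mul_X_pow_le _ _).trans (by have := l.2; omega)
  · refine Polynomial.natDegree_sum_le_of_forall_le _ _ fun l _ => ?_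
    exact (Polynomial.natDegree_C_mul_X_pow_le _ _).trans (by have := l.2; omega)

private theorem B2_co {R : Type} [CommRing R] {N : ℕ} (a : Fin N → R) (hN : 0 < N) :
    (∑ l : Fin N, Polynomial.C (a l) * Polynomial.X ^ ((l : ℕ) + 1)).coeff N = a ⟨N - 1, Nat.sub_lt hN one_pos⟩ := by
  rw [Polynomial.finsetSum_coeff, Finset.sum_eq_single ⟨N - 1, Nat.sub_lt hN one_pos⟩]
  · rw [Polynomial.coeff_C_mul, Polynomial.coeff_X_pow, if_pos (by show N = N - 1 + 1; omega), mul_one]
  · intro l _ hl
    rw [Polynomial.coeff_C_mul, Polynomial.coeff_X_pow, if_neg, mul_zero]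
    intro h
    apply hl
    apply Fin.ext
    show (l : ℕ) = N - 1
    omega
  · intro h
    exact absurd (Finset.mem_univ _) h

private theorem B2_coeff {k : Type} [Field k] {n D : ℕ} {w : Fin (n + 1) → ℕ} (hwD : ∀ i, 0 < w i * D)
    (v : Fin (n + 1) → k) (c₀ : Un w D → k) (i : Fin (n + 1)) : (B2_G w D v c₀ i).coeff (w i * D) =
      MvPolynomial.C (c₀ ⟨i, ⟨w i * D - 1, Nat.sub_lt (hwD i) one_pos⟩⟩) +
      MvPolynomial.X ⟨i, ⟨w i * D - 1, Nat.sub_lt (hwD i) one_pos⟩⟩ := by
  unfold B2_G
  rw [Polynomial.coeff_add, Polynomial.coeff_map,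
    B2_co (fun l => (MvPolynomial.X (⟨i, l⟩ : Un w D) : MvPolynomial (Un w D) k)) (hwD i)]
  congr 2
  unfold crv
  rw [Polynomial.coeff_add, Polynomial.coeff_C_of_ne_zero (hwD i).ne', zero_add,
    B2_co (fun l => c₀ ⟨i, l⟩) (hwD i)]

private theorem B2_gcoe {k : Type} [Field k] {n D : ℕ} {w : Fin (n + 1) → ℕ} (v : Fin (n + 1) → k)
    (c₀ : Un w D → k) (P : MvPolynomial (Fin (n + 1)) k) :
    MvPolynomial.aeval (gen (fun i => (crv w D v c₀ i : PowerSeries k)) (bU w D)) P =
      ((MvPolynomial.aeval (B2_G w D v c₀) P : Polynomial (MvPolynomial (Un w D) k)) :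
        PowerSeries (MvPolynomial (Un w D) k)) := by
  rw [← B2_coe]
  congr 2
  funext i
  exact B2_gen v c₀ i

theorem bU_mem {k : Type} [Field k] {n D : ℕ} {w : Fin (n + 1) → ℕ} (x : Un w D)
    (i : Fin (n + 1)) : (bU w D x i : PowerSeries k) ∈ PL k (w i * D) ∧
      PowerSeries.constantCoeff (bU w D x i : PowerSeries k) = 0 := by
  obtain ⟨j, l⟩ := x
  by_cases h : i = j
  · subst h
    have h1 : (bU w D (⟨i, l⟩ : Un w D) i : PowerSeries k) = PowerSeries.X ^ ((l : ℕ) + 1) := by
      unfold bU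
      rw [Pi.single_eq_same]
    rw [h1]
    refine ⟨mem_PL.2 ⟨Polynomial.X ^ ((l : ℕ) + 1), ?_, ?_⟩, ?_⟩
    · rw [Polynomial.natDegree_X_pow]
      have := l.2
      omega
    · rw [Polynomial.coe_pow, Polynomial.coe_X]
    · rw [map_pow, PowerSeries.constantCoeff_X, zero_pow (Nat.succ_ne_zero _)]
  · have h1 : (bU w D (⟨j, l⟩ : Un w D) i : PowerSeries k) = 0 := by
      unfold bU
      rw [Pi.single_eq_of_ne h]
    rw [h1]
    exact ⟨Submodule.zero_mem _, map_zero _⟩

theorem gen_eval {k : Type} [Field k] {n D : ℕ} {w : Fin (n + 1) → ℕ} (v : Fin (n + 1) → k)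
    (c₀ u : Un w D → k) (P : MvPolynomial (Fin (n + 1)) k) :
    PowerSeries.map (MvPolynomial.eval u)
      (MvPolynomial.aeval (gen (fun i => (crv w D v c₀ i : PowerSeries k)) (bU w D)) P) =
      ((MvPolynomial.aeval (crv w D v (c₀ + u)) P : Polynomial k) : PowerSeries k) := by
  rw [B2_gcoe, ← Polynomial.polynomial_map_coe]
  congr 1
  have h := B2_map (Polynomial.mapRingHom (MvPolynomial.eval u)) (by
    ext x : 1
    rw [RingHom.comp_apply, Polynomial.algebraMap_apply, Polynomial.algebraMap_apply, Polynomial.coe_mapRingHom,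
      Polynomial.map_C]
    congr 1
    exact MvPolynomial.eval_C x) (B2_G w D v c₀) P
  rw [Polynomial.coe_mapRingHom] at h
  rw [h]
  congr 2
  funext i
  exact B2_add v c₀ u i

theorem jt_zero {k : Type} [Field k] [Infinite k] {n D : ℕ} {w : Fin (n + 1) → ℕ}
    {S : Set (MvPolynomial (Fin (n + 1)) k)} (v : Fin (n + 1) → k) (c₀ u : Un w D → k) :
    (∀ q ∈ JT S (fun i => (crv w D v c₀ i : PowerSeries k)) (bU w D), MvPolynomial.eval u q = 0) ↔
      ∀ t, ∀ P ∈ S, MvPolynomial.eval (val (crv w D v (c₀ + u)) t) P = 0 := by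
  have key : ∀ P, (∀ l, MvPolynomial.eval u (PowerSeries.coeff l
      (MvPolynomial.aeval (gen (fun i => (crv w D v c₀ i : PowerSeries k)) (bU w D)) P)) = 0) ↔
      ∀ t, MvPolynomial.eval (val (crv w D v (c₀ + u)) t) P = 0 := by
    intro P
    have h1 : ∀ l, MvPolynomial.eval u (PowerSeries.coeff l
        (MvPolynomial.aeval (gen (fun i => (crv w D v c₀ i : PowerSeries k)) (bU w D)) P)) =
        (MvPolynomial.aeval (crv w D v (c₀ + u)) P).coeff l := by
      intro l
      rw [← PowerSeries.coeff_map, gen_eval, Polynomial.coeff_coe]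
    constructor
    · intro h t
      have h2 : MvPolynomial.aeval (crv w D v (c₀ + u)) P = 0 := by
        ext l
        rw [← h1, h l, Polynomial.coeff_zero]
      rw [← B2_evp, h2, Polynomial.eval_zero]
    · intro h l
      have h2 : MvPolynomial.aeval (crv w D v (c₀ + u)) P = 0 := by
        refine Polynomial.funext fun t => ?_
        rw [B2_evp, h t, Polynomial.eval_zero]
      rw [h1, h2, Polynomial.coeff_zero]
  constructor
  · intro h t P hP
    exact (key P).1 (fun l => h _ (Ideal.subset_span ⟨P, hP, l, rfl⟩)) t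
  · intro h q hq
    have h2 : JT S (fun i => (crv w D v c₀ i : PowerSeries k)) (bU w D) ≤ RingHom.ker (MvPolynomial.eval u) := by
      unfold JT
      rw [Ideal.span_le]
      rintro q ⟨P, hP, l, rfl⟩
      exact (key P).2 (fun t => h t P hP) l
    exact h2 hq

theorem jt_top {k : Type} [Field k] {n D m : ℕ} {w : Fin (n + 1) → ℕ} (hwD : ∀ i, 0 < w i * D)
    {S : Set (MvPolynomial (Fin (n + 1)) k)} (v : Fin (n + 1) → k) (c₀ : Un w D → k)
    {P : MvPolynomial (Fin (n + 1)) k} (hP : P ∈ S) (hm : P.IsWeightedHomogeneous w m) :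
    MvPolynomial.aeval (fun i => (MvPolynomial.C (c₀ ⟨i, ⟨w i * D - 1, Nat.sub_lt (hwD i) one_pos⟩⟩) +
      MvPolynomial.X ⟨i, ⟨w i * D - 1, Nat.sub_lt (hwD i) one_pos⟩⟩ : MvPolynomial (Un w D) k)) P ∈
      JT S (fun i => (crv w D v c₀ i : PowerSeries k)) (bU w D) := by
  have h1 : MvPolynomial.aeval (fun i => (MvPolynomial.C (c₀ ⟨i, ⟨w i * D - 1, Nat.sub_lt (hwD i) one_pos⟩⟩) +
      MvPolynomial.X ⟨i, ⟨w i * D - 1, Nat.sub_lt (hwD i) one_pos⟩⟩ : MvPolynomial (Un w D) k)) P =
      PowerSeries.coeff (m * D) (MvPolynomial.aeval (gen (fun i => (crv w D v c₀ i : PowerSeries k)) (bU w D)) P) := by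
    rw [B2_gcoe, Polynomial.coeff_coe, MvPolynomial.aeval_def, MvPolynomial.aeval_def, MvPolynomial.eval₂_eq',
      MvPolynomial.eval₂_eq', Polynomial.finsetSum_coeff]
    refine Finset.sum_congr rfl fun d hd => ?_
    have hw := hm (MvPolynomial.mem_support_iff.1 hd)
    have h2 : ∑ i, d i * w i = m := by
      rw [← hw, Finsupp.weight_apply, Finsupp.sum_fintype]
      · rfl
      · intro i
        exact zero_smul _ _
    have h3 : m * D = ∑ i, d i * (w i * D) := by
      rw [← h2, Finset.sum_mul]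
      exact Finset.sum_congr rfl fun i _ => by ring
    rw [Polynomial.algebraMap_apply, Polynomial.coeff_C_mul, h3,
      (B2_top Finset.univ (B2_G w D v c₀) (fun i => w i * D) (fun i => d i) (B2_deg v c₀)).2]
    congr 1
    refine Finset.prod_congr rfl fun i _ => ?_
    rw [B2_coeff hwD]
  rw [h1]
  exact Ideal.subset_span ⟨P, hP, m * D, rfl⟩

end Pool.Agent.Lib.MP_1e3e9c_agF
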