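import Mathlib
import Pool.Agent.Lib.MP_1e3e9c_agM.M10
import Pool.Agent.Lib.MP_1e3e9c_agF.A7
import Pool.Agent.Lib.MP_1e3e9c_agF.B2

/-!
# MP_1e3e9c_ag, project F, leaf B4: the curves near a nonconstant curve

PROOF. (1) `poly_gen`. Apply `def_gen` (A7) with `L = PL k`, `W₀ = e * D`, `f i = crv w D v c₀ i`, `b = bU w D`. `lsys_poly` (B1): `natDegree_crv` (agR, `natDegree (crv w D v c i) ≤ w i * D`, used in M10), `aeval (crv w D v c₀) P = 0` from `c₀ ∈ Cn` (`Polynomial.funext`, as in M10 `hp`). `hf0`: the constant coefficients are `v i`. `bU_mem`.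
`hsat`: `sat_poly` (B1) with `d ≤ e * D`: the curve has no common zeros: `no_base` and `no_base_inf` (M3), exactly as at the end of the proof of `fam_of_min` in M10 (`¬ Bi` from `c₀ ∈ Cn` and `orbit`, M1, as there). (2) `van_le`. Let `q` vanish on `Cn`. There is a binomial `B = (gp t₀ i)^(w j) v_j^(w i) - (gp t₀ j)^(w i) v_i^(w j)`
(M10: `gp`, `eval_gp`) with `B(c₀) ≠ 0` (`c₀` is not constant; `orbit`). Let `τ : MvPolynomial (Un w D) k ≃ₐ MvPolynomial (Un w D) k` be the translation `X x ↦ X x + C (c₀ x)`, `eval u (τ q) = eval (c₀ + u) q`. `τ q * τ B` vanishes at all the zeros `u` of `𝔭`: `u` is a zero of `JT`, so `crv w D v (c₀ + u)` has values in the zero set of `S` (`jt_zero`, B2); if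
`B(c₀ + u) ≠ 0`, it is not constant, `c₀ + u ∈ Cn` and `q (c₀ + u) = 0`. So `τ q * τ B ∈ 𝔭` by the Nullstellensatz (`𝔭` prime, `k` algebraically closed, `MvPolynomial.vanishingIdeal_zeroLocus_eq_radical`), and `τ B ∉ 𝔭` (`constantCoeff (τ B) = B(c₀) ≠ 0`, `𝔭 ≤ ker constantCoeff`): `τ q ∈ 𝔭`.
-/

set_option autoImplicit false

namespace Pool.Agent.Lib.MP_1e3e9c_agF

open Pool.Agent.Lib.MP_1e3e9c_agR Pool.Agent.Lib.MP_1e3e9c_agM

/-- the binomial of the nonconstancy of `c₀` -/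
private theorem B4_bin {k : Type} [Field k] {n D : ℕ} {w : Fin (n + 1) → ℕ} (hw : ∀ i, 0 < w i)
    {S : Set (MvPolynomial (Fin (n + 1)) k)} (hG : Gp k w S) {v : Fin (n + 1) → k} (hv0 : v ≠ 0)
    (hvS : ∀ P ∈ S, MvPolynomial.eval v P = 0) {c₀ : Un w D → k} (hc₀ : c₀ ∈ Cn w D S v) :
    ∃ t i j, (crv w D v c₀ i).eval t ^ w j * v j ^ w i ≠
      (crv w D v c₀ j).eval t ^ w i * v i ^ w j := by
  have hgv : Gc w v := hG v hv0 fun P hP => by
    rw [MvPolynomial.aeval_eq_eval]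
    exact hvS P hP
  by_contra hcon
  push Not at hcon
  exact hc₀.2 fun t => orbit hw hv0 hgv (hcon t)

private theorem B4_vS {k : Type} [Field k] {n D : ℕ} {w : Fin (n + 1) → ℕ}
    {S : Set (MvPolynomial (Fin (n + 1)) k)} {v : Fin (n + 1) → k} {c₀ : Un w D → k}
    (hc₀ : c₀ ∈ Cn w D S v) : ∀ P ∈ S, MvPolynomial.eval v P = 0 := by
  intro P hP
  have h1 := hc₀.1 0 P hP
  rwa [val_crv_zero] at h1

theorem poly_gen {k : Type} [Field k] [IsAlgClosed k] {n c e D : ℕ} {w : Fin (n + 1) → ℕ}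
    (hw : ∀ i, 0 < w i) {S : Set (MvPolynomial (Fin (n + 1)) k)}
    (hS : ∀ P ∈ S, ∃ m, P.IsWeightedHomogeneous w m) (hsm : Sm S c) (hG : Gp k w S)
    {ψ : (Fin c → Fin (n + 1)) → MvPolynomial (Fin (n + 1)) k} (hψ : Cnl w S c e ψ)
    {v : Fin (n + 1) → k} (hv0 : v ≠ 0) (hM : Mn k w S D v) {c₀ : Un w D → k}
    (hc₀ : c₀ ∈ Cn w D S v) :
    ∃ (G : Finset (MvPolynomial (Un w D) k)) (s : MvPolynomial (Un w D) k), G.card ≤ e * D ∧
      (∀ q ∈ G, q ∈ JT S (fun i => (crv w D v c₀ i : PowerSeries k)) (bU w D)) ∧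
      MvPolynomial.constantCoeff s ≠ 0 ∧
      ∀ x ∈ JT S (fun i => (crv w D v c₀ i : PowerSeries k)) (bU w D),
        s * x ∈ Ideal.span (G : Set (MvPolynomial (Un w D) k)) := by
  classical
  have hinf : Infinite k := IsAlgClosed.instInfinite
  have hvS := B4_vS hc₀
  obtain ⟨t₀, i₀, j₀, hb⟩ := B4_bin hw hG hv0 hvS hc₀
  have hd := natDegree_crv v c₀
  have h0 : ∀ i, (crv w D v c₀ i).coeff 0 = bc k v i := by
    intro i
    have h1 := congrFun (val_crv_zero v c₀) i
    rw [Polynomial.coeff_zero_eq_eval_zero]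
    exact h1
  have hp : ∀ P ∈ S, MvPolynomial.aeval (crv w D v c₀) P = 0 := by
    intro P hP
    apply Polynomial.funext
    intro t
    rw [← eval_val, hc₀.1 t P hP, Polynomial.eval_zero]
  have hn : ¬ Bi w (bc k v) (crv w D v c₀) := by
    intro h
    apply hb
    have h1 := congrArg (Polynomial.eval t₀) (h i₀ j₀)
    rw [Polynomial.eval_mul, Polynomial.eval_mul, Polynomial.eval_pow, Polynomial.eval_pow,
      Polynomial.eval_C, Polynomial.eval_C] at h1
    exact h1
  have hb1 := no_base hw hS hv0 hM hG hd h0 hp hn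
  have hb2 := no_base_inf hw hS hv0 hM hG hd h0 hp hn
  refine def_gen hw hS hsm hψ (lsys_poly hd hp) ?_ (bU w D) (fun α i => (bU_mem α i).1)
    (fun α i => (bU_mem α i).2) fun d hde δ hδ hM' => ?_
  · obtain ⟨i, hi⟩ := Function.ne_iff.1 hv0
    intro h
    apply hi
    have h1 := congrFun h i
    simp only [Polynomial.constantCoeff_coe, Pi.zero_apply] at h1
    have h2 := h0 i
    rw [h1] at h2
    exact h2.symm
  · refine (sat_poly hd hb1 hb2 hδ hM').trans ?_
    exact_mod_cast hde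

/-- the translation of the origin to `c₀` -/
noncomputable def tr {k U : Type} [Field k] (c₀ : U → k) :
    MvPolynomial U k →ₐ[k] MvPolynomial U k :=
  MvPolynomial.aeval fun x => MvPolynomial.X x + MvPolynomial.C (c₀ x)

theorem van_le {k : Type} [Field k] [IsAlgClosed k] {n D : ℕ} {w : Fin (n + 1) → ℕ}
    (hw : ∀ i, 0 < w i) {S : Set (MvPolynomial (Fin (n + 1)) k)} (hG : Gp k w S)
    {v : Fin (n + 1) → k} (hv0 : v ≠ 0) (hvS : ∀ P ∈ S, MvPolynomial.eval v P = 0)
    {c₀ : Un w D → k} (hc₀ : c₀ ∈ Cn w D S v) (𝔭 : Ideal (MvPolynomial (Un w D) k))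
    [𝔭.IsPrime] (h𝔭 : JT S (fun i => (crv w D v c₀ i : PowerSeries k)) (bU w D) ≤ 𝔭)
    (h0 : 𝔭 ≤ RingHom.ker (MvPolynomial.constantCoeff (R := k)))
    {q : MvPolynomial (Un w D) k} (hq : q ∈ MvPolynomial.vanishingIdeal k (Cn w D S v)) :
    tr c₀ q ∈ 𝔭 := by
  classical
  have hinf : Infinite k := IsAlgClosed.instInfinite
  obtain ⟨t₀, i₀, j₀, hb⟩ := B4_bin hw hG hv0 hvS hc₀
  have htr : ∀ (u : Un w D → k) (r : MvPolynomial (Un w D) k),
      MvPolynomial.eval u (tr c₀ r) = MvPolynomial.eval (c₀ + u) r := by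
    intro u r
    have h1 := MvPolynomial.comp_aeval_apply
      (fun x : Un w D => (MvPolynomial.X x + MvPolynomial.C (c₀ x) : MvPolynomial (Un w D) k))
      (MvPolynomial.aeval u : MvPolynomial (Un w D) k →ₐ[k] k) r
    rw [MvPolynomial.aeval_eq_eval] at h1
    unfold tr
    change MvPolynomial.eval u _ = _ at h1
    rw [h1, MvPolynomial.aeval_eq_eval]
    congr 1
    congr 1
    funext x
    rw [map_add, MvPolynomial.eval_X, MvPolynomial.eval_C, Pi.add_apply, add_comm]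
  set B : MvPolynomial (Un w D) k := gp w D v t₀ i₀ ^ w j₀ * MvPolynomial.C (v j₀ ^ w i₀) -
      gp w D v t₀ j₀ ^ w i₀ * MvPolynomial.C (v i₀ ^ w j₀) with hB
  have hBc : tr c₀ B ∉ 𝔭 := by
    intro h
    have h1 : MvPolynomial.constantCoeff (tr c₀ B) = 0 := h0 h
    have h2 : MvPolynomial.eval (0 : Un w D → k) (tr c₀ B) = 0 := by
      rw [← h1]
      exact congrFun (congrArg DFunLike.coe MvPolynomial.eval_zero) _
    rw [htr, add_zero, hB] at h2
    simp only [map_sub, map_mul, map_pow, MvPolynomial.eval_C, eval_gp] at h2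
    exact hb (sub_eq_zero.1 h2)
  have hmul : tr c₀ q * tr c₀ B ∈ 𝔭 := by
    have h1 : tr c₀ q * tr c₀ B ∈ MvPolynomial.vanishingIdeal k (MvPolynomial.zeroLocus k 𝔭) := by
      intro u hu
      have h2 : ∀ r ∈ JT S (fun i => (crv w D v c₀ i : PowerSeries k)) (bU w D),
          MvPolynomial.eval u r = 0 := by
        intro r hr
        have h3 := hu r (h𝔭 hr)
        rwa [MvPolynomial.aeval_eq_eval] at h3
      have h3 := (jt_zero v c₀ u).1 h2
      rw [MvPolynomial.aeval_eq_eval]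
      change MvPolynomial.eval u _ = 0
      rw [map_mul, htr, htr]
      by_cases hB0 : MvPolynomial.eval (c₀ + u) B = 0
      · rw [hB0, mul_zero]
      · have h4 : c₀ + u ∈ Cn w D S v := by
          refine ⟨h3, fun h => hB0 ?_⟩
          obtain ⟨a, ha⟩ := h t₀
          rw [hB]
          simp only [map_sub, map_mul, map_pow, MvPolynomial.eval_C, eval_gp]
          rw [ha, ha, sub_eq_zero, mul_pow, mul_pow, ← pow_mul, ← pow_mul,
            mul_comm (w j₀) (w i₀)]
          ring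
        have h5 := hq _ h4
        rw [MvPolynomial.aeval_eq_eval] at h5
        change MvPolynomial.eval (c₀ + u) q = 0 at h5
        rw [h5, zero_mul]
    rwa [MvPolynomial.IsPrime.vanishingIdeal_zeroLocus] at h1
  exact (Ideal.IsPrime.mem_or_mem inferInstance hmul).resolve_right hBc

end Pool.Agent.Lib.MP_1e3e9c_agF
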