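import Mathlib
import Pool.Agent.Lib.MP_1e3e9c_agF.B3
import Pool.Agent.Lib.MP_1e3e9c_agF.B4

/-!
# MP_1e3e9c_ag, project F, leaf B5: the dimension of the set of the curves of least degree through a point

PROOF. Let `c₀ ∈ Cn`, `J = JT ..` (the family centred at `c₀`, B2). `J ≤ ker constantCoeff` (`jt_zero` at `u = 0`: `c₀ + 0 = c₀` has values in the zero set of `S`). Let `𝔭` be a minimal prime of `J`, `𝔭 ≤ ker constantCoeff` (`Ideal.exists_minimalPrimes_le`). By `poly_gen` (B4) and `ht_of_gen` (A1) `𝔭.height ≤ e * D`.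
`dim_quot` (B3): `card (Un w D) ≤ ringKrullDim (R ⧸ 𝔭) + e * D`, `card (Un w D) = ∑ w i * D = (m + e) * D`. So `m * D ≤ ringKrullDim (R ⧸ 𝔭)` (cancel in `WithBot ℕ∞`). By `van_le` (B4) `tr c₀` maps `I = vanishingIdeal k (Cn ..)` into `𝔭`; `tr c₀` is surjective (inverse `tr (-c₀)`), so it induces a surjective ring homomorphism
`R ⧸ I → R ⧸ 𝔭` and `ringKrullDim (R ⧸ 𝔭) ≤ ringKrullDim (R ⧸ I)` (`ringKrullDim_le_of_surjective`).
-/

set_option autoImplicit false

namespace Pool.Agent.Lib.MP_1e3e9c_agF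

open Pool.Agent.Lib.MP_1e3e9c_agR Pool.Agent.Lib.MP_1e3e9c_agM

private theorem B5_cancel {a b : ℕ} {x : WithBot ℕ∞}
    (h : ((a + b : ℕ) : WithBot ℕ∞) ≤ x + (b : ℕ)) : (a : WithBot ℕ∞) ≤ x := by
  induction x using WithBot.recBotCoe with
  | bot =>
    rw [WithBot.bot_add, le_bot_iff] at h
    exact absurd h (WithBot.coe_ne_bot (a := ((a + b : ℕ) : ℕ∞)))
  | coe y =>
    induction y using ENat.recTopCoe with
    | top => exact WithBot.coe_le_coe.2 (le_top : ((a : ℕ) : ℕ∞) ≤ ⊤)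
    | coe n =>
      have h1 : a + b ≤ n + b := by exact_mod_cast h
      have h2 : a ≤ n := by omega
      exact_mod_cast h2

private theorem B5_tr {k U : Type} [Field k] (c₀ : U → k) :
    Function.Surjective (tr (k := k) c₀) := by
  intro q
  refine ⟨tr (-c₀) q, ?_⟩
  have h1 : (tr c₀).comp (tr (-c₀)) = AlgHom.id k (MvPolynomial U k) := by
    refine MvPolynomial.algHom_ext fun x => ?_
    rw [AlgHom.comp_apply]
    unfold tr
    rw [MvPolynomial.aeval_X, map_add, MvPolynomial.aeval_X, MvPolynomial.aeval_C, Pi.neg_apply,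
      AlgHom.id_apply]
    show MvPolynomial.X x + MvPolynomial.C (c₀ x) + MvPolynomial.C (-c₀ x) = MvPolynomial.X x
    rw [map_neg, add_neg_cancel_right]
  exact DFunLike.congr_fun h1 q

theorem lst_dim {k : Type} [Field k] [IsAlgClosed k] {n c e m D : ℕ} {w : Fin (n + 1) → ℕ}
    (hw : ∀ i, 0 < w i) {S : Set (MvPolynomial (Fin (n + 1)) k)}
    (hS : ∀ P ∈ S, ∃ m, P.IsWeightedHomogeneous w m) (hsm : Sm S c) (hG : Gp k w S)
    {ψ : (Fin c → Fin (n + 1)) → MvPolynomial (Fin (n + 1)) k} (hψ : Cnl w S c e ψ)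
    (hm : m + e = ∑ i, w i) {v : Fin (n + 1) → k} (hv0 : v ≠ 0)
    (hvS : ∀ P ∈ S, MvPolynomial.eval v P = 0) (hM : Mn k w S D v)
    (hne : (Cn w D S v).Nonempty) :
    ((m * D : ℕ) : WithBot ℕ∞) ≤
      ringKrullDim (MvPolynomial (Un w D) k ⧸ MvPolynomial.vanishingIdeal k (Cn w D S v)) := by
  classical
  obtain ⟨c₀, hc₀⟩ := hne
  obtain ⟨G, s, hGc, hGJ, hs, hsJ⟩ := poly_gen hw hS hsm hG hψ hv0 hM hc₀
  have hJ0 : JT S (fun i => (crv w D v c₀ i : PowerSeries k)) (bU w D) ≤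
      RingHom.ker (MvPolynomial.constantCoeff (σ := Un w D) (R := k)) := by
    intro q hq
    rw [RingHom.mem_ker]
    have h1 := (jt_zero (S := S) v c₀ 0).2 (fun t P hP => by
      rw [add_zero]
      exact hc₀.1 t P hP) q hq
    rwa [MvPolynomial.eval_zero] at h1
  have hpr : (RingHom.ker (MvPolynomial.constantCoeff (σ := Un w D) (R := k))).IsPrime :=
    RingHom.ker_isPrime _
  obtain ⟨𝔭, h𝔭, h𝔭0⟩ := Ideal.exists_minimalPrimes_le hJ0
  have h𝔭p : 𝔭.IsPrime := h𝔭.1.1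
  have hht := ht_of_gen _ (e * D) G s hGc hGJ hs hsJ 𝔭 h𝔭 h𝔭0
  have hdim := dim_quot 𝔭 hht
  have hcard : Fintype.card (Un w D) = m * D + e * D := by
    rw [Fintype.card_sigma, Finset.sum_congr rfl fun i _ => Fintype.card_fin (w i * D),
      ← Finset.sum_mul, ← hm, Nat.add_mul]
  rw [hcard] at hdim
  refine (B5_cancel hdim).trans ?_
  exact ringKrullDim_le_of_surjective
    (Ideal.quotientMap (I := MvPolynomial.vanishingIdeal k (Cn w D S v)) 𝔭
      (tr (k := k) c₀).toRingHom fun q hq => van_le hw hG hv0 hvS hc₀ 𝔭 h𝔭.1.2 h𝔭0 hq)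
    (Ideal.quotientMap_surjective (B5_tr c₀))

end Pool.Agent.Lib.MP_1e3e9c_agF
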