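import Mathlib
import Pool.Agent.Lib.MP_1e3e9c_agF.FDefs
import Pool.Agent.Lib.MP_1e3e9c_agF.A1

/-!
# MP_1e3e9c_ag, project F, leaf C1: the second point costs `n + 1 - c` conditions

PROOF. `𝔪 = ker constantCoeff`. `j₀` is injective (two equal columns: the minor vanishes), so `c ≤ n + 1`. `aeval (C v' + y) F = C (F(v')) + ∑ i, C ((pderiv i F)(v')) * y i + ` an element of `𝔪 • span (y)` for every polynomial `F` (induction on `F`, or Taylor: the difference is in `span (y)^2`, and `span (y) ≤ 𝔪`). For `F = P l`: the left side is in `J ≤ 𝔪`, so `P l (v') = 0` (constant coefficients), and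
`∑ b, C ((pderiv (j₀ b) (P l))(v')) * y (j₀ b) ∈ J ⊔ span (y i, i ∉ range j₀) ⊔ 𝔪 • span (y)`. The constant matrix `(pderiv (j₀ b) (P l))(v')` is invertible (`eval v' (mnr P j₀) ≠ 0`), so all `y (j₀ b)` are in this ideal: `span (y) ≤ I₁ ⊔ 𝔪 • span (y)`, `I₁ = J ⊔ span (y i, i ∉ range j₀)`. Nakayama (as in A1: `Submodule.exists_sub_one_mem_and_smul_le_of_fg_of_le_sup` or the quotient
`span (y) ⊔ I₁ / I₁` and `Submodule.exists_sub_one_mem_and_smul_eq_zero_of_fg_of_le_smul`): there is `s₁`, `s₁ - 1 ∈ 𝔪`, with `s₁ • span (y) ≤ I₁`. Let `J' = J ⊔ span (y)`, `G' = G ∪ {y i, i ∉ range j₀}` (as a `Finset`: `Finset.image y` of the complement of the range), `card G' ≤ W + (n + 1 - c)`. `s * s₁ * x ∈ span G'` for `x ∈ J'`. `J' ≤ 𝔪`: let `𝔮` be a minimal prime of `J'` with `𝔮 ≤ 𝔪`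
(`Ideal.exists_minimalPrimes_le`); `ht_of_gen` (A1) for `J'`, `G'`, `s * s₁`.
-/

set_option autoImplicit false

namespace Pool.Agent.Lib.MP_1e3e9c_agF

private theorem C1_const {k U : Type} [Field k] {n : ℕ} (y : Fin (n + 1) → MvPolynomial U k)
    (hy : ∀ i, MvPolynomial.constantCoeff (y i) = 0) (v' : Fin (n + 1) → k) (F : MvPolynomial (Fin (n + 1)) k) :
    MvPolynomial.constantCoeff (MvPolynomial.aeval (fun i => MvPolynomial.C (v' i) + y i) F) =
      MvPolynomial.eval v' F := by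
  induction F using MvPolynomial.induction_on with
  | C a =>
    rw [MvPolynomial.aeval_C, MvPolynomial.eval_C]
    exact MvPolynomial.constantCoeff_C U a
  | add p q hp hq => rw [map_add, map_add, map_add, hp, hq]
  | mul_X p i hp =>
    rw [map_mul, map_mul, map_mul, hp, MvPolynomial.aeval_X, MvPolynomial.eval_X, map_add,
      MvPolynomial.constantCoeff_C, hy, add_zero]

private theorem C1_taylor {k U : Type} [Field k] {n : ℕ} (y : Fin (n + 1) → MvPolynomial U k)
    (hy : ∀ i, MvPolynomial.constantCoeff (y i) = 0) (v' : Fin (n + 1) → k) (F : MvPolynomial (Fin (n + 1)) k) :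
    MvPolynomial.aeval (fun i => MvPolynomial.C (v' i) + y i) F - MvPolynomial.C (MvPolynomial.eval v' F) -
        ∑ i, MvPolynomial.C (MvPolynomial.eval v' (MvPolynomial.pderiv i F)) * y i ∈
      RingHom.ker (MvPolynomial.constantCoeff (σ := U) (R := k)) * Ideal.span (Set.range y) := by
  classical
  induction F using MvPolynomial.induction_on with
  | C a =>
    have h1 : MvPolynomial.aeval (fun i => MvPolynomial.C (v' i) + y i) (MvPolynomial.C a : MvPolynomial (Fin (n + 1)) k) =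
        MvPolynomial.C a := MvPolynomial.aeval_C _ a
    rw [h1, MvPolynomial.eval_C, sub_self, zero_sub, neg_mem_iff]
    rw [Finset.sum_eq_zero]
    · exact zero_mem _
    · intro i _
      rw [MvPolynomial.pderiv_C, map_zero, map_zero, zero_mul]
  | add p q hp hq =>
    have h1 := add_mem hp hq
    have h2 : ∀ i, MvPolynomial.C (MvPolynomial.eval v' (MvPolynomial.pderiv i (p + q))) * y i =
        MvPolynomial.C (MvPolynomial.eval v' (MvPolynomial.pderiv i p)) * y i +
          MvPolynomial.C (MvPolynomial.eval v' (MvPolynomial.pderiv i q)) * y i := fun i => by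
      rw [map_add, map_add, map_add, add_mul]
    rw [Finset.sum_congr rfl fun i _ => h2 i, Finset.sum_add_distrib, map_add, map_add, map_add]
    have e : ∀ a b c a' b' c' : MvPolynomial U k, a + a' - (b + b') - (c + c') = (a - b - c) + (a' - b' - c') :=
      fun _ _ _ _ _ _ => by ring
    rw [e]
    exact h1
  | mul_X p j hp =>
    have h2 : ∀ i, MvPolynomial.C (MvPolynomial.eval v' (MvPolynomial.pderiv i (p * MvPolynomial.X j))) * y i =
        (if i = j then MvPolynomial.C (MvPolynomial.eval v' p) * y i else 0) +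
          MvPolynomial.C (v' j) * (MvPolynomial.C (MvPolynomial.eval v' (MvPolynomial.pderiv i p)) * y i) := fun i => by
      rw [Derivation.leibniz, smul_eq_mul, smul_eq_mul, map_add, map_mul, map_mul, MvPolynomial.eval_X,
        MvPolynomial.pderiv_X, map_add, map_mul, map_mul, add_mul]
      by_cases h : i = j
      · subst h
        rw [if_pos rfl, Pi.single_eq_same, map_one, map_one, mul_one, mul_assoc]
      · rw [if_neg h, Pi.single_eq_of_ne (Ne.symm h), map_zero, map_zero, mul_zero, zero_mul, mul_assoc]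
    rw [Finset.sum_congr rfl fun i _ => h2 i, Finset.sum_add_distrib, Finset.sum_ite_eq' Finset.univ j,
      if_pos (Finset.mem_univ j), ← Finset.mul_sum, map_mul, map_mul, MvPolynomial.aeval_X, MvPolynomial.eval_X, map_mul]
    have e : ∀ a b c s t : MvPolynomial U k, a * (c + t) - b * c - (b * t + c * s) = c * (a - b - s) + (a - b) * t :=
      fun _ _ _ _ _ => by ring
    rw [e]
    refine add_mem (Ideal.mul_mem_left _ _ hp) (Ideal.mul_mem_mul ?_ (Ideal.subset_span ⟨j, rfl⟩))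
    rw [RingHom.mem_ker, map_sub, C1_const y hy, MvPolynomial.constantCoeff_C, sub_self]

theorem second_point {k U : Type} [Field k] [Fintype U] {n c W : ℕ}
    (J : Ideal (MvPolynomial U k)) (hJ : J ≤ RingHom.ker (MvPolynomial.constantCoeff (R := k)))
    (G : Finset (MvPolynomial U k)) (s : MvPolynomial U k) (hG : G.card ≤ W)
    (hGJ : ∀ q ∈ G, q ∈ J) (hs : MvPolynomial.constantCoeff s ≠ 0)
    (hsJ : ∀ x ∈ J, s * x ∈ Ideal.span (G : Set (MvPolynomial U k)))
    (y : Fin (n + 1) → MvPolynomial U k) (hy : ∀ i, MvPolynomial.constantCoeff (y i) = 0)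
    (v' : Fin (n + 1) → k) (P : Fin c → MvPolynomial (Fin (n + 1)) k)
    (hP : ∀ l, MvPolynomial.aeval (fun i => MvPolynomial.C (v' i) + y i) (P l) ∈ J)
    (j₀ : Fin c → Fin (n + 1)) (hj₀ : MvPolynomial.eval v' (mnr P j₀) ≠ 0) :
    c ≤ n + 1 ∧ ∃ 𝔮 : Ideal (MvPolynomial U k), 𝔮.IsPrime ∧ J ≤ 𝔮 ∧ (∀ i, y i ∈ 𝔮) ∧
      𝔮 ≤ RingHom.ker (MvPolynomial.constantCoeff (R := k)) ∧
      𝔮.height ≤ ((W + (n + 1 - c) : ℕ) : ℕ∞) := by
  classical
  obtain ⟨𝔪, h𝔪⟩ : ∃ 𝔪 : Ideal (MvPolynomial U k), 𝔪 = RingHom.ker (MvPolynomial.constantCoeff (σ := U) (R := k)) :=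
    ⟨_, rfl⟩
  have h𝔪p : 𝔪.IsPrime := by
    rw [h𝔪]
    exact RingHom.ker_isPrime _
  have hmem : ∀ x, x ∈ 𝔪 ↔ MvPolynomial.constantCoeff x = 0 := fun x => by rw [h𝔪, RingHom.mem_ker]
  have hinj : Function.Injective j₀ := by
    intro a b hab
    by_contra hne
    refine hj₀ ?_
    have h1 : mnr P j₀ = 0 := Matrix.det_zero_of_column_eq hne fun l => by
      rw [Matrix.of_apply, Matrix.of_apply, hab]
    rw [h1, map_zero]
  have hc : c ≤ n + 1 := by
    have h1 := Fintype.card_le_of_injective j₀ hinj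
    rwa [Fintype.card_fin, Fintype.card_fin] at h1
  refine ⟨hc, ?_⟩
  obtain ⟨Y, hY⟩ : ∃ Y : Ideal (MvPolynomial U k), Y = Ideal.span (Set.range y) := ⟨_, rfl⟩
  obtain ⟨T, hT⟩ : ∃ T : Finset (Fin (n + 1)), T = (Finset.univ.image j₀)ᶜ := ⟨_, rfl⟩
  obtain ⟨I₁, hI₁⟩ : ∃ I₁ : Ideal (MvPolynomial U k), I₁ = J ⊔ Ideal.span (T.image y : Finset (MvPolynomial U k)) :=
    ⟨_, rfl⟩
  have hyY : ∀ i, y i ∈ Y := fun i => by
    rw [hY]
    exact Ideal.subset_span ⟨i, rfl⟩
  have hyT : ∀ i ∈ T, y i ∈ I₁ := fun i hi => by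
    rw [hI₁]
    exact Ideal.mem_sup_right (Ideal.subset_span (Finset.mem_coe.2 (Finset.mem_image_of_mem y hi)))
  have hJI : J ≤ I₁ := by
    rw [hI₁]
    exact le_sup_left
  -- the linear terms
  have hlin : ∀ l, ∑ b, MvPolynomial.C (MvPolynomial.eval v' (MvPolynomial.pderiv (j₀ b) (P l))) * y (j₀ b) ∈
      I₁ ⊔ 𝔪 * Y := by
    intro l
    have h1 := C1_taylor y hy v' (P l)
    have h2 : MvPolynomial.eval v' (P l) = 0 := by
      rw [← C1_const y hy v' (P l)]
      exact RingHom.mem_ker.1 (hJ (hP l))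
    rw [h2, map_zero, sub_zero, ← h𝔪, ← hY] at h1
    have h3 : ∑ i, MvPolynomial.C (MvPolynomial.eval v' (MvPolynomial.pderiv i (P l))) * y i ∈ I₁ ⊔ 𝔪 * Y := by
      have h4 := sub_mem (Ideal.mem_sup_left (T := 𝔪 * Y) (hJI (hP l))) (Ideal.mem_sup_right (S := I₁) h1)
      rwa [sub_sub_cancel] at h4
    have h5 : ∑ i, MvPolynomial.C (MvPolynomial.eval v' (MvPolynomial.pderiv i (P l))) * y i =
        ∑ b, MvPolynomial.C (MvPolynomial.eval v' (MvPolynomial.pderiv (j₀ b) (P l))) * y (j₀ b) +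
          ∑ i ∈ T, MvPolynomial.C (MvPolynomial.eval v' (MvPolynomial.pderiv i (P l))) * y i := by
      rw [hT, ← Finset.sum_add_sum_compl (Finset.univ.image j₀), Finset.sum_image fun _ _ _ _ h => hinj h]
    have h6 : ∑ i ∈ T, MvPolynomial.C (MvPolynomial.eval v' (MvPolynomial.pderiv i (P l))) * y i ∈ I₁ ⊔ 𝔪 * Y :=
      sum_mem fun i hi => Ideal.mul_mem_left _ _ (Ideal.mem_sup_left (hyT i hi))
    rw [h5] at h3
    exact (add_mem_cancel_right h6).1 h3
  -- the matrix
  obtain ⟨M, hM⟩ : ∃ M : Matrix (Fin c) (Fin c) k,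
      M = Matrix.of fun l b => MvPolynomial.eval v' (MvPolynomial.pderiv (j₀ b) (P l)) := ⟨_, rfl⟩
  have hdet : IsUnit M.det := by
    rw [isUnit_iff_ne_zero]
    have h1 : MvPolynomial.eval v' (mnr P j₀) = M.det := by
      rw [mnr, RingHom.map_det, hM]
      rfl
    rw [← h1]
    exact hj₀
  have hyj : ∀ b, y (j₀ b) ∈ I₁ ⊔ 𝔪 * Y := by
    intro b
    have h1 : ∑ l, MvPolynomial.C (M⁻¹ b l) *
        ∑ b', MvPolynomial.C (MvPolynomial.eval v' (MvPolynomial.pderiv (j₀ b') (P l))) * y (j₀ b') = y (j₀ b) := by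
      have h2 : ∀ l b', MvPolynomial.eval v' (MvPolynomial.pderiv (j₀ b') (P l)) = M l b' := fun l b' => by
        rw [hM, Matrix.of_apply]
      have h3 : ∀ b', ∑ l, M⁻¹ b l * M l b' = if b = b' then 1 else 0 := fun b' => by
        rw [← Matrix.mul_apply, Matrix.nonsing_inv_mul M hdet, Matrix.one_apply]
      calc ∑ l, MvPolynomial.C (M⁻¹ b l) *
            ∑ b', MvPolynomial.C (MvPolynomial.eval v' (MvPolynomial.pderiv (j₀ b') (P l))) * y (j₀ b')
          = ∑ b', MvPolynomial.C (∑ l, M⁻¹ b l * M l b') * y (j₀ b') := by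
            simp only [h2, Finset.mul_sum]
            rw [Finset.sum_comm]
            refine Finset.sum_congr rfl fun b' _ => ?_
            rw [map_sum, Finset.sum_mul]
            refine Finset.sum_congr rfl fun l _ => ?_
            rw [map_mul, mul_assoc]
        _ = y (j₀ b) := by
            rw [Finset.sum_eq_single b]
            · rw [h3, if_pos rfl, map_one, one_mul]
            · intro b' _ hb
              rw [h3, if_neg (Ne.symm hb), map_zero, zero_mul]
            · intro h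
              exact absurd (Finset.mem_univ b) h
    rw [← h1]
    exact sum_mem fun l _ => Ideal.mul_mem_left _ _ (hlin l)
  have hYle : Y ≤ I₁ ⊔ 𝔪 • Y := by
    rw [smul_eq_mul]
    conv_lhs => rw [hY]
    rw [Ideal.span_le]
    rintro _ ⟨i, rfl⟩
    by_cases hi : i ∈ T
    · exact Ideal.mem_sup_left (hyT i hi)
    · rw [hT, Finset.mem_compl, not_not, Finset.mem_image] at hi
      obtain ⟨b, -, rfl⟩ := hi
      exact hyj b
  have hYfg : Y.FG := by
    rw [hY]
    exact Submodule.fg_span (Set.finite_range y)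
  obtain ⟨s₁, hs₁, hs₁Y⟩ := Submodule.exists_sub_one_mem_and_smul_le_of_fg_of_le_sup hYfg le_rfl hYle
  have hs₁c : MvPolynomial.constantCoeff s₁ = 1 := by
    rw [hmem, map_sub, map_one, sub_eq_zero] at hs₁
    exact hs₁
  -- the new ideal
  obtain ⟨J', hJ'⟩ : ∃ J' : Ideal (MvPolynomial U k), J' = J ⊔ Y := ⟨_, rfl⟩
  obtain ⟨G', hG'⟩ : ∃ G' : Finset (MvPolynomial U k), G' = G ∪ T.image y := ⟨_, rfl⟩
  have hcard : G'.card ≤ W + (n + 1 - c) := by
    rw [hG']
    refine (Finset.card_union_le _ _).trans (add_le_add hG (Finset.card_image_le.trans ?_))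
    rw [hT, Finset.card_compl, Finset.card_image_of_injective _ hinj, Finset.card_univ, Fintype.card_fin,
      Fintype.card_fin]
  have hG'J : ∀ q ∈ G', q ∈ J' := by
    intro q hq
    rw [hG', Finset.mem_union, Finset.mem_image] at hq
    rw [hJ']
    rcases hq with hq | ⟨i, -, rfl⟩
    · exact Ideal.mem_sup_left (hGJ q hq)
    · exact Ideal.mem_sup_right (hyY i)
  have hss : MvPolynomial.constantCoeff (s * s₁) ≠ 0 := by
    rw [map_mul, hs₁c, mul_one]
    exact hs
  have hGG : Ideal.span (G : Set (MvPolynomial U k)) ≤ Ideal.span (G' : Set (MvPolynomial U k)) := by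
    refine Ideal.span_mono ?_
    rw [hG', Finset.coe_union]
    exact Set.subset_union_left
  have hTG : Ideal.span ((T.image y : Finset (MvPolynomial U k)) : Set (MvPolynomial U k)) ≤
      Ideal.span (G' : Set (MvPolynomial U k)) := by
    refine Ideal.span_mono ?_
    rw [hG', Finset.coe_union]
    exact Set.subset_union_right
  have hI₁s : ∀ x ∈ I₁, s * x ∈ Ideal.span (G' : Set (MvPolynomial U k)) := by
    intro x hx
    rw [hI₁] at hx
    obtain ⟨a, ha, b, hb, rfl⟩ := Submodule.mem_sup.1 hx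
    rw [mul_add]
    exact add_mem (hGG (hsJ a ha)) (Ideal.mul_mem_left _ _ (hTG hb))
  have hsJ' : ∀ x ∈ J', s * s₁ * x ∈ Ideal.span (G' : Set (MvPolynomial U k)) := by
    intro x hx
    rw [hJ'] at hx
    obtain ⟨a, ha, z, hz, rfl⟩ := Submodule.mem_sup.1 hx
    have e : s * s₁ * (a + z) = s₁ * (s * a) + s * (s₁ * z) := by ring
    rw [e]
    refine add_mem (Ideal.mul_mem_left _ _ (hGG (hsJ a ha))) (hI₁s _ (hs₁Y ?_))
    exact Submodule.smul_mem_pointwise_smul z s₁ Y hz
  have hJ'm : J' ≤ 𝔪 := by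
    rw [hJ']
    refine sup_le (by rw [h𝔪]; exact hJ) ?_
    rw [hY, Ideal.span_le]
    rintro _ ⟨i, rfl⟩
    exact (hmem _).2 (hy i)
  obtain ⟨𝔮, h𝔮, h𝔮m⟩ := Ideal.exists_minimalPrimes_le hJ'm
  have h𝔮J : J' ≤ 𝔮 := h𝔮.1.2
  rw [hJ'] at h𝔮J
  refine ⟨𝔮, h𝔮.1.1, le_sup_left.trans h𝔮J, fun i => h𝔮J (Ideal.mem_sup_right (hyY i)), by rw [← h𝔪]; exact h𝔮m, ?_⟩
  exact ht_of_gen J' (W + (n + 1 - c)) G' (s * s₁) hcard hG'J hss hsJ' 𝔮 h𝔮 (by rw [← h𝔪]; exact h𝔮m)

end Pool.Agent.Lib.MP_1e3e9c_agF
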