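import Mathlib

/-!
# MP_1e3e9c_ag, project F, leaf C2: a homogeneous ideal and a prime over fixed values of some variables (MATHLIB ONLY)

PROOF. `R = MvPolynomial U k`, weights `wt x ≥ 1`. `A` is homogeneous: all weighted homogeneous components of an element of `A` are in `A` (`hA`, by the Vandermonde argument from the invariance of the zero set it is given here directly). By the Nullstellensatz (`k` algebraically closed) and `h0` every variable is in the radical of `A + (X x, x ∈ top)`: there is `M` with
`X x ^ M ∈ A + (X x, x ∈ top)` for all `x : U` (also for `x ∈ top`). Let `B ⊆ R` be the finite set of the monomials with all exponents `< M`, `T = k[X x, x ∈ top]`. CLAIM: every monomial is in `∑_(b ∈ B) T b + A`. Induction on its weight `N`: if it is not in `B`, it is `X x ^ M` times a monomial of weight `N - M * wt x`; `X x ^ M = a + ∑_(z ∈ top) X z * g_z` with `a ∈ A`,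
and (taking the weighted homogeneous components of weight `M * wt x`) `g_z` weighted homogeneous of weight `M * wt x - wt z`; so the monomial is in `A + ∑ X z * (polynomials, combinations of monomials of weight N - wt z < N)`. So `R ⧸ 𝔮` is spanned over `k` by the images of `B`, because the images of the elements of `T` are in `k` (`X x - C a ∈ 𝔮` for `x ∈ top`) and `A ≤ 𝔮`: it is a finite-dimensional domain over `k`,
a field (`isField_of_isIntegral_of_isField` / `Module.Finite` and `IsArtinianRing`): `𝔮` is maximal (`Ideal.Quotient.maximal_of_isField`).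
-/

set_option autoImplicit false

namespace Pool.Agent.Lib.MP_1e3e9c_agF

private theorem C2_rad {k U : Type} [Field k] [IsAlgClosed k] [Fintype U]
    (A : Ideal (MvPolynomial U k)) (top : Set U)
    (h0 : ∀ u : U → k, (∀ q ∈ A, MvPolynomial.eval u q = 0) → (∀ x ∈ top, u x = 0) → u = 0) (y : U) :
    ∃ M : ℕ, (MvPolynomial.X y : MvPolynomial U k) ^ M ∈ A ⊔ Ideal.span (MvPolynomial.X '' top) := by
  have h1 : (MvPolynomial.X y : MvPolynomial U k) ∈
      (A ⊔ Ideal.span (MvPolynomial.X '' top) : Ideal (MvPolynomial U k)).radical := by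
    rw [← MvPolynomial.vanishingIdeal_zeroLocus_eq_radical (K := k)]
    intro u hu
    have h2 : u = 0 := by
      refine h0 u (fun q hq => ?_) fun x hx => ?_
      · have h3 := hu q (Ideal.mem_sup_left hq)
        rw [MvPolynomial.aeval_eq_eval] at h3
        exact h3
      · have h3 := hu (MvPolynomial.X x) (Ideal.mem_sup_right (Ideal.subset_span ⟨x, hx, rfl⟩))
        rw [MvPolynomial.aeval_X] at h3
        exact h3
    rw [MvPolynomial.aeval_X, h2]
    rfl
  exact h1

private theorem C2_smul {k U : Type} [Field k] (𝔮 : Ideal (MvPolynomial U k)) (c : k) (p : MvPolynomial U k) :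
    Ideal.Quotient.mk 𝔮 (c • p) = c • Ideal.Quotient.mk 𝔮 p :=
  map_smul (Ideal.Quotient.mkₐ k 𝔮) c p

private theorem C2_whc_monomial {k U : Type} [Field k] (wt : U → ℕ) (m : ℕ) (d : U →₀ ℕ) (c : k) :
    MvPolynomial.weightedHomogeneousComponent wt m (MvPolynomial.monomial d c) =
      if m = Finsupp.weight wt d then MvPolynomial.monomial d c else 0 :=
  MvPolynomial.weightedHomogeneousComponent_of_mem
    (MvPolynomial.isWeightedHomogeneous_monomial wt d c rfl)

private theorem C2_split {k U : Type} [Field k] [Fintype U] (wt : U → ℕ)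
    (hwt : ∀ x, 0 < wt x) (top : Set U) (𝔮 : Ideal (MvPolynomial U k))
    (htop : ∀ x ∈ top, ∃ a : k, MvPolynomial.X x - MvPolynomial.C a ∈ 𝔮)
    (V : ℕ → Submodule k (MvPolynomial U k ⧸ 𝔮))
    (hV : ∀ m, V m = Submodule.span k {w | ∃ ν : U →₀ ℕ, Finsupp.weight wt ν < m ∧
      w = Ideal.Quotient.mk 𝔮 (MvPolynomial.monomial ν 1)})
    (b : MvPolynomial U k) (hb : b ∈ Ideal.span (MvPolynomial.X '' top)) :
    ∀ (g : MvPolynomial U k) (m : ℕ),
      Ideal.Quotient.mk 𝔮 (MvPolynomial.weightedHomogeneousComponent wt m (g * b)) ∈ V m := by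
  classical
  induction hb using Submodule.span_induction with
  | mem b hb =>
    obtain ⟨z, hz, rfl⟩ := hb
    obtain ⟨a, ha⟩ := htop z hz
    intro g m
    induction g using MvPolynomial.induction_on' with
    | monomial d c =>
      have h1 : MvPolynomial.monomial d c * (MvPolynomial.X z : MvPolynomial U k) =
          MvPolynomial.monomial (d + Finsupp.single z 1) c := by
        rw [MvPolynomial.X, MvPolynomial.monomial_mul, mul_one]
      rw [h1, C2_whc_monomial]
      split_ifs with h2
      · rw [← h1, map_mul]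
        have h3 : Ideal.Quotient.mk 𝔮 (MvPolynomial.X z) = Ideal.Quotient.mk 𝔮 (MvPolynomial.C a) :=
          Ideal.Quotient.eq.2 ha
        have h4 : Ideal.Quotient.mk 𝔮 (MvPolynomial.monomial d c) * Ideal.Quotient.mk 𝔮 (MvPolynomial.C a) =
            (c * a) • Ideal.Quotient.mk 𝔮 (MvPolynomial.monomial d 1) := by
          rw [← map_mul, ← C2_smul, MvPolynomial.smul_monomial, mul_comm,
            MvPolynomial.C_mul_monomial, smul_eq_mul, mul_one, mul_comm]
        rw [h3, h4, hV]
        refine Submodule.smul_mem _ _ (Submodule.subset_span ⟨d, ?_, rfl⟩)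
        rw [h2, map_add, Finsupp.weight_single, one_smul]
        exact Nat.lt_add_of_pos_right (hwt z)
      · rw [map_zero]
        exact Submodule.zero_mem _
    | add p q hp hq =>
      rw [add_mul, map_add, map_add]
      exact Submodule.add_mem _ hp hq
  | zero =>
    intro g m
    rw [mul_zero, map_zero, map_zero]
    exact Submodule.zero_mem _
  | add p q _ _ hp hq =>
    intro g m
    rw [mul_add, map_add, map_add]
    exact Submodule.add_mem _ (hp g m) (hq g m)
  | smul h p _ hp =>
    intro g m
    rw [smul_eq_mul, ← mul_assoc]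
    exact hp (g * h) m

private theorem C2_finite {U : Type} [Fintype U] (wt : U → ℕ) (hwt : ∀ x, 0 < wt x) (m : ℕ) :
    {ν : U →₀ ℕ | Finsupp.weight wt ν < m}.Finite := by
  have h1 : {ν : U →₀ ℕ | Finsupp.weight wt ν < m} ⊆
      ⋃ n ∈ Finset.range m, {ν : U →₀ ℕ | Finsupp.weight wt ν = n} := by
    intro ν hν
    exact Set.mem_biUnion (Finset.mem_coe.2 (Finset.mem_range.2 hν)) rfl
  exact (Set.Finite.biUnion (Finset.finite_toSet _) fun n _ =>
    Finsupp.finite_of_nat_weight_eq wt (fun x => (hwt x).ne') n).subset h1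

theorem maximal_of_top {k U : Type} [Field k] [IsAlgClosed k] [Fintype U] (wt : U → ℕ)
    (hwt : ∀ x, 0 < wt x) (A : Ideal (MvPolynomial U k))
    (hA : ∀ q ∈ A, ∀ m, MvPolynomial.weightedHomogeneousComponent wt m q ∈ A) (top : Set U)
    (h0 : ∀ u : U → k, (∀ q ∈ A, MvPolynomial.eval u q = 0) → (∀ x ∈ top, u x = 0) → u = 0)
    (𝔮 : Ideal (MvPolynomial U k)) [𝔮.IsPrime] (hA𝔮 : A ≤ 𝔮)
    (htop : ∀ x ∈ top, ∃ a : k, MvPolynomial.X x - MvPolynomial.C a ∈ 𝔮) : 𝔮.IsMaximal := by
  classical
  obtain ⟨V, hV⟩ : ∃ V : ℕ → Submodule k (MvPolynomial U k ⧸ 𝔮), ∀ m, V m = Submodule.span k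
      {w | ∃ ν : U →₀ ℕ, Finsupp.weight wt ν < m ∧ w = Ideal.Quotient.mk 𝔮 (MvPolynomial.monomial ν 1)} :=
    ⟨_, fun _ => rfl⟩
  have hmono : ∀ m n, m ≤ n → V m ≤ V n := by
    intro m n hmn
    rw [hV, hV]
    refine Submodule.span_mono ?_
    rintro w ⟨ν, hν, rfl⟩
    exact ⟨ν, hν.trans_le hmn, rfl⟩
  have hmul : ∀ (m : ℕ) (w : MvPolynomial U k ⧸ 𝔮), w ∈ V m → ∀ ν : U →₀ ℕ,
      w * Ideal.Quotient.mk 𝔮 (MvPolynomial.monomial ν 1) ∈ V (m + Finsupp.weight wt ν) := by
    intro m w hw ν
    rw [hV] at hw
    induction hw using Submodule.span_induction with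
    | mem w hw =>
      obtain ⟨μ, hμ, rfl⟩ := hw
      rw [← map_mul, MvPolynomial.monomial_mul, mul_one, hV]
      refine Submodule.subset_span ⟨μ + ν, ?_, rfl⟩
      rw [map_add]
      exact Nat.add_lt_add_right hμ _
    | zero =>
      rw [zero_mul]
      exact Submodule.zero_mem _
    | add x y _ _ hx hy =>
      rw [add_mul]
      exact Submodule.add_mem _ hx hy
    | smul c x _ hx =>
      rw [smul_mul_assoc]
      exact Submodule.smul_mem _ _ hx
  choose M hM using C2_rad A top h0
  have hpow : ∀ y : U, Ideal.Quotient.mk 𝔮 (MvPolynomial.monomial (Finsupp.single y (M y)) 1) ∈ V (M y * wt y) := by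
    intro y
    obtain ⟨a, ha, b, hb, hab⟩ := Submodule.mem_sup.1 (hM y)
    have h1 : (MvPolynomial.monomial (Finsupp.single y (M y)) 1 : MvPolynomial U k) =
        MvPolynomial.weightedHomogeneousComponent wt (M y * wt y) a +
        MvPolynomial.weightedHomogeneousComponent wt (M y * wt y) (1 * b) := by
      rw [one_mul, ← map_add, hab, MvPolynomial.X_pow_eq_monomial, C2_whc_monomial, Finsupp.weight_single,
        smul_eq_mul, if_pos rfl]
    rw [h1, map_add]
    have h2 : Ideal.Quotient.mk 𝔮 (MvPolynomial.weightedHomogeneousComponent wt (M y * wt y) a) = 0 :=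
      Ideal.Quotient.eq_zero_iff_mem.2 (hA𝔮 (hA a ha _))
    rw [h2, zero_add]
    exact C2_split wt hwt top 𝔮 htop V hV b hb 1 _
  obtain ⟨n0, hn0⟩ : ∃ n0 : ℕ, n0 = ∑ y, M y * wt y + 1 := ⟨_, rfl⟩
  have hstep : ∀ n, n0 ≤ n → V (n + 1) ≤ V n := by
    intro n hn
    rw [hV (n + 1), Submodule.span_le]
    rintro w ⟨ν, hν, rfl⟩
    rcases Nat.lt_or_ge (Finsupp.weight wt ν) n with h1 | h1
    · rw [hV]
      exact Submodule.subset_span ⟨ν, h1, rfl⟩
    · have h2 : Finsupp.weight wt ν = n := by omega
      obtain ⟨y, hy⟩ : ∃ y, M y ≤ ν y := by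
        by_contra hc
        rw [not_exists] at hc
        have h3 : Finsupp.weight wt ν ≤ ∑ y, M y * wt y := by
          rw [Finsupp.weight_apply, Finsupp.sum_fintype _ _ (fun i => by rw [zero_smul])]
          refine Finset.sum_le_sum fun y _ => ?_
          rw [smul_eq_mul]
          exact Nat.mul_le_mul_right _ (not_le.1 (hc y)).le
        omega
      have h4 : ν = Finsupp.single y (M y) + (ν - Finsupp.single y (M y)) := by
        rw [add_tsub_cancel_of_le]
        rw [Finsupp.single_le_iff]
        exact hy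
      have h5 : (MvPolynomial.monomial ν 1 : MvPolynomial U k) =
          MvPolynomial.monomial (Finsupp.single y (M y)) 1 *
            MvPolynomial.monomial (ν - Finsupp.single y (M y)) 1 := by
        rw [MvPolynomial.monomial_mul, mul_one, ← h4]
      have h6 : n = M y * wt y + Finsupp.weight wt (ν - Finsupp.single y (M y)) := by
        rw [← h2]
        nth_rewrite 1 [h4]
        rw [map_add, Finsupp.weight_single, smul_eq_mul]
      rw [h5, map_mul, h6]
      exact hmul _ _ (hpow y) _
  have hall : ∀ n, V n ≤ V n0 := by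
    intro n
    rcases Nat.le_total n n0 with h1 | h1
    · exact hmono _ _ h1
    · induction n, h1 using Nat.le_induction with
      | base => exact le_rfl
      | succ n hn ih => exact (hstep n hn).trans ih
  have htopV : V n0 = ⊤ := by
    rw [eq_top_iff]
    intro w _
    obtain ⟨p, rfl⟩ := Ideal.Quotient.mk_surjective w
    induction p using MvPolynomial.induction_on' with
    | monomial d c =>
      have h1 : Ideal.Quotient.mk 𝔮 (MvPolynomial.monomial d c) =
          c • Ideal.Quotient.mk 𝔮 (MvPolynomial.monomial d 1) := by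
        rw [← C2_smul, MvPolynomial.smul_monomial, smul_eq_mul, mul_one]
      rw [h1]
      refine Submodule.smul_mem _ _ (hall (Finsupp.weight wt d + 1) ?_)
      rw [hV]
      exact Submodule.subset_span ⟨d, Nat.lt_succ_self _, rfl⟩
    | add p q hp hq =>
      rw [map_add]
      exact Submodule.add_mem _ (hp trivial) (hq trivial)
  have hfin : Module.Finite k (MvPolynomial U k ⧸ 𝔮) := by
    refine ⟨?_⟩
    rw [← htopV, hV]
    refine Submodule.fg_span ?_
    refine ((C2_finite wt hwt n0).image fun ν => Ideal.Quotient.mk 𝔮 (MvPolynomial.monomial ν 1)).subset ?_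
    rintro w ⟨ν, hν, rfl⟩
    exact ⟨ν, hν, rfl⟩
  exact Ideal.Quotient.maximal_of_isField _ (isField_of_isIntegral_of_isField' (R := k) (Field.toIsField k))

/-- the vanishing ideal of a set which is stable under scalings is homogeneous -/
theorem hom_of_scale {k U : Type} [Field k] [Infinite k] [Fintype U] (wt : U → ℕ)
    (Z : Set (U → k)) (hZ : ∀ c ∈ Z, ∀ a : k, a ≠ 0 → (fun x => a ^ wt x * c x) ∈ Z) :
    ∀ q ∈ MvPolynomial.vanishingIdeal k Z, ∀ m,
      MvPolynomial.weightedHomogeneousComponent wt m q ∈ MvPolynomial.vanishingIdeal k Z := by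
  classical
  intro q hq m c hc
  rw [MvPolynomial.aeval_eq_eval]
  obtain ⟨F, hF⟩ : ∃ F : Polynomial k, F = ∑ d ∈ q.support,
      Polynomial.monomial (Finsupp.weight wt d) (q.coeff d * ∏ x, c x ^ d x) := ⟨_, rfl⟩
  have h1 : ∀ a : k, a ≠ 0 → F.eval a = 0 := by
    intro a ha
    have h2 := hq _ (hZ c hc a ha)
    rw [MvPolynomial.aeval_eq_eval] at h2
    change MvPolynomial.eval (fun x => a ^ wt x * c x) q = 0 at h2
    rw [MvPolynomial.eval_eq'] at h2
    rw [hF, Polynomial.eval_finsetSum, ← h2]
    refine Finset.sum_congr rfl fun d _ => ?_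
    rw [Polynomial.eval_monomial, mul_assoc]
    congr 1
    have h3 : Finsupp.weight wt d = ∑ x, d x * wt x := by
      rw [Finsupp.weight_apply, Finsupp.sum_fintype _ _ (fun i => by rw [zero_smul])]
      rfl
    rw [h3, ← Finset.prod_pow_eq_pow_sum, ← Finset.prod_mul_distrib]
    refine Finset.prod_congr rfl fun x _ => ?_
    rw [mul_pow, mul_comm (d x), pow_mul, mul_comm]
  have h4 : F = 0 := by
    refine Polynomial.eq_zero_of_infinite_isRoot F ?_
    refine (Set.infinite_univ.sdiff (Set.finite_singleton (0 : k))).mono ?_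
    intro a ha
    exact h1 a fun h => ha.2 (Set.mem_singleton_iff.2 h)
  have h5 : F.coeff m = 0 := by rw [h4, Polynomial.coeff_zero]
  rw [hF, Polynomial.finsetSum_coeff] at h5
  have h6 : MvPolynomial.eval c (MvPolynomial.weightedHomogeneousComponent wt m q) =
      ∑ d ∈ q.support, (Polynomial.monomial (Finsupp.weight wt d) (q.coeff d * ∏ x, c x ^ d x)).coeff m := by
    rw [MvPolynomial.weightedHomogeneousComponent_apply, map_sum, Finset.sum_filter]
    refine Finset.sum_congr rfl fun d _ => ?_
    rw [Polynomial.coeff_monomial]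
    split_ifs with h7
    · rw [MvPolynomial.eval_monomial, Finsupp.prod_fintype _ _ (fun i => pow_zero _)]
    · rfl
  exact h6.trans h5

end Pool.Agent.Lib.MP_1e3e9c_agF
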