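import Mathlib
import Pool.Agent.Lib.MP_1e3e9c_agF.B5
import Pool.Agent.Lib.MP_1e3e9c_agF.C1
import Pool.Agent.Lib.MP_1e3e9c_agF.C2

/-!
# MP_1e3e9c_ag, project F, leaf C3: the least degree is bounded

PROOF. `U = Un w D`, `D > 0` (`Cn ≠ ∅`: for `D = 0` the curve is constant), `last i = ⟨i, ⟨w i * D - 1, _⟩⟩ : U`. Let `c₀ ∈ Cn`, `v' i = c₀ (last i)`, the coefficient of `t^(w i * D)` of `crv w D v c₀ i`. `v' ≠ 0` (`no_base_inf`, M3, as in M10), `v'` is in the zero set of `S`: `jt_top` (B2) gives `aeval (C v' + X_last) P ∈ JT`, and `JT ≤ ker constantCoeff`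
(`jt_zero` at `u = 0`), so `P(v') = 0`. `hsm v'`: `P : Fin c → ..` with linearly independent gradients at `v'`; choose `j₀` with `eval v' (mnr P j₀) ≠ 0` (rank). If `m = 0` the claim is `c ≤ n + 1`, in `second_point`. Let `m > 0`. `poly_gen` (B4) and `second_point` (C1) with `W = e * D`, `y i = X (last i)`, `hP` = `jt_top`: a prime `𝔮`. Let `A = vanishingIdeal k (Cn w D S v)`,
`𝔮' = 𝔮.comap (tr c₀)`, prime. `A ≤ 𝔮'` by `van_le` (B4). `X (last i) - C (v' i) ∈ 𝔮'` because `tr c₀` of it is `X (last i) = y i`. `maximal_of_top` (C2) with `wt ⟨i, l⟩ = l + 1`, `top = range last`: `hA` by `hom_of_scale` (C2) and `cn_scale` (M10). `h0`: `fam_of_min` (M10) with `M = m * D > 0` and `lst_dim` (B5): let `u` be a zero of `A` with `u (last i) = 0` for all `i`. If `Triv w D v u`: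
`crv w D v u i = C (v i) * (1 + C b * X)^(w i * D)`, the coefficient of `X^(w i * D)` is `v i * b^(w i * D) = u (last i) = 0`, for `v i ≠ 0`: `b = 0`, `crv w D v u i = C (v i)` for all `i`, `u = 0`. If not `Triv`: `hv w D (crv w D v u) ![0, 1] i ≠ 0` for some `i`, but it is the coefficient of `X^(w i * D)`, `u (last i) = 0` (see the end of the proof of M10). So `𝔮'` is maximal, `𝔮` is maximal
(`tr c₀` is bijective with inverse `tr (-c₀)`: `𝔮 = 𝔮'.comap (tr (-c₀))`), `𝔮.height = card U = ∑ w i * D = (m + e) * D` by `ht_max` (B3), and `(m + e) * D ≤ e * D + (n + 1 - c)`.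
-/

set_option autoImplicit false

namespace Pool.Agent.Lib.MP_1e3e9c_agF

open Pool.Agent.Lib.MP_1e3e9c_agR Pool.Agent.Lib.MP_1e3e9c_agM

private theorem C3_minor {k : Type} [Field k] {c n : ℕ} (y : Fin c → Fin (n + 1) → k)
    (hy : LinearIndependent k y) :
    ∃ j : Fin c → Fin (n + 1), (Matrix.of fun a b : Fin c => y a (j b)).det ≠ 0 := by
  classical
  let N : Matrix (Fin c) (Fin (n + 1)) k := Matrix.of fun b i => y b i
  have h3 : N.rank = c := by
    have h := LinearIndependent.rank_matrix (M := N) hy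
    rwa [Fintype.card_fin] at h
  obtain ⟨κ, a, ha, hsp, hli⟩ := exists_linearIndependent' k N.col
  have hF : Fintype κ := Fintype.ofInjective a ha
  have hcard : Fintype.card κ = c := by
    rw [← finrank_span_eq_card hli, hsp, ← Matrix.rank_eq_finrank_span_cols, h3]
  let e : Fin c ≃ κ := (Fintype.equivFinOfCardEq hcard).symm
  refine ⟨fun i => a (e i), fun h0 => ?_⟩
  have h4 : LinearIndependent k (fun i : Fin c => N.col (a (e i))) := hli.comp e e.injective
  have h5 : IsUnit (Matrix.of fun i b : Fin c => N b (a (e i))) :=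
    Matrix.linearIndependent_rows_iff_isUnit.1 h4
  rw [Matrix.isUnit_iff_isUnit_det] at h5
  have h6 : (Matrix.of fun i b : Fin c => N b (a (e i))).det =
      (Matrix.of fun a' b : Fin c => y a' (a (e b))).det := by
    rw [← Matrix.det_transpose]
    rfl
  rw [h6, h0] at h5
  exact not_isUnit_zero h5

private theorem C3_coeff {k : Type} [Field k] {n : ℕ} (w : Fin (n + 1) → ℕ) (D : ℕ)
    (v : Fin (n + 1) → k) (c : Un w D → k) (i : Fin (n + 1)) (l : Fin (w i * D)) :
    (crv w D v c i).coeff ((l : ℕ) + 1) = c ⟨i, l⟩ := by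
  classical
  unfold crv
  rw [Polynomial.coeff_add, Polynomial.coeff_C_succ, zero_add, Polynomial.finsetSum_coeff,
    Finset.sum_eq_single l]
  · rw [Polynomial.coeff_C_mul, Polynomial.coeff_X_pow, if_pos rfl, mul_one]
  · intro l' _ hl'
    rw [Polynomial.coeff_C_mul, Polynomial.coeff_X_pow, if_neg, mul_zero]
    intro h
    exact hl' (Fin.ext (by omega))
  · intro h
    exact absurd (Finset.mem_univ _) h

private theorem C3_tr {k U : Type} [Field k] (c₀ : U → k) (q : MvPolynomial U k) :
    tr c₀ (tr (-c₀) q) = q := by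
  have h : (tr c₀).comp (tr (-c₀)) = AlgHom.id k (MvPolynomial U k) := by
    apply MvPolynomial.algHom_ext
    intro x
    rw [AlgHom.comp_apply, AlgHom.id_apply]
    unfold tr
    rw [MvPolynomial.aeval_X, map_add, MvPolynomial.aeval_X, MvPolynomial.algHom_C]
    rw [Pi.neg_apply, MvPolynomial.algebraMap_eq, add_assoc, ← MvPolynomial.C_add, add_neg_cancel,
      MvPolynomial.C_0, add_zero]
  exact congrArg (fun f : MvPolynomial U k →ₐ[k] MvPolynomial U k => f q) h

theorem deg_bound {k : Type} [Field k] [IsAlgClosed k] {n c e m D : ℕ} {w : Fin (n + 1) → ℕ}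
    (hw : ∀ i, 0 < w i) {S : Set (MvPolynomial (Fin (n + 1)) k)}
    (hS : ∀ P ∈ S, ∃ m, P.IsWeightedHomogeneous w m) (hsm : Sm S c) (hG : Gp k w S)
    {ψ : (Fin c → Fin (n + 1)) → MvPolynomial (Fin (n + 1)) k} (hψ : Cnl w S c e ψ)
    (hm : m + e = ∑ i, w i) {v : Fin (n + 1) → k} (hv0 : v ≠ 0)
    (hvS : ∀ P ∈ S, MvPolynomial.eval v P = 0) (hM : Mn k w S D v)
    (hne : (Cn w D S v).Nonempty) : m * D + c ≤ n + 1 := by
  classical
  have hinf : Infinite k := IsAlgClosed.instInfinite
  obtain ⟨c₀, hc₀⟩ := hne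
  -- `D > 0`
  have hD : 0 < D := by
    rcases Nat.eq_zero_or_pos D with h | h
    · exfalso
      apply hc₀.2
      intro t
      refine ⟨1, fun i => ?_⟩
      have h1 : crv w D v c₀ i = Polynomial.C (v i) := by
        unfold crv
        rw [Finset.sum_eq_zero, add_zero]
        intro l _
        have h2 := l.2
        have h3 : w i * D = 0 := by rw [h, Nat.mul_zero]
        omega
      rw [h1, Polynomial.eval_C, one_pow, one_mul]
    · exact h
  have hwD : ∀ i, 0 < w i * D := fun i => Nat.mul_pos (hw i) hD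
  obtain ⟨last, hlast⟩ : ∃ last : Fin (n + 1) → Un w D,
    last = fun i => ⟨i, ⟨w i * D - 1, Nat.sub_lt (hwD i) one_pos⟩⟩ := ⟨_, rfl⟩
  have htop : ∀ (c : Un w D → k) i, (crv w D v c i).coeff (w i * D) = c (last i) := by
    intro c i
    have h1 := C3_coeff w D v c i ⟨w i * D - 1, Nat.sub_lt (hwD i) one_pos⟩
    have h2 : w i * D - 1 + 1 = w i * D := Nat.sub_add_cancel (hwD i)
    rw [hlast]
    simp only [h2] at h1
    exact h1
  -- the point `v'`
  obtain ⟨v', hv'⟩ : ∃ v' : Fin (n + 1) → k, v' = fun i => c₀ (last i) := ⟨_, rfl⟩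
  have hp : ∀ P ∈ S, MvPolynomial.aeval (crv w D v c₀) P = 0 := by
    intro P hP
    apply Polynomial.funext
    intro t
    rw [← eval_val, hc₀.1 t P hP, Polynomial.eval_zero]
  have hgv : Gc w v := hG v hv0 fun P hP => by
    rw [MvPolynomial.aeval_eq_eval]
    exact hvS P hP
  have hv'0 : v' ≠ 0 := by
    obtain ⟨i, hi⟩ := no_base_inf (L := k) hw hS hv0 hM hG (p := crv w D v c₀)
      (fun i => natDegree_crv v c₀ i)
      (fun i => by
        have h1 := congrFun (val_crv_zero (w := w) (D := D) v c₀) i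
        rw [Polynomial.coeff_zero_eq_eval_zero]
        exact h1) hp
      (fun h => hc₀.2 fun t => orbit hw hv0 hgv fun i j => by
        have h1 := congrArg (Polynomial.eval t) (h i j)
        rw [Polynomial.eval_mul, Polynomial.eval_mul, Polynomial.eval_pow, Polynomial.eval_pow,
          Polynomial.eval_C, Polynomial.eval_C] at h1
        exact h1)
    intro h
    apply hi
    rw [htop]
    have h1 := congrFun h i
    rw [hv'] at h1
    exact h1
  obtain ⟨J, hJd⟩ : ∃ J : Ideal (MvPolynomial (Un w D) k),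
    J = JT S (fun i => (crv w D v c₀ i : PowerSeries k)) (bU w D) := ⟨_, rfl⟩
  have hJ0 : J ≤ RingHom.ker (MvPolynomial.constantCoeff (R := k)) := by
    intro q hq
    rw [RingHom.mem_ker]
    have h1 := (jt_zero (S := S) v c₀ 0).2 (by
      rw [add_zero]
      exact hc₀.1) q (by rw [← hJd]; exact hq)
    rw [← h1]
    exact (DFunLike.congr_fun MvPolynomial.eval_zero q).symm
  obtain ⟨y, hy⟩ : ∃ y : Fin (n + 1) → MvPolynomial (Un w D) k,
    y = fun i => MvPolynomial.X (last i) := ⟨_, rfl⟩
  have hyc : ∀ i, MvPolynomial.constantCoeff (y i) = 0 := by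
    intro i
    rw [hy]
    show MvPolynomial.constantCoeff (MvPolynomial.X (last i) : MvPolynomial (Un w D) k) = 0
    exact MvPolynomial.constantCoeff_X k _
  have hPJ : ∀ P ∈ S, MvPolynomial.aeval (fun i => MvPolynomial.C (v' i) + y i) P ∈ J := by
    intro P hP
    obtain ⟨d, hd⟩ := hS P hP
    have h1 := jt_top hwD v c₀ hP hd
    rw [hJd, hv', hy, hlast]
    exact h1
  have hv'S : ∀ P ∈ S, MvPolynomial.eval v' P = 0 := by
    intro P hP
    have h1 := hJ0 (hPJ P hP)
    rw [RingHom.mem_ker] at h1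
    rw [← h1]
    have h2 : (MvPolynomial.eval v' : MvPolynomial (Fin (n + 1)) k →+* k) =
        (MvPolynomial.constantCoeff (R := k) (σ := Un w D)).comp
          (MvPolynomial.aeval (fun i => MvPolynomial.C (v' i) + y i) :
            MvPolynomial (Fin (n + 1)) k →ₐ[k] MvPolynomial (Un w D) k).toRingHom := by
      apply MvPolynomial.ringHom_ext
      · intro r
        simp
      · intro i
        simp [hyc]
    exact congrArg (fun f : MvPolynomial (Fin (n + 1)) k →+* k => f P) h2
  obtain ⟨P, hPS, hPli, -⟩ := hsm v' hv'0 hv'S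
  obtain ⟨j₀, hj₀⟩ := C3_minor _ hPli
  have hj₀' : MvPolynomial.eval v' (mnr P j₀) ≠ 0 := by
    intro h
    apply hj₀
    rw [← h]
    unfold mnr
    rw [RingHom.map_det]
    rfl
  obtain ⟨G, s, hGc, hGJ, hs, hsJ⟩ := poly_gen hw hS hsm hG hψ hv0 hM hc₀
  obtain ⟨hcn, 𝔮, h𝔮p, hJ𝔮, hy𝔮, h𝔮0, hht⟩ := second_point (W := e * D) J hJ0 G s hGc
    (fun q hq => by rw [hJd]; exact hGJ q hq) hs
    (fun x hx => hsJ x (by rw [← hJd]; exact hx)) y hyc v' P (fun l => hPJ (P l) (hPS l)) j₀ hj₀'
  rcases Nat.eq_zero_or_pos m with hm0 | hm0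
  · rw [hm0, zero_mul, zero_add]
    exact hcn
  -- the ideal `A`
  have hdim := lst_dim hw hS hsm hG hψ hm hv0 hvS hM ⟨c₀, hc₀⟩
  obtain ⟨-, hfam⟩ := fam_of_min hw hD (Nat.mul_pos hm0 hD) hS hv0 hvS hG hM hdim
  have h𝔮'p : (𝔮.comap (tr c₀).toRingHom).IsPrime := Ideal.comap_isPrime _ _
  have hmax' : (𝔮.comap (tr c₀).toRingHom).IsMaximal := by
    refine maximal_of_top (fun x : Un w D => (x.2 : ℕ) + 1) (fun x => Nat.succ_pos _)
      (MvPolynomial.vanishingIdeal k (Cn w D S v))
      (hom_of_scale _ _ fun c hc a ha => cn_scale c hc a ha) (Set.range last) ?_ _ ?_ ?_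
    · intro u hu hul
      have hul' : ∀ i, u (last i) = 0 := fun i => hul _ ⟨i, rfl⟩
      by_cases hT : Triv w D v u
      · obtain ⟨b, hb⟩ := hT
        obtain ⟨i₀, hi₀⟩ := Function.ne_iff.1 hv0
        have hi₀' : v i₀ ≠ 0 := hi₀
        have h1 := htop u i₀
        rw [hul', hb i₀, Polynomial.coeff_C_mul] at h1
        have h2 : ((1 + Polynomial.C b * Polynomial.X : Polynomial k) ^ (w i₀ * D)).coeff (w i₀ * D) =
            b ^ (w i₀ * D) := by
          have h3 : (1 + Polynomial.C b * Polynomial.X : Polynomial k).natDegree ≤ 1 := by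
            refine (Polynomial.natDegree_add_le _ _).trans (max_le ?_ ?_)
            · rw [Polynomial.natDegree_one]
              exact Nat.zero_le _
            · exact (Polynomial.natDegree_C_mul_le b _).trans Polynomial.natDegree_X_le
          have h4 := Polynomial.coeff_pow_of_natDegree_le (m := w i₀ * D) h3
          rw [mul_one] at h4
          rw [h4, Polynomial.coeff_add, Polynomial.coeff_one, if_neg one_ne_zero, zero_add,
            Polynomial.coeff_C_mul, Polynomial.coeff_X_one, mul_one]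
        rw [h2] at h1
        have hb0 : b = 0 := by
          rcases mul_eq_zero.1 h1 with h3 | h3
          · exact absurd h3 hi₀'
          · exact eq_zero_of_pow_eq_zero h3
        funext x
        have h3 := C3_coeff w D v u x.1 x.2
        rw [hb x.1, hb0, Polynomial.C_0, zero_mul, add_zero, one_pow, mul_one,
          Polynomial.coeff_C_succ] at h3
        exact h3.symm
      · exfalso
        obtain ⟨-, h1⟩ := hfam u hu hT
        obtain ⟨i, hi⟩ := h1 ![0, 1] (fun h => by
          have h2 := congrFun h 1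
          exact one_ne_zero h2)
        apply hi
        unfold hv
        rw [Finset.sum_eq_single (w i * D)]
        · rw [htop, hul', zero_mul, zero_mul]
        · intro j hj hne'
          rw [Finset.mem_range] at hj
          have h2 : (![0, 1] : Fin 2 → k) 0 = 0 := rfl
          rw [h2, zero_pow (by omega), mul_zero, zero_mul]
        · intro h
          exact absurd (Finset.mem_range.2 (Nat.lt_succ_self _)) h
    · intro q hq
      exact van_le hw hG hv0 hvS hc₀ 𝔮 (by rw [← hJd]; exact hJ𝔮) h𝔮0 hq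
    · rintro x ⟨i, rfl⟩
      refine ⟨v' i, ?_⟩
      show tr c₀ (MvPolynomial.X (last i) - MvPolynomial.C (v' i)) ∈ 𝔮
      have h1 : tr c₀ (MvPolynomial.X (last i) - MvPolynomial.C (v' i)) = y i := by
        unfold tr
        rw [map_sub, MvPolynomial.aeval_X, MvPolynomial.algHom_C, MvPolynomial.algebraMap_eq, hv', hy]
        exact add_sub_cancel_right _ _
      rw [h1]
      exact hy𝔮 i
  have hmax : 𝔮.IsMaximal := by
    have h1 : 𝔮 = (𝔮.comap (tr c₀).toRingHom).comap (tr (-c₀)).toRingHom := by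
      ext q
      rw [Ideal.mem_comap, Ideal.mem_comap]
      show q ∈ 𝔮 ↔ tr c₀ (tr (-c₀) q) ∈ 𝔮
      rw [C3_tr]
    rw [h1]
    refine Ideal.comap_isMaximal_of_surjective _ ?_
    intro q
    refine ⟨tr c₀ q, ?_⟩
    have h2 := C3_tr (-c₀) q
    rw [neg_neg] at h2
    exact h2
  have hcard : Fintype.card (Un w D) = (m + e) * D := by
    rw [Fintype.card_sigma, hm, Finset.sum_mul]
    exact Finset.sum_congr rfl fun i _ => Fintype.card_fin _
  have h1 := ht_max 𝔮
  rw [h1, hcard] at hht
  have h2 : (m + e) * D ≤ e * D + (n + 1 - c) := by exact_mod_cast hht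
  rw [add_mul] at h2
  omega

end Pool.Agent.Lib.MP_1e3e9c_agF
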