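import Mathlib
import Pool.Agent.Lib.MP_1e3e9c_agM.M11
import Pool.Agent.Lib.MP_1e3e9c_agF.B6
import Pool.Agent.Lib.MP_1e3e9c_agF.C3

/-!
# MP_1e3e9c_ag, project F, leaf I2: the least degree

PROOF. (1) `least_of_not_mn`: let `D₁` be the smallest number with `¬ Mn k w S D₁ v` (`Nat.find`); `D₁ > 0` (`Mn _ 0` is empty). `D = D₁ - 1`: `Mn k w S D v`. `¬ Mn k w S (D + 1) v`: there are `D' < D + 1` and a tuple `p`, `natDegree (p i) ≤ w i * D'`, `coeff 0 = v i` (`bc k v = v`), `aeval p P = 0`, `¬ Bi`; `D' < D` is impossible by `Mn k w S D v`, so `D' = D`.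
`p = crv w D v c` for the coefficient vector `c ⟨i, l⟩ = (p i).coeff (l + 1)`, and `c ∈ Cn w D S v` (`bi_of_const`, M2: if it were constant then `Bi`). `D > 0` because for `D = 0` the tuple is constant, `p i = C (v i)`, and `Bi` holds. (2) `lst_of_mn`: `Lst` (M11) first part: for `D' < D` and `p` with values in the zero set of `S` at all `t`, `val p 0 = v`: `aeval p P = 0` (`Polynomial.funext`), `Bi w v p`
by `Mn`; evaluate the polynomial identities of `Bi` at `t` and apply `orbit` (M1; `Gc w v` by `hG` at `v`). (3) `least_lst`: from (1) in characteristic zero and `lst_dim` (B5), `two_le` (B6), `deg_bound` (C3; `m * D + c ≤ n + 1`, `0 < m`, so `D ≤ n + 1`).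
-/

set_option autoImplicit false

namespace Pool.Agent.Lib.MP_1e3e9c_agF

open Pool.Agent.Lib.MP_1e3e9c_agR Pool.Agent.Lib.MP_1e3e9c_agM

private theorem I2_crv {k : Type} [Field k] {n D : ℕ} {w : Fin (n + 1) → ℕ} {v : Fin (n + 1) → k}
    {p : Fin (n + 1) → Polynomial k} (hp : ∀ i, (p i).natDegree ≤ w i * D) (h0 : ∀ i, (p i).coeff 0 = v i)
    (i : Fin (n + 1)) : crv w D v (fun a : Un w D => (p a.1).coeff (a.2.val + 1)) i = p i := by
  have h1 := Polynomial.as_sum_range_C_mul_X_pow' (p i) (Nat.lt_succ_iff.2 (hp i))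
  rw [Finset.sum_range_succ', h0, pow_zero, mul_one] at h1
  unfold crv
  rw [Finset.sum_range] at h1
  rw [add_comm]
  exact h1.symm

private theorem I2_orb {k : Type} [Field k] {n : ℕ} {w : Fin (n + 1) → ℕ}
    (hw : ∀ i, 0 < w i) {S : Set (MvPolynomial (Fin (n + 1)) k)} {v : Fin (n + 1) → k}
    (hv0 : v ≠ 0) (hvS : ∀ P ∈ S, MvPolynomial.eval v P = 0) (hG : Gp k w S)
    {p : Fin (n + 1) → Polynomial k} (h : Bi w (bc k v) p) (t : k) :
    ∃ a : k, ∀ i, (p i).eval t = a ^ w i * v i := by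
  have hg : Gc w v := hG v hv0 fun P hP => by
    rw [MvPolynomial.aeval_eq_eval]
    exact hvS P hP
  refine orbit (z := fun i => (p i).eval t) hw hv0 hg fun i j => ?_
  have h1 := congrArg (Polynomial.eval t) (h i j)
  rw [Polynomial.eval_mul, Polynomial.eval_mul, Polynomial.eval_pow, Polynomial.eval_pow, Polynomial.eval_C,
    Polynomial.eval_C] at h1
  exact h1

private theorem I2_aeval {k : Type} [Field k] [Infinite k] {n : ℕ} {p : Fin (n + 1) → Polynomial k}
    {P : MvPolynomial (Fin (n + 1)) k} (h : ∀ t, MvPolynomial.eval (val p t) P = 0) :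
    MvPolynomial.aeval p P = 0 := by
  apply Polynomial.funext
  intro t
  rw [← eval_val, h t, Polynomial.eval_zero]

theorem least_of_not_mn {k : Type} [Field k] [IsAlgClosed k] {n : ℕ} {w : Fin (n + 1) → ℕ}
    (hw : ∀ i, 0 < w i) {S : Set (MvPolynomial (Fin (n + 1)) k)} {v : Fin (n + 1) → k}
    (h : ¬ ∀ D, Mn k w S D v) : ∃ D, 0 < D ∧ Mn k w S D v ∧ (Cn w D S v).Nonempty := by
  classical
  have hinf : Infinite k := IsAlgClosed.instInfinite
  have hex : ∃ D, ¬ Mn k w S D v := by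
    by_contra h1
    push Not at h1
    exact h h1
  obtain ⟨D₁, hD₁⟩ : ∃ D₁, D₁ = Nat.find hex := ⟨_, rfl⟩
  have hn : ¬ Mn k w S D₁ v := by
    rw [hD₁]
    exact Nat.find_spec hex
  have hmin : ∀ E < D₁, Mn k w S E v := by
    intro E hE
    rw [hD₁] at hE
    exact not_not.1 (Nat.find_min hex hE)
  have h1 : D₁ ≠ 0 := by
    rintro rfl
    exact hn fun D' hD' => absurd hD' (Nat.not_lt_zero _)
  obtain ⟨D, rfl⟩ := Nat.exists_eq_succ_of_ne_zero h1
  have hM : Mn k w S D v := hmin D (Nat.lt_succ_self D)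
  have h2 : ∃ D' < D + 1, ∃ p : Fin (n + 1) → Polynomial k, (∀ i, (p i).natDegree ≤ w i * D') ∧
      (∀ i, (p i).coeff 0 = bc k v i) ∧ (∀ P ∈ S, MvPolynomial.aeval p P = 0) ∧ ¬ Bi w (bc k v) p := by
    by_contra h3
    refine hn fun D' hD' p hp h0 hP => ?_
    by_contra hB
    exact h3 ⟨D', hD', p, hp, h0, hP, hB⟩
  obtain ⟨D', hD', p, hp, h0, hP, hB⟩ := h2
  have h3 : D' = D := by
    by_contra hne
    exact hB (hM D' (by omega) p hp h0 hP)
  subst h3
  have h0' : ∀ i, (p i).coeff 0 = v i := h0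
  have hc := I2_crv hp h0'
  have hcf : crv w D' v (fun a : Un w D' => (p a.1).coeff (a.2.val + 1)) = p := funext hc
  refine ⟨D', ?_, hM, ⟨fun a : Un w D' => (p a.1).coeff (a.2.val + 1), ?_, ?_⟩⟩
  · rw [Nat.pos_iff_ne_zero]
    rintro rfl
    apply hB
    have h4 : ∀ i, p i = Polynomial.C (v i) := by
      intro i
      have h5 := Polynomial.eq_C_of_natDegree_le_zero (p := p i) (by simpa using hp i)
      rw [h0' i] at h5
      exact h5
    intro i j
    rw [h4 i, h4 j]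
    show Polynomial.C (v i) ^ w j * Polynomial.C (v j ^ w i) = Polynomial.C (v j) ^ w i * Polynomial.C (v i ^ w j)
    rw [Polynomial.C_pow, Polynomial.C_pow, mul_comm]
  · intro t P hPS
    rw [hcf, eval_val, hP P hPS, Polynomial.eval_zero]
  · intro hcon
    rw [hcf] at hcon
    exact hB (bi_of_const hcon)

theorem not_mn_of_cn {k : Type} [Field k] [IsAlgClosed k] {n D : ℕ} {w : Fin (n + 1) → ℕ}
    (hw : ∀ i, 0 < w i) {S : Set (MvPolynomial (Fin (n + 1)) k)} {v : Fin (n + 1) → k}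
    (hv0 : v ≠ 0) (hvS : ∀ P ∈ S, MvPolynomial.eval v P = 0) (hG : Gp k w S)
    (h : (Cn w D S v).Nonempty) : ¬ ∀ D, Mn k w S D v := by
  have hinf : Infinite k := IsAlgClosed.instInfinite
  intro hall
  obtain ⟨c, hc, hnc⟩ := h
  refine hnc fun t => I2_orb hw hv0 hvS hG ?_ t
  refine hall (D + 1) D (Nat.lt_succ_self D) (crv w D v c) (natDegree_crv v c) (fun i => ?_) fun P hP =>
    I2_aeval fun t => hc t P hP
  show (crv w D v c i).coeff 0 = v i
  unfold crv
  rw [Polynomial.coeff_add, Polynomial.coeff_C_zero, Polynomial.finsetSum_coeff, Finset.sum_eq_zero, add_zero]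
  intro l _
  rw [Polynomial.coeff_C_mul, Polynomial.coeff_X_pow, if_neg (by omega), mul_zero]

theorem lst_of_mn {k : Type} [Field k] [IsAlgClosed k] {n D M : ℕ} {w : Fin (n + 1) → ℕ}
    (hw : ∀ i, 0 < w i) {S : Set (MvPolynomial (Fin (n + 1)) k)} {v : Fin (n + 1) → k}
    (hv0 : v ≠ 0) (hvS : ∀ P ∈ S, MvPolynomial.eval v P = 0) (hG : Gp k w S)
    (h : Mn k w S D v)
    (hd : (M : WithBot ℕ∞) ≤
      ringKrullDim (MvPolynomial (Un w D) k ⧸ MvPolynomial.vanishingIdeal k (Cn w D S v))) :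
    Lst w S D M v := by
  have hinf : Infinite k := IsAlgClosed.instInfinite
  refine ⟨fun D' hD' p hp h0 hP t => ?_, hd⟩
  refine I2_orb hw hv0 hvS hG ?_ t
  refine h D' hD' p hp (fun i => ?_) fun P hPS => I2_aeval fun t => hP t P hPS
  have h1 := congrFun h0 i
  rw [Polynomial.coeff_zero_eq_eval_zero]
  exact h1

theorem least_lst {k : Type} [Field k] [IsAlgClosed k] [CharZero k] {n c e m : ℕ}
    {w : Fin (n + 1) → ℕ} (hw : ∀ i, 0 < w i) {S : Set (MvPolynomial (Fin (n + 1)) k)}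
    (hS : ∀ P ∈ S, ∃ m, P.IsWeightedHomogeneous w m) (hsm : Sm S c) (hG : Gp k w S)
    {ψ : (Fin c → Fin (n + 1)) → MvPolynomial (Fin (n + 1)) k} (hψ : Cnl w S c e ψ)
    (hm : m + e = ∑ i, w i) (hm0 : 0 < m) {v : Fin (n + 1) → k} (hv0 : v ≠ 0)
    (hvS : ∀ P ∈ S, MvPolynomial.eval v P = 0) (h : ¬ ∀ D, Mn k w S D v) :
    ∃ D, 0 < D ∧ D ≤ n + 1 ∧ Lst w S D (max (m * D) 2) v := by
  obtain ⟨D, hD, hM, hne⟩ := least_of_not_mn hw h
  have h1 := lst_dim hw hS hsm hG hψ hm hv0 hvS hM hne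
  have h2 := two_le hw hS hv0 hne
  have h3 := deg_bound hw hS hsm hG hψ hm hv0 hvS hM hne
  refine ⟨D, hD, ?_, lst_of_mn hw hv0 hvS hG hM ?_⟩
  · have h4 : 1 * D ≤ m * D := Nat.mul_le_mul_right D hm0
    omega
  · rcases le_total (m * D) 2 with h4 | h4
    · rw [max_eq_right h4]
      exact_mod_cast h2
    · rw [max_eq_left h4]
      exact h1

end Pool.Agent.Lib.MP_1e3e9c_agF
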