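import Mathlib
import Pool.Agent.Lib.MP_1e3e9c_agR.RDefs

/-!
# MP_1e3e9c_ag, project F, leaf I3: a finite union

PROOF. `wdm w T = ringKrullDim (R ⧸ vanishingIdeal (cone T))`, `cone T = {x | ∃ a ≠ 0, ∃ v ∈ T, x = a^w v}`. `cone T ⊆ ⋃_(D = 1)^M cone (T ∩ Q D)`, so `⨅ I_D ≤ vanishingIdeal (cone T) =: I`, `I_D = vanishingIdeal (cone (T ∩ Q D))`, `D ∈ Finset.Icc 1 M`. `N ≤ ringKrullDim (R ⧸ I)` gives (`N` finite; `Order.le_krullDim_iff` or `Ideal.primeHeight`..) a chain of primes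
`𝔭_0 < ... < 𝔭_N` of `R` containing `I`. `𝔭_0 ≥ ⨅ I_D`, a finite infimum, so `𝔭_0 ≥ I_D` for some `D` (`Ideal.IsPrime.inf_le'`; the finite set is not empty, because otherwise `⨅ = ⊤ ≤ 𝔭_0`), and the chain is in `R ⧸ I_D`: `N ≤ ringKrullDim (R ⧸ I_D)`.
-/

set_option autoImplicit false

namespace Pool.Agent.Lib.MP_1e3e9c_agF

open Pool.Agent.Lib.MP_1e3e9c_agR

private theorem I3_mono {k : Type} [Field k] {n : ℕ} {B C : Set (Fin (n + 1) → k)} (h : B ⊆ C) : dm B ≤ dm C := by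
  have h1 : MvPolynomial.vanishingIdeal k C ≤ MvPolynomial.vanishingIdeal k B :=
    MvPolynomial.vanishingIdeal_anti_mono h
  exact ringKrullDim_le_of_surjective (Ideal.Quotient.factor h1) (Ideal.Quotient.factor_surjective h1)

private theorem I3_iUnion {k : Type} [Field k] {n : ℕ} {ι : Type} [Finite ι] (B : ι → Set (Fin (n + 1) → k)) (m : ℕ)
    (h : (m : WithBot ℕ∞) ≤ dm (⋃ i, B i)) : ∃ i, (m : WithBot ℕ∞) ≤ dm (B i) := by
  obtain ⟨hF⟩ := nonempty_fintype ι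
  unfold dm at h ⊢
  rw [ringKrullDim_quotient] at h
  obtain ⟨p, hp⟩ := Order.le_krullDim_iff.1 h
  have hinf : Finset.univ.inf (fun i => MvPolynomial.vanishingIdeal k (B i)) ≤
      p.head.1.asIdeal := by
    refine le_trans ?_ ((PrimeSpectrum.mem_zeroLocus _ _).1 p.head.2)
    intro q hq
    rw [MvPolynomial.mem_vanishingIdeal_iff]
    intro x hx
    obtain ⟨i, hi⟩ := Set.mem_iUnion.1 hx
    exact MvPolynomial.mem_vanishingIdeal_iff.1
      ((Finset.inf_le (f := fun i => MvPolynomial.vanishingIdeal k (B i)) (Finset.mem_univ i)) hq) x hi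
  obtain ⟨i, -, hi⟩ := (Ideal.IsPrime.inf_le' p.head.1.isPrime).1 hinf
  have hmem : ∀ j, (p j).1 ∈ PrimeSpectrum.zeroLocus
      (MvPolynomial.vanishingIdeal k (B i) : Set (MvPolynomial (Fin (n + 1)) k)) := by
    intro j
    rw [PrimeSpectrum.mem_zeroLocus]
    have h1 : p.head ≤ p j := LTSeries.head_le p j
    exact fun q hq => h1 (hi hq)
  refine ⟨i, ?_⟩
  rw [ringKrullDim_quotient, Order.le_krullDim_iff]
  exact ⟨LTSeries.mk p.length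
    (fun j => (⟨(p j).1, hmem j⟩ : PrimeSpectrum.zeroLocus
      (MvPolynomial.vanishingIdeal k (B i) : Set (MvPolynomial (Fin (n + 1)) k))))
    (fun a b hab => p.strictMono hab), hp⟩

theorem wdm_union {k : Type} [Field k] {n N M : ℕ} {w : Fin (n + 1) → ℕ}
    {T : Set (Fin (n + 1) → k)} (Q : ℕ → Set (Fin (n + 1) → k))
    (hT : ∀ x ∈ T, ∃ D, 0 < D ∧ D ≤ M ∧ x ∈ Q D) (hN : (N : WithBot ℕ∞) ≤ wdm w T) :
    ∃ D, 0 < D ∧ (N : WithBot ℕ∞) ≤ wdm w (T ∩ Q D) := by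
  have hle : (N : WithBot ℕ∞) ≤ dm (⋃ D : Fin M, {x | ∃ a : k, a ≠ 0 ∧ ∃ v ∈ T ∩ Q (D + 1), x = fun i => a ^ w i * v i}) := by
    refine hN.trans (I3_mono ?_)
    rintro x ⟨a, ha, v, hv, hx⟩
    obtain ⟨D, hD0, hDM, hQ⟩ := hT v hv
    refine Set.mem_iUnion.2 ⟨⟨D - 1, by omega⟩, a, ha, v, ⟨hv, ?_⟩, hx⟩
    have h1 : D - 1 + 1 = D := by omega
    show v ∈ Q (D - 1 + 1)
    rw [h1]
    exact hQ
  obtain ⟨D, hD⟩ := I3_iUnion _ N hle
  exact ⟨D + 1, Nat.succ_pos _, hD⟩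

theorem dm_le_wdm {k : Type} [Field k] {n : ℕ} {w : Fin (n + 1) → ℕ}
    {A T : Set (Fin (n + 1) → k)} (h : A ⊆ T) : dm A ≤ wdm w T := by
  refine I3_mono fun x hx => ?_
  exact ⟨1, one_ne_zero, x, h hx, funext fun i => by rw [one_pow, one_mul]⟩

end Pool.Agent.Lib.MP_1e3e9c_agF
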