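import Mathlib
import Pool.Agent.Lib.MP_1e3e9c_agM.MDefs
import Pool.Agent.Lib.MP_1e3e9c_agR.CDefs

/-!
# MP_1e3e9c_ag, project F, leaf I5: double covers over curves of degree one

PROOF. `E` is weighted homogeneous of weight `2` for the weights `(1, w)`, all `w i ≥ 1`: `E = α t² + β(x) t + γ(x)`, `α ∈ k`, `β`, `γ` weighted homogeneous of weights `1`, `2` (`t = X 0`, `x_i = X i.succ`). Let `f i = crv w 1 v c i`, `c ∈ Cn w 1 S v`: `natDegree (f i) ≤ w i`, values in the zero set of `S`, not constant. On the curve: `B = aeval f β`, `natDegree B ≤ 1`,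
`C = aeval f γ`, `natDegree C ≤ 2`. At `s = 0` (the point `v`): `E(t₀, v) = 0` and `2 α t₀ + β(v) ≠ 0`. For a polynomial curve `(T(τ), X(τ))` over `k` with `X i = λ(τ)^(w i) f i (s(τ))`, `s = a(τ)/λ(τ)` a rational function and `T = λ(τ) y(τ)` with `α y² + B(s) y + C(s) = 0` the values are in the zero set of `coneS S` (weighted homogeneous) and of `E`.
It is not constant in the sense of `HasRat` if `s(τ)` is not constant, because `f` is not constant: there are `s₁, s₂` with `f(s₁)`, `f(s₂)` not `Same` and nonzero (`f` not constant: by `Cn` there is `t` with `f(t) ≠ a^w v` for all `a`, so `f(t) ≠ 0`; take `s₁ = 0`, `s₂ = t`, values `v`, `f(t)`; if one of them has to be avoided (a zero of `λ`), use that there are infinitely many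
`t` with `f(t)` not a multiple of `v`: the set of the `t` where it is a multiple is Zariski closed, `orbit` of M1 is not needed: if `f(t) = a^w v` for infinitely many `t` then the binomials `f_i^(w_j) v_j^(w_i) - f_j^(w_i) v_i^(w_j)` vanish identically; so at least one of them is a nonzero polynomial, and at all `t` outside its zeros `f(t)` is not a multiple of `v`. If `s = 0` is not among the values allowed, take two values
`t₁ ≠ t₂` outside and compare: f has infinitely many different values in `P(w)`, as otherwise it is constant. Or choose the parametrization with `s(0) = 0` and `λ(0) ≠ 0`.) The cases: (a) `α = 0`: `B(0) = β(v) ≠ 0`: `λ = B(s)`, `X i = B^(w i) f i`, `T = - C`. (`α = 0`, `y = - C / B`.) (b) `α ≠ 0`, `Δ = B² - 4 α C`, `natDegree Δ ≤ 2`, `Δ(0) = (2 α t₀ + β(v))² ≠ 0`, `y = (-B + √Δ) / (2 α)`.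
`Δ` constant or a square of a polynomial `δ`: `s = τ`, `λ = 1`, `T = (-B + δ)/(2 α)`. `Δ = p s + q`, `p ≠ 0`: `s = (τ² - q)/p`, `√Δ = τ`, `λ = 1` (`s = 0` at `τ = √q`). `Δ = p (s - a)(s - b)`, `a ≠ b`, `p ≠ 0`: `s = (a - b τ²)/(1 - τ²)`, `λ = 1 - τ²`, `√Δ = √p (a - b) τ / (1 - τ²)`, `X i = λ^(w i) f i (s)` (a polynomial in `τ` as `natDegree (f i) ≤ w i`),
`T = (- λ B(s) + √p (a - b) τ)/(2 α)` (`λ B(s)` is a polynomial: `natDegree B ≤ 1`); `s = 0` for `τ² = a / b` (`a, b ≠ 0` because `Δ(0) ≠ 0`), where `λ ≠ 0`.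
-/

set_option autoImplicit false

namespace Pool.Agent.Lib.MP_1e3e9c_agF

open Pool.Agent.Lib.MP_1e3e9c_agR Pool.Agent.Lib.MP_1e3e9c_agM

private theorem I5_der {k : Type} [Field k] {n : ℕ} (u : Fin (n + 1) → k)
    (E : MvPolynomial (Fin (n + 1 + 1)) k) :
    Polynomial.derivative (MvPolynomial.aeval
      (Fin.cons Polynomial.X (fun i => Polynomial.C (u i)) : Fin (n + 1 + 1) → Polynomial k) E) =
      MvPolynomial.aeval
        (Fin.cons Polynomial.X (fun i => Polynomial.C (u i)) : Fin (n + 1 + 1) → Polynomial k)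
        (MvPolynomial.pderiv 0 E) := by
  induction E using MvPolynomial.induction_on with
  | C a =>
    rw [MvPolynomial.aeval_C, MvPolynomial.pderiv_C, map_zero]
    exact Polynomial.derivative_C
  | add p q hp hq => rw [map_add, map_add, map_add, map_add, hp, hq]
  | mul_X p i hp =>
    rw [map_mul, Polynomial.derivative_mul, hp, MvPolynomial.aeval_X, Derivation.leibniz,
      smul_eq_mul, smul_eq_mul, map_add, map_mul, map_mul, MvPolynomial.aeval_X,
      MvPolynomial.pderiv_X]
    refine Fin.cases ?_ (fun j => ?_) i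
    · rw [Fin.cons_zero, Polynomial.derivative_X, Pi.single_eq_same, map_one]
      ring
    · rw [Fin.cons_succ, Polynomial.derivative_C, Pi.single_eq_of_ne (Fin.succ_ne_zero j), map_zero]
      ring

/-- the quadratic case of the conic: `Δ = d2 (s - a)(s - b)`, `a ≠ b` -/
private theorem I5_hyp {k : Type} [Field k] [IsAlgClosed k] {p a b t : k}
    (hab : a ≠ b) (hb : b ≠ 0) (ht : t ≠ b) {d2 d1 d0 : k}
    (hd : ∀ x y : k, d2 * x ^ 2 + d1 * x * y + d0 * y ^ 2 = p * (x - a * y) * (x - b * y)) :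
    ∃ l A R : Polynomial k, (∀ τ, R.eval τ ^ 2 = d2 * A.eval τ ^ 2 + d1 * A.eval τ * l.eval τ +
      d0 * l.eval τ ^ 2) ∧ (∃ τ, l.eval τ ≠ 0 ∧ A.eval τ / l.eval τ = 0) ∧
      ∃ τ, l.eval τ ≠ 0 ∧ A.eval τ / l.eval τ = t := by
  obtain ⟨q, hq⟩ := IsAlgClosed.exists_pow_nat_eq p (n := 2) two_pos
  obtain ⟨u, hu⟩ := IsAlgClosed.exists_pow_nat_eq (a / b) (n := 2) two_pos
  obtain ⟨v, hv⟩ := IsAlgClosed.exists_pow_nat_eq ((a - t) / (b - t)) (n := 2) two_pos
  have hbt : b - t ≠ 0 := sub_ne_zero.2 ht.symm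
  have hba : b - a ≠ 0 := sub_ne_zero.2 hab.symm
  refine ⟨1 - Polynomial.X ^ 2, Polynomial.C a - Polynomial.C b * Polynomial.X ^ 2,
    Polynomial.C (q * (a - b)) * Polynomial.X, ?_, ⟨u, ?_, ?_⟩, ⟨v, ?_, ?_⟩⟩
  · intro τ
    simp only [Polynomial.eval_sub, Polynomial.eval_mul, Polynomial.eval_C, Polynomial.eval_X,
      Polynomial.eval_pow, Polynomial.eval_one]
    rw [hd, ← hq]
    ring
  · simp only [Polynomial.eval_sub, Polynomial.eval_X, Polynomial.eval_pow, Polynomial.eval_one]
    rw [hu]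
    have e : 1 - a / b = (b - a) / b := by
      field_simp
    rw [e]
    exact div_ne_zero hba hb
  · simp only [Polynomial.eval_sub, Polynomial.eval_mul, Polynomial.eval_C, Polynomial.eval_X,
      Polynomial.eval_pow, Polynomial.eval_one]
    rw [hu]
    have e : a - b * (a / b) = 0 := by
      field_simp
      ring
    rw [e, zero_div]
  · simp only [Polynomial.eval_sub, Polynomial.eval_X, Polynomial.eval_pow, Polynomial.eval_one]
    rw [hv]
    have e : 1 - (a - t) / (b - t) = (b - a) / (b - t) := by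
      field_simp
      ring
    rw [e]
    exact div_ne_zero hba hbt
  · simp only [Polynomial.eval_sub, Polynomial.eval_mul, Polynomial.eval_C, Polynomial.eval_X,
      Polynomial.eval_pow, Polynomial.eval_one]
    rw [hv]
    have e : 1 - (a - t) / (b - t) = (b - a) / (b - t) := by
      field_simp
      ring
    have e2 : a - b * ((a - t) / (b - t)) = t * ((b - a) / (b - t)) := by
      field_simp
      ring
    rw [e, e2, mul_div_assoc, div_self (div_ne_zero hba hbt), mul_one]

/-- the square root of a form of degree two -/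
private theorem I5_disc {k : Type} [Field k] [IsAlgClosed k] [CharZero k] {t d2 d1 d0 : k}
    (h0 : d0 ≠ 0) :
    ∃ l A R : Polynomial k, (∀ τ, R.eval τ ^ 2 = d2 * A.eval τ ^ 2 + d1 * A.eval τ * l.eval τ +
      d0 * l.eval τ ^ 2) ∧ (∃ τ, l.eval τ ≠ 0 ∧ A.eval τ / l.eval τ = 0) ∧
      ∃ τ, l.eval τ ≠ 0 ∧ A.eval τ / l.eval τ = t := by
  by_cases h2 : d2 = 0
  · by_cases h1 : d1 = 0
    · obtain ⟨q, hq⟩ := IsAlgClosed.exists_pow_nat_eq d0 (n := 2) two_pos
      refine ⟨1, Polynomial.X, Polynomial.C q, ?_, ⟨0, by simp, by simp⟩, ⟨t, by simp, by simp⟩⟩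
      intro τ
      simp only [Polynomial.eval_C, Polynomial.eval_X, Polynomial.eval_one]
      rw [hq, h1, h2]
      ring
    · obtain ⟨u, hu⟩ := IsAlgClosed.exists_pow_nat_eq d0 (n := 2) two_pos
      obtain ⟨v, hv⟩ := IsAlgClosed.exists_pow_nat_eq (d1 * t + d0) (n := 2) two_pos
      refine ⟨1, Polynomial.C (1 / d1) * (Polynomial.X ^ 2 - Polynomial.C d0), Polynomial.X, ?_,
        ⟨u, by simp, ?_⟩, ⟨v, by simp, ?_⟩⟩
      · intro τ
        simp only [Polynomial.eval_sub, Polynomial.eval_mul, Polynomial.eval_C, Polynomial.eval_X,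
          Polynomial.eval_pow, Polynomial.eval_one]
        rw [h2]
        field_simp
        ring
      · simp only [Polynomial.eval_sub, Polynomial.eval_mul, Polynomial.eval_C, Polynomial.eval_X,
          Polynomial.eval_pow, Polynomial.eval_one]
        rw [hu]
        simp
      · simp only [Polynomial.eval_sub, Polynomial.eval_mul, Polynomial.eval_C, Polynomial.eval_X,
          Polynomial.eval_pow, Polynomial.eval_one]
        rw [hv]
        field_simp
        ring
  · obtain ⟨r, hr⟩ := IsAlgClosed.exists_pow_nat_eq (d1 ^ 2 - 4 * d2 * d0) (n := 2) two_pos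
    have hd : ∀ x y : k, d2 * x ^ 2 + d1 * x * y + d0 * y ^ 2 =
        d2 * (x - (-d1 + r) / (2 * d2) * y) * (x - (-d1 - r) / (2 * d2) * y) := by
      intro x y
      field_simp
      linear_combination (y ^ 2) * hr
    by_cases hr0 : r = 0
    · obtain ⟨q, hq⟩ := IsAlgClosed.exists_pow_nat_eq d2 (n := 2) two_pos
      refine ⟨1, Polynomial.X, Polynomial.C q * (Polynomial.X - Polynomial.C ((-d1) / (2 * d2))), ?_,
        ⟨0, by simp, by simp⟩, ⟨t, by simp, by simp⟩⟩
      intro τ
      simp only [Polynomial.eval_sub, Polynomial.eval_mul, Polynomial.eval_C, Polynomial.eval_X,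
        Polynomial.eval_one]
      rw [hd, hr0, mul_pow, hq]
      ring
    · have hab : (-d1 + r) / (2 * d2) ≠ (-d1 - r) / (2 * d2) := by
        intro h
        have h3 : (-d1 + r) = (-d1 - r) := by
          have h4 : (2 * d2) ≠ 0 := mul_ne_zero two_ne_zero h2
          exact (div_left_inj' h4).1 h
        have h4 : 2 * r = 0 := by linear_combination h3
        rcases mul_eq_zero.1 h4 with h5 | h5
        · exact two_ne_zero h5
        · exact hr0 h5
      have hprod : d2 * ((-d1 + r) / (2 * d2)) * ((-d1 - r) / (2 * d2)) = d0 := by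
        have h5 := hd 0 1
        linear_combination -h5
      have ha : (-d1 + r) / (2 * d2) ≠ 0 := by
        intro h
        apply h0
        rw [← hprod, h]
        ring
      have hb : (-d1 - r) / (2 * d2) ≠ 0 := by
        intro h
        apply h0
        rw [← hprod, h]
        ring
      by_cases ht : t = (-d1 - r) / (2 * d2)
      · have ht' : t ≠ (-d1 + r) / (2 * d2) := fun h => hab (h.symm.trans ht)
        exact I5_hyp hab.symm ha ht' fun x y => by rw [hd x y]; ring
      · exact I5_hyp hab hb ht hd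

/-- parametrization of a conic over a line -/
private theorem I5_conic {k : Type} [Field k] [IsAlgClosed k] [CharZero k] (α b1 b0 c2 c1 c0 t u : k)
    (h0 : α * u ^ 2 + b0 * u + c0 = 0) (h1 : 2 * α * u + b0 ≠ 0) :
    ∃ l A T : Polynomial k, (∀ τ, l.eval τ ≠ 0 → α * (T.eval τ / l.eval τ) ^ 2 +
        (b1 * (A.eval τ / l.eval τ) + b0) * (T.eval τ / l.eval τ) +
        (c2 * (A.eval τ / l.eval τ) ^ 2 + c1 * (A.eval τ / l.eval τ) + c0) = 0) ∧
      (∃ τ, l.eval τ ≠ 0 ∧ A.eval τ / l.eval τ = 0) ∧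
      ((∃ τ, l.eval τ ≠ 0 ∧ A.eval τ / l.eval τ = t) ∨
        ∃ τ, l.eval τ = 0 ∧ A.eval τ = 0 ∧ T.eval τ ≠ 0) := by
  by_cases hα : α = 0
  · subst hα
    have hb0 : b0 ≠ 0 := by
      intro h
      apply h1
      rw [h]
      ring
    by_cases hB : b1 * t + b0 = 0
    · by_cases hC : c2 * t ^ 2 + c1 * t + c0 = 0
      · have hb1 : b1 ≠ 0 := by
          intro h
          apply hb0
          rw [h] at hB
          linear_combination hB
        refine ⟨1, Polynomial.X, Polynomial.C (-1 / b1) * (Polynomial.C c2 *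
          (Polynomial.X + Polynomial.C t) + Polynomial.C c1), ?_, ⟨0, by simp, by simp⟩,
          Or.inl ⟨t, by simp, by simp⟩⟩
        intro τ _
        simp only [Polynomial.eval_add, Polynomial.eval_mul, Polynomial.eval_C, Polynomial.eval_X,
          Polynomial.eval_one, div_one]
        have e1 : b0 = - b1 * t := by linear_combination hB
        have e2 : c0 = - c2 * t ^ 2 - c1 * t := by linear_combination hC
        rw [e1, e2]
        field_simp
        ring
      · refine ⟨Polynomial.C b1 * Polynomial.X + Polynomial.C b0,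
          Polynomial.X * (Polynomial.C b1 * Polynomial.X + Polynomial.C b0),
          - (Polynomial.C c2 * Polynomial.X ^ 2 + Polynomial.C c1 * Polynomial.X + Polynomial.C c0),
          ?_, ⟨0, by simp [hb0], by simp⟩, Or.inr ⟨t, by simp [hB], by simp [hB], ?_⟩⟩
        · intro τ hτ
          simp only [Polynomial.eval_add, Polynomial.eval_mul, Polynomial.eval_C, Polynomial.eval_X,
            Polynomial.eval_pow, Polynomial.eval_neg] at hτ ⊢
          rw [mul_div_cancel_right₀ _ hτ, mul_div_cancel₀ _ hτ]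
          ring
        · simp only [Polynomial.eval_add, Polynomial.eval_mul, Polynomial.eval_C, Polynomial.eval_X,
            Polynomial.eval_pow, Polynomial.eval_neg]
          exact neg_ne_zero.2 hC
    · refine ⟨Polynomial.C b1 * Polynomial.X + Polynomial.C b0,
          Polynomial.X * (Polynomial.C b1 * Polynomial.X + Polynomial.C b0),
          - (Polynomial.C c2 * Polynomial.X ^ 2 + Polynomial.C c1 * Polynomial.X + Polynomial.C c0),
          ?_, ⟨0, by simp [hb0], by simp⟩, Or.inl ⟨t, by simp [hB], ?_⟩⟩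
      · intro τ hτ
        simp only [Polynomial.eval_add, Polynomial.eval_mul, Polynomial.eval_C, Polynomial.eval_X,
          Polynomial.eval_pow, Polynomial.eval_neg] at hτ ⊢
        rw [mul_div_cancel_right₀ _ hτ, mul_div_cancel₀ _ hτ]
        ring
      · simp only [Polynomial.eval_add, Polynomial.eval_mul, Polynomial.eval_C, Polynomial.eval_X]
        exact mul_div_cancel_right₀ _ hB
  · have hd0 : b0 ^ 2 - 4 * α * c0 ≠ 0 := by
      have e : b0 ^ 2 - 4 * α * c0 = (2 * α * u + b0) ^ 2 := by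
        linear_combination (-4 * α) * h0
      rw [e]
      exact pow_ne_zero 2 h1
    obtain ⟨l, A, R, hR, hz, ht⟩ := I5_disc (t := t) (d2 := b1 ^ 2 - 4 * α * c2)
      (d1 := 2 * b1 * b0 - 4 * α * c1) hd0
    refine ⟨l, A, Polynomial.C (1 / (2 * α)) * (R - (Polynomial.C b1 * A + Polynomial.C b0 * l)), ?_, hz,
      Or.inl ht⟩
    intro τ hτ
    simp only [Polynomial.eval_add, Polynomial.eval_sub, Polynomial.eval_mul, Polynomial.eval_C]
    have h3 := hR τ
    field_simp
    linear_combination h3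

/-- the form of a function of two variables -/
private def I5_Q {k : Type} [Field k] (F : k → k → k) : Prop :=
  ∃ α b1 b0 c2 c1 c0 : k, ∀ s y, F s y = α * y ^ 2 + (b1 * s + b0) * y + (c2 * s ^ 2 + c1 * s + c0)

private theorem I5_Qsum {k σ : Type} [Field k] (X : Finset σ) (F : σ → k → k → k)
    (h : ∀ d ∈ X, I5_Q (F d)) : I5_Q fun s y => ∑ d ∈ X, F d s y := by
  classical
  induction X using Finset.induction_on with
  | empty =>
    refine ⟨0, 0, 0, 0, 0, 0, fun s y => ?_⟩
    simp
  | insert d X hd ih =>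
    obtain ⟨α, b1, b0, c2, c1, c0, h1⟩ := h d (Finset.mem_insert_self d X)
    obtain ⟨α', b1', b0', c2', c1', c0', h2⟩ := ih fun d' hd' => h d' (Finset.mem_insert_of_mem hd')
    refine ⟨α + α', b1 + b1', b0 + b0', c2 + c2', c1 + c1', c0 + c0', fun s y => ?_⟩
    have h3 : ∑ d' ∈ X, F d' s y = α' * y ^ 2 + (b1' * s + b0') * y + (c2' * s ^ 2 + c1' * s + c0') :=
      h2 s y
    show ∑ d' ∈ insert d X, F d' s y = _
    rw [Finset.sum_insert hd, h1, h3]
    ring

private theorem I5_Qmon {k : Type} [Field k] (c : k) (a : ℕ) (g : Polynomial k)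
    (h : a + g.natDegree ≤ 2) : I5_Q fun s y => c * (y ^ a * g.eval s) := by
  have hg : ∀ m : ℕ, g.natDegree ≤ m → ∀ s, g.eval s = ∑ i ∈ Finset.range (m + 1), g.coeff i * s ^ i :=
    fun m hm s => Polynomial.eval_eq_sum_range' (Nat.lt_succ_of_le hm) s
  rcases (by omega : a = 0 ∨ a = 1 ∨ a = 2) with rfl | rfl | rfl
  · refine ⟨0, 0, 0, c * g.coeff 2, c * g.coeff 1, c * g.coeff 0, fun s y => ?_⟩
    show c * (y ^ 0 * g.eval s) = _
    rw [hg 2 (by omega) s]
    simp only [Finset.sum_range_succ, Finset.sum_range_zero]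
    ring
  · refine ⟨0, c * g.coeff 1, c * g.coeff 0, 0, 0, 0, fun s y => ?_⟩
    show c * (y ^ 1 * g.eval s) = _
    rw [hg 1 (by omega) s]
    simp only [Finset.sum_range_succ, Finset.sum_range_zero]
    ring
  · refine ⟨c * g.coeff 0, 0, 0, 0, 0, 0, fun s y => ?_⟩
    show c * (y ^ 2 * g.eval s) = _
    rw [hg 0 (by omega) s]
    simp only [Finset.sum_range_succ, Finset.sum_range_zero]
    ring

private theorem I5_form {k : Type} [Field k] {n : ℕ} {w : Fin (n + 1) → ℕ}
    {E : MvPolynomial (Fin (n + 1 + 1)) k} (hE : E.IsWeightedHomogeneous (cw 1 w) 2)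
    {f : Fin (n + 1) → Polynomial k} (hf : ∀ i, (f i).natDegree ≤ w i) :
    I5_Q fun s y => MvPolynomial.eval
      (Fin.cons y (fun i => (f i).eval s) : Fin (n + 1 + 1) → k) E := by
  have h1 : (fun s y : k => MvPolynomial.eval
      (Fin.cons y (fun i => (f i).eval s) : Fin (n + 1 + 1) → k) E) =
      fun s y => ∑ d ∈ E.support, (MvPolynomial.coeff d E) *
        (y ^ (d 0) * (∏ i : Fin (n + 1), (f i) ^ (d i.succ)).eval s) := by
    funext s y
    rw [MvPolynomial.eval_eq']
    refine Finset.sum_congr rfl fun d _ => ?_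
    rw [Fin.prod_univ_succ, Fin.cons_zero, Polynomial.eval_prod]
    simp only [Fin.cons_succ, Polynomial.eval_pow]
  rw [h1]
  refine I5_Qsum _ _ fun d hd => I5_Qmon _ _ _ ?_
  have h2 : Finsupp.weight (cw 1 w) d = 2 := hE (MvPolynomial.mem_support_iff.1 hd)
  have h3 : ∑ i, d i * (cw 1 w) i = 2 := by
    rw [← h2, Finsupp.weight_apply, Finsupp.sum_fintype _ _ (fun i => by rw [zero_smul])]
    rfl
  rw [Fin.sum_univ_succ] at h3
  have h4 : d 0 * (cw 1 w) 0 = d 0 := by
    show d 0 * 1 = d 0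
    exact mul_one _
  rw [h4] at h3
  rw [← h3]
  refine Nat.add_le_add_left ?_ _
  refine (Polynomial.natDegree_prod_le _ _).trans ?_
  refine Finset.sum_le_sum fun i _ => ?_
  refine Polynomial.natDegree_pow_le.trans ?_
  exact Nat.mul_le_mul_left _ (hf i)

theorem conic_cover {k : Type} [Field k] [IsAlgClosed k] [CharZero k] {n : ℕ}
    {w : Fin (n + 1) → ℕ} (hw : ∀ i, 0 < w i) {S : Set (MvPolynomial (Fin (n + 1)) k)}
    (hS : ∀ P ∈ S, ∃ m, P.IsWeightedHomogeneous w m) {E : MvPolynomial (Fin (n + 1 + 1)) k}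
    (hE : E.IsWeightedHomogeneous (cw 1 w) 2) {u : Fin (n + 1 + 1) → k}
    (hu : MvPolynomial.eval u E = 0) (hu' : MvPolynomial.eval u (MvPolynomial.pderiv 0 E) ≠ 0)
    (hv0 : (fun i : Fin (n + 1) => u i.succ) ≠ 0)
    (hc : (Cn w 1 S fun i => u i.succ).Nonempty) : HasRat (cw 1 w) (insert E (coneS S)) := by
  obtain ⟨c, hcS, hcn⟩ := hc
  set v : Fin (n + 1) → k := fun i => u i.succ with hv
  set f : Fin (n + 1) → Polynomial k := crv w 1 v c with hf
  have hfd : ∀ i, (f i).natDegree ≤ w i := by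
    intro i
    have h := natDegree_crv v c i
    rwa [mul_one] at h
  have hf0 : ∀ i, (f i).eval 0 = v i := fun i => congrFun (val_crv_zero v c) i
  push Not at hcn
  obtain ⟨t, ht⟩ := hcn
  have hinf : Infinite k := IsAlgClosed.instInfinite
  have hucons : u = (Fin.cons (u 0) v : Fin (n + 1 + 1) → k) := by
    funext i
    refine Fin.cases ?_ (fun i => ?_) i
    · rfl
    · rfl
  -- the form of `E` on the curve
  obtain ⟨α, b1, b0, c2, c1, c0, hQ⟩ := I5_form hE hfd
  have hQ0 : ∀ y, MvPolynomial.eval (Fin.cons y v : Fin (n + 1 + 1) → k) E =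
      α * y ^ 2 + b0 * y + c0 := by
    intro y
    have h1 : MvPolynomial.eval (Fin.cons y (fun i => (f i).eval 0) : Fin (n + 1 + 1) → k) E =
      α * y ^ 2 + (b1 * 0 + b0) * y + (c2 * 0 ^ 2 + c1 * 0 + c0) := hQ 0 y
    have h2 : (fun i => (f i).eval 0) = v := funext hf0
    rw [h2] at h1
    rw [h1]
    ring
  have h0 : α * (u 0) ^ 2 + b0 * (u 0) + c0 = 0 := by
    rw [← hQ0, ← hucons]
    exact hu
  have hcons : ∀ y, (Fin.cons y v : Fin (n + 1 + 1) → k) =
      val (Fin.cons Polynomial.X (fun i => Polynomial.C (v i)) : Fin (n + 1 + 1) → Polynomial k) y := by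
    intro y
    funext i
    refine Fin.cases ?_ (fun i => ?_) i
    · simp [val]
    · simp [val]
  have hpoly : MvPolynomial.aeval
      (Fin.cons Polynomial.X (fun i => Polynomial.C (v i)) : Fin (n + 1 + 1) → Polynomial k) E =
      Polynomial.C α * Polynomial.X ^ 2 + Polynomial.C b0 * Polynomial.X + Polynomial.C c0 := by
    refine Polynomial.funext fun y => ?_
    have h1 := eval_val (Fin.cons Polynomial.X (fun i => Polynomial.C (v i)) :
      Fin (n + 1 + 1) → Polynomial k) y E
    rw [← hcons, hQ0] at h1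
    refine Eq.trans h1.symm ?_
    simp
  have h1 : 2 * α * (u 0) + b0 ≠ 0 := by
    have h2 := I5_der v E
    rw [hpoly] at h2
    have h3 := congrArg (fun g : Polynomial k => g.eval (u 0)) h2
    have h4 := eval_val (Fin.cons Polynomial.X (fun i => Polynomial.C (v i)) :
      Fin (n + 1 + 1) → Polynomial k) (u 0) (MvPolynomial.pderiv 0 E)
    rw [← hcons, ← hucons] at h4
    have h5 : MvPolynomial.eval u (MvPolynomial.pderiv 0 E) = 2 * α * (u 0) + b0 := by
      rw [h4]
      refine Eq.trans h3.symm ?_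
      simp only [Polynomial.derivative_add, Polynomial.derivative_mul, Polynomial.derivative_C,
        Polynomial.derivative_X, Polynomial.derivative_X_pow, Polynomial.eval_add,
        Polynomial.eval_mul, Polynomial.eval_C, Polynomial.eval_X, Polynomial.eval_pow,
        Polynomial.eval_zero, Polynomial.eval_one]
      push_cast
      ring
    rwa [h5] at hu'
  obtain ⟨l, A, T, hT, ⟨τ₁, hl₁, hA₁⟩, hsec⟩ := I5_conic α b1 b0 c2 c1 c0 t (u 0) h0 h1
  -- the curve
  let p : Fin (n + 1 + 1) → Polynomial k := Fin.cons T fun i =>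
    ∑ j ∈ Finset.range (w i + 1), Polynomial.C ((f i).coeff j) * l ^ (w i - j) * A ^ j
  have hp0 : ∀ τ, val p τ 0 = T.eval τ := fun τ => rfl
  have hps' : ∀ τ (i : Fin (n + 1)), val p τ i.succ =
      ∑ j ∈ Finset.range (w i + 1), (f i).coeff j * (l.eval τ) ^ (w i - j) * (A.eval τ) ^ j := by
    intro τ i
    show (∑ j ∈ Finset.range (w i + 1), Polynomial.C ((f i).coeff j) * l ^ (w i - j) * A ^ j).eval τ = _
    rw [Polynomial.eval_finsetSum]
    refine Finset.sum_congr rfl fun j _ => ?_
    simp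
  have hps : ∀ τ, l.eval τ ≠ 0 → ∀ i : Fin (n + 1), val p τ i.succ =
      (l.eval τ) ^ w i * (f i).eval (A.eval τ / l.eval τ) := by
    intro τ hτ i
    rw [hps', Polynomial.eval_eq_sum_range' (Nat.lt_succ_of_le (hfd i)), Finset.mul_sum]
    refine Finset.sum_congr rfl fun j hj => ?_
    have hj' : j ≤ w i := Nat.lt_succ_iff.1 (Finset.mem_range.1 hj)
    obtain ⟨b, hb⟩ := Nat.exists_eq_add_of_le hj'
    rw [hb, Nat.add_sub_cancel_left, div_pow, pow_add]
    field_simp
  have hval : ∀ τ, l.eval τ ≠ 0 → val p τ = fun i => (l.eval τ) ^ (cw 1 w) i *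
      (Fin.cons (T.eval τ / l.eval τ) (fun i => (f i).eval (A.eval τ / l.eval τ)) :
        Fin (n + 1 + 1) → k) i := by
    intro τ hτ
    funext i
    refine Fin.cases ?_ (fun i => ?_) i
    · rw [hp0]
      show T.eval τ = (l.eval τ) ^ 1 * (T.eval τ / l.eval τ)
      field_simp
    · rw [hps τ hτ]
      rfl
  have hmain : ∀ P ∈ insert E (coneS S), ∀ τ, l.eval τ ≠ 0 → MvPolynomial.eval (val p τ) P = 0 := by
    intro P hP τ hτ
    rcases Set.mem_insert_iff.1 hP with rfl | ⟨P', hP', rfl⟩
    · rw [hval τ hτ, eval_smul_w hE]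
      have h2 := hQ (A.eval τ / l.eval τ) (T.eval τ / l.eval τ)
      simp only at h2
      rw [h2, hT τ hτ, mul_zero]
    · obtain ⟨m, hm⟩ := hS P' hP'
      rw [MvPolynomial.eval_rename]
      have h2 : (val p τ ∘ Fin.succ) = fun i => (l.eval τ) ^ w i * val f (A.eval τ / l.eval τ) i := by
        funext i
        exact hps τ hτ i
      rw [h2, eval_smul_w hm, hcS _ P' hP', mul_zero]
  have hl0 : l ≠ 0 := by
    intro h
    rw [h, Polynomial.eval_zero] at hl₁
    exact hl₁ rfl
  have hall : ∀ τ, ∀ P ∈ insert E (coneS S), MvPolynomial.eval (val p τ) P = 0 := by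
    intro τ P hP
    have h2 : MvPolynomial.aeval p P * l = 0 := by
      refine Polynomial.funext fun s => ?_
      rw [Polynomial.eval_mul, Polynomial.eval_zero]
      by_cases hs : l.eval s = 0
      · rw [hs, mul_zero]
      · rw [← eval_val, hmain P hP s hs, zero_mul]
    have h3 : MvPolynomial.aeval p P = 0 := (mul_eq_zero.1 h2).resolve_right hl0
    rw [eval_val, h3, Polynomial.eval_zero]
  -- the value over the point `v`
  have hval₁ : ∀ i : Fin (n + 1), val p τ₁ i.succ = (l.eval τ₁) ^ w i * v i := by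
    intro i
    rw [hps τ₁ hl₁ i, hA₁, hf0]
  obtain ⟨i₀, hi₀⟩ := Function.ne_iff.1 hv0
  have hi₀' : v i₀ ≠ 0 := hi₀
  have hne₁ : val p τ₁ i₀.succ ≠ 0 := by
    rw [hval₁]
    exact mul_ne_zero (pow_ne_zero _ hl₁) hi₀'
  refine ⟨p, hall, ?_⟩
  rcases hsec with ⟨τ₂, hl₂, hA₂⟩ | ⟨τ₂, hl₂, hA₂, hT₂⟩
  · have hval₂ : ∀ i : Fin (n + 1), val p τ₂ i.succ = (l.eval τ₂) ^ w i * (f i).eval t := by
      intro i
      rw [hps τ₂ hl₂ i, hA₂]
    refine ⟨τ₁, τ₂, fun h => hne₁ (by rw [h]; rfl), fun h => ?_, ?_⟩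
    · obtain ⟨i, hi⟩ := ht 0
      apply hi
      have h2 := congrFun h i.succ
      rw [hval₂, Pi.zero_apply] at h2
      rcases mul_eq_zero.1 h2 with h3 | h3
      · exact absurd h3 (pow_ne_zero _ hl₂)
      · rw [h3, zero_pow (hw i).ne', zero_mul]
    · rintro ⟨a, _, ha⟩
      obtain ⟨i, hi⟩ := ht (a * l.eval τ₁ / l.eval τ₂)
      apply hi
      have h2 := ha i.succ
      rw [hval₂, hval₁] at h2
      have h3 : (cw 1 w) i.succ = w i := rfl
      rw [h3] at h2
      have h4 : (l.eval τ₂) ^ w i ≠ 0 := pow_ne_zero _ hl₂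
      rw [div_pow, mul_pow, div_mul_eq_mul_div, eq_div_iff h4]
      linear_combination h2
  · have hval₂ : ∀ i : Fin (n + 1), val p τ₂ i.succ = 0 := by
      intro i
      rw [hps']
      refine Finset.sum_eq_zero fun j _ => ?_
      rw [hl₂, hA₂]
      by_cases hj : j = 0
      · rw [hj, Nat.sub_zero, zero_pow (hw i).ne']
        ring
      · rw [zero_pow hj, mul_zero]
    refine ⟨τ₁, τ₂, fun h => hne₁ (by rw [h]; rfl), fun h => ?_, ?_⟩
    · apply hT₂
      rw [← hp0, h]
      rfl
    · rintro ⟨a, ha0, ha⟩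
      apply hne₁
      have h2 := ha i₀.succ
      rw [hval₂] at h2
      rcases mul_eq_zero.1 h2.symm with h3 | h3
      · exact absurd h3 (pow_ne_zero _ ha0)
      · exact h3

end Pool.Agent.Lib.MP_1e3e9c_agF
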