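import Mathlib
import Pool.Agent.Lib.MP_1e3e9c_agF.E7
import Pool.Agent.Lib.MP_1e3e9c_agF.H10
import Pool.Agent.Lib.MP_1e3e9c_agF.I1
import Pool.Agent.Lib.MP_1e3e9c_agF.I2
import Pool.Agent.Lib.MP_1e3e9c_agF.I3
import Pool.Agent.Lib.MP_1e3e9c_agF.I5

/-!
# MP_1e3e9c_ag, project F: rational curves on divisors and covers of smooth varieties with `K_V = O(-m)`
-/

set_option autoImplicit false

namespace Pool.Agent.Lib.MP_1e3e9c_agF

open Pool.Agent.Lib.MP_1e3e9c_agR Pool.Agent.Lib.MP_1e3e9c_agM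

/-- Mori's theorem: a nonconstant rational curve through every point. -/
theorem not_mn0 {k : Type} [Field k] [IsAlgClosed k] [CharZero k] {n c e m : ℕ}
    {w : Fin (n + 1) → ℕ} (hw : ∀ i, 0 < w i) {S : Set (MvPolynomial (Fin (n + 1)) k)}
    (hS : ∀ P ∈ S, ∃ m, P.IsWeightedHomogeneous w m) (hsm : Sm S c) (hG : Gp k w S)
    (hc : c + 2 ≤ n + 1)
    {ψ : (Fin c → Fin (n + 1)) → MvPolynomial (Fin (n + 1)) k} (hψ : Cnl w S c e ψ)
    (hm : m + e = ∑ i, w i) (hm0 : 0 < m) {v : Fin (n + 1) → k} (hv0 : v ≠ 0)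
    (hvS : ∀ P ∈ S, MvPolynomial.eval v P = 0) : ¬ ∀ D, Mn k w S D v := by
  obtain ⟨D, -, hD⟩ := spread (D₀ := n + 1) hw hS hsm hG hψ hv0 hvS (by
    intro p _ κ _ _ _ S' ψ' v' hS' hsm' hG' hψ' hv0' hvS'
    obtain ⟨D, -, hM, hne⟩ := least_of_not_mn hw
      (not_mn (p := p) hw hS' hsm' hG' hc hψ' hm hm0 hv0' hvS')
    refine ⟨D, ?_, hne⟩
    have h1 := deg_bound hw hS' hsm' hG' hψ' hm hv0' hvS' hM hne
    have h2 : 1 * D ≤ m * D := Nat.mul_le_mul_right D hm0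
    omega)
  exact not_mn_of_cn hw hv0 hvS hG hD

theorem exists_lst {k : Type} [Field k] [IsAlgClosed k] [CharZero k] {n c e m : ℕ}
    {w : Fin (n + 1) → ℕ} (hw : ∀ i, 0 < w i) {S : Set (MvPolynomial (Fin (n + 1)) k)}
    (hS : ∀ P ∈ S, ∃ m, P.IsWeightedHomogeneous w m) (hsm : Sm S c) (hG : Gp k w S)
    (hc : c + 2 ≤ n + 1)
    {ψ : (Fin c → Fin (n + 1)) → MvPolynomial (Fin (n + 1)) k} (hψ : Cnl w S c e ψ)
    (hm : m + e = ∑ i, w i) (hm0 : 0 < m) {v : Fin (n + 1) → k} (hv0 : v ≠ 0)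
    (hvS : ∀ P ∈ S, MvPolynomial.eval v P = 0) :
    ∃ D, 0 < D ∧ D ≤ n + 1 ∧ Lst w S D (max (m * D) 2) v :=
  least_lst hw hS hsm hG hψ hm hm0 hv0 hvS (not_mn0 hw hS hsm hG hc hψ hm hm0 hv0 hvS)

theorem lst_mono {k : Type} [Field k] {n D M M' : ℕ} {w : Fin (n + 1) → ℕ}
    {S : Set (MvPolynomial (Fin (n + 1)) k)} {v : Fin (n + 1) → k} (hMM : M' ≤ M)
    (h : Lst w S D M v) : Lst w S D M' v :=
  ⟨h.1, le_trans (by exact_mod_cast hMM) h.2⟩

theorem fano_rational_curve {k : Type} [Field k] [IsAlgClosed k] [CharZero k] {n g m e c : ℕ}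
    {w : Fin (n + 1) → ℕ} (hw : ∀ i, 0 < w i) (hg : 0 < g) (hgm : g ≤ m) (hn : c + 4 ≤ n)
    {S : Set (MvPolynomial (Fin (n + 1)) k)} (hS : ∀ P ∈ S, ∃ m, P.IsWeightedHomogeneous w m)
    {G : MvPolynomial (Fin (n + 1)) k} (hG : G.IsWeightedHomogeneous w g)
    (hV : ∀ x : Fin (n + 1) → k, x ≠ 0 → (∀ P ∈ S, MvPolynomial.eval x P = 0) →
      LCI S c x ∧ Gc w x)
    {ψ : (Fin c → Fin (n + 1)) → MvPolynomial (Fin (n + 1)) k} (hψ : Cnl w S c e ψ)
    (hm : m + e = ∑ i, w i) {v₀ : Fin (n + 1) → k} (hv0 : v₀ ≠ 0)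
    (hvS : ∀ P ∈ S, MvPolynomial.eval v₀ P = 0) (hvG : MvPolynomial.eval v₀ G = 0)
    (hsmo : Smo S G c v₀) : HasRat w (insert G S) := by
  have hsm : Sm S c := fun x h1 h2 => (hV x h1 h2).1
  have hGp : Gp k w S := fun x hx hP => (hV x hx fun P hPS => by
    have h1 := hP P hPS
    rwa [MvPolynomial.aeval_eq_eval] at h1).2
  set T : Set (Fin (n + 1) → k) := {v | v ≠ 0 ∧ (∀ P ∈ S, MvPolynomial.eval v P = 0) ∧
    MvPolynomial.eval v G = 0 ∧ Smo S G c v} with hT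
  obtain ⟨i₀, hi₀⟩ := Function.ne_iff.1 hv0
  obtain ⟨B, hB, hB'⟩ := minor_ne hsmo
  have hlci : LCI (insert G S) (c + 1) v₀ := lci_insert hvS hvG (hV v₀ hv0 hvS).1 hsmo
  have hins : ∀ P ∈ insert G S, MvPolynomial.eval v₀ P = 0 := by
    intro P hP
    rcases Set.mem_insert_iff.1 hP with rfl | hP
    · exact hvG
    · exact hvS P hP
  have hd := dim_smooth (N := n - c) (by omega) hins hlci (B * MvPolynomial.X i₀) (by
    rw [map_mul, MvPolynomial.eval_X]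
    exact mul_ne_zero hB hi₀)
  have hTd : ((n - c : ℕ) : WithBot ℕ∞) ≤ wdm w T := by
    refine le_trans hd (dm_le_wdm ?_)
    rintro x ⟨hx1, hx2⟩
    rw [map_mul, MvPolynomial.eval_X] at hx2
    refine ⟨?_, fun P hP => hx1 P (Set.mem_insert_of_mem _ hP), hx1 G (Set.mem_insert _ _),
      hB' x (left_ne_zero_of_mul hx2)⟩
    rintro rfl
    exact right_ne_zero_of_mul hx2 rfl
  obtain ⟨D, hD, hDd⟩ := wdm_union (M := n + 1) (fun D => {v | Lst w S D (max (m * D) 2) v})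
    (fun x hx => by
      obtain ⟨D, h1, h2, h3⟩ := exists_lst hw hS hsm hGp (by omega) hψ hm
        (lt_of_lt_of_le hg hgm) hx.1 hx.2.1
      exact ⟨D, h1, h2, h3⟩) hTd
  refine least_rational_curve (N := n - c) (c := c) hw hD hg (by omega) (by omega) hS hG hV
    (T ∩ {v | Lst w S D (max (m * D) 2) v}) (fun v hv => ⟨hv.1.1, hv.1.2.1, hv.1.2.2.1,
      hv.1.2.2.2, lst_mono ?_ hv.2⟩) hDd
  exact max_le_max (Nat.mul_le_mul_right D hgm) le_rfl

theorem fano_cover_curve {k : Type} [Field k] [IsAlgClosed k] [CharZero k] {n r a m e c : ℕ}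
    {w : Fin (n + 1) → ℕ} (hw : ∀ i, 0 < w i) (ha : 0 < a) (hr : 2 ≤ r)
    (hram : (r - 1) * a ≤ m) (hn : c + 3 ≤ n)
    {S : Set (MvPolynomial (Fin (n + 1)) k)} (hS : ∀ P ∈ S, ∃ m, P.IsWeightedHomogeneous w m)
    {E : MvPolynomial (Fin (n + 1 + 1)) k} (hE : E.IsWeightedHomogeneous (cw a w) (r * a))
    (hV : ∀ x : Fin (n + 1) → k, x ≠ 0 → (∀ P ∈ S, MvPolynomial.eval x P = 0) →
      LCI S c x ∧ Gc w x)
    {ψ : (Fin c → Fin (n + 1)) → MvPolynomial (Fin (n + 1)) k} (hψ : Cnl w S c e ψ)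
    (hm : m + e = ∑ i, w i) {u₀ : Fin (n + 1 + 1) → k} (hu : MvPolynomial.eval u₀ E = 0)
    (hu' : MvPolynomial.eval u₀ (MvPolynomial.pderiv 0 E) ≠ 0)
    (hv0 : (fun i : Fin (n + 1) => u₀ i.succ) ≠ 0)
    (hvS : ∀ P ∈ S, MvPolynomial.eval (fun i : Fin (n + 1) => u₀ i.succ) P = 0) :
    HasRat (cw a w) (insert E (coneS S)) := by
  have hsm : Sm S c := fun x h1 h2 => (hV x h1 h2).1
  have hGp : Gp k w S := fun x hx hP => (hV x hx fun P hPS => by
    have h1 := hP P hPS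
    rwa [MvPolynomial.aeval_eq_eval] at h1).2
  have hr1 : 0 < (r - 1) * a := Nat.mul_pos (by omega) ha
  set T : Set (Fin (n + 1 + 1) → k) := {u | MvPolynomial.eval u E = 0 ∧
    MvPolynomial.eval u (MvPolynomial.pderiv 0 E) ≠ 0 ∧ (fun i : Fin (n + 1) => u i.succ) ≠ 0 ∧
    ∀ P ∈ S, MvPolynomial.eval (fun i : Fin (n + 1) => u i.succ) P = 0} with hT
  obtain ⟨i₀, hi₀⟩ := Function.ne_iff.1 hv0
  have hcone : ∀ (u : Fin (n + 1 + 1) → k) (P : MvPolynomial (Fin (n + 1)) k),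
      MvPolynomial.eval u (MvPolynomial.rename Fin.succ P) =
        MvPolynomial.eval (fun i : Fin (n + 1) => u i.succ) P := by
    intro u P
    rw [MvPolynomial.eval_rename]
    rfl
  have hins : ∀ P ∈ insert E (coneS S), MvPolynomial.eval u₀ P = 0 := by
    intro P hP
    rcases Set.mem_insert_iff.1 hP with rfl | ⟨Q, hQ, rfl⟩
    · exact hu
    · rw [hcone]
      exact hvS Q hQ
  have hd := dim_smooth (N := n + 1 - c) (by omega) hins (lci_cover (hV _ hv0 hvS).1 hu')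
    (MvPolynomial.pderiv 0 E * MvPolynomial.X i₀.succ) (by
      rw [map_mul, MvPolynomial.eval_X]
      exact mul_ne_zero hu' hi₀)
  have hTd : ((n + 1 - c : ℕ) : WithBot ℕ∞) ≤ wdm (cw a w) T := by
    refine le_trans hd (dm_le_wdm ?_)
    rintro x ⟨hx1, hx2⟩
    rw [map_mul, MvPolynomial.eval_X] at hx2
    refine ⟨hx1 E (Set.mem_insert _ _), left_ne_zero_of_mul hx2, ?_, fun P hP => ?_⟩
    · intro h
      exact right_ne_zero_of_mul hx2 (congrFun h i₀)
    · rw [← hcone]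
      exact hx1 _ (Set.mem_insert_of_mem _ ⟨P, hP, rfl⟩)
  have hlst : ∀ u ∈ T, ∃ D, 0 < D ∧ D ≤ n + 1 ∧ Lst w S D (max (m * D) 2) fun i => u i.succ :=
    fun u hu => exists_lst hw hS hsm hGp (by omega) hψ hm (lt_of_lt_of_le hr1 hram) hu.2.2.1
      hu.2.2.2
  obtain ⟨D, hD, hDd⟩ := wdm_union (M := n + 1)
    (fun D => {u : Fin (n + 1 + 1) → k | Lst w S D (max (m * D) 2) fun i => u i.succ})
    (fun u hu => hlst u hu) hTd
  by_cases h2 : 2 ≤ (r - 1) * (a * D)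
  · refine least_cover_curve (N := n + 1 - c) (c := c) hw ha h2 (by omega) (by omega) hS hE hV
      (T ∩ {u | Lst w S D (max (m * D) 2) fun i => u i.succ})
      (fun u hu => ⟨hu.1.1, hu.1.2.1, hu.1.2.2.1, hu.1.2.2.2, lst_mono ?_ hu.2⟩) hDd
    rw [← mul_assoc]
    exact le_trans (Nat.mul_le_mul_right D hram) (le_max_left _ _)
  · have h3 : (r - 1) * (a * D) = 1 := by
      have h4 : 0 < (r - 1) * (a * D) := Nat.mul_pos (by omega) (Nat.mul_pos ha hD)
      omega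
    have h5 : r - 1 = 1 := Nat.eq_one_of_mul_eq_one_right h3
    have h6 : a * D = 1 := Nat.eq_one_of_mul_eq_one_left h3
    have h7 : a = 1 := Nat.eq_one_of_mul_eq_one_right h6
    have h8 : D = 1 := Nat.eq_one_of_mul_eq_one_left h6
    have h9 : r = 2 := by omega
    subst h7 h8 h9
    -- a point of `T` with least degree one
    have hne : (T ∩ {u | Lst w S 1 (max (m * 1) 2) fun i => u i.succ}).Nonempty := by
      by_contra hcon
      rw [Set.not_nonempty_iff_eq_empty] at hcon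
      rw [hcon] at hDd
      unfold wdm dm at hDd
      have h10 : MvPolynomial.vanishingIdeal k {x : Fin (n + 1 + 1) → k | ∃ a : k, a ≠ 0 ∧
          ∃ v ∈ (∅ : Set (Fin (n + 1 + 1) → k)), x = fun i => a ^ cw 1 w i * v i} = ⊤ := by
        rw [Ideal.eq_top_iff_one]
        rintro x ⟨_, _, _, h, _⟩
        exact absurd h (Set.notMem_empty _)
      rw [h10] at hDd
      have : Subsingleton (MvPolynomial (Fin (n + 1 + 1)) k ⧸
          (⊤ : Ideal (MvPolynomial (Fin (n + 1 + 1)) k))) :=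
        Ideal.Quotient.subsingleton_iff.2 rfl
      rw [ringKrullDim_eq_bot_of_subsingleton] at hDd
      exact absurd hDd (by
        rw [not_le]
        exact WithBot.bot_lt_coe _)
    obtain ⟨u, huT, huL⟩ := hne
    refine conic_cover hw hS (by simpa using hE) huT.1 huT.2.1 huT.2.2.1 ?_
    by_contra hcon
    rw [Set.not_nonempty_iff_eq_empty] at hcon
    have h11 := huL.2
    rw [hcon] at h11
    have h12 : MvPolynomial.vanishingIdeal k (∅ : Set (Un w 1 → k)) = ⊤ := by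
      rw [Ideal.eq_top_iff_one]
      intro x hx
      exact absurd hx (Set.notMem_empty x)
    rw [h12] at h11
    have : Subsingleton (MvPolynomial (Un w 1) k ⧸ (⊤ : Ideal (MvPolynomial (Un w 1) k))) :=
      Ideal.Quotient.subsingleton_iff.2 rfl
    rw [ringKrullDim_eq_bot_of_subsingleton] at h11
    exact absurd h11 (by
      rw [not_le]
      exact WithBot.bot_lt_coe _)

end Pool.Agent.Lib.MP_1e3e9c_agF
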