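import Pool.Agent.Lib.MP_1e3e9c_agF.DDefs

/-! LEAF D1 (easy+).  Exponents of given large weight, with large entries on `I`.

PROOF.  `Nat.exists_mem_closure_of_ge (w '' I)`: there is `n₀` such that every `m ≥ n₀` is in the additive submonoid generated by the `w i`, `i ∈ I` (the condition `Nat.setGcd (w '' I) ∣ m` holds: `Nat.setGcd (w '' I) = 1` by `hI`), so `m = ∑_(i ∈ I) w i * γ i` (`AddSubmonoid.closure_induction`, or the description of the closure of the image of a finite set).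
Put `m₀ = n₀ + ∑_(i ∈ I) w i * L`: for `m ≥ m₀` apply this to `m - ∑_(i ∈ I) w i * L` and put `β i = γ i + L` for `i ∈ I`, `0` for the others. -/

set_option autoImplicit false

namespace Pool.Agent.Lib.MP_1e3e9c_agF

private theorem D1_repr {n : ℕ} (w : Fin (n + 1) → ℕ) (I : Finset (Fin (n + 1))) (m : ℕ)
    (hm : m ∈ AddSubmonoid.closure (w '' (I : Set (Fin (n + 1))))) :
    ∃ γ : Fin (n + 1) → ℕ, (∀ i ∉ I, γ i = 0) ∧ ∑ i, w i * γ i = m := by
  classical
  induction hm using AddSubmonoid.closure_induction with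
  | mem x hx =>
    obtain ⟨i, hi, rfl⟩ := hx
    refine ⟨Pi.single i 1, fun j hj => ?_, ?_⟩
    · have h : j ≠ i := by
        rintro rfl
        exact hj (Finset.mem_coe.1 hi)
      rw [Pi.single_eq_of_ne h]
    rw [Finset.sum_eq_single i]
    · rw [Pi.single_eq_same, mul_one]
    · intro j _ hj
      rw [Pi.single_eq_of_ne hj, mul_zero]
    · intro h
      exact absurd (Finset.mem_univ _) h
  | zero => exact ⟨fun _ => 0, fun _ _ => rfl, by simp⟩
  | add x y _ _ hx hy =>
    obtain ⟨γ, h1, h2⟩ := hx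
    obtain ⟨δ, h3, h4⟩ := hy
    refine ⟨fun i => γ i + δ i, fun i hi => by
      show γ i + δ i = 0
      rw [h1 i hi, h3 i hi], ?_⟩
    rw [← h2, ← h4, ← Finset.sum_add_distrib]
    exact Finset.sum_congr rfl fun i _ => mul_add _ _ _

theorem D_exps {n : ℕ} (w : Fin (n + 1) → ℕ) (I : Finset (Fin (n + 1)))
    (hI : ∀ d : ℕ, (∀ i ∈ I, d ∣ w i) → d = 1) (L : ℕ) :
    ∃ m₀ : ℕ, ∀ m ≥ m₀, ∃ β : Fin (n + 1) → ℕ, (∀ i ∉ I, β i = 0) ∧ (∀ i ∈ I, L ≤ β i) ∧
      ∑ i, w i * β i = m := by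
  classical
  obtain ⟨n₀, hn₀⟩ := Nat.exists_mem_closure_of_ge (w '' (I : Set (Fin (n + 1))))
  have h1 : Nat.setGcd (w '' (I : Set (Fin (n + 1)))) = 1 :=
    hI _ fun i hi => Nat.setGcd_dvd_of_mem (Set.mem_image_of_mem w (Finset.mem_coe.2 hi))
  refine ⟨n₀ + ∑ i ∈ I, w i * L, fun m hm => ?_⟩
  obtain ⟨γ, h2, h3⟩ := D1_repr w I (m - ∑ i ∈ I, w i * L) (hn₀ _ (by omega) (by
    rw [h1]
    exact one_dvd _))
  refine ⟨fun i => γ i + if i ∈ I then L else 0, fun i hi => ?_, fun i hi => ?_, ?_⟩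
  · show γ i + (if i ∈ I then L else 0) = 0
    rw [h2 i hi, if_neg hi]
  · show L ≤ γ i + (if i ∈ I then L else 0)
    rw [if_pos hi]
    omega
  · have h4 : ∑ i, w i * (γ i + if i ∈ I then L else 0) =
        ∑ i, w i * γ i + ∑ i ∈ I, w i * L := by
      rw [← Finset.sum_filter_add_sum_filter_not Finset.univ (fun i => i ∈ I)
        (fun i => w i * (γ i + if i ∈ I then L else 0)),
        ← Finset.sum_filter_add_sum_filter_not Finset.univ (fun i => i ∈ I)
        (fun i => w i * γ i)]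
      have h5 : ∑ i ∈ Finset.univ.filter (fun i => i ∈ I), w i * (γ i + if i ∈ I then L else 0) =
          ∑ i ∈ Finset.univ.filter (fun i => i ∈ I), w i * γ i + ∑ i ∈ I, w i * L := by
        have h6 : Finset.univ.filter (fun i => i ∈ I) = I := by
          ext i
          simp
        rw [h6, ← Finset.sum_add_distrib]
        exact Finset.sum_congr rfl fun i hi => by rw [if_pos hi, mul_add]
      have h7 : ∑ i ∈ Finset.univ.filter (fun i => ¬ i ∈ I), w i * (γ i + if i ∈ I then L else 0) =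
          ∑ i ∈ Finset.univ.filter (fun i => ¬ i ∈ I), w i * γ i :=
        Finset.sum_congr rfl fun i hi => by rw [if_neg (Finset.mem_filter.1 hi).2, add_zero]
      rw [h5, h7]
      ring
    show ∑ i, w i * (γ i + if i ∈ I then L else 0) = m
    rw [h4, h3]
    omega

end Pool.Agent.Lib.MP_1e3e9c_agF
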