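import Mathlib

/-!
# MP_1e3e9c_ag, project FANO, block F4 (curves through a smooth point): definitions (Mathlib only)
-/

set_option autoImplicit false

namespace Pool.Agent.Lib.MP_1e3e9c_agF

variable {k : Type} [Field k] {n : ℕ}

/-- The gradient of `P` at `v`. -/
noncomputable def gd (P : MvPolynomial (Fin (n + 1)) k) (v : Fin (n + 1) → k) : Fin (n + 1) → k :=
  fun i => MvPolynomial.eval v (MvPolynomial.pderiv i P)

/-- The values at the tuple `g` of power series of the weighted homogeneous polynomials of weight `m`. -/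
noncomputable def Hm (w : Fin (n + 1) → ℕ) (g : Fin (n + 1) → PowerSeries k) (m : ℕ) :
    Submodule k (PowerSeries k) :=
  (MvPolynomial.weightedHomogeneousSubmodule k w m).map (MvPolynomial.aeval g).toLinearMap

/-- The orders of vanishing of the nonzero elements of `U`. -/
def od (U : Submodule k (PowerSeries k)) : Set ℕ :=
  {o | ∃ f ∈ U, PowerSeries.X ^ o ∣ f ∧ PowerSeries.coeff o f ≠ 0}

theorem mem_Hm {w : Fin (n + 1) → ℕ} {g : Fin (n + 1) → PowerSeries k} {m : ℕ} {f : PowerSeries k} :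
    f ∈ Hm w g m ↔ ∃ F : MvPolynomial (Fin (n + 1)) k, F.IsWeightedHomogeneous w m ∧
      MvPolynomial.aeval g F = f := Iff.rfl

theorem Hm_mul {w : Fin (n + 1) → ℕ} {g : Fin (n + 1) → PowerSeries k} {a b : ℕ}
    {f f' : PowerSeries k} (h : f ∈ Hm w g a) (h' : f' ∈ Hm w g b) : f * f' ∈ Hm w g (a + b) := by
  obtain ⟨F, hF, rfl⟩ := mem_Hm.1 h
  obtain ⟨F', hF', rfl⟩ := mem_Hm.1 h'
  exact mem_Hm.2 ⟨F * F', hF.mul hF', map_mul _ _ _⟩

theorem od_mul {U U' U'' : Submodule k (PowerSeries k)}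
    (h : ∀ f ∈ U, ∀ f' ∈ U', f * f' ∈ U'') {a b : ℕ} (ha : a ∈ od U) (hb : b ∈ od U') :
    a + b ∈ od U'' := by
  obtain ⟨f, hf, ⟨x, rfl⟩, h1⟩ := ha
  obtain ⟨f', hf', ⟨y, rfl⟩, h2⟩ := hb
  have e : PowerSeries.X ^ a * x * (PowerSeries.X ^ b * y) = PowerSeries.X ^ (a + b) * (x * y) := by
    ring
  refine ⟨_, h _ hf _ hf', ⟨x * y, e⟩, ?_⟩
  rw [e]
  rw [PowerSeries.coeff_X_pow_mul', if_pos le_rfl, Nat.sub_self] at h1 h2 ⊢
  rw [PowerSeries.coeff_zero_eq_constantCoeff] at h1 h2 ⊢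
  rw [map_mul]
  exact mul_ne_zero h1 h2

end Pool.Agent.Lib.MP_1e3e9c_agF
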