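import Mathlib

/-!
# MP_1e3e9c_ag, project F, leaf L2: a place at the origin of the parameters (MATHLIB ONLY)

PROOF. Let `φ = MvPolynomial.aeval X : MvPolynomial ι k →ₐ[k] Ω`, injective by `hX`, and `R = φ.range` (as a subring of `Ω`). The kernel `𝔪` of `MvPolynomial.constantCoeff` is a proper ideal, so its image in `R` (`Ideal.map φ.rangeRestrict 𝔪`; `φ.rangeRestrict` is bijective) is a proper ideal (see `M4_val` in
`Pool/Agent/Lib/MP_1e3e9c_agM/M4.lean`). `Ideal.image_subset_nonunits_valuationSubring` gives a valuation subring `B` of `Ω` with `R ⊆ B`, and the image of `𝔪` in the nonunits of `B`. `algebraMap k Ω a = φ (C a) ∈ B`, `X i = φ (MvPolynomial.X i)`, `MvPolynomial.X i ∈ 𝔪`.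
-/

set_option autoImplicit false

namespace Pool.Agent.Lib.MP_1e3e9c_agF

private theorem L2_val {P Ω : Type} [CommRing P] [Field Ω] (φ : P →+* Ω)
    (hφ : Function.Injective φ) (𝔪 : Ideal P) (hm : 𝔪 ≠ ⊤) :
    ∃ B : ValuationSubring Ω, (∀ p, φ p ∈ B) ∧ ∀ p ∈ 𝔪, φ p ∈ B.nonunits := by
  have hsur : Function.Surjective φ.rangeRestrict := φ.rangeRestrict_surjective
  have htop : Ideal.map φ.rangeRestrict 𝔪 ≠ ⊤ := by
    intro h
    apply hm
    have h1 := Ideal.comap_map_of_surjective φ.rangeRestrict hsur 𝔪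
    rw [h, Ideal.comap_top] at h1
    rw [eq_top_iff, h1]
    refine sup_le le_rfl ?_
    intro p hp
    rw [Ideal.mem_comap, Ideal.mem_bot] at hp
    have h2 : φ p = 0 := congrArg Subtype.val hp
    rw [(map_eq_zero_iff φ hφ).1 h2]
    exact 𝔪.zero_mem
  obtain ⟨A, hA, hI⟩ := Ideal.image_subset_nonunits_valuationSubring _ htop
  refine ⟨A, fun p => hA ⟨p, rfl⟩, fun p hp => hI ?_⟩
  exact ⟨φ.rangeRestrict p, Ideal.mem_map_of_mem _ hp, rfl⟩

theorem exists_place0 {k Ω ι : Type} [Field k] [Field Ω] [Algebra k Ω] (X : ι → Ω)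
    (hX : AlgebraicIndependent k X) :
    ∃ B : ValuationSubring Ω, (∀ a : k, algebraMap k Ω a ∈ B) ∧ ∀ i, X i ∈ B.nonunits := by
  have hinj : Function.Injective
      ((MvPolynomial.aeval X : MvPolynomial ι k →ₐ[k] Ω).toRingHom) := hX
  have hm : RingHom.ker (MvPolynomial.constantCoeff : MvPolynomial ι k →+* k) ≠ ⊤ :=
    RingHom.ker_ne_top _
  obtain ⟨B, hB, hI⟩ := L2_val _ hinj _ hm
  refine ⟨B, fun a => ?_, fun i => ?_⟩
  · have h := hB (MvPolynomial.C a)
    have h2 : (MvPolynomial.aeval X : MvPolynomial ι k →ₐ[k] Ω).toRingHom (MvPolynomial.C a)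
        = algebraMap k Ω a := MvPolynomial.aeval_C X a
    rwa [h2] at h
  · have h := hI (MvPolynomial.X i) (by
      rw [RingHom.mem_ker]
      exact MvPolynomial.constantCoeff_X k i)
    have h2 : (MvPolynomial.aeval X : MvPolynomial ι k →ₐ[k] Ω).toRingHom (MvPolynomial.X i)
        = X i := MvPolynomial.aeval_X X i
    rwa [h2] at h

end Pool.Agent.Lib.MP_1e3e9c_agF
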