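import Mathlib
import Pool.Agent.Lib.MP_1e3e9c_agR.RDefs

/-!
# MP_1e3e9c_ag, project F, leaf L2a: monomials separate the points of a weighted projective space

PROOF. `same_of_mon`: Support: if `x i ≠ 0` choose `j` with `y j ≠ 0`; the hypothesis for `α = w j • e_i`, `β = w i • e_j` (`Pi.single`) is `x_i ^ w_j * y_j ^ w_i = y_i ^ w_j * x_j ^ w_i`, the left side is not `0`, so `y i ≠ 0`; in the same way `y i ≠ 0` implies `x i ≠ 0` (the hypothesis is symmetric). Let `I` be the set of the `i` with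
`x i ≠ 0`, not empty, `r i = y i / x i ≠ 0` for `i ∈ I`. For integers `e_i`, `i ∈ I`, with `∑ e_i w_i = 0`: `∏ r_i ^ e_i = 1` (zpow; `α` = the positive parts, `β` = the negative parts of `e`). Let `d > 0` be the greatest common divisor of the `w i`, `i ∈ I`, `d = ∑ f_i w_i` with integers `f_i` (see `M1_bezout` in
`Pool/Agent/Lib/MP_1e3e9c_agM/M1.lean`; `Finset.gcd`, or induction), `ρ = ∏ r_i ^ f_i`. For `i ∈ I` the vector `e_i - (w_i / d) f` has weight `0`, so `r_i = ρ ^ (w_i / d)`. `a` with `a ^ d = ρ` (`IsAlgClosed.exists_pow_nat_eq`), `a ≠ 0`: `r_i = a ^ w_i`, so `y_i = a ^ w_i * x_i` for all `i` (for `i ∉ I` both sides are `0`).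
`mon_of_same`: `y = a^w x`: `∏ y_i ^ α_i = a ^ (∑ w_i α_i) ∏ x_i ^ α_i`, and the same for `β`.
-/

set_option autoImplicit false

namespace Pool.Agent.Lib.MP_1e3e9c_agF

open Pool.Agent.Lib.MP_1e3e9c_agR

private theorem L2a_single {K : Type} [Field K] {n : ℕ} (x : Fin (n + 1) → K) (i : Fin (n + 1)) (m : ℕ) :
    ∏ l, x l ^ (if l = i then m else 0) = x i ^ m := by
  rw [Finset.prod_eq_single i]
  · rw [if_pos rfl]
  · intro l _ hl
    rw [if_neg hl, pow_zero]
  · intro hi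
    exact absurd (Finset.mem_univ i) hi

private theorem L2a_zp {K : Type} [Field K] {n : ℕ} {w : Fin (n + 1) → ℕ} {x y : Fin (n + 1) → K}
    (hs : ∀ i, x i ≠ 0 → y i ≠ 0)
    (h : ∀ α β : Fin (n + 1) → ℕ, ∑ i, w i * α i = ∑ i, w i * β i →
      (∏ i, x i ^ α i) * ∏ i, y i ^ β i = (∏ i, y i ^ α i) * ∏ i, x i ^ β i)
    (e : Fin (n + 1) → ℤ) (he : ∀ i, x i = 0 → e i = 0) (hsum : ∑ i, (w i : ℤ) * e i = 0) :
    ∏ i, (y i / x i) ^ e i = 1 := by
  have h1 := h (fun i => (e i).toNat) (fun i => (- e i).toNat) (by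
    have h2 : ((∑ i, w i * (e i).toNat : ℕ) : ℤ) = ((∑ i, w i * (- e i).toNat : ℕ) : ℤ) := by
      rw [Nat.cast_sum, Nat.cast_sum, ← sub_eq_zero, ← Finset.sum_sub_distrib, ← hsum]
      refine Finset.sum_congr rfl fun i _ => ?_
      rw [Nat.cast_mul, Nat.cast_mul, ← mul_sub]
      have h3 : (((e i).toNat : ℕ) : ℤ) - (((- e i).toNat : ℕ) : ℤ) = e i := by omega
      rw [h3]
    exact_mod_cast h2)
  have h3 : ∏ i, (y i / x i) ^ e i = ((∏ i, y i ^ (e i).toNat) * ∏ i, x i ^ (- e i).toNat) /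
      ((∏ i, x i ^ (e i).toNat) * ∏ i, y i ^ (- e i).toNat) := by
    rw [← Finset.prod_mul_distrib, ← Finset.prod_mul_distrib, ← Finset.prod_div_distrib]
    refine Finset.prod_congr rfl fun i _ => ?_
    by_cases hx : x i = 0
    · rw [he i hx]
      simp
    · have hy := hs i hx
      rcases le_total 0 (e i) with h4 | h4
      · obtain ⟨m, hm⟩ := Int.eq_ofNat_of_zero_le h4
        have h5 : (-((m : ℕ) : ℤ)).toNat = 0 := by omega
        rw [hm, zpow_natCast, h5, Int.toNat_natCast, pow_zero, pow_zero, mul_one, mul_one, div_pow]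
      · obtain ⟨m, hm⟩ := Int.eq_ofNat_of_zero_le (neg_nonneg.2 h4)
        have h6 : e i = -((m : ℕ) : ℤ) := by omega
        have h5 : (-((m : ℕ) : ℤ)).toNat = 0 := by omega
        rw [h6, zpow_neg, zpow_natCast, neg_neg, Int.toNat_natCast, h5, pow_zero, pow_zero, one_mul,
          one_mul, div_pow, inv_div]
  rw [h3, ← h1, div_self]
  refine mul_ne_zero (Finset.prod_ne_zero_iff.2 fun i _ => ?_) (Finset.prod_ne_zero_iff.2 fun i _ => ?_)
  · by_cases hx : x i = 0
    · have h4 : (e i).toNat = 0 := by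
        rw [he i hx]
        rfl
      rw [h4, pow_zero]
      exact one_ne_zero
    · exact pow_ne_zero _ hx
  · by_cases hx : x i = 0
    · have h4 : (- e i).toNat = 0 := by
        rw [he i hx]
        rfl
      rw [h4, pow_zero]
      exact one_ne_zero
    · exact pow_ne_zero _ (hs i hx)

theorem same_of_mon {K : Type} [Field K] [IsAlgClosed K] {n : ℕ} {w : Fin (n + 1) → ℕ}
    (hw : ∀ i, 0 < w i) {x y : Fin (n + 1) → K} (hx : x ≠ 0) (hy : y ≠ 0)
    (h : ∀ α β : Fin (n + 1) → ℕ, ∑ i, w i * α i = ∑ i, w i * β i →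
      (∏ i, x i ^ α i) * ∏ i, y i ^ β i = (∏ i, y i ^ α i) * ∏ i, x i ^ β i) : Same w x y := by
  classical
  have hkey : ∀ i j, x i ^ w j * y j ^ w i = y i ^ w j * x j ^ w i := by
    intro i j
    have h1 := h (fun l => if l = i then w j else 0) (fun l => if l = j then w i else 0) (by
      have h2 : ∀ (l : Fin (n + 1)) (m : ℕ), ∑ i, w i * (if i = l then m else 0) = w l * m := by
        intro l m
        rw [Finset.sum_eq_single l]
        · rw [if_pos rfl]
        · intro b _ hb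
          rw [if_neg hb, mul_zero]
        · intro hl
          exact absurd (Finset.mem_univ l) hl
      rw [h2, h2, mul_comm])
    rw [L2a_single, L2a_single, L2a_single, L2a_single] at h1
    exact h1
  obtain ⟨jx, hjx⟩ := Function.ne_iff.1 hx
  obtain ⟨jy, hjy⟩ := Function.ne_iff.1 hy
  have hjx' : x jx ≠ 0 := hjx
  have hjy' : y jy ≠ 0 := hjy
  have hxy : ∀ i, x i ≠ 0 → y i ≠ 0 := by
    intro i hi hyi
    have h1 := hkey i jy
    rw [hyi, zero_pow (hw jy).ne', zero_mul] at h1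
    exact mul_ne_zero (pow_ne_zero _ hi) (pow_ne_zero _ hjy') h1
  have hyx : ∀ i, x i = 0 → y i = 0 := by
    intro i hi
    by_contra hyi
    have h1 := hkey i jx
    rw [hi, zero_pow (hw jx).ne', zero_mul] at h1
    exact mul_ne_zero (pow_ne_zero _ hyi) (pow_ne_zero _ hjx') h1.symm
  obtain ⟨f, hf⟩ := Finset.gcd_eq_sum_mul (Finset.univ.filter fun i => x i ≠ 0) (fun i => (w i : ℤ))
  obtain ⟨g, hg⟩ : ∃ g : ℤ, g = (Finset.univ.filter fun i => x i ≠ 0).gcd (fun i => (w i : ℤ)) :=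
    ⟨_, rfl⟩
  have hgd : ∀ i, x i ≠ 0 → g ∣ (w i : ℤ) := by
    intro i hi
    rw [hg]
    exact Finset.gcd_dvd (Finset.mem_filter.2 ⟨Finset.mem_univ _, hi⟩)
  rw [← hg] at hf
  have hg0 : g ≠ 0 := by
    intro h0
    have h1 := hgd jx hjx'
    rw [h0, zero_dvd_iff] at h1
    exact (hw jx).ne' (by exact_mod_cast h1)
  have hd0 : 0 < g.natAbs := Int.natAbs_pos.2 hg0
  obtain ⟨F, hF⟩ : ∃ F : Fin (n + 1) → ℤ, F = fun i => if x i = 0 then 0 else g.sign * f i := ⟨_, rfl⟩
  have hF0 : ∀ i, x i = 0 → F i = 0 := by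
    intro i hi
    rw [hF]
    exact if_pos hi
  have hFs : ∑ i, (w i : ℤ) * F i = (g.natAbs : ℤ) := by
    rw [← Int.sign_mul_self_eq_natAbs]
    have h1 : g.sign * g = g.sign * ∑ i with x i ≠ 0, (w i : ℤ) * f i := congrArg _ hf
    rw [h1, Finset.sum_filter, Finset.mul_sum, hF]
    refine Finset.sum_congr rfl fun i _ => ?_
    by_cases hi : x i = 0
    · simp [hi]
    · simp only [hi, if_false, ne_eq, not_false_eq_true, if_true]
      ring
  obtain ⟨ρ, hρ⟩ : ∃ ρ : K, ρ = ∏ i, (y i / x i) ^ F i := ⟨_, rfl⟩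
  have hρ0 : ρ ≠ 0 := by
    rw [hρ]
    refine Finset.prod_ne_zero_iff.2 fun i _ => ?_
    by_cases hi : x i = 0
    · rw [hF0 i hi, zpow_zero]
      exact one_ne_zero
    · exact zpow_ne_zero _ (div_ne_zero (hxy i hi) hi)
  obtain ⟨a, ha⟩ := IsAlgClosed.exists_pow_nat_eq ρ hd0
  have ha0 : a ≠ 0 := by
    intro h0
    rw [h0, zero_pow hd0.ne'] at ha
    exact hρ0 ha.symm
  refine ⟨a, ha0, fun j => ?_⟩
  by_cases hj : x j = 0
  · rw [hj, hyx j hj, mul_zero]
  · obtain ⟨c, hc⟩ : g.natAbs ∣ w j := by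
      have h1 := Int.natAbs_dvd_natAbs.2 (hgd j hj)
      rwa [Int.natAbs_natCast] at h1
    have h1 := L2a_zp hxy h (fun i => (if i = j then 1 else 0) - (c : ℤ) * F i) (by
      intro i hi
      have hij : i ≠ j := fun hij => hj (hij ▸ hi)
      show (if i = j then (1 : ℤ) else 0) - (c : ℤ) * F i = 0
      rw [if_neg hij, hF0 i hi, mul_zero, sub_zero]) (by
      have h2 : ∑ i, (w i : ℤ) * ((if i = j then (1 : ℤ) else 0) - (c : ℤ) * F i) =
          (∑ i, (w i : ℤ) * (if i = j then (1 : ℤ) else 0)) - (c : ℤ) * ∑ i, (w i : ℤ) * F i := by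
        rw [Finset.mul_sum, ← Finset.sum_sub_distrib]
        exact Finset.sum_congr rfl fun i _ => by ring
      rw [h2, hFs]
      have h3 : ∑ i, (w i : ℤ) * (if i = j then (1 : ℤ) else 0) = (w j : ℤ) := by
        rw [Finset.sum_eq_single j]
        · rw [if_pos rfl, mul_one]
        · intro b _ hb
          rw [if_neg hb, mul_zero]
        · intro hl
          exact absurd (Finset.mem_univ j) hl
      rw [h3, hc]
      push_cast
      ring)
    have h4 : ∏ i, (y i / x i) ^ ((if i = j then (1 : ℤ) else 0) - (c : ℤ) * F i) =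
        (y j / x j) / ρ ^ c := by
      have h5 : ∀ i, (y i / x i) ^ ((if i = j then (1 : ℤ) else 0) - (c : ℤ) * F i) =
          (y i / x i) ^ (if i = j then 1 else 0) / ((y i / x i) ^ F i) ^ c := by
        intro i
        by_cases hi : x i = 0
        · have hij : i ≠ j := fun hij => hj (hij ▸ hi)
          rw [if_neg hij, if_neg hij, hF0 i hi]
          simp
        · rw [zpow_sub₀ (div_ne_zero (hxy i hi) hi), mul_comm (c : ℤ) (F i), zpow_mul, zpow_natCast]
          by_cases hij : i = j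
          · rw [if_pos hij, if_pos hij, zpow_one, pow_one]
          · rw [if_neg hij, if_neg hij, zpow_zero, pow_zero]
      rw [Finset.prod_congr rfl fun i _ => h5 i, Finset.prod_div_distrib, Finset.prod_pow, ← hρ,
        L2a_single (fun i => y i / x i) j 1, pow_one]
    have h6 : (y j / x j) / ρ ^ c = 1 := h4.symm.trans h1
    have h7 : y j / x j = ρ ^ c := (div_eq_one_iff_eq (pow_ne_zero _ hρ0)).1 h6
    have h8 : y j = ρ ^ c * x j := (div_eq_iff hj).1 h7
    rw [h8, ← ha, ← pow_mul, ← hc]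

theorem mon_of_same {K : Type} [Field K] {n : ℕ} {w : Fin (n + 1) → ℕ}
    {x y : Fin (n + 1) → K} (h : Same w x y) (α β : Fin (n + 1) → ℕ)
    (hαβ : ∑ i, w i * α i = ∑ i, w i * β i) :
    (∏ i, x i ^ α i) * ∏ i, y i ^ β i = (∏ i, y i ^ α i) * ∏ i, x i ^ β i := by
  obtain ⟨a, ha0, ha⟩ := h
  have h1 : ∀ γ : Fin (n + 1) → ℕ, ∏ i, y i ^ γ i = a ^ (∑ i, w i * γ i) * ∏ i, x i ^ γ i := by
    intro γ
    rw [← Finset.prod_pow_eq_pow_sum, ← Finset.prod_mul_distrib]
    refine Finset.prod_congr rfl fun i _ => ?_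
    rw [ha i, mul_pow, ← pow_mul]
  rw [h1 α, h1 β, hαβ]
  ring

end Pool.Agent.Lib.MP_1e3e9c_agF
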