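import Mathlib
import Pool.Agent.Lib.MP_1e3e9c_agF.L2a

/-!
# MP_1e3e9c_ag, project F, leaf L2b: descent of rational curves

PROOF. Let `p`, `s`, `t` be over `K`. `K` is infinite, so `aeval p P = 0` for the images `P` of the elements of `S` (all values are `0`, `Polynomial.funext`). By `same_of_mon` (L2a) there are exponents `α`, `β` of the same weight with `Q₀ = (∏ (p i)(s) ^ α i) (∏ (p i)(t) ^ β i) - (∏ (p i)(t) ^ α i) (∏ (p i)(s) ^ β i) ≠ 0`. Let `N` be a bound of the degrees of the `p i`,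
`U = (Fin (n + 1) × Fin (N + 1)) ⊕ Fin 2`, `u : U → K` the vector of the coefficients of the `p i` and of `s`, `t`; `Q₀ = Q(u)` for a polynomial `Q` over `k` in the variables `U`. Let `J` be the kernel of `aeval u` (a prime ideal); `Q ∉ J`, so by the Nullstellensatz (`M2_null` in `Pool/Agent/Lib/MP_1e3e9c_agM/M2.lean`, copy it) there is
`c : U → k` with `q(c) = 0` for `q ∈ J` and `Q(c) ≠ 0`. Let `p'`, `s'`, `t'` be the polynomials and elements of `k` with the vector `c`. For `P ∈ S` the coefficients of `aeval p' P` are the values at `c` of the elements of `J` which give the coefficients of `aeval p P = 0` (compare the proof of `mn_transfer` in M2): `aeval p' P = 0`. With `x = val p' s'`, `y = val p' t'`: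
`(∏ x_i ^ α_i)(∏ y_i ^ β_i) ≠ (∏ y_i ^ α_i)(∏ x_i ^ β_i)`. So `α ≠ 0` or `β ≠ 0`, hence (equal weights, `hw`) both are not `0`; if `x = 0` both sides are `0`: so `x ≠ 0`, `y ≠ 0`; `¬ Same w x y` by `mon_of_same`.
-/

set_option autoImplicit false

namespace Pool.Agent.Lib.MP_1e3e9c_agF

open Pool.Agent.Lib.MP_1e3e9c_agR

/-- A point over the algebraically closed field which satisfies all relations of `u`, and at which
`Q` is not zero. -/
private theorem L2b_null {k L U : Type} [Field k] [IsAlgClosed k] [Field L] [Algebra k L] [Finite U]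
    (u : U → L) (Q : MvPolynomial U k) (hQ : MvPolynomial.aeval u Q ≠ 0) :
    ∃ c : U → k, (∀ q : MvPolynomial U k, MvPolynomial.aeval u q = 0 → MvPolynomial.aeval c q = 0) ∧
      MvPolynomial.aeval c Q ≠ 0 := by
  have hJ : (RingHom.ker (MvPolynomial.aeval (R := k) u)).IsPrime := RingHom.ker_isPrime _
  have h1 : (RingHom.ker (MvPolynomial.aeval (R := k) u)).radical =
      RingHom.ker (MvPolynomial.aeval (R := k) u) := hJ.isRadical.radical
  have h2 := MvPolynomial.vanishingIdeal_zeroLocus_eq_radical (k := k) (K := k)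
    (RingHom.ker (MvPolynomial.aeval (R := k) u))
  rw [h1] at h2
  have h3 : Q ∉ MvPolynomial.vanishingIdeal k
      (MvPolynomial.zeroLocus k (RingHom.ker (MvPolynomial.aeval (R := k) u))) := by
    rw [h2]
    intro h4
    exact hQ ((RingHom.mem_ker).1 h4)
  rw [MvPolynomial.mem_vanishingIdeal_iff] at h3
  push Not at h3
  obtain ⟨c, hc, h4⟩ := h3
  rw [MvPolynomial.mem_zeroLocus_iff] at hc
  exact ⟨c, fun q hq => hc q ((RingHom.mem_ker).2 hq), h4⟩

/-- The unknowns. -/
private abbrev L2b_U (n N : ℕ) : Type := (Fin (n + 1) × Fin (N + 1)) ⊕ Fin 2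

/-- The curve with the given coefficients. -/
private noncomputable def L2b_crv {A : Type} [CommRing A] {n N : ℕ} (c : L2b_U n N → A)
    (i : Fin (n + 1)) : Polynomial A :=
  ∑ l : Fin (N + 1), Polynomial.C (c (Sum.inl (i, l))) * Polynomial.X ^ l.val

private theorem L2b_crv_map {A B : Type} [CommRing A] [CommRing B] {n N : ℕ} (c : L2b_U n N → A)
    (f : A →+* B) (i : Fin (n + 1)) : (L2b_crv c i).map f = L2b_crv (fun a => f (c a)) i := by
  unfold L2b_crv
  rw [Polynomial.map_sum]
  refine Finset.sum_congr rfl fun l _ => ?_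
  rw [Polynomial.map_mul, Polynomial.map_C, Polynomial.map_pow, Polynomial.map_X]

private theorem L2b_crv_coeff {A : Type} [CommRing A] {n N : ℕ} (p : Fin (n + 1) → Polynomial A)
    (c : L2b_U n N → A) (hc : ∀ i l, c (Sum.inl (i, l)) = (p i).coeff l.val)
    (h : ∀ i, (p i).natDegree ≤ N) : L2b_crv c = p := by
  funext i
  have h1 := Polynomial.as_sum_range_C_mul_X_pow' (p i) (Nat.lt_succ_iff.2 (h i))
  rw [Finset.sum_range] at h1
  refine Eq.trans ?_ h1.symm
  unfold L2b_crv
  exact Finset.sum_congr rfl fun l _ => by rw [hc]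

/-- The value of the curve at one of the two additional unknowns. -/
private noncomputable def L2b_vl {A : Type} [CommRing A] {n N : ℕ} (c : L2b_U n N → A) (r : Fin 2)
    (i : Fin (n + 1)) : A :=
  (L2b_crv c i).eval (c (Sum.inr r))

private theorem L2b_vl_map {A B : Type} [CommRing A] [CommRing B] {n N : ℕ} (c : L2b_U n N → A)
    (f : A →+* B) (r : Fin 2) (i : Fin (n + 1)) :
    f (L2b_vl c r i) = L2b_vl (fun a => f (c a)) r i := by
  unfold L2b_vl
  rw [← L2b_crv_map, Polynomial.eval_map, Polynomial.eval₂_at_apply]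

/-- The difference of the monomials. -/
private noncomputable def L2b_Q {A : Type} [CommRing A] {n : ℕ} (α β : Fin (n + 1) → ℕ)
    (x y : Fin (n + 1) → A) : A :=
  (∏ i, x i ^ α i) * (∏ i, y i ^ β i) - (∏ i, y i ^ α i) * ∏ i, x i ^ β i

private theorem L2b_Q_map {A B : Type} [CommRing A] [CommRing B] {n : ℕ} (α β : Fin (n + 1) → ℕ)
    (x y : Fin (n + 1) → A) (f : A →+* B) :
    f (L2b_Q α β x y) = L2b_Q α β (fun i => f (x i)) (fun i => f (y i)) := by
  unfold L2b_Q
  simp only [map_sub, map_mul, map_prod, map_pow]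

private theorem L2b_prod_zero {A : Type} [CommRing A] {n : ℕ} {α : Fin (n + 1) → ℕ} (h : α ≠ 0) :
    ∏ i, (0 : A) ^ α i = 0 := by
  obtain ⟨i, hi⟩ : ∃ i, α i ≠ 0 := by
    by_contra h1
    push Not at h1
    exact h (funext h1)
  exact Finset.prod_eq_zero (Finset.mem_univ i) (zero_pow hi)

private theorem L2b_ne {n : ℕ} {w : Fin (n + 1) → ℕ} (hw : ∀ i, 0 < w i) {α β : Fin (n + 1) → ℕ}
    (hαβ : ∑ i, w i * α i = ∑ i, w i * β i) (h : α = 0) : β = 0 := by
  subst h
  have h1 : ∑ i, w i * β i = 0 := by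
    rw [← hαβ]
    exact Finset.sum_eq_zero fun i _ => by simp
  funext i
  have h2 := (Finset.sum_eq_zero_iff.1 h1) i (Finset.mem_univ i)
  rcases Nat.mul_eq_zero.1 h2 with h3 | h3
  · exact absurd h3 (hw i).ne'
  · exact h3

theorem hasRat_descent {k K : Type} [Field k] [IsAlgClosed k] [Field K] [IsAlgClosed K]
    [Algebra k K] {n : ℕ} {w : Fin (n + 1) → ℕ} (hw : ∀ i, 0 < w i)
    {S : Set (MvPolynomial (Fin (n + 1)) k)}
    (h : HasRat w (MvPolynomial.map (algebraMap k K) '' S)) : HasRat w S := by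
  obtain ⟨p, hp, s, t, hs, ht, hst⟩ := h
  obtain ⟨α, β, hαβ, hne⟩ : ∃ α β : Fin (n + 1) → ℕ, ∑ i, w i * α i = ∑ i, w i * β i ∧
      L2b_Q α β (val p s) (val p t) ≠ 0 := by
    by_contra h1
    push Not at h1
    exact hst (same_of_mon hw hs ht fun α β h2 => sub_eq_zero.1 (h1 α β h2))
  -- the polynomial identities over `K`
  have hpK : ∀ P ∈ S, MvPolynomial.aeval p P = 0 := by
    intro P hP
    refine Polynomial.funext fun z => ?_
    rw [Polynomial.eval_zero]
    have h1 := hp z _ ⟨P, hP, rfl⟩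
    rw [MvPolynomial.eval_map] at h1
    have h2 : Polynomial.eval z (MvPolynomial.aeval p P) =
        MvPolynomial.eval₂ (algebraMap k K) (val p z) P := by
      rw [MvPolynomial.aeval_def, ← Polynomial.coe_evalRingHom, MvPolynomial.hom_eval₂]
      have h3 : (Polynomial.evalRingHom z).comp (algebraMap k (Polynomial K)) =
          algebraMap k K := by
        ext a
        rw [RingHom.comp_apply, IsScalarTower.algebraMap_apply k K (Polynomial K),
          Polynomial.algebraMap_apply, Polynomial.coe_evalRingHom, Polynomial.eval_C]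
        rfl
      rw [h3]
      rfl
    rw [h2, h1]
  -- the vector of the unknowns
  obtain ⟨N, hN⟩ : ∃ N, ∀ i, (p i).natDegree ≤ N :=
    ⟨Finset.univ.sup fun i => (p i).natDegree, fun i =>
      Finset.le_sup (f := fun i => (p i).natDegree) (Finset.mem_univ i)⟩
  obtain ⟨u, hu⟩ : ∃ u : L2b_U n N → K,
      u = Sum.elim (fun a => (p a.1).coeff a.2.val) ![s, t] := ⟨_, rfl⟩
  have hup : L2b_crv u = p := L2b_crv_coeff p u (fun i l => by rw [hu]; rfl) hN
  have hu0 : L2b_vl u 0 = val p s := by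
    funext i
    have h1 : u (Sum.inr 0) = s := by rw [hu]; rfl
    unfold L2b_vl
    rw [hup, h1]
    rfl
  have hu1 : L2b_vl u 1 = val p t := by
    funext i
    have h1 : u (Sum.inr 1) = t := by rw [hu]; rfl
    unfold L2b_vl
    rw [hup, h1]
    rfl
  -- the generic curve
  obtain ⟨G, hG⟩ : ∃ G : Fin (n + 1) → Polynomial (MvPolynomial (L2b_U n N) k),
      G = L2b_crv (fun a => MvPolynomial.X a) := ⟨_, rfl⟩
  have hGmap : ∀ {A : Type} [CommRing A] [Algebra k A] (c : L2b_U n N → A) (i : Fin (n + 1)),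
      Polynomial.mapAlgHom (MvPolynomial.aeval (R := k) c) (G i) = L2b_crv c i := by
    intro A _ _ c i
    rw [hG, Polynomial.coe_mapAlgHom, L2b_crv_map]
    congr 1
    funext a
    exact MvPolynomial.aeval_X c a
  have hcoef : ∀ {A : Type} [CommRing A] [Algebra k A] (c : L2b_U n N → A)
      (F : Polynomial (MvPolynomial (L2b_U n N) k)) (l : ℕ),
      MvPolynomial.aeval c (F.coeff l) =
        (Polynomial.mapAlgHom (MvPolynomial.aeval (R := k) c) F).coeff l := by
    intro A _ _ c F l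
    rw [Polynomial.coe_mapAlgHom, Polynomial.coeff_map]
    rfl
  have hP2 : ∀ {A : Type} [CommRing A] [Algebra k A] (c : L2b_U n N → A)
      (P : MvPolynomial (Fin (n + 1)) k),
      Polynomial.mapAlgHom (MvPolynomial.aeval (R := k) c) (MvPolynomial.aeval G P) =
        MvPolynomial.aeval (L2b_crv c) P := by
    intro A _ _ c P
    rw [MvPolynomial.comp_aeval_apply]
    congr 2
    funext i
    exact hGmap c i
  -- the polynomial which is not zero at `u`
  obtain ⟨Q, hQ⟩ : ∃ Q : MvPolynomial (L2b_U n N) k,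
      Q = L2b_Q α β (L2b_vl (fun a => MvPolynomial.X a) 0) (L2b_vl (fun a => MvPolynomial.X a) 1) :=
    ⟨_, rfl⟩
  have hQc : ∀ {A : Type} [CommRing A] [Algebra k A] (c : L2b_U n N → A),
      MvPolynomial.aeval c Q = L2b_Q α β (L2b_vl c 0) (L2b_vl c 1) := by
    intro A _ _ c
    have h1 : ∀ r : Fin 2, (fun i => (MvPolynomial.aeval (R := k) c : MvPolynomial (L2b_U n N) k →+* A)
        (L2b_vl (fun a => MvPolynomial.X a) r i)) = L2b_vl c r := by
      intro r
      funext i
      rw [L2b_vl_map]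
      congr 1
      funext a
      exact MvPolynomial.aeval_X c a
    have h2 := L2b_Q_map α β (L2b_vl (fun a => (MvPolynomial.X a : MvPolynomial (L2b_U n N) k)) 0)
      (L2b_vl (fun a => MvPolynomial.X a) 1)
      (MvPolynomial.aeval (R := k) c : MvPolynomial (L2b_U n N) k →+* A)
    rw [h1, h1, ← hQ] at h2
    exact h2
  have hQu : MvPolynomial.aeval u Q ≠ 0 := by
    rw [hQc, hu0, hu1]
    exact hne
  obtain ⟨c, hc, hcQ⟩ := L2b_null u Q hQu
  rw [hQc] at hcQ
  have hpk : ∀ P ∈ S, MvPolynomial.aeval (L2b_crv c) P = 0 := by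
    intro P hP
    refine Polynomial.ext fun l => ?_
    rw [← hP2 c, ← hcoef, Polynomial.coeff_zero]
    apply hc
    rw [hcoef, hP2, hup, hpK P hP, Polynomial.coeff_zero]
  have hv : ∀ r, L2b_vl c r = val (L2b_crv c) (c (Sum.inr r)) := fun r => rfl
  have hα : α ≠ 0 := by
    intro h1
    have h2 := L2b_ne hw hαβ h1
    apply hcQ
    unfold L2b_Q
    rw [h1, h2]
    simp
  have hβ : β ≠ 0 := by
    intro h1
    exact hα (L2b_ne hw hαβ.symm h1)
  refine ⟨L2b_crv c, ?_, c (Sum.inr 0), c (Sum.inr 1), ?_, ?_, ?_⟩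
  · intro z P hP
    have h1 := congrArg (Polynomial.eval z) (hpk P hP)
    rw [Polynomial.eval_zero, ← Polynomial.coe_aeval_eq_eval, MvPolynomial.comp_aeval_apply] at h1
    rw [← MvPolynomial.coe_aeval_eq_eval]
    exact h1
  · intro h1
    apply hcQ
    rw [hv, h1]
    unfold L2b_Q
    have h2 : ∏ i, (0 : Fin (n + 1) → k) i ^ α i = 0 := L2b_prod_zero hα
    have h3 : ∏ i, (0 : Fin (n + 1) → k) i ^ β i = 0 := L2b_prod_zero hβ
    rw [h2, h3, zero_mul, mul_zero, sub_zero]
  · intro h1
    apply hcQ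
    rw [hv 1, h1]
    unfold L2b_Q
    have h2 : ∏ i, (0 : Fin (n + 1) → k) i ^ α i = 0 := L2b_prod_zero hα
    have h3 : ∏ i, (0 : Fin (n + 1) → k) i ^ β i = 0 := L2b_prod_zero hβ
    rw [h2, h3, zero_mul, mul_zero, sub_zero]
  · intro h1
    apply hcQ
    rw [hv, hv]
    exact sub_eq_zero.2 (mon_of_same h1 α β hαβ)

end Pool.Agent.Lib.MP_1e3e9c_agF
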