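import Mathlib
import Pool.Agent.Lib.MP_1e3e9c_agM.MDefs
import Pool.Agent.Lib.MP_1e3e9c_agF.I1

/-!
# MP_1e3e9c_ag, project F, leaf L3: forms have a common zero

PROOF. `R = MvPolynomial (Fin (n + 1)) k`, `Z = {x | ∀ P ∈ S, P(x) = 0}`, `A = vanishingIdeal k Z`, `𝔪₀ = ker constantCoeff`. `dim_smooth` (I1) with `B = 1`, `N = n + 1 - c`: `N ≤ dm Z = ringKrullDim (R ⧸ A)`. `Z` is stable under the scalings `x ↦ (a ^ w i * x i)`, `a ≠ 0` (`hS`), and it contains `x₀`.
Copy the private lemmas of `Pool/Agent/Lib/MP_1e3e9c_agM/M9.lean` (they are for any index type `U` and exponents `e x + 1`: take `U = Fin (n + 1)`, `e i = w i - 1`): as in `cone_dim` there is a minimal prime `P` of `A` with `N ≤ ringKrullDim (R ⧸ P)`, `P ≤ 𝔪₀`, and the maximal ideal `𝔪 = 𝔪₀.map (Ideal.Quotient.mk P)` of `R ⧸ P` has height `≥ N` (`M9_fg`).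
Suppose that the claim is false. A common zero `x` of `P` and all `F j` is a zero of `A ≥ span S` (`x ∈ Z`), so `x = 0`. So by the Nullstellensatz (`MvPolynomial.vanishingIdeal_zeroLocus_eq_radical`) every `q ∈ 𝔪₀` has a power in `P ⊔ span (range F)`, so `𝔪` is the only prime ideal of `R ⧸ P` over the ideal generated by the `s` images of the `F j`
(the `F j` are in `𝔪₀`: positive weight), in particular minimal over it: its height is `≤ s` by Krull's height theorem (`Ideal.height_le_card_of_mem_minimalPrimes_span` / `..._span_finset`, Mathlib.RingTheory.Ideal.KrullsHeightTheorem). So `n + 1 - c ≤ s`: contradiction.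
-/

set_option autoImplicit false

namespace Pool.Agent.Lib.MP_1e3e9c_agF

open Pool.Agent.Lib.MP_1e3e9c_agR Pool.Agent.Lib.MP_1e3e9c_agM

private theorem L3_int {R S : Type} [CommRing R] [CommRing S] (g : R →+* S)
    (hg : g.IsIntegral) : ringKrullDim S ≤ ringKrullDim R := by
  let := g.toAlgebra
  refine Order.krullDim_le_of_strictMono (PrimeSpectrum.comap g) ?_
  intro p q hpq
  have hle : p.asIdeal ≤ q.asIdeal := hpq.le
  obtain ⟨x, hxq, hxp⟩ : ∃ x ∈ q.asIdeal, x ∉ p.asIdeal := SetLike.exists_of_lt hpq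
  exact Ideal.comap_lt_comap_of_integral_mem_sdiff hle ⟨hxq, hxp⟩ (hg x)

/-- the maximal ideals of the polynomial ring in `s` variables over a field have height at least `s` -/
private theorem L3_mv {k : Type} [Field k] (s : ℕ) :
    ∀ m : Ideal (MvPolynomial (Fin s) k), m.IsMaximal → (s : ℕ∞) ≤ m.height := by
  induction s with
  | zero =>
    intro m _
    simp
  | succ s ih =>
    intro m hm
    let e := (MvPolynomial.finSuccEquiv k s).toRingEquiv
    let m' : Ideal (Polynomial (MvPolynomial (Fin s) k)) := m.map e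
    have hm' : m'.IsMaximal := Ideal.map_isMaximal_of_equiv e
    have h1 : m'.height = m.height := RingEquiv.height_map e m
    have h2 : (m'.comap (Polynomial.C : MvPolynomial (Fin s) k →+* _)).IsMaximal :=
      Polynomial.isMaximal_comap_C_of_isJacobsonRing m'
    have h0 : m'.LiesOver (m'.comap (Polynomial.C : MvPolynomial (Fin s) k →+* _)) := ⟨rfl⟩
    have h3 := Polynomial.height_eq_height_add_one (m'.comap (Polynomial.C : MvPolynomial (Fin s) k →+* _)) m'
    rw [← h1, h3]
    push_cast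
    gcongr
    exact ih _ h2

/-- all maximal ideals of a domain of finite type over a field have the same height -/
private theorem L3_fg {k B : Type} [Field k] [CommRing B] [IsDomain B] [Algebra k B]
    [Algebra.FiniteType k B] (N : Ideal B) (hN : N.IsMaximal) :
    ringKrullDim B ≤ (N.height : WithBot ℕ∞) := by
  obtain ⟨s, g, hi, hint⟩ := exists_integral_inj_algHom_of_fg k B
  have h1 : ringKrullDim B ≤ ringKrullDim (MvPolynomial (Fin s) k) := L3_int g.toRingHom hint
  rw [MvPolynomial.ringKrullDim_of_isNoetherianRing, ringKrullDim_eq_zero_of_field, zero_add,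
    Nat.card_fin] at h1
  let _ : Algebra (MvPolynomial (Fin s) k) B := g.toRingHom.toAlgebra
  have i1 : FaithfulSMul (MvPolynomial (Fin s) k) B :=
    (faithfulSMul_iff_algebraMap_injective _ _).2 hi
  have i2 : Algebra.IsIntegral (MvPolynomial (Fin s) k) B := ⟨hint⟩
  have i3 : IsNoetherianRing B := Algebra.FiniteType.isNoetherianRing k B
  have h2 : (N.under (MvPolynomial (Fin s) k)).IsMaximal :=
    Ideal.isMaximal_comap_of_isIntegral_of_isMaximal N
  have h3 := Ideal.height_eq_height_add_of_liesOver_of_hasGoingDown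
    (N.under (MvPolynomial (Fin s) k)) N
  have h4 := L3_mv s _ h2
  have h5 : (s : ℕ∞) ≤ N.height := by
    rw [h3]
    exact h4.trans le_self_add
  refine h1.trans ?_
  exact_mod_cast h5

/-- the scaling with an additional variable -/
private noncomputable def L3_t {k U : Type} [Field k] (e : U → ℕ) :
    MvPolynomial U k →+* Polynomial (MvPolynomial U k) :=
  MvPolynomial.eval₂Hom (Polynomial.C.comp MvPolynomial.C)
    (fun x => Polynomial.C (MvPolynomial.X x) * Polynomial.X ^ (e x + 1))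

private theorem L3_t0 {k U : Type} [Field k] (e : U → ℕ) (q : MvPolynomial U k) :
    (L3_t e q).coeff 0 = MvPolynomial.C (MvPolynomial.constantCoeff q) := by
  have h : (Polynomial.constantCoeff (R := MvPolynomial U k)).comp (L3_t e) =
      (MvPolynomial.C : k →+* MvPolynomial U k).comp MvPolynomial.constantCoeff := by
    apply MvPolynomial.ringHom_ext
    · intro r
      simp [L3_t]
    · intro i
      simp [L3_t]
  exact congrArg (fun f : MvPolynomial U k →+* MvPolynomial U k => f q) h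

private theorem L3_t1 {k U : Type} [Field k] (e : U → ℕ) (q : MvPolynomial U k) :
    (L3_t e q).eval 1 = q := by
  have h : (Polynomial.evalRingHom (1 : MvPolynomial U k)).comp (L3_t e) =
      RingHom.id (MvPolynomial U k) := by
    apply MvPolynomial.ringHom_ext
    · intro r
      simp [L3_t]
    · intro i
      simp [L3_t]
  exact congrArg (fun f : MvPolynomial U k →+* MvPolynomial U k => f q) h

private theorem L3_ta {k U : Type} [Field k] (e : U → ℕ) (c : U → k) (a : k)
    (q : MvPolynomial U k) :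
    ((L3_t e q).map (MvPolynomial.eval c)).eval a =
      MvPolynomial.eval (fun x => a ^ (e x + 1) * c x) q := by
  have h : ((Polynomial.evalRingHom a).comp (Polynomial.mapRingHom (MvPolynomial.eval c))).comp
      (L3_t e) = MvPolynomial.eval (fun x => a ^ (e x + 1) * c x) := by
    apply MvPolynomial.ringHom_ext
    · intro r
      simp [L3_t]
    · intro i
      simp only [L3_t, RingHom.comp_apply, MvPolynomial.eval₂Hom_X', Polynomial.coe_mapRingHom,
        Polynomial.coe_evalRingHom, Polynomial.map_mul, Polynomial.map_C, Polynomial.map_pow,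
        Polynomial.map_X, Polynomial.eval_mul, Polynomial.eval_C, Polynomial.eval_pow,
        Polynomial.eval_X, MvPolynomial.eval_X]
      ring
  exact congrArg (fun f : MvPolynomial U k →+* k => f q) h

/-- the vanishing ideal of a cone is homogeneous -/
private theorem L3_hom {k U : Type} [Field k] [Infinite k] (e : U → ℕ) (Z : Set (U → k))
    (hZ : ∀ c ∈ Z, ∀ a : k, a ≠ 0 → (fun x : U => a ^ (e x + 1) * c x) ∈ Z)
    (q : MvPolynomial U k) (hq : q ∈ MvPolynomial.vanishingIdeal k Z) (d : ℕ) :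
    (L3_t e q).coeff d ∈ MvPolynomial.vanishingIdeal k Z := by
  rw [MvPolynomial.mem_vanishingIdeal_iff] at hq ⊢
  intro c hc
  have h1 : (L3_t e q).map (MvPolynomial.eval c) = 0 := by
    refine Polynomial.eq_zero_of_infinite_isRoot _ ?_
    refine Set.Infinite.mono (s := {a : k | a ≠ 0}) ?_ ?_
    · intro a ha
      show Polynomial.eval a _ = 0
      rw [L3_ta]
      have := hq _ (hZ c hc a ha)
      rwa [MvPolynomial.aeval_eq_eval] at this
    · have : {a : k | a ≠ 0} = ({0} : Set k)ᶜ := rfl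
      rw [this]
      exact (Set.finite_singleton (0 : k)).infinite_compl
  have h2 := congrArg (fun f : Polynomial k => f.coeff d) h1
  rw [MvPolynomial.aeval_eq_eval]
  simpa using h2

/-- minimal primes over the ideal of a cone consist of polynomials without constant term -/
private theorem L3_min {k U : Type} [Field k] (e : U → ℕ) (A : Ideal (MvPolynomial U k))
    (hA : ∀ q ∈ A, ∀ d, (L3_t e q).coeff d ∈ A) (P : Ideal (MvPolynomial U k))
    (hP : P ∈ A.minimalPrimes) : ∀ q ∈ P, MvPolynomial.constantCoeff q = 0 := by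
  have hp : P.IsPrime := hP.1.1
  have hAP : A ≤ P := hP.1.2
  let Q : Ideal (MvPolynomial U k) := (P.map (Polynomial.C : MvPolynomial U k →+* _)).comap (L3_t e)
  have hQmem : ∀ q, q ∈ Q ↔ ∀ d, (L3_t e q).coeff d ∈ P := fun q => by
    show L3_t e q ∈ P.map (Polynomial.C : MvPolynomial U k →+* _) ↔ _
    rw [Ideal.mem_map_C_iff]
  have h0 : (P.map (Polynomial.C : MvPolynomial U k →+* _)).IsPrime := Ideal.isPrime_map_C_of_isPrime
  have hQ : Q.IsPrime := Ideal.comap_isPrime _ _
  have hAQ : A ≤ Q := fun q hq => (hQmem q).2 fun d => hAP (hA q hq d)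
  have hQP : Q ≤ P := by
    intro q hq
    have h1 := (hQmem q).1 hq
    rw [← L3_t1 e q, Polynomial.eval_eq_sum]
    refine Ideal.sum_mem _ fun d _ => ?_
    exact Ideal.mul_mem_right _ _ (h1 d)
  have hPQ : P ≤ Q := hP.2 ⟨hQ, hAQ⟩ hQP
  intro q hq
  have h1 := (hQmem q).1 (hPQ hq) 0
  rw [L3_t0] at h1
  by_contra h2
  apply hp.ne_top
  rw [Ideal.eq_top_iff_one]
  have h3 := P.mul_mem_left (MvPolynomial.C (MvPolynomial.constantCoeff q)⁻¹) h1
  rwa [← MvPolynomial.C_mul, inv_mul_cancel₀ h2, MvPolynomial.C_1] at h3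

/-- the dimension of a quotient is the dimension of the quotient by a minimal prime -/
private theorem L3_chain {R : Type} [CommRing R] (A : Ideal R) (M : ℕ)
    (hM : ((M : ℕ) : WithBot ℕ∞) ≤ ringKrullDim (R ⧸ A)) :
    ∃ P ∈ A.minimalPrimes, ((M : ℕ) : WithBot ℕ∞) ≤ ringKrullDim (R ⧸ P) := by
  obtain ⟨l, hl⟩ := Order.le_krullDim_iff.1 hM
  let f : PrimeSpectrum (R ⧸ A) → PrimeSpectrum R := PrimeSpectrum.comap (Ideal.Quotient.mk A)
  have hf : StrictMono f := by
    intro p q hpq
    refine lt_of_le_of_ne (Ideal.comap_mono hpq.le) fun h => hpq.ne ?_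
    exact PrimeSpectrum.comap_injective_of_surjective _ Ideal.Quotient.mk_surjective h
  have hA : ∀ i, A ≤ (f (l i)).asIdeal := by
    intro i x hx
    show Ideal.Quotient.mk A x ∈ (l i).asIdeal
    rw [Ideal.Quotient.eq_zero_iff_mem.2 hx]
    exact Ideal.zero_mem _
  obtain ⟨P, hP, hPl⟩ := Ideal.exists_minimalPrimes_le (hA 0)
  refine ⟨P, hP, ?_⟩
  have h1 : ∀ i, P ≤ (f (l i)).asIdeal := fun i =>
    hPl.trans (hf.monotone (LTSeries.head_le l i))
  rw [ringKrullDim_quotient]
  let L : LTSeries (PrimeSpectrum.zeroLocus (P : Set R)) :=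
    { length := l.length
      toFun := fun i => ⟨f (l i), h1 i⟩
      step := fun i => hf (l.step i) }
  exact Order.le_krullDim_iff.2 ⟨L, hl⟩

/-- scaling, with the exponents `e i + 1 = w i` -/
private theorem L3_sc {k : Type} [Field k] {n : ℕ} {w : Fin (n + 1) → ℕ} (hw : ∀ i, 0 < w i)
    (a : k) (x : Fin (n + 1) → k) :
    (fun i => a ^ (w i - 1 + 1) * x i) = fun i => a ^ w i * x i := by
  funext i
  have h1 : w i - 1 + 1 = w i := by
    have := hw i
    omega
  rw [h1]

/-- a form of positive weight has no constant term -/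
private theorem L3_c0 {k : Type} [Field k] {n m : ℕ} {w : Fin (n + 1) → ℕ}
    {F : MvPolynomial (Fin (n + 1)) k} (hm : 0 < m) (hF : F.IsWeightedHomogeneous w m) :
    MvPolynomial.constantCoeff F = 0 := by
  by_contra h
  have h1 := hF (d := 0) h
  rw [map_zero] at h1
  omega

theorem exists_common_zero {k : Type} [Field k] [IsAlgClosed k] {n c s : ℕ}
    {w : Fin (n + 1) → ℕ} (hw : ∀ i, 0 < w i) {S : Set (MvPolynomial (Fin (n + 1)) k)}
    (hS : ∀ P ∈ S, ∃ m, P.IsWeightedHomogeneous w m) {x₀ : Fin (n + 1) → k}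
    (hx₀ : ∀ P ∈ S, MvPolynomial.eval x₀ P = 0) (hl : LCI S c x₀)
    (F : Fin s → MvPolynomial (Fin (n + 1)) k)
    (hF : ∀ j, ∃ m, 0 < m ∧ (F j).IsWeightedHomogeneous w m) (hn : c + s ≤ n) :
    ∃ x : Fin (n + 1) → k, x ≠ 0 ∧ (∀ P ∈ S, MvPolynomial.eval x P = 0) ∧
      ∀ j, MvPolynomial.eval x (F j) = 0 := by
  classical
  by_contra hcon
  push Not at hcon
  obtain ⟨N, hN⟩ : ∃ N, c + N = n + 1 := ⟨n + 1 - c, by omega⟩
  obtain ⟨Z, hZ⟩ : ∃ Z : Set (Fin (n + 1) → k), Z = {x : Fin (n + 1) → k |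
      (∀ P ∈ S, MvPolynomial.eval x P = 0) ∧
        MvPolynomial.eval x (1 : MvPolynomial (Fin (n + 1)) k) ≠ 0} := ⟨_, rfl⟩
  have hZm : ∀ x, x ∈ Z ↔ ∀ P ∈ S, MvPolynomial.eval x P = 0 := by
    intro x
    rw [hZ]
    exact ⟨fun h => h.1, fun h => ⟨h, by rw [map_one]; exact one_ne_zero⟩⟩
  have hdm := dim_smooth hN hx₀ hl 1 (by rw [map_one]; exact one_ne_zero)
  rw [← hZ] at hdm
  -- the cone
  have hsc : ∀ x ∈ Z, ∀ a : k, a ≠ 0 → (fun i => a ^ (w i - 1 + 1) * x i) ∈ Z := by
    intro x hx a _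
    rw [L3_sc hw, hZm]
    intro P hP
    obtain ⟨m, hm⟩ := hS P hP
    rw [eval_smul_w hm, (hZm x).1 hx P hP, mul_zero]
  have hom : ∀ q ∈ MvPolynomial.vanishingIdeal k Z, ∀ d,
      (L3_t (fun i : Fin (n + 1) => w i - 1) q).coeff d ∈ MvPolynomial.vanishingIdeal k Z :=
    fun q hq d => L3_hom (fun i : Fin (n + 1) => w i - 1) Z hsc q hq d
  obtain ⟨P, hP, hdim⟩ := L3_chain _ N hdm
  have hp : P.IsPrime := hP.1.1
  have hP0 := L3_min _ _ hom P hP
  obtain ⟨𝔪, h𝔪⟩ : ∃ 𝔪 : Ideal (MvPolynomial (Fin (n + 1)) k),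
      𝔪 = RingHom.ker (MvPolynomial.constantCoeff : MvPolynomial (Fin (n + 1)) k →+* k) := ⟨_, rfl⟩
  have hm : 𝔪.IsMaximal := by
    rw [h𝔪]
    exact RingHom.ker_isMaximal_of_surjective _ fun a => ⟨MvPolynomial.C a, by simp⟩
  have hmm : ∀ q, q ∈ 𝔪 ↔ MvPolynomial.constantCoeff q = 0 := by
    intro q
    rw [h𝔪, RingHom.mem_ker]
  have hPm : P ≤ 𝔪 := fun q hq => (hmm q).2 (hP0 q hq)
  have hmax : (𝔪.map (Ideal.Quotient.mk P)).IsMaximal := by
    refine Ideal.IsMaximal.map_of_surjective_of_ker_le Ideal.Quotient.mk_surjective ?_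
    rw [Ideal.mk_ker]
    exact hPm
  have h5 := hdim.trans (L3_fg (k := k) _ hmax)
  have h6 : (N : ℕ∞) ≤ (𝔪.map (Ideal.Quotient.mk P)).height := by exact_mod_cast h5
  -- Krull
  obtain ⟨G, hG⟩ : ∃ G : Finset (MvPolynomial (Fin (n + 1)) k ⧸ P),
      G = Finset.univ.image fun j => Ideal.Quotient.mk P (F j) := ⟨_, rfl⟩
  have hmin : 𝔪.map (Ideal.Quotient.mk P) ∈
      (Ideal.span (G : Set (MvPolynomial (Fin (n + 1)) k ⧸ P))).minimalPrimes := by
    refine ⟨⟨hmax.isPrime, ?_⟩, ?_⟩
    · rw [Ideal.span_le]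
      intro g hg
      rw [hG] at hg
      obtain ⟨j, -, rfl⟩ := Finset.mem_image.1 (Finset.mem_coe.1 hg)
      refine Ideal.mem_map_of_mem _ ((hmm _).2 ?_)
      obtain ⟨m, h1, h2⟩ := hF j
      exact L3_c0 h1 h2
    · rintro 𝔮 ⟨hq1, hq2⟩ hq3
      rw [Ideal.map_le_iff_le_comap]
      have hqp : (𝔮.comap (Ideal.Quotient.mk P)).IsPrime := Ideal.comap_isPrime _ _
      intro q hq
      rw [← MvPolynomial.IsPrime.vanishingIdeal_zeroLocus (K := k) (𝔮.comap (Ideal.Quotient.mk P)),
        MvPolynomial.mem_vanishingIdeal_iff]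
      intro y hy
      rw [MvPolynomial.mem_zeroLocus_iff] at hy
      have hPq : ∀ f ∈ P, MvPolynomial.aeval y f = 0 := by
        intro f hf
        refine hy f ?_
        rw [Ideal.mem_comap, Ideal.Quotient.eq_zero_iff_mem.2 hf]
        exact Ideal.zero_mem _
      have hy1 : ∀ Q ∈ S, MvPolynomial.eval y Q = 0 := by
        intro Q hQ
        have h1 : Q ∈ MvPolynomial.vanishingIdeal k Z := by
          rw [MvPolynomial.mem_vanishingIdeal_iff]
          intro x hx
          rw [MvPolynomial.aeval_eq_eval]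
          exact (hZm x).1 hx Q hQ
        have h2 := hPq Q (hP.1.2 h1)
        rwa [MvPolynomial.aeval_eq_eval] at h2
      have hy2 : ∀ j, MvPolynomial.eval y (F j) = 0 := by
        intro j
        have h1 := hy (F j) (hq2 (Ideal.subset_span (by
          rw [hG]
          exact Finset.mem_coe.2 (Finset.mem_image.2 ⟨j, Finset.mem_univ _, rfl⟩))))
        rwa [MvPolynomial.aeval_eq_eval] at h1
      have hy0 : y = 0 := by
        by_contra h1
        obtain ⟨j, hj⟩ := hcon y h1 hy1
        exact hj (hy2 j)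
      rw [hy0, MvPolynomial.aeval_eq_eval]
      have h3 := (hmm q).1 hq
      rw [← MvPolynomial.eval_zero] at h3
      exact h3
  have h7 := Ideal.height_le_card_of_mem_minimalPrimes_span_finset hmin
  have h8 : G.card ≤ s := by
    rw [hG]
    exact Finset.card_image_le.trans (by rw [Finset.card_univ, Fintype.card_fin])
  have h9 : (N : ℕ∞) ≤ (s : ℕ∞) := h6.trans (h7.trans (by exact_mod_cast h8))
  have h10 : N ≤ s := by exact_mod_cast h9
  omega

end Pool.Agent.Lib.MP_1e3e9c_agF
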