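import Mathlib

/-! MP_1e3e9c_ag, project F, block L (specialisation of rational curves): definition -/

set_option autoImplicit false

namespace Pool.Agent.Lib.MP_1e3e9c_agF

/-- The polynomials `q i` are constant multiples of one polynomial. -/
def Prp {K : Type} [Field K] {n : ℕ} (q : Fin (n + 1) → Polynomial K) : Prop :=
  ∃ (v : Fin (n + 1) → K) (h : Polynomial K), ∀ i, q i = Polynomial.C (v i) * h

end Pool.Agent.Lib.MP_1e3e9c_agF
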