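import Mathlib
import Pool.Agent.Lib.MP_1e3e9c_agF.LDefs

/-!
# MP_1e3e9c_ag, project F, leaf LA: normalisation over a valuation ring (4 theorems, MATHLIB ONLY)

PROOFS.
`red_exists`: the coefficients of `C M⁻¹ * q i` are `M⁻¹ * (q i).coeff l`, of valuation `≤ 1`, so in `A`: `r i := ∑ l in range (natDegree + 1), C ⟨.., _⟩ * X ^ l` (or `Polynomial.toSubring` / `Polynomial.mem_lifts` for
`algebraMap A L`). The coefficient of the reduction is the residue of `M⁻¹ * (q i).coeff l`, which is not `0` iff it is a unit of `A` iff its valuation is `1` (`ValuationSubring.valuation_eq_one_iff`, `valuation_lt_one_iff`, `IsLocalRing.residue_eq_zero_iff`).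
`exists_norm`: choose `(i, l)` with `A.valuation ((q i).coeff l)` maximal (finitely many nonzero coefficients; all valuations of zero coefficients are `0`), `M :=` this coefficient, `M ≠ 0` because some `q i ≠ 0`.
`map_of_pow`: `f = 0`: `F = 0` (then `g.map = 0`, so `g = 0` by injectivity, `0 ^ N = 0`). Otherwise `red_exists` (with `n = 0`, `q = fun _ => f`, `M` a coefficient of `f` of maximal valuation) gives `F₁` with `F₁.map = C M⁻¹ * f`
and nonzero reduction. `(F₁ ^ N).map = C (M⁻¹ ^ N) * g.map`. `F₁ ^ N` has nonzero reduction (`κ[X]` is a domain), so one of its coefficients, `M⁻¹ ^ N * g.coeff l`, has valuation `1`, and `g.coeff l ∈ A` has valuation `≤ 1`, so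
`A.valuation (M ^ N) = A.valuation (g.coeff l) ≤ 1`, so `A.valuation M ≤ 1` (`pow_le_one_iff` / if `1 < a` then `1 < a ^ N`), `M ∈ A`, `F := C ⟨M, _⟩ * F₁`; `F ^ N = g` by injectivity of `Polynomial.map` (`Polynomial.map_injective`).
`residue_closed`: `κ` algebraically closed: `IsAlgClosed.of_exists_root`: a monic irreducible `p̄ ∈ κ[X]` lifts to a monic `p ∈ A[X]` of the same degree `> 0` (`Polynomial.lifts_and_natDegree_eq_and_monic` with `IsLocalRing.residue_surjective`); it has a root
`x ∈ L`, integral over `A`, so `x ∈ A` (`A` is integrally closed in its fraction field `L`), and its residue is a root of `p̄`. (The same proof is in Pool/Agent/Lib/MP_b95a42_nt/Teich.lean, `isAlgClosed_residue`.)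
-/

set_option autoImplicit false

namespace Pool.Agent.Lib.MP_1e3e9c_agF

theorem red_exists {L : Type} [Field L] (A : ValuationSubring L) {n : ℕ}
    (q : Fin (n + 1) → Polynomial L) {M : L} (hM : M ≠ 0)
    (h : ∀ i l, A.valuation ((q i).coeff l) ≤ A.valuation M) :
    ∃ r : Fin (n + 1) → Polynomial A,
      (∀ i, (r i).map (algebraMap A L) = Polynomial.C M⁻¹ * q i) ∧
      ∀ i l, ((r i).map (IsLocalRing.residue A)).coeff l ≠ 0 ↔
        A.valuation ((q i).coeff l) = A.valuation M := by
  have hv : A.valuation M ≠ 0 := (Valuation.ne_zero_iff _).2 hM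
  have key : ∀ i, ∃ r : Polynomial A, r.map (algebraMap A L) = Polynomial.C M⁻¹ * q i := by
    intro i
    have h1 : Polynomial.C M⁻¹ * q i ∈ Polynomial.lifts (algebraMap A L) := by
      rw [Polynomial.lifts_iff_coeff_lifts]
      intro l
      have h2 : A.valuation ((Polynomial.C M⁻¹ * q i).coeff l) ≤ 1 := by
        rw [Polynomial.coeff_C_mul, map_mul, map_inv₀, mul_comm, ← div_eq_mul_inv]
        exact (div_le_one₀ (zero_lt_iff.2 hv)).2 (h i l)
      exact ⟨⟨_, (A.valuation_le_one_iff _).1 h2⟩, rfl⟩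
    exact (Polynomial.mem_lifts _).1 h1
  choose r hr using key
  refine ⟨r, hr, fun i l => ?_⟩
  have h3 : ((r i).coeff l : L) = M⁻¹ * (q i).coeff l := by
    have h4 := congrArg (fun f => Polynomial.coeff f l) (hr i)
    simp only [Polynomial.coeff_map, Polynomial.coeff_C_mul] at h4
    exact h4
  rw [Polynomial.coeff_map, IsLocalRing.residue_ne_zero_iff_isUnit, A.valuation_eq_one_iff, h3,
    map_mul, map_inv₀, inv_mul_eq_one₀ hv]
  exact eq_comm

theorem exists_norm {L : Type} [Field L] (A : ValuationSubring L) {n : ℕ}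
    (q : Fin (n + 1) → Polynomial L) (hq : ∃ i, q i ≠ 0) :
    ∃ M : L, M ≠ 0 ∧ (∀ i l, A.valuation ((q i).coeff l) ≤ A.valuation M) ∧
      ∃ i l, A.valuation ((q i).coeff l) = A.valuation M := by
  classical
  obtain ⟨i0, hi0⟩ := hq
  let N : ℕ := Finset.univ.sup fun i => (q i).natDegree
  have hN : ∀ i, (q i).natDegree ≤ N := fun i =>
    Finset.le_sup (f := fun i => (q i).natDegree) (Finset.mem_univ i)
  have hmem : ∀ i l, l ≤ N → (i, l) ∈ (Finset.univ : Finset (Fin (n + 1))) ×ˢ Finset.range (N + 1) :=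
    fun i l hl => Finset.mem_product.2 ⟨Finset.mem_univ _, Finset.mem_range.2 (by omega)⟩
  obtain ⟨⟨i, l⟩, -, hmax⟩ := Finset.exists_max_image
    ((Finset.univ : Finset (Fin (n + 1))) ×ˢ Finset.range (N + 1))
    (fun p => A.valuation ((q p.1).coeff p.2)) ⟨_, hmem i0 0 (Nat.zero_le _)⟩
  have hall : ∀ j m, A.valuation ((q j).coeff m) ≤ A.valuation ((q i).coeff l) := by
    intro j m
    rcases le_or_gt m N with hm | hm
    · exact hmax (j, m) (hmem j m hm)
    · rw [Polynomial.coeff_eq_zero_of_natDegree_lt ((hN j).trans_lt hm), map_zero]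
      exact zero_le
  refine ⟨(q i).coeff l, fun h0 => ?_, hall, i, l, rfl⟩
  have h1 := hall i0 (q i0).natDegree
  rw [h0, map_zero, le_zero_iff, map_eq_zero] at h1
  exact hi0 (Polynomial.leadingCoeff_eq_zero.1 h1)

theorem map_of_pow {L : Type} [Field L] (A : ValuationSubring L) {f : Polynomial L} {N : ℕ}
    (hN : 0 < N) {g : Polynomial A} (h : g.map (algebraMap A L) = f ^ N) :
    ∃ F : Polynomial A, F.map (algebraMap A L) = f ∧ F ^ N = g := by
  have hinj : Function.Injective (Polynomial.map (algebraMap A L)) :=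
    Polynomial.map_injective _ (FaithfulSMul.algebraMap_injective A L)
  rcases eq_or_ne f 0 with hf | hf
  · subst hf
    refine ⟨0, by simp, ?_⟩
    apply hinj
    rw [h, zero_pow hN.ne', zero_pow hN.ne', Polynomial.map_zero]
  · obtain ⟨M, hM, h1, i, l, h2⟩ := exists_norm A (n := 0) (fun _ => f) ⟨0, hf⟩
    obtain ⟨r, hr1, hr2⟩ := red_exists A (n := 0) (fun _ => f) hM h1
    have h3 : ((r i).map (IsLocalRing.residue A)).coeff l ≠ 0 := (hr2 i l).2 h2
    have h4 : ((r i) ^ N).map (IsLocalRing.residue A) ≠ 0 := by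
      rw [Polynomial.map_pow]
      apply pow_ne_zero
      intro h0
      rw [h0, Polynomial.coeff_zero] at h3
      exact h3 rfl
    obtain ⟨m, hm⟩ : ∃ m, (((r i) ^ N).map (IsLocalRing.residue A)).coeff m ≠ 0 := by
      by_contra hc
      push Not at hc
      exact h4 (Polynomial.ext fun m => by rw [hc m, Polynomial.coeff_zero])
    rw [Polynomial.coeff_map, IsLocalRing.residue_ne_zero_iff_isUnit, A.valuation_eq_one_iff] at hm
    have h5 : ((r i) ^ N).map (algebraMap A L) = Polynomial.C (M⁻¹ ^ N) * g.map (algebraMap A L) := by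
      rw [Polynomial.map_pow, hr1 i, mul_pow, h, ← Polynomial.C_pow]
    have h6 : ((((r i) ^ N).coeff m : A) : L) = M⁻¹ ^ N * (g.coeff m : L) := by
      have h7 := congrArg (fun f => Polynomial.coeff f m) h5
      simp only [Polynomial.coeff_map, Polynomial.coeff_C_mul] at h7
      exact h7
    have hv : A.valuation M ≠ 0 := (Valuation.ne_zero_iff _).2 hM
    have h8 : A.valuation M ^ N ≤ 1 := by
      rw [h6, map_mul, map_pow, map_inv₀, inv_pow, inv_mul_eq_one₀ (pow_ne_zero _ hv)] at hm
      rw [hm]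
      exact (A.valuation_le_one_iff _).2 (g.coeff m).2
    have h9 : A.valuation M ≤ 1 := by
      by_contra hc
      exact absurd h8 (not_le.2 (one_lt_pow₀ (not_le.1 hc) hN.ne'))
    have hMA : M ∈ A := (A.valuation_le_one_iff _).1 h9
    have hF : (Polynomial.C (⟨M, hMA⟩ : A) * r i).map (algebraMap A L) = f := by
      rw [Polynomial.map_mul, hr1 i, Polynomial.map_C, ← mul_assoc, ← Polynomial.C_mul]
      have h10 : algebraMap A L ⟨M, hMA⟩ * M⁻¹ = 1 := mul_inv_cancel₀ hM
      rw [h10, Polynomial.C_1, one_mul]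
    refine ⟨_, hF, ?_⟩
    apply hinj
    rw [Polynomial.map_pow, hF, h]

theorem residue_closed {L : Type} [Field L] [IsAlgClosed L] (A : ValuationSubring L) :
    IsAlgClosed (IsLocalRing.ResidueField A) := by
  apply IsAlgClosed.of_exists_root
  intro P hP hirr
  have hlift : P ∈ Polynomial.lifts (IsLocalRing.residue A) := by
    rw [Polynomial.lifts_iff_coeff_lifts]
    intro n
    exact IsLocalRing.residue_surjective _
  obtain ⟨Q, hQ, hdeg, hmon⟩ := Polynomial.lifts_and_natDegree_eq_and_monic hlift hP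
  have hdeg0 : (Q.map (algebraMap A L)).degree ≠ 0 := by
    rw [hmon.degree_map]
    intro h
    have h1 : P.natDegree = 0 := by
      rw [← hdeg]
      exact Polynomial.natDegree_eq_of_degree_eq_some h
    have h2 := hirr.natDegree_pos
    omega
  obtain ⟨z, hz⟩ := IsAlgClosed.exists_root _ hdeg0
  rw [Polynomial.IsRoot.def, Polynomial.eval_map] at hz
  have hzint : IsIntegral A z := ⟨Q, hmon, hz⟩
  obtain ⟨y, hy⟩ := (IsIntegrallyClosed.isIntegral_iff (R := A) (K := L)).1 hzint
  refine ⟨IsLocalRing.residue A y, ?_⟩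
  have h3 : Q.eval y = 0 := by
    apply FaithfulSMul.algebraMap_injective A L
    rw [map_zero, ← Polynomial.eval₂_at_apply, hy]
    exact hz
  rw [← hQ, Polynomial.eval_map, Polynomial.eval₂_at_apply, h3, map_zero]

end Pool.Agent.Lib.MP_1e3e9c_agF
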