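import Mathlib
import Pool.Agent.Lib.MP_1e3e9c_agF.LDefs
import Pool.Agent.Lib.MP_1e3e9c_agF.LA

/-!
# MP_1e3e9c_ag, project F, leaf LB: reductions on the path from `0` to infinity

NOTATION. `|x| = A.valuation x`; `|π_l| = max_i |(q i).coeff l|`, attained at `i = b l` (`Finite.exists_max`), `c l := (q (b l)).coeff l ∈ L`, so `|c l| = |π_l|`; `c l = 0` for `l > d`.
Suppose the conclusion is false. Then for EVERY `θ ≠ 0` and `l` with `c l ≠ 0` and `|c j| |θ|^j ≤ |c l| |θ|^l` for all `j`: apply `red_exists` (LA) to `fun i => (q i).comp (C θ * X)` (coefficients `(q i).coeff j * θ ^ j`, `Polynomial.comp_C_mul_X_coeff`),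
`M := c l * θ ^ l`: tuple `r`, `lam := M⁻¹`; by assumption the reduction is `Prp`: `r̄ i = C (v i) * h`. So (*): if `|c l'| |θ|^l' = |c l| |θ|^l` too, then: `(r̄ i).coeff l = v i * h_l`, not `0` for `i = b l`, so `h_l ≠ 0`, and in the same way `h_l' ≠ 0`; so
`(r̄ b).coeff l ≠ 0 ↔ v b ≠ 0 ↔ (r̄ b).coeff l' ≠ 0`: by `red_exists`: `|(q b).coeff l| = |c l| ↔ |(q b).coeff l'| = |c l'|` (cancel `|θ|^l ≠ 0`).
PATH. `Q l` := `c l ≠ 0 ∧ |(q b).coeff l| = |c l| ∧ (∃ θ ≠ 0, (∀ j > l, |c j| |θ|^j ≤ |c l| |θ|^l) ∧ (∀ i < l, |c i| |θ|^i < |c l| |θ|^l)) ∨ l = d` (with brackets: the last alternative replaces the existence of `θ`). `Q d` is `hb`, `hb0`.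
STEP: `Q l`, `0 < l` implies `Q l'` for some `l' < l`. For `i < l` with `c i ≠ 0` (there is one: `i = 0`, `h1`) let `θ_i` be a root of `X^(l-i) = c i / c l` (`IsAlgClosed.exists_pow_nat_eq`), `θ_i ≠ 0`; let `θ'` be the `θ_i` with `|θ_i|` maximal (over this finite set of `i`), `i = m`.
Then for `i < l`: `|c i| |θ'|^i ≤ |c l| |θ'|^l` (`|θ'|^(l-i) ≥ |θ_i|^(l-i) = |c i|/|c l|`; trivial if `c i = 0`), with equality for `i = m`. If `l = d`, the indices `j > l` have `c j = 0`. If `l < d`, with `θ` from `Q l`: `|θ_i| < |θ|` for all these `i` (`|c i| |θ|^i < |c l| |θ|^l` gives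
`|θ_i|^(l-i) < |θ|^(l-i)`), so `|θ'| < |θ|`, and for `j > l`: `|c j| |θ'|^j = |c j| |θ'|^(j-l) |θ'|^l ≤ |c j| |θ|^(j-l) |θ'|^l ≤ |c l| |θ'|^l`. So `l` is maximal at `θ'`, and so is `m`. Let `l'` be the least index with `|c l'| |θ'|^l' = |c l| |θ'|^l` (`Nat.find`), `l' ≤ m < l`. All `j` have `|c j||θ'|^j ≤ |c l'||θ'|^l'`, strictly for
`j < l'`. `|(q b).coeff l'| = |c l'|` by (*). So `Q l'`. By (strong) induction `Q 0`: `|(q b).coeff 0| = |c 0| ≠ 0`, against `h0`.
-/

set_option autoImplicit false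

namespace Pool.Agent.Lib.MP_1e3e9c_agF

private theorem LB_star {L : Type} [Field L] (A : ValuationSubring L) {n : ℕ}
    (q : Fin (n + 1) → Polynomial L) (c : ℕ → L)
    (hc : ∀ i l, A.valuation ((q i).coeff l) ≤ A.valuation (c l))
    (hc' : ∀ l, ∃ i, (q i).coeff l = c l)
    (hcon : ∀ (θ lam : L) (r : Fin (n + 1) → Polynomial A), θ ≠ 0 → lam ≠ 0 →
      (∀ i, (r i).map (algebraMap A L) =
        Polynomial.C lam * (q i).comp (Polynomial.C θ * Polynomial.X)) →
      Prp fun i => (r i).map (IsLocalRing.residue A))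
    {θ : L} (hθ : θ ≠ 0) {l l' : ℕ} (hl : c l ≠ 0)
    (hmax : ∀ j, A.valuation (c j) * A.valuation θ ^ j ≤ A.valuation (c l) * A.valuation θ ^ l)
    (heq : A.valuation (c l') * A.valuation θ ^ l' = A.valuation (c l) * A.valuation θ ^ l)
    {b : Fin (n + 1)} (hb : A.valuation ((q b).coeff l) = A.valuation (c l)) :
    A.valuation ((q b).coeff l') = A.valuation (c l') := by
  have hco : ∀ i j, ((q i).comp (Polynomial.C θ * Polynomial.X)).coeff j = (q i).coeff j * θ ^ j :=
    fun i j => Polynomial.comp_C_mul_X_coeff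
  have hvθ : A.valuation θ ≠ 0 := (A.valuation.ne_zero_iff).mpr hθ
  have hM : c l * θ ^ l ≠ 0 := mul_ne_zero hl (pow_ne_zero _ hθ)
  obtain ⟨r, hr1, hr2⟩ := red_exists A (fun i => (q i).comp (Polynomial.C θ * Polynomial.X)) hM (by
    intro i j
    rw [hco, map_mul, map_mul, map_pow, map_pow]
    exact le_trans (mul_le_mul_left (hc i j) _) (hmax j))
  obtain ⟨v, h, hv⟩ := hcon θ (c l * θ ^ l)⁻¹ r hθ (inv_ne_zero hM) hr1
  have key : ∀ j, A.valuation (c j) * A.valuation θ ^ j = A.valuation (c l) * A.valuation θ ^ l →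
      ∀ i, (v i ≠ 0 ↔ A.valuation ((q i).coeff j) = A.valuation (c j)) := by
    intro j hj
    have h1 : ∀ i, (v i * h.coeff j ≠ 0 ↔ A.valuation ((q i).coeff j) = A.valuation (c j)) := by
      intro i
      have h2 := hr2 i j
      have hvi : (r i).map (IsLocalRing.residue A) = Polynomial.C (v i) * h := hv i
      rw [hvi, Polynomial.coeff_C_mul, hco, map_mul, map_mul, map_pow, map_pow, ← hj] at h2
      rw [h2]
      constructor
      · intro h3
        exact mul_right_cancel₀ (pow_ne_zero _ hvθ) h3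
      · intro h3
        rw [h3]
    obtain ⟨i0, hi0⟩ := hc' j
    have h4 : v i0 * h.coeff j ≠ 0 := (h1 i0).mpr (by rw [hi0])
    have h5 : h.coeff j ≠ 0 := right_ne_zero_of_mul h4
    intro i
    rw [← h1 i]
    constructor
    · intro h6
      exact mul_ne_zero h6 h5
    · intro h6
      exact left_ne_zero_of_mul h6
  exact (key l' heq b).mp ((key l rfl b).mpr hb)

private theorem LB_step {L : Type} [Field L] [IsAlgClosed L] (A : ValuationSubring L) {n d : ℕ}
    (q : Fin (n + 1) → Polynomial L) (c : ℕ → L) (hcd : ∀ l, d < l → c l = 0) (hc0 : c 0 ≠ 0)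
    {b : Fin (n + 1)}
    (hstar : ∀ {θ : L}, θ ≠ 0 → ∀ {l l' : ℕ}, c l ≠ 0 →
      (∀ j, A.valuation (c j) * A.valuation θ ^ j ≤ A.valuation (c l) * A.valuation θ ^ l) →
      A.valuation (c l') * A.valuation θ ^ l' = A.valuation (c l) * A.valuation θ ^ l →
      A.valuation ((q b).coeff l) = A.valuation (c l) →
      A.valuation ((q b).coeff l') = A.valuation (c l'))
    {l : ℕ} (hl0 : 0 < l) (hl : c l ≠ 0) (hbl : A.valuation ((q b).coeff l) = A.valuation (c l))
    (hQ : (∃ θ : L, θ ≠ 0 ∧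
        (∀ j, l < j → A.valuation (c j) * A.valuation θ ^ j ≤ A.valuation (c l) * A.valuation θ ^ l) ∧
        (∀ i, i < l → A.valuation (c i) * A.valuation θ ^ i < A.valuation (c l) * A.valuation θ ^ l)) ∨
        l = d) :
    ∃ l', l' < l ∧ c l' ≠ 0 ∧ A.valuation ((q b).coeff l') = A.valuation (c l') ∧
      ∃ θ : L, θ ≠ 0 ∧
        (∀ j, l' < j → A.valuation (c j) * A.valuation θ ^ j ≤ A.valuation (c l') * A.valuation θ ^ l') ∧
        (∀ i, i < l' → A.valuation (c i) * A.valuation θ ^ i < A.valuation (c l') * A.valuation θ ^ l') := by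
  classical
  have hvcl : A.valuation (c l) ≠ 0 := (A.valuation.ne_zero_iff).mpr hl
  have hex : ∀ i, ∃ t : L, i < l → c i ≠ 0 → t ≠ 0 ∧
      A.valuation (c i) = A.valuation (c l) * A.valuation t ^ (l - i) := by
    intro i
    by_cases hi : i < l
    · by_cases hci : c i = 0
      · exact ⟨0, fun _ h => absurd hci h⟩
      · have hli : 0 < l - i := by omega
        obtain ⟨t, ht⟩ := IsAlgClosed.exists_pow_nat_eq (c i / c l) hli
        refine ⟨t, fun _ _ => ⟨?_, ?_⟩⟩
        · intro ht0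
          rw [ht0, zero_pow (by omega)] at ht
          exact (div_ne_zero hci hl) ht.symm
        · rw [← map_pow, ht, ← map_mul, mul_div_cancel₀ _ hl]
    · exact ⟨0, fun h => absurd h hi⟩
  choose tf htf using hex
  have hne : ((Finset.range l).filter fun i => c i ≠ 0).Nonempty :=
    ⟨0, Finset.mem_filter.mpr ⟨Finset.mem_range.mpr hl0, hc0⟩⟩
  obtain ⟨m, hm, hmmax⟩ := Finset.exists_max_image _ (fun i => A.valuation (tf i)) hne
  rw [Finset.mem_filter, Finset.mem_range] at hm
  obtain ⟨hml, hcm⟩ := hm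
  obtain ⟨hθ', hθm⟩ := htf m hml hcm
  set θ' := tf m with hθ'def
  have hvθ' : A.valuation θ' ≠ 0 := (A.valuation.ne_zero_iff).mpr hθ'
  have hlt : ∀ i, i < l →
      A.valuation (c i) * A.valuation θ' ^ i ≤ A.valuation (c l) * A.valuation θ' ^ l := by
    intro i hi
    by_cases hci : c i = 0
    · rw [hci, map_zero, zero_mul]
      exact zero_le
    · obtain ⟨-, h1⟩ := htf i hi hci
      have h2 : A.valuation (tf i) ≤ A.valuation θ' :=
        hmmax i (Finset.mem_filter.mpr ⟨Finset.mem_range.mpr hi, hci⟩)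
      have h3 : A.valuation (tf i) ^ (l - i) ≤ A.valuation θ' ^ (l - i) := pow_le_pow_left' h2 _
      calc A.valuation (c i) * A.valuation θ' ^ i
          = A.valuation (c l) * A.valuation (tf i) ^ (l - i) * A.valuation θ' ^ i := by rw [h1]
        _ ≤ A.valuation (c l) * A.valuation θ' ^ (l - i) * A.valuation θ' ^ i :=
            mul_le_mul_left (mul_le_mul_right h3 _) _
        _ = A.valuation (c l) * A.valuation θ' ^ l := by
            rw [mul_assoc, ← pow_add, Nat.sub_add_cancel hi.le]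
  have heqm : A.valuation (c m) * A.valuation θ' ^ m = A.valuation (c l) * A.valuation θ' ^ l := by
    rw [hθm, mul_assoc, ← pow_add, Nat.sub_add_cancel hml.le]
  have hgt : ∀ j, l < j →
      A.valuation (c j) * A.valuation θ' ^ j ≤ A.valuation (c l) * A.valuation θ' ^ l := by
    intro j hj
    rcases hQ with ⟨θ, hθ, hθ1, hθ2⟩ | hld
    · have hvθ : A.valuation θ ≠ 0 := (A.valuation.ne_zero_iff).mpr hθ
      have hle : A.valuation θ' ≤ A.valuation θ := by
        by_contra hcon
        rw [not_le] at hcon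
        have h1 := hθ2 m hml
        have h2 : A.valuation θ ^ (l - m) ≤ A.valuation θ' ^ (l - m) := pow_le_pow_left' hcon.le _
        have h3 : A.valuation (c l) * A.valuation θ ^ l ≤ A.valuation (c m) * A.valuation θ ^ m := by
          calc A.valuation (c l) * A.valuation θ ^ l
              = A.valuation (c l) * A.valuation θ ^ (l - m) * A.valuation θ ^ m := by
                rw [mul_assoc, ← pow_add, Nat.sub_add_cancel hml.le]
            _ ≤ A.valuation (c l) * A.valuation θ' ^ (l - m) * A.valuation θ ^ m :=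
                mul_le_mul_left (mul_le_mul_right h2 _) _
            _ = A.valuation (c m) * A.valuation θ ^ m := by rw [hθm]
        exact absurd h1 (not_lt.mpr h3)
      have h4 : A.valuation (c j) * A.valuation θ ^ (j - l) ≤ A.valuation (c l) := by
        have h5 := hθ1 j hj
        have h6 : A.valuation (c j) * A.valuation θ ^ (j - l) * A.valuation θ ^ l ≤
            A.valuation (c l) * A.valuation θ ^ l := by
          rw [mul_assoc, ← pow_add, Nat.sub_add_cancel hj.le]
          exact h5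
        exact le_of_mul_le_mul_right h6 (pow_pos (zero_lt_iff.mpr hvθ) _)
      have h7 : A.valuation θ' ^ (j - l) ≤ A.valuation θ ^ (j - l) := pow_le_pow_left' hle _
      calc A.valuation (c j) * A.valuation θ' ^ j
          = A.valuation (c j) * A.valuation θ' ^ (j - l) * A.valuation θ' ^ l := by
            rw [mul_assoc, ← pow_add, Nat.sub_add_cancel hj.le]
        _ ≤ A.valuation (c j) * A.valuation θ ^ (j - l) * A.valuation θ' ^ l :=
            mul_le_mul_left (mul_le_mul_right h7 _) _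
        _ ≤ A.valuation (c l) * A.valuation θ' ^ l := mul_le_mul_left h4 _
    · rw [hcd j (hld ▸ hj), map_zero, zero_mul]
      exact zero_le
  have hall : ∀ j, A.valuation (c j) * A.valuation θ' ^ j ≤ A.valuation (c l) * A.valuation θ' ^ l := by
    intro j
    rcases lt_trichotomy j l with h | h | h
    · exact hlt j h
    · rw [h]
    · exact hgt j h
  have hexl : ∃ l', A.valuation (c l') * A.valuation θ' ^ l' = A.valuation (c l) * A.valuation θ' ^ l :=
    ⟨m, heqm⟩
  have hl'eq := Nat.find_spec hexl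
  have hl'm : Nat.find hexl ≤ m := Nat.find_min' hexl heqm
  have hcl' : c (Nat.find hexl) ≠ 0 := by
    intro h
    rw [h, map_zero, zero_mul] at hl'eq
    exact (mul_ne_zero hvcl (pow_ne_zero _ hvθ')) hl'eq.symm
  refine ⟨Nat.find hexl, lt_of_le_of_lt hl'm hml, hcl', hstar hθ' hl hall hl'eq hbl, θ', hθ', ?_, ?_⟩
  · intro j _
    rw [hl'eq]
    exact hall j
  · intro i hi
    rw [hl'eq]
    exact lt_of_le_of_ne (hall i) (Nat.find_min hexl hi)

theorem path_red {L : Type} [Field L] [IsAlgClosed L] (A : ValuationSubring L) {n d : ℕ}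
    (q : Fin (n + 1) → Polynomial L) (hd : ∀ i, (q i).natDegree ≤ d) {b : Fin (n + 1)}
    (hb : ∀ i, A.valuation ((q i).coeff d) ≤ A.valuation ((q b).coeff d))
    (hb0 : (q b).coeff d ≠ 0) (h0 : (q b).coeff 0 = 0) (h1 : ∃ i, (q i).coeff 0 ≠ 0) :
    ∃ (θ lam : L) (r : Fin (n + 1) → Polynomial A), θ ≠ 0 ∧ lam ≠ 0 ∧
      (∀ i, (r i).map (algebraMap A L) =
        Polynomial.C lam * (q i).comp (Polynomial.C θ * Polynomial.X)) ∧
      ¬ Prp fun i => (r i).map (IsLocalRing.residue A) := by
  classical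
  by_contra hno
  push Not at hno
  have hcon : ∀ (θ lam : L) (r : Fin (n + 1) → Polynomial A), θ ≠ 0 → lam ≠ 0 →
      (∀ i, (r i).map (algebraMap A L) =
        Polynomial.C lam * (q i).comp (Polynomial.C θ * Polynomial.X)) →
      Prp fun i => (r i).map (IsLocalRing.residue A) := by
    intro θ lam r h1 h2 h3
    exact hno θ lam r h1 h2 h3
  have hbx : ∀ l, ∃ i0, ∀ i, A.valuation ((q i).coeff l) ≤ A.valuation ((q i0).coeff l) := fun l =>
    Finite.exists_max fun i => A.valuation ((q i).coeff l)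
  choose bf hbf using hbx
  have hcd : ∀ l, d < l → (q (bf l)).coeff l = 0 := fun l hl =>
    Polynomial.coeff_eq_zero_of_natDegree_lt (lt_of_le_of_lt (hd _) hl)
  have hc0 : (q (bf 0)).coeff 0 ≠ 0 := by
    obtain ⟨i, hi⟩ := h1
    intro h
    have h2 := hbf 0 i
    rw [h, map_zero, le_zero_iff, map_eq_zero] at h2
    exact hi h2
  have hstar : ∀ {θ : L}, θ ≠ 0 → ∀ {l l' : ℕ}, (q (bf l)).coeff l ≠ 0 →
      (∀ j, A.valuation ((q (bf j)).coeff j) * A.valuation θ ^ j ≤
        A.valuation ((q (bf l)).coeff l) * A.valuation θ ^ l) →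
      A.valuation ((q (bf l')).coeff l') * A.valuation θ ^ l' =
        A.valuation ((q (bf l)).coeff l) * A.valuation θ ^ l →
      A.valuation ((q b).coeff l) = A.valuation ((q (bf l)).coeff l) →
      A.valuation ((q b).coeff l') = A.valuation ((q (bf l')).coeff l') := by
    intro θ hθ l l' hl hmax heq hbl
    exact LB_star A q (fun l => (q (bf l)).coeff l) (fun i l => hbf l i) (fun l => ⟨bf l, rfl⟩)
      hcon hθ hl hmax heq hbl
  have main : ∀ l : ℕ, (q (bf l)).coeff l ≠ 0 →
      A.valuation ((q b).coeff l) = A.valuation ((q (bf l)).coeff l) →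
      ((∃ θ : L, θ ≠ 0 ∧
        (∀ j, l < j → A.valuation ((q (bf j)).coeff j) * A.valuation θ ^ j ≤
          A.valuation ((q (bf l)).coeff l) * A.valuation θ ^ l) ∧
        (∀ i, i < l → A.valuation ((q (bf i)).coeff i) * A.valuation θ ^ i <
          A.valuation ((q (bf l)).coeff l) * A.valuation θ ^ l)) ∨ l = d) → False := by
    intro l
    induction l using Nat.strong_induction_on with
    | _ l ih =>
      intro hl hbl hQ
      rcases Nat.eq_zero_or_pos l with hl0 | hl0
      · subst hl0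
        rw [h0, map_zero] at hbl
        exact hl ((map_eq_zero _).mp hbl.symm)
      · obtain ⟨l', hl', h2, h3, h4⟩ := LB_step A q (fun l => (q (bf l)).coeff l) hcd hc0
          (fun {θ} hθ {l l'} => hstar hθ) hl0 hl hbl hQ
        exact ih l' hl' h2 h3 (Or.inl h4)
  have hdd : A.valuation ((q b).coeff d) = A.valuation ((q (bf d)).coeff d) :=
    le_antisymm (hbf d b) (hb (bf d))
  refine main d ?_ hdd (Or.inr rfl)
  intro h
  rw [h, map_zero, map_eq_zero] at hdd
  exact hb0 hdd

end Pool.Agent.Lib.MP_1e3e9c_agF
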