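import Mathlib
import Pool.Agent.Lib.MP_1e3e9c_agF.LDefs
import Pool.Agent.Lib.MP_1e3e9c_agF.LA
import Pool.Agent.Lib.MP_1e3e9c_agF.LB

/-!
# MP_1e3e9c_ag, project F, leaf LC: a nonconstant reduction exists (2 theorems)

PROOF of `prp_cancel`: some `r i₀ ≠ 0` (otherwise `Prp r` with `h = 0`); `r i * g = C (v i) * h`, `v i₀ ≠ 0` (else `r i₀ * g = 0`), so `C (v i₀) * (r i * g) = C (v i₀ * v i) * h = C (v i) * (r i₀ * g)`, cancel `g`: `r i = C (v i / v i₀) * r i₀`.
PROOF of `gauss_red`: some `q i ≠ 0` (else `Prp`). Let `g` be a generator of the ideal `Ideal.span (Set.range q)` of the PID `L[X]`: `q i = g * q' i`, `g = ∑ a i * q i`, so `∑ a i * q' i = 1`: the `q' i` have no common root. `d := sup (natDegree (q' i))`. `d = 0`: all `q' i` are constants, `Prp q`.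
`0 < d`: choose `b` with `A.valuation ((q' i).coeff d) ≤ A.valuation ((q' b).coeff d)` for all `i` (`Finite.exists_max`); `(q' b).coeff d ≠ 0` because some `(q' i).coeff d ≠ 0`; so `natDegree (q' b) = d > 0` and it has a root `τ` (`IsAlgClosed.exists_root`).
`s i := (q' i).comp (X + C τ)`: `natDegree` the same, `(s i).coeff d = (q' i).coeff d` (leading coefficient of a composition with a monic linear polynomial, or `Polynomial.taylor` : `Polynomial.taylor_coeff`; if `natDegree (q' i) < d` both are `0`), `(s b).coeff 0 = (q' b).eval τ = 0`,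
some `(s i).coeff 0 = (q' i).eval τ ≠ 0`. `path_red` gives `θ, lam', r'`: `(r' i).map = C lam' * (s i).comp (C θ * X) = C lam' * (q' i).comp (C θ * X + C τ)`. Put `G := g.comp (C θ * X + C τ) ≠ 0` (`θ ≠ 0`; composition with a nonconstant linear polynomial is injective);
`exists_norm`, `red_exists` (LA, with `n = 0`) for `fun _ : Fin 1 => G`: `M ≠ 0`, `rg : A[X]` with `rg.map = C M⁻¹ * G` and nonzero reduction. `r i := r' i * rg`, `lam := lam' * M⁻¹`: `(r i).map = C lam * (q i).comp (..)`; the reduction `r̄' i * r̄g` is not `Prp` by `prp_cancel`.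
-/

set_option autoImplicit false

namespace Pool.Agent.Lib.MP_1e3e9c_agF

theorem prp_cancel {K : Type} [Field K] {n : ℕ} {r : Fin (n + 1) → Polynomial K}
    {g : Polynomial K} (hg : g ≠ 0) (h : Prp fun i => r i * g) : Prp r := by
  obtain ⟨v, h, hv⟩ := h
  by_cases hr : ∀ i, r i = 0
  · exact ⟨0, 0, fun i => by rw [hr i, mul_zero]⟩
  · rw [not_forall] at hr
    obtain ⟨i₀, hi₀⟩ := hr
    have hv0 : v i₀ ≠ 0 := by
      intro h0
      have h1 := hv i₀
      rw [h0, Polynomial.C_0, zero_mul] at h1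
      exact mul_ne_zero hi₀ hg h1
    refine ⟨fun i => v i / v i₀, r i₀, fun i => mul_right_cancel₀ hg ?_⟩
    have h1 : r i * g = Polynomial.C (v i) * h := hv i
    have h2 : r i₀ * g = Polynomial.C (v i₀) * h := hv i₀
    rw [h1, mul_assoc, h2, ← mul_assoc, ← Polynomial.C_mul, div_mul_cancel₀ _ hv0]

theorem gauss_red {L : Type} [Field L] [IsAlgClosed L] (A : ValuationSubring L) {n : ℕ}
    (q : Fin (n + 1) → Polynomial L) (hq : ¬ Prp q) :
    ∃ (τ θ lam : L) (r : Fin (n + 1) → Polynomial A), θ ≠ 0 ∧ lam ≠ 0 ∧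
      (∀ i, (r i).map (algebraMap A L) =
        Polynomial.C lam * (q i).comp (Polynomial.C θ * Polynomial.X + Polynomial.C τ)) ∧
      ¬ Prp fun i => (r i).map (IsLocalRing.residue A) := by
  classical
  obtain ⟨g, hg⟩ : ∃ g : Polynomial L, Ideal.span (Set.range q) = Ideal.span {g} :=
    (IsPrincipalIdealRing.principal (Ideal.span (Set.range q))).principal
  have hdvd : ∀ i, g ∣ q i := fun i =>
    Ideal.mem_span_singleton.1 (hg ▸ Ideal.subset_span (Set.mem_range_self i))
  choose q' hq' using hdvd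
  have hg0 : g ≠ 0 := by
    intro h0
    refine hq ⟨0, 0, fun i => ?_⟩
    rw [hq' i, h0, zero_mul, mul_zero]
  obtain ⟨a, ha⟩ : ∃ a : Fin (n + 1) → Polynomial L, ∑ i, a i * q i = g :=
    (Ideal.mem_span_range_iff_exists_fun).1 (hg ▸ Ideal.mem_span_singleton_self g)
  have ha1 : ∑ i, a i * q' i = 1 := by
    refine mul_left_cancel₀ hg0 ?_
    rw [Finset.mul_sum, mul_one]
    refine Eq.trans (Finset.sum_congr rfl fun i _ => ?_) ha
    rw [hq' i]
    ring
  obtain ⟨d, hd⟩ : ∃ d : ℕ, d = Finset.univ.sup (fun i => (q' i).natDegree) := ⟨_, rfl⟩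
  have hle : ∀ i, (q' i).natDegree ≤ d := fun i => by
    rw [hd]
    exact Finset.le_sup (f := fun i => (q' i).natDegree) (Finset.mem_univ i)
  have hd0 : 0 < d := by
    rcases Nat.eq_zero_or_pos d with h0 | h0
    · exfalso
      refine hq ⟨fun i => (q' i).coeff 0, g, fun i => ?_⟩
      have h1 : (q' i).natDegree = 0 := by
        have := hle i
        omega
      rw [hq' i, mul_comm]
      congr 1
      exact Polynomial.eq_C_of_natDegree_eq_zero h1
    · exact h0
  obtain ⟨i₁, _, hi₁⟩ := Finset.exists_mem_eq_sup Finset.univ Finset.univ_nonempty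
    (fun i => (q' i).natDegree)
  have hi₁d : (q' i₁).natDegree = d := by rw [hd, hi₁]
  have hc1 : (q' i₁).coeff d ≠ 0 := by
    rw [← hi₁d]
    intro h0
    have h1 : q' i₁ = 0 := Polynomial.leadingCoeff_eq_zero.1 h0
    rw [h1, Polynomial.natDegree_zero] at hi₁d
    omega
  obtain ⟨b, hb⟩ := Finite.exists_max (fun i => A.valuation ((q' i).coeff d))
  have hb0 : (q' b).coeff d ≠ 0 := by
    intro h0
    have h1 := hb i₁
    rw [h0, map_zero] at h1
    exact hc1 ((map_eq_zero A.valuation).1 (le_zero_iff.1 h1))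
  have hbd : (q' b).natDegree = d := le_antisymm (hle b) (Polynomial.le_natDegree_of_ne_zero hb0)
  have hbdeg : (q' b).degree ≠ 0 := by
    intro h0
    have h1 := Polynomial.natDegree_eq_of_degree_eq_some (n := 0) (by rw [h0]; rfl)
    omega
  obtain ⟨τ, hτ⟩ := IsAlgClosed.exists_root (q' b) hbdeg
  have hcoef : ∀ i, (Polynomial.taylor τ (q' i)).coeff d = (q' i).coeff d := by
    intro i
    rcases Nat.lt_or_ge (q' i).natDegree d with h | h
    · rw [Polynomial.coeff_eq_zero_of_natDegree_lt h, Polynomial.coeff_eq_zero_of_natDegree_lt]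
      rw [Polynomial.natDegree_taylor]
      exact h
    · have h1 : (q' i).natDegree = d := le_antisymm (hle i) h
      rw [← h1, Polynomial.coeff_taylor_natDegree]
      rfl
  obtain ⟨θ, lam', r', hθ, hlam, hr', hP⟩ := path_red A (d := d) (b := b) (fun i => Polynomial.taylor τ (q' i))
    (fun i => by rw [Polynomial.natDegree_taylor]; exact hle i)
    (fun i => by rw [hcoef, hcoef]; exact hb i) (by rw [hcoef]; exact hb0)
    (by rw [Polynomial.taylor_coeff_zero]; exact hτ)
    (by
      by_contra hall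
      rw [not_exists] at hall
      have h1 := congrArg (Polynomial.eval τ) ha1
      rw [Polynomial.eval_finsetSum, Polynomial.eval_one] at h1
      rw [Finset.sum_eq_zero] at h1
      · exact zero_ne_one h1
      · intro i _
        have h2 := not_not.1 (hall i)
        rw [Polynomial.taylor_coeff_zero] at h2
        rw [Polynomial.eval_mul, h2, mul_zero])
  have hcomp : ∀ i, (Polynomial.taylor τ (q' i)).comp (Polynomial.C θ * Polynomial.X) =
      (q' i).comp (Polynomial.C θ * Polynomial.X + Polynomial.C τ) := by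
    intro i
    rw [Polynomial.taylor_apply, Polynomial.comp_assoc, Polynomial.add_comp, Polynomial.X_comp, Polynomial.C_comp]
  have hG : g.comp (Polynomial.C θ * Polynomial.X + Polynomial.C τ) ≠ 0 := by
    intro h0
    apply hg0
    have h1 := congrArg (fun p => p.comp (Polynomial.C θ⁻¹ * (Polynomial.X - Polynomial.C τ))) h0
    simp only [Polynomial.comp_assoc, Polynomial.zero_comp] at h1
    have h2 : (Polynomial.C θ * Polynomial.X + Polynomial.C τ).comp
        (Polynomial.C θ⁻¹ * (Polynomial.X - Polynomial.C τ)) = Polynomial.X := by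
      rw [Polynomial.add_comp, Polynomial.mul_comp, Polynomial.C_comp, Polynomial.X_comp, Polynomial.C_comp,
        ← mul_assoc, ← Polynomial.C_mul, mul_inv_cancel₀ hθ, Polynomial.C_1, one_mul, sub_add_cancel]
    rwa [h2, Polynomial.comp_X] at h1
  obtain ⟨M, hM, hMle, j, l, hjl⟩ := exists_norm A (n := 0)
    (fun _ => g.comp (Polynomial.C θ * Polynomial.X + Polynomial.C τ)) ⟨0, hG⟩
  obtain ⟨rg, hrg, hrg0⟩ := red_exists A (n := 0)
    (fun _ => g.comp (Polynomial.C θ * Polynomial.X + Polynomial.C τ)) hM hMle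
  refine ⟨τ, θ, lam' * M⁻¹, fun i => r' i * rg j, hθ, mul_ne_zero hlam (inv_ne_zero hM), fun i => ?_, fun h => ?_⟩
  · rw [Polynomial.map_mul, hr', hrg, hcomp, hq' i, Polynomial.mul_comp, Polynomial.C_mul]
    ring
  · have hne : (rg j).map (IsLocalRing.residue A) ≠ 0 := by
      intro h0
      have h1 := (hrg0 j l).2 hjl
      rw [h0, Polynomial.coeff_zero] at h1
      exact h1 rfl
    refine hP (prp_cancel hne ?_)
    obtain ⟨v, p, hv⟩ := h
    exact ⟨v, p, fun i => (Polynomial.map_mul (IsLocalRing.residue A)).symm.trans (hv i)⟩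

end Pool.Agent.Lib.MP_1e3e9c_agF
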