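import Mathlib
import Pool.Agent.Lib.MP_1e3e9c_agF.LDefs
import Pool.Agent.Lib.MP_1e3e9c_agR.RDefs

/-!
# MP_1e3e9c_ag, project F, leaf LD: constant curves in weighted coordinates (2 theorems)

`val p t = fun i => (p i).eval t`; `Same w x y : ∃ a ≠ 0, ∀ i, y i = a ^ w i * x i`.
PROOF of `same_of_prp`. `p i ^ (N / w i) = C (v i) * h`. `val p s ≠ 0`: some `(p i).eval s ≠ 0`, so `h.eval s ≠ 0` (and `v i ≠ 0`), in the same way `h.eval t ≠ 0`; so `h ≠ 0`. If `v i = 0` then `p i = 0` (`0 < N / w i`). For the others and `a : K` let `e i a := rootMultiplicity a (p i)`,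
`m a := rootMultiplicity a h`: `(N / w i) * e i a = m a`, so `m a * w i = N * e i a` (`N / w i * w i = N`). `p i = C (u i) * ∏_{a in R} (X - C a) ^ e i a`, `R := h.roots.toFinset`, `u i` the leading coefficient (`p i` splits, its roots are roots of `h`:
`Polynomial.C_leadingCoeff_mul_prod_multiset_X_sub_C`, `Finset.prod_multiset_map_count`). For `a ∈ R`: `s ≠ a`, `t ≠ a`; let `ρ a ^ N = (t - a) / (s - a)` (`IsAlgClosed.exists_pow_nat_eq`), `ρ a ≠ 0`; `α := ∏_{a in R} ρ a ^ m a ≠ 0`. Then for `v i ≠ 0`: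
`α ^ w i = ∏ ρ a ^ (m a * w i) = ∏ (ρ a ^ N) ^ e i a = ∏ ((t - a) / (s - a)) ^ e i a`, so `α ^ w i * (p i).eval s = (p i).eval t`.
PROOF of `exists_not_same` (contraposition). Not all `p i` are `0` (else `Prp`), so there is `s` with `val p s ≠ 0` (`K` infinite: a nonzero polynomial has a nonzero value). Suppose `Same w (val p s) (val p t)` for all `t` with `val p t ≠ 0`. `q i := p i ^ (N / w i)`:
`(q i).eval t = a ^ N * (q i).eval s` for all `i`, `a` independent of `i` (`w i * (N / w i) = N`); if `val p t = 0` then `(q i).eval t = 0` for all `i` (`0 < N / w i`). So `(q i).eval t * (q j).eval s = (q j).eval t * (q i).eval s` for all `t`, `i`, `j`: with `(q j).eval s ≠ 0` the polynomials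
`q i * C ((q j).eval s)` and `q j * C ((q i).eval s)` agree at all `t` (`Polynomial.funext`), so `q i = C ((q i).eval s / (q j).eval s) * q j`: `Prp`.
-/

set_option autoImplicit false

namespace Pool.Agent.Lib.MP_1e3e9c_agF

open Pool.Agent.Lib.MP_1e3e9c_agR

private theorem LD_div {a N : ℕ} (ha : 0 < a) (hN : 0 < N) (hd : a ∣ N) :
    0 < N / a ∧ a * (N / a) = N :=
  ⟨Nat.div_pos (Nat.le_of_dvd hN hd) ha, Nat.mul_div_cancel' hd⟩

private theorem LD_eval {K : Type} [Field K] [IsAlgClosed K] (p : Polynomial K) (t : K) :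
    p.eval t = p.leadingCoeff * (p.roots.map fun a => t - a).prod := by
  have h : p = Polynomial.C p.leadingCoeff *
      (p.roots.map fun a => Polynomial.X - Polynomial.C a).prod :=
    (IsAlgClosed.splits p).eq_prod_roots
  have h1 := congrArg (Polynomial.eval t) h
  rw [Polynomial.eval_mul, Polynomial.eval_C, Polynomial.eval_multiset_prod,
    Multiset.map_map] at h1
  rw [h1]
  congr 2
  refine Multiset.map_congr rfl fun a _ => ?_
  simp

theorem same_of_prp {K : Type} [Field K] [IsAlgClosed K] {n N : ℕ} {w : Fin (n + 1) → ℕ}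
    (hw : ∀ i, 0 < w i) (hN : 0 < N) (hd : ∀ i, w i ∣ N) {p : Fin (n + 1) → Polynomial K}
    (h : Prp fun i => p i ^ (N / w i)) {s t : K} (hs : val p s ≠ 0) (ht : val p t ≠ 0) :
    Same w (val p s) (val p t) := by
  obtain ⟨v, h, hv⟩ := h
  have hev : ∀ x : K, val p x ≠ 0 → h.eval x ≠ 0 := by
    intro x hx hx0
    apply hx
    funext i
    have h1 := congrArg (Polynomial.eval x) (hv i)
    rw [Polynomial.eval_pow, Polynomial.eval_mul, hx0, mul_zero] at h1
    exact pow_eq_zero_iff (LD_div (hw i) hN (hd i)).1.ne' |>.1 h1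
  have hs' := hev s hs
  have ht' := hev t ht
  have hh : h ≠ 0 := by
    rintro rfl
    exact hs' Polynomial.eval_zero
  have hex : ∀ a : K, ∃ r : K, r ^ N = (t - a) / (s - a) := fun a =>
    IsAlgClosed.exists_pow_nat_eq _ hN
  choose ρ hρ using hex
  have hsa : ∀ a ∈ h.roots, s - a ≠ 0 := by
    intro a ha h0
    have h1 : s = a := sub_eq_zero.1 h0
    rw [h1] at hs'
    exact hs' ((Polynomial.mem_roots hh).1 ha)
  have hta : ∀ a ∈ h.roots, t - a ≠ 0 := by
    intro a ha h0
    have h1 : t = a := sub_eq_zero.1 h0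
    rw [h1] at ht'
    exact ht' ((Polynomial.mem_roots hh).1 ha)
  refine ⟨(h.roots.map ρ).prod, ?_, fun i => ?_⟩
  · intro h0
    rw [Multiset.prod_eq_zero_iff, Multiset.mem_map] at h0
    obtain ⟨a, ha, h0⟩ := h0
    have h1 := hρ a
    rw [h0, zero_pow hN.ne'] at h1
    exact div_ne_zero (hta a ha) (hsa a ha) h1.symm
  · obtain ⟨hn, hwn⟩ := LD_div (hw i) hN (hd i)
    show (p i).eval t = _ * (p i).eval s
    by_cases hvi : v i = 0
    · have h1 := hv i
      simp only [hvi, Polynomial.C_0, zero_mul] at h1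
      have h2 : p i = 0 := pow_eq_zero_iff hn.ne' |>.1 h1
      rw [h2, Polynomial.eval_zero, Polynomial.eval_zero, mul_zero]
    · have hr : (N / w i) • (p i).roots = h.roots := by
        have h1 := congrArg Polynomial.roots (hv i)
        simp only [Polynomial.roots_pow] at h1
        rw [h1, Polynomial.roots_C_mul _ hvi]
      have hmem : ∀ a ∈ (p i).roots, a ∈ h.roots := by
        intro a ha
        rw [← hr]
        exact Multiset.mem_nsmul.2 ⟨hn.ne', ha⟩
      have hα : (h.roots.map ρ).prod ^ w i =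
          ((p i).roots.map fun a => (t - a) / (s - a)).prod := by
        rw [← hr, Multiset.map_nsmul, Multiset.prod_nsmul, ← pow_mul, mul_comm, hwn,
          ← Multiset.prod_map_pow]
        exact congrArg Multiset.prod (Multiset.map_congr rfl fun a _ => hρ a)
      rw [hα, LD_eval (p i) t, LD_eval (p i) s, mul_left_comm, ← Multiset.prod_map_mul]
      congr 2
      refine Multiset.map_congr rfl fun a ha => ?_
      rw [div_mul_cancel₀ _ (hsa a (hmem a ha))]

theorem exists_not_same {K : Type} [Field K] [Infinite K] {n N : ℕ} {w : Fin (n + 1) → ℕ}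
    (hw : ∀ i, 0 < w i) (hN : 0 < N) (hd : ∀ i, w i ∣ N) {p : Fin (n + 1) → Polynomial K}
    (h : ¬ Prp fun i => p i ^ (N / w i)) :
    ∃ s t, val p s ≠ 0 ∧ val p t ≠ 0 ∧ ¬ Same w (val p s) (val p t) := by
  by_contra hcon
  push Not at hcon
  apply h
  by_cases h0 : ∀ i, p i = 0
  · refine ⟨0, 0, fun i => ?_⟩
    simp only [h0 i, mul_zero]
    exact zero_pow (LD_div (hw i) hN (hd i)).1.ne'
  push Not at h0
  obtain ⟨j, hj⟩ := h0
  have hs : ∃ s, (p j).eval s ≠ 0 := by
    by_contra hc
    push Not at hc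
    exact hj (Polynomial.funext fun x => by rw [hc x, Polynomial.eval_zero])
  obtain ⟨s, hs⟩ := hs
  have hvs : val p s ≠ 0 := fun h1 => hs (congrFun h1 j)
  refine ⟨fun i => (p i).eval s ^ (N / w i) / (p j).eval s ^ (N / w j), p j ^ (N / w j),
    fun i => Polynomial.funext fun t => ?_⟩
  rw [Polynomial.eval_mul, Polynomial.eval_C, Polynomial.eval_pow, Polynomial.eval_pow]
  obtain ⟨hni, hwi⟩ := LD_div (hw i) hN (hd i)
  obtain ⟨hnj, hwj⟩ := LD_div (hw j) hN (hd j)
  by_cases hvt : val p t = 0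
  · have h1 : (p i).eval t = 0 := congrFun hvt i
    have h2 : (p j).eval t = 0 := congrFun hvt j
    rw [h1, h2, zero_pow hni.ne', zero_pow hnj.ne', mul_zero]
  · obtain ⟨a, _, ha⟩ := hcon s t hvs hvt
    have h1 : (p i).eval t = a ^ w i * (p i).eval s := ha i
    have h2 : (p j).eval t = a ^ w j * (p j).eval s := ha j
    have h3 : (p j).eval s ^ (N / w j) ≠ 0 := pow_ne_zero _ hs
    rw [h1, h2, mul_pow, mul_pow, ← pow_mul, ← pow_mul, hwi, hwj]
    field_simp

end Pool.Agent.Lib.MP_1e3e9c_agF
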