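import Mathlib
import Pool.Agent.Lib.MP_1e3e9c_agF.LDefs

/-!
# MP_1e3e9c_ag, project F, leaf LE: equations of a scaled curve (3 theorems, MATHLIB ONLY)

PROOF of `wh_scale`: `aeval (fun i => c ^ w i • ..)`: expand (`MvPolynomial.aeval_def`, `eval₂_eq'`); each monomial `d` of `P` has `∑ w i * d i = m` (same proof as the private `M7_scale` in Pool/Agent/Lib/MP_1e3e9c_agM/M7.lean, with coefficients in the ring `A`).
PROOF of `eq_transfer`: `(MvPolynomial.aeval P' P).map (algebraMap A L) = MvPolynomial.aeval (fun i => (P' i).map ..) (P over L)` (`MvPolynomial.eval₂_comp` / `MvPolynomial.eval₂Hom` uniqueness: `MvPolynomial.hom_eval₂` and `MvPolynomial.eval₂_map`) `= 0` by `h`, and `Polynomial.map (algebraMap A L)` is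
injective; then apply `Polynomial.map (residue A)` to `MvPolynomial.eval₂ .. P = 0`.
PROOF of `eq_poly`: the polynomial `MvPolynomial.eval₂ Polynomial.C p P` has the value `MvPolynomial.eval (fun i => (p i).eval t) P = 0` at all `t` (`Polynomial.hom_eval₂`, `MvPolynomial.eval₂_comp_left` with `Polynomial.evalRingHom t`), `K` infinite: it is `0` (`Polynomial.funext`); and conversely.
-/

set_option autoImplicit false

namespace Pool.Agent.Lib.MP_1e3e9c_agF

private theorem LE_weight {n m : ℕ} {w : Fin (n + 1) → ℕ} {d : Fin (n + 1) →₀ ℕ} (h : Finsupp.weight w d = m) :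
    ∑ i, w i * d i = m := by
  rw [← h, Finsupp.weight_apply, Finsupp.sum_fintype _ _ (fun i => zero_smul ℕ (w i))]
  exact Finset.sum_congr rfl fun i _ => by rw [smul_eq_mul, mul_comm]

private theorem LE_map {R S : Type} [CommRing R] [CommRing S] (f : R →+* S) {n : ℕ} (P : MvPolynomial (Fin (n + 1)) R)
    (P' : Fin (n + 1) → Polynomial R) : (MvPolynomial.eval₂ Polynomial.C P' P).map f =
      MvPolynomial.eval₂ Polynomial.C (fun i => (P' i).map f) (MvPolynomial.map f P) := by
  have h1 := MvPolynomial.eval₂_comp_left (Polynomial.mapRingHom f) Polynomial.C P' P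
  rw [Polynomial.coe_mapRingHom] at h1
  rw [h1, MvPolynomial.eval₂_map]
  have h2 : (Polynomial.mapRingHom f).comp Polynomial.C = Polynomial.C.comp f := by
    refine RingHom.ext fun x => ?_
    rw [RingHom.comp_apply, RingHom.comp_apply, Polynomial.coe_mapRingHom, Polynomial.map_C]
  rw [h2]
  rfl

private theorem LE_eval {K : Type} [Field K] {n : ℕ} (P : MvPolynomial (Fin (n + 1)) K)
    (p : Fin (n + 1) → Polynomial K) (t : K) :
    (MvPolynomial.eval₂ Polynomial.C p P).eval t = MvPolynomial.eval (fun i => (p i).eval t) P := by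
  have h1 := MvPolynomial.eval₂_comp_left (Polynomial.evalRingHom t) Polynomial.C p P
  rw [Polynomial.coe_evalRingHom] at h1
  have h2 : (Polynomial.evalRingHom t).comp Polynomial.C = RingHom.id K := by
    refine RingHom.ext fun x => ?_
    rw [RingHom.comp_apply, Polynomial.coe_evalRingHom, Polynomial.eval_C, RingHom.id_apply]
  rw [h1, h2]
  rfl

/-- Scaling and a substitution preserve the equations. -/
theorem wh_scale {K : Type} [Field K] {n m : ℕ} {w : Fin (n + 1) → ℕ}
    {P : MvPolynomial (Fin (n + 1)) K} (hP : P.IsWeightedHomogeneous w m)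
    (p : Fin (n + 1) → Polynomial K) (a : Polynomial K) (c : K)
    (h : MvPolynomial.eval₂ Polynomial.C p P = 0) :
    MvPolynomial.eval₂ Polynomial.C (fun i => Polynomial.C (c ^ w i) * (p i).comp a) P = 0 := by
  have h1 : MvPolynomial.eval₂ Polynomial.C (fun i => (p i).comp a) P = 0 := by
    have h2 := MvPolynomial.eval₂_comp_left (Polynomial.compRingHom a) Polynomial.C p P
    rw [h, map_zero] at h2
    have h3 : (Polynomial.compRingHom a).comp Polynomial.C = Polynomial.C := by
      refine RingHom.ext fun x => ?_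
      rw [RingHom.comp_apply, Polynomial.coe_compRingHom_apply, Polynomial.C_comp]
    rw [h3] at h2
    exact h2.symm
  have h4 : MvPolynomial.eval₂ Polynomial.C (fun i => Polynomial.C (c ^ w i) * (p i).comp a) P =
      Polynomial.C (c ^ m) * MvPolynomial.eval₂ Polynomial.C (fun i => (p i).comp a) P := by
    rw [MvPolynomial.eval₂_eq', MvPolynomial.eval₂_eq', Finset.mul_sum]
    refine Finset.sum_congr rfl fun d hd => ?_
    have h5 := LE_weight (hP (MvPolynomial.mem_support_iff.1 hd))
    have h6 : ∏ i, (Polynomial.C (c ^ w i) * (p i).comp a) ^ d i =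
        Polynomial.C (c ^ m) * ∏ i, ((p i).comp a) ^ d i := by
      rw [← h5, ← Finset.prod_pow_eq_pow_sum, map_prod, ← Finset.prod_mul_distrib]
      refine Finset.prod_congr rfl fun i _ => ?_
      rw [mul_pow, ← Polynomial.C_pow, pow_mul]
    rw [h6]
    ring
  rw [h4, h1, mul_zero]

theorem eq_transfer {L : Type} [Field L] (A : ValuationSubring L) {n : ℕ}
    (P : MvPolynomial (Fin (n + 1)) A) (P' : Fin (n + 1) → Polynomial A)
    (h : MvPolynomial.eval₂ Polynomial.C (fun i => (P' i).map (algebraMap A L))
      (MvPolynomial.map (algebraMap A L) P) = 0) :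
    MvPolynomial.eval₂ Polynomial.C (fun i => (P' i).map (IsLocalRing.residue A))
      (MvPolynomial.map (IsLocalRing.residue A) P) = 0 := by
  rw [← LE_map] at h ⊢
  have h1 : MvPolynomial.eval₂ Polynomial.C P' P = 0 := by
    refine Polynomial.map_injective (algebraMap A L) (FaithfulSMul.algebraMap_injective A L) ?_
    rw [h, Polynomial.map_zero]
  rw [h1, Polynomial.map_zero]

theorem eq_poly {K : Type} [Field K] [Infinite K] {n : ℕ} (P : MvPolynomial (Fin (n + 1)) K)
    (p : Fin (n + 1) → Polynomial K) :
    (∀ t : K, MvPolynomial.eval (fun i => (p i).eval t) P = 0) ↔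
      MvPolynomial.eval₂ Polynomial.C p P = 0 := by
  constructor
  · intro h
    refine Polynomial.funext fun t => ?_
    rw [LE_eval, h t, Polynomial.eval_zero]
  · intro h t
    rw [← LE_eval, h, Polynomial.eval_zero]

end Pool.Agent.Lib.MP_1e3e9c_agF
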