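import Mathlib
import Pool.Agent.Lib.MP_1e3e9c_agF.LDefs
import Pool.Agent.Lib.MP_1e3e9c_agF.LA
import Pool.Agent.Lib.MP_1e3e9c_agF.LC
import Pool.Agent.Lib.MP_1e3e9c_agF.LD
import Pool.Agent.Lib.MP_1e3e9c_agF.LE

/-! MP_1e3e9c_ag, project F, block L: rational curves specialise (assembly) -/

set_option autoImplicit false

namespace Pool.Agent.Lib.MP_1e3e9c_agF

open Pool.Agent.Lib.MP_1e3e9c_agR

theorem spec {L : Type} [Field L] [IsAlgClosed L] (A : ValuationSubring L) {n : ℕ}
    {w : Fin (n + 1) → ℕ} (hw : ∀ i, 0 < w i) (T : Set (MvPolynomial (Fin (n + 1)) A))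
    (hT : ∀ P ∈ T, ∃ m, P.IsWeightedHomogeneous w m)
    (h : HasRat w (MvPolynomial.map (algebraMap A L) '' T)) :
    HasRat w (MvPolynomial.map (IsLocalRing.residue A) '' T) := by
  obtain ⟨p, hp, s, t, hs, ht, hst⟩ := h
  have := residue_closed A
  have hinf : Infinite (IsLocalRing.ResidueField A) := IsAlgClosed.instInfinite
  have hinfL : Infinite L := IsAlgClosed.instInfinite
  set N := ∏ i, w i with hNdef
  have hN : 0 < N := Finset.prod_pos fun i _ => hw i
  have hd : ∀ i, w i ∣ N := fun i => Finset.dvd_prod_of_mem w (Finset.mem_univ i)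
  have hNi : ∀ i, 0 < N / w i := fun i => Nat.div_pos (Nat.le_of_dvd hN (hd i)) (hw i)
  have hq : ¬ Prp fun i => p i ^ (N / w i) := fun h => hst (same_of_prp hw hN hd h hs ht)
  obtain ⟨τ, θ, lam, r, hθ, hlam, hr, hr'⟩ := gauss_red A _ hq
  obtain ⟨μ, hμ⟩ := IsAlgClosed.exists_pow_nat_eq lam hN
  have hex : ∀ i, ∃ F : Polynomial A, F.map (algebraMap A L) =
      Polynomial.C (μ ^ w i) * (p i).comp (Polynomial.C θ * Polynomial.X + Polynomial.C τ) ∧
      F ^ (N / w i) = r i := fun i => by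
    refine map_of_pow A (hNi i) ?_
    rw [hr i, mul_pow, ← Polynomial.C_pow, ← pow_mul, Nat.mul_div_cancel' (hd i), hμ,
      Polynomial.pow_comp]
  choose F hF hFr using hex
  have hnp : ¬ Prp fun i => ((F i).map (IsLocalRing.residue A)) ^ (N / w i) := by
    intro h
    apply hr'
    obtain ⟨v, g, hv⟩ := h
    refine ⟨v, g, fun i => ?_⟩
    have h1 := hv i
    simp only [← Polynomial.map_pow, hFr i] at h1
    exact h1
  obtain ⟨s', t', hs', ht', hst'⟩ := exists_not_same hw hN hd hnp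
  refine ⟨fun i => (F i).map (IsLocalRing.residue A), fun t₁ P hP => ?_, s', t', hs', ht', hst'⟩
  obtain ⟨P, hPT, rfl⟩ := hP
  obtain ⟨m, hm⟩ := hT P hPT
  have h1 : MvPolynomial.eval₂ Polynomial.C p (MvPolynomial.map (algebraMap A L) P) = 0 :=
    (eq_poly _ p).1 fun t => hp t _ ⟨P, hPT, rfl⟩
  have hm' : (MvPolynomial.map (algebraMap A L) P).IsWeightedHomogeneous w m := by
    intro d hd
    refine hm (fun h0 => hd ?_)
    rw [MvPolynomial.coeff_map, h0, map_zero]
  have h2 := wh_scale hm' p (Polynomial.C θ * Polynomial.X + Polynomial.C τ) μ h1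
  have h3 := eq_transfer A P F (by
    rw [← h2]
    congr 1
    funext i
    exact hF i)
  exact (eq_poly _ _).2 h3 t₁

end Pool.Agent.Lib.MP_1e3e9c_agF
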