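import Mathlib
import Pool.Agent.Lib.MP_1e3e9c_agC.C1
import Pool.Agent.Lib.MP_1e3e9c_agC.C4
import Pool.Agent.Lib.MP_1e3e9c_agC.C5
import Pool.Agent.Lib.MP_1e3e9c_agC.C6
import Pool.Agent.Lib.MP_1e3e9c_agC.C7
import Pool.Agent.Lib.MP_1e3e9c_agC.C8
import Pool.Agent.Lib.MP_1e3e9c_agC.C10
import Pool.Agent.Lib.MP_1e3e9c_agC.C13
import Pool.Agent.Lib.MP_1e3e9c_agC.C15
import Pool.Agent.Lib.MP_1e3e9c_agC.C16
import Pool.Agent.Lib.MP_1e3e9c_agC.C17
import Pool.Agent.Lib.MP_1e3e9c_agF.G13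
import Pool.Agent.Lib.MP_1e3e9c_agF.I4
import Pool.Agent.Lib.MP_1e3e9c_agF.LF
import Pool.Agent.Lib.MP_1e3e9c_agF.L2
import Pool.Agent.Lib.MP_1e3e9c_agF.L2b
import Pool.Agent.Lib.MP_1e3e9c_agF.L3

/-!
# MP_1e3e9c_ag, project F, leaf L4: every member of the linear systems contains a rational curve
-/

set_option autoImplicit false

namespace Pool.Agent.Lib.MP_1e3e9c_agF

open Pool.Agent.Lib.MP_1e3e9c_agR Pool.Agent.Lib.MP_1e3e9c_agM Pool.Agent.Lib.MP_1e3e9c_agC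

theorem hasRat_mono {k : Type} [Field k] {n : ℕ} {w : Fin (n + 1) → ℕ}
    {S T : Set (MvPolynomial (Fin (n + 1)) k)} (hST : S ⊆ T) (h : HasRat w T) : HasRat w S := by
  obtain ⟨p, hp, h2⟩ := h
  exact ⟨p, fun t P hP => hp t P (hST hP), h2⟩

private theorem L4_wh {k K : Type} [CommRing k] [CommRing K] (f : k →+* K) {n m : ℕ}
    {w : Fin (n + 1) → ℕ} {P : MvPolynomial (Fin (n + 1)) k} (h : P.IsWeightedHomogeneous w m) :
    (MvPolynomial.map f P).IsWeightedHomogeneous w m := by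
  intro d hd
  apply h
  intro h0
  apply hd
  rw [MvPolynomial.coeff_map, h0, map_zero]

private theorem L4_eval {k Ω : Type} [Field k] [Field Ω] [Algebra k Ω] {n : ℕ}
    (P : MvPolynomial (Fin (n + 1)) k) (x : Fin (n + 1) → Ω) :
    MvPolynomial.eval x (MvPolynomial.map (algebraMap k Ω) P) = MvPolynomial.aeval x P := by
  rw [MvPolynomial.eval_map, MvPolynomial.aeval_def]

/-- the specialisation of the generic members -/
private theorem L4_spec {k Ω : Type} [Field k] [IsAlgClosed k] [Field Ω] [IsAlgClosed Ω]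
    [Algebra k Ω] {n s N : ℕ} {w : Fin (n + 1) → ℕ} (hw : ∀ i, 0 < w i)
    {S : Set (MvPolynomial (Fin (n + 1)) k)} (hS : ∀ P ∈ S, ∃ m, P.IsWeightedHomogeneous w m)
    {g : Fin s → ℕ} {G : Fin s → MvPolynomial (Fin (n + 1)) k}
    (hG : ∀ j, (G j).IsWeightedHomogeneous w (g j))
    {M : Fin s → Fin N → MvPolynomial (Fin (n + 1)) k}
    (hM : ∀ j α, (M j α).IsWeightedHomogeneous w (g j))
    {τ : Fin s × Fin N → Ω} (hτ : AlgebraicIndependent k τ)
    (h : HasRat w (oS Ω S ∪ Set.range (gG τ 1 G M))) : HasRat w (S ∪ Set.range G) := by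
  classical
  obtain ⟨A, hA, hAτ⟩ := exists_place0 τ hτ
  let φ : k →+* A := (algebraMap k Ω).codRestrict A.toSubring hA
  have hφ : (algebraMap A Ω).comp φ = algebraMap k Ω := by
    ext a
    rfl
  let τ' : Fin s × Fin N → A := fun u => ⟨τ u, A.nonunits_le (hAτ u)⟩
  have hres : ∀ u, IsLocalRing.residue A (τ' u) = 0 := by
    intro u
    rw [IsLocalRing.residue_eq_zero_iff]
    exact (ValuationSubring.mem_nonunits_iff_exists_mem_maximalIdeal.1 (hAτ u)).2
  let T : Set (MvPolynomial (Fin (n + 1)) A) := (MvPolynomial.map φ '' S) ∪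
    Set.range fun j => MvPolynomial.map φ (G j) +
      ∑ α, MvPolynomial.C (τ' (j, α)) * MvPolynomial.map φ (M j α)
  have hT : ∀ P ∈ T, ∃ m, P.IsWeightedHomogeneous w m := by
    rintro P (⟨Q, hQ, rfl⟩ | ⟨j, rfl⟩)
    · obtain ⟨m, hm⟩ := hS Q hQ
      exact ⟨m, L4_wh φ hm⟩
    · refine ⟨g j, (L4_wh φ (hG j)).add ?_⟩
      apply MvPolynomial.IsWeightedHomogeneous.sum
      intro α _
      have := (MvPolynomial.isWeightedHomogeneous_C w (τ' (j, α))).mul (L4_wh φ (hM j α))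
      rwa [zero_add] at this
  have h1 : HasRat w (MvPolynomial.map (algebraMap A Ω) '' T) := by
    refine hasRat_mono ?_ h
    rintro _ ⟨P, ⟨Q, hQ, rfl⟩ | ⟨j, rfl⟩, rfl⟩
    · left
      refine ⟨Q, hQ, ?_⟩
      rw [MvPolynomial.map_map, hφ]
    · right
      refine ⟨j, ?_⟩
      simp only [gG, map_add, map_sum, map_mul, MvPolynomial.map_map, MvPolynomial.map_C, hφ,
        map_one, mul_one]
      rfl
  have h2 := spec A hw T hT h1
  let _ : Algebra k (IsLocalRing.ResidueField A) := ((IsLocalRing.residue A).comp φ).toAlgebra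
  have : IsAlgClosed (IsLocalRing.ResidueField A) := res_closed A
  apply hasRat_descent (K := IsLocalRing.ResidueField A) hw
  refine hasRat_mono ?_ h2
  rintro _ ⟨P, hP | ⟨j, rfl⟩, rfl⟩
  · refine ⟨MvPolynomial.map φ P, Or.inl ⟨P, hP, rfl⟩, ?_⟩
    rw [MvPolynomial.map_map]
    rfl
  · refine ⟨_, Or.inr ⟨j, rfl⟩, ?_⟩
    simp only [map_add, map_sum, map_mul, MvPolynomial.map_map, MvPolynomial.map_C, hres,
      map_zero, zero_mul, Finset.sum_const_zero, add_zero]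
    rfl

/-- The generic members at a point where the bad set is avoided. -/
private theorem L4_good {k Ω : Type} [Field k] [IsAlgClosed k] [Field Ω] [IsAlgClosed Ω]
    [Algebra k Ω] {n s N c : ℕ} {w : Fin (n + 1) → ℕ} (hw : ∀ i, 0 < w i)
    {S : Set (MvPolynomial (Fin (n + 1)) k)}
    {ψ : (Fin c → Fin (n + 1)) → MvPolynomial (Fin (n + 1)) k}
    {B : Set (Fin (n + 1) → k)} (hB : wdm w B ≤ ((s : ℕ) : WithBot ℕ∞))
    (hgd : ∀ x : Fin (n + 1) → k, x ≠ 0 → (∀ P ∈ S, MvPolynomial.eval x P = 0) → x ∉ B →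
      Gd w S c ψ x)
    {g : Fin s → ℕ} {G : Fin s → MvPolynomial (Fin (n + 1)) k}
    (hG : ∀ j, (G j).IsWeightedHomogeneous w (g j))
    {M : Fin s → Fin N → MvPolynomial (Fin (n + 1)) k}
    (hM : ∀ j α, (M j α).IsWeightedHomogeneous w (g j))
    {τ : Fin s × Fin N → Ω} (hτ : AlgebraicIndependent k τ) {x : Fin (n + 1) → Ω} (hx0 : x ≠ 0)
    (hxS : ∀ P ∈ S, MvPolynomial.aeval x P = 0)
    (hxG : ∀ j, MvPolynomial.eval x (gG τ 1 G M j) = 0)
    (hbpf : ∀ j, ∃ α, MvPolynomial.aeval x (M j α) ≠ 0) :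
    Gd w (oS Ω S) c (fun j => MvPolynomial.map (algebraMap k Ω) (ψ j)) x := by
  obtain ⟨i, hi⟩ := Function.ne_iff.1 hx0
  obtain ⟨F, hF, hFB⟩ := avoid (g₀ := 0) hw hτ (MvPolynomial.isWeightedHomogeneous_one k w) hG
    (fun j => Nat.zero_le _) hM hB hx0 (by rw [map_one]; exact one_ne_zero) hxG hbpf
  apply gd_spz (F := F * MvPolynomial.X i)
  · rw [map_mul, MvPolynomial.aeval_X]
    exact mul_ne_zero hF hi
  · intro y hy hyF
    rw [map_mul, MvPolynomial.eval_X] at hyF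
    apply hgd y
    · intro h
      apply right_ne_zero_of_mul hyF
      rw [h, Pi.zero_apply]
    · intro P hP
      exact hy P (hxS P hP)
    · intro h
      exact left_ne_zero_of_mul hyF (hFB y h)

/-- Bertini for the generic members -/
private theorem L4_bertini {k Ω : Type} [Field k] [Field Ω] [Algebra k Ω] {n s N c : ℕ}
    {S : Set (MvPolynomial (Fin (n + 1)) k)} {G : Fin s → MvPolynomial (Fin (n + 1)) k}
    {M : Fin s → Fin N → MvPolynomial (Fin (n + 1)) k} {τ : Fin s × Fin N → Ω}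
    (hτ : ∀ u, ∃ δ : Derivation k Ω Ω, δ (τ u) = 1 ∧ ∀ u', u' ≠ u → δ (τ u') = 0)
    {x : Fin (n + 1) → Ω} (hxS : ∀ P ∈ S, MvPolynomial.aeval x P = 0)
    (hxG : ∀ j, MvPolynomial.eval x (gG τ 1 G M j) = 0)
    (hbpf : ∀ j, ∃ α, MvPolynomial.aeval x (M j α) ≠ 0)
    (P : Fin c → MvPolynomial (Fin (n + 1)) Ω) (hP : ∀ l, P l ∈ oS Ω S)
    (hl : LinearIndependent Ω fun l => gr (P l) x) :
    LinearIndependent Ω (Sum.elim (fun l => gr (P l) x) fun j => gr (gG τ 1 G M j) x :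
      Fin c ⊕ Fin s → Fin (n + 1) → Ω) := by
  choose Q hQ hQP using hP
  obtain rfl : (fun l => MvPolynomial.map (algebraMap k Ω) (Q l)) = P := funext hQP
  exact bertini (k := k) τ hτ 1 G M Q x (fun l => hxS _ (hQ l)) hxG
    (by rw [map_one]; exact one_ne_zero) hbpf hl

private theorem L4_main {k : Type} [Field k] [IsAlgClosed k] [CharZero k] {n s m e c : ℕ}
    {w : Fin (n + 1) → ℕ} (hw : ∀ i, 0 < w i)
    {S : Set (MvPolynomial (Fin (n + 1)) k)} (hS : ∀ P ∈ S, ∃ m, P.IsWeightedHomogeneous w m)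
    {ψ : (Fin c → Fin (n + 1)) → MvPolynomial (Fin (n + 1)) k}
    (hψ : ∀ j, ψ j ≠ 0 → ∃ d, (ψ j).IsWeightedHomogeneous w d ∧ d + ∑ b, w (j b) = e)
    {B : Set (Fin (n + 1) → k)} (hB : wdm w B ≤ ((s : ℕ) : WithBot ℕ∞))
    (hgd : ∀ x : Fin (n + 1) → k, x ≠ 0 → (∀ P ∈ S, MvPolynomial.eval x P = 0) → x ∉ B →
      Gd w S c ψ x)
    {x₀ : Fin (n + 1) → k} (hx₀ : ∀ P ∈ S, MvPolynomial.eval x₀ P = 0) (hgd₀ : Gd w S c ψ x₀)
    {g : Fin (s + 1) → ℕ} (hg : ∀ j, 0 < g j) {G : Fin (s + 1) → MvPolynomial (Fin (n + 1)) k}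
    (hG : ∀ j, (G j).IsWeightedHomogeneous w (g j))
    (hbpf : ∀ j, ∀ x : Fin (n + 1) → k, x ≠ 0 → (∀ P ∈ S, MvPolynomial.eval x P = 0) →
      ∃ F : MvPolynomial (Fin (n + 1)) k, F.IsWeightedHomogeneous w (g j) ∧
        MvPolynomial.eval x F ≠ 0)
    (hn : c + s + 4 ≤ n) (hm : m + e = ∑ i, w i) (hgm : ∑ j, g j ≤ m) :
    HasRat w (S ∪ Set.range G) := by
  classical
  obtain ⟨N, M, hM, hspan⟩ := exists_forms k hw g
  obtain ⟨Ω, _, _, _, _, τ, hτ, hδ⟩ := exists_generic k (Fin (s + 1) × Fin N)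
  apply L4_spec hw hS hG hM hτ
  -- no base points over `Ω`
  have hb : ∀ x : Fin (n + 1) → Ω, x ≠ 0 → (∀ P ∈ S, MvPolynomial.aeval x P = 0) →
      ∀ j, ∃ α, MvPolynomial.aeval x (M j α) ≠ 0 := by
    intro x hx hxS j
    by_contra! hc
    obtain ⟨i, hi⟩ := Function.ne_iff.1 hx
    obtain ⟨y, hy, hxy⟩ := Pool.Agent.Lib.MP_1e3e9c_agC.spec (k := k) x (MvPolynomial.X i)
      (by rw [MvPolynomial.aeval_X]; exact hi)
    rw [MvPolynomial.eval_X] at hy
    obtain ⟨F, hF, hFy⟩ := hbpf j y (fun h => hy (by rw [h, Pi.zero_apply]))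
      fun P hP => hxy P (hxS P hP)
    apply hFy
    have h1 := hspan j F hF
    refine Submodule.span_induction (p := fun F _ => MvPolynomial.eval y F = 0) ?_ ?_ ?_ ?_ h1
    · rintro _ ⟨α, rfl⟩
      exact hxy _ (hc α)
    · exact map_zero _
    · intro a b _ _ ha hb
      rw [map_add, ha, hb, add_zero]
    · intro r a _ ha
      rw [MvPolynomial.smul_eval, ha, mul_zero]
  -- the points of `V'`
  let τ' : Fin s × Fin N → Ω := fun u => τ (u.1.succ, u.2)
  have hinj : Function.Injective fun u : Fin s × Fin N => ((u.1.succ, u.2) : Fin (s + 1) × Fin N) := by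
    rintro ⟨a, b⟩ ⟨a', b'⟩ h
    simpa using h
  have hτ' : AlgebraicIndependent k τ' := hτ.comp _ hinj
  have hδ' : ∀ u, ∃ δ : Derivation k Ω Ω, δ (τ' u) = 1 ∧ ∀ u', u' ≠ u → δ (τ' u') = 0 := by
    intro u
    obtain ⟨δ, h1, h2⟩ := hδ (u.1.succ, u.2)
    exact ⟨δ, h1, fun u' hu' => h2 _ (hinj.ne hu')⟩
  set H : Fin (s + 1) → MvPolynomial (Fin (n + 1)) Ω := gG τ 1 G M with hH
  have hgood : ∀ x : Fin (n + 1) → Ω, x ≠ 0 → (∀ P ∈ S, MvPolynomial.aeval x P = 0) →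
      (∀ j : Fin s, MvPolynomial.eval x (H j.succ) = 0) →
      Gd w (oS Ω S) c (fun j => MvPolynomial.map (algebraMap k Ω) (ψ j)) x :=
    fun x hx hxS hxH => L4_good hw hB hgd (fun j => hG j.succ) (fun j => hM j.succ) hτ' hx hxS hxH
      fun j => hb x hx hxS j.succ
  have hHw : ∀ j, (H j).IsWeightedHomogeneous w (g j) :=
    hom_gG τ (MvPolynomial.isWeightedHomogeneous_one k w) hG (fun j => Nat.zero_le _) hM
  have hoS : ∀ P ∈ oS Ω S, ∃ m, P.IsWeightedHomogeneous w m := by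
    rintro _ ⟨Q, hQ, rfl⟩
    obtain ⟨m, hm⟩ := hS Q hQ
    exact ⟨m, L4_wh _ hm⟩
  let S' : Set (MvPolynomial (Fin (n + 1)) Ω) := oS Ω S ∪ Set.range fun j : Fin s => H j.succ
  have hS'w : ∀ P ∈ S', ∃ m, P.IsWeightedHomogeneous w m := by
    rintro P (hP | ⟨j, rfl⟩)
    · exact hoS P hP
    · exact ⟨_, hHw j.succ⟩
  have hS'1 : ∀ x : Fin (n + 1) → Ω, (∀ P ∈ S', MvPolynomial.eval x P = 0) →
      ∀ P ∈ S, MvPolynomial.aeval x P = 0 := by
    intro x hx P hP
    rw [← L4_eval]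
    exact hx _ (Or.inl ⟨P, hP, rfl⟩)
  have hS'2 : ∀ x : Fin (n + 1) → Ω, (∀ P ∈ S', MvPolynomial.eval x P = 0) →
      ∀ j : Fin s, MvPolynomial.eval x (H j.succ) = 0 :=
    fun x hx j => hx _ (Or.inr ⟨j, rfl⟩)
  have hlci : ∀ x : Fin (n + 1) → Ω, x ≠ 0 → (∀ P ∈ S', MvPolynomial.eval x P = 0) →
      LCI S' (c + s) x := by
    intro x hx hxS
    have h1 := hS'1 x hxS
    have h2 := hS'2 x hxS
    refine lci_union (hgood x hx h1 h2).lci ?_
    intro P hP hPl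
    exact L4_bertini (k := k) (G := fun j => G j.succ) (M := fun j => M j.succ) hδ' h1 h2
      (fun j => hb x hx h1 j.succ) P hP hPl
  have hψΩ : ∀ j, MvPolynomial.map (algebraMap k Ω) (ψ j) ≠ 0 →
      ∃ d, (MvPolynomial.map (algebraMap k Ω) (ψ j)).IsWeightedHomogeneous w d ∧
        d + ∑ b, w (j b) = e := by
    intro j hj
    obtain ⟨d, h1, h2⟩ := hψ j fun h => hj (by rw [h, map_zero])
    exact ⟨d, L4_wh _ h1, h2⟩
  obtain ⟨ψ', hψ', hinv⟩ := adj s (S := oS Ω S) hψΩ (fun j : Fin s => H j.succ)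
    (fun j => g j.succ) fun j => hHw j.succ
  have hcnl : Cnl w S' (c + s) (e + ∑ j : Fin s, g j.succ) ψ' := by
    refine cnl_of_inv hψ' fun x hx hxS => ⟨?_, hlci x hx hxS⟩
    have h1 := hgood x hx (hS'1 x hxS) (hS'2 x hxS)
    refine hinv x (inv_of_lci (fun P hP => hxS P (Or.inl hP)) h1.lci h1.eq h1.ne)
  -- a point
  have hx₀' : ∀ P ∈ oS Ω S, MvPolynomial.eval (bc Ω x₀) P = 0 := by
    rintro _ ⟨Q, hQ, rfl⟩
    rw [L4_eval]
    have : MvPolynomial.aeval (bc Ω x₀) Q = algebraMap k Ω (MvPolynomial.eval x₀ Q) := by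
      rw [← MvPolynomial.coe_aeval_eq_eval]
      exact MvPolynomial.aeval_algebraMap_apply Ω x₀ Q
    rw [this, hx₀ Q hQ, map_zero]
  have hgd₀' : Gd w (oS Ω S) c (fun j => MvPolynomial.map (algebraMap k Ω) (ψ j)) (bc Ω x₀) := by
    apply gd_spz (F := 1) (by rw [map_one]; exact one_ne_zero)
    intro y hy _
    obtain rfl : y = x₀ := by
      funext i
      have := hy (MvPolynomial.X i - MvPolynomial.C (x₀ i)) (by
        rw [map_sub, MvPolynomial.aeval_X, MvPolynomial.aeval_C]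
        exact sub_self _)
      rwa [map_sub, MvPolynomial.eval_X, MvPolynomial.eval_C, sub_eq_zero] at this
    exact hgd₀
  obtain ⟨v₀, hv0, hvS, hvH⟩ := exists_common_zero hw hoS hx₀' hgd₀'.lci H
    (fun j => ⟨g j, hg j, hHw j⟩) (by omega)
  have hvS1 : ∀ P ∈ S, MvPolynomial.aeval v₀ P = 0 := by
    intro P hP
    rw [← L4_eval]
    exact hvS _ ⟨P, hP, rfl⟩
  have hvS' : ∀ P ∈ S', MvPolynomial.eval v₀ P = 0 := by
    rintro P (hP | ⟨j, rfl⟩)
    · exact hvS P hP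
    · exact hvH j.succ
  obtain ⟨P, hP, hPl, -⟩ := (hgood v₀ hv0 hvS1 fun j => hvH j.succ).lci
  have hli := L4_bertini hδ hvS1 hvH (fun j => hb v₀ hv0 hvS1 j) P hP hPl
  have hsmo : Smo S' (H 0) (c + s) v₀ := by
    refine ⟨Fin.append P fun j : Fin s => H j.succ, ?_, ?_⟩
    · intro l
      refine Fin.addCases (fun i => ?_) (fun j => ?_) l
      · rw [Fin.append_left]
        exact Or.inl (hP i)
      · rw [Fin.append_right]
        exact Or.inr ⟨j, rfl⟩
    · let E : Fin (c + s + 1) → Fin c ⊕ Fin (s + 1) :=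
        Fin.cons (Sum.inr 0) (Fin.addCases (fun i => Sum.inl i) fun j => Sum.inr j.succ)
      have hE : Function.Injective E := by
        intro a b
        refine Fin.cases ?_ (fun a => ?_) a
        · refine Fin.cases (fun _ => rfl) (fun b => ?_) b
          refine Fin.addCases (fun i => ?_) (fun j => ?_) b
          · intro h
            simp [E] at h
          · intro h
            simp [E] at h
            exact absurd h.symm (Fin.succ_ne_zero j)
        · refine Fin.cases ?_ (fun b => ?_) b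
          · refine Fin.addCases (fun i => ?_) (fun j => ?_) a
            · intro h
              simp [E] at h
            · intro h
              simp [E] at h
          · refine Fin.addCases (fun i => ?_) (fun j => ?_) a <;>
              refine Fin.addCases (fun i' => ?_) (fun j' => ?_) b <;> intro h <;> simp [E] at h
            · rw [h]
            · rw [h]
      have h3 := hli.comp E hE
      convert h3 using 1
      funext l
      refine Fin.cases ?_ (fun l => ?_) l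
      · rfl
      · refine Fin.addCases (fun i => ?_) (fun j => ?_) l
        · simp [E]
        · simp [E]
          rfl
  have hsum : ∑ j, g j = g 0 + ∑ j : Fin s, g j.succ := Fin.sum_univ_succ g
  have hfin := fano_rational_curve (g := g 0) (m := m - ∑ j : Fin s, g j.succ)
    (e := e + ∑ j : Fin s, g j.succ) (c := c + s) hw (hg 0) (by omega) hn hS'w (hHw 0)
    (fun x hx hxS => ⟨hlci x hx hxS, (hgood x hx (hS'1 x hxS) (hS'2 x hxS)).gc⟩) hcnl
    (by omega) hv0 hvS' (hvH 0) hsmo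
  refine hasRat_mono ?_ hfin
  rintro P (hP | ⟨j, rfl⟩)
  · exact Or.inr (Or.inl hP)
  · refine Fin.cases (Or.inl rfl) (fun j => Or.inr (Or.inr ⟨j, rfl⟩)) j

/-- Every member `W ∩ {G_0 = ⋯ = G_s = 0}` of base point free linear systems contains a rational curve. -/
theorem em_rational_curve {k : Type} [Field k] [IsAlgClosed k] [CharZero k] {n s c e : ℕ}
    {w : Fin (n + 1) → ℕ} (hw : ∀ i, 0 < w i) (hn : c + s + 4 ≤ n)
    {S : Set (MvPolynomial (Fin (n + 1)) k)} (hS : ∀ P ∈ S, ∃ m, P.IsWeightedHomogeneous w m)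
    {G : Fin (s + 1) → MvPolynomial (Fin (n + 1)) k} {g : Fin (s + 1) → ℕ} (hg : ∀ j, 0 < g j)
    (hG : ∀ j, (G j).IsWeightedHomogeneous w (g j))
    {ψ : (Fin c → Fin (n + 1)) → MvPolynomial (Fin (n + 1)) k}
    (hψ : ∀ j, ψ j ≠ 0 → ∃ d, (ψ j).IsWeightedHomogeneous w d ∧ d + ∑ b, w (j b) = e)
    {B : Set (Fin (n + 1) → k)} (hB : wdm w B ≤ ((s : ℕ) : WithBot ℕ∞))
    (hW : ∀ x : Fin (n + 1) → k, x ≠ 0 → (∀ P ∈ S, MvPolynomial.eval x P = 0) → x ∉ B →
      Gd w S c ψ x)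
    (hne : ∃ x : Fin (n + 1) → k, x ≠ 0 ∧ (∀ P ∈ S, MvPolynomial.eval x P = 0) ∧ Gd w S c ψ x)
    (hbp : ∀ x : Fin (n + 1) → k, x ≠ 0 → (∀ P ∈ S, MvPolynomial.eval x P = 0) →
      ∀ j, ∃ M : MvPolynomial (Fin (n + 1)) k, M.IsWeightedHomogeneous w (g j) ∧
        MvPolynomial.eval x M ≠ 0)
    (he : e + ∑ j, g j ≤ ∑ i, w i) : HasRat w (S ∪ Set.range G) := by
  obtain ⟨x₀, -, h1, h2⟩ := hne
  exact L4_main (m := ∑ i, w i - e) hw hS hψ hB hW h1 h2 hg hG (fun j x hx hxS => hbp x hx hxS j)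
    hn (by omega) (by omega)

end Pool.Agent.Lib.MP_1e3e9c_agF
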