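import Mathlib
import Pool.Agent.Lib.MP_1e3e9c_agF.LF

/-!
# MP_1e3e9c_ag, project F, block L, file LG: limits (2 theorems)

`hasRat_map`: a rational curve over an algebraically closed field `κ` gives one over every extension field: if `ψ (y i) = a ^ w i * ψ (x i)` and
`x i₀ ≠ 0`, then `a ^ w i₀` is in `ψ κ`, so `a` is in `ψ κ`. `limit_rat`: `spec` (LF) and this for `κ` = the residue field.
-/

set_option autoImplicit false

namespace Pool.Agent.Lib.MP_1e3e9c_agF

open Pool.Agent.Lib.MP_1e3e9c_agR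

/-- An element of an extension of an algebraically closed field with a power in it is in it. -/
private theorem LG_root {κ k : Type} [Field κ] [IsAlgClosed κ] [Field k] (ψ : κ →+* k) {m : ℕ}
    (hm : 0 < m) {a : k} {c : κ} (h : a ^ m = ψ c) : ∃ b, ψ b = a := by
  have h1 : (Polynomial.X ^ m - Polynomial.C c : Polynomial κ).Monic :=
    Polynomial.monic_X_pow_sub_C c hm.ne'
  have h2 : (Polynomial.X ^ m - Polynomial.C c : Polynomial κ) =
      ((Polynomial.X ^ m - Polynomial.C c : Polynomial κ).roots.map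
        fun r => Polynomial.X - Polynomial.C r).prod :=
    (IsAlgClosed.splits _).eq_prod_roots_of_monic h1
  have h3 := congrArg (Polynomial.eval₂ ψ a) h2
  rw [Polynomial.eval₂_sub, Polynomial.eval₂_X_pow, Polynomial.eval₂_C, h, sub_self,
    Polynomial.eval₂_multiset_prod, Multiset.map_map] at h3
  have h4 := Multiset.prod_eq_zero_iff.1 h3.symm
  obtain ⟨r, -, hr⟩ := Multiset.mem_map.1 h4
  refine ⟨r, ?_⟩
  simp only [Function.comp_apply, Polynomial.eval₂_sub, Polynomial.eval₂_X, Polynomial.eval₂_C] at hr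
  exact (sub_eq_zero.1 hr).symm

private theorem LG_same {κ k : Type} [Field κ] [IsAlgClosed κ] [Field k] (ψ : κ →+* k) {n : ℕ}
    {w : Fin (n + 1) → ℕ} (hw : ∀ i, 0 < w i) {x y : Fin (n + 1) → κ} (hx : x ≠ 0)
    (h : Same w (fun i => ψ (x i)) fun i => ψ (y i)) : Same w x y := by
  obtain ⟨a, ha, hi⟩ := h
  obtain ⟨i₀, hi₀⟩ := Function.ne_iff.1 hx
  have hx0 : x i₀ ≠ 0 := hi₀
  have hx1 : ψ (x i₀) ≠ 0 := fun h0 => hx0 ((map_eq_zero ψ).1 h0)
  have h1 : a ^ w i₀ = ψ (y i₀ / x i₀) := by
    rw [map_div₀, eq_div_iff hx1]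
    exact (hi i₀).symm
  obtain ⟨b, hb⟩ := LG_root ψ (hw i₀) h1
  refine ⟨b, fun h0 => ha (by rw [← hb, h0, map_zero]), fun i => ψ.injective ?_⟩
  have h2 := hi i
  rw [map_mul, map_pow, hb]
  exact h2

private theorem LG_map {R S : Type} [Field R] [Field S] (f : R →+* S) {n : ℕ}
    (P : MvPolynomial (Fin (n + 1)) R) (p : Fin (n + 1) → Polynomial R) :
    (MvPolynomial.eval₂ Polynomial.C p P).map f =
      MvPolynomial.eval₂ Polynomial.C (fun i => (p i).map f) (MvPolynomial.map f P) := by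
  rw [MvPolynomial.eval₂_map]
  have h := MvPolynomial.hom_eval₂ P Polynomial.C (Polynomial.mapRingHom f) p
  rw [Polynomial.coe_mapRingHom] at h
  rw [h]
  congr 1
  ext r
  simp

theorem hasRat_map {κ k : Type} [Field κ] [IsAlgClosed κ] [Field k] (ψ : κ →+* k) {n : ℕ}
    {w : Fin (n + 1) → ℕ} (hw : ∀ i, 0 < w i) {S : Set (MvPolynomial (Fin (n + 1)) κ)}
    (h : HasRat w S) : HasRat w (MvPolynomial.map ψ '' S) := by
  have hinf : Infinite κ := IsAlgClosed.instInfinite
  have hinfk : Infinite k := Infinite.of_injective ψ ψ.injective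
  obtain ⟨p, hp, s, t, hs, ht, hst⟩ := h
  have hval : ∀ u : κ, val (fun i => (p i).map ψ) (ψ u) = fun i => ψ (val p u i) := by
    intro u
    funext i
    exact Polynomial.eval_map_apply ψ u
  have hne : ∀ u : κ, val p u ≠ 0 → val (fun i => (p i).map ψ) (ψ u) ≠ 0 := by
    intro u hu h0
    apply hu
    funext i
    have h1 := congrFun h0 i
    rw [hval] at h1
    exact (map_eq_zero ψ).1 h1
  refine ⟨fun i => (p i).map ψ, ?_, ψ s, ψ t, hne s hs, hne t ht, ?_⟩
  · rintro t' _ ⟨P, hP, rfl⟩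
    refine (eq_poly _ _).2 ?_ t'
    rw [← LG_map, (eq_poly P p).1 fun u => hp u P hP, Polynomial.map_zero]
  · intro h1
    rw [hval, hval] at h1
    exact hst (LG_same ψ hw hs h1)

/-- **Limits.** Let `A` be a valuation ring of `L`, `φ` a local homomorphism of `A` to `k`, and `T` a set of forms over `A` which
vanish on the zero set of `S`. If this zero set contains a rational curve, then so does the zero set of `φ T`. -/
theorem limit_rat {L k : Type} [Field L] [IsAlgClosed L] [Field k] (A : ValuationSubring L)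
    (φ : A →+* k) (hφ : ∀ a, φ a ≠ 0 → IsUnit a) {n : ℕ} {w : Fin (n + 1) → ℕ}
    (hw : ∀ i, 0 < w i) {S : Set (MvPolynomial (Fin (n + 1)) L)}
    {T : Set (MvPolynomial (Fin (n + 1)) A)}
    (hT : ∀ P ∈ T, ∃ m, P.IsWeightedHomogeneous w m)
    (hTS : ∀ P ∈ T, ∀ x : Fin (n + 1) → L, (∀ Q ∈ S, MvPolynomial.eval x Q = 0) →
      MvPolynomial.eval x (MvPolynomial.map (algebraMap A L) P) = 0)
    (h : HasRat w S) : HasRat w (MvPolynomial.map φ '' T) := by
  have hloc : IsLocalHom φ := ⟨fun a ha => hφ a ha.ne_zero⟩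
  have := residue_closed A
  have h1 : HasRat w (MvPolynomial.map (algebraMap A L) '' T) := by
    obtain ⟨p, hp, hst⟩ := h
    refine ⟨p, ?_, hst⟩
    rintro t _ ⟨P, hP, rfl⟩
    exact hTS P hP _ (hp t)
  have h2 := hasRat_map (IsLocalRing.ResidueField.lift φ) hw (spec A hw T hT h1)
  rw [← Set.image_comp] at h2
  have h3 : (fun P : MvPolynomial (Fin (n + 1)) A => MvPolynomial.map φ P) =
      (fun P => MvPolynomial.map (IsLocalRing.ResidueField.lift φ) P) ∘
        fun P => MvPolynomial.map (IsLocalRing.residue A) P := by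
    funext P
    simp only [Function.comp_apply]
    rw [MvPolynomial.map_map, IsLocalRing.ResidueField.lift_comp_residue]
  rw [show (MvPolynomial.map φ '' T) = (fun P : MvPolynomial (Fin (n + 1)) A =>
    MvPolynomial.map φ P) '' T from rfl, h3]
  exact h2

end Pool.Agent.Lib.MP_1e3e9c_agF
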